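import Pool.Agent.Lib.P51n.ARatio

/-!
# P51n.AAv  (about 1.5 h)

Averages of the information over a subfamily `Ω ⊆ G`.  For a positive function `g` on `G` with
`∑_{x ∈ G} g ≤ B |G|` one has, by concavity of the logarithm (Jensen, or `log x ≤ log a + (x-a)/a`),
`(1/|Ω|) ∑_{x ∈ Ω} log₂ g(x) ≤ log₂ (B |G|/|Ω|)`.  Apply this to the ratios of `ARatio`.
`info = log₂(|G|/ncard)`, `ncard ≥ 1` on `G` (reflexivity).

* `av_cs`: `ratio_net`.
* `av_shift`: `ratio_shift` with `κ₁ = κ₂ = κ₀`: `(4·2^t + 3) ≤ 2^(t+3)`.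
* `av_submod`: `ratio_sup` with `κ = κ₀`, and `ratio_shift` with `t = 0`, `κ₂ = κ₀`, `κ₁ = 4κ₀`
  (`19 ≤ 2^5`), `κ₁ = 8κ₀` (`35 ≤ 2^6`).
* `info_full`: `near_full`: `ncard = 1`.
* `info_mono`, `info_nonneg`, `info_le`: clear.
* `shift_typical`: Markov's inequality for `ratio_shift`.
-/

set_option autoImplicit false

noncomputable section

namespace Pool.Agent.Lib.P51n

variable {d : ℕ}

theorem jensen_log {α : Type*} (G Ω : Finset α) (hΩ : Ω ⊆ G) (hne : Ω.Nonempty) (g : α → ℝ)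
    (hg : ∀ x ∈ G, 0 < g x) {B : ℝ} (hB : ∑ x ∈ G, g x ≤ B * G.card) :
    (∑ x ∈ Ω, Real.logb 2 (g x)) / Ω.card ≤ Real.logb 2 (B * (G.card / Ω.card)) := by
  have hn : (0 : ℝ) < Ω.card := by exact_mod_cast hne.card_pos
  have hGn : G.Nonempty := hne.mono hΩ
  have hsG : 0 < ∑ x ∈ G, g x := Finset.sum_pos hg hGn
  have hsO : ∑ x ∈ Ω, g x ≤ ∑ x ∈ G, g x :=
    Finset.sum_le_sum_of_subset_of_nonneg hΩ fun x hx _ => (hg x hx).le
  have ha : 0 < B * (G.card / Ω.card) := by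
    have : 0 < B * G.card := lt_of_lt_of_le hsG hB
    have e : B * ((G.card : ℝ) / Ω.card) = B * G.card / Ω.card := by ring
    rw [e]
    exact div_pos this hn
  set a : ℝ := B * (G.card / Ω.card) with haD
  have hl2 : 0 < Real.log 2 := Real.log_pos one_lt_two
  have h1 : ∀ x ∈ Ω, Real.log (g x) ≤ Real.log a + (g x / a - 1) := by
    intro x hx
    have hgx := hg x (hΩ hx)
    have h2 := Real.log_le_sub_one_of_pos (div_pos hgx ha)
    rw [Real.log_div hgx.ne' ha.ne'] at h2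
    linarith
  have h2 : ∑ x ∈ Ω, Real.log (g x) ≤ Ω.card * Real.log a := by
    calc ∑ x ∈ Ω, Real.log (g x) ≤ ∑ x ∈ Ω, (Real.log a + (g x / a - 1)) :=
          Finset.sum_le_sum h1
      _ = Ω.card * Real.log a + ((∑ x ∈ Ω, g x) / a - Ω.card) := by
          rw [Finset.sum_add_distrib, Finset.sum_sub_distrib, Finset.sum_const, Finset.sum_const,
            nsmul_eq_mul, nsmul_eq_mul, Finset.sum_div, mul_one]
      _ ≤ Ω.card * Real.log a + 0 := by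
          have h3 : (∑ x ∈ Ω, g x) / a ≤ Ω.card := by
            rw [div_le_iff₀ ha, haD]
            calc ∑ x ∈ Ω, g x ≤ B * G.card := hsO.trans hB
              _ = _ := by field_simp
          linarith
      _ = _ := add_zero _
  have e1 : ∑ x ∈ Ω, Real.logb 2 (g x) = (∑ x ∈ Ω, Real.log (g x)) / Real.log 2 := by
    rw [Finset.sum_div]
    rfl
  have e2 : Real.logb 2 a = Real.log a / Real.log 2 := rfl
  rw [e1, e2, div_div, div_le_div_iff₀ (by positivity) hl2]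
  calc (∑ x ∈ Ω, Real.log (g x)) * Real.log 2 ≤ (Ω.card * Real.log a) * Real.log 2 :=
        mul_le_mul_of_nonneg_right h2 hl2.le
    _ = _ := by ring

theorem one_le_ncard {G : Finset (AddSubgroup (Fin d → ℤ))} {κ : ℝ} (hκ : 0 ≤ κ)
    (c : Fin d → Fin d → ℝ) {x : AddSubgroup (Fin d → ℤ)} (hx : x ∈ G) : 1 ≤ ncard G κ c x := by
  classical
  unfold ncard
  exact Finset.card_pos.2 ⟨x, Finset.mem_filter.2 ⟨hx, Near.refl hκ c x⟩⟩

theorem AAv_ncard_le (G : Finset (AddSubgroup (Fin d → ℤ))) (κ : ℝ)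
    (c : Fin d → Fin d → ℝ) (x : AddSubgroup (Fin d → ℤ)) : ncard G κ c x ≤ G.card := by
  classical
  unfold ncard
  exact Finset.card_filter_le _ _

theorem AAv_pos {G : Finset (AddSubgroup (Fin d → ℤ))} {κ : ℝ} (hκ : 0 ≤ κ)
    (c : Fin d → Fin d → ℝ) {x : AddSubgroup (Fin d → ℤ)} (hx : x ∈ G) :
    (0 : ℝ) < ncard G κ c x := by
  exact_mod_cast one_le_ncard hκ c hx

theorem AAv_card_pos {G : Finset (AddSubgroup (Fin d → ℤ))} {x : AddSubgroup (Fin d → ℤ)}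
    (hx : x ∈ G) : (0 : ℝ) < G.card := by
  exact_mod_cast Finset.card_pos.2 ⟨x, hx⟩

theorem info_nonneg {G : Finset (AddSubgroup (Fin d → ℤ))} {κ : ℝ} (hκ : 0 ≤ κ)
    (c : Fin d → Fin d → ℝ) {x : AddSubgroup (Fin d → ℤ)} (hx : x ∈ G) : 0 ≤ info G κ c x := by
  unfold info
  apply Real.logb_nonneg one_lt_two
  rw [le_div_iff₀ (AAv_pos hκ c hx), one_mul]
  exact_mod_cast AAv_ncard_le G κ c x

theorem info_le {T : ℕ} {C : ℝ} {G : Finset (AddSubgroup (Fin d → ℤ))} (hG : Fam T C G) {κ : ℝ}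
    (hκ : 0 ≤ κ) (c : Fin d → Fin d → ℝ) {x : AddSubgroup (Fin d → ℤ)} (hx : x ∈ G) :
    info G κ c x ≤ T := by
  unfold info
  have hp := AAv_pos hκ c hx
  have h1 : (1 : ℝ) ≤ ncard G κ c x := by exact_mod_cast one_le_ncard hκ c hx
  have hc := AAv_card_pos hx
  rw [Real.logb_le_iff_le_rpow one_lt_two (div_pos hc hp), Real.rpow_natCast]
  have h2 : (G.card : ℝ) ≤ 2 ^ T := by exact_mod_cast hG.card_le
  exact (div_le_self hc.le h1).trans h2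

theorem AAv_ncard_anti {G : Finset (AddSubgroup (Fin d → ℤ))} {κ : ℝ} (hκ : 0 ≤ κ)
    {c c' : Fin d → Fin d → ℝ} (h : c ≤ c') (x : AddSubgroup (Fin d → ℤ)) :
    ncard G κ c' x ≤ ncard G κ c x := by
  classical
  unfold ncard
  refine Finset.card_le_card fun y hy => ?_
  rw [Finset.mem_filter] at hy ⊢
  exact ⟨hy.1, hy.2.mono le_rfl hκ fun i j => h i j⟩

theorem info_mono {G : Finset (AddSubgroup (Fin d → ℤ))} {κ : ℝ} (hκ : 0 ≤ κ)
    {c c' : Fin d → Fin d → ℝ} (h : c ≤ c') {x : AddSubgroup (Fin d → ℤ)} (hx : x ∈ G) :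
    info G κ c x ≤ info G κ c' x := by
  unfold info
  have hp := AAv_pos hκ c' hx
  have hp' := AAv_pos hκ c hx
  have hc := AAv_card_pos hx
  have h1 : (ncard G κ c' x : ℝ) ≤ ncard G κ c x := by exact_mod_cast AAv_ncard_anti hκ h x
  exact Real.logb_le_logb_of_le one_lt_two (div_pos hc hp')
    (div_le_div_of_nonneg_left hc.le hp h1)

theorem AAv_half_pos (q : ℕ) : (0 : ℝ) < (1 / 2 : ℝ) ^ q := by positivity

theorem info_full (hd : 1 ≤ d) {T : ℕ} (hT : 1 ≤ T) {C : ℝ} (hC : 1 ≤ C) {q : ℕ}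
    (hq : Small d T C q) {G : Finset (AddSubgroup (Fin d → ℤ))} (hG : Fam T C G)
    {c : Fin d → Fin d → ℝ} (hc : ∀ i, ∃ s, Pos (T : ℝ) s ∧ ∀ j, s j ≤ c i j)
    {x : AddSubgroup (Fin d → ℤ)} (hx : x ∈ G) :
    (T : ℝ) - Real.logb 2 C ≤ info G ((1 / 2 : ℝ) ^ q) c x := by
  classical
  have hκ := AAv_half_pos q
  have hd' : (1 : ℝ) ≤ d := by exact_mod_cast hd
  have hT' : (1 : ℝ) ≤ T := by exact_mod_cast hT
  set M : ℝ := 8 * d * C * (T : ℝ) ^ (d - 1) with hM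
  have hM8 : 8 ≤ M := by
    have h1 : (1 : ℝ) ≤ (T : ℝ) ^ (d - 1) := one_le_pow₀ hT'
    have h2 : (8 : ℝ) ≤ 8 * d := by linarith
    have h3 : (8 : ℝ) ≤ 8 * d * C := by nlinarith
    rw [hM]
    nlinarith
  have hsm : (d : ℝ) * ((1 / 2 : ℝ) ^ q) * M ^ d < 1 := by
    have h1 : (2 : ℝ) ^ 12 * d ^ 2 * M ^ (d + 1) ≤ 2 ^ q := hq
    have h2 : (d : ℝ) * M ^ d < 2 ^ 12 * d ^ 2 * M ^ (d + 1) := by
      have h3 : (d : ℝ) ≤ d ^ 2 := by nlinarith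
      have h4 : 0 < M ^ d := by positivity
      have h5 : M ^ (d + 1) = M * M ^ d := by ring
      rw [h5]
      calc (d : ℝ) * M ^ d < (2 ^ 12 * 8) * (d * M ^ d) := by
            have : 0 < (d : ℝ) * M ^ d := by positivity
            linarith
        _ ≤ (2 ^ 12 * M) * (d ^ 2 * M ^ d) := by gcongr
        _ = _ := by ring
    have e : (d : ℝ) * ((1 / 2 : ℝ) ^ q) * M ^ d = (d * M ^ d) / 2 ^ q := by
      rw [one_div, inv_pow]
      ring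
    rw [e, div_lt_one (by positivity)]
    exact lt_of_lt_of_le h2 h1
  have hone : ncard G ((1 / 2 : ℝ) ^ q) c x = 1 := by
    unfold ncard
    rw [Finset.card_eq_one]
    refine ⟨x, Finset.eq_singleton_iff_unique_mem.2 ⟨Finset.mem_filter.2
      ⟨hx, Near.refl hκ.le c x⟩, fun y hy => ?_⟩⟩
    rw [Finset.mem_filter] at hy
    refine near_full hκ.le (by positivity : (0 : ℝ) ≤ M ^ d) hsm (fun i => ?_) hy.2
    obtain ⟨s, hs, hsc⟩ := hc i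
    exact ⟨s, spn_good hd hT hC (hG.good x hx) hs, hsc⟩
  unfold info
  rw [hone, Nat.cast_one, div_one]
  have hC0 : 0 < C := by linarith
  have hcp := AAv_card_pos hx
  have h1 : Real.logb 2 ((2 : ℝ) ^ T) ≤ Real.logb 2 (C * G.card) :=
    Real.logb_le_logb_of_le one_lt_two (by positivity) hG.le_card
  rw [Real.logb_mul hC0.ne' hcp.ne', Real.logb_pow, Real.logb_self_eq_one one_lt_two,
    mul_one] at h1
  linarith

theorem av_cs (d : ℕ) (hd : 1 ≤ d) (C : ℝ) (hC : 1 ≤ C) :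
    ∃ A : ℕ, ∀ (T q : ℕ) (G Ω : Finset (AddSubgroup (Fin d → ℤ))), 2 ≤ T → Fam T C G → Ω ⊆ G →
      Ω.Nonempty → ∀ s : Fin d → ℝ, Pos T s →
      (∑ x ∈ Ω, info G ((1 / 2 : ℝ) ^ q) (cs s) x) / Ω.card ≤
        A * Real.logb 2 ((T : ℝ) * 2 ^ q) + Real.logb 2 (G.card / Ω.card) := by
  obtain ⟨A, hA⟩ := ratio_net d hd C hC
  refine ⟨A, fun T q G Ω hT hG hΩ hne s hs => ?_⟩
  have h1 := hA T q G Ω hT hG hΩ s hs
  have hn : (0 : ℝ) < Ω.card := by exact_mod_cast hne.card_pos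
  obtain ⟨x₀, hx₀⟩ := hne
  have hGc := AAv_card_pos (hΩ hx₀)
  have hT0 : (0 : ℝ) < T := by exact_mod_cast (by omega : 0 < T)
  have hκ := AAv_half_pos q
  have h2 := jensen_log Ω Ω (Finset.Subset.refl _) ⟨x₀, hx₀⟩
    (fun x => (G.card : ℝ) / ncard G ((1 / 2 : ℝ) ^ q) (cs s) x)
    (fun x hx => div_pos hGc (AAv_pos hκ.le _ (hΩ hx)))
    (B := ((T : ℝ) * 2 ^ q) ^ A * (G.card / Ω.card)) (by
      refine h1.trans (le_of_eq ?_)
      field_simp)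
  have e : ((T : ℝ) * 2 ^ q) ^ A * (G.card / Ω.card) * ((Ω.card : ℝ) / Ω.card) =
      ((T : ℝ) * 2 ^ q) ^ A * (G.card / Ω.card) := by
    rw [div_self hn.ne', mul_one]
  rw [e, Real.logb_mul (by positivity) (by positivity), Real.logb_pow] at h2
  exact h2

theorem AAv_diff {G : Finset (AddSubgroup (Fin d → ℤ))} {κ κ' : ℝ} (hκ : 0 ≤ κ) (hκ' : 0 ≤ κ')
    (c c' : Fin d → Fin d → ℝ) {x : AddSubgroup (Fin d → ℤ)} (hx : x ∈ G) :
    Real.logb 2 ((ncard G κ c x : ℝ) / ncard G κ' c' x) = info G κ' c' x - info G κ c x := by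
  have h1 := AAv_pos hκ c hx
  have h2 := AAv_pos hκ' c' hx
  have h3 := AAv_card_pos hx
  unfold info
  rw [Real.logb_div h1.ne' h2.ne', Real.logb_div h3.ne' h2.ne', Real.logb_div h3.ne' h1.ne']
  ring

/-- Jensen's inequality for the ratios of `ratio_shift` -/
theorem AAv_shift {G Ω : Finset (AddSubgroup (Fin d → ℤ))} (hΩ : Ω ⊆ G)
    (hne : Ω.Nonempty) {κ κ' : ℝ} (hκ : 0 ≤ κ) (hκ' : 0 ≤ κ') {c c' : Fin d → Fin d → ℝ}
    {X Y : ℝ} (hX : 0 < X) (hXY : X ≤ (2 : ℝ) ^ Y)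
    (h : ∑ x ∈ G, (ncard G κ c x : ℝ) / ncard G κ' c' x ≤ X ^ (d ^ 2) * G.card) :
    (∑ x ∈ Ω, info G κ' c' x) / Ω.card ≤ (∑ x ∈ Ω, info G κ c x) / Ω.card +
      d ^ 2 * Y + Real.logb 2 (G.card / Ω.card) := by
  have hn : (0 : ℝ) < Ω.card := by exact_mod_cast hne.card_pos
  have hx₀ := hne
  obtain ⟨x₀, hx₀⟩ := hx₀
  have hGc := AAv_card_pos (hΩ hx₀)
  have h2 := jensen_log G Ω hΩ hne (fun x => (ncard G κ c x : ℝ) / ncard G κ' c' x)
    (fun x hx => div_pos (AAv_pos hκ c hx) (AAv_pos hκ' c' hx)) h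
  rw [Real.logb_mul (by positivity) (by positivity), Real.logb_pow] at h2
  have e : ∑ x ∈ Ω, Real.logb 2 ((ncard G κ c x : ℝ) / ncard G κ' c' x) =
      ∑ x ∈ Ω, info G κ' c' x - ∑ x ∈ Ω, info G κ c x := by
    rw [← Finset.sum_sub_distrib]
    exact Finset.sum_congr rfl fun x hx => AAv_diff hκ hκ' c c' (hΩ hx)
  rw [e, sub_div] at h2
  have h3 : Real.logb 2 X ≤ Y := by
    rw [Real.logb_le_iff_le_rpow one_lt_two hX]
    exact hXY
  have h4 : ((d ^ 2 : ℕ) : ℝ) * Real.logb 2 X ≤ d ^ 2 * Y := by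
    push_cast
    exact mul_le_mul_of_nonneg_left h3 (by positivity)
  linarith

theorem AAv_two {t : ℝ} (ht : 0 ≤ t) : 4 * (2 : ℝ) ^ t + 3 ≤ (2 : ℝ) ^ (t + 3) := by
  have h1 : (1 : ℝ) ≤ (2 : ℝ) ^ t := Real.one_le_rpow one_le_two ht
  have h2 : (2 : ℝ) ^ (t + 3) = (2 : ℝ) ^ t * 8 := by
    rw [Real.rpow_add two_pos]
    norm_num
  rw [h2]
  linarith

theorem av_shift (hd : 1 ≤ d) {T : ℕ} (hT : 1 ≤ T) {C : ℝ} (hC : 1 ≤ C) {q : ℕ}
    (hq : Small d T C q) {G Ω : Finset (AddSubgroup (Fin d → ℤ))} (hG : Fam T C G) (hΩ : Ω ⊆ G)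
    (hne : Ω.Nonempty) {t : ℝ} (ht : 0 ≤ t) {c c' : Fin d → Fin d → ℝ} (hc : Adm T c)
    (hc' : ∀ i j, c' i j ≤ shiftOff c t i j) :
    (∑ x ∈ Ω, info G ((1 / 2 : ℝ) ^ q) c' x) / Ω.card ≤
      (∑ x ∈ Ω, info G ((1 / 2 : ℝ) ^ q) c x) / Ω.card +
        d ^ 2 * (t + 3) + Real.logb 2 (G.card / Ω.card) := by
  have hκ := AAv_half_pos q
  have h := ratio_shift hd hT hC hq hG hκ (by linarith) hκ ht hc hc'
  refine AAv_shift hΩ hne hκ.le hκ.le (X := 4 * (2 : ℝ) ^ t + 3) (by positivity) (AAv_two ht) ?_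
  refine h.trans (le_of_eq ?_)
  congr 3
  field_simp

theorem AAv_shiftOff_zero {T : ℝ} {c : Fin d → Fin d → ℝ} (hc : Adm T c) (i j : Fin d) :
    c i j ≤ shiftOff c 0 i j := by
  unfold shiftOff
  by_cases h : i = j
  · rw [if_pos h, h, hc.1.1 j]
  · rw [if_neg h, add_zero]

theorem av_radius (hd : 1 ≤ d) {T : ℕ} (hT : 1 ≤ T) {C : ℝ} (hC : 1 ≤ C) {q : ℕ}
    (hq : Small d T C q) {G Ω : Finset (AddSubgroup (Fin d → ℤ))} (hG : Fam T C G) (hΩ : Ω ⊆ G)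
    (hne : Ω.Nonempty) {c : Fin d → Fin d → ℝ} (hc : Adm T c) :
    (∑ x ∈ Ω, info G ((1 / 2 : ℝ) ^ q) c x) / Ω.card ≤
      (∑ x ∈ Ω, info G (64 * (1 / 2 : ℝ) ^ q) c x) / Ω.card +
        9 * d ^ 2 + Real.logb 2 (G.card / Ω.card) := by
  have hκ := AAv_half_pos q
  have h := ratio_shift hd hT hC hq hG (κ₁ := 64 * (1 / 2 : ℝ) ^ q) (by positivity) le_rfl hκ
    le_rfl hc (AAv_shiftOff_zero hc)
  have h2 := AAv_shift hΩ hne (κ := 64 * (1 / 2 : ℝ) ^ q) (by positivity) hκ.le (X := 259) (Y := 9)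
    (by norm_num) (by
      have : (2 : ℝ) ^ (9 : ℝ) = 512 := by
        rw [show (9 : ℝ) = ((9 : ℕ) : ℝ) by norm_num, Real.rpow_natCast]; norm_num
      rw [this]; norm_num) (by
      refine h.trans (le_of_eq ?_)
      congr 2
      rw [Real.rpow_zero]
      field_simp
      norm_num)
  linarith

theorem AAv_radius (hd : 1 ≤ d) {T : ℕ} (hT : 1 ≤ T) {C : ℝ} (hC : 1 ≤ C) {q : ℕ}
    (hq : Small d T C q) {G Ω : Finset (AddSubgroup (Fin d → ℤ))} (hG : Fam T C G) (hΩ : Ω ⊆ G)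
    (hne : Ω.Nonempty) {c : Fin d → Fin d → ℝ} (hc : Adm T c) {n : ℝ} (hn0 : 0 < n)
    (hn : n ≤ 64) {Y : ℝ} (hY : 4 * n + 3 ≤ (2 : ℝ) ^ Y) :
    (∑ x ∈ Ω, info G ((1 / 2 : ℝ) ^ q) c x) / Ω.card ≤
      (∑ x ∈ Ω, info G (n * (1 / 2 : ℝ) ^ q) c x) / Ω.card +
        d ^ 2 * Y + Real.logb 2 (G.card / Ω.card) := by
  have hκ := AAv_half_pos q
  have h := ratio_shift hd hT hC hq hG (κ₁ := n * (1 / 2 : ℝ) ^ q) (by positivity)
    (mul_le_mul_of_nonneg_right hn hκ.le) hκ le_rfl hc (AAv_shiftOff_zero hc)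
  refine AAv_shift hΩ hne (κ := n * (1 / 2 : ℝ) ^ q) (by positivity) hκ.le (X := 4 * n + 3)
    (by positivity) hY ?_
  refine h.trans (le_of_eq ?_)
  congr 3
  rw [Real.rpow_zero]
  field_simp

theorem av_submod (hd : 1 ≤ d) {T : ℕ} (hT : 1 ≤ T) {C : ℝ} (hC : 1 ≤ C) {q : ℕ}
    (hq : Small d T C q) {G Ω : Finset (AddSubgroup (Fin d → ℤ))} (hG : Fam T C G) (hΩ : Ω ⊆ G)
    (hne : Ω.Nonempty) {c c' c'' : Fin d → Fin d → ℝ} (hc : Adm T c)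
    (hc' : Adm T c') (hc'' : Adm T c'') (h1 : c'' ≤ c) (h2 : c'' ≤ c') :
    (∑ x ∈ Ω, info G ((1 / 2 : ℝ) ^ q) (c ⊔ c') x) / Ω.card +
      (∑ x ∈ Ω, info G ((1 / 2 : ℝ) ^ q) c'' x) / Ω.card ≤
      (∑ x ∈ Ω, info G ((1 / 2 : ℝ) ^ q) c x) / Ω.card +
      (∑ x ∈ Ω, info G ((1 / 2 : ℝ) ^ q) c' x) / Ω.card +
        11 * d ^ 2 + 3 * Real.logb 2 (G.card / Ω.card) := by
  have hκ := AAv_half_pos q
  have hn : (0 : ℝ) < Ω.card := by exact_mod_cast hne.card_pos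
  have hm : Adm (T : ℝ) (c ⊔ c') := by
    obtain ⟨t1, s, hs, hs2⟩ := hc
    refine ⟨⟨fun i => ?_, fun i j k => ?_⟩, s, hs, fun i j => (hs2 i j).trans (le_max_left _ _)⟩
    · show max (c i i) (c' i i) = 0
      rw [t1.1, hc'.1.1, max_self]
    · show max (c i k) (c' i k) ≤ max (c i j) (c' i j) + max (c j k) (c' j k)
      refine max_le ((t1.2 i j k).trans ?_) ((hc'.1.2 i j k).trans ?_)
      · exact add_le_add (le_max_left _ _) (le_max_left _ _)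
      · exact add_le_add (le_max_right _ _) (le_max_right _ _)
  set κ : ℝ := (1 / 2 : ℝ) ^ q with hκd
  have h4 : 0 ≤ 4 * κ := by positivity
  have h8 : 0 ≤ 8 * κ := by positivity
  have key := ratio_sup hd hT hC hq hG hκ (by linarith) hc hc' hc'' h1 h2
  have hgpos : ∀ x ∈ G, 0 < ((ncard G κ c x : ℝ) * ncard G κ c' x) /
      ((ncard G (4 * κ) (c ⊔ c') x : ℝ) * ncard G (8 * κ) c'' x) := fun x hx =>
    div_pos (mul_pos (AAv_pos hκ.le c hx) (AAv_pos hκ.le c' hx))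
      (mul_pos (AAv_pos h4 _ hx) (AAv_pos h8 c'' hx))
  have k2 := jensen_log G Ω hΩ hne _ hgpos (B := 1) (by rw [one_mul]; exact key)
  rw [one_mul] at k2
  have e : ∑ x ∈ Ω, Real.logb 2 (((ncard G κ c x : ℝ) * ncard G κ c' x) /
      ((ncard G (4 * κ) (c ⊔ c') x : ℝ) * ncard G (8 * κ) c'' x)) =
      (∑ x ∈ Ω, info G (4 * κ) (c ⊔ c') x - ∑ x ∈ Ω, info G κ c x) +
      (∑ x ∈ Ω, info G (8 * κ) c'' x - ∑ x ∈ Ω, info G κ c' x) := by
    rw [← Finset.sum_sub_distrib, ← Finset.sum_sub_distrib, ← Finset.sum_add_distrib]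
    refine Finset.sum_congr rfl fun x hx => ?_
    rw [← AAv_diff hκ.le h4 c (c ⊔ c') (hΩ hx), ← AAv_diff hκ.le h8 c' c'' (hΩ hx),
      ← Real.logb_mul (div_pos (AAv_pos hκ.le c (hΩ hx)) (AAv_pos h4 _ (hΩ hx))).ne'
        (div_pos (AAv_pos hκ.le c' (hΩ hx)) (AAv_pos h8 c'' (hΩ hx))).ne']
    congr 1
    rw [div_mul_div_comm]
  rw [e, add_div, sub_div, sub_div] at k2
  have r1 := AAv_radius hd hT hC hq hG hΩ hne hm (n := 4) (by norm_num) (by norm_num) (Y := 5)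
    (by
      have : (2 : ℝ) ^ (5 : ℝ) = 32 := by
        rw [show (5 : ℝ) = ((5 : ℕ) : ℝ) by norm_num, Real.rpow_natCast]; norm_num
      rw [this]; norm_num)
  have r2 := AAv_radius hd hT hC hq hG hΩ hne hc'' (n := 8) (by norm_num) (by norm_num) (Y := 6)
    (by
      have : (2 : ℝ) ^ (6 : ℝ) = 64 := by
        rw [show (6 : ℝ) = ((6 : ℕ) : ℝ) by norm_num, Real.rpow_natCast]; norm_num
      rw [this]; norm_num)
  rw [← hκd] at r1 r2
  linarith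

open Classical in
theorem shift_typical (hd : 1 ≤ d) {T : ℕ} (hT : 1 ≤ T) {C : ℝ} (hC : 1 ≤ C) {q : ℕ}
    (hq : Small d T C q) {G : Finset (AddSubgroup (Fin d → ℤ))} (hG : Fam T C G)
    {t : ℝ} (ht : 0 ≤ t) {c c' : Fin d → Fin d → ℝ} (hc : Adm T c)
    (hc' : ∀ i j, c' i j ≤ shiftOff c t i j) {y : ℝ} (hy : 0 ≤ y) :
    ((G.filter fun x => info G ((1 / 2 : ℝ) ^ q) c x + d ^ 2 * (t + 3) + y <
      info G ((1 / 2 : ℝ) ^ q) c' x).card : ℝ) ≤ (2 : ℝ) ^ (-y) * G.card := by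
  have hκ := AAv_half_pos q
  have h := ratio_shift hd hT hC hq hG hκ (by linarith) hκ ht hc hc'
  have e0 : 4 * (1 / 2 : ℝ) ^ q * (2 : ℝ) ^ t / (1 / 2 : ℝ) ^ q + 3 = 4 * (2 : ℝ) ^ t + 3 := by
    field_simp
  rw [e0] at h
  set X : ℝ := 4 * (2 : ℝ) ^ t + 3 with hX
  have hX0 : 0 < X := by positivity
  set W := G.filter fun x => info G ((1 / 2 : ℝ) ^ q) c x + d ^ 2 * (t + 3) + y <
      info G ((1 / 2 : ℝ) ^ q) c' x with hW
  have h1 : ∀ x ∈ W, X ^ (d ^ 2) * (2 : ℝ) ^ y ≤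
      (ncard G ((1 / 2 : ℝ) ^ q) c x : ℝ) / ncard G ((1 / 2 : ℝ) ^ q) c' x := by
    intro x hx
    rw [hW, Finset.mem_filter] at hx
    obtain ⟨hxG, hlt⟩ := hx
    have hp : 0 < (ncard G ((1 / 2 : ℝ) ^ q) c x : ℝ) / ncard G ((1 / 2 : ℝ) ^ q) c' x :=
      div_pos (AAv_pos hκ.le c hxG) (AAv_pos hκ.le c' hxG)
    have e := AAv_diff hκ.le hκ.le c c' hxG
    have h2 : (d : ℝ) ^ 2 * (t + 3) + y ≤
        Real.logb 2 ((ncard G ((1 / 2 : ℝ) ^ q) c x : ℝ) / ncard G ((1 / 2 : ℝ) ^ q) c' x) := by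
      rw [e]
      linarith
    rw [Real.le_logb_iff_rpow_le one_lt_two hp] at h2
    refine le_trans ?_ h2
    rw [Real.rpow_add two_pos]
    apply mul_le_mul_of_nonneg_right _ (by positivity)
    calc X ^ (d ^ 2) ≤ ((2 : ℝ) ^ (t + 3)) ^ (d ^ 2) :=
          pow_le_pow_left₀ hX0.le (AAv_two ht) _
      _ = (2 : ℝ) ^ ((d : ℝ) ^ 2 * (t + 3)) := by
          rw [← Real.rpow_natCast, ← Real.rpow_mul two_pos.le]
          congr 1
          push_cast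
          ring
  have h2 : (W.card : ℝ) * (X ^ (d ^ 2) * (2 : ℝ) ^ y) ≤ X ^ (d ^ 2) * G.card := by
    calc (W.card : ℝ) * (X ^ (d ^ 2) * (2 : ℝ) ^ y) = ∑ x ∈ W, X ^ (d ^ 2) * (2 : ℝ) ^ y := by
          rw [Finset.sum_const, nsmul_eq_mul]
      _ ≤ ∑ x ∈ W, (ncard G ((1 / 2 : ℝ) ^ q) c x : ℝ) / ncard G ((1 / 2 : ℝ) ^ q) c' x :=
          Finset.sum_le_sum h1
      _ ≤ ∑ x ∈ G, (ncard G ((1 / 2 : ℝ) ^ q) c x : ℝ) / ncard G ((1 / 2 : ℝ) ^ q) c' x :=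
          Finset.sum_le_sum_of_subset_of_nonneg (Finset.filter_subset _ _)
            fun x _ _ => by positivity
      _ ≤ _ := h
  have hXd : 0 < X ^ (d ^ 2) := by positivity
  have h2y : (0 : ℝ) < (2 : ℝ) ^ y := by positivity
  have h3 : (W.card : ℝ) * (2 : ℝ) ^ y ≤ G.card := by
    have h4 : X ^ (d ^ 2) * ((W.card : ℝ) * (2 : ℝ) ^ y) ≤ X ^ (d ^ 2) * G.card := by
      calc _ = (W.card : ℝ) * (X ^ (d ^ 2) * (2 : ℝ) ^ y) := by ring
        _ ≤ _ := h2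
    exact le_of_mul_le_mul_left h4 hXd
  rw [Real.rpow_neg two_pos.le, inv_mul_eq_div, le_div_iff₀ h2y]
  exact h3

end Pool.Agent.Lib.P51n
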