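import Pool.Agent.Lib.P51n.Defs

/-!
The limiting entropy function of the closeness classes of an optimal family, as an abstract object:
a function of admissible shapes.  Definitions for Part B.
-/

set_option autoImplicit false

noncomputable section

namespace Pool.Agent.Lib.P51n

/-- Properties of the limiting entropy function `F` of shapes. -/
structure EFun (d : ℕ) (F : (Fin d → Fin d → ℝ) → ℝ) : Prop where
  nonneg : ∀ c, Adm 1 c → 0 ≤ F c
  le_one : ∀ c, Adm 1 c → F c ≤ 1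
  zero : ∀ s, Pos 1 s → F (cs s) = 0
  mono : ∀ c c', Adm 1 c → Adm 1 c' → c ≤ c' → F c ≤ F c'
  lip : ∀ c c' (t : ℝ), Adm 1 c → Adm 1 c' → 0 ≤ t → (∀ i j, c' i j ≤ c i j + t) →
    F c' ≤ F c + d ^ 2 * t
  submod : ∀ c c' c'', Adm 1 c → Adm 1 c' → Adm 1 c'' → c'' ≤ c → c'' ≤ c' →
    F (c ⊔ c') + F c'' ≤ F c + F c'
  full : ∀ c, Adm 1 c → (∀ i, ∃ s, Pos 1 s ∧ ∀ j, s j ≤ c i j) → 1 ≤ F c

variable {d : ℕ}

/-- The pseudo-distance of two positions. -/
def dF (F : (Fin d → Fin d → ℝ) → ℝ) (s s' : Fin d → ℝ) : ℝ := F (cs s ⊔ cs s')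

/-- The position with the first `n` coordinates `u`. -/
def posU {n : ℕ} (u : Fin n → ℝ) : Fin (n + 1) → ℝ := Fin.snoc u (1 - ∑ j, u j)

/-- Centering. -/
def cen (w : Fin d → ℝ) : Fin d → ℝ := fun j => w j - (∑ i, w i) / d

/-- The indicator of a set of indices. -/
def indI (I : Finset (Fin d)) : Fin d → ℝ := fun j => if j ∈ I then 1 else 0

/-- The indicator matrix of a set of roots. -/
def ind (R : Finset (Fin d × Fin d)) : Fin d → Fin d → ℝ := fun i j => if (i, j) ∈ R then 1 else 0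

/-- The push quotient: cost per unit of pushing the shape `c` at the position `s` and scale `lam`
by `1` on the roots in `R`. -/
def qq (F : (Fin d → Fin d → ℝ) → ℝ) (lam : ℝ) (s : Fin d → ℝ) (R : Finset (Fin d × Fin d))
    (c : Fin d → Fin d → ℝ) : ℝ :=
  (F (cs s + lam • (c + ind R)) - F (cs s + lam • c)) / lam

/-- `c` is an admissible source shape for the push `R`, with direction `w`. -/
structure Src (R : Finset (Fin d × Fin d)) (w : Fin d → ℝ) (c : Fin d → Fin d → ℝ) : Prop where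
  sum_w : ∑ j, w j = 0
  on : ∀ i j, (i, j) ∈ R → c i j = 0 ∧ w j - w i = 1
  off : ∀ i j, (i, j) ∉ R → w j - w i ≤ c i j
  nonneg : ∀ i j, 0 ≤ c i j
  tri : ∀ t : ℝ, 0 ≤ t → t ≤ 1 → Tri (c + t • ind R)

/-- `c` is an admissible target shape for the push `R`. -/
structure Tgt (R : Finset (Fin d × Fin d)) (c : Fin d → Fin d → ℝ) : Prop where
  on : ∀ i j, (i, j) ∈ R → c i j = 0
  nonneg : ∀ i j, 0 ≤ c i j
  tri : Tri c
  tri' : Tri (c + ind R)

/-- The cut `i ∉ I`, `j ∈ I`. -/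
def cut (I : Finset (Fin d)) : Finset (Fin d × Fin d) := (Finset.univ \ I) ×ˢ I

/-- `0` on the set `R` and on the diagonal, `8` elsewhere -/
def big (R : Finset (Fin d × Fin d)) : Fin d → Fin d → ℝ :=
  fun i j => if i = j then 0 else if (i, j) ∈ R then 0 else 8

/-- The shapes of the Heisenberg group of the roots `(i₁,i₂)`, `(i₂,i₃)`, `(i₁,i₃)`. -/
def ct (i₁ i₂ i₃ : Fin d) (α β γ : ℝ) : Fin d → Fin d → ℝ := fun i j =>
  if i = j then 0 else if i = i₁ ∧ j = i₂ then α else if i = i₂ ∧ j = i₃ then β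
  else if i = i₁ ∧ j = i₃ then γ else 8

/-- Good places: `(i₁,i₂)` and `(i₂,i₃)` are active and independent of the rest. -/
structure Place (F : (Fin d → Fin d → ℝ) → ℝ) (i₁ i₂ i₃ : Fin d) (c₂ ε lam : ℝ)
    (s : Fin d → ℝ) : Prop where
  act₁ : c₂ * lam ≤ F (cs s + lam • ct i₁ i₂ i₃ 1 0 0) - F (cs s + lam • ct i₁ i₂ i₃ 0 0 0)
  act₂ : c₂ * lam ≤ F (cs s + lam • ct i₁ i₂ i₃ 0 1 0) - F (cs s + lam • ct i₁ i₂ i₃ 0 0 0)
  ind₁ : (F (cs s + lam • ct i₁ i₂ i₃ 1 0 0) - F (cs s + lam • ct i₁ i₂ i₃ 0 0 0)) -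
    (F (cs s + lam • ct i₁ i₂ i₃ 1 2 2) - F (cs s + lam • ct i₁ i₂ i₃ 0 2 2)) ≤ ε * lam
  ind₂ : (F (cs s + lam • ct i₁ i₂ i₃ 0 1 0) - F (cs s + lam • ct i₁ i₂ i₃ 0 0 0)) -
    (F (cs s + lam • ct i₁ i₂ i₃ 2 1 2) - F (cs s + lam • ct i₁ i₂ i₃ 2 0 2)) ≤ ε * lam

end Pool.Agent.Lib.P51n
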