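import Pool.Agent.Lib.P51n.AAv
import Pool.Agent.Lib.P51n.EFun

/-!
# P51n.ALimit  (about 3 h)

The limiting entropy function.

Index type `ι = Finset (Fin d → Fin d → ℝ) × ℕ`, directed; `𝒰` an ultrafilter finer than `atTop`
(`Ultrafilter.of`).  For `i = (𝒞, k)` choose `T_i, q_i, Ω_i ⊆ G (T_i)` (nonempty) with
* `T_i ≥ T₀`, `T_i ≥ k + 2`, `(k+1)! ∣ T_i`, `Small d T_i C q_i`, `2^{q_i} ≤ T_i^A` (`exists_q` below),
  and `T_i` so large that `(A' + 11 d² + 5) (A+2) log₂ T_i + 3 |𝒞| log₂(k+3) + log₂ C ≤ T_i/(k+1)`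
  (for the constant `A'` of `av_cs`), and `(k+3)^{|𝒞|} ≤ T_i`;
* for `x, x' ∈ Ω_i` and `c ∈ 𝒞`: `|info (T_i c) x - info (T_i c) x'| ≤ T_i/(k+1)`, and
  `|G| ≤ (k+3)^{|𝒞|} |Ω_i|`: pigeonhole for the map
  `x ↦ (⌊(k+1) info (T_i c) x / T_i⌋)_{c ∈ 𝒞}` with values in `{0..k+1}^𝒞` (`0 ≤ info ≤ T_i`).
Put `F_i(c) = (1/(T_i |Ω_i|)) ∑_{x ∈ Ω_i} info (T_i c) x ∈ [0,1]`, and `F(c) = lim_𝒰 F_i(c)` (exists by
compactness of `[0,1]`: `Ultrafilter` + `isCompact_Icc.ultrafilter_le_nhds'`, or `limUnder`).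
Each property of `EFun` is the limit of an inequality of `AAv` for `Ω_i`, divided by `T_i`, with
errors `≤ 2/(k+1) → 0` along `𝒰` (`T • c` is admissible of level `T` if `c` is of level `1`,
`T • (c ⊔ c') = T•c ⊔ T•c'`, `T • cs s = cs (T • s)`); `lip` from `av_shift` for
`c' ≤ c + t` off the diagonal (on the diagonal both are `0`).
Final property: for given `𝒞₀, ε, T₁, q₀` the set of the `i = (𝒞,k)` with `𝒞₀ ⊆ 𝒞`,
`k ≥ max(T₁, q₀, 2/ε)` and `|F_i(c) - F(c)| ≤ ε/2` for `c ∈ 𝒞₀` is in `𝒰`, hence nonempty; note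
`|info (T_i c) x - T_i F_i(c)| ≤ T_i/(k+1)` for all `x ∈ Ω_i`, `c ∈ 𝒞`.
-/

set_option autoImplicit false

noncomputable section

namespace Pool.Agent.Lib.P51n

/-- existence of the parameter `q` -/
theorem exists_q (d : ℕ) (C : ℝ) (hC : 1 ≤ C) :
    ∃ A : ℕ, ∀ T : ℕ, 2 ≤ T → ∃ q : ℕ, Small d T C q ∧ (2 : ℝ) ^ q ≤ (T : ℝ) ^ A := by
  set K : ℝ := (2 : ℝ) ^ 12 * d ^ 2 * (8 * d * C) ^ (d + 1) with hK
  obtain ⟨B, hB⟩ := pow_unbounded_of_one_lt (2 * max K 1) (one_lt_two (α := ℝ))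
  refine ⟨B + (d - 1) * (d + 1), fun T hT => ?_⟩
  have hT' : (2 : ℝ) ≤ T := by exact_mod_cast hT
  have hT1 : (1 : ℝ) ≤ T := by linarith
  set P : ℝ := (T : ℝ) ^ ((d - 1) * (d + 1)) with hP
  have hP1 : 1 ≤ P := one_le_pow₀ hT1
  have hM1 : 1 ≤ max K 1 * P := one_le_mul_of_one_le_of_one_le (le_max_right _ _) hP1
  obtain ⟨q, hq⟩ : ∃ q : ℕ, max K 1 * P ≤ (2 : ℝ) ^ q ∧ (2 : ℝ) ^ q ≤ 2 * (max K 1 * P) := by
    have hex : ∃ q : ℕ, max K 1 * P ≤ (2 : ℝ) ^ q := by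
      obtain ⟨n, hn⟩ := pow_unbounded_of_one_lt (max K 1 * P) (one_lt_two (α := ℝ))
      exact ⟨n, hn.le⟩
    classical
    refine ⟨Nat.find hex, Nat.find_spec hex, ?_⟩
    rcases Nat.eq_zero_or_pos (Nat.find hex) with h0 | h0
    · rw [h0, pow_zero]
      linarith
    · have h1 := Nat.find_min hex (Nat.sub_lt h0 one_pos)
      rw [not_le] at h1
      have h2 : (2 : ℝ) ^ (Nat.find hex) = 2 * 2 ^ (Nat.find hex - 1) := by
        rw [← pow_succ']
        congr 1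
        omega
      rw [h2]
      linarith
  refine ⟨q, ?_, ?_⟩
  · unfold Small
    have h1 : (2 : ℝ) ^ 12 * d ^ 2 * (8 * d * C * (T : ℝ) ^ (d - 1)) ^ (d + 1) = K * P := by
      rw [hK, hP, mul_pow (8 * (d : ℝ) * C), pow_mul]
      ring
    rw [h1]
    have h2 : K * P ≤ max K 1 * P := mul_le_mul_of_nonneg_right (le_max_left _ _) (by linarith)
    linarith [hq.1]
  · have h1 : 2 * max K 1 ≤ (T : ℝ) ^ B := by
      have : (2 : ℝ) ^ B ≤ (T : ℝ) ^ B := pow_le_pow_left₀ (by norm_num) hT' B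
      linarith
    rw [pow_add]
    calc (2 : ℝ) ^ q ≤ 2 * (max K 1 * P) := hq.2
      _ = (2 * max K 1) * P := by ring
      _ ≤ (T : ℝ) ^ B * P := mul_le_mul_of_nonneg_right h1 (by linarith)

/-- pigeonhole for finitely many bounded functions -/
private theorem alimit_pigeon {α β : Type*} (G : Finset α) (hG : G.Nonempty) (𝒞 : Finset β)
    (f : β → α → ℝ) (T : ℝ) (hT : 0 < T) (hf0 : ∀ b ∈ 𝒞, ∀ x ∈ G, 0 ≤ f b x)
    (hf1 : ∀ b ∈ 𝒞, ∀ x ∈ G, f b x ≤ T) (k : ℕ) :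
    ∃ Ω ⊆ G, Ω.Nonempty ∧ (G.card : ℝ) ≤ ((k : ℝ) + 2) ^ 𝒞.card * Ω.card ∧
      ∀ x ∈ Ω, ∀ y ∈ Ω, ∀ b ∈ 𝒞, |f b x - f b y| ≤ T / ((k : ℝ) + 1) := by
  classical
  have hk : (0 : ℝ) < (k : ℝ) + 1 := by positivity
  let g : α → (𝒞 → ℕ) := fun x b => ⌊((k : ℝ) + 1) * f b x / T⌋₊
  let t : Finset (𝒞 → ℕ) := Fintype.piFinset fun _ => Finset.range (k + 2)
  have hgt : ∀ x ∈ G, g x ∈ t := by
    intro x hx
    rw [Fintype.mem_piFinset]
    intro b
    rw [Finset.mem_range]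
    have h1 : ((k : ℝ) + 1) * f b x / T ≤ ((k + 1 : ℕ) : ℝ) := by
      rw [div_le_iff₀ hT]
      push_cast
      exact mul_le_mul_of_nonneg_left (hf1 b b.2 x hx) hk.le
    have h2 := Nat.floor_le_floor h1
    rw [Nat.floor_natCast] at h2
    show ⌊((k : ℝ) + 1) * f b x / T⌋₊ < k + 2
    omega
  have htc : t.card = (k + 2) ^ 𝒞.card := by
    rw [Fintype.card_piFinset]
    simp
  have hgc : (0 : ℝ) < G.card := by exact_mod_cast hG.card_pos
  have htc' : (t.card : ℝ) = ((k : ℝ) + 2) ^ 𝒞.card := by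
    rw [htc]
    push_cast
    rfl
  have htp : (0 : ℝ) < t.card := by
    rw [htc']
    positivity
  obtain ⟨y, hy, hyc⟩ := Finset.exists_le_card_fiber_of_nsmul_le_card_of_maps_to
    (b := (G.card : ℝ) / t.card) hgt (by
      rw [← Finset.card_pos]
      exact_mod_cast htp) (by
      rw [nsmul_eq_mul, mul_div_cancel₀ _ htp.ne'])
  refine ⟨G.filter fun x => g x = y, Finset.filter_subset _ _, ?_, ?_, ?_⟩
  · rw [← Finset.card_pos]
    have : (0 : ℝ) < ((G.filter fun x => g x = y).card : ℝ) := lt_of_lt_of_le (by positivity) hyc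
    exact_mod_cast this
  · rw [div_le_iff₀ htp, htc'] at hyc
    linarith
  · intro x hx x' hx' b hb
    rw [Finset.mem_filter] at hx hx'
    have h1 : ⌊((k : ℝ) + 1) * f b x / T⌋₊ = ⌊((k : ℝ) + 1) * f b x' / T⌋₊ := by
      have := hx.2.trans hx'.2.symm
      exact congrFun this ⟨b, hb⟩
    have h2 : 0 ≤ ((k : ℝ) + 1) * f b x / T :=
      div_nonneg (mul_nonneg hk.le (hf0 b hb x hx.1)) hT.le
    have h3 : 0 ≤ ((k : ℝ) + 1) * f b x' / T :=
      div_nonneg (mul_nonneg hk.le (hf0 b hb x' hx'.1)) hT.le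
    have h4 := Nat.floor_le h2
    have h5 := Nat.floor_le h3
    have h6 := Nat.lt_floor_add_one (((k : ℝ) + 1) * f b x / T)
    have h7 := Nat.lt_floor_add_one (((k : ℝ) + 1) * f b x' / T)
    rw [h1] at h4 h6
    have h8 : |((k : ℝ) + 1) * f b x / T - ((k : ℝ) + 1) * f b x' / T| ≤ 1 := by
      rw [abs_le]
      constructor <;> linarith
    have h9 : ((k : ℝ) + 1) * f b x / T - ((k : ℝ) + 1) * f b x' / T =
        (f b x - f b x') * (((k : ℝ) + 1) / T) := by ring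
    rw [h9, abs_mul, abs_of_pos (div_pos hk hT)] at h8
    rw [le_div_iff₀ hk]
    rw [← mul_div_assoc, div_le_iff₀ hT] at h8
    linarith

/-- the logarithm is small -/
private theorem alimit_log (a b : ℝ) (e : ℝ) (he : 0 < e) (N : ℕ) (M : ℕ) (hM : 1 ≤ M) :
    ∃ T : ℕ, N ≤ T ∧ M ∣ T ∧ a * Real.logb 2 T + b ≤ e * T := by
  have h1 : Filter.Tendsto (fun x : ℝ => (a * Real.logb 2 x + b) / x) Filter.atTop (nhds 0) := by
    have h2 : Filter.Tendsto (fun x : ℝ => Real.log x / x) Filter.atTop (nhds 0) := by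
      have := Real.isLittleO_log_id_atTop.tendsto_div_nhds_zero
      exact this
    have h3 : Filter.Tendsto (fun x : ℝ => b / x) Filter.atTop (nhds 0) :=
      Filter.Tendsto.const_div_atTop Filter.tendsto_id b
    have h4 := (h2.const_mul (a / Real.log 2)).add h3
    rw [mul_zero, zero_add] at h4
    refine h4.congr fun x => ?_
    rw [Real.logb]
    ring
  have h5 : ∀ᶠ x : ℝ in Filter.atTop, (a * Real.logb 2 x + b) / x < e :=
    h1.eventually_lt_const he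
  obtain ⟨X, hX⟩ := Filter.eventually_atTop.1 h5
  obtain ⟨n, hn⟩ := exists_nat_ge X
  refine ⟨M * (N + n + 1), ?_, Dvd.intro _ rfl, ?_⟩
  · nlinarith
  · have h6 : (n : ℝ) ≤ ((M * (N + n + 1) : ℕ) : ℝ) := by
      have : n ≤ M * (N + n + 1) := by nlinarith
      exact_mod_cast this
    have h7 : (0 : ℝ) < ((M * (N + n + 1) : ℕ) : ℝ) := by
      have : 0 < M * (N + n + 1) := by positivity
      exact_mod_cast this
    have h8 := hX _ (hn.trans h6)
    rw [div_lt_iff₀ h7] at h8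
    exact h8.le

/-- one level of the construction -/
private theorem alimit_stage {d : ℕ} (C : ℝ) (T₀ : ℕ)
    (G : ℕ → Finset (AddSubgroup (Fin d → ℤ))) (hG : ∀ T, T₀ ≤ T → Fam T C (G T)) (A : ℕ)
    (hA : ∀ T : ℕ, 2 ≤ T → ∃ q : ℕ, Small d T C q ∧ (2 : ℝ) ^ q ≤ (T : ℝ) ^ A) (B : ℝ)
    (hB : 0 ≤ B) (i : Finset (Fin d → Fin d → ℝ) × ℕ) :
    ∃ (T q : ℕ) (Ω : Finset (AddSubgroup (Fin d → ℤ))), T₀ ≤ T ∧ i.2 + 2 ≤ T ∧
      (i.2 + 1).factorial ∣ T ∧ Small d T C q ∧ (2 : ℝ) ^ q ≤ (T : ℝ) ^ A ∧ Ω ⊆ G T ∧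
      Ω.Nonempty ∧ ((G T).card : ℝ) ≤ T * Ω.card ∧
      B * Real.logb 2 ((T : ℝ) * 2 ^ q) + B +
        3 * Real.logb 2 ((G T).card / Ω.card) ≤ T / ((i.2 : ℝ) + 1) ∧
      ∀ x ∈ Ω, ∀ y ∈ Ω, ∀ c ∈ i.1, |info (G T) ((1 / 2 : ℝ) ^ q) ((T : ℝ) • c) x -
        info (G T) ((1 / 2 : ℝ) ^ q) ((T : ℝ) • c) y| ≤ T / ((i.2 : ℝ) + 1) := by
  obtain ⟨𝒞, k⟩ := i
  dsimp only
  set D : ℝ := B + 3 * Real.logb 2 (((k : ℝ) + 2) ^ 𝒞.card) with hD
  have hk1 : (0 : ℝ) < (k : ℝ) + 1 := by positivity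
  obtain ⟨T, hT1, hT2, hT3⟩ := alimit_log (B * (A + 1)) D (1 / ((k : ℝ) + 1)) (by positivity)
    (T₀ + (k + 2) + (k + 2) ^ 𝒞.card) (k + 1).factorial (Nat.factorial_pos _)
  have hTk : k + 2 ≤ T := by omega
  have hT2' : 2 ≤ T := by omega
  have hT0 : T₀ ≤ T := by omega
  have hTr : (2 : ℝ) ≤ T := by exact_mod_cast hT2'
  have hTpos : (0 : ℝ) < T := by linarith
  obtain ⟨q, hq1, hq2⟩ := hA T hT2'
  have hfam := hG T hT0
  have hGne : (G T).Nonempty := by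
    rw [← Finset.card_pos]
    have h1 := hfam.le_card
    have h2 : (0 : ℝ) < C * (G T).card := lt_of_lt_of_le (by positivity) h1
    rcases Nat.eq_zero_or_pos (G T).card with h0 | h0
    · rw [h0] at h2
      simp at h2
    · exact h0
  have hκ : (0 : ℝ) ≤ (1 / 2 : ℝ) ^ q := by positivity
  obtain ⟨Ω, hΩ, hΩne, hΩc, hΩd⟩ := alimit_pigeon (G T) hGne 𝒞
    (fun c x => info (G T) ((1 / 2 : ℝ) ^ q) ((T : ℝ) • c) x) T hTpos
    (fun c _ x hx => info_nonneg hκ _ hx) (fun c _ x hx => info_le hfam hκ _ hx) k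
  have hΩpos : (0 : ℝ) < Ω.card := by exact_mod_cast hΩne.card_pos
  have hGpos : (0 : ℝ) < (G T).card := by exact_mod_cast hGne.card_pos
  refine ⟨T, q, Ω, hT0, hTk, hT2, hq1, hq2, hΩ, hΩne, ?_, ?_, hΩd⟩
  · refine hΩc.trans (mul_le_mul_of_nonneg_right ?_ hΩpos.le)
    have : (k + 2) ^ 𝒞.card ≤ T := by omega
    exact_mod_cast this
  · have h1 : Real.logb 2 ((T : ℝ) * 2 ^ q) ≤ (A + 1) * Real.logb 2 T := by
      have h2 : (T : ℝ) * 2 ^ q ≤ (T : ℝ) ^ (A + 1) := by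
        rw [pow_succ']
        exact mul_le_mul_of_nonneg_left hq2 hTpos.le
      have h3 := Real.logb_le_logb_of_le one_lt_two (by positivity) h2
      rw [Real.logb_pow] at h3
      push_cast at h3
      exact h3
    have h4 : Real.logb 2 ((G T).card / Ω.card) ≤ Real.logb 2 (((k : ℝ) + 2) ^ 𝒞.card) := by
      refine Real.logb_le_logb_of_le one_lt_two (by positivity) ?_
      rw [div_le_iff₀ hΩpos]
      exact hΩc
    have h5 : B * Real.logb 2 ((T : ℝ) * 2 ^ q) ≤ B * (A + 1) * Real.logb 2 T := by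
      rw [mul_assoc]
      exact mul_le_mul_of_nonneg_left h1 hB
    have h6 : (T : ℝ) / ((k : ℝ) + 1) = 1 / ((k : ℝ) + 1) * T := by ring
    rw [h6]
    linarith

private theorem alimit_smul_cs {d : ℕ} (T : ℝ) (s : Fin d → ℝ) : T • cs s = cs (T • s) := by
  funext i j
  simp only [cs, Pi.smul_apply, smul_eq_mul]
  ring

private theorem alimit_smul_sup {d : ℕ} {T : ℝ} (hT : 0 ≤ T) (c c' : Fin d → Fin d → ℝ) :
    T • (c ⊔ c') = T • c ⊔ T • c' := by
  funext i j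
  simp only [Pi.smul_apply, smul_eq_mul, Pi.sup_apply]
  exact mul_max_of_nonneg _ _ hT

private theorem alimit_smul_pos {d : ℕ} {T : ℝ} (hT : 0 ≤ T) {s : Fin d → ℝ} (hs : Pos 1 s) :
    Pos T (T • s) := by
  refine ⟨fun j => mul_nonneg hT (hs.1 j), ?_⟩
  simp only [Pi.smul_apply, smul_eq_mul]
  rw [← Finset.mul_sum, hs.2, mul_one]

private theorem alimit_smul_adm {d : ℕ} {T : ℝ} (hT : 0 ≤ T) {c : Fin d → Fin d → ℝ}
    (hc : Adm 1 c) : Adm T (T • c) := by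
  obtain ⟨⟨h0, h1⟩, s, hs, h2⟩ := hc
  refine ⟨⟨fun i => ?_, fun i j k => ?_⟩, T • s, alimit_smul_pos hT hs, fun i j => ?_⟩
  · simp [h0 i]
  · simp only [Pi.smul_apply, smul_eq_mul]
    rw [← mul_add]
    exact mul_le_mul_of_nonneg_left (h1 i j k) hT
  · rw [← alimit_smul_cs]
    simp only [Pi.smul_apply, smul_eq_mul]
    exact mul_le_mul_of_nonneg_left (h2 i j) hT

private theorem alimit_smul_le {d : ℕ} {T : ℝ} (hT : 0 ≤ T) {c c' : Fin d → Fin d → ℝ}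
    (h : c ≤ c') : T • c ≤ T • c' := fun i j => mul_le_mul_of_nonneg_left (h i j) hT

/-- an average of close values is close to each of them -/
private theorem alimit_avg {α : Type*} (Ω : Finset α) (f : α → ℝ) (e : ℝ)
    (h : ∀ x ∈ Ω, ∀ y ∈ Ω, |f x - f y| ≤ e) {x : α} (hx : x ∈ Ω) :
    |f x - (∑ y ∈ Ω, f y) / Ω.card| ≤ e := by
  have hc : (0 : ℝ) < Ω.card := by exact_mod_cast Finset.card_pos.2 ⟨x, hx⟩
  have h1 : f x - (∑ y ∈ Ω, f y) / Ω.card = (∑ y ∈ Ω, (f x - f y)) / Ω.card := by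
    rw [Finset.sum_sub_distrib, Finset.sum_const, nsmul_eq_mul]
    field_simp
  rw [h1, abs_div, abs_of_pos hc, div_le_iff₀ hc]
  calc |∑ y ∈ Ω, (f x - f y)| ≤ ∑ y ∈ Ω, |f x - f y| := Finset.abs_sum_le_sum_abs _ _
    _ ≤ ∑ y ∈ Ω, e := Finset.sum_le_sum fun y hy => h x hx y hy
    _ = e * Ω.card := by rw [Finset.sum_const, nsmul_eq_mul, mul_comm]

theorem exists_EFun (d : ℕ) (hd : 1 ≤ d) (C : ℝ) (hC : 1 ≤ C) (T₀ : ℕ)
    (G : ℕ → Finset (AddSubgroup (Fin d → ℤ))) (hG : ∀ T, T₀ ≤ T → Fam T C (G T)) :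
    ∃ (A : ℕ) (F : (Fin d → Fin d → ℝ) → ℝ), EFun d F ∧
      ∀ 𝒞 : Finset (Fin d → Fin d → ℝ), (∀ c ∈ 𝒞, Adm 1 c) → ∀ ε : ℝ, 0 < ε →
      ∀ T₁ q₀ : ℕ, 1 ≤ q₀ → ∃ T : ℕ, T₀ ≤ T ∧ T₁ ≤ T ∧ q₀ ∣ T ∧ ∃ q : ℕ, Small d T C q ∧
        (2 : ℝ) ^ q ≤ (T : ℝ) ^ A ∧ ∃ Ω ⊆ G T, Ω.Nonempty ∧ ((G T).card : ℝ) ≤ T * Ω.card ∧
        ∀ x ∈ Ω, ∀ c ∈ 𝒞, |info (G T) ((1 / 2 : ℝ) ^ q) ((T : ℝ) • c) x - T * F c| ≤ ε * T := by
  classical
  obtain ⟨A, hA⟩ := exists_q d C hC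
  obtain ⟨A', hA'⟩ := av_cs d hd C hC
  set B : ℝ := A' + 11 * d ^ 2 + Real.logb 2 C with hB
  have hlC : 0 ≤ Real.logb 2 C := Real.logb_nonneg one_lt_two hC
  have hB0 : 0 ≤ B := by positivity
  choose T q Ω hT₀ hTk hTd hsm hq hΩ hΩne hΩc herr hosc using
    alimit_stage C T₀ G hG A hA B hB0
  -- basic facts
  have hT2 : ∀ i, 2 ≤ T i := fun i => by have := hTk i; omega
  have hTr : ∀ i, (2 : ℝ) ≤ T i := fun i => by exact_mod_cast hT2 i
  have hTpos : ∀ i, (0 : ℝ) < T i := fun i => by linarith [hTr i]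
  have hT1 : ∀ i, 1 ≤ T i := fun i => by have := hT2 i; omega
  have hfam : ∀ i, Fam (T i) C (G (T i)) := fun i => hG _ (hT₀ i)
  have hΩpos : ∀ i, (0 : ℝ) < (Ω i).card := fun i => by exact_mod_cast (hΩne i).card_pos
  have hκ : ∀ i, (0 : ℝ) ≤ (1 / 2 : ℝ) ^ (q i) := fun i => by positivity
  have hlog1 : ∀ i, 0 ≤ Real.logb 2 ((G (T i)).card / (Ω i).card) := by
    intro i
    refine Real.logb_nonneg one_lt_two ?_
    rw [one_le_div (hΩpos i)]
    exact_mod_cast Finset.card_le_card (hΩ i)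
  have hlog2 : ∀ i, 0 ≤ Real.logb 2 ((T i : ℝ) * 2 ^ (q i)) := by
    intro i
    refine Real.logb_nonneg one_lt_two ?_
    exact one_le_mul_of_one_le_of_one_le (by linarith [hTr i]) (one_le_pow₀ (by norm_num))
  have hBlog : ∀ i, 0 ≤ B * Real.logb 2 ((T i : ℝ) * 2 ^ (q i)) := fun i =>
    mul_nonneg hB0 (hlog2 i)
  -- the averages
  set av : (Finset (Fin d → Fin d → ℝ) × ℕ) → (Fin d → Fin d → ℝ) → ℝ := fun i c =>
    (∑ x ∈ Ω i, info (G (T i)) ((1 / 2 : ℝ) ^ (q i)) c x) / (Ω i).card with hav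
  set FF : (Finset (Fin d → Fin d → ℝ) × ℕ) → (Fin d → Fin d → ℝ) → ℝ := fun i c =>
    av i ((T i : ℝ) • c) / T i with hFF
  have hFF0 : ∀ i c, FF i c ∈ Set.Icc (0 : ℝ) 1 := by
    intro i c
    have h0 : 0 ≤ av i ((T i : ℝ) • c) :=
      div_nonneg (Finset.sum_nonneg fun x hx => info_nonneg (hκ i) _ (hΩ i hx)) (hΩpos i).le
    have h1 : av i ((T i : ℝ) • c) ≤ T i := by
      rw [hav]
      dsimp only
      rw [div_le_iff₀ (hΩpos i)]
      calc ∑ x ∈ Ω i, info (G (T i)) ((1 / 2 : ℝ) ^ (q i)) ((T i : ℝ) • c) x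
          ≤ ∑ x ∈ Ω i, (T i : ℝ) :=
            Finset.sum_le_sum fun x hx => info_le (hfam i) (hκ i) _ (hΩ i hx)
        _ = T i * (Ω i).card := by rw [Finset.sum_const, nsmul_eq_mul, mul_comm]
    exact ⟨div_nonneg h0 (hTpos i).le, (div_le_one (hTpos i)).2 h1⟩
  -- the ultrafilter
  let 𝒰 : Ultrafilter (Finset (Fin d → Fin d → ℝ) × ℕ) := Ultrafilter.of Filter.atTop
  have h𝒰 : (𝒰 : Filter (Finset (Fin d → Fin d → ℝ) × ℕ)) ≤ Filter.atTop :=
    Ultrafilter.of_le Filter.atTop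
  have hlim : ∀ c, ∃ y ∈ Set.Icc (0 : ℝ) 1, Filter.Tendsto (fun i => FF i c) 𝒰 (nhds y) := by
    intro c
    obtain ⟨y, hy, hy'⟩ := isCompact_Icc.ultrafilter_le_nhds (𝒰.map fun i => FF i c) (by
      rw [Filter.le_principal_iff]
      exact Filter.mem_map.2 (Filter.Eventually.of_forall fun i => hFF0 i c))
    exact ⟨y, hy, hy'⟩
  choose F hF hFt using hlim
  -- the error tends to zero
  set er : (Finset (Fin d → Fin d → ℝ) × ℕ) → ℝ := fun i => 1 / ((i.2 : ℝ) + 1) with her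
  have hert : Filter.Tendsto er 𝒰 (nhds 0) := by
    have h1 : Filter.Tendsto (fun i : Finset (Fin d → Fin d → ℝ) × ℕ => i.2) Filter.atTop
        Filter.atTop := Filter.tendsto_snd.mono_left (by rw [Filter.prod_atTop_atTop_eq])
    exact (tendsto_one_div_add_atTop_nhds_zero_nat.comp h1).mono_left h𝒰
  have herr' : ∀ i, B * Real.logb 2 ((T i : ℝ) * 2 ^ (q i)) + B +
        3 * Real.logb 2 ((G (T i)).card / (Ω i).card) ≤ T i * er i := by
    intro i
    have := herr i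
    rw [her]
    dsimp only
    rw [mul_one_div]
    exact this
  -- dividing by T
  have hdiv : ∀ i c, av i ((T i : ℝ) • c) = T i * FF i c := by
    intro i c
    rw [hFF]
    dsimp only
    rw [mul_div_cancel₀ _ (hTpos i).ne']
  refine ⟨A, F, ⟨fun c _ => (hF c).1, fun c _ => (hF c).2, ?_, ?_, ?_, ?_, ?_⟩, ?_⟩
  · -- zero
    intro s hs
    refine le_antisymm ?_ (hF _).1
    refine le_of_tendsto_of_tendsto (hFt _) hert (Filter.Eventually.of_forall fun i => ?_)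
    dsimp only
    have h1 := hA' (T i) (q i) (G (T i)) (Ω i) (hT2 i) (hfam i) (hΩ i) (hΩne i)
      ((T i : ℝ) • s) (alimit_smul_pos (hTpos i).le hs)
    rw [← alimit_smul_cs] at h1
    have h2 : av i ((T i : ℝ) • cs s) ≤ A' * Real.logb 2 ((T i : ℝ) * 2 ^ (q i)) +
      Real.logb 2 ((G (T i)).card / (Ω i).card) := h1
    rw [hdiv] at h2
    have h3 : (A' : ℝ) * Real.logb 2 ((T i : ℝ) * 2 ^ (q i)) ≤
        B * Real.logb 2 ((T i : ℝ) * 2 ^ (q i)) :=
      mul_le_mul_of_nonneg_right (by rw [hB]; have : (0 : ℝ) ≤ 11 * (d : ℝ) ^ 2 := by positivity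
                                     linarith) (hlog2 i)
    have h4 : (T i : ℝ) * FF i (cs s) ≤ T i * er i := by
      linarith [herr' i, hlog1 i]
    exact le_of_mul_le_mul_left h4 (hTpos i)
  · -- mono
    intro c c' _ _ hcc
    refine le_of_tendsto_of_tendsto (hFt _) (hFt _) (Filter.Eventually.of_forall fun i => ?_)
    dsimp only
    have h4 : (T i : ℝ) * FF i c ≤ T i * FF i c' := by
      rw [← hdiv, ← hdiv]
      refine div_le_div_of_nonneg_right (Finset.sum_le_sum fun x hx => ?_) (hΩpos i).le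
      exact info_mono (hκ i) (alimit_smul_le (hTpos i).le hcc) (hΩ i hx)
    exact le_of_mul_le_mul_left h4 (hTpos i)
  · -- lip
    intro c c' t hc hc' ht hcc
    have hR : Filter.Tendsto (fun i => FF i c + d ^ 2 * t + er i) 𝒰
        (nhds (F c + d ^ 2 * t + 0)) := ((hFt c).add_const _).add hert
    rw [add_zero] at hR
    refine le_of_tendsto_of_tendsto (hFt _) hR (Filter.Eventually.of_forall fun i => ?_)
    dsimp only
    have h1 := av_shift hd (hT1 i) hC (hsm i) (hfam i) (hΩ i) (hΩne i)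
      (t := T i * t) (mul_nonneg (hTpos i).le ht) (c := (T i : ℝ) • c) (c' := (T i : ℝ) • c')
      (alimit_smul_adm (hTpos i).le hc) (fun a b => by
        unfold shiftOff
        split_ifs with hab
        · subst hab
          simp [hc'.1.1 a]
        · simp only [Pi.smul_apply, smul_eq_mul]
          rw [← mul_add]
          exact mul_le_mul_of_nonneg_left (hcc a b) (hTpos i).le)
    have h2 : av i ((T i : ℝ) • c') ≤ av i ((T i : ℝ) • c) + d ^ 2 * (T i * t + 3) +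
      Real.logb 2 ((G (T i)).card / (Ω i).card) := h1
    rw [hdiv, hdiv] at h2
    have h4 : (T i : ℝ) * FF i c' ≤ T i * (FF i c + d ^ 2 * t + er i) := by
      have h5 := herr' i
      have h6 := hlog1 i
      have h7 := hBlog i
      have h8 : (3 : ℝ) * d ^ 2 ≤ B := by
        rw [hB]
        have : (0 : ℝ) ≤ (d : ℝ) ^ 2 := by positivity
        have h9 : (0 : ℝ) ≤ (A' : ℝ) := by positivity
        linarith
      nlinarith
    exact le_of_mul_le_mul_left h4 (hTpos i)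
  · -- submod
    intro c c' c'' hc hc' hc'' h1 h2
    have hL : Filter.Tendsto (fun i => FF i (c ⊔ c') + FF i c'') 𝒰
        (nhds (F (c ⊔ c') + F c'')) := (hFt _).add (hFt _)
    have hR : Filter.Tendsto (fun i => FF i c + FF i c' + er i) 𝒰
        (nhds (F c + F c' + 0)) := ((hFt c).add (hFt c')).add hert
    rw [add_zero] at hR
    refine le_of_tendsto_of_tendsto hL hR (Filter.Eventually.of_forall fun i => ?_)
    dsimp only
    have h3 := av_submod hd (hT1 i) hC (hsm i) (hfam i) (hΩ i) (hΩne i)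
      (alimit_smul_adm (hTpos i).le hc) (alimit_smul_adm (hTpos i).le hc')
      (alimit_smul_adm (hTpos i).le hc'') (alimit_smul_le (hTpos i).le h1)
      (alimit_smul_le (hTpos i).le h2)
    rw [← alimit_smul_sup (hTpos i).le] at h3
    have h4 : av i ((T i : ℝ) • (c ⊔ c')) + av i ((T i : ℝ) • c'') ≤
      av i ((T i : ℝ) • c) + av i ((T i : ℝ) • c') + 11 * d ^ 2 +
        3 * Real.logb 2 ((G (T i)).card / (Ω i).card) := h3
    rw [hdiv, hdiv, hdiv, hdiv] at h4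
    have h5 : (T i : ℝ) * (FF i (c ⊔ c') + FF i c'') ≤ T i * (FF i c + FF i c' + er i) := by
      have h5 := herr' i
      have h7 := hBlog i
      have h8 : (11 : ℝ) * d ^ 2 ≤ B := by
        rw [hB]
        have h9 : (0 : ℝ) ≤ (A' : ℝ) := by positivity
        linarith
      linarith
    exact le_of_mul_le_mul_left h5 (hTpos i)
  · -- full
    intro c hc hfull
    have hR : Filter.Tendsto (fun i => FF i c + er i) 𝒰 (nhds (F c + 0)) := (hFt c).add hert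
    rw [add_zero] at hR
    refine le_of_tendsto_of_tendsto tendsto_const_nhds hR
      (Filter.Eventually.of_forall fun i => ?_)
    dsimp only
    have h1 : ∀ a, ∃ s, Pos (T i : ℝ) s ∧ ∀ j, s j ≤ ((T i : ℝ) • c) a j := by
      intro a
      obtain ⟨s, hs, hs'⟩ := hfull a
      exact ⟨(T i : ℝ) • s, alimit_smul_pos (hTpos i).le hs, fun j =>
        mul_le_mul_of_nonneg_left (hs' j) (hTpos i).le⟩
    have h2 : (T i : ℝ) - Real.logb 2 C ≤ av i ((T i : ℝ) • c) := by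
      rw [hav]
      dsimp only
      rw [le_div_iff₀ (hΩpos i)]
      calc ((T i : ℝ) - Real.logb 2 C) * (Ω i).card
          = ∑ x ∈ Ω i, ((T i : ℝ) - Real.logb 2 C) := by
            rw [Finset.sum_const, nsmul_eq_mul, mul_comm]
        _ ≤ ∑ x ∈ Ω i, info (G (T i)) ((1 / 2 : ℝ) ^ (q i)) ((T i : ℝ) • c) x :=
            Finset.sum_le_sum fun x hx => info_full hd (hT1 i) hC (hsm i) (hfam i) h1 (hΩ i hx)
    rw [hdiv] at h2
    have h5 : (T i : ℝ) * 1 ≤ T i * (FF i c + er i) := by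
      have h5 := herr' i
      have h6 := hlog1 i
      have h7 := hBlog i
      have h8 : Real.logb 2 C ≤ B := by
        rw [hB]
        have h9 : (0 : ℝ) ≤ (A' : ℝ) := by positivity
        have : (0 : ℝ) ≤ 11 * (d : ℝ) ^ 2 := by positivity
        linarith
      linarith
    exact le_of_mul_le_mul_left h5 (hTpos i)
  · -- final property
    intro 𝒞 _ ε hε T₁ q₀ hq₀
    obtain ⟨n, hn⟩ := exists_nat_ge (2 / ε)
    have h1 : ∀ᶠ i in (𝒰 : Filter _), ((𝒞, T₁ + q₀ + n) :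
        Finset (Fin d → Fin d → ℝ) × ℕ) ≤ i := h𝒰 (Filter.eventually_ge_atTop _)
    have h2 : ∀ᶠ i in (𝒰 : Filter _), ∀ c ∈ 𝒞, |FF i c - F c| ≤ ε / 2 := by
      rw [Filter.eventually_all_finset]
      intro c _
      have h3 := (Metric.tendsto_nhds.1 (hFt c)) (ε / 2) (by linarith)
      filter_upwards [h3] with i hi
      rw [Real.dist_eq] at hi
      exact hi.le
    obtain ⟨i, hi1, hi2⟩ := (h1.and h2).exists
    have hi3 : 𝒞 ⊆ i.1 := hi1.1
    have hi4 : T₁ + q₀ + n ≤ i.2 := hi1.2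
    refine ⟨T i, hT₀ i, ?_, ?_, q i, hsm i, hq i, Ω i, hΩ i, hΩne i, hΩc i, ?_⟩
    · have := hTk i
      omega
    · exact (Nat.dvd_factorial hq₀ (by omega)).trans (hTd i)
    · intro x hx c hc
      have h3 := alimit_avg (Ω i)
        (fun x => info (G (T i)) ((1 / 2 : ℝ) ^ (q i)) ((T i : ℝ) • c) x)
        (T i / ((i.2 : ℝ) + 1)) (fun x hx y hy => hosc i x hx y hy c (hi3 hc)) hx
      have h4 : (∑ x ∈ Ω i, info (G (T i)) ((1 / 2 : ℝ) ^ (q i)) ((T i : ℝ) • c) x) /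
        (Ω i).card = T i * FF i c := hdiv i c
      rw [h4] at h3
      have h5 : |(T i : ℝ) * FF i c - T i * F c| ≤ T i * (ε / 2) := by
        rw [← mul_sub, abs_mul, abs_of_pos (hTpos i)]
        exact mul_le_mul_of_nonneg_left (hi2 c hc) (hTpos i).le
      have h6 : (T i : ℝ) / ((i.2 : ℝ) + 1) ≤ T i * (ε / 2) := by
        rw [div_le_iff₀ (by positivity), mul_assoc]
        have h7 : (2 / ε : ℝ) ≤ i.2 := by
          refine hn.trans ?_
          exact_mod_cast (by omega : n ≤ i.2)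
        rw [div_le_iff₀ hε] at h7
        have h8 : 1 ≤ ε / 2 * ((i.2 : ℝ) + 1) := by nlinarith
        exact le_mul_of_one_le_right (hTpos i).le h8
      have h7 := abs_sub_le (info (G (T i)) ((1 / 2 : ℝ) ^ (q i)) ((T i : ℝ) • c) x)
        (T i * FF i c) (T i * F c)
      linarith

end Pool.Agent.Lib.P51n
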