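import Pool.Agent.Lib.P51n.NearBasic

/-!
# P51n.Cover  (about 1 h)

Covering a ball of shape `c` by few balls of shape `c + t`.

For `Γ ∈ X` choose `h_Γ` with `Disp h_Γ Γ Γ'` and `NearOne κ₁ c h_Γ`.  Round:
`f Γ i j = ⌊(h_Γ - 1)_ij · 2^{c_ij + t} / (κ₂/2)⌋`; all these integers lie in
`[-M, M]`, `M = 2 κ₁ 2^t / κ₂` (floors of reals in `[-M, M]`: at most `2M + 2` integers), so the
image has at most `(4 κ₁ 2^t/κ₂ + 3)^(d²)` elements.  If `f Γ₁ = f Γ₂` then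
`Δ = h_{Γ₁} - h_{Γ₂}` satisfies `|Δ_ij| ≤ (κ₂/2) 2^{-c_ij - t}` for all `i, j` (including `i = j`,
where `c_ii = 0`); the displacement `h_{Γ₂}⁻¹ h_{Γ₁} = 1 + h_{Γ₂}⁻¹ Δ` maps `Γ₁` onto `Γ₂`, and with
`h_{Γ₂}⁻¹ = 1 + E'`, `|E'_ij| ≤ 2κ₁ 2^{-c_ij}` (`NearOne.inv`) we get
`|(h_{Γ₂}⁻¹ Δ)_ij| ≤ (κ₂/2) 2^{-c_ij-t} (1 + 2dκ₁) ≤ κ₂ 2^{-c_ij - t}`.
-/

set_option autoImplicit false

noncomputable section

namespace Pool.Agent.Lib.P51n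

variable {d : ℕ}

/-- the shape `c + t` off the diagonal -/
def shiftOff (c : Fin d → Fin d → ℝ) (t : ℝ) : Fin d → Fin d → ℝ :=
  fun i j => if i = j then 0 else c i j + t

private theorem mul_bound {c : Fin d → Fin d → ℝ} (hc : Tri c) {κ₁ κ₂ t : ℝ} (hκ₁ : 0 < κ₁)
    (hκd : 2 * d * κ₁ < 1) (hκ₂ : 0 < κ₂) {A Δ : Matrix (Fin d) (Fin d) ℝ}
    (hA : NearOne (2 * κ₁) c A)
    (hΔ : ∀ i j, |Δ i j| ≤ κ₂ / 2 * (2 : ℝ) ^ (-(c i j + t))) (i j : Fin d) :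
    |(A * Δ) i j| ≤ κ₂ * (2 : ℝ) ^ (-(c i j + t)) := by
  have hp : ∀ x : ℝ, 0 < (2 : ℝ) ^ x := fun x => Real.rpow_pos_of_pos two_pos x
  have h1 : (A * Δ) i j = Δ i j + ∑ k, (A i k - (1 : Matrix (Fin d) (Fin d) ℝ) i k) * Δ k j := by
    have h2 : A * Δ = Δ + (A - 1) * Δ := by
      rw [sub_mul, one_mul]
      abel
    rw [h2, Matrix.add_apply, Matrix.mul_apply]
    rfl
  have h3 : ∀ k, |(A i k - (1 : Matrix (Fin d) (Fin d) ℝ) i k) * Δ k j| ≤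
      κ₁ * κ₂ * (2 : ℝ) ^ (-(c i j + t)) := by
    intro k
    rw [abs_mul]
    have h4 := mul_le_mul (hA i k) (hΔ k j) (abs_nonneg _)
      (mul_nonneg (by positivity) (hp _).le)
    refine h4.trans ?_
    have h5 : 2 * κ₁ * (2 : ℝ) ^ (-c i k) * (κ₂ / 2 * (2 : ℝ) ^ (-(c k j + t))) =
        κ₁ * κ₂ * (2 : ℝ) ^ (-c i k + -(c k j + t)) := by
      rw [Real.rpow_add two_pos]
      ring
    rw [h5]
    apply mul_le_mul_of_nonneg_left _ (by positivity)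
    apply Real.rpow_le_rpow_of_exponent_le one_le_two
    have := hc.2 i k j
    linarith
  rw [h1]
  refine (abs_add_le _ _).trans ?_
  have h6 : |∑ k, (A i k - (1 : Matrix (Fin d) (Fin d) ℝ) i k) * Δ k j| ≤
      d * (κ₁ * κ₂ * (2 : ℝ) ^ (-(c i j + t))) := by
    refine (Finset.abs_sum_le_sum_abs _ _).trans ?_
    refine (Finset.sum_le_sum fun k _ => h3 k).trans ?_
    rw [Finset.sum_const, Finset.card_univ, Fintype.card_fin, nsmul_eq_mul]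
  have h7 := hΔ i j
  have h8 : 0 < κ₂ * (2 : ℝ) ^ (-(c i j + t)) := mul_pos hκ₂ (hp _)
  nlinarith

open Classical in
theorem exists_round {c : Fin d → Fin d → ℝ} (hc : Tri c) {s : Fin d → ℝ}
    (hcs : ∀ i j, cs s i j ≤ c i j) {κ₁ κ₂ t : ℝ} (hκ₁ : 0 < κ₁) (hκd : 2 * d * κ₁ < 1)
    (hκ₂ : 0 < κ₂) (ht : 0 ≤ t) (Γ' : AddSubgroup (Fin d → ℤ))
    (X : Finset (AddSubgroup (Fin d → ℤ))) (hX : ∀ Γ ∈ X, Near κ₁ c Γ Γ') :
    ∃ f : AddSubgroup (Fin d → ℤ) → (Fin d → Fin d → ℤ),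
      ((X.image f).card : ℝ) ≤ (4 * κ₁ * (2 : ℝ) ^ t / κ₂ + 3) ^ (d ^ 2) ∧
      ∀ Γ₁ ∈ X, ∀ Γ₂ ∈ X, f Γ₁ = f Γ₂ → Near κ₂ (shiftOff c t) Γ₁ Γ₂ := by
  have hp : ∀ x : ℝ, 0 < (2 : ℝ) ^ x := fun x => Real.rpow_pos_of_pos two_pos x
  have hch : ∀ Γ ∈ X, ∃ h : Matrix (Fin d) (Fin d) ℝ, Disp h Γ Γ' ∧ NearOne κ₁ c h := hX
  choose! H hDN using hch
  refine ⟨fun Γ i j => ⌊(H Γ i j - (1 : Matrix (Fin d) (Fin d) ℝ) i j) *
    (2 : ℝ) ^ (c i j + t) / (κ₂ / 2)⌋, ?_, ?_⟩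
  · obtain ⟨M, hM⟩ : ∃ M, M = 2 * κ₁ * (2 : ℝ) ^ t / κ₂ := ⟨_, rfl⟩
    have hM0 : 0 ≤ M := by
      rw [hM]
      have := hp t
      positivity
    have hsub : X.image (fun Γ i j => ⌊(H Γ i j - (1 : Matrix (Fin d) (Fin d) ℝ) i j) *
        (2 : ℝ) ^ (c i j + t) / (κ₂ / 2)⌋) ⊆
        Fintype.piFinset (fun _ : Fin d => Fintype.piFinset
          (fun _ : Fin d => Finset.Icc ⌊-M⌋ ⌊M⌋)) := by
      intro g hg
      obtain ⟨Γ, hΓ, rfl⟩ := Finset.mem_image.1 hg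
      rw [Fintype.mem_piFinset]
      intro i
      rw [Fintype.mem_piFinset]
      intro j
      have h1 := (hDN Γ hΓ).2 i j
      have h2 : |(H Γ i j - (1 : Matrix (Fin d) (Fin d) ℝ) i j) *
          (2 : ℝ) ^ (c i j + t) / (κ₂ / 2)| ≤ M := by
        rw [abs_div, abs_mul, abs_of_pos (hp _), abs_of_pos (half_pos hκ₂),
          div_le_iff₀ (half_pos hκ₂)]
        have h3 : M * (κ₂ / 2) = κ₁ * (2 : ℝ) ^ (-c i j) * (2 : ℝ) ^ (c i j + t) := by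
          have e : (2 : ℝ) ^ (-c i j) * (2 : ℝ) ^ (c i j + t) = (2 : ℝ) ^ t := by
            rw [← Real.rpow_add two_pos]
            congr 1
            ring
          rw [hM, mul_assoc κ₁, e]
          field_simp
        rw [h3]
        exact mul_le_mul_of_nonneg_right h1 (hp _).le
      rw [Finset.mem_Icc]
      have h4 := abs_le.1 h2
      exact ⟨Int.floor_le_floor h4.1, Int.floor_le_floor h4.2⟩
    have hcard := Finset.card_le_card hsub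
    rw [Fintype.card_piFinset, Finset.prod_const, Fintype.card_piFinset, Finset.prod_const,
      Finset.card_univ, Fintype.card_fin, Int.card_Icc, ← pow_mul] at hcard
    have hle : ((⌊M⌋ + 1 - ⌊-M⌋).toNat : ℝ) ≤ 4 * κ₁ * (2 : ℝ) ^ t / κ₂ + 3 := by
      have h5 : 0 ≤ ⌊M⌋ + 1 - ⌊-M⌋ := by
        have : ⌊-M⌋ ≤ ⌊M⌋ := Int.floor_le_floor (by linarith)
        omega
      have h6 : ((⌊M⌋ + 1 - ⌊-M⌋).toNat : ℝ) = ((⌊M⌋ + 1 - ⌊-M⌋ : ℤ) : ℝ) := by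
        have := Int.toNat_of_nonneg h5
        exact_mod_cast this
      rw [h6]
      push_cast
      have h7 := Int.floor_le M
      have h8 := Int.lt_floor_add_one (-M)
      have h9 : 4 * κ₁ * (2 : ℝ) ^ t / κ₂ = 2 * M := by
        rw [hM]
        ring
      rw [h9]
      linarith
    calc ((X.image _).card : ℝ) ≤ (((⌊M⌋ + 1 - ⌊-M⌋).toNat ^ (d * d) : ℕ) : ℝ) := by
          exact_mod_cast hcard
      _ = ((⌊M⌋ + 1 - ⌊-M⌋).toNat : ℝ) ^ (d ^ 2) := by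
          rw [Nat.cast_pow, sq]
      _ ≤ _ := pow_le_pow_left₀ (Nat.cast_nonneg _) hle _
  · intro Γ₁ h1 Γ₂ h2 hf
    obtain ⟨hD1, hN1⟩ := hDN Γ₁ h1
    obtain ⟨hD2, hN2⟩ := hDN Γ₂ h2
    have hu := hN2.isUnit hκ₁.le hκd hcs
    have hinv := hN2.inv hκ₁.le hκd hc hcs
    refine ⟨(H Γ₂)⁻¹ * H Γ₁, hD1.mul (hD2.inv hu), ?_⟩
    have hΔ : ∀ i j, |(H Γ₁ - H Γ₂) i j| ≤ κ₂ / 2 * (2 : ℝ) ^ (-(c i j + t)) := by
      intro i j
      have hfl : ⌊(H Γ₁ i j - (1 : Matrix (Fin d) (Fin d) ℝ) i j) *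
          (2 : ℝ) ^ (c i j + t) / (κ₂ / 2)⌋ = ⌊(H Γ₂ i j - (1 : Matrix (Fin d) (Fin d) ℝ) i j) *
          (2 : ℝ) ^ (c i j + t) / (κ₂ / 2)⌋ := congrFun (congrFun hf i) j
      have h3 := Int.abs_sub_lt_one_of_floor_eq_floor hfl
      have h4 : (H Γ₁ i j - (1 : Matrix (Fin d) (Fin d) ℝ) i j) *
          (2 : ℝ) ^ (c i j + t) / (κ₂ / 2) - (H Γ₂ i j - (1 : Matrix (Fin d) (Fin d) ℝ) i j) *
          (2 : ℝ) ^ (c i j + t) / (κ₂ / 2) = (H Γ₁ - H Γ₂) i j * (2 : ℝ) ^ (c i j + t) / (κ₂ / 2) := by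
        rw [Matrix.sub_apply]
        ring
      rw [h4, abs_div, abs_mul, abs_of_pos (hp _), abs_of_pos (half_pos hκ₂),
        div_lt_one (half_pos hκ₂)] at h3
      rw [Real.rpow_neg zero_le_two, ← div_eq_mul_inv, le_div_iff₀ (hp _)]
      exact h3.le
    have hmain := mul_bound hc hκ₁ hκd hκ₂ hinv hΔ
    have heq : (H Γ₂)⁻¹ * H Γ₁ - 1 = (H Γ₂)⁻¹ * (H Γ₁ - H Γ₂) := by
      rw [mul_sub, Matrix.nonsing_inv_mul _ hu]
    intro i j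
    have h5 : ((H Γ₂)⁻¹ * H Γ₁) i j - (1 : Matrix (Fin d) (Fin d) ℝ) i j =
        ((H Γ₂)⁻¹ * (H Γ₁ - H Γ₂)) i j := by
      rw [← heq, Matrix.sub_apply]
    rw [h5]
    refine (hmain i j).trans ?_
    apply mul_le_mul_of_nonneg_left _ hκ₂.le
    apply Real.rpow_le_rpow_of_exponent_le one_le_two
    unfold shiftOff
    split_ifs with hij
    · subst hij
      rw [hc.1 i]
      linarith
    · exact le_rfl

end Pool.Agent.Lib.P51n
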