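import Mathlib

/-!
# P51n.Dc  (about 0.5 h)

Double counting.  `∑_{x ∈ Ω} #{y ∈ G : r x y}/N'(x) = ∑_{y ∈ G} ∑_{x ∈ Ω, r x y} 1/N'(x)`, and for a
fixed `y` each class `{x' : f x' = f x}` of the `x` related to `y` contributes
`∑_{x in class} 1/N'(x) ≤ 1`, because `N'(x) ≥ #class` (and `≥ 1`).
-/

set_option autoImplicit false

namespace Pool.Agent.Lib.P51n

open Classical in
theorem double_count {α β ι : Type*} (Ω : Finset α) (G : Finset β) (r : α → β → Prop)
    (N' : α → ℕ) (B : ℝ)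
    (h : ∀ y ∈ G, ∃ f : α → ι, (((Ω.filter fun x => r x y).image f).card : ℝ) ≤ B ∧
      ∀ x ∈ Ω, r x y → (Ω.filter fun x' => r x' y ∧ f x' = f x).card ≤ N' x) :
    ∑ x ∈ Ω, ((G.filter fun y => r x y).card : ℝ) / N' x ≤ B * G.card := by
  have h1 : ∀ x ∈ Ω, ((G.filter fun y => r x y).card : ℝ) / N' x =
      ∑ y ∈ G, if r x y then (1 : ℝ) / N' x else 0 := by
    intro x _
    rw [← Finset.sum_filter, Finset.sum_const, nsmul_eq_mul, mul_one_div]
  rw [Finset.sum_congr rfl h1, Finset.sum_comm]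
  have h2 : ∀ y ∈ G, (∑ x ∈ Ω, if r x y then (1 : ℝ) / N' x else 0) ≤ B := by
    intro y hy
    obtain ⟨f, hf1, hf2⟩ := h y hy
    rw [← Finset.sum_filter]
    refine le_trans ?_ hf1
    rw [← Finset.sum_fiberwise_of_maps_to (s := Ω.filter fun x => r x y)
      (t := (Ω.filter fun x => r x y).image f) (g := f)
      (fun x hx => Finset.mem_image_of_mem f hx)]
    rw [Finset.card_eq_sum_ones, Nat.cast_sum]
    refine Finset.sum_le_sum fun c hc => ?_
    obtain ⟨x0, hx0, hx0c⟩ := Finset.mem_image.1 hc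
    have hne : 0 < ((Ω.filter fun x => r x y).filter fun x => f x = c).card :=
      Finset.card_pos.2 ⟨x0, Finset.mem_filter.2 ⟨hx0, hx0c⟩⟩
    have hle : ∀ x ∈ (Ω.filter fun x => r x y).filter fun x => f x = c,
        (1 : ℝ) / N' x ≤ 1 / (((Ω.filter fun x => r x y).filter fun x => f x = c).card : ℝ) := by
      intro x hx
      obtain ⟨hx1, hx2⟩ := Finset.mem_filter.1 hx
      obtain ⟨hx3, hx4⟩ := Finset.mem_filter.1 hx1
      have h3 := hf2 x hx3 hx4
      have h4 : (Ω.filter fun x' => r x' y ∧ f x' = f x) =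
          (Ω.filter fun x => r x y).filter fun x => f x = c := by
        rw [Finset.filter_filter, hx2]
      rw [h4] at h3
      exact one_div_le_one_div_of_le (by exact_mod_cast hne) (by exact_mod_cast h3)
    refine (Finset.sum_le_sum hle).trans ?_
    rw [Finset.sum_const, nsmul_eq_mul, mul_one_div, div_self (by exact_mod_cast hne.ne')]
    simp
  refine (Finset.sum_le_sum h2).trans ?_
  rw [Finset.sum_const, nsmul_eq_mul, mul_comm]

end Pool.Agent.Lib.P51n
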