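import Pool.Agent.Lib.P51n.NetNear

/-!
# P51n.Net  (about 1.5 h)

Polynomially many classes of mutually `2^{-q}`-close good lattices at every position (shape `c_s`).

Choose a description `(v, q', g)` of every good lattice (`exists_desc`), with
`R = (8dC T^(d-1))^d`, `D₀ = 1/C`, and put
`f Γ = (fun i j => ⌊v_i(j) 2^{-s_j} / ε⌋, q', g)` with `ε = 2^{-q} / (d (d-1)! R^(d-1) C)`.  If
`f Γ₁ = f Γ₂`, `near_of_desc` gives `Near (2^{-q})`.  The number of values is at most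
`(2R/ε + 2)^(d²) · (Q + 1) · (Q + 1)^(d²)`, `Q = C d! R^d`, which is at most `(T 2^q)^A` for
`T ≥ 2` and a suitable `A = A(d, C)`.
-/

set_option autoImplicit false

noncomputable section

namespace Pool.Agent.Lib.P51n

namespace NetAux

/-- boxes of integer matrices -/
theorem card_box (d : ℕ) (a b : ℤ) :
    (Fintype.piFinset fun _ : Fin d => Fintype.piFinset fun _ : Fin d => Finset.Icc a b).card =
      ((b + 1 - a).toNat ^ d) ^ d := by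
  rw [Fintype.card_piFinset_const, Fintype.card_piFinset_const, Int.card_Icc]

theorem floor_mem {x ρ : ℝ} (h : |x| ≤ ρ) : ⌊x⌋ ∈ Finset.Icc (-(⌈ρ⌉₊ : ℤ)) (⌈ρ⌉₊ : ℤ) := by
  have h1 := abs_le.1 h
  have h2 : ρ ≤ (⌈ρ⌉₊ : ℝ) := Nat.le_ceil ρ
  rw [Finset.mem_Icc]
  constructor
  · rw [Int.le_floor]
    push_cast
    linarith
  · have h3 : (⌊x⌋ : ℝ) ≤ (⌈ρ⌉₊ : ℝ) := (Int.floor_le x).trans (by linarith)
    exact_mod_cast h3

theorem close_of_floor {x y ε : ℝ} (hε : 0 < ε) (h : ⌊x / ε⌋ = ⌊y / ε⌋) : |x - y| ≤ ε := by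
  have h1 := Int.abs_sub_lt_one_of_floor_eq_floor h
  rw [← sub_div, abs_div, abs_of_pos hε, div_lt_one hε] at h1
  exact h1.le

/-- the final estimate -/
theorem count {B R Q W C F : ℝ} {d a1 a2 a3 e : ℕ} {N M : ℕ} (hB : 2 ≤ B) (hR1 : 1 ≤ R)
    (hR : R ≤ B ^ e) (hQ1 : 1 ≤ Q) (hQ : Q ≤ B ^ a1) (hW1 : 1 ≤ W) (hW : W ≤ B ^ a2)
    (hM : (M : ℝ) ≤ Q) (hN : (N : ℝ) ≤ W + 1) :
    (((2 * N + 1 : ℕ) : ℝ) ^ d) ^ d * (((M + 1 : ℕ) : ℝ) * ((((M + 1 : ℕ) : ℝ) ^ d) ^ d)) ≤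
      B ^ ((a2 + 3) * d * d + ((a1 + 1) + (a1 + 1) * d * d)) := by
  have hB0 : 0 ≤ B := by linarith
  have h1 : ((2 * N + 1 : ℕ) : ℝ) ≤ B ^ (a2 + 3) := by
    push_cast
    have h8 : (8 : ℝ) ≤ B ^ 3 := by
      calc (8 : ℝ) = 2 ^ 3 := by norm_num
        _ ≤ B ^ 3 := pow_le_pow_left₀ (by norm_num) hB 3
    calc (2 * N + 1 : ℝ) ≤ 8 * W := by linarith
      _ ≤ B ^ 3 * B ^ a2 := mul_le_mul h8 hW (by linarith) (by positivity)
      _ = B ^ (a2 + 3) := by rw [← pow_add, add_comm]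
  have h2 : ((M + 1 : ℕ) : ℝ) ≤ B ^ (a1 + 1) := by
    push_cast
    calc (M + 1 : ℝ) ≤ 2 * Q := by linarith
      _ ≤ B * B ^ a1 := mul_le_mul hB hQ (by linarith) hB0
      _ = B ^ (a1 + 1) := by rw [pow_succ, mul_comm]
  have h3 : (((2 * N + 1 : ℕ) : ℝ) ^ d) ^ d ≤ B ^ ((a2 + 3) * d * d) := by
    rw [pow_mul, pow_mul]
    exact pow_le_pow_left₀ (by positivity) (pow_le_pow_left₀ (by positivity) h1 d) d
  have h4 : (((M + 1 : ℕ) : ℝ) ^ d) ^ d ≤ B ^ ((a1 + 1) * d * d) := by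
    rw [pow_mul, pow_mul]
    exact pow_le_pow_left₀ (by positivity) (pow_le_pow_left₀ (by positivity) h2 d) d
  rw [pow_add, pow_add B (a1 + 1)]
  exact mul_le_mul h3 (mul_le_mul h2 h4 (by positivity) (by positivity)) (by positivity)
    (by positivity)

end NetAux

open NetAux in
open Classical in
theorem exists_net (d : ℕ) (hd : 1 ≤ d) (C : ℝ) (hC : 1 ≤ C) :
    ∃ A : ℕ, ∀ T : ℕ, 2 ≤ T → ∀ q : ℕ, ∀ s : Fin d → ℝ, Pos T s →
      ∀ G : Finset (AddSubgroup (Fin d → ℤ)), (∀ Γ ∈ G, Good T C Γ) →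
      ∃ f : AddSubgroup (Fin d → ℤ) → (Fin d → Fin d → ℤ) × ℕ × (Fin d → Fin d → ℤ),
        ((G.image f).card : ℝ) ≤ ((T : ℝ) * 2 ^ q) ^ A ∧
        ∀ Γ₁ ∈ G, ∀ Γ₂ ∈ G, f Γ₁ = f Γ₂ → Near ((1 / 2 : ℝ) ^ q) (cs s) Γ₁ Γ₂ := by
  obtain ⟨k1, hk1⟩ := pow_unbounded_of_one_lt (8 * d * C) (one_lt_two (α := ℝ))
  obtain ⟨k2, hk2⟩ := pow_unbounded_of_one_lt (C * d.factorial) (one_lt_two (α := ℝ))
  obtain ⟨k3, hk3⟩ := pow_unbounded_of_one_lt ((d : ℝ) * (d - 1).factorial * C)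
    (one_lt_two (α := ℝ))
  -- `R ≤ B ^ e`
  obtain ⟨e, he⟩ : ∃ e, e = (k1 + (d - 1)) * d := ⟨_, rfl⟩
  refine ⟨((1 + (k3 + e * d)) + 3) * d * d + (((k2 + e * d) + 1) + ((k2 + e * d) + 1) * d * d), ?_⟩
  intro T hT q s hs G hG
  obtain ⟨B, hBdef⟩ : ∃ B : ℝ, B = (T : ℝ) * 2 ^ q := ⟨_, rfl⟩
  have hT' : (2 : ℝ) ≤ T := by exact_mod_cast hT
  have h2q : (1 : ℝ) ≤ 2 ^ q := one_le_pow₀ (by norm_num)
  have hB : 2 ≤ B := by rw [hBdef]; nlinarith
  have hTB : (T : ℝ) ≤ B := by rw [hBdef]; nlinarith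
  have hqB : (2 : ℝ) ^ q ≤ B := by rw [hBdef]; nlinarith
  have hB1 : 1 ≤ B := by linarith
  have hB0 : 0 ≤ B := by linarith
  have h2B : ∀ k : ℕ, (2 : ℝ) ^ k ≤ B ^ k := fun k => pow_le_pow_left₀ (by norm_num) hB k
  have hd' : (1 : ℝ) ≤ d := by exact_mod_cast hd
  have hfac : (1 : ℝ) ≤ d.factorial := by exact_mod_cast Nat.succ_le_of_lt (Nat.factorial_pos d)
  have hfac' : (1 : ℝ) ≤ (d - 1).factorial := by
    exact_mod_cast Nat.succ_le_of_lt (Nat.factorial_pos (d - 1))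
  obtain ⟨R, hRdef⟩ : ∃ R : ℝ, R = (8 * d * C * (T : ℝ) ^ (d - 1)) ^ d := ⟨_, rfl⟩
  have hbase1 : 1 ≤ 8 * d * C * (T : ℝ) ^ (d - 1) := by
    have h1 : (1 : ℝ) ≤ (T : ℝ) ^ (d - 1) := one_le_pow₀ (by linarith)
    have h2 : 1 ≤ 8 * (d : ℝ) * C := by nlinarith
    nlinarith
  have hR1 : 1 ≤ R := by rw [hRdef]; exact one_le_pow₀ hbase1
  have hRB : R ≤ B ^ e := by
    rw [hRdef, he, pow_mul]
    refine pow_le_pow_left₀ (by linarith) ?_ d
    rw [pow_add]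
    refine mul_le_mul (hk1.le.trans (h2B k1)) (pow_le_pow_left₀ (by positivity) hTB _)
      (by positivity) (by positivity)
  obtain ⟨Q, hQdef⟩ : ∃ Q : ℝ, Q = C * (d.factorial * R ^ d) := ⟨_, rfl⟩
  have hRd1 : 1 ≤ R ^ d := one_le_pow₀ hR1
  have hQ1 : 1 ≤ Q := by
    rw [hQdef]
    have : 1 ≤ (d.factorial : ℝ) * R ^ d := by nlinarith
    nlinarith
  have hQB : Q ≤ B ^ (k2 + e * d) := by
    rw [hQdef, ← mul_assoc, pow_add, pow_mul]
    exact mul_le_mul (hk2.le.trans (h2B k2)) (pow_le_pow_left₀ (by linarith) hRB d)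
      (by positivity) (by positivity)
  obtain ⟨F, hF⟩ : ∃ F : ℝ, F = (d : ℝ) * (d - 1).factorial * R ^ (d - 1) * C := ⟨_, rfl⟩
  have hFpos : 0 < F := by rw [hF]; positivity
  have hF1 : 1 ≤ F := by
    rw [hF]
    have h1 : 1 ≤ (d : ℝ) * (d - 1).factorial := by nlinarith
    have h2 : 1 ≤ R ^ (d - 1) := one_le_pow₀ hR1
    have h3 : 1 ≤ (d : ℝ) * (d - 1).factorial * R ^ (d - 1) := by nlinarith
    nlinarith
  obtain ⟨ε, hεdef⟩ : ∃ ε : ℝ, ε = (1 / 2) ^ q / F := ⟨_, rfl⟩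
  have hε : 0 < ε := by rw [hεdef]; positivity
  have hεF : R / ε = 2 ^ q * (F * R) := by
    rw [hεdef, one_div, inv_pow]
    field_simp
  obtain ⟨W, hWdef⟩ : ∃ W : ℝ, W = R / ε := ⟨_, rfl⟩
  have hW1 : 1 ≤ W := by
    rw [hWdef, hεF]
    have : 1 ≤ F * R := by nlinarith
    nlinarith
  have hWB : W ≤ B ^ (1 + (k3 + e * d)) := by
    rw [hWdef, hεF, pow_add, pow_one, pow_add, pow_mul]
    refine mul_le_mul hqB ?_ (by positivity) hB0
    have h1 : F * R = ((d : ℝ) * (d - 1).factorial * C) * R ^ d := by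
      rw [hF]
      have : R ^ d = R ^ (d - 1) * R := by
        rw [← pow_succ]
        congr 1
        omega
      rw [this]
      ring
    rw [h1]
    exact mul_le_mul (hk3.le.trans (h2B k3)) (pow_le_pow_left₀ (by linarith) hRB d)
      (by positivity) (by positivity)
  -- the descriptions
  have hex : ∀ Γ : AddSubgroup (Fin d → ℤ), ∃ (v : Fin d → Fin d → ℤ) (q' : ℕ)
      (g : Fin d → Fin d → ℤ), Good T C Γ → Desc R (1 / C) s Γ v q' g ∧ (q' : ℝ) ≤ Q := by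
    intro Γ
    by_cases h : Good T C Γ
    · obtain ⟨v, q', g, h1, h2⟩ := exists_desc hd (by omega) hC h hs
      refine ⟨v, q', g, fun _ => ⟨?_, ?_⟩⟩
      · rw [hRdef]; exact h1
      · rw [hQdef, hRdef]; exact h2
    · exact ⟨0, 0, 0, fun h' => absurd h' h⟩
  choose v q' g hdesc using hex
  refine ⟨fun Γ => (fun i j => ⌊(v Γ i j : ℝ) * (2 : ℝ) ^ (-s j) / ε⌋, q' Γ, g Γ), ?_, ?_⟩
  · have hsub : G.image (fun Γ => ((fun i j => ⌊(v Γ i j : ℝ) * (2 : ℝ) ^ (-s j) / ε⌋,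
        q' Γ, g Γ) : (Fin d → Fin d → ℤ) × ℕ × (Fin d → Fin d → ℤ))) ⊆
        (Fintype.piFinset fun _ : Fin d => Fintype.piFinset fun _ : Fin d =>
          Finset.Icc (-(⌈W⌉₊ : ℤ)) (⌈W⌉₊ : ℤ)) ×ˢ
        (Finset.range (⌊Q⌋₊ + 1) ×ˢ
        (Fintype.piFinset fun _ : Fin d => Fintype.piFinset fun _ : Fin d =>
          Finset.Icc (0 : ℤ) (⌊Q⌋₊ : ℤ))) := by
      intro x hx
      rw [Finset.mem_image] at hx
      obtain ⟨Γ, hΓ, rfl⟩ := hx
      obtain ⟨hD, hq⟩ := hdesc Γ (hG Γ hΓ)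
      have hqQ : q' Γ ≤ ⌊Q⌋₊ := Nat.le_floor hq
      rw [Finset.mem_product, Finset.mem_product]
      refine ⟨?_, ?_, ?_⟩
      · rw [Fintype.mem_piFinset]
        intro i
        rw [Fintype.mem_piFinset]
        intro j
        apply floor_mem
        rw [abs_div, abs_of_pos hε, hWdef]
        refine div_le_div_of_nonneg_right ?_ hε.le
        rw [abs_mul, abs_of_pos (Real.rpow_pos_of_pos (by norm_num) _)]
        have h1 := mul_le_mul_of_nonneg_right (hD.bound i j)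
          (Real.rpow_pos_of_pos (show (0 : ℝ) < 2 by norm_num) (-s j)).le
        rw [mul_assoc R, ← Real.rpow_add (by norm_num), add_neg_cancel, Real.rpow_zero,
          mul_one] at h1
        exact h1
      · rw [Finset.mem_range]
        exact Nat.lt_succ_of_le hqQ
      · rw [Fintype.mem_piFinset]
        intro i
        rw [Fintype.mem_piFinset]
        intro j
        rw [Finset.mem_Icc]
        refine ⟨hD.g_nonneg i j, ?_⟩
        have h1 := hD.g_lt i j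
        have h2 : (q' Γ : ℤ) ≤ (⌊Q⌋₊ : ℤ) := by exact_mod_cast hqQ
        exact (h1.trans_le h2).le
    have hcard := Finset.card_le_card hsub
    rw [Finset.card_product, Finset.card_product, card_box, card_box, Finset.card_range] at hcard
    have e1 : ((⌈W⌉₊ : ℤ) + 1 - -(⌈W⌉₊ : ℤ)).toNat = 2 * ⌈W⌉₊ + 1 := by omega
    have e2 : ((⌊Q⌋₊ : ℤ) + 1 - 0).toNat = ⌊Q⌋₊ + 1 := by omega
    rw [e1, e2] at hcard
    refine (Nat.cast_le.2 hcard).trans ?_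
    rw [← hBdef]
    push_cast
    have hfin := count (B := B) (R := R) (Q := Q) (W := W) (C := C) (F := F) (d := d)
      (a1 := k2 + e * d) (a2 := 1 + (k3 + e * d)) (a3 := 0) (e := e) (N := ⌈W⌉₊) (M := ⌊Q⌋₊)
      hB hR1 hRB hQ1 hQB hW1 hWB (Nat.floor_le (by linarith))
      (Nat.ceil_lt_add_one (by linarith)).le
    push_cast at hfin
    exact hfin
  · intro Γ₁ h₁ Γ₂ h₂ heq
    obtain ⟨hD1, -⟩ := hdesc Γ₁ (hG Γ₁ h₁)
    obtain ⟨hD2, -⟩ := hdesc Γ₂ (hG Γ₂ h₂)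
    simp only [Prod.mk.injEq] at heq
    obtain ⟨e1, e2, e3⟩ := heq
    rw [← e2, ← e3] at hD2
    have hnear := near_of_desc hd hR1 (by positivity : (0 : ℝ) < 1 / C) hε hD1 hD2
      (fun i j => close_of_floor hε (congrFun (congrFun e1 i) j))
    have hκ : (d : ℝ) * (d - 1).factorial * R ^ (d - 1) / (1 / C) * ε = (1 / 2) ^ q := by
      rw [div_div_eq_mul_div, div_one, ← hF, hεdef]
      field_simp
    rw [hκ] at hnear
    exact hnear

end Pool.Agent.Lib.P51n
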