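import Pool.Agent.Lib.P51n.Uniq
import Pool.Agent.Lib.P51n.Cover
import Pool.Agent.Lib.P51n.Net
import Pool.Agent.Lib.P51n.Dc

/-!
# P51n.ARatio  (about 2.5 h)

Counting inequalities for the closeness classes of a family.  Throughout `κ₀ = 2^{-q}`,
`ρ = 1/(2 C T^(d-1))`, `R = (4d/ρ)^d = (8dC T^(d-1))^d`; `Small` says `2^12 d² κ₀ R ≤ 1/(8dC T^(d-1))`,
in particular `2^12 d² κ₀ R ≤ ρ` and `2d · 64κ₀ < 1`.  `sys_good`, `spn_good`: `Sys ρ`, `Spn R` hold for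
all members of the family at all admissible positions.

`near_sup'`: `Near.sup` for `κ ≤ 64κ₀`.

`ratio_net`: `double_count` with `r = True` (`G.filter True = G`) and the map `f` of `exists_net`
(classes are mutually close, so `#class ≤ ncard`).

`ratio_shift`: `double_count` with `r x y = Near κ₁ c x y` and `f` from `exists_round` (for each `y`).

`ratio_sup`: direct.  With `m = c ⊔ c'`:
`∑_x N(κ,c,x) N(κ,c',x)/(N(4κ,m,x) N(8κ,c'',x)) = ∑_x ∑_{y ~ x} ∑_{y' ~ x} 1/(…)`, where `Near κ c x y`,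
`Near κ c' x y'`.  For such `x, y, y'`: `Near (4κ) c'' y y'` (compose the inverse of the first with the
second, `2κ + κ + 2dκ² ≤ 4κ`), and `{y'' : Near (4κ) c'' y y''} ⊆ {y'' : Near (8κ) c'' x y''}`, so
`N(8κ,c'',x) ≥ N(4κ,c'',y)`.  For fixed `(y,y')` the `x`'s concerned are mutually close: `x₁ → y → x₂`
gives `Near (4κ) c x₁ x₂` and `x₁ → y' → x₂` gives `Near (4κ) c' x₁ x₂`, hence `Near (4κ) m x₁ x₂` by
`near_sup'`; so `∑_x 1/N(4κ,m,x) ≤ 1`.  Therefore the sum is at most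
`∑_y ∑_{y' : Near (4κ) c'' y y'} 1/N(4κ,c'',y) = ∑_y 1 = |G|`.
-/

set_option autoImplicit false

noncomputable section

namespace Pool.Agent.Lib.P51n

variable {d : ℕ}

/-- `κ₀ = 2^{-q}` is small enough for all the uniqueness statements. -/
def Small (d T : ℕ) (C : ℝ) (q : ℕ) : Prop :=
  (2 : ℝ) ^ 12 * d ^ 2 * (8 * d * C * (T : ℝ) ^ (d - 1)) ^ (d + 1) ≤ 2 ^ q

private theorem arBase (hd : 1 ≤ d) {T : ℕ} (hT : 1 ≤ T) {C : ℝ} (hC : 1 ≤ C) :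
    8 ≤ 8 * (d : ℝ) * C * (T : ℝ) ^ (d - 1) ∧ 1 ≤ C * (T : ℝ) ^ (d - 1) := by
  have hd1 : (1 : ℝ) ≤ d := by exact_mod_cast hd
  have hT1 : (1 : ℝ) ≤ (T : ℝ) ^ (d - 1) := one_le_pow₀ (by exact_mod_cast hT)
  have hCT : 1 ≤ C * (T : ℝ) ^ (d - 1) := by nlinarith
  refine ⟨?_, hCT⟩
  have h1 : 8 * (d : ℝ) * C * (T : ℝ) ^ (d - 1) = 8 * (d * (C * (T : ℝ) ^ (d - 1))) := by ring
  rw [h1]
  nlinarith

private theorem arRho (hd : 1 ≤ d) {T : ℕ} (hT : 1 ≤ T) {C : ℝ} (hC : 1 ≤ C) :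
    0 < 1 / (2 * C * (T : ℝ) ^ (d - 1)) ∧ 1 / (2 * C * (T : ℝ) ^ (d - 1)) ≤ 1 ∧
    4 * (d : ℝ) / (1 / (2 * C * (T : ℝ) ^ (d - 1))) = 8 * d * C * (T : ℝ) ^ (d - 1) ∧
    1 / (2 * C * (T : ℝ) ^ (d - 1)) = 4 * d / (8 * d * C * (T : ℝ) ^ (d - 1)) := by
  obtain ⟨hB, hCT⟩ := arBase hd hT hC
  have h2 : 2 * C * (T : ℝ) ^ (d - 1) = 2 * (C * (T : ℝ) ^ (d - 1)) := by ring
  have hpos : 0 < 2 * C * (T : ℝ) ^ (d - 1) := by rw [h2]; linarith
  have hd1 : (1 : ℝ) ≤ d := by exact_mod_cast hd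
  refine ⟨by positivity, ?_, ?_, ?_⟩
  · rw [div_le_one hpos, h2]
    linarith
  · rw [div_div_eq_mul_div, div_one]
    ring
  · rw [div_eq_div_iff hpos.ne' (by linarith)]
    ring

/-- the power of two is large -/
private theorem arSmall (hd : 1 ≤ d) {T : ℕ} (hT : 1 ≤ T) {C : ℝ} (hC : 1 ≤ C) {q : ℕ}
    (hq : Small d T C q) {κ : ℝ} (hκ' : κ ≤ 64 * (1 / 2 : ℝ) ^ q) :
    κ * (64 * (d : ℝ) ^ 2 * (8 * d * C * (T : ℝ) ^ (d - 1)) ^ (d + 1)) ≤ 1 := by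
  obtain ⟨hB, hCT⟩ := arBase hd hT hC
  unfold Small at hq
  have hd1 : (1 : ℝ) ≤ d := by exact_mod_cast hd
  have hpos : 0 < 64 * (d : ℝ) ^ 2 * (8 * d * C * (T : ℝ) ^ (d - 1)) ^ (d + 1) := by
    have : 0 < 8 * (d : ℝ) * C * (T : ℝ) ^ (d - 1) := by linarith
    positivity
  have h1 : κ * (64 * (d : ℝ) ^ 2 * (8 * d * C * (T : ℝ) ^ (d - 1)) ^ (d + 1)) ≤
      64 * (1 / 2 : ℝ) ^ q * (64 * (d : ℝ) ^ 2 * (8 * d * C * (T : ℝ) ^ (d - 1)) ^ (d + 1)) :=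
    mul_le_mul_of_nonneg_right hκ' hpos.le
  have h2 : 64 * (1 / 2 : ℝ) ^ q * (64 * (d : ℝ) ^ 2 * (8 * d * C * (T : ℝ) ^ (d - 1)) ^ (d + 1)) =
      (1 / 2 : ℝ) ^ q * ((2 : ℝ) ^ 12 * d ^ 2 * (8 * d * C * (T : ℝ) ^ (d - 1)) ^ (d + 1)) := by
    ring
  have h3 : (1 / 2 : ℝ) ^ q * ((2 : ℝ) ^ 12 * d ^ 2 * (8 * d * C * (T : ℝ) ^ (d - 1)) ^ (d + 1)) ≤
      (1 / 2 : ℝ) ^ q * 2 ^ q := mul_le_mul_of_nonneg_left hq (by positivity)
  have h4 : (1 / 2 : ℝ) ^ q * 2 ^ q = 1 := by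
    rw [← mul_pow]
    norm_num
  linarith

theorem sys_good {T : ℕ} (hT : 1 ≤ T) {C : ℝ} (hC : 1 ≤ C)
    {Γ : AddSubgroup (Fin d → ℤ)} (h : Good T C Γ) {s : Fin d → ℝ} (hs : Pos T s) :
    Sys (1 / (2 * C * (T : ℝ) ^ (d - 1))) s Γ := sys_of_good hT hC h hs

theorem spn_good (hd : 1 ≤ d) {T : ℕ} (hT : 1 ≤ T) {C : ℝ} (hC : 1 ≤ C)
    {Γ : AddSubgroup (Fin d → ℤ)} (h : Good T C Γ) {s : Fin d → ℝ} (hs : Pos T s) :
    Spn ((8 * d * C * (T : ℝ) ^ (d - 1)) ^ d) s Γ := by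
  obtain ⟨h1, h2, h3, -⟩ := arRho hd hT hC
  have h4 := spn_of_sys hd h.index_ne h.index_le h1 h2 hs (sys_good hT hC h hs)
  rwa [h3] at h4

theorem near_sup' (hd : 1 ≤ d) {T : ℕ} (hT : 1 ≤ T) {C : ℝ} (hC : 1 ≤ C) {q : ℕ}
    (hq : Small d T C q) {κ : ℝ} (hκ : 0 ≤ κ) (hκ' : κ ≤ 64 * (1 / 2 : ℝ) ^ q)
    {c c' : Fin d → Fin d → ℝ} {s : Fin d → ℝ} (hs : Pos T s) (hc : ∀ i j, cs s i j ≤ c i j)
    (hc' : ∀ i j, cs s i j ≤ c' i j) {Γ Γ' : AddSubgroup (Fin d → ℤ)} (hΓ : Good T C Γ)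
    (hΓ' : Good T C Γ') (h1 : Near κ c Γ Γ') (h2 : Near κ c' Γ Γ') : Near κ (c ⊔ c') Γ Γ' := by
  obtain ⟨hB, hCT⟩ := arBase hd hT hC
  obtain ⟨hρ0, hρ1, -, hρ2⟩ := arRho hd hT hC
  have hsm := arSmall hd hT hC hq hκ'
  have hd1 : (1 : ℝ) ≤ d := by exact_mod_cast hd
  refine Near.sup (sys_good hT hC hΓ' hs) (spn_good hd hT hC hΓ hs) hκ ?_ ?_ hc hc' h1 h2
  · positivity
  · rw [hρ2]
    obtain ⟨B, hBdef⟩ : ∃ B : ℝ, B = 8 * d * C * (T : ℝ) ^ (d - 1) := ⟨_, rfl⟩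
    rw [← hBdef] at hsm hB ⊢
    have hB0 : 0 < B := by linarith
    rw [lt_div_iff₀ hB0]
    have e1 : 2 * d * κ * B ^ d * B = 2 * d * (κ * B ^ (d + 1)) := by
      rw [pow_succ]
      ring
    rw [e1]
    have hp : 0 ≤ κ * B ^ (d + 1) := by positivity
    have h5 : κ * B ^ (d + 1) ≤ 1 / 64 := by
      have h6 : κ * (64 * (d : ℝ) ^ 2 * B ^ (d + 1)) = 64 * (d : ℝ) ^ 2 * (κ * B ^ (d + 1)) := by
        ring
      rw [h6] at hsm
      have h7 : 64 * (κ * B ^ (d + 1)) ≤ 64 * (d : ℝ) ^ 2 * (κ * B ^ (d + 1)) := by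
        apply mul_le_mul_of_nonneg_right _ hp
        nlinarith
      linarith
    nlinarith

theorem small_mul (hd : 1 ≤ d) {T : ℕ} (hT : 1 ≤ T) {C : ℝ} (hC : 1 ≤ C) {q : ℕ}
    (hq : Small d T C q) {κ : ℝ} (hκ' : κ ≤ 64 * (1 / 2 : ℝ) ^ q) : 2 * d * κ < 1 := by
  obtain ⟨hB, hCT⟩ := arBase hd hT hC
  have hd1 : (1 : ℝ) ≤ d := by exact_mod_cast hd
  have hsm := arSmall hd hT hC hq hκ'
  rcases le_or_gt κ 0 with h0 | h0
  · have : 2 * d * κ ≤ 0 := mul_nonpos_of_nonneg_of_nonpos (by positivity) h0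
    linarith
  · have h1 : (1 : ℝ) ≤ (8 * d * C * (T : ℝ) ^ (d - 1)) ^ (d + 1) := one_le_pow₀ (by linarith)
    have h2 : κ * (64 * d) ≤ κ * (64 * (d : ℝ) ^ 2 * (8 * d * C * (T : ℝ) ^ (d - 1)) ^ (d + 1)) := by
      apply mul_le_mul_of_nonneg_left _ h0.le
      have h3 : 64 * (d : ℝ) ≤ 64 * (d : ℝ) ^ 2 := by nlinarith
      have h4 : 64 * (d : ℝ) ^ 2 * 1 ≤
          64 * (d : ℝ) ^ 2 * (8 * d * C * (T : ℝ) ^ (d - 1)) ^ (d + 1) :=
        mul_le_mul_of_nonneg_left h1 (by positivity)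
      linarith
    have h5 : 0 < κ * d := mul_pos h0 (by linarith)
    nlinarith

theorem ratio_net (d : ℕ) (hd : 1 ≤ d) (C : ℝ) (hC : 1 ≤ C) :
    ∃ A : ℕ, ∀ (T q : ℕ) (G Ω : Finset (AddSubgroup (Fin d → ℤ))), 2 ≤ T → Fam T C G → Ω ⊆ G →
      ∀ s : Fin d → ℝ, Pos T s →
      ∑ x ∈ Ω, (G.card : ℝ) / ncard G ((1 / 2 : ℝ) ^ q) (cs s) x ≤ ((T : ℝ) * 2 ^ q) ^ A * G.card := by
  classical
  obtain ⟨A, hA⟩ := exists_net d hd C hC
  refine ⟨A, fun T q G Ω hT hG hΩ s hs => ?_⟩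
  obtain ⟨f, hf1, hf2⟩ := hA T hT q s hs G hG.good
  have h1 := double_count Ω G (fun _ _ => True)
    (fun x => ncard G ((1 / 2 : ℝ) ^ q) (cs s) x) (((T : ℝ) * 2 ^ q) ^ A)
    (ι := (Fin d → Fin d → ℤ) × ℕ × (Fin d → Fin d → ℤ)) (by
      intro y _
      refine ⟨f, ?_, ?_⟩
      · refine le_trans (Nat.cast_le.2 (Finset.card_le_card ?_)) hf1
        intro z hz
        obtain ⟨x, hx, rfl⟩ := (@Finset.mem_image _ _ (_) _ _ _).1 hz
        exact (@Finset.mem_image _ _ (_) _ _ _).2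
          ⟨x, hΩ ((@Finset.mem_filter _ _ (_) _ _).1 hx).1, rfl⟩
      · intro x hx _
        unfold ncard
        apply Finset.card_le_card
        intro x' hx'
        have hx2 := (@Finset.mem_filter _ _ (_) _ _).1 hx'
        exact (@Finset.mem_filter _ _ (_) _ _).2
          ⟨hΩ hx2.1, hf2 x (hΩ hx) x' (hΩ hx2.1) hx2.2.2.symm⟩)
  simpa only [Finset.filter_true] using h1

theorem ratio_shift (hd : 1 ≤ d) {T : ℕ} (hT : 1 ≤ T) {C : ℝ} (hC : 1 ≤ C) {q : ℕ}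
    (hq : Small d T C q) {G : Finset (AddSubgroup (Fin d → ℤ))} (hG : Fam T C G) {κ₁ κ₂ t : ℝ}
    (h1 : 0 < κ₁) (h1' : κ₁ ≤ 64 * (1 / 2 : ℝ) ^ q) (h2 : 0 < κ₂) (ht : 0 ≤ t)
    {c c' : Fin d → Fin d → ℝ} (hc : Adm T c) (hc' : ∀ i j, c' i j ≤ shiftOff c t i j) :
    ∑ x ∈ G, (ncard G κ₁ c x : ℝ) / ncard G κ₂ c' x ≤
      (4 * κ₁ * (2 : ℝ) ^ t / κ₂ + 3) ^ (d ^ 2) * G.card := by
  classical
  obtain ⟨hTri, s, hs, hcs⟩ := hc
  have hsm := small_mul hd hT hC hq h1'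
  have h3 := double_count G G (fun x y => Near κ₁ c x y) (fun x => ncard G κ₂ c' x)
    ((4 * κ₁ * (2 : ℝ) ^ t / κ₂ + 3) ^ (d ^ 2)) (ι := Fin d → Fin d → ℤ) (by
      intro y _
      obtain ⟨f, hf1, hf2⟩ := exists_round hTri hcs h1 hsm h2 ht y
        (G.filter fun x => Near κ₁ c x y) (fun Γ hΓ => (Finset.mem_filter.1 hΓ).2)
      refine ⟨f, ?_, ?_⟩
      · refine le_trans (Nat.cast_le.2 (Finset.card_le_card ?_)) hf1
        intro z hz
        obtain ⟨x, hx, rfl⟩ := (@Finset.mem_image _ _ (_) _ _ _).1 hz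
        have hx2 := (@Finset.mem_filter _ _ (_) _ _).1 hx
        exact (@Finset.mem_image _ _ (_) _ _ _).2
          ⟨x, Finset.mem_filter.2 ⟨hx2.1, hx2.2⟩, rfl⟩
      · intro x hx hxy
        unfold ncard
        apply Finset.card_le_card
        intro x' hx'
        have hx2 := (@Finset.mem_filter _ _ (_) _ _).1 hx'
        refine (@Finset.mem_filter _ _ (_) _ _).2 ⟨hx2.1, ?_⟩
        exact (hf2 x (Finset.mem_filter.2 ⟨hx, hxy⟩) x' (Finset.mem_filter.2 ⟨hx2.1, hx2.2.1⟩)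
          hx2.2.2.symm).mono le_rfl h2.le hc')
  exact h3

theorem ratio_sup (hd : 1 ≤ d) {T : ℕ} (hT : 1 ≤ T) {C : ℝ} (hC : 1 ≤ C) {q : ℕ}
    (hq : Small d T C q) {G : Finset (AddSubgroup (Fin d → ℤ))} (hG : Fam T C G) {κ : ℝ}
    (hκ : 0 < κ) (hκ' : κ ≤ 8 * (1 / 2 : ℝ) ^ q) {c c' c'' : Fin d → Fin d → ℝ} (hc : Adm T c)
    (hc' : Adm T c') (hc'' : Adm T c'') (h1 : c'' ≤ c) (h2 : c'' ≤ c') :
    ∑ x ∈ G, ((ncard G κ c x : ℝ) * ncard G κ c' x) /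
      ((ncard G (4 * κ) (c ⊔ c') x : ℝ) * ncard G (8 * κ) c'' x) ≤ G.card := by
  classical
  obtain ⟨hT1, -⟩ := hc
  obtain ⟨hT2, -⟩ := hc'
  obtain ⟨hT3, s, hs, hcs⟩ := hc''
  have hq2 : (0 : ℝ) < (1 / 2 : ℝ) ^ q := by positivity
  have hsm : 2 * d * κ < 1 := small_mul hd hT hC hq (by linarith)
  have hcs1 : ∀ i j, cs s i j ≤ c i j := fun i j => (hcs i j).trans (h1 i j)
  have hcs2 : ∀ i j, cs s i j ≤ c' i j := fun i j => (hcs i j).trans (h2 i j)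
  have hdk : (d : ℝ) * κ * κ ≤ 1 / 2 * κ := by
    apply mul_le_mul_of_nonneg_right _ hκ.le
    linarith
  have k4 : κ + 2 * κ + d * (κ * (2 * κ)) ≤ 4 * κ := by nlinarith
  have k4' : 2 * κ + κ + d * (2 * κ * κ) ≤ 4 * κ := by nlinarith
  have k8 : κ + 4 * κ + d * (κ * (4 * κ)) ≤ 8 * κ := by nlinarith
  have h4κ : (0 : ℝ) ≤ 4 * κ := by linarith
  have h8κ : (0 : ℝ) ≤ 8 * κ := by linarith
  -- the number of the `y''` close to `y`
  obtain ⟨P, hP⟩ : ∃ P : AddSubgroup (Fin d → ℤ) → ℕ, P = fun y => ncard G (4 * κ) c'' y := ⟨_, rfl⟩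
  have hP1 : ∀ y ∈ G, 0 < P y := by
    intro y hy
    rw [hP]
    unfold ncard
    exact Finset.card_pos.2 ⟨y, Finset.mem_filter.2 ⟨hy, Near.refl h4κ _ _⟩⟩
  -- rewrite as a triple sum
  have e1 : ∀ x ∈ G, ((ncard G κ c x : ℝ) * ncard G κ c' x) /
      ((ncard G (4 * κ) (c ⊔ c') x : ℝ) * ncard G (8 * κ) c'' x) =
      ∑ y ∈ G, ∑ y' ∈ G, if Near κ c x y ∧ Near κ c' x y' then
        1 / ((ncard G (4 * κ) (c ⊔ c') x : ℝ) * ncard G (8 * κ) c'' x) else 0 := by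
    intro x _
    have a1 : (ncard G κ c x : ℝ) = ∑ y ∈ G, if Near κ c x y then (1 : ℝ) else 0 := by
      unfold ncard
      rw [Finset.sum_boole]
    have a2 : (ncard G κ c' x : ℝ) = ∑ y ∈ G, if Near κ c' x y then (1 : ℝ) else 0 := by
      unfold ncard
      rw [Finset.sum_boole]
    rw [a1, a2, Finset.sum_mul_sum, Finset.sum_div]
    refine Finset.sum_congr rfl fun y _ => ?_
    rw [Finset.sum_div]
    refine Finset.sum_congr rfl fun y' _ => ?_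
    by_cases b1 : Near κ c x y <;> by_cases b2 : Near κ c' x y' <;> simp [b1, b2]
  rw [Finset.sum_congr rfl e1, Finset.sum_comm]
  have key : ∀ y ∈ G, ∀ y' ∈ G, (∑ x ∈ G, if Near κ c x y ∧ Near κ c' x y' then
        1 / ((ncard G (4 * κ) (c ⊔ c') x : ℝ) * ncard G (8 * κ) c'' x) else 0) ≤
      if Near (4 * κ) c'' y y' then 1 / (P y : ℝ) else 0 := by
    intro y hy y' hy'
    rw [← Finset.sum_filter]
    obtain ⟨S, hS⟩ : ∃ S, S = G.filter fun x => Near κ c x y ∧ Near κ c' x y' := ⟨_, rfl⟩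
    rw [← hS]
    have hmS : ∀ x ∈ S, x ∈ G ∧ Near κ c x y ∧ Near κ c' x y' := by
      intro x hx
      rw [hS] at hx
      exact Finset.mem_filter.1 hx
    have hPy : (0 : ℝ) < P y := by exact_mod_cast hP1 y hy
    rcases S.eq_empty_or_nonempty with h0 | ⟨x0, hx0⟩
    · rw [h0, Finset.sum_empty]
      split_ifs
      · positivity
      · exact le_rfl
    · have hyy' : Near (4 * κ) c'' y y' := by
        obtain ⟨-, b1, b2⟩ := hmS x0 hx0
        have b3 : Near κ c'' x0 y := b1.mono le_rfl hκ.le h1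
        have b4 : Near κ c'' x0 y' := b2.mono le_rfl hκ.le h2
        have b5 := (b3.symm hκ.le hsm hT3 hcs).trans (by linarith) hκ.le hT3 b4
        exact b5.mono k4' h4κ fun _ _ => le_rfl
      rw [if_pos hyy']
      have hSpos : (0 : ℝ) < S.card := by exact_mod_cast Finset.card_pos.2 ⟨x0, hx0⟩
      have hterm : ∀ x ∈ S, 1 / ((ncard G (4 * κ) (c ⊔ c') x : ℝ) * ncard G (8 * κ) c'' x) ≤
          1 / ((S.card : ℝ) * P y) := by
        intro x hx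
        obtain ⟨b0, b1, b2⟩ := hmS x hx
        apply one_div_le_one_div_of_le (by positivity)
        apply mul_le_mul _ _ hPy.le (Nat.cast_nonneg _)
        · have : S.card ≤ ncard G (4 * κ) (c ⊔ c') x := by
            unfold ncard
            apply Finset.card_le_card
            intro x' hx'
            obtain ⟨b0', b1', b2'⟩ := hmS x' hx'
            rw [Finset.mem_filter]
            refine ⟨b0', ?_⟩
            have c1 : Near (4 * κ) c x x' :=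
              (b1.trans hκ.le (by linarith) hT1 (b1'.symm hκ.le hsm hT1 hcs1)).mono k4 h4κ
                fun _ _ => le_rfl
            have c2 : Near (4 * κ) c' x x' :=
              (b2.trans hκ.le (by linarith) hT2 (b2'.symm hκ.le hsm hT2 hcs2)).mono k4 h4κ
                fun _ _ => le_rfl
            exact near_sup' hd hT hC hq h4κ (by linarith) hs hcs1 hcs2 (hG.good x b0)
              (hG.good x' b0') c1 c2
          exact_mod_cast this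
        · have : P y ≤ ncard G (8 * κ) c'' x := by
            rw [hP]
            unfold ncard
            apply Finset.card_le_card
            intro z hz
            rw [Finset.mem_filter] at hz ⊢
            refine ⟨hz.1, ?_⟩
            have b3 : Near κ c'' x y := b1.mono le_rfl hκ.le h1
            exact (b3.trans hκ.le h4κ hT3 hz.2).mono k8 h8κ fun _ _ => le_rfl
          exact_mod_cast this
      refine (Finset.sum_le_sum hterm).trans ?_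
      rw [Finset.sum_const, nsmul_eq_mul]
      apply le_of_eq
      field_simp
  have hfin : ∀ y ∈ G, (∑ x ∈ G, ∑ y' ∈ G, if Near κ c x y ∧ Near κ c' x y' then
        1 / ((ncard G (4 * κ) (c ⊔ c') x : ℝ) * ncard G (8 * κ) c'' x) else 0) ≤ 1 := by
    intro y hy
    rw [Finset.sum_comm]
    refine (Finset.sum_le_sum fun y' hy' => key y hy y' hy').trans ?_
    rw [← Finset.sum_filter, Finset.sum_const, nsmul_eq_mul]
    have hPy : (0 : ℝ) < P y := by exact_mod_cast hP1 y hy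
    have e2 : (G.filter fun y' => Near (4 * κ) c'' y y').card = P y := by
      rw [hP]
      unfold ncard
      congr
    rw [e2, mul_one_div, div_self hPy.ne']
  refine (Finset.sum_le_sum hfin).trans ?_
  rw [Finset.sum_const, nsmul_eq_mul, mul_one]

end Pool.Agent.Lib.P51n
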