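import Pool.Agent.Lib.P51n.EFun

/-!
# P51n.BMetric  (about 1.3 h)

The pseudo-metric `dF` on the simplex of positions (`Pos 1 s` is `s ∈ stdSimplex`), and the map
`φ = D / ∑ D`.

`Adm.sup`: the maximum of two matrices with the triangle inequality satisfies it.
`dF_triangle`: `submod` with `c = cs s ⊔ cs s'`, `c' = cs s' ⊔ cs s''`, `c'' = cs s'`
(`F (cs s') = 0`), and `mono`.
`dF_le`: `lip` from `cs s` to `cs s ⊔ cs s'` with `t = 2 ‖s - s'‖`, and `zero`.

`exists_phi` (`d ≥ 2`).  `D_i(s) = inf {dF s s' : Pos 1 s', s'_i = 0}` (the facet is nonempty,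
`dF ≥ 0`).  `|D_i(s) - D_i(s')| ≤ dF s s'`; `D_i = 0` on the facet `s_i = 0`.
`∑ D_i(s) ≥ 1`: for `s^i` in the facets, `c = cs s ⊔ ⨆_i cs s^i` satisfies the hypothesis of `full`
(row `i`: `cs s^i i j = s^i_j`), and by induction with `submod` (`c'' = cs s`)
`1 ≤ F c ≤ ∑_i dF s s^i`.  `φ_i = D_i / ∑ D`: in the simplex, and
`|φ_i(s) - φ_i(s')| ≤ |D_i - D_i'|/S + (D_i'/S')|S' - S|/S ≤ (1 + d) dF s s'`.
-/

set_option autoImplicit false

noncomputable section

namespace Pool.Agent.Lib.P51n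

variable {d : ℕ} {F : (Fin d → Fin d → ℝ) → ℝ}

theorem Tri.sup {c c' : Fin d → Fin d → ℝ} (h : Tri c) (h' : Tri c') : Tri (c ⊔ c') := by
  refine ⟨fun i => ?_, fun i j k => ?_⟩
  · show max (c i i) (c' i i) = 0
    rw [h.1, h'.1, max_self]
  · show max (c i k) (c' i k) ≤ max (c i j) (c' i j) + max (c j k) (c' j k)
    refine max_le ((h.2 i j k).trans ?_) ((h'.2 i j k).trans ?_)
    · exact add_le_add (le_max_left _ _) (le_max_left _ _)
    · exact add_le_add (le_max_right _ _) (le_max_right _ _)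

theorem Tri.add {c c' : Fin d → Fin d → ℝ} (h : Tri c) (h' : Tri c') : Tri (c + c') := by
  refine ⟨fun i => ?_, fun i j k => ?_⟩
  · show c i i + c' i i = 0
    rw [h.1, h'.1, add_zero]
  · show c i k + c' i k ≤ (c i j + c' i j) + (c j k + c' j k)
    have h1 := h.2 i j k
    have h2 := h'.2 i j k
    linarith

theorem Tri.smul {c : Fin d → Fin d → ℝ} (h : Tri c) {t : ℝ} (ht : 0 ≤ t) : Tri (t • c) := by
  refine ⟨fun i => ?_, fun i j k => ?_⟩
  · show t * c i i = 0
    rw [h.1, mul_zero]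
  · show t * c i k ≤ t * c i j + t * c j k
    rw [← mul_add]
    exact mul_le_mul_of_nonneg_left (h.2 i j k) ht

theorem Adm.sup {T : ℝ} {c c' : Fin d → Fin d → ℝ} (h : Adm T c) (h' : Tri c') :
    Adm T (c ⊔ c') := by
  obtain ⟨h1, s, hs, h2⟩ := h
  exact ⟨h1.sup h', s, hs, fun i j => (h2 i j).trans (le_max_left _ _)⟩

lemma tri_cs (s : Fin d → ℝ) : Tri (cs s) := by
  refine ⟨fun i => ?_, fun i j k => ?_⟩
  · unfold cs
    ring
  · unfold cs
    linarith

theorem adm_cs {T : ℝ} {s : Fin d → ℝ} (hs : Pos T s) : Adm T (cs s) :=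
  ⟨tri_cs s, s, hs, fun _ _ => le_rfl⟩

theorem adm_add {T : ℝ} {s : Fin d → ℝ} (hs : Pos T s) {c : Fin d → Fin d → ℝ} (hc : Tri c)
    (h0 : ∀ i j, 0 ≤ c i j) : Adm T (cs s + c) :=
  ⟨(tri_cs s).add hc, s, hs, fun i j => by
    show cs s i j ≤ cs s i j + c i j
    linarith [h0 i j]⟩

theorem dF_nonneg (hF : EFun d F) {s s' : Fin d → ℝ} (hs : Pos 1 s) (hs' : Pos 1 s') :
    0 ≤ dF F s s' :=
  hF.nonneg _ ((adm_cs hs).sup (tri_cs s'))

theorem dF_self (hF : EFun d F) {s : Fin d → ℝ} (hs : Pos 1 s) : dF F s s = 0 := by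
  unfold dF
  rw [sup_idem]
  exact hF.zero s hs

theorem dF_comm (s s' : Fin d → ℝ) : dF F s s' = dF F s' s := by
  unfold dF
  rw [sup_comm]

theorem dF_triangle (hF : EFun d F) {s s' s'' : Fin d → ℝ} (hs : Pos 1 s) (hs' : Pos 1 s')
    (hs'' : Pos 1 s'') : dF F s s'' ≤ dF F s s' + dF F s' s'' := by
  have h1 := hF.submod (cs s ⊔ cs s') (cs s' ⊔ cs s'') (cs s') ((adm_cs hs).sup (tri_cs s'))
    ((adm_cs hs').sup (tri_cs s'')) (adm_cs hs') le_sup_right le_sup_left
  have h2 := hF.mono (cs s ⊔ cs s'') (cs s ⊔ cs s' ⊔ (cs s' ⊔ cs s''))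
    ((adm_cs hs).sup (tri_cs s''))
    (((adm_cs hs).sup (tri_cs s')).sup ((tri_cs s').sup (tri_cs s'')))
    (sup_le (le_sup_of_le_left le_sup_left) (le_sup_of_le_right le_sup_right))
  have h3 := hF.zero s' hs'
  unfold dF
  linarith

theorem dF_le (hF : EFun d F) {s s' : Fin d → ℝ} (hs : Pos 1 s) (hs' : Pos 1 s') :
    dF F s s' ≤ 2 * d ^ 2 * ‖s - s'‖ := by
  have hb : ∀ i, |s i - s' i| ≤ ‖s - s'‖ := fun i => norm_le_pi_norm (s - s') i
  have h := hF.lip (cs s) (cs s ⊔ cs s') (2 * ‖s - s'‖) (adm_cs hs)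
    ((adm_cs hs).sup (tri_cs s')) (by positivity) (fun i j => by
      refine max_le ?_ ?_
      · have := norm_nonneg (s - s')
        linarith
      · unfold cs
        have h1 := (abs_le.1 (hb i)).2
        have h2 := (abs_le.1 (hb j)).1
        linarith)
  rw [hF.zero s hs, zero_add] at h
  unfold dF
  linarith

theorem exists_phi (hd : 2 ≤ d) (hF : EFun d F) : ∃ φ : (Fin d → ℝ) → (Fin d → ℝ),
    (∀ s, Pos 1 s → Pos 1 (φ s)) ∧ (∀ s, Pos 1 s → ∀ i, s i = 0 → φ s i = 0) ∧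
    ∀ s s', Pos 1 s → Pos 1 s' → ∀ i, |φ s i - φ s' i| ≤ (d + 1) * dF F s s' := by
  classical
  obtain ⟨D, hD⟩ : ∃ D : Fin d → (Fin d → ℝ) → ℝ, D = fun i s =>
    ⨅ a : {a : Fin d → ℝ // Pos 1 a ∧ a i = 0}, dF F s a.1 := ⟨_, rfl⟩
  have hne : ∀ i : Fin d, Nonempty {a : Fin d → ℝ // Pos 1 a ∧ a i = 0} := by
    intro i
    obtain ⟨j, hj⟩ : ∃ j : Fin d, j ≠ i := by
      haveI : Nontrivial (Fin d) := Fin.nontrivial_iff_two_le.2 hd
      exact exists_ne i
    refine ⟨⟨Pi.single j 1, ⟨fun k => ?_, by simp⟩, by simp [hj.symm]⟩⟩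
    by_cases hk : k = j
    · subst hk; simp
    · simp [hk]
  have hbdd : ∀ i s, Pos 1 s →
      BddBelow (Set.range fun a : {a : Fin d → ℝ // Pos 1 a ∧ a i = 0} => dF F s a.1) := by
    intro i s hs
    refine ⟨0, ?_⟩
    rintro _ ⟨a, rfl⟩
    exact dF_nonneg hF hs a.2.1
  have hD0 : ∀ i s, Pos 1 s → 0 ≤ D i s := by
    intro i s hs
    haveI := hne i
    rw [hD]
    exact le_ciInf fun a => dF_nonneg hF hs a.2.1
  have hDle : ∀ i s (a : Fin d → ℝ), Pos 1 s → Pos 1 a → a i = 0 → D i s ≤ dF F s a := by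
    intro i s a hs ha hai
    rw [hD]
    exact ciInf_le (hbdd i s hs) ⟨a, ha, hai⟩
  have hDl : ∀ i s s', Pos 1 s → Pos 1 s' → D i s ≤ dF F s s' + D i s' := by
    intro i s s' hs hs'
    haveI := hne i
    have h : D i s - dF F s s' ≤ D i s' := by
      rw [hD]
      refine le_ciInf fun a => ?_
      have h1 := hDle i s a.1 hs a.2.1 a.2.2
      have h2 := dF_triangle hF hs hs' a.2.1
      rw [hD] at h1
      linarith
    linarith
  have hDabs : ∀ i s s', Pos 1 s → Pos 1 s' → |D i s - D i s'| ≤ dF F s s' := by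
    intro i s s' hs hs'
    rw [abs_le]
    have h1 := hDl i s s' hs hs'
    have h2 := hDl i s' s hs' hs
    rw [dF_comm (F := F) s' s] at h2
    constructor <;> linarith
  have hDz : ∀ i s, Pos 1 s → s i = 0 → D i s = 0 := by
    intro i s hs hi
    refine le_antisymm ?_ (hD0 i s hs)
    have := hDle i s s hs hs hi
    rwa [dF_self hF hs] at this
  have hch : ∀ s, Pos 1 s → ∀ a : Fin d → (Fin d → ℝ), (∀ i, Pos 1 (a i) ∧ a i i = 0) →
      1 ≤ ∑ i, dF F s (a i) := by
    intro s hs a ha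
    have hind : ∀ t : Finset (Fin d), ∃ c : Fin d → Fin d → ℝ, Adm 1 c ∧ cs s ≤ c ∧
        (∀ i ∈ t, cs (a i) ≤ c) ∧ F c ≤ ∑ i ∈ t, dF F s (a i) := by
      intro t
      induction t using Finset.induction_on with
      | empty =>
        refine ⟨cs s, adm_cs hs, le_rfl, by simp, ?_⟩
        rw [Finset.sum_empty, hF.zero s hs]
      | insert i t hi ih =>
        obtain ⟨c, hc1, hc2, hc3, hc4⟩ := ih
        refine ⟨c ⊔ (cs s ⊔ cs (a i)), hc1.sup ((tri_cs s).sup (tri_cs (a i))),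
          hc2.trans le_sup_left, ?_, ?_⟩
        · intro j hj
          rcases Finset.mem_insert.1 hj with rfl | hj
          · exact le_sup_of_le_right le_sup_right
          · exact (hc3 j hj).trans le_sup_left
        · rw [Finset.sum_insert hi]
          have h := hF.submod c (cs s ⊔ cs (a i)) (cs s) hc1 ((adm_cs hs).sup (tri_cs (a i)))
            (adm_cs hs) hc2 le_sup_left
          rw [hF.zero s hs] at h
          have e : dF F s (a i) = F (cs s ⊔ cs (a i)) := rfl
          linarith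
    obtain ⟨c, hc1, _, hc3, hc4⟩ := hind Finset.univ
    refine (hF.full c hc1 fun i => ⟨a i, (ha i).1, fun j => ?_⟩).trans hc4
    have := hc3 i (Finset.mem_univ _) i j
    unfold cs at this
    rwa [(ha i).2, sub_zero] at this
  have hS : ∀ s, Pos 1 s → 1 ≤ ∑ i, D i s := by
    intro s hs
    by_contra hlt
    push Not at hlt
    obtain ⟨ε, hε⟩ : ∃ ε : ℝ, ε = (1 - ∑ i, D i s) / d := ⟨_, rfl⟩
    have hdpos : (0 : ℝ) < d := by
      have : 0 < d := by omega
      exact_mod_cast this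
    have hε0 : 0 < ε := by
      rw [hε]
      exact div_pos (by linarith) hdpos
    have hex : ∀ i, ∃ a : {a : Fin d → ℝ // Pos 1 a ∧ a i = 0}, dF F s a.1 < D i s + ε := by
      intro i
      haveI := hne i
      refine exists_lt_of_ciInf_lt ?_
      have : (⨅ a : {a : Fin d → ℝ // Pos 1 a ∧ a i = 0}, dF F s a.1) = D i s := by rw [hD]
      rw [this]
      linarith
    choose a ha using hex
    have h1 := hch s hs (fun i => (a i).1) (fun i => (a i).2)
    haveI : Nonempty (Fin d) := ⟨⟨0, by omega⟩⟩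
    have h2 : ∑ i, dF F s (a i).1 < ∑ i, (D i s + ε) :=
      Finset.sum_lt_sum_of_nonempty Finset.univ_nonempty fun i _ => ha i
    rw [Finset.sum_add_distrib, Finset.sum_const, Finset.card_univ, Fintype.card_fin,
      nsmul_eq_mul, hε, mul_div_cancel₀ _ hdpos.ne'] at h2
    linarith
  refine ⟨fun s i => D i s / ∑ j, D j s, fun s hs => ⟨fun i => ?_, ?_⟩, fun s hs i hi => ?_,
    fun s s' hs hs' i => ?_⟩
  · exact div_nonneg (hD0 i s hs) (by linarith [hS s hs])
  · rw [← Finset.sum_div]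
    exact div_self (by linarith [hS s hs])
  · show D i s / ∑ j, D j s = 0
    rw [hDz i s hs hi, zero_div]
  · show |D i s / ∑ j, D j s - D i s' / ∑ j, D j s'| ≤ _
    obtain ⟨S, hSe⟩ : ∃ S, S = ∑ j, D j s := ⟨_, rfl⟩
    obtain ⟨S', hSe'⟩ : ∃ S', S' = ∑ j, D j s' := ⟨_, rfl⟩
    have h1 : 1 ≤ S := by rw [hSe]; exact hS s hs
    have h1' : 1 ≤ S' := by rw [hSe']; exact hS s' hs'
    have hle : D i s' ≤ S' := by
      rw [hSe']
      exact Finset.single_le_sum (f := fun j => D j s') (fun j _ => hD0 j s' hs')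
        (Finset.mem_univ i)
    have hSS : |S' - S| ≤ d * dF F s s' := by
      rw [hSe, hSe', ← Finset.sum_sub_distrib]
      refine (Finset.abs_sum_le_sum_abs _ _).trans ?_
      calc ∑ j, |D j s' - D j s| ≤ ∑ _j : Fin d, dF F s s' := by
            refine Finset.sum_le_sum fun j _ => ?_
            rw [abs_sub_comm]
            exact hDabs j s s' hs hs'
        _ = d * dF F s s' := by simp
    have hDi := hDabs i s s' hs hs'
    have hdF := dF_nonneg hF hs hs'
    rw [← hSe, ← hSe']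
    have e : D i s / S - D i s' / S' = (D i s - D i s') / S + (D i s' / S') * ((S' - S) / S) := by
      have : S ≠ 0 := by linarith
      have : S' ≠ 0 := by linarith
      field_simp
      ring
    rw [e]
    have a1 : |(D i s - D i s') / S| ≤ dF F s s' := by
      rw [abs_div, abs_of_pos (by linarith : (0 : ℝ) < S)]
      exact (div_le_self (abs_nonneg _) h1).trans hDi
    have a2 : |(D i s' / S') * ((S' - S) / S)| ≤ d * dF F s s' := by
      rw [abs_mul]
      have b1 : |D i s' / S'| ≤ 1 := by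
        rw [abs_of_nonneg (div_nonneg (hD0 i s' hs') (by linarith)), div_le_one (by linarith)]
        exact hle
      have b2 : |(S' - S) / S| ≤ d * dF F s s' := by
        rw [abs_div, abs_of_pos (by linarith : (0 : ℝ) < S)]
        exact (div_le_self (abs_nonneg _) h1).trans hSS
      calc |D i s' / S'| * |(S' - S) / S| ≤ 1 * (d * dF F s s') :=
            mul_le_mul b1 b2 (abs_nonneg _) zero_le_one
        _ = _ := one_mul _
    refine (abs_add_le _ _).trans ?_
    linarith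

end Pool.Agent.Lib.P51n
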