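import Pool.Agent.Lib.P51n.ALimit
import Pool.Agent.Lib.P51n.BMetric

/-!
# P51n.ATransfer  (about 1.5 h)

Transfer to all positions simultaneously.

Given the finite set `𝒮` of nonnegative shapes with the triangle inequality and `ε`, let
`t = ε/(16 d²)` and let `N` be a finite `t/2`-net of the simplex (`isCompact_stdSimplex`, total
boundedness; points of the net in the simplex), `𝒞 = {cs ŝ + c̃ + shiftOff 0 t : ŝ ∈ N, c̃ ∈ 𝒮}`
(`Tri`: `shiftOff 0 t` is `t` off the diagonal).  Apply the last property of `exists_EFun` with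
`ε/4`, and `T₁` large.  For `s` with `Pos 1 s` choose `ŝ ∈ N` with `|s_j - ŝ_j| ≤ t/2`, then
`c := cs s + c̃ ≤ c₊ := cs ŝ + c̃ + shiftOff 0 t ≤ c + 2t` (off the diagonal).  For `x ∈ Ω`:
`info(T c) ≤ info(T c₊) ≤ T F(c₊) + εT/4 ≤ T F(c) + 2 d² t T + εT/4 ≤ T F(c) + εT`.
Conversely `info(T c₊) ≥ T F(c₊) - εT/4 ≥ T F(c) - εT/4`, and for all `x ∈ G` but at most
`2^{-y} |G|`, `y = 2 log₂ T`, `info(T c) ≥ info(T c₊) - d²(2tT + 3) - y ≥ T F(c) - εT` for `T` large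
(`shift_typical`, with `Tc₊ ≤ shiftOff (Tc) (2tT)`).  `2^{-y}|G| = |G|/T² ≤ |Ω|/T`.
-/

set_option autoImplicit false

noncomputable section

namespace Pool.Agent.Lib.P51n

theorem ATransfer_net (d : ℕ) {t : ℝ} (ht : 0 < t) : ∃ N : Finset (Fin d → ℝ),
    (∀ s ∈ N, Pos 1 s) ∧ ∀ s : Fin d → ℝ, Pos 1 s → ∃ s' ∈ N, ∀ j, |s j - s' j| ≤ t := by
  have hc : IsCompact (stdSimplex ℝ (Fin d)) := isCompact_stdSimplex ℝ (Fin d)
  obtain ⟨N, hN, hfin, hcov⟩ := hc.finite_cover_balls ht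
  refine ⟨hfin.toFinset, fun s hs => hN (hfin.mem_toFinset.1 hs), fun s hs => ?_⟩
  have h := hcov (show s ∈ stdSimplex ℝ (Fin d) from hs)
  simp only [Set.mem_iUnion] at h
  obtain ⟨s', hs', hb⟩ := h
  refine ⟨s', hfin.mem_toFinset.2 hs', fun j => ?_⟩
  rw [Metric.mem_ball, dist_eq_norm] at hb
  have h1 := norm_le_pi_norm (s - s') j
  rw [Real.norm_eq_abs, Pi.sub_apply] at h1
  linarith

theorem ATransfer_tri (d : ℕ) {t : ℝ} (ht : 0 ≤ t) :
    Tri (shiftOff (0 : Fin d → Fin d → ℝ) t) := by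
  refine ⟨fun i => ?_, fun i j k => ?_⟩
  · simp [shiftOff]
  · unfold shiftOff
    simp only [Pi.zero_apply, zero_add]
    have hn : ∀ a b : Fin d, (0 : ℝ) ≤ if a = b then 0 else t := by
      intro a b
      split_ifs
      · exact le_rfl
      · exact ht
    by_cases h1 : i = k
    · rw [if_pos h1]
      exact add_nonneg (hn i j) (hn j k)
    · rw [if_neg h1]
      by_cases h2 : i = j
      · have h3 : j ≠ k := fun h => h1 (h2.trans h)
        rw [if_pos h2, if_neg h3, zero_add]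
      · rw [if_neg h2]
        have := hn j k
        linarith

theorem ATransfer_large (d : ℕ) {ε : ℝ} (hε : 0 < ε) : ∃ T₂ : ℕ, ∀ T : ℕ, T₂ ≤ T →
    3 * (d : ℝ) ^ 2 + 2 * Real.logb 2 T ≤ ε / 2 * T := by
  have hl2 : 0 < Real.log 2 := Real.log_pos one_lt_two
  have h1 := (Real.isLittleO_log_id_atTop.def (c := ε / 8 * Real.log 2) (by positivity))
  have h2 := (tendsto_natCast_atTop_atTop (R := ℝ)).eventually h1
  have h3 : ∀ᶠ T : ℕ in Filter.atTop, 3 * (d : ℝ) ^ 2 / (ε / 4) ≤ T :=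
    (tendsto_natCast_atTop_atTop (R := ℝ)).eventually_ge_atTop _
  obtain ⟨T₂, hT₂⟩ := Filter.eventually_atTop.1 (h2.and h3)
  refine ⟨T₂, fun T hT => ?_⟩
  obtain ⟨h4, h5⟩ := hT₂ T hT
  have hT0 : (0 : ℝ) ≤ T := Nat.cast_nonneg T
  rw [Real.norm_eq_abs, Real.norm_eq_abs, id, abs_of_nonneg hT0] at h4
  have h6 : Real.log T ≤ ε / 8 * Real.log 2 * T := (le_abs_self _).trans h4
  have h7 : Real.logb 2 T ≤ ε / 8 * T := by
    unfold Real.logb
    rw [div_le_iff₀ hl2]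
    linarith
  rw [div_le_iff₀ (by positivity)] at h5
  linarith

open Classical in
theorem transfer (d : ℕ) (hd : 1 ≤ d) (C : ℝ) (hC : 1 ≤ C) (T₀ : ℕ)
    (G : ℕ → Finset (AddSubgroup (Fin d → ℤ))) (hG : ∀ T, T₀ ≤ T → Fam T C (G T)) :
    ∃ (A : ℕ) (F : (Fin d → Fin d → ℝ) → ℝ), EFun d F ∧
      ∀ 𝒮 : Finset (Fin d → Fin d → ℝ), (∀ c ∈ 𝒮, Tri c ∧ ∀ i j, 0 ≤ c i j) →
      ∀ ε : ℝ, 0 < ε → ∀ T₁ q₀ : ℕ, 1 ≤ q₀ → ∃ T : ℕ, T₀ ≤ T ∧ T₁ ≤ T ∧ q₀ ∣ T ∧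
        ∃ q : ℕ, Small d T C q ∧ (2 : ℝ) ^ q ≤ (T : ℝ) ^ A ∧ ∃ Ω ⊆ G T, Ω.Nonempty ∧
        ((G T).card : ℝ) ≤ T * Ω.card ∧ ∀ s : Fin d → ℝ, Pos 1 s → ∀ c ∈ 𝒮,
        ((Ω.filter fun x => ε * T < |info (G T) ((1 / 2 : ℝ) ^ q) ((T : ℝ) • (cs s + c)) x -
          T * F (cs s + c)|).card : ℝ) * T ≤ Ω.card := by
  obtain ⟨A, F, hF, key⟩ := exists_EFun d hd C hC T₀ G hG
  refine ⟨A, F, hF, ?_⟩
  intro 𝒮 h𝒮 ε hε T₁ q₀ hq₀
  have hd' : (1 : ℝ) ≤ d := by exact_mod_cast hd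
  set t : ℝ := ε / (16 * d ^ 2) with ht
  have ht0 : 0 < t := by rw [ht]; positivity
  have htd : (d : ℝ) ^ 2 * (2 * t) = ε / 8 := by
    rw [ht]
    field_simp
    norm_num
  obtain ⟨N, hN, hnet⟩ := ATransfer_net d (half_pos ht0)
  obtain ⟨T₂, hT₂⟩ := ATransfer_large d hε
  set 𝒞 : Finset (Fin d → Fin d → ℝ) :=
    (N ×ˢ 𝒮).image fun p => cs p.1 + p.2 + shiftOff 0 t with h𝒞
  have hS0 := ATransfer_tri d ht0.le
  have hSn : ∀ i j, 0 ≤ shiftOff (0 : Fin d → Fin d → ℝ) t i j := by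
    intro i j
    unfold shiftOff
    split_ifs
    · exact le_rfl
    · simp only [Pi.zero_apply, zero_add]
      exact ht0.le
  have hadm : ∀ s' : Fin d → ℝ, Pos 1 s' → ∀ c ∈ 𝒮, Adm 1 (cs s' + c + shiftOff 0 t) := by
    intro s' hs' c hc
    rw [add_assoc]
    refine adm_add hs' ((h𝒮 c hc).1.add hS0) fun i j => ?_
    have h1 := (h𝒮 c hc).2 i j
    have h2 := hSn i j
    show 0 ≤ c i j + shiftOff 0 t i j
    linarith
  have h𝒞a : ∀ c ∈ 𝒞, Adm 1 c := by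
    intro c hc
    rw [h𝒞, Finset.mem_image] at hc
    obtain ⟨⟨s', c'⟩, hp, rfl⟩ := hc
    rw [Finset.mem_product] at hp
    exact hadm s' (hN s' hp.1) c' hp.2
  obtain ⟨T, hT0, hT1, hqT, q, hq, hqA, Ω, hΩ, hne, hcard, hinfo⟩ :=
    key 𝒞 h𝒞a (ε / 4) (by positivity) (max T₁ (max T₂ 1)) q₀ hq₀
  have hT1' : T₁ ≤ T := (le_max_left _ _).trans hT1
  have hT2' : T₂ ≤ T := ((le_max_left _ _).trans (le_max_right _ _)).trans hT1
  have hT3 : 1 ≤ T := ((le_max_right _ _).trans (le_max_right _ _)).trans hT1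
  refine ⟨T, hT0, hT1', hqT, q, hq, hqA, Ω, hΩ, hne, hcard, ?_⟩
  intro s hs c hc
  have hTr : (1 : ℝ) ≤ T := by exact_mod_cast hT3
  have hTp : (0 : ℝ) < T := by linarith
  have hκ := AAv_half_pos q
  obtain ⟨s', hs', hss⟩ := hnet s hs
  set cp : Fin d → Fin d → ℝ := cs s' + c + shiftOff 0 t with hcp
  have hcp𝒞 : cp ∈ 𝒞 := Finset.mem_image.2 ⟨(s', c), Finset.mem_product.2 ⟨hs', hc⟩, rfl⟩
  have hcpA : Adm 1 cp := h𝒞a cp hcp𝒞
  have hcA : Adm 1 (cs s + c) := adm_add hs (h𝒮 c hc).1 (h𝒮 c hc).2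
  have hval : ∀ i j, i ≠ j → cp i j = s' j - s' i + c i j + t := by
    intro i j hij
    show s' j - s' i + c i j + shiftOff 0 t i j = _
    unfold shiftOff
    rw [if_neg hij]
    simp
  have hvald : ∀ i, cp i i = 0 := fun i => hcpA.1.1 i
  have hcd : ∀ i, (cs s + c) i i = 0 := fun i => hcA.1.1 i
  have hcv : ∀ i j, (cs s + c) i j = s j - s i + c i j := fun i j => rfl
  have hle : cs s + c ≤ cp := by
    intro i j
    by_cases hij : i = j
    · rw [hij, hvald, hcd]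
    · rw [hval i j hij, hcv]
      have h1 := abs_le.1 (hss i)
      have h2 := abs_le.1 (hss j)
      linarith [h1.1, h1.2, h2.1, h2.2]
  have hle2 : ∀ i j, i ≠ j → cp i j ≤ (cs s + c) i j + 2 * t := by
    intro i j hij
    rw [hval i j hij, hcv]
    have h1 := abs_le.1 (hss i)
    have h2 := abs_le.1 (hss j)
    linarith [h1.1, h1.2, h2.1, h2.2]
  have hle3 : ∀ i j, cp i j ≤ (cs s + c) i j + 2 * t := by
    intro i j
    by_cases hij : i = j
    · rw [hij, hvald, hcd]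
      linarith
    · exact hle2 i j hij
  have hFle : F cp ≤ F (cs s + c) + ε / 8 := by
    have := hF.lip (cs s + c) cp (2 * t) hcA hcpA (by linarith) hle3
    rwa [htd] at this
  have hFge : F (cs s + c) ≤ F cp := hF.mono _ _ hcA hcpA hle
  have hTA : Adm (T : ℝ) ((T : ℝ) • (cs s + c)) := by
    refine ⟨hcA.1.smul hTp.le, fun j => T * s j, ⟨fun j => ?_, ?_⟩, fun i j => ?_⟩
    · exact mul_nonneg hTp.le (hs.1 j)
    · rw [← Finset.mul_sum, hs.2, mul_one]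
    · show T * s j - T * s i ≤ T * ((s j - s i) + c i j)
      have h1 := (h𝒮 c hc).2 i j
      nlinarith
  have hsh : ∀ i j, ((T : ℝ) • cp) i j ≤ shiftOff ((T : ℝ) • (cs s + c)) (2 * t * T) i j := by
    intro i j
    show T * cp i j ≤ _
    unfold shiftOff
    by_cases hij : i = j
    · rw [if_pos hij, hij, hvald, mul_zero]
    · rw [if_neg hij]
      show T * cp i j ≤ T * (cs s + c) i j + 2 * t * T
      have := hle2 i j hij
      nlinarith
  have hy : 0 ≤ 2 * Real.logb 2 (T : ℝ) :=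
    mul_nonneg two_pos.le (Real.logb_nonneg one_lt_two hTr)
  have htyp := shift_typical hd hT3 hC hq (hG T hT0) (t := 2 * t * T) (by positivity) hTA hsh hy
  have hpow : (2 : ℝ) ^ (-(2 * Real.logb 2 (T : ℝ))) = ((T : ℝ) ^ 2)⁻¹ := by
    rw [Real.rpow_neg two_pos.le, mul_comm, Real.rpow_mul two_pos.le,
      Real.rpow_logb two_pos (by norm_num) hTp]
    norm_num
  rw [hpow] at htyp
  have hsub : (Ω.filter fun x => ε * T < |info (G T) ((1 / 2 : ℝ) ^ q) ((T : ℝ) • (cs s + c)) x -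
      T * F (cs s + c)|) ⊆ (G T).filter fun x =>
      info (G T) ((1 / 2 : ℝ) ^ q) ((T : ℝ) • (cs s + c)) x + d ^ 2 * (2 * t * T + 3) +
        2 * Real.logb 2 (T : ℝ) < info (G T) ((1 / 2 : ℝ) ^ q) ((T : ℝ) • cp) x := by
    intro x hx
    rw [Finset.mem_filter] at hx ⊢
    obtain ⟨hxΩ, hx2⟩ := hx
    have hxG := hΩ hxΩ
    refine ⟨hxG, ?_⟩
    have h1 := abs_le.1 (hinfo x hxΩ cp hcp𝒞)
    have h2 : info (G T) ((1 / 2 : ℝ) ^ q) ((T : ℝ) • (cs s + c)) x ≤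
        info (G T) ((1 / 2 : ℝ) ^ q) ((T : ℝ) • cp) x := by
      refine info_mono hκ.le ?_ hxG
      intro i j
      exact mul_le_mul_of_nonneg_left (hle i j) hTp.le
    have h3 : T * F cp ≤ T * F (cs s + c) + ε / 8 * T := by nlinarith
    have h4 : T * F (cs s + c) ≤ T * F cp := mul_le_mul_of_nonneg_left hFge hTp.le
    have hεT : 0 < ε * T := by positivity
    have hup : info (G T) ((1 / 2 : ℝ) ^ q) ((T : ℝ) • (cs s + c)) x - T * F (cs s + c) ≤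
        ε * T := by linarith [h1.2]
    have hlow : info (G T) ((1 / 2 : ℝ) ^ q) ((T : ℝ) • (cs s + c)) x - T * F (cs s + c) <
        -(ε * T) := by
      rcases lt_abs.1 hx2 with h | h
      · linarith
      · linarith
    have h5 := hT₂ T hT2'
    have h6 : (d : ℝ) ^ 2 * (2 * t * T + 3) = ε / 8 * T + 3 * (d : ℝ) ^ 2 := by
      rw [← htd]
      ring
    rw [h6]
    linarith [h1.1]
  have hcle : ((Ω.filter fun x => ε * T < |info (G T) ((1 / 2 : ℝ) ^ q)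
      ((T : ℝ) • (cs s + c)) x - T * F (cs s + c)|).card : ℝ) ≤ ((T : ℝ) ^ 2)⁻¹ * (G T).card := by
    refine le_trans ?_ htyp
    exact_mod_cast Finset.card_le_card hsub
  calc _ ≤ ((T : ℝ) ^ 2)⁻¹ * (G T).card * T := mul_le_mul_of_nonneg_right hcle hTp.le
    _ ≤ ((T : ℝ) ^ 2)⁻¹ * (T * Ω.card) * T := by gcongr
    _ = Ω.card := by field_simp

end Pool.Agent.Lib.P51n
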