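import Mathlib

/-!
# P51n.BGraph  (about 0.4 h)

If a digraph on at least three vertices has an edge from `I^c` to `I` for every proper nonempty `I`,
it contains a path `i₁ → i₂ → i₃` with `i₁ ≠ i₃`.

Taking `I = {j}` and `I = {j}^c`, every vertex has an incoming and an outgoing edge (from / to a
different vertex).  If there is no such path, every in-neighbour of `j` equals every out-neighbour of
`j`: `τ(j)` is the only in-neighbour and the only out-neighbour of `j`.  For `I = {j, τ(j)}`
(proper because `d ≥ 3`) there is an edge `(i, j')`, `i ∉ I`, `j' ∈ I`; but the only in-neighbour of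
`j` is `τ(j) ∈ I`, and the only in-neighbour of `τ(j)` is `j` (as `j → τ(j)`).
-/

set_option autoImplicit false

namespace Pool.Agent.Lib.P51n

theorem exists_path {d : ℕ} (hd : 3 ≤ d) (E : Fin d → Fin d → Prop)
    (hE : ∀ I : Finset (Fin d), I.Nonempty → I ≠ Finset.univ → ∃ i ∉ I, ∃ j ∈ I, E i j) :
    ∃ i₁ i₂ i₃ : Fin d, i₁ ≠ i₂ ∧ i₂ ≠ i₃ ∧ i₁ ≠ i₃ ∧ E i₁ i₂ ∧ E i₂ i₃ := by
  classical
  obtain ⟨j₀⟩ : Nonempty (Fin d) := ⟨⟨0, by omega⟩⟩
  have hcard : ∀ I : Finset (Fin d), I.card < d → I ≠ Finset.univ := by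
    intro I hI h
    rw [h, Finset.card_univ, Fintype.card_fin] at hI
    exact lt_irrefl _ hI
  obtain ⟨t, ht, j, hj, hE1⟩ := hE {j₀} (Finset.singleton_nonempty _)
    (hcard _ (by rw [Finset.card_singleton]; omega))
  rw [Finset.mem_singleton] at ht hj
  subst hj
  obtain ⟨i, hi, j', hj', hE2⟩ := hE {j, t} ⟨j, by simp⟩
    (hcard _ (lt_of_le_of_lt (Finset.card_le_two) (by omega)))
  simp only [Finset.mem_insert, Finset.mem_singleton, not_or] at hi hj'
  rcases hj' with rfl | rfl
  · obtain ⟨a, ha, o, ho, hE3⟩ := hE (Finset.univ.erase j')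
      ⟨t, by simp [ht]⟩ (fun h => by
        have := Finset.mem_univ j'
        rw [← h] at this
        exact Finset.notMem_erase _ _ this)
    have ha' : a = j' := by
      by_contra hne
      exact ha (Finset.mem_erase.2 ⟨hne, Finset.mem_univ _⟩)
    subst ha'
    have ho' : o ≠ a := (Finset.mem_erase.1 ho).1
    by_cases hot : o = t
    · subst hot
      exact ⟨i, a, o, hi.1, ho'.symm, hi.2, hE2, hE3⟩
    · exact ⟨t, a, o, ht, ho'.symm, fun h => hot h.symm, hE1, hE3⟩
  · exact ⟨i, j', j, hi.2, ht, hi.1, hE2, hE1⟩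

end Pool.Agent.Lib.P51n
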