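import Pool.Agent.Lib.P51n.EFun

/-!
# P51n.BShapes  (about 1.5 h)

Finite verifications: all the shapes used in Part B.  Everything is a case distinction (`simp`,
`split_ifs`, `linarith`/`norm_num`) over the positions of the indices.

* `src_cut`: `c = 0`, `R = cut I = I^c × I`, `w = cen (indI I)` (`w_j - w_i = 1` on `R`, `-1` on
  `I × I^c`, `0` otherwise).  `Tri (t • ind R)`: if `(i,k) ∈ R`, then for every `j` one of `(i,j)`,
  `(j,k)` is in `R`.
* `tgt_cut`: `big (cut I)`: `8` off the cut.  `Tri`: if `(i,k)` is not in the cut, then not both of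
  `(i,j)`, `(j,k)` are.
* `src_partial`: for `R' ⊆ cut I`, `(i₀,j₀) ∈ cut I \ R'`, the shape `big (cut I) + ind R'` is a
  source for `{(i₀,j₀)}` with `w = cen (indI (insert j₀ (I^c \ {i₀})))`:
  `w_{j₀} - w_{i₀} = 1`; for the other pairs `(i,j)` of the cut `w_j - w_i ≤ 0`; off the cut the
  shape is `8 ≥ 1`.
* `tgt_big`: `big {(i₀,j₀)}` is a target for `{(i₀,j₀)}`, and it is larger than the partial shapes
  and (with `(i₀,j₀) = (i₁,i₂)` or `(i₂,i₃)`) than `ct i₁ i₂ i₃ 0 0 0`.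
* `src_ct₁`, `src_ct₂`: `ct 0 0 0` is a source for `{(i₁,i₂)}` with `w = cen (indI {i₂})`, and for
  `{(i₂,i₃)}` with `w = cen (indI {i₁, i₃})`.
* `tgt_ct₁`, `tgt_ct₂`: `ct 0 2 2` is a target for `{(i₁,i₂)}`, `ct 2 0 2` for `{(i₂,i₃)}`.
* the identities `ct 1 0 0 = ct 0 0 0 + ind {(i₁,i₂)}` etc.
-/

set_option autoImplicit false

noncomputable section

namespace Pool.Agent.Lib.P51n

variable {d : ℕ}

namespace BSh

theorem cen_sub (w : Fin d → ℝ) (i j : Fin d) : cen w j - cen w i = w j - w i := by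
  simp only [cen]; ring

theorem sum_cen (w : Fin d → ℝ) : ∑ j, cen w j = 0 := by
  simp only [cen]
  rw [Finset.sum_sub_distrib, Finset.sum_const, Finset.card_univ, Fintype.card_fin, nsmul_eq_mul]
  rcases Nat.eq_zero_or_pos d with h | h
  · subst h; simp
  · have h' : (d : ℝ) ≠ 0 := by positivity
    rw [mul_div_cancel₀ _ h', sub_self]

theorem indI_mem {I : Finset (Fin d)} {j : Fin d} (h : j ∈ I) : indI I j = 1 := if_pos h

theorem indI_not {I : Finset (Fin d)} {j : Fin d} (h : j ∉ I) : indI I j = 0 := if_neg h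

theorem indI_nonneg (I : Finset (Fin d)) (j : Fin d) : 0 ≤ indI I j := by
  unfold indI; split_ifs <;> norm_num

theorem indI_le_one (I : Finset (Fin d)) (j : Fin d) : indI I j ≤ 1 := by
  unfold indI; split_ifs <;> norm_num

theorem mem_cut {I : Finset (Fin d)} {i j : Fin d} : (i, j) ∈ cut I ↔ i ∉ I ∧ j ∈ I := by
  simp [cut]

theorem ind_mem {R : Finset (Fin d × Fin d)} {i j : Fin d} (h : (i, j) ∈ R) : ind R i j = 1 :=
  if_pos h

theorem ind_not {R : Finset (Fin d × Fin d)} {i j : Fin d} (h : (i, j) ∉ R) : ind R i j = 0 :=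
  if_neg h

theorem ind_nonneg (R : Finset (Fin d × Fin d)) (i j : Fin d) : 0 ≤ ind R i j := by
  unfold ind; split_ifs <;> norm_num

theorem ind_le_one (R : Finset (Fin d × Fin d)) (i j : Fin d) : ind R i j ≤ 1 := by
  unfold ind; split_ifs <;> norm_num

theorem big_diag (R : Finset (Fin d × Fin d)) (i : Fin d) : big R i i = 0 := if_pos rfl

theorem big_mem {R : Finset (Fin d × Fin d)} {i j : Fin d} (h : (i, j) ∈ R) : big R i j = 0 := by
  unfold big; split_ifs <;> rfl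

theorem big_not {R : Finset (Fin d × Fin d)} {i j : Fin d} (hij : i ≠ j) (h : (i, j) ∉ R) :
    big R i j = 8 := by
  unfold big; rw [if_neg hij, if_neg h]

theorem big_nonneg (R : Finset (Fin d × Fin d)) (i j : Fin d) : 0 ≤ big R i j := by
  unfold big; split_ifs <;> norm_num

theorem big_le (R : Finset (Fin d × Fin d)) (i j : Fin d) : big R i j ≤ 8 := by
  unfold big; split_ifs <;> norm_num

/-- A matrix that is `8` off a set without compositions and off the diagonal. -/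
theorem tri_of_set {c : Fin d → Fin d → ℝ} {R : Finset (Fin d × Fin d)}
    (hR : ∀ i j k, (i, j) ∈ R → (j, k) ∉ R) (hd : ∀ i, c i i = 0)
    (hoff : ∀ i j, i ≠ j → (i, j) ∉ R → c i j = 8)
    (hon : ∀ i j, i ≠ j → (i, j) ∈ R → 0 ≤ c i j ∧ c i j ≤ 8) : Tri c := by
  have hnn : ∀ i j, 0 ≤ c i j := by
    intro i j
    rcases eq_or_ne i j with h | h
    · subst h; rw [hd]
    · by_cases hm : (i, j) ∈ R
      · exact (hon i j h hm).1
      · rw [hoff i j h hm]; norm_num
  have hle : ∀ i j, c i j ≤ 8 := by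
    intro i j
    rcases eq_or_ne i j with h | h
    · subst h; rw [hd]; norm_num
    · by_cases hm : (i, j) ∈ R
      · exact (hon i j h hm).2
      · rw [hoff i j h hm]
  refine ⟨hd, fun i j k => ?_⟩
  rcases eq_or_ne i j with h | h
  · subst h; rw [hd]; linarith
  rcases eq_or_ne j k with h' | h'
  · subst h'; rw [hd]; linarith
  by_cases hm : (i, j) ∈ R
  · have := hoff j k h' (hR i j k hm)
    have := hnn i j
    have := hle i k
    linarith
  · have := hoff i j h hm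
    have := hnn j k
    have := hle i k
    linarith

theorem cut_comp (I : Finset (Fin d)) (i j k : Fin d) (h : (i, j) ∈ cut I) : (j, k) ∉ cut I := by
  rw [mem_cut] at h ⊢
  exact fun h' => h'.1 h.2

theorem single_comp {i₀ j₀ : Fin d} (h0 : i₀ ≠ j₀) (i j k : Fin d)
    (h : (i, j) ∈ ({(i₀, j₀)} : Finset (Fin d × Fin d))) :
    (j, k) ∉ ({(i₀, j₀)} : Finset (Fin d × Fin d)) := by
  rw [Finset.mem_singleton, Prod.mk.injEq] at h ⊢
  rintro ⟨h1, -⟩
  exact h0 (h1.symm.trans h.2)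

end BSh

open BSh

theorem src_cut (I : Finset (Fin d)) : Src (cut I) (cen (indI I)) 0 where
  sum_w := sum_cen _
  on := by
    intro i j h
    rw [mem_cut] at h
    refine ⟨rfl, ?_⟩
    rw [cen_sub, indI_mem h.2, indI_not h.1]; norm_num
  off := by
    intro i j h
    rw [mem_cut] at h
    rw [cen_sub, Pi.zero_apply, Pi.zero_apply]
    by_cases hi : i ∈ I
    · rw [indI_mem hi]
      have := indI_le_one I j
      linarith
    · have hj : j ∉ I := fun hj => h ⟨hi, hj⟩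
      rw [indI_not hi, indI_not hj]; norm_num
  nonneg := by intro i j; rw [Pi.zero_apply, Pi.zero_apply]
  tri := by
    intro t ht ht1
    have key : ∀ i j : Fin d, ((0 : Fin d → Fin d → ℝ) + t • ind (cut I)) i j
        = t * ind (cut I) i j := by
      intro i j
      simp
    refine ⟨fun i => ?_, fun i j k => ?_⟩
    · rw [key, ind_not (by rw [mem_cut]; exact fun h => h.1 h.2), mul_zero]
    · rw [key, key, key]
      by_cases hm : (i, k) ∈ cut I
      · rw [mem_cut] at hm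
        by_cases hj : j ∈ I
        · rw [ind_mem (mem_cut.2 ⟨hm.1, hj⟩)]
          have h1 := ind_le_one (cut I) i k
          have h2 := ind_nonneg (cut I) j k
          nlinarith [mul_nonneg ht h2, mul_le_mul_of_nonneg_left h1 ht]
        · rw [ind_mem (mem_cut.2 ⟨hj, hm.2⟩)]
          have h1 := ind_le_one (cut I) i k
          have h2 := ind_nonneg (cut I) i j
          nlinarith [mul_nonneg ht h2, mul_le_mul_of_nonneg_left h1 ht]
      · rw [ind_not hm]
        have h2 := ind_nonneg (cut I) i j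
        have h3 := ind_nonneg (cut I) j k
        nlinarith [mul_nonneg ht h2, mul_nonneg ht h3]

theorem tgt_cut (I : Finset (Fin d)) : Tgt (cut I) (big (cut I)) where
  on := fun i j h => big_mem h
  nonneg := big_nonneg _
  tri := tri_of_set (cut_comp I) (big_diag _) (fun i j => big_not)
    (fun i j _ h => ⟨big_nonneg _ _ _, big_le _ _ _⟩)
  tri' := by
    refine tri_of_set (cut_comp I) (fun i => ?_) (fun i j hij h => ?_) (fun i j hij h => ?_)
    · rw [Pi.add_apply, Pi.add_apply, big_diag,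
        ind_not (by rw [mem_cut]; exact fun h => h.1 h.2), add_zero]
    · rw [Pi.add_apply, Pi.add_apply, big_not hij h, ind_not h, add_zero]
    · rw [Pi.add_apply, Pi.add_apply, big_mem h, ind_mem h]; norm_num

theorem src_partial (I : Finset (Fin d)) (R' : Finset (Fin d × Fin d)) (hR' : R' ⊆ cut I)
    {i₀ j₀ : Fin d} (h0 : (i₀, j₀) ∈ cut I) (h1 : (i₀, j₀) ∉ R') :
    Src {(i₀, j₀)} (cen (indI (insert j₀ ((Finset.univ \ I).erase i₀))))
      (big (cut I) + ind R') where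
  sum_w := sum_cen _
  on := by
    intro i j h
    rw [Finset.mem_singleton, Prod.mk.injEq] at h
    obtain ⟨rfl, rfl⟩ := h
    have h2 := mem_cut.1 h0
    have hne : i ≠ j := fun h => h2.1 (h ▸ h2.2)
    refine ⟨?_, ?_⟩
    · rw [Pi.add_apply, Pi.add_apply, big_mem h0, ind_not h1, add_zero]
    · rw [cen_sub, indI_mem (Finset.mem_insert_self _ _), indI_not, sub_zero]
      rw [Finset.mem_insert, Finset.mem_erase]
      rintro (h | h)
      · exact hne h
      · exact h.1 rfl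
  off := by
    intro i j h
    rw [Finset.mem_singleton, Prod.mk.injEq] at h
    rw [cen_sub, Pi.add_apply, Pi.add_apply]
    set J := insert j₀ ((Finset.univ \ I).erase i₀) with hJ
    have hle := indI_le_one J j
    have hge := indI_nonneg J i
    have hn := ind_nonneg R' i j
    rcases eq_or_ne i j with hij | hij
    · subst hij
      rw [big_diag]; linarith
    · by_cases hm : (i, j) ∈ cut I
      · rw [big_mem hm]
        have hm' := mem_cut.1 hm
        by_cases hi : i = i₀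
        · have hj : j ≠ j₀ := fun hj => h ⟨hi, hj⟩
          have : indI J j = 0 := by
            apply indI_not
            rw [hJ, Finset.mem_insert, Finset.mem_erase, Finset.mem_sdiff]
            rintro (h | h)
            · exact hj h
            · exact h.2.2 hm'.2
          linarith
        · have : indI J i = 1 := by
            apply indI_mem
            rw [hJ, Finset.mem_insert, Finset.mem_erase, Finset.mem_sdiff]
            exact Or.inr ⟨hi, Finset.mem_univ _, hm'.1⟩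
          linarith
      · rw [big_not hij hm]; linarith
  nonneg := by
    intro i j
    rw [Pi.add_apply, Pi.add_apply]
    exact add_nonneg (big_nonneg _ _ _) (ind_nonneg _ _ _)
  tri := by
    intro t ht ht1
    have key : ∀ i j : Fin d, ((big (cut I) + ind R') + t • ind {(i₀, j₀)}) i j
        = big (cut I) i j + ind R' i j + t * ind {(i₀, j₀)} i j := by
      intro i j
      simp
    have hdiag : ∀ i : Fin d, (i, i) ∉ cut I := by
      intro i; rw [mem_cut]; exact fun h => h.1 h.2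
    have hsub : ({(i₀, j₀)} : Finset (Fin d × Fin d)) ⊆ cut I := by
      rw [Finset.singleton_subset_iff]; exact h0
    refine tri_of_set (cut_comp I) (fun i => ?_) (fun i j hij h => ?_) (fun i j hij h => ?_)
    · rw [key, big_diag, ind_not (fun h => hdiag i (hR' h)), ind_not (fun h => hdiag i (hsub h))]
      ring
    · rw [key, big_not hij h, ind_not (fun h' => h (hR' h')), ind_not (fun h' => h (hsub h'))]
      ring
    · rw [key, big_mem h]
      have a1 := ind_nonneg R' i j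
      have a2 := ind_le_one R' i j
      have a3 := ind_nonneg {(i₀, j₀)} i j
      have a4 := ind_le_one {(i₀, j₀)} i j
      constructor <;> nlinarith [mul_nonneg ht a3, mul_le_mul_of_nonneg_left a4 ht]

theorem tgt_big {i₀ j₀ : Fin d} (h : i₀ ≠ j₀) : Tgt {(i₀, j₀)} (big {(i₀, j₀)}) where
  on := fun i j h => big_mem h
  nonneg := big_nonneg _
  tri := tri_of_set (single_comp h) (big_diag _) (fun i j => big_not)
    (fun i j _ h => ⟨big_nonneg _ _ _, big_le _ _ _⟩)
  tri' := by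
    refine tri_of_set (single_comp h) (fun i => ?_) (fun i j hij h => ?_) (fun i j hij h => ?_)
    · rw [Pi.add_apply, Pi.add_apply, big_diag, ind_not, add_zero]
      rw [Finset.mem_singleton, Prod.mk.injEq]
      exact fun h' => h (h'.1.symm.trans h'.2)
    · rw [Pi.add_apply, Pi.add_apply, big_not hij h, ind_not h, add_zero]
    · rw [Pi.add_apply, Pi.add_apply, big_mem h, ind_mem h]; norm_num

theorem partial_le_big (I : Finset (Fin d)) (R' : Finset (Fin d × Fin d)) (hR' : R' ⊆ cut I)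
    {i₀ j₀ : Fin d} (h0 : (i₀, j₀) ∈ cut I) (h1 : (i₀, j₀) ∉ R') :
    big (cut I) + ind R' ≤ big {(i₀, j₀)} := by
  intro i j
  rw [Pi.add_apply, Pi.add_apply]
  have hdiag : ∀ i : Fin d, (i, i) ∉ cut I := by
    intro i; rw [mem_cut]; exact fun h => h.1 h.2
  rcases eq_or_ne i j with hij | hij
  · subst hij
    rw [big_diag, big_diag, ind_not (fun h => hdiag i (hR' h)), add_zero]
  · by_cases he : (i, j) = (i₀, j₀)
    · rw [big_mem (he ▸ h0), ind_not (he ▸ h1), zero_add]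
      exact big_nonneg _ _ _
    · rw [big_not (R := {(i₀, j₀)}) hij (by rwa [Finset.mem_singleton])]
      by_cases hm : (i, j) ∈ cut I
      · rw [big_mem hm]
        have := ind_le_one R' i j
        linarith
      · rw [big_not hij hm, ind_not (fun h => hm (hR' h)), add_zero]

namespace BSh

section ct

variable {i₁ i₂ i₃ : Fin d}

theorem ct_diag (α β γ : ℝ) (i : Fin d) : ct i₁ i₂ i₃ α β γ i i = 0 := if_pos rfl

theorem ct_12 (h12 : i₁ ≠ i₂) (α β γ : ℝ) : ct i₁ i₂ i₃ α β γ i₁ i₂ = α := by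
  simp [ct, h12]

theorem ct_23 (h12 : i₁ ≠ i₂) (h23 : i₂ ≠ i₃) (α β γ : ℝ) : ct i₁ i₂ i₃ α β γ i₂ i₃ = β := by
  simp [ct, h12.symm, h23]

theorem ct_13 (h12 : i₁ ≠ i₂) (h23 : i₂ ≠ i₃) (h13 : i₁ ≠ i₃) (α β γ : ℝ) :
    ct i₁ i₂ i₃ α β γ i₁ i₃ = γ := by
  simp [ct, h12, h13, h23.symm]

theorem ct_other {i j : Fin d} (hij : i ≠ j) (a : ¬ (i = i₁ ∧ j = i₂)) (b : ¬ (i = i₂ ∧ j = i₃))
    (c : ¬ (i = i₁ ∧ j = i₃)) (α β γ : ℝ) : ct i₁ i₂ i₃ α β γ i j = 8 := by
  unfold ct
  rw [if_neg hij, if_neg a, if_neg b, if_neg c]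

theorem ct_nonneg {α β γ : ℝ} (hα : 0 ≤ α) (hβ : 0 ≤ β) (hγ : 0 ≤ γ) (i j : Fin d) :
    0 ≤ ct i₁ i₂ i₃ α β γ i j := by
  unfold ct; split_ifs <;> first | assumption | norm_num

theorem ct_le8 {α β γ : ℝ} (hα : α ≤ 8) (hβ : β ≤ 8) (hγ : γ ≤ 8) (i j : Fin d) :
    ct i₁ i₂ i₃ α β γ i j ≤ 8 := by
  unfold ct; split_ifs <;> first | assumption | norm_num

theorem ct_mono {α β γ α' β' γ' : ℝ} (hα : α ≤ α') (hβ : β ≤ β') (hγ : γ ≤ γ') :
    ct i₁ i₂ i₃ α β γ ≤ ct i₁ i₂ i₃ α' β' γ' := by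
  intro i j
  unfold ct; split_ifs <;> first | assumption | exact le_refl _

end ct

end BSh

/-- all the shapes of the Heisenberg group that are used satisfy the triangle inequality -/
theorem tri_ct {i₁ i₂ i₃ : Fin d} (h12 : i₁ ≠ i₂) (h23 : i₂ ≠ i₃) (h13 : i₁ ≠ i₃) {α β γ : ℝ}
    (hα : 0 ≤ α) (hβ : 0 ≤ β) (hγ : 0 ≤ γ) (hα8 : α ≤ 8) (hβ8 : β ≤ 8) (hγ' : γ ≤ α + β)
    (hγ8 : γ ≤ 8) : Tri (ct i₁ i₂ i₃ α β γ) := by
  refine ⟨ct_diag α β γ, fun i j k => ?_⟩
  have hnn := fun i j => ct_nonneg (i₁ := i₁) (i₂ := i₂) (i₃ := i₃) hα hβ hγ i j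
  have hle := fun i j => ct_le8 (i₁ := i₁) (i₂ := i₂) (i₃ := i₃) hα8 hβ8 hγ8 i j
  rcases eq_or_ne i j with hij | hij
  · subst hij; rw [ct_diag]; linarith
  rcases eq_or_ne j k with hjk | hjk
  · subst hjk; rw [ct_diag]; linarith
  have e1 := hnn i j
  have e2 := hnn j k
  have e3 := hle i k
  by_cases a1 : i = i₁ ∧ j = i₂
  · obtain ⟨rfl, rfl⟩ := a1
    by_cases b2 : k = i₃
    · subst b2
      rw [ct_12 h12, ct_23 h12 h23, ct_13 h12 h23 h13]
      exact hγ'
    · have := ct_other (i₁ := i) (i₂ := j) (i₃ := i₃) hjk (fun h => h12 h.1.symm)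
        (fun h => b2 h.2) (fun h => h12 h.1.symm) α β γ
      linarith
  by_cases a2 : i = i₂ ∧ j = i₃
  · obtain ⟨rfl, rfl⟩ := a2
    have := ct_other (i₁ := i₁) (i₂ := i) (i₃ := j) hjk (fun h => h13 h.1.symm)
      (fun h => h23 h.1.symm) (fun h => h13 h.1.symm) α β γ
    linarith
  by_cases a3 : i = i₁ ∧ j = i₃
  · obtain ⟨rfl, rfl⟩ := a3
    have := ct_other (i₁ := i) (i₂ := i₂) (i₃ := j) hjk (fun h => h13 h.1.symm)
      (fun h => h23 h.1.symm) (fun h => h13 h.1.symm) α β γ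
    linarith
  · have := ct_other hij a1 a2 a3 α β γ
    linarith

theorem ct_add₁ {i₁ i₂ i₃ : Fin d} (h12 : i₁ ≠ i₂) (h23 : i₂ ≠ i₃) (h13 : i₁ ≠ i₃) (β γ : ℝ) :
    ct i₁ i₂ i₃ 0 β γ + ind {(i₁, i₂)} = ct i₁ i₂ i₃ 1 β γ := by
  funext i j
  rw [Pi.add_apply, Pi.add_apply]
  by_cases h : i = i₁ ∧ j = i₂
  · obtain ⟨rfl, rfl⟩ := h
    rw [ct_12 h12, ct_12 h12, ind_mem (Finset.mem_singleton_self _), zero_add]
  · rw [ind_not (by rwa [Finset.mem_singleton, Prod.mk.injEq]), add_zero]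
    unfold ct
    simp only [if_neg h]

theorem BSh.ct_add₁' {i₁ i₂ i₃ : Fin d} (h12 : i₁ ≠ i₂) (t β γ : ℝ) :
    ct i₁ i₂ i₃ 0 β γ + t • ind {(i₁, i₂)} = ct i₁ i₂ i₃ t β γ := by
  funext i j
  rw [Pi.add_apply, Pi.add_apply, Pi.smul_apply, Pi.smul_apply, smul_eq_mul]
  by_cases h : i = i₁ ∧ j = i₂
  · obtain ⟨rfl, rfl⟩ := h
    rw [ct_12 h12, ct_12 h12, ind_mem (Finset.mem_singleton_self _), zero_add, mul_one]
  · rw [ind_not (by rwa [Finset.mem_singleton, Prod.mk.injEq]), mul_zero, add_zero]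
    unfold ct
    simp only [if_neg h]

theorem BSh.ct_add₂' {i₁ i₂ i₃ : Fin d} (h12 : i₁ ≠ i₂) (h23 : i₂ ≠ i₃) (α t γ : ℝ) :
    ct i₁ i₂ i₃ α 0 γ + t • ind {(i₂, i₃)} = ct i₁ i₂ i₃ α t γ := by
  funext i j
  rw [Pi.add_apply, Pi.add_apply, Pi.smul_apply, Pi.smul_apply, smul_eq_mul]
  by_cases h : i = i₂ ∧ j = i₃
  · obtain ⟨rfl, rfl⟩ := h
    rw [ct_23 h12 h23, ct_23 h12 h23, ind_mem (Finset.mem_singleton_self _), zero_add, mul_one]
  · rw [ind_not (by rwa [Finset.mem_singleton, Prod.mk.injEq]), mul_zero, add_zero]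
    unfold ct
    simp only [if_neg h]

theorem ct_add₂ {i₁ i₂ i₃ : Fin d} (h12 : i₁ ≠ i₂) (h23 : i₂ ≠ i₃) (h13 : i₁ ≠ i₃) (α γ : ℝ) :
    ct i₁ i₂ i₃ α 0 γ + ind {(i₂, i₃)} = ct i₁ i₂ i₃ α 1 γ := by
  have := ct_add₂' h12 h23 α 1 γ
  rwa [one_smul] at this

theorem src_ct₁ {i₁ i₂ i₃ : Fin d} (h12 : i₁ ≠ i₂) (h23 : i₂ ≠ i₃) (h13 : i₁ ≠ i₃) :
    Src {(i₁, i₂)} (cen (indI {i₂})) (ct i₁ i₂ i₃ 0 0 0) where
  sum_w := sum_cen _
  on := by
    intro i j h
    rw [Finset.mem_singleton, Prod.mk.injEq] at h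
    obtain ⟨rfl, rfl⟩ := h
    refine ⟨ct_12 h12 _ _ _, ?_⟩
    rw [cen_sub, indI_mem (Finset.mem_singleton_self _),
      indI_not (by rwa [Finset.mem_singleton]), sub_zero]
  off := by
    intro i j h
    rw [Finset.mem_singleton, Prod.mk.injEq] at h
    rw [cen_sub]
    have hle := indI_le_one {i₂} j
    have hge := indI_nonneg {i₂} i
    have hnn := ct_nonneg (i₁ := i₁) (i₂ := i₂) (i₃ := i₃) (le_refl (0 : ℝ)) (le_refl 0)
      (le_refl 0) i j
    rcases eq_or_ne i j with hij | hij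
    · subst hij; linarith
    by_cases hj : j = i₂
    · have hi : i ≠ i₁ := fun hi => h ⟨hi, hj⟩
      have := ct_other (i₁ := i₁) (i₂ := i₂) (i₃ := i₃) hij (fun h => hi h.1)
        (fun h => h23 (hj.symm.trans h.2)) (fun h => hi h.1) 0 0 0
      linarith
    · rw [indI_not (by rwa [Finset.mem_singleton] : j ∉ ({i₂} : Finset (Fin d)))]
      linarith
  nonneg := ct_nonneg (le_refl _) (le_refl _) (le_refl _)
  tri := by
    intro t ht ht1
    rw [ct_add₁' h12]
    exact tri_ct h12 h23 h13 ht (le_refl _) (le_refl _) (by linarith) (by norm_num) (by linarith)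
      (by norm_num)

theorem src_ct₂ {i₁ i₂ i₃ : Fin d} (h12 : i₁ ≠ i₂) (h23 : i₂ ≠ i₃) (h13 : i₁ ≠ i₃) :
    Src {(i₂, i₃)} (cen (indI {i₁, i₃})) (ct i₁ i₂ i₃ 0 0 0) where
  sum_w := sum_cen _
  on := by
    intro i j h
    rw [Finset.mem_singleton, Prod.mk.injEq] at h
    obtain ⟨rfl, rfl⟩ := h
    refine ⟨ct_23 h12 h23 _ _ _, ?_⟩
    rw [cen_sub, indI_mem (by simp), indI_not, sub_zero]
    rw [Finset.mem_insert, Finset.mem_singleton]
    rintro (h | h)
    · exact h12 h.symm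
    · exact h23 h
  off := by
    intro i j h
    rw [Finset.mem_singleton, Prod.mk.injEq] at h
    rw [cen_sub]
    have hle := indI_le_one {i₁, i₃} j
    have hge := indI_nonneg {i₁, i₃} i
    have hnn := ct_nonneg (i₁ := i₁) (i₂ := i₂) (i₃ := i₃) (le_refl (0 : ℝ)) (le_refl 0)
      (le_refl 0) i j
    rcases eq_or_ne i j with hij | hij
    · subst hij; linarith
    by_cases hi : i = i₁
    · rw [indI_mem (by rw [hi]; simp : i ∈ ({i₁, i₃} : Finset (Fin d)))]
      linarith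
    · have := ct_other (i₁ := i₁) (i₂ := i₂) (i₃ := i₃) hij (fun h => hi h.1)
        h (fun h => hi h.1) 0 0 0
      linarith
  nonneg := ct_nonneg (le_refl _) (le_refl _) (le_refl _)
  tri := by
    intro t ht ht1
    rw [ct_add₂' h12 h23]
    exact tri_ct h12 h23 h13 (le_refl _) ht (le_refl _) (by norm_num) (by linarith) (by linarith)
      (by norm_num)

theorem tgt_ct₁ {i₁ i₂ i₃ : Fin d} (h12 : i₁ ≠ i₂) (h23 : i₂ ≠ i₃) (h13 : i₁ ≠ i₃) :
    Tgt {(i₁, i₂)} (ct i₁ i₂ i₃ 0 2 2) where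
  on := by
    intro i j h
    rw [Finset.mem_singleton, Prod.mk.injEq] at h
    obtain ⟨rfl, rfl⟩ := h
    exact ct_12 h12 _ _ _
  nonneg := ct_nonneg (le_refl _) (by norm_num) (by norm_num)
  tri := tri_ct h12 h23 h13 (by norm_num) (by norm_num) (by norm_num) (by norm_num) (by norm_num)
    (by norm_num) (by norm_num)
  tri' := by
    rw [ct_add₁ h12 h23 h13]
    exact tri_ct h12 h23 h13 (by norm_num) (by norm_num) (by norm_num) (by norm_num) (by norm_num)
      (by norm_num) (by norm_num)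

theorem tgt_ct₂ {i₁ i₂ i₃ : Fin d} (h12 : i₁ ≠ i₂) (h23 : i₂ ≠ i₃) (h13 : i₁ ≠ i₃) :
    Tgt {(i₂, i₃)} (ct i₁ i₂ i₃ 2 0 2) where
  on := by
    intro i j h
    rw [Finset.mem_singleton, Prod.mk.injEq] at h
    obtain ⟨rfl, rfl⟩ := h
    exact ct_23 h12 h23 _ _ _
  nonneg := ct_nonneg (by norm_num) (le_refl _) (by norm_num)
  tri := tri_ct h12 h23 h13 (by norm_num) (by norm_num) (by norm_num) (by norm_num) (by norm_num)
    (by norm_num) (by norm_num)
  tri' := by
    rw [ct_add₂ h12 h23 h13]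
    exact tri_ct h12 h23 h13 (by norm_num) (by norm_num) (by norm_num) (by norm_num) (by norm_num)
      (by norm_num) (by norm_num)

theorem ct_le_big₁ {i₁ i₂ i₃ : Fin d} (h12 : i₁ ≠ i₂) (h23 : i₂ ≠ i₃) (h13 : i₁ ≠ i₃) :
    ct i₁ i₂ i₃ 0 0 0 ≤ big {(i₁, i₂)} := by
  intro i j
  rcases eq_or_ne i j with hij | hij
  · subst hij; rw [ct_diag]; exact big_nonneg _ _ _
  by_cases h : (i, j) = (i₁, i₂)
  · rw [Prod.mk.injEq] at h
    obtain ⟨rfl, rfl⟩ := h
    rw [ct_12 h12]; exact big_nonneg _ _ _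
  · rw [big_not hij (by rwa [Finset.mem_singleton])]
    exact ct_le8 (by norm_num) (by norm_num) (by norm_num) i j

theorem ct_le_big₂ {i₁ i₂ i₃ : Fin d} (h12 : i₁ ≠ i₂) (h23 : i₂ ≠ i₃) (h13 : i₁ ≠ i₃) :
    ct i₁ i₂ i₃ 0 0 0 ≤ big {(i₂, i₃)} := by
  intro i j
  rcases eq_or_ne i j with hij | hij
  · subst hij; rw [ct_diag]; exact big_nonneg _ _ _
  by_cases h : (i, j) = (i₂, i₃)
  · rw [Prod.mk.injEq] at h
    obtain ⟨rfl, rfl⟩ := h
    rw [ct_23 h12 h23]; exact big_nonneg _ _ _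
  · rw [big_not hij (by rwa [Finset.mem_singleton])]
    exact ct_le8 (by norm_num) (by norm_num) (by norm_num) i j

theorem ct_le₁ {i₁ i₂ i₃ : Fin d} : ct i₁ i₂ i₃ 0 0 0 ≤ ct i₁ i₂ i₃ 0 2 2 :=
  ct_mono (le_refl _) (by norm_num) (by norm_num)

theorem ct_le₂ {i₁ i₂ i₃ : Fin d} : ct i₁ i₂ i₃ 0 0 0 ≤ ct i₁ i₂ i₃ 2 0 2 :=
  ct_mono (by norm_num) (le_refl _) (by norm_num)

end Pool.Agent.Lib.P51n
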