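import Pool.Agent.Lib.P51n.BPush
import Pool.Agent.Lib.P51n.BShapes
import Pool.Agent.Lib.P51n.BGraph

/-!
# P51n.BCut  (about 1.5 h)

Pointwise part of the place theorem: at a position where all cut costs are at least `c₁` and all
the asymptotic equalities of `push_L1` hold up to `ε'`, there is a good triple.

`err F lam s` is the sum of the (nonnegative, by `qq_anti`) differences
* `qq(cut I, 0) - qq(cut I, big (cut I))` over all `I`,
* `qq({α}, big (cut I) + ind R') - qq({α}, big {α})` over all `I`, `R' ⊆ cut I`, `α ∈ cut I \ R'`,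
* `qq({(i₁,i₂)}, ct 0 0 0) - qq({(i₁,i₂)}, ct 0 2 2)` and the same for `(i₂,i₃)`, `ct 2 0 2`, over
  all distinct triples.

Proof of `exists_triple`.  `qq(cut I, 0) = dF(s, s + lam cen(indI I))/lam ≥ c₁` (`F (cs s) = 0`;
`cs s ⊔ cs (s + lam • cen (indI I)) = cs s + lam • ind (cut I)`).  So
`qq(cut I, big (cut I)) ≥ c₁ - ε'`.  Adding the roots of the cut one by one (an induction over
`R' ⊆ cut I`, `Finset.induction_on`), `qq(cut I, big (cut I))` is the sum over `α ∈ cut I` of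
`qq({α}, big (cut I) + ind R'_α)`, and the sum of all errors is at most `ε'`, so
`∑_{α ∈ cut I} qq({α}, big {α}) ≥ c₁ - 2ε'`.  With `ε' ≤ c₁/4` some
`α ∈ cut I` has `qq({α}, big {α}) ≥ c₁/(2 d²)`.  Apply `exists_path` to
`E i j := i ≠ j ∧ c₁/(2d²) ≤ qq({(i,j)}, big {(i,j)})`.  For the triple obtained,
`qq({(i₁,i₂)}, ct 0 0 0) ≥ qq({(i₁,i₂)}, big {(i₁,i₂)})` (`qq_anti`, `ct_le_big₁`), and the same for
`(i₂,i₃)`; `ind₁`, `ind₂` are the third kind of error.
-/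

set_option autoImplicit false

noncomputable section

namespace Pool.Agent.Lib.P51n

variable {d : ℕ}

/-- total error -/
def err (F : (Fin d → Fin d → ℝ) → ℝ) (lam : ℝ) (s : Fin d → ℝ) : ℝ :=
  (∑ I : Finset (Fin d), (qq F lam s (cut I) 0 - qq F lam s (cut I) (big (cut I)))) +
  (∑ I : Finset (Fin d), ∑ R' ∈ (cut I).powerset, ∑ α ∈ cut I \ R',
    (qq F lam s {α} (big (cut I) + ind R') - qq F lam s {α} (big {α}))) +
  ∑ i₁ : Fin d, ∑ i₂ : Fin d, ∑ i₃ : Fin d, if i₁ ≠ i₂ ∧ i₂ ≠ i₃ ∧ i₁ ≠ i₃ then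
    (qq F lam s {(i₁, i₂)} (ct i₁ i₂ i₃ 0 0 0) - qq F lam s {(i₁, i₂)} (ct i₁ i₂ i₃ 0 2 2)) +
    (qq F lam s {(i₂, i₃)} (ct i₁ i₂ i₃ 0 0 0) - qq F lam s {(i₂, i₃)} (ct i₁ i₂ i₃ 2 0 2))
    else 0

namespace BCutAux

variable {F : (Fin d → Fin d → ℝ) → ℝ} {lam : ℝ} {s : Fin d → ℝ}

theorem a_nonneg (hF : EFun d F) (hl : 0 < lam) (hs : Pos 1 s) (I : Finset (Fin d)) :
    0 ≤ qq F lam s (cut I) 0 - qq F lam s (cut I) (big (cut I)) := by
  rw [sub_nonneg]
  exact qq_anti hF (src_cut I).tgt (tgt_cut I) (fun i j => BSh.big_nonneg _ i j) hl hs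

theorem b_nonneg (hF : EFun d F) (hl : 0 < lam) (hs : Pos 1 s) (I : Finset (Fin d))
    {R' : Finset (Fin d × Fin d)} (hR' : R' ⊆ cut I) {α : Fin d × Fin d} (hα : α ∈ cut I \ R') :
    0 ≤ qq F lam s {α} (big (cut I) + ind R') - qq F lam s {α} (big {α}) := by
  rw [sub_nonneg]
  obtain ⟨i, j⟩ := α
  rw [Finset.mem_sdiff] at hα
  have h1 := BSh.mem_cut.1 hα.1
  have hne : i ≠ j := fun h => h1.1 (h ▸ h1.2)
  exact qq_anti hF (src_partial I R' hR' hα.1 hα.2).tgt (tgt_big hne)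
    (partial_le_big I R' hR' hα.1 hα.2) hl hs

theorem c₁_nonneg (hF : EFun d F) (hl : 0 < lam) (hs : Pos 1 s) {i₁ i₂ i₃ : Fin d}
    (h12 : i₁ ≠ i₂) (h23 : i₂ ≠ i₃) (h13 : i₁ ≠ i₃) :
    0 ≤ qq F lam s {(i₁, i₂)} (ct i₁ i₂ i₃ 0 0 0) - qq F lam s {(i₁, i₂)} (ct i₁ i₂ i₃ 0 2 2) := by
  rw [sub_nonneg]
  exact qq_anti hF (src_ct₁ h12 h23 h13).tgt (tgt_ct₁ h12 h23 h13) ct_le₁ hl hs

theorem c₂_nonneg (hF : EFun d F) (hl : 0 < lam) (hs : Pos 1 s) {i₁ i₂ i₃ : Fin d}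
    (h12 : i₁ ≠ i₂) (h23 : i₂ ≠ i₃) (h13 : i₁ ≠ i₃) :
    0 ≤ qq F lam s {(i₂, i₃)} (ct i₁ i₂ i₃ 0 0 0) - qq F lam s {(i₂, i₃)} (ct i₁ i₂ i₃ 2 0 2) := by
  rw [sub_nonneg]
  exact qq_anti hF (src_ct₂ h12 h23 h13).tgt (tgt_ct₂ h12 h23 h13) ct_le₂ hl hs

/-- the three parts of the error -/
def eA (F : (Fin d → Fin d → ℝ) → ℝ) (lam : ℝ) (s : Fin d → ℝ) (I : Finset (Fin d)) : ℝ :=
  qq F lam s (cut I) 0 - qq F lam s (cut I) (big (cut I))

def eB (F : (Fin d → Fin d → ℝ) → ℝ) (lam : ℝ) (s : Fin d → ℝ) (I : Finset (Fin d)) : ℝ :=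
  ∑ R' ∈ (cut I).powerset, ∑ α ∈ cut I \ R',
    (qq F lam s {α} (big (cut I) + ind R') - qq F lam s {α} (big {α}))

def eC (F : (Fin d → Fin d → ℝ) → ℝ) (lam : ℝ) (s : Fin d → ℝ) (i₁ i₂ i₃ : Fin d) : ℝ :=
  if i₁ ≠ i₂ ∧ i₂ ≠ i₃ ∧ i₁ ≠ i₃ then
    (qq F lam s {(i₁, i₂)} (ct i₁ i₂ i₃ 0 0 0) - qq F lam s {(i₁, i₂)} (ct i₁ i₂ i₃ 0 2 2)) +
    (qq F lam s {(i₂, i₃)} (ct i₁ i₂ i₃ 0 0 0) - qq F lam s {(i₂, i₃)} (ct i₁ i₂ i₃ 2 0 2))
    else 0

theorem err_eq : err F lam s = (∑ I : Finset (Fin d), eA F lam s I) +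
    (∑ I : Finset (Fin d), eB F lam s I) +
    ∑ i₁ : Fin d, ∑ i₂ : Fin d, ∑ i₃ : Fin d, eC F lam s i₁ i₂ i₃ := rfl

theorem eA_nonneg (hF : EFun d F) (hl : 0 < lam) (hs : Pos 1 s) (I : Finset (Fin d)) :
    0 ≤ eA F lam s I := a_nonneg hF hl hs I

theorem eB_nonneg (hF : EFun d F) (hl : 0 < lam) (hs : Pos 1 s) (I : Finset (Fin d)) :
    0 ≤ eB F lam s I :=
  Finset.sum_nonneg fun R' hR' => Finset.sum_nonneg fun α hα =>
    b_nonneg hF hl hs I (Finset.mem_powerset.1 hR') hα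

theorem eC_nonneg (hF : EFun d F) (hl : 0 < lam) (hs : Pos 1 s) (i₁ i₂ i₃ : Fin d) :
    0 ≤ eC F lam s i₁ i₂ i₃ := by
  unfold eC
  split_ifs with h
  · exact add_nonneg (c₁_nonneg hF hl hs h.1 h.2.1 h.2.2) (c₂_nonneg hF hl hs h.1 h.2.1 h.2.2)
  · exact le_rfl

theorem sC_nonneg (hF : EFun d F) (hl : 0 < lam) (hs : Pos 1 s) :
    0 ≤ ∑ i₁ : Fin d, ∑ i₂ : Fin d, ∑ i₃ : Fin d, eC F lam s i₁ i₂ i₃ :=
  Finset.sum_nonneg fun _ _ => Finset.sum_nonneg fun _ _ => Finset.sum_nonneg fun _ _ =>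
    eC_nonneg hF hl hs _ _ _

theorem eAB_le (hF : EFun d F) (hl : 0 < lam) (hs : Pos 1 s) (I : Finset (Fin d)) :
    eA F lam s I + eB F lam s I ≤ err F lam s := by
  rw [err_eq]
  have h1 := Finset.single_le_sum (f := fun I => eA F lam s I)
    (fun J _ => eA_nonneg hF hl hs J) (Finset.mem_univ I)
  have h2 := Finset.single_le_sum (f := fun I => eB F lam s I)
    (fun J _ => eB_nonneg hF hl hs J) (Finset.mem_univ I)
  have h3 := sC_nonneg hF hl hs
  linarith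

theorem eC_le (hF : EFun d F) (hl : 0 < lam) (hs : Pos 1 s) (i₁ i₂ i₃ : Fin d) :
    eC F lam s i₁ i₂ i₃ ≤ err F lam s := by
  rw [err_eq]
  have h1 := Finset.sum_nonneg (s := Finset.univ) fun (I : Finset (Fin d)) _ =>
    eA_nonneg hF hl hs I
  have h2 := Finset.sum_nonneg (s := Finset.univ) fun (I : Finset (Fin d)) _ =>
    eB_nonneg hF hl hs I
  have h3 := Finset.single_le_sum (f := fun i₃ => eC F lam s i₁ i₂ i₃)
    (fun j _ => eC_nonneg hF hl hs i₁ i₂ j) (Finset.mem_univ i₃)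
  have h4 := Finset.single_le_sum (f := fun i₂ => ∑ i₃ : Fin d, eC F lam s i₁ i₂ i₃)
    (fun j _ => Finset.sum_nonneg fun k _ => eC_nonneg hF hl hs i₁ j k) (Finset.mem_univ i₂)
  have h5 := Finset.single_le_sum (f := fun i₁ => ∑ i₂ : Fin d, ∑ i₃ : Fin d,
    eC F lam s i₁ i₂ i₃)
    (fun j _ => Finset.sum_nonneg fun k _ => Finset.sum_nonneg fun l _ =>
      eC_nonneg hF hl hs j k l) (Finset.mem_univ i₁)
  linarith

theorem ind_insert {R : Finset (Fin d × Fin d)} {α : Fin d × Fin d} (hα : α ∉ R) :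
    ind (insert α R) = ind R + ind {α} := by
  funext i j
  rw [Pi.add_apply, Pi.add_apply]
  by_cases h : (i, j) = α
  · rw [BSh.ind_mem (by rw [h]; exact Finset.mem_insert_self _ _), BSh.ind_not (by rw [h]; exact hα),
      BSh.ind_mem (by rw [h]; exact Finset.mem_singleton_self _), zero_add]
  · rw [BSh.ind_not (R := {α}) (by rwa [Finset.mem_singleton]), add_zero]
    unfold ind
    simp only [Finset.mem_insert, h, false_or]

theorem tele (hF : EFun d F) (hl : 0 < lam) (hs : Pos 1 s) (I : Finset (Fin d))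
    (R : Finset (Fin d × Fin d)) : R ⊆ cut I →
    (F (cs s + lam • (big (cut I) + ind R)) - F (cs s + lam • big (cut I))) / lam ≤
      ∑ α ∈ R, qq F lam s {α} (big {α}) +
      ∑ R' ∈ R.ssubsets, ∑ α ∈ cut I \ R',
        (qq F lam s {α} (big (cut I) + ind R') - qq F lam s {α} (big {α})) := by
  induction R using Finset.induction_on with
  | empty =>
    intro _
    have h0 : (ind (∅ : Finset (Fin d × Fin d))) = 0 := by
      funext i j
      rw [BSh.ind_not (Finset.notMem_empty _)]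
      rfl
    have h1 : (∅ : Finset (Fin d × Fin d)).ssubsets = ∅ := by
      ext T
      rw [Finset.mem_ssubsets]
      simp
    rw [h0, add_zero, sub_self, zero_div, Finset.sum_empty, h1, Finset.sum_empty, add_zero]
  | insert α R hα ih =>
    intro hsub
    have hα' : α ∈ cut I := hsub (Finset.mem_insert_self _ _)
    have hR : R ⊆ cut I := (Finset.subset_insert _ _).trans hsub
    have h1 := ih hR
    have e1 : (F (cs s + lam • (big (cut I) + ind (insert α R))) -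
        F (cs s + lam • big (cut I))) / lam =
        (F (cs s + lam • (big (cut I) + ind R)) - F (cs s + lam • big (cut I))) / lam +
        qq F lam s {α} (big (cut I) + ind R) := by
      unfold qq
      rw [ind_insert hα, add_assoc (big (cut I)), ← add_div]
      congr 1
      ring
    have e2 : qq F lam s {α} (big (cut I) + ind R) ≤
        ∑ β ∈ cut I \ R, (qq F lam s {β} (big (cut I) + ind R) - qq F lam s {β} (big {β})) +
        qq F lam s {α} (big {α}) := by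
      have := Finset.single_le_sum
        (f := fun β => qq F lam s {β} (big (cut I) + ind R) - qq F lam s {β} (big {β}))
        (fun β hβ => b_nonneg hF hl hs I hR hβ) (Finset.mem_sdiff.2 ⟨hα', hα⟩)
      linarith
    have e3 : ∑ R' ∈ insert R R.ssubsets, ∑ β ∈ cut I \ R',
        (qq F lam s {β} (big (cut I) + ind R') - qq F lam s {β} (big {β})) ≤
        ∑ R' ∈ (insert α R).ssubsets, ∑ β ∈ cut I \ R',
        (qq F lam s {β} (big (cut I) + ind R') - qq F lam s {β} (big {β})) := by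
      refine Finset.sum_le_sum_of_subset_of_nonneg ?_ ?_
      · intro T hT
        rw [Finset.mem_ssubsets]
        rcases Finset.mem_insert.1 hT with rfl | hT
        · exact Finset.ssubset_insert hα
        · exact (Finset.mem_ssubsets.1 hT).trans (Finset.ssubset_insert hα)
      · intro T hT _
        exact Finset.sum_nonneg fun β hβ => b_nonneg hF hl hs I
          ((Finset.mem_ssubsets.1 hT).subset.trans hsub) hβ
    rw [Finset.sum_insert (by rw [Finset.mem_ssubsets]; exact (irrefl R))] at e3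
    rw [e1, Finset.sum_insert hα]
    linarith

theorem cut_le (hF : EFun d F) (hl : 0 < lam) (hs : Pos 1 s) (I : Finset (Fin d)) :
    qq F lam s (cut I) (big (cut I)) ≤
      ∑ α ∈ cut I, qq F lam s {α} (big {α}) + eB F lam s I := by
  have h1 := tele hF hl hs I (cut I) (le_refl _)
  have h2 : ∑ R' ∈ (cut I).ssubsets, ∑ α ∈ cut I \ R',
        (qq F lam s {α} (big (cut I) + ind R') - qq F lam s {α} (big {α})) ≤ eB F lam s I := by
    refine Finset.sum_le_sum_of_subset_of_nonneg ?_ ?_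
    · intro T hT
      exact Finset.mem_powerset.2 (Finset.mem_ssubsets.1 hT).subset
    · intro T hT _
      exact Finset.sum_nonneg fun β hβ => b_nonneg hF hl hs I (Finset.mem_powerset.1 hT) hβ
  have h3 : qq F lam s (cut I) (big (cut I)) =
    (F (cs s + lam • (big (cut I) + ind (cut I))) - F (cs s + lam • big (cut I))) / lam := rfl
  rw [h3]
  linarith

theorem dF_cut (hF : EFun d F) (hl : 0 < lam) (hs : Pos 1 s) (I : Finset (Fin d)) :
    qq F lam s (cut I) 0 = dF F s (s + lam • cen (indI I)) / lam := by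
  have h1 : cs s ⊔ cs (s + lam • cen (indI I)) = cs s + lam • (0 + ind (cut I)) := by
    funext i j
    simp only [Pi.sup_apply, Pi.add_apply, Pi.smul_apply, smul_eq_mul, zero_add]
    have e1 : cs (s + lam • cen (indI I)) i j = cs s i j + lam * (indI I j - indI I i) := by
      unfold cs
      rw [← BSh.cen_sub (indI I) i j]
      simp only [Pi.add_apply, Pi.smul_apply, smul_eq_mul]
      ring
    rw [e1]
    by_cases hm : (i, j) ∈ cut I
    · have hm' := BSh.mem_cut.1 hm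
      rw [BSh.indI_mem hm'.2, BSh.indI_not hm'.1, BSh.ind_mem hm]
      rw [sup_eq_right.2 (by linarith)]
      ring
    · rw [BSh.ind_not hm]
      have h2 : indI I j - indI I i ≤ 0 := by
        rw [BSh.mem_cut] at hm
        by_cases hi : i ∈ I
        · rw [BSh.indI_mem hi]
          have := BSh.indI_le_one I j
          linarith
        · have hj : j ∉ I := fun hj => hm ⟨hi, hj⟩
          rw [BSh.indI_not hi, BSh.indI_not hj]; norm_num
      rw [sup_eq_left.2 (by nlinarith)]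
      ring
  unfold qq dF
  rw [← h1, smul_zero, add_zero, hF.zero s hs, sub_zero]

end BCutAux

open BCutAux

theorem exists_triple (hd : 3 ≤ d) {F : (Fin d → Fin d → ℝ) → ℝ} (hF : EFun d F) {c₁ ε' lam : ℝ}
    (hc : 0 < c₁) (hε' : ε' ≤ c₁ / 4) (hl : 0 < lam) {s : Fin d → ℝ} (hs : Pos 1 s)
    (hs' : ∀ I : Finset (Fin d), Pos 1 (s + lam • cen (indI I)))
    (hcut : ∀ I : Finset (Fin d), I.Nonempty → I ≠ Finset.univ →
      c₁ * lam ≤ dF F s (s + lam • cen (indI I)))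
    (herr : err F lam s ≤ ε') :
    ∃ i₁ i₂ i₃ : Fin d, i₁ ≠ i₂ ∧ i₂ ≠ i₃ ∧ i₁ ≠ i₃ ∧
      Place F i₁ i₂ i₃ (c₁ / (2 * d ^ 2)) ε' lam s := by
  have hd0 : (0 : ℝ) < d := by
    have : 0 < d := by omega
    exact_mod_cast this
  obtain ⟨i₁, i₂, i₃, h12, h23, h13, ⟨-, hE1⟩, ⟨-, hE2⟩⟩ := exists_path hd
    (fun i j => i ≠ j ∧ c₁ / (2 * d ^ 2) ≤ qq F lam s {(i, j)} (big {(i, j)})) (by
      intro I hI hI'
      by_contra hcon
      push Not at hcon
      have h1 : c₁ ≤ qq F lam s (cut I) 0 := by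
        rw [dF_cut hF hl hs, le_div_iff₀ hl]
        exact hcut I hI hI'
      have h2 := cut_le hF hl hs I
      have h3 := eAB_le hF hl hs I
      have h4 : eA F lam s I = qq F lam s (cut I) 0 - qq F lam s (cut I) (big (cut I)) := rfl
      have h5 : ∑ α ∈ cut I, qq F lam s {α} (big {α}) ≤
          ∑ _α ∈ cut I, c₁ / (2 * (d : ℝ) ^ 2) := by
        refine Finset.sum_le_sum fun α hα => ?_
        obtain ⟨i, j⟩ := α
        have hm := BSh.mem_cut.1 hα
        exact (hcon i hm.1 j hm.2 (fun h => hm.1 (h ▸ hm.2))).le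
      rw [Finset.sum_const, nsmul_eq_mul] at h5
      have h6 : ((cut I).card : ℝ) ≤ (d : ℝ) ^ 2 := by
        have h7 : (cut I).card ≤ Fintype.card (Fin d × Fin d) := Finset.card_le_univ _
        rw [Fintype.card_prod, Fintype.card_fin] at h7
        have h8 : ((cut I).card : ℝ) ≤ ((d * d : ℕ) : ℝ) := by exact_mod_cast h7
        rw [Nat.cast_mul] at h8
        rw [pow_two]
        exact h8
      have h9 : ((cut I).card : ℝ) * (c₁ / (2 * (d : ℝ) ^ 2)) ≤
          (d : ℝ) ^ 2 * (c₁ / (2 * (d : ℝ) ^ 2)) :=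
        mul_le_mul_of_nonneg_right h6 (by positivity)
      have h10 : (d : ℝ) ^ 2 * (c₁ / (2 * (d : ℝ) ^ 2)) = c₁ / 2 := by
        field_simp
      linarith)
  refine ⟨i₁, i₂, i₃, h12, h23, h13, ?_⟩
  have hC := (eC_le hF hl hs i₁ i₂ i₃).trans herr
  unfold eC at hC
  rw [if_pos ⟨h12, h23, h13⟩] at hC
  have hc1 := c₁_nonneg hF hl hs h12 h23 h13
  have hc2 := c₂_nonneg hF hl hs h12 h23 h13
  have q1 : ∀ β γ : ℝ, lam * qq F lam s {(i₁, i₂)} (ct i₁ i₂ i₃ 0 β γ) =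
      F (cs s + lam • ct i₁ i₂ i₃ 1 β γ) - F (cs s + lam • ct i₁ i₂ i₃ 0 β γ) := by
    intro β γ
    unfold qq
    rw [ct_add₁ h12 h23 h13, mul_div_cancel₀ _ hl.ne']
  have q2 : ∀ α γ : ℝ, lam * qq F lam s {(i₂, i₃)} (ct i₁ i₂ i₃ α 0 γ) =
      F (cs s + lam • ct i₁ i₂ i₃ α 1 γ) - F (cs s + lam • ct i₁ i₂ i₃ α 0 γ) := by
    intro α γ
    unfold qq
    rw [ct_add₂ h12 h23 h13, mul_div_cancel₀ _ hl.ne']
  have a1 : c₁ / (2 * (d : ℝ) ^ 2) ≤ qq F lam s {(i₁, i₂)} (ct i₁ i₂ i₃ 0 0 0) :=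
    hE1.trans (qq_anti hF (src_ct₁ h12 h23 h13).tgt (tgt_big h12) (ct_le_big₁ h12 h23 h13) hl hs)
  have a2 : c₁ / (2 * (d : ℝ) ^ 2) ≤ qq F lam s {(i₂, i₃)} (ct i₁ i₂ i₃ 0 0 0) :=
    hE2.trans (qq_anti hF (src_ct₂ h12 h23 h13).tgt (tgt_big h23) (ct_le_big₂ h12 h23 h13) hl hs)
  refine ⟨?_, ?_, ?_, ?_⟩
  · rw [← q1 0 0, mul_comm]
    exact mul_le_mul_of_nonneg_left a1 hl.le
  · rw [← q2 0 0, mul_comm]
    exact mul_le_mul_of_nonneg_left a2 hl.le
  · rw [← q1 0 0, ← q1 2 2, ← mul_sub, mul_comm ε' lam]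
    refine mul_le_mul_of_nonneg_left ?_ hl.le
    linarith
  · rw [← q2 0 0, ← q2 2 2, ← mul_sub, mul_comm ε' lam]
    refine mul_le_mul_of_nonneg_left ?_ hl.le
    linarith

theorem err_nonneg {F : (Fin d → Fin d → ℝ) → ℝ} (hF : EFun d F) {lam : ℝ} (hl : 0 < lam)
    {s : Fin d → ℝ} (hs : Pos 1 s) : 0 ≤ err F lam s := by
  rw [err_eq]
  have h1 := Finset.sum_nonneg (s := Finset.univ) fun (I : Finset (Fin d)) _ =>
    eA_nonneg hF hl hs I
  have h2 := Finset.sum_nonneg (s := Finset.univ) fun (I : Finset (Fin d)) _ =>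
    eB_nonneg hF hl hs I
  have h3 := sC_nonneg hF hl hs
  linarith

end Pool.Agent.Lib.P51n
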