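import Pool.Agent.Lib.P51n.BPlace

/-!
# P51n.BInt  (about 1.2 h)

Integer positions.  From `exists_place` (with `ε/2`) let `S ⊆ ℝ^n` be the set of measure `≥ δ`.  For
`T` large the cubes `(z + [0,1)^n)/T`, `z ∈ ℤ^n`, which meet `S` are at least `δ T^n` in number
(`S` is covered by them, each has volume `T^{-n}`; `S` is bounded so they are finitely many).  For
such a `z` put `σ = Fin.snoc z (T - ∑ z)`; then `|σ_j/T - posU u j| ≤ (n+1)/T` for some `u ∈ S`, so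
`σ_j/T ≥ η - (n+1)/T ≥ η/2`, and `Place` at `posU u` with `(c₂, ε/2)` gives `Place` at `σ/T` with
`(c₂/2, ε)` when `T` is large, because `F` is Lipschitz on admissible shapes (`lip` in both
directions; all shapes `cs s + lam • ct …` are admissible by `adm_add`, `tri_ct`).
-/

set_option autoImplicit false

noncomputable section

namespace Pool.Agent.Lib.P51n

open MeasureTheory

private theorem bint_lip {d : ℕ} {F : (Fin d → Fin d → ℝ) → ℝ} (hF : EFun d F) {s s' : Fin d → ℝ}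
    (hs : Pos 1 s) (hs' : Pos 1 s') {κ : ℝ} (h : ∀ j, |s' j - s j| ≤ κ) (hκ : 0 ≤ κ) {lam : ℝ}
    (hl : 0 ≤ lam) {c : Fin d → Fin d → ℝ} (hc : Tri c) (h0 : ∀ i j, 0 ≤ c i j) :
    |F (cs s' + lam • c) - F (cs s + lam • c)| ≤ d ^ 2 * (2 * κ) := by
  have h1 : ∀ i j, 0 ≤ (lam • c) i j := fun i j => mul_nonneg hl (h0 i j)
  have ha := adm_add hs (hc.smul hl) h1
  have ha' := adm_add hs' (hc.smul hl) h1
  have e1 := hF.lip (cs s + lam • c) (cs s' + lam • c) (2 * κ) ha ha' (by positivity)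
    (fun i j => by
      show (s' j - s' i) + (lam • c) i j ≤ (s j - s i) + (lam • c) i j + 2 * κ
      have a1 := abs_le.1 (h j)
      have a2 := abs_le.1 (h i)
      linarith)
  have e2 := hF.lip (cs s' + lam • c) (cs s + lam • c) (2 * κ) ha' ha (by positivity)
    (fun i j => by
      show (s j - s i) + (lam • c) i j ≤ (s' j - s' i) + (lam • c) i j + 2 * κ
      have a1 := abs_le.1 (h j)
      have a2 := abs_le.1 (h i)
      linarith)
  rw [abs_le]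
  constructor <;> linarith

private theorem bint_place {d : ℕ} {F : (Fin d → Fin d → ℝ) → ℝ} (hF : EFun d F)
    {i₁ i₂ i₃ : Fin d} (h12 : i₁ ≠ i₂) (h23 : i₂ ≠ i₃) (h13 : i₁ ≠ i₃) {s s' : Fin d → ℝ}
    (hs : Pos 1 s) (hs' : Pos 1 s') {κ : ℝ} (h : ∀ j, |s' j - s j| ≤ κ) (hκ : 0 ≤ κ)
    {c₂ ε lam : ℝ} (hl : 0 < lam) (h4 : 2 * (d ^ 2 * (2 * κ)) ≤ c₂ / 2 * lam)
    (h8 : 4 * (d ^ 2 * (2 * κ)) ≤ ε / 2 * lam) (hP : Place F i₁ i₂ i₃ c₂ (ε / 2) lam s) :
    Place F i₁ i₂ i₃ (c₂ / 2) ε lam s' := by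
  have key : ∀ α β γ : ℝ, 0 ≤ α → 0 ≤ β → 0 ≤ γ → α ≤ 8 → β ≤ 8 → γ ≤ α + β → γ ≤ 8 →
      |F (cs s' + lam • ct i₁ i₂ i₃ α β γ) - F (cs s + lam • ct i₁ i₂ i₃ α β γ)| ≤
        d ^ 2 * (2 * κ) := by
    intro α β γ a1 a2 a3 a4 a5 a6 a7
    exact bint_lip hF hs hs' h hκ hl.le (tri_ct h12 h23 h13 a1 a2 a3 a4 a5 a6 a7)
      (BSh.ct_nonneg a1 a2 a3)
  have k0 := abs_le.1 (key 0 0 0 le_rfl le_rfl le_rfl (by norm_num) (by norm_num) (by norm_num)
    (by norm_num))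
  have k1 := abs_le.1 (key 1 0 0 (by norm_num) le_rfl le_rfl (by norm_num) (by norm_num)
    (by norm_num) (by norm_num))
  have k2 := abs_le.1 (key 0 1 0 le_rfl (by norm_num) le_rfl (by norm_num) (by norm_num)
    (by norm_num) (by norm_num))
  have k3 := abs_le.1 (key 1 2 2 (by norm_num) (by norm_num) (by norm_num) (by norm_num)
    (by norm_num) (by norm_num) (by norm_num))
  have k4 := abs_le.1 (key 0 2 2 (by norm_num) (by norm_num) (by norm_num) (by norm_num)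
    (by norm_num) (by norm_num) (by norm_num))
  have k5 := abs_le.1 (key 2 1 2 (by norm_num) (by norm_num) (by norm_num) (by norm_num)
    (by norm_num) (by norm_num) (by norm_num))
  have k6 := abs_le.1 (key 2 0 2 (by norm_num) (by norm_num) (by norm_num) (by norm_num)
    (by norm_num) (by norm_num) (by norm_num))
  have p1 := hP.act₁
  have p2 := hP.act₂
  have p3 := hP.ind₁
  have p4 := hP.ind₂
  constructor <;> linarith [k0.1, k0.2, k1.1, k1.2, k2.1, k2.2, k3.1, k3.2, k4.1, k4.2, k5.1, k5.2,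
    k6.1, k6.2]

private theorem bint_sum_posU {n : ℕ} (u : Fin n → ℝ) : ∑ j, posU u j = 1 := by
  unfold posU
  rw [Fin.sum_univ_castSucc]
  simp

private theorem bint_count (n : ℕ) (S : Set (Fin n → ℝ)) (hS : ∀ u ∈ S, ∀ j, 0 ≤ u j ∧ u j ≤ 1)
    {δ : ℝ} (hδ : ENNReal.ofReal δ ≤ volume S) (hδ0 : 0 < δ) {T : ℕ} (hT : 0 < T) :
    ∃ Z : Finset (Fin n → ℤ), δ * (T : ℝ) ^ n ≤ Z.card ∧
      ∀ z ∈ Z, ∃ u ∈ S, ∀ j, (z j : ℝ) ≤ T * u j ∧ T * u j < z j + 1 := by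
  classical
  set f : (Fin n → ℝ) → (Fin n → ℤ) := fun u j => ⌊(T : ℝ) * u j⌋ with hf
  have hfin : (f '' S).Finite := by
    refine (Set.Finite.pi' (fun _ : Fin n => Set.finite_Icc (0 : ℤ) T)).subset ?_
    rintro _ ⟨u, hu, rfl⟩ j
    have h1 := hS u hu j
    have hT' : (0 : ℝ) < T := by exact_mod_cast hT
    constructor
    · exact Int.floor_nonneg.2 (mul_nonneg hT'.le h1.1)
    · have : (⌊(T : ℝ) * u j⌋ : ℝ) ≤ ((T : ℤ) : ℝ) := by
        refine (Int.floor_le _).trans ?_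
        push_cast
        nlinarith [h1.2]
      exact_mod_cast this
  refine ⟨hfin.toFinset, ?_, ?_⟩
  · have hT' : (0 : ℝ) < T := by exact_mod_cast hT
    set Q : (Fin n → ℤ) → Set (Fin n → ℝ) := fun z =>
      Set.pi Set.univ fun j => Set.Ico ((z j : ℝ) / T) (((z j : ℝ) + 1) / T) with hQ
    have hsub : S ⊆ ⋃ z ∈ hfin.toFinset, Q z := by
      intro u hu
      rw [Set.mem_iUnion₂]
      refine ⟨f u, hfin.mem_toFinset.2 ⟨u, hu, rfl⟩, ?_⟩
      rw [hQ, Set.mem_univ_pi]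
      intro j
      rw [Set.mem_Ico, div_le_iff₀ hT', lt_div_iff₀ hT', mul_comm (u j)]
      exact ⟨Int.floor_le _, Int.lt_floor_add_one _⟩
    have hvol : ∀ z, volume (Q z) = ENNReal.ofReal ((1 / (T : ℝ)) ^ n) := by
      intro z
      rw [hQ]
      simp only
      rw [Real.volume_pi_Ico]
      have : ∀ j : Fin n, ((z j : ℝ) + 1) / T - (z j : ℝ) / T = 1 / T := by
        intro j
        ring
      simp only [this]
      rw [Finset.prod_const, Finset.card_univ, Fintype.card_fin,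
        ENNReal.ofReal_pow (by positivity)]
    have h1 : ENNReal.ofReal δ ≤
        ENNReal.ofReal ((hfin.toFinset.card : ℝ) * (1 / (T : ℝ)) ^ n) := by
      calc ENNReal.ofReal δ ≤ volume S := hδ
        _ ≤ volume (⋃ z ∈ hfin.toFinset, Q z) := measure_mono hsub
        _ ≤ ∑ z ∈ hfin.toFinset, volume (Q z) := measure_biUnion_finset_le _ _
        _ = hfin.toFinset.card • ENNReal.ofReal ((1 / (T : ℝ)) ^ n) := by
          rw [Finset.sum_congr rfl fun z _ => hvol z, Finset.sum_const]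
        _ = _ := by
          rw [ENNReal.ofReal_mul (Nat.cast_nonneg _), ENNReal.ofReal_natCast, nsmul_eq_mul]
    have h2 := (ENNReal.ofReal_le_ofReal_iff (by positivity)).1 h1
    rw [one_div, inv_pow] at h2
    have h3 : (0 : ℝ) < (T : ℝ) ^ n := by positivity
    calc δ * (T : ℝ) ^ n ≤ (hfin.toFinset.card : ℝ) * ((T : ℝ) ^ n)⁻¹ * (T : ℝ) ^ n :=
          mul_le_mul_of_nonneg_right h2 h3.le
      _ = hfin.toFinset.card := by
          rw [mul_assoc, inv_mul_cancel₀ h3.ne', mul_one]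
  · intro z hz
    obtain ⟨u, hu, rfl⟩ := hfin.mem_toFinset.1 hz
    exact ⟨u, hu, fun j => ⟨Int.floor_le _, Int.lt_floor_add_one _⟩⟩

theorem exists_int_place (d : ℕ) (hd : 3 ≤ d) (F : (Fin d → Fin d → ℝ) → ℝ) (hF : EFun d F) :
    ∃ i₁ i₂ i₃ : Fin d, i₁ ≠ i₂ ∧ i₂ ≠ i₃ ∧ i₁ ≠ i₃ ∧
      ∃ c₂ δ η : ℝ, 0 < c₂ ∧ 0 < δ ∧ 0 < η ∧ ∀ ε : ℝ, 0 < ε → ∀ k₁ : ℕ, ∃ k : ℕ, k₁ ≤ k ∧
        ∃ T₀ : ℕ, ∀ T : ℕ, T₀ ≤ T → ∃ P : Finset (Fin d → ℤ),
          δ * (T : ℝ) ^ (d - 1) ≤ P.card ∧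
          ∀ σ ∈ P, ∑ j, σ j = (T : ℤ) ∧ (∀ j, η * T ≤ (σ j : ℝ)) ∧
            Place F i₁ i₂ i₃ c₂ ε ((1 / 2 : ℝ) ^ k) (fun j => (σ j : ℝ) / T) := by
  classical
  obtain ⟨n, rfl⟩ : ∃ n, d = n + 1 := ⟨d - 1, by omega⟩
  obtain ⟨i₁, i₂, i₃, h12, h23, h13, c₂, δ, η, hc₂, hδ, hη, hmain⟩ :=
    exists_place n (by omega) F hF
  refine ⟨i₁, i₂, i₃, h12, h23, h13, c₂ / 2, δ, η / 2, by positivity, hδ, by positivity,
    fun ε hε k₁ => ?_⟩
  obtain ⟨k, hk, hvol⟩ := hmain (ε / 2) (by positivity) k₁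
  refine ⟨k, hk, ?_⟩
  set lam : ℝ := (1 / 2 : ℝ) ^ k with hlam
  have hl : 0 < lam := by positivity
  -- the admissible error
  obtain ⟨κ₀, hκ₀, e1, e2, e3⟩ : ∃ κ₀ : ℝ, 0 < κ₀ ∧ κ₀ ≤ η / 2 ∧
      2 * (((n + 1 : ℕ) : ℝ) ^ 2 * (2 * κ₀)) ≤ c₂ / 2 * lam ∧
      4 * (((n + 1 : ℕ) : ℝ) ^ 2 * (2 * κ₀)) ≤ ε / 2 * lam := by
    have hD : (0 : ℝ) < ((n + 1 : ℕ) : ℝ) ^ 2 := by positivity
    refine ⟨min (η / 2) (min (c₂ * lam / (8 * ((n + 1 : ℕ) : ℝ) ^ 2))
      (ε * lam / (16 * ((n + 1 : ℕ) : ℝ) ^ 2))), by positivity, min_le_left _ _, ?_, ?_⟩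
    · have h1 : min (η / 2) (min (c₂ * lam / (8 * ((n + 1 : ℕ) : ℝ) ^ 2))
        (ε * lam / (16 * ((n + 1 : ℕ) : ℝ) ^ 2))) ≤ c₂ * lam / (8 * ((n + 1 : ℕ) : ℝ) ^ 2) :=
        (min_le_right _ _).trans (min_le_left _ _)
      rw [le_div_iff₀ (by positivity)] at h1
      linarith
    · have h1 : min (η / 2) (min (c₂ * lam / (8 * ((n + 1 : ℕ) : ℝ) ^ 2))
        (ε * lam / (16 * ((n + 1 : ℕ) : ℝ) ^ 2))) ≤ ε * lam / (16 * ((n + 1 : ℕ) : ℝ) ^ 2) :=
        (min_le_right _ _).trans (min_le_right _ _)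
      rw [le_div_iff₀ (by positivity)] at h1
      linarith
  refine ⟨⌈((n : ℝ) + 1) / κ₀⌉₊ + 1, fun T hT => ?_⟩
  have hT0 : 0 < T := by omega
  have hT' : (0 : ℝ) < T := by exact_mod_cast hT0
  have hκT : ((n : ℝ) + 1) / T ≤ κ₀ := by
    rw [div_le_iff₀ hT']
    have h1 : ((n : ℝ) + 1) / κ₀ ≤ T := by
      refine (Nat.le_ceil _).trans ?_
      exact_mod_cast (by omega : ⌈((n : ℝ) + 1) / κ₀⌉₊ ≤ T)
    rw [div_le_iff₀ hκ₀] at h1
    linarith
  have hposS : ∀ u : Fin n → ℝ, (∀ j, η ≤ posU u j) → Pos 1 (posU u) := by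
    intro u hu
    exact ⟨fun j => hη.le.trans (hu j), bint_sum_posU u⟩
  obtain ⟨Z, hZ, hZu⟩ := bint_count n {u : Fin n → ℝ | (∀ j, η ≤ posU u j) ∧
      Place F i₁ i₂ i₃ c₂ (ε / 2) lam (posU u)} (by
      rintro u ⟨hu, -⟩ j
      obtain ⟨p1, p2⟩ := hposS u hu
      have e : posU u j.castSucc = u j := by simp [posU]
      constructor
      · rw [← e]
        exact p1 _
      · rw [← e, ← p2]
        exact Finset.single_le_sum (fun i _ => p1 i) (Finset.mem_univ j.castSucc)) hvol hδ hT0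
  have hinj : Function.Injective fun z : Fin n → ℤ =>
      (Fin.snoc z ((T : ℤ) - ∑ j, z j) : Fin (n + 1) → ℤ) := by
    intro z z' h
    funext j
    have := congrFun h j.castSucc
    simpa using this
  refine ⟨Z.image fun z : Fin n → ℤ => (Fin.snoc z ((T : ℤ) - ∑ j, z j) : Fin (n + 1) → ℤ), ?_, ?_⟩
  · rw [Finset.card_image_of_injective _ hinj, Nat.add_sub_cancel]
    exact hZ
  · intro σ hσ
    obtain ⟨z, hz, rfl⟩ := Finset.mem_image.1 hσ
    obtain ⟨u, ⟨hu, hPl⟩, hzu⟩ := hZu z hz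
    set σ : Fin (n + 1) → ℤ := Fin.snoc z ((T : ℤ) - ∑ j, z j) with hσd
    have hsum : ∑ j, σ j = (T : ℤ) := by
      rw [Fin.sum_univ_castSucc, hσd]
      simp
    have hnear : ∀ j, |(σ j : ℝ) / T - posU u j| ≤ ((n : ℝ) + 1) / T := by
      intro j
      rw [le_div_iff₀ hT', ← abs_of_pos hT', ← abs_mul, abs_of_pos hT', sub_mul,
        div_mul_cancel₀ _ hT'.ne']
      refine Fin.lastCases ?_ (fun i => ?_) j
      · have e1 : (σ (Fin.last n) : ℝ) = T - ∑ j, (z j : ℝ) := by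
          rw [hσd, Fin.snoc_last]
          push_cast
          rfl
        have e2 : posU u (Fin.last n) = 1 - ∑ j, u j := by simp [posU]
        rw [e1, e2]
        have e3 : (T : ℝ) - ∑ j, (z j : ℝ) - (1 - ∑ j, u j) * T = ∑ j, (T * u j - z j) := by
          rw [Finset.sum_sub_distrib, ← Finset.mul_sum]
          ring
        rw [e3]
        refine (Finset.abs_sum_le_sum_abs _ _).trans ?_
        have e4 : ∑ j : Fin n, |(T : ℝ) * u j - z j| ≤ ∑ _j : Fin n, (1 : ℝ) := by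
          refine Finset.sum_le_sum fun j _ => ?_
          have := hzu j
          rw [abs_le]
          constructor <;> linarith [this.1, this.2]
        refine e4.trans ?_
        simp
      · have e1 : (σ i.castSucc : ℝ) = z i := by
          rw [hσd, Fin.snoc_castSucc]
        have e2 : posU u i.castSucc = u i := by simp [posU]
        rw [e1, e2, abs_le]
        have := hzu i
        have hn : (0 : ℝ) ≤ n := Nat.cast_nonneg n
        constructor <;> nlinarith [this.1, this.2]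
    have hnear' : ∀ j, |(σ j : ℝ) / T - posU u j| ≤ κ₀ := fun j => (hnear j).trans hκT
    have hlow : ∀ j, η / 2 ≤ (σ j : ℝ) / T := by
      intro j
      have h1 := abs_le.1 (hnear' j)
      have h2 := hu j
      linarith [h1.1]
    refine ⟨hsum, fun j => ?_, ?_⟩
    · have := hlow j
      rwa [le_div_iff₀ hT'] at this
    · refine bint_place hF h12 h23 h13 (hposS u hu) ⟨fun j => ?_, ?_⟩ hnear' hκ₀.le hl e2 e3 hPl
      · exact (by positivity : (0 : ℝ) ≤ η / 2).trans (hlow j)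
      · rw [← Finset.sum_div]
        have : (∑ j, (σ j : ℝ)) = T := by
          exact_mod_cast congrArg (fun x : ℤ => (x : ℝ)) hsum
        rw [this, div_self hT'.ne']

end Pool.Agent.Lib.P51n
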