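import Pool.Agent.Lib.P51n.BPush

/-!
# P51n.BL1

`L¹` convergence: the push costs from a source shape and from any larger target shape agree
asymptotically, in the mean over the positions, at the scales `2^{-k}`.

Weight `chi η u = max 0 (min_j posU u j - η)`: supported in the compact set `{∀ j, η ≤ posU u j}`;
`u ↦ qq F lam (posU u) R c` is continuous on the set `{∀ j, 0 ≤ posU u j}`.

Let `a_k = ∫ chi η u * qq F 2^{-k} (posU u) R c`, `b_k` the same with `c'`.  By `qq_anti`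
`0 ≤ b_k ≤ a_k ≤ C`.  The push inequality with `lam = 2^{-k}`, `K = 2^l` and integration give
`a_k ≤ b_{k+l} + C₁ 2^{-k} + C₂ 2^{-l}`, hence `a_k - b_k → 0`.
-/

set_option autoImplicit false

noncomputable section

namespace Pool.Agent.Lib.P51n

open MeasureTheory Filter Topology

/-- cut-off function -/
def chi {n : ℕ} (η : ℝ) (u : Fin n → ℝ) : ℝ := max 0 ((⨅ j, posU u j) - η)

namespace BL1Aux

variable {n : ℕ}

theorem sum_posU (u : Fin n → ℝ) : ∑ j, posU u j = 1 := by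
  rw [posU, Fin.sum_univ_castSucc]
  simp

theorem pos_posU {u : Fin n → ℝ} (h : ∀ j, 0 ≤ posU u j) : Pos 1 (posU u) := ⟨h, sum_posU u⟩

theorem continuous_posU (j : Fin (n + 1)) : Continuous fun u : Fin n → ℝ => posU u j := by
  refine Fin.lastCases ?_ (fun i => ?_) j
  · simp only [posU, Fin.snoc_last]
    fun_prop
  · simp only [posU, Fin.snoc_castSucc]
    fun_prop

theorem posU_add {u v : Fin n → ℝ} {w : Fin (n + 1) → ℝ} (hw : ∑ j, w j = 0) (t : ℝ)
    (hv : v = u + t • fun i : Fin n => w i.castSucc) : posU v = posU u + t • w := by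
  subst hv
  ext j
  refine Fin.lastCases ?_ (fun i => ?_) j
  · simp only [posU, Fin.snoc_last, Pi.add_apply, Pi.smul_apply, smul_eq_mul]
    rw [Fin.sum_univ_castSucc] at hw
    rw [Finset.sum_add_distrib, ← Finset.mul_sum]
    have : w (Fin.last n) = -∑ i : Fin n, w i.castSucc := by linarith
    rw [this]
    ring
  · simp only [posU, Fin.snoc_castSucc, Pi.add_apply, Pi.smul_apply, smul_eq_mul]

theorem chi_nonneg (η : ℝ) (u : Fin n → ℝ) : 0 ≤ chi η u := le_max_left _ _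

theorem bdd (x : Fin (n + 1) → ℝ) : BddBelow (Set.range x) := (Set.finite_range x).bddBelow

theorem chi_eq_zero {η : ℝ} {u : Fin n → ℝ} {j : Fin (n + 1)} (h : posU u j ≤ η) :
    chi η u = 0 := by
  rw [chi, max_eq_left]
  have := ciInf_le (bdd (posU u)) j
  linarith

theorem lt_of_chi {η : ℝ} {u : Fin n → ℝ} (h : chi η u ≠ 0) (j : Fin (n + 1)) :
    η < posU u j := by
  by_contra hc
  exact h (chi_eq_zero (not_lt.1 hc))

theorem chi_le {η δ : ℝ} (hδ : 0 ≤ δ) {u v : Fin n → ℝ} (h : ∀ j, posU u j ≤ posU v j + δ) :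
    chi η u ≤ chi η v + δ := by
  have h1 : (⨅ j, posU u j) - δ ≤ ⨅ j, posU v j := by
    refine le_ciInf fun j => ?_
    have := ciInf_le (bdd (posU u)) j
    linarith [h j]
  rw [chi, chi]
  refine max_le ?_ ?_
  · have := le_max_left 0 ((⨅ j, posU v j) - η)
    linarith
  · have := le_max_right 0 ((⨅ j, posU v j) - η)
    linarith

theorem mem_Icc {u : Fin n → ℝ} (h : ∀ j, 0 ≤ posU u j) : u ∈ Set.Icc (0 : Fin n → ℝ) 1 := by
  have h1 : ∀ i, 0 ≤ u i := by
    intro i
    have := h i.castSucc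
    simpa only [posU, Fin.snoc_castSucc] using this
  refine ⟨fun i => h1 i, fun i => ?_⟩
  have h2 := h (Fin.last n)
  simp only [posU, Fin.snoc_last] at h2
  have h3 : u i ≤ ∑ j, u j := Finset.single_le_sum (fun j _ => h1 j) (Finset.mem_univ i)
  simp only [Pi.one_apply]
  linarith

theorem le_one_of {u : Fin n → ℝ} (h : ∀ j, 0 ≤ posU u j) (j : Fin (n + 1)) : posU u j ≤ 1 := by
  rw [← sum_posU u]
  exact Finset.single_le_sum (fun i _ => h i) (Finset.mem_univ j)

theorem support_chi {η : ℝ} (hη : 0 ≤ η) :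
    Function.support (chi η : (Fin n → ℝ) → ℝ) ⊆ Set.Icc (0 : Fin n → ℝ) 1 := by
  intro u hu
  exact mem_Icc fun j => hη.trans (lt_of_chi hu j).le

end BL1Aux

open BL1Aux

theorem continuous_chi {n : ℕ} (η : ℝ) : Continuous (chi η : (Fin n → ℝ) → ℝ) := by
  have h1 : Continuous fun u : Fin n → ℝ => ⨅ j, posU u j := by
    have h2 : (fun u : Fin n → ℝ => ⨅ j, posU u j) =
        fun u => Finset.univ.inf' Finset.univ_nonempty (posU u) := by
      ext u
      exact (Finset.inf'_univ_eq_ciInf _).symm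
    rw [h2]
    exact Continuous.finset_inf'_apply _ fun j _ => continuous_posU j
  unfold chi
  fun_prop

theorem hasCompactSupport_chi {n : ℕ} {η : ℝ} (hη : 0 < η) :
    HasCompactSupport (chi η : (Fin n → ℝ) → ℝ) :=
  HasCompactSupport.of_support_subset_isCompact isCompact_Icc (support_chi hη.le)

namespace BL1Aux

variable {n : ℕ} {F : (Fin (n + 1) → Fin (n + 1) → ℝ) → ℝ}

/-- continuity of one term -/
theorem contWithin (hF : EFun (n + 1) F) {c : Fin (n + 1) → Fin (n + 1) → ℝ} (hc : Tri c)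
    (h0 : ∀ i j, 0 ≤ c i j) :
    ContinuousOn (fun u : Fin n → ℝ => F (cs (posU u) + c)) {u | ∀ j, 0 ≤ posU u j} := by
  intro u hu
  have hA : ∀ v : Fin n → ℝ, (∀ j, 0 ≤ posU v j) → Adm 1 (cs (posU v) + c) := fun v hv =>
    adm_add (pos_posU hv) hc h0
  set D : ℝ := (((n + 1 : ℕ) : ℝ)) ^ 2 with hD
  have hD0 : 0 < D := by positivity
  rw [ContinuousWithinAt, Metric.tendsto_nhdsWithin_nhds]
  intro ε hε
  have hcont : ∀ i j : Fin (n + 1), ∃ δ > 0, ∀ v : Fin n → ℝ, dist v u < δ →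
      |cs (posU v) i j - cs (posU u) i j| < ε / (2 * D) := by
    intro i j
    have hc' : Continuous fun v : Fin n → ℝ => cs (posU v) i j := by
      unfold cs
      exact (continuous_posU j).sub (continuous_posU i)
    obtain ⟨δ, hδ, h⟩ := Metric.continuous_iff.1 hc' u (ε / (2 * D)) (by positivity)
    exact ⟨δ, hδ, fun v hv => by simpa [Real.dist_eq] using h v hv⟩
  choose δ hδ h using hcont
  obtain ⟨δ₀, hδ₀, hle⟩ : ∃ δ₀ > 0, ∀ i j, δ₀ ≤ δ i j := by
    have hne : (Finset.univ : Finset (Fin (n + 1) × Fin (n + 1))).Nonempty := Finset.univ_nonempty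
    obtain ⟨z, _, hz⟩ := Finset.exists_min_image Finset.univ
      (fun z : Fin (n + 1) × Fin (n + 1) => δ z.1 z.2) hne
    exact ⟨δ z.1 z.2, hδ _ _, fun i j => hz (i, j) (Finset.mem_univ _)⟩
  refine ⟨δ₀, hδ₀, fun {v} hv hvu => ?_⟩
  rw [Real.dist_eq]
  have h1 : ∀ i j, |cs (posU v) i j - cs (posU u) i j| ≤ ε / (2 * D) := fun i j =>
    (h i j v (lt_of_lt_of_le hvu (hle i j))).le
  have hpos : 0 ≤ ε / (2 * D) := by positivity
  have h2 := hF.lip (cs (posU u) + c) (cs (posU v) + c) (ε / (2 * D)) (hA u hu) (hA v hv) hpos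
    (fun i j => by
      have := (abs_le.1 (h1 i j)).2
      simp only [Pi.add_apply]
      linarith)
  have h3 := hF.lip (cs (posU v) + c) (cs (posU u) + c) (ε / (2 * D)) (hA v hv) (hA u hu) hpos
    (fun i j => by
      have := (abs_le.1 (h1 i j)).1
      simp only [Pi.add_apply]
      linarith)
  rw [← hD] at h2 h3
  have h4 : D * (ε / (2 * D)) = ε / 2 := by field_simp
  rw [h4] at h2 h3
  rw [abs_lt]
  constructor <;> linarith

theorem contQ (hF : EFun (n + 1) F) {R : Finset (Fin (n + 1) × Fin (n + 1))}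
    {c : Fin (n + 1) → Fin (n + 1) → ℝ} (hT : Tgt R c) {lam : ℝ} (hl : 0 < lam) :
    ContinuousOn (fun u : Fin n → ℝ => qq F lam (posU u) R c) {u | ∀ j, 0 ≤ posU u j} := by
  unfold qq
  refine ContinuousOn.div_const (ContinuousOn.sub ?_ ?_) _
  · refine contWithin hF (hT.tri'.smul hl.le) fun i j => ?_
    simp only [Pi.smul_apply, Pi.add_apply, smul_eq_mul]
    refine mul_nonneg hl.le (add_nonneg (hT.nonneg i j) ?_)
    unfold ind
    split_ifs <;> norm_num
  · refine contWithin hF (hT.tri.smul hl.le) fun i j => ?_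
    simp only [Pi.smul_apply, smul_eq_mul]
    exact mul_nonneg hl.le (hT.nonneg i j)

theorem cont_mul (hF : EFun (n + 1) F) {R : Finset (Fin (n + 1) × Fin (n + 1))}
    {c : Fin (n + 1) → Fin (n + 1) → ℝ} (hT : Tgt R c) {lam : ℝ} (hl : 0 < lam)
    (h : (Fin n → ℝ) → ℝ) (hc : Continuous h) {η : ℝ} (hη : 0 < η)
    (hz : ∀ v, (∃ j, posU v j < η) → h v = 0) :
    Continuous (fun u : Fin n → ℝ => h u * qq F lam (posU u) R c) := by
  rw [continuous_iff_continuousAt]
  intro u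
  by_cases hu : ∀ j, 0 < posU u j
  · refine hc.continuousAt.mul ?_
    refine ContinuousOn.continuousAt (contQ hF hT hl) ?_
    have hopen : IsOpen {v : Fin n → ℝ | ∀ j, 0 < posU v j} := by
      have : {v : Fin n → ℝ | ∀ j, 0 < posU v j} = ⋂ j, {v | 0 < posU v j} := by
        ext v; simp
      rw [this]
      exact isOpen_iInter_of_finite fun j => isOpen_lt continuous_const (continuous_posU j)
    exact mem_of_superset (hopen.mem_nhds hu) fun v hv j => (hv j).le
  · push Not at hu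
    obtain ⟨j, hj⟩ := hu
    have hopen : IsOpen {v : Fin n → ℝ | posU v j < η} :=
      isOpen_lt (continuous_posU j) continuous_const
    have hmem : {v : Fin n → ℝ | posU v j < η} ∈ 𝓝 u :=
      hopen.mem_nhds (lt_of_le_of_lt hj hη)
    have heq : (fun v : Fin n → ℝ => h v * qq F lam (posU v) R c) =ᶠ[𝓝 u] fun _ => 0 := by
      filter_upwards [hmem] with v hv
      rw [hz v ⟨j, hv⟩, zero_mul]
    exact ContinuousAt.congr continuousAt_const heq.symm

end BL1Aux

theorem continuous_chi_qq {n : ℕ} {F : (Fin (n + 1) → Fin (n + 1) → ℝ) → ℝ}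
    (hF : EFun (n + 1) F) {R : Finset (Fin (n + 1) × Fin (n + 1))}
    {c : Fin (n + 1) → Fin (n + 1) → ℝ} (hT : Tgt R c) {η : ℝ} (hη : 0 < η) {lam : ℝ}
    (hl : 0 < lam) : Continuous (fun u : Fin n → ℝ => chi η u * qq F lam (posU u) R c) :=
  cont_mul hF hT hl (chi η) (continuous_chi η) hη fun _ ⟨_, hj⟩ => chi_eq_zero hj.le

namespace BL1Aux

theorem squeeze_lem (a b e f : ℕ → ℝ) {C : ℝ} (h0 : ∀ k, 0 ≤ b k) (hba : ∀ k, b k ≤ a k)
    (hC : ∀ k, a k ≤ C) (he : Tendsto e atTop (𝓝 0)) (hf : Tendsto f atTop (𝓝 0)) (k₀ : ℕ)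
    (h : ∀ k, k₀ ≤ k → ∀ l, a k ≤ b (k + l) + e k + f l) :
    Tendsto (fun k => a k - b k) atTop (𝓝 0) := by
  set β := liminf b atTop with hβ
  have hb1 : IsBoundedUnder (· ≥ ·) atTop b := isBoundedUnder_of ⟨0, h0⟩
  have hb2 : IsCoboundedUnder (· ≥ ·) atTop b :=
    (isBoundedUnder_of (r := (· ≤ ·)) ⟨C, fun k => (hba k).trans (hC k)⟩).isCoboundedUnder_ge
  have key : ∀ k, k₀ ≤ k → a k ≤ β + e k := by
    intro k hk
    refine le_of_forall_pos_le_add fun ε hε => ?_
    have h1 : ∃ᶠ m in atTop, b m < β + ε / 2 :=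
      frequently_lt_of_liminf_lt hb2 (by rw [← hβ]; linarith)
    have h2 : ∀ᶠ l in atTop, f l < ε / 2 := hf.eventually_lt_const (by linarith)
    have h3 : ∀ᶠ m in atTop, k ≤ m ∧ f (m - k) < ε / 2 :=
      (eventually_ge_atTop k).and ((tendsto_sub_atTop_nat k).eventually h2)
    obtain ⟨m, hm1, hm2, hm3⟩ := (h1.and_eventually h3).exists
    have := h k hk (m - k)
    rw [Nat.add_sub_cancel' hm2] at this
    linarith
  have hlow : ∀ ε > 0, ∀ᶠ k in atTop, β - ε < b k := fun ε hε =>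
    eventually_lt_of_lt_liminf (by rw [← hβ]; linarith) hb1
  rw [Metric.tendsto_nhds]
  intro ε hε
  filter_upwards [hlow (ε / 2) (by linarith), he.eventually_lt_const (show (0 : ℝ) < ε / 2 by linarith),
    eventually_ge_atTop k₀] with k h1 h2 h3
  have h4 := key k h3
  rw [Real.dist_eq, sub_zero, abs_of_nonneg (by linarith [hba k])]
  linarith

variable {n : ℕ} {F : (Fin (n + 1) → Fin (n + 1) → ℝ) → ℝ}

theorem integrable_mul (hF : EFun (n + 1) F) {R : Finset (Fin (n + 1) × Fin (n + 1))}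
    {c : Fin (n + 1) → Fin (n + 1) → ℝ} (hT : Tgt R c) {lam : ℝ} (hl : 0 < lam)
    (h : (Fin n → ℝ) → ℝ) (hc : Continuous h) {η : ℝ} (hη : 0 < η)
    (hz : ∀ v, (∃ j, posU v j < η) → h v = 0) :
    Integrable (fun u : Fin n → ℝ => h u * qq F lam (posU u) R c) := by
  refine (cont_mul hF hT hl h hc hη hz).integrable_of_hasCompactSupport ?_
  refine HasCompactSupport.of_support_subset_isCompact (isCompact_Icc (a := (0 : Fin n → ℝ)) (b := 1)) ?_
  intro u hu
  refine mem_Icc fun j => ?_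
  by_contra hj
  exact hu (by simp only [hz u ⟨j, (not_le.1 hj).trans hη⟩, zero_mul])

/-- one shifted term -/
theorem shift (hF : EFun (n + 1) F) {R : Finset (Fin (n + 1) × Fin (n + 1))}
    {w : Fin (n + 1) → ℝ} (hw : ∑ j, w j = 0) {W : ℝ} (hW : ∀ j, |w j| ≤ W)
    {c : Fin (n + 1) → Fin (n + 1) → ℝ} (hT : Tgt R c) {η : ℝ} (hη : 0 < η)
    {mu : ℝ} (hmu : 0 < mu) {t : ℝ} (ht : 0 ≤ t) (htW : t * W ≤ η / 2) :
    Integrable (fun u : Fin n → ℝ => chi η u * qq F mu (posU u + t • w) R c) ∧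
    ∫ u : Fin n → ℝ, chi η u * qq F mu (posU u + t • w) R c ≤
      (∫ u : Fin n → ℝ, chi η u * qq F mu (posU u) R c) +
        t * W * ((n + 1 : ℕ) : ℝ) ^ 2 * (volume (Set.Icc (0 : Fin n → ℝ) 1)).toReal := by
  have hW0 : 0 ≤ W := (abs_nonneg _).trans (hW (Fin.last n))
  set x : Fin n → ℝ := t • fun i : Fin n => w i.castSucc with hx
  have hpos : ∀ u : Fin n → ℝ, posU (u + x) = posU u + t • w := fun u => posU_add hw t rfl
  have hpos' : ∀ u : Fin n → ℝ, ∀ j, posU u j = posU (u - x) j + t * w j := by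
    intro u j
    have := congrFun (hpos (u - x)) j
    rw [sub_add_cancel] at this
    simpa using this
  have htw : ∀ j, |t * w j| ≤ t * W := fun j => by
    rw [abs_mul, abs_of_nonneg ht]
    exact mul_le_mul_of_nonneg_left (hW j) ht
  have hz : ∀ v : Fin n → ℝ, (∃ j, posU v j < η / 2) → chi η (v - x) = 0 := by
    rintro v ⟨j, hj⟩
    refine chi_eq_zero (j := j) ?_
    have h1 := hpos' v j
    have h2 := (abs_le.1 (htw j)).1
    linarith
  have hint := integrable_mul hF hT hmu (fun v => chi η (v - x))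
    ((continuous_chi η).comp (continuous_id.sub continuous_const)) (half_pos hη) hz
  have hfun : (fun u : Fin n → ℝ => chi η u * qq F mu (posU u + t • w) R c) =
      fun u => (fun v => chi η (v - x) * qq F mu (posU v) R c) (u + x) := by
    ext u
    simp only [add_sub_cancel_right, hpos]
  refine ⟨?_, ?_⟩
  · rw [hfun]
    exact hint.comp_add_right x
  · rw [hfun, integral_add_right_eq_self (fun v => chi η (v - x) * qq F mu (posU v) R c) x]
    have hint2 : Integrable (fun v : Fin n → ℝ => chi η v * qq F mu (posU v) R c) :=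
      integrable_mul hF hT hmu (chi η) (continuous_chi η) hη fun _ ⟨_, hj⟩ => chi_eq_zero hj.le
    have hind : Integrable ((Set.Icc (0 : Fin n → ℝ) 1).indicator
        fun _ => t * W * ((n + 1 : ℕ) : ℝ) ^ 2) := by
      rw [integrable_indicator_iff measurableSet_Icc]
      exact integrableOn_const (isCompact_Icc.measure_lt_top.ne)
    have hI : ∫ v : Fin n → ℝ, (Set.Icc (0 : Fin n → ℝ) 1).indicator
        (fun _ => t * W * ((n + 1 : ℕ) : ℝ) ^ 2) v =
        t * W * ((n + 1 : ℕ) : ℝ) ^ 2 * (volume (Set.Icc (0 : Fin n → ℝ) 1)).toReal := by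
      rw [integral_indicator measurableSet_Icc, setIntegral_const, smul_eq_mul, mul_comm]
      rfl
    rw [← hI, ← integral_add hint2 hind]
    refine integral_mono hint (hint2.add hind) fun v => ?_
    by_cases hv : ∀ j, 0 ≤ posU v j
    · have hq0 := qq_nonneg hF hT hmu (pos_posU hv)
      have hq1 := qq_le hF hT hmu (pos_posU hv)
      rw [Set.indicator_of_mem (mem_Icc hv)]
      have hchi : chi η (v - x) ≤ chi η v + t * W := by
        refine chi_le (by positivity) fun j => ?_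
        have h1 := hpos' v j
        have h2 := (abs_le.1 (htw j)).1
        linarith
      have h3 : chi η (v - x) * qq F mu (posU v) R c ≤
          (chi η v + t * W) * qq F mu (posU v) R c := mul_le_mul_of_nonneg_right hchi hq0
      have h4 : t * W * qq F mu (posU v) R c ≤ t * W * ((n + 1 : ℕ) : ℝ) ^ 2 :=
        mul_le_mul_of_nonneg_left hq1 (by positivity)
      linarith
    · push Not at hv
      obtain ⟨j, hj⟩ := hv
      rw [hz v ⟨j, by linarith⟩, chi_eq_zero (j := j) (by linarith), zero_mul, zero_add]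
      exact Set.indicator_nonneg (fun _ _ => by positivity) _

end BL1Aux

theorem push_L1 {n : ℕ} {F : (Fin (n + 1) → Fin (n + 1) → ℝ) → ℝ} (hF : EFun (n + 1) F)
    {R : Finset (Fin (n + 1) × Fin (n + 1))} {w : Fin (n + 1) → ℝ}
    {c c' : Fin (n + 1) → Fin (n + 1) → ℝ} (hS : Src R w c) (hT : Tgt R c') (hcc : c ≤ c')
    {η : ℝ} (hη : 0 < η) :
    Tendsto (fun k : ℕ => ∫ u : Fin n → ℝ, chi η u *
      (qq F ((1 / 2 : ℝ) ^ k) (posU u) R c - qq F ((1 / 2 : ℝ) ^ k) (posU u) R c')) atTop (𝓝 0) := by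
  have hT0 : Tgt R c := hS.tgt
  obtain ⟨W, hW⟩ : ∃ W : ℝ, ∀ j, |w j| ≤ W := by
    refine ⟨∑ j, |w j|, fun j => Finset.single_le_sum (f := fun j => |w j|)
      (fun i _ => abs_nonneg _) (Finset.mem_univ j)⟩
  have hW0 : 0 ≤ W := (abs_nonneg _).trans (hW (Fin.last n))
  obtain ⟨M, hM0, hM⟩ : ∃ M : ℝ, 0 ≤ M ∧ ∀ i j, c' i j ≤ M := by
    refine ⟨∑ z : Fin (n + 1) × Fin (n + 1), |c' z.1 z.2|, by positivity, fun i j => ?_⟩
    refine (le_abs_self _).trans ?_
    exact Finset.single_le_sum (f := fun z : Fin (n + 1) × Fin (n + 1) => |c' z.1 z.2|)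
      (fun i _ => abs_nonneg _) (Finset.mem_univ (i, j))
  set D : ℝ := ((n + 1 : ℕ) : ℝ) ^ 2 with hD
  have hD0 : 0 < D := by positivity
  set V : ℝ := (volume (Set.Icc (0 : Fin n → ℝ) 1)).toReal with hV
  have hV0 : 0 ≤ V := ENNReal.toReal_nonneg
  have hlam : ∀ k : ℕ, (0 : ℝ) < (1 / 2 : ℝ) ^ k := fun k => by positivity
  have hchiI : Integrable (chi η : (Fin n → ℝ) → ℝ) :=
    (continuous_chi η).integrable_of_hasCompactSupport (hasCompactSupport_chi hη)
  set X : ℝ := ∫ u : Fin n → ℝ, chi η u with hX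
  have hX0 : 0 ≤ X := integral_nonneg fun u => chi_nonneg η u
  have hI : ∀ k : ℕ, Integrable fun u : Fin n → ℝ => chi η u * qq F ((1 / 2 : ℝ) ^ k) (posU u) R c :=
    fun k => integrable_mul hF hT0 (hlam k) (chi η) (continuous_chi η) hη
      fun _ ⟨_, hj⟩ => chi_eq_zero hj.le
  have hI' : ∀ k : ℕ,
      Integrable fun u : Fin n → ℝ => chi η u * qq F ((1 / 2 : ℝ) ^ k) (posU u) R c' :=
    fun k => integrable_mul hF hT (hlam k) (chi η) (continuous_chi η) hη
      fun _ ⟨_, hj⟩ => chi_eq_zero hj.le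
  have hcase : ∀ u : Fin n → ℝ, chi η u = 0 ∨ (0 < chi η u ∧ ∀ j, η < posU u j) := by
    intro u
    by_cases h : chi η u = 0
    · exact Or.inl h
    · exact Or.inr ⟨lt_of_le_of_ne (chi_nonneg η u) (Ne.symm h), fun j => lt_of_chi h j⟩
  set a : ℕ → ℝ := fun k => ∫ u : Fin n → ℝ, chi η u * qq F ((1 / 2 : ℝ) ^ k) (posU u) R c with ha
  set b : ℕ → ℝ := fun k => ∫ u : Fin n → ℝ, chi η u * qq F ((1 / 2 : ℝ) ^ k) (posU u) R c' with hb
  have hgoal : (fun k : ℕ => ∫ u : Fin n → ℝ, chi η u *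
      (qq F ((1 / 2 : ℝ) ^ k) (posU u) R c - qq F ((1 / 2 : ℝ) ^ k) (posU u) R c')) =
      fun k => a k - b k := by
    ext k
    rw [ha, hb, ← integral_sub (hI k) (hI' k)]
    simp only [mul_sub]
  rw [hgoal]
  have hb0 : ∀ k, 0 ≤ b k := by
    intro k
    refine integral_nonneg fun u => ?_
    rcases hcase u with h | ⟨h, hp⟩
    · simp only [h, zero_mul, Pi.zero_apply, le_refl]
    · exact mul_nonneg h.le (qq_nonneg hF hT (hlam k) (pos_posU fun j => (hη.trans (hp j)).le))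
  have hba : ∀ k, b k ≤ a k := by
    intro k
    refine integral_mono (hI' k) (hI k) fun u => ?_
    rcases hcase u with h | ⟨h, hp⟩
    · simp only [h, zero_mul, le_refl]
    · exact mul_le_mul_of_nonneg_left
        (qq_anti hF hT0 hT hcc (hlam k) (pos_posU fun j => (hη.trans (hp j)).le)) h.le
  have haC : ∀ k, a k ≤ D * X := by
    intro k
    rw [hX, ← integral_const_mul]
    refine integral_mono (hI k) (hchiI.const_mul D) fun u => ?_
    rcases hcase u with h | ⟨h, hp⟩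
    · simp only [h, zero_mul, mul_zero, le_refl]
    · simp only
      rw [mul_comm D]
      exact mul_le_mul_of_nonneg_left
        (qq_le hF hT0 (hlam k) (pos_posU fun j => (hη.trans (hp j)).le)) h.le
  have hhalf : Tendsto (fun k : ℕ => (1 / 2 : ℝ) ^ k) atTop (𝓝 0) :=
    tendsto_pow_atTop_nhds_zero_of_lt_one (by norm_num) (by norm_num)
  obtain ⟨k₀, hk₀⟩ : ∃ k₀ : ℕ, ∀ k, k₀ ≤ k → (1 / 2 : ℝ) ^ k * W ≤ η / 2 := by
    have h1 : Tendsto (fun k : ℕ => (1 / 2 : ℝ) ^ k * W) atTop (𝓝 (0 * W)) := hhalf.mul_const W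
    rw [zero_mul] at h1
    obtain ⟨k₀, h⟩ := eventually_atTop.1 (h1.eventually_le_const (half_pos hη))
    exact ⟨k₀, h⟩
  refine squeeze_lem a b (fun k => (W * D * V) * (1 / 2 : ℝ) ^ k)
    (fun l => (D * M * X) * (1 / 2 : ℝ) ^ l) hb0 hba haC ?_ ?_ k₀ ?_
  · simpa using hhalf.const_mul (W * D * V)
  · simpa using hhalf.const_mul (D * M * X)
  intro k hk l
  set K : ℕ := 2 ^ l with hK
  have hK1 : 1 ≤ K := Nat.one_le_two_pow
  have hKpos : (0 : ℝ) < K := by exact_mod_cast hK1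
  have hmu : (1 / 2 : ℝ) ^ k / K = (1 / 2 : ℝ) ^ (k + l) := by
    rw [hK, pow_add]
    push_cast
    rw [one_div, inv_pow, inv_pow, div_eq_mul_inv]
  have hKl : 1 / (K : ℝ) = (1 / 2 : ℝ) ^ l := by
    rw [hK]
    push_cast
    rw [one_div, one_div, inv_pow]
  have ht : ∀ j : ℕ, j ≤ K → 0 ≤ (j : ℝ) * (1 / 2 : ℝ) ^ (k + l) ∧
      (j : ℝ) * (1 / 2 : ℝ) ^ (k + l) ≤ (1 / 2 : ℝ) ^ k := by
    intro j hj
    refine ⟨by positivity, ?_⟩
    rw [← hmu]
    have hj' : (j : ℝ) ≤ K := by exact_mod_cast hj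
    calc (j : ℝ) * ((1 / 2 : ℝ) ^ k / K) ≤ K * ((1 / 2 : ℝ) ^ k / K) :=
          mul_le_mul_of_nonneg_right hj' (by positivity)
      _ = (1 / 2 : ℝ) ^ k := by field_simp
  have htW : ∀ j : ℕ, j ≤ K → (j : ℝ) * (1 / 2 : ℝ) ^ (k + l) * W ≤ η / 2 := fun j hj =>
    (mul_le_mul_of_nonneg_right (ht j hj).2 hW0).trans (hk₀ k hk)
  have hsh : ∀ j ∈ Finset.range K, _ := fun j hj =>
    shift hF hS.sum_w hW hT hη (hlam (k + l)) (ht j (Finset.mem_range.1 hj).le).1
      (htW j (Finset.mem_range.1 hj).le)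
  have hpush : ∀ u : Fin n → ℝ, chi η u * qq F ((1 / 2 : ℝ) ^ k) (posU u) R c ≤
      (1 / 2 : ℝ) ^ l * ∑ j ∈ Finset.range K, chi η u *
        qq F ((1 / 2 : ℝ) ^ (k + l)) (posU u + ((j : ℝ) * (1 / 2 : ℝ) ^ (k + l)) • w) R c' +
        (D * M * (1 / 2 : ℝ) ^ l) * chi η u := by
    intro u
    rcases hcase u with h | ⟨h, hp⟩
    · simp only [h, zero_mul, mul_zero, Finset.sum_const_zero, add_zero, le_refl]
    · have h1 := push hF hS hT hM (hlam k) hK1 (s := posU u) (fun j hj => by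
        rw [hmu]
        refine ⟨fun i => ?_, ?_⟩
        · simp only [Pi.add_apply, Pi.smul_apply, smul_eq_mul]
          have h2 := hp i
          have h3 := (abs_le.1 (hW i)).1
          have h4 := (ht j hj).1
          have h5 := mul_le_mul_of_nonneg_left h3 h4
          have h6 := htW j hj
          linarith
        · simp only [Pi.add_apply, Pi.smul_apply, smul_eq_mul]
          rw [Finset.sum_add_distrib, ← Finset.mul_sum, hS.sum_w, mul_zero, add_zero, sum_posU])
      rw [hmu, hKl, ← hD] at h1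
      have h7 := mul_le_mul_of_nonneg_left h1 h.le
      refine h7.trans (le_of_eq ?_)
      rw [← Finset.mul_sum, div_eq_mul_one_div (D * M), hKl]
      ring
  have hint : Integrable fun u : Fin n → ℝ => (1 / 2 : ℝ) ^ l * ∑ j ∈ Finset.range K, chi η u *
        qq F ((1 / 2 : ℝ) ^ (k + l)) (posU u + ((j : ℝ) * (1 / 2 : ℝ) ^ (k + l)) • w) R c' :=
    (integrable_finsetSum _ fun j hj => (hsh j hj).1).const_mul _
  have h8 : a k ≤ (∫ u : Fin n → ℝ, (1 / 2 : ℝ) ^ l * ∑ j ∈ Finset.range K, chi η u *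
        qq F ((1 / 2 : ℝ) ^ (k + l)) (posU u + ((j : ℝ) * (1 / 2 : ℝ) ^ (k + l)) • w) R c') +
        (D * M * (1 / 2 : ℝ) ^ l) * X := by
    rw [hX, ← integral_const_mul, ← integral_add hint (hchiI.const_mul _)]
    exact integral_mono (hI k) (hint.add (hchiI.const_mul _)) hpush
  rw [integral_const_mul, integral_finsetSum _ fun j hj => (hsh j hj).1] at h8
  have h9 : ∑ j ∈ Finset.range K, ∫ u : Fin n → ℝ, chi η u *
        qq F ((1 / 2 : ℝ) ^ (k + l)) (posU u + ((j : ℝ) * (1 / 2 : ℝ) ^ (k + l)) • w) R c' ≤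
      ∑ _j ∈ Finset.range K, (b (k + l) + W * D * V * (1 / 2 : ℝ) ^ k) := by
    refine Finset.sum_le_sum fun j hj => ?_
    refine (hsh j hj).2.trans ?_
    refine add_le_add (le_of_eq rfl) ?_
    have h10 := (ht j (Finset.mem_range.1 hj).le).2
    calc (j : ℝ) * (1 / 2 : ℝ) ^ (k + l) * W * D * V
        = ((j : ℝ) * (1 / 2 : ℝ) ^ (k + l)) * (W * D * V) := by ring
      _ ≤ (1 / 2 : ℝ) ^ k * (W * D * V) := mul_le_mul_of_nonneg_right h10 (by positivity)
      _ = W * D * V * (1 / 2 : ℝ) ^ k := by ring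
  rw [Finset.sum_const, Finset.card_range, nsmul_eq_mul] at h9
  have h11 := mul_le_mul_of_nonneg_left h9 (hlam l).le
  have h12 : (1 / 2 : ℝ) ^ l * (K * (b (k + l) + W * D * V * (1 / 2 : ℝ) ^ k)) =
      b (k + l) + W * D * V * (1 / 2 : ℝ) ^ k := by
    rw [← hKl]
    field_simp
  rw [h12] at h11
  have h13 : D * M * (1 / 2 : ℝ) ^ l * X = (D * M * X) * (1 / 2 : ℝ) ^ l := by ring
  rw [h13] at h8
  linarith

end Pool.Agent.Lib.P51n
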