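import Pool.Agent.Lib.P51n.BSard
import Pool.Agent.Lib.P51n.BL1
import Pool.Agent.Lib.P51n.BCut

/-!
# P51n.BPlace  (about 1.5 h)

Good places have positive measure at arbitrarily small scales.

From `exists_regular`: `c₁, η, k₀` and the set `P` of positive measure.  `err` is a finite sum of
differences as in `push_L1`, so `∫ chi (η/2) u * err F 2^{-k} (posU u) → 0`; on `P`,
`chi (η/2) u ≥ η/2`, so by Markov's inequality for large `k` the set
`{u ∈ P : err F 2^{-k} (posU u) ≤ min ε (c₁/4)}` has measure at least `vol(P)/2` (`vol P < ∞`, `P` is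
bounded).  For `k` large all `posU u + 2^{-k} cen (indI I)` are in the simplex for `u ∈ P`.  By
`exists_triple` the latter set is covered by the finitely many sets
`{u : Place i₁ i₂ i₃ …}`, so for every `ε` and `k₁` there is a `k ≥ k₁` and a triple whose set has
measure `≥ δ := vol(P)/(2 d³)`.  The triple depends on `(ε, k₁)`; by the
pigeonhole principle one triple works for a cofinal set of pairs (use `ε = 1/N`, `k₁ = N`,
`N → ∞`, and monotonicity of `Place` in `ε`), hence for all.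
(All sets: use the outer measure `volume` of arbitrary sets, `measure_iUnion_le`, or prove
measurability from `continuous_chi_qq`.)
-/

set_option autoImplicit false

noncomputable section

namespace Pool.Agent.Lib.P51n

open MeasureTheory Filter Topology

namespace BPl

variable {n : ℕ} {η : ℝ}

/-- continuous after multiplication with `chi η`, and with integrals tending to `0` -/
def Gd (η : ℝ) (G : ℕ → (Fin n → ℝ) → ℝ) : Prop :=
  (∀ k, Continuous fun u => chi η u * G k u) ∧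
    Tendsto (fun k => ∫ u, chi η u * G k u) atTop (𝓝 0)

lemma integrable_of (hη : 0 < η) {g : (Fin n → ℝ) → ℝ} (h : Continuous fun u => chi η u * g u) :
    Integrable fun u => chi η u * g u :=
  h.integrable_of_hasCompactSupport ((hasCompactSupport_chi hη).mul_right)

lemma gd_zero : Gd (n := n) η fun _ _ => 0 := by
  refine ⟨fun k => ?_, ?_⟩
  · simpa using continuous_const
  · simp

lemma Gd.add (hη : 0 < η) {G H : ℕ → (Fin n → ℝ) → ℝ} (hG : Gd η G) (hH : Gd η H) :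
    Gd η fun k u => G k u + H k u := by
  refine ⟨fun k => ?_, ?_⟩
  · simp only [mul_add]
    exact (hG.1 k).add (hH.1 k)
  · have h := hG.2.add hH.2
    rw [add_zero] at h
    refine h.congr fun k => ?_
    rw [← integral_add (integrable_of hη (hG.1 k)) (integrable_of hη (hH.1 k))]
    simp only [mul_add]

lemma Gd.sum (hη : 0 < η) {ι : Type*} (s : Finset ι) {G : ι → ℕ → (Fin n → ℝ) → ℝ}
    (hG : ∀ i ∈ s, Gd η (G i)) : Gd η fun k u => ∑ i ∈ s, G i k u := by
  classical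
  induction s using Finset.induction_on with
  | empty => simpa using gd_zero
  | insert a s ha ih =>
    simp only [Finset.sum_insert ha]
    exact Gd.add hη (hG a (Finset.mem_insert_self _ _))
      (ih fun i hi => hG i (Finset.mem_insert_of_mem hi))

lemma gd_push {F : (Fin (n + 1) → Fin (n + 1) → ℝ) → ℝ} (hF : EFun (n + 1) F)
    {R : Finset (Fin (n + 1) × Fin (n + 1))} {w : Fin (n + 1) → ℝ}
    {c c' : Fin (n + 1) → Fin (n + 1) → ℝ} (hS : Src R w c) (hT : Tgt R c') (hcc : c ≤ c')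
    (hη : 0 < η) :
    Gd η fun k u => qq F ((1 / 2 : ℝ) ^ k) (posU u) R c - qq F ((1 / 2 : ℝ) ^ k) (posU u) R c' := by
  refine ⟨fun k => ?_, push_L1 hF hS hT hcc hη⟩
  have h1 := continuous_chi_qq hF hS.tgt hη (lam := (1 / 2 : ℝ) ^ k) (by positivity)
  have h2 := continuous_chi_qq hF hT hη (lam := (1 / 2 : ℝ) ^ k) (by positivity)
  simp only [mul_sub]
  exact h1.sub h2

lemma gd_err {F : (Fin (n + 1) → Fin (n + 1) → ℝ) → ℝ} (hF : EFun (n + 1) F) (hη : 0 < η) :
    Gd η fun k (u : Fin n → ℝ) => err F ((1 / 2 : ℝ) ^ k) (posU u) := by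
  unfold err
  refine Gd.add hη (Gd.add hη ?_ ?_) ?_
  · refine Gd.sum hη _ fun I _ => ?_
    exact gd_push hF (src_cut I) (tgt_cut I) (fun i j => BSh.big_nonneg _ i j) hη
  · refine Gd.sum hη _ fun I _ => Gd.sum hη _ fun R' hR' => Gd.sum hη _ fun α hα => ?_
    obtain ⟨i₀, j₀⟩ := α
    rw [Finset.mem_powerset] at hR'
    rw [Finset.mem_sdiff] at hα
    have hne : i₀ ≠ j₀ := by
      rintro rfl
      have := BSh.mem_cut.1 hα.1
      exact this.1 this.2
    exact gd_push hF (src_partial I R' hR' hα.1 hα.2) (tgt_big hne)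
      (partial_le_big I R' hR' hα.1 hα.2) hη
  · refine Gd.sum hη _ fun i₁ _ => Gd.sum hη _ fun i₂ _ => Gd.sum hη _ fun i₃ _ => ?_
    by_cases h : i₁ ≠ i₂ ∧ i₂ ≠ i₃ ∧ i₁ ≠ i₃
    · simp only [if_pos h]
      exact Gd.add hη
        (gd_push hF (src_ct₁ h.1 h.2.1 h.2.2) (tgt_ct₁ h.1 h.2.1 h.2.2) ct_le₁ hη)
        (gd_push hF (src_ct₂ h.1 h.2.1 h.2.2) (tgt_ct₂ h.1 h.2.1 h.2.2) ct_le₂ hη)
    · simp only [if_neg h]
      exact gd_zero

lemma chi_nonneg (η : ℝ) (u : Fin n → ℝ) : 0 ≤ chi η u := le_max_left _ _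

lemma chi_ge {η' : ℝ} {u : Fin n → ℝ} (h : ∀ j, η' ≤ posU u j) : η' - η ≤ chi η u := by
  refine le_trans ?_ (le_max_right _ _)
  have : η' ≤ ⨅ j, posU u j := le_ciInf h
  linarith

lemma pos_of_chi (hη : 0 < η) {u : Fin n → ℝ} (h : chi η u ≠ 0) : Pos 1 (posU u) := by
  refine pos_posU fun j => ?_
  have h1 : 0 < chi η u := lt_of_le_of_ne (chi_nonneg η u) (Ne.symm h)
  unfold chi at h1
  rw [lt_max_iff] at h1
  have h2 : η < ⨅ j, posU u j := by
    rcases h1 with h1 | h1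
    · exact absurd h1 (lt_irrefl _)
    · linarith
  have h3 : ⨅ j, posU u j ≤ posU u j := ciInf_le (Set.finite_range _).bddBelow j
  linarith

lemma finite_P (hη : 0 < η) : volume {u : Fin n → ℝ | ∀ j, η ≤ posU u j} < ⊤ := by
  refine lt_of_le_of_lt (measure_mono (t := Metric.closedBall 0 1) ?_)
    (measure_closedBall_lt_top)
  intro u hu
  rw [mem_closedBall_zero_iff, pi_norm_le_iff_of_nonneg zero_le_one]
  intro i
  have h0 : ∀ j, 0 ≤ posU u j := fun j => hη.le.trans (hu j)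
  have h1 : posU u i.castSucc ≤ ∑ j, posU u j :=
    Finset.single_le_sum (fun j _ => h0 j) (Finset.mem_univ _)
  rw [sum_posU, posU_castSucc] at h1
  have h2 := h0 i.castSucc
  rw [posU_castSucc] at h2
  rw [Real.norm_eq_abs, abs_of_nonneg h2]
  exact h1

lemma Place.mono {d : ℕ} {F : (Fin d → Fin d → ℝ) → ℝ} {i₁ i₂ i₃ : Fin d} {c₂ ε ε' lam : ℝ}
    {s : Fin d → ℝ} (h : Place F i₁ i₂ i₃ c₂ ε lam s) (he : ε ≤ ε') (hl : 0 ≤ lam) :
    Place F i₁ i₂ i₃ c₂ ε' lam s :=
  ⟨h.act₁, h.act₂, h.ind₁.trans (mul_le_mul_of_nonneg_right he hl),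
    h.ind₂.trans (mul_le_mul_of_nonneg_right he hl)⟩

end BPl

open BPl

theorem exists_place (n : ℕ) (hn : 2 ≤ n) (F : (Fin (n + 1) → Fin (n + 1) → ℝ) → ℝ)
    (hF : EFun (n + 1) F) : ∃ i₁ i₂ i₃ : Fin (n + 1), i₁ ≠ i₂ ∧ i₂ ≠ i₃ ∧ i₁ ≠ i₃ ∧
      ∃ c₂ δ η : ℝ, 0 < c₂ ∧ 0 < δ ∧ 0 < η ∧ ∀ ε : ℝ, 0 < ε → ∀ k₁ : ℕ, ∃ k : ℕ, k₁ ≤ k ∧
        ENNReal.ofReal δ ≤ volume {u : Fin n → ℝ | (∀ j, η ≤ posU u j) ∧
          Place F i₁ i₂ i₃ c₂ ε ((1 / 2 : ℝ) ^ k) (posU u)} := by
  classical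
  obtain ⟨c₁, η, k₀, hc₁, hη, hP⟩ := exists_regular n (by omega) F hF
  obtain ⟨P, hPdef⟩ : ∃ P : Set (Fin n → ℝ), P = {u : Fin n → ℝ | (∀ j, η ≤ posU u j) ∧
      ∀ k : ℕ, k₀ ≤ k → ∀ I : Finset (Fin (n + 1)), I.Nonempty → I ≠ Finset.univ →
          c₁ * (1 / 2 : ℝ) ^ k ≤ dF F (posU u) (posU u + (1 / 2 : ℝ) ^ k • cen (indI I))} :=
    ⟨_, rfl⟩
  rw [← hPdef] at hP
  have hPfin : volume P < ⊤ := by
    refine lt_of_le_of_lt (measure_mono ?_) (finite_P (n := n) hη)
    rw [hPdef]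
    exact fun u hu => hu.1
  obtain ⟨v, hv⟩ : ∃ v : ℝ, v = (volume P).toReal := ⟨_, rfl⟩
  have hv0 : 0 < v := by
    rw [hv]
    exact ENNReal.toReal_pos hP.ne' hPfin.ne
  have hvP : volume P = ENNReal.ofReal v := by
    rw [hv, ENNReal.ofReal_toReal hPfin.ne]
  obtain ⟨W, hW⟩ : ∃ W : Fin (n + 1) × Fin (n + 1) × Fin (n + 1) → ℝ → ℕ → Set (Fin n → ℝ),
      W = fun t ε k => {u : Fin n → ℝ | (∀ j, η ≤ posU u j) ∧
        Place F t.1 t.2.1 t.2.2 (c₁ / (2 * ((n + 1 : ℕ) : ℝ) ^ 2)) ε ((1 / 2 : ℝ) ^ k)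
          (posU u)} := ⟨_, rfl⟩
  obtain ⟨S, hS⟩ : ∃ S : Finset (Fin (n + 1) × Fin (n + 1) × Fin (n + 1)),
      S = Finset.univ.filter fun t => t.1 ≠ t.2.1 ∧ t.2.1 ≠ t.2.2 ∧ t.1 ≠ t.2.2 := ⟨_, rfl⟩
  have hScard : (S.card : ℝ) ≤ ((n : ℝ) + 1) ^ 3 := by
    have h1 : S.card ≤ (n + 1) ^ 3 := by
      refine (Finset.card_le_univ S).trans ?_
      rw [Fintype.card_prod, Fintype.card_prod, Fintype.card_fin]
      exact le_of_eq (by ring)
    exact_mod_cast h1
  -- the main estimate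
  have main : ∀ ε : ℝ, 0 < ε → ∀ k₁ : ℕ, ∃ k : ℕ, k₁ ≤ k ∧ ∃ t ∈ S,
      ENNReal.ofReal (v / (4 * ((n : ℝ) + 1) ^ 3)) ≤ volume (W t ε k) := by
    intro ε hε k₁
    obtain ⟨ε', hε'⟩ : ∃ ε' : ℝ, ε' = min ε (c₁ / 4) := ⟨_, rfl⟩
    have hε'0 : 0 < ε' := by
      rw [hε']
      exact lt_min hε (by linarith)
    have hη2 : 0 < η / 2 := by linarith
    have hG := gd_err (n := n) hF hη2
    -- choose `k`
    have e1 : ∀ᶠ k : ℕ in atTop,
        (∫ u : Fin n → ℝ, chi (η / 2) u * err F ((1 / 2 : ℝ) ^ k) (posU u))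
          < (η / 2 * ε') * (v / 2) :=
      hG.2.eventually (gt_mem_nhds (by positivity))
    have e2 : ∀ᶠ k : ℕ in atTop, (1 / 2 : ℝ) ^ k < η :=
      (tendsto_pow_atTop_nhds_zero_of_lt_one (by norm_num) (by norm_num)).eventually
        (gt_mem_nhds hη)
    obtain ⟨k, hk1, hk2, hk3, hk4⟩ :=
      (e1.and (e2.and ((eventually_ge_atTop k₀).and (eventually_ge_atTop k₁)))).exists
    refine ⟨k, hk4, ?_⟩
    have hlam : (0 : ℝ) < (1 / 2 : ℝ) ^ k := by positivity
    obtain ⟨f, hf⟩ : ∃ f : (Fin n → ℝ) → ℝ,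
        f = fun u => chi (η / 2) u * err F ((1 / 2 : ℝ) ^ k) (posU u) := ⟨_, rfl⟩
    have hfi : Integrable f := by
      rw [hf]
      exact integrable_of hη2 (hG.1 k)
    have hf0 : ∀ u, 0 ≤ f u := by
      intro u
      rw [hf]
      by_cases h : chi (η / 2) u = 0
      · simp [h]
      · exact mul_nonneg (chi_nonneg _ _) (err_nonneg hF hlam (pos_of_chi hη2 h))
    have hmar := mul_meas_ge_le_integral_of_nonneg (μ := volume) (f := f)
      (Eventually.of_forall hf0) hfi (η / 2 * ε')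
    have hB : volume {u | η / 2 * ε' ≤ f u} ≤ ENNReal.ofReal (v / 2) := by
      have hfin : volume {u | η / 2 * ε' ≤ f u} < ⊤ := hfi.measure_ge_lt_top (by positivity)
      rw [← ENNReal.ofReal_toReal hfin.ne]
      refine ENNReal.ofReal_le_ofReal ?_
      have h1 : (η / 2 * ε') * (volume {u | η / 2 * ε' ≤ f u}).toReal
          ≤ (η / 2 * ε') * (v / 2) := by
        refine le_trans ?_ hk1.le
        rw [hf] at hmar ⊢
        exact hmar
      exact le_of_mul_le_mul_left h1 (by positivity)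
    by_contra hcon
    push Not at hcon
    have hsub : P ⊆ {u | η / 2 * ε' ≤ f u} ∪ ⋃ t ∈ S, W t ε k := by
      intro u hu
      by_cases hue : err F ((1 / 2 : ℝ) ^ k) (posU u) ≤ ε'
      · right
        rw [hPdef] at hu
        have hu0 : ∀ j, 0 ≤ posU u j := fun j => hη.le.trans (hu.1 j)
        have hs' : ∀ I : Finset (Fin (n + 1)),
            Pos 1 (posU u + (1 / 2 : ℝ) ^ k • cen (indI I)) := by
          intro I
          refine ⟨fun j => ?_, ?_⟩
          · simp only [Pi.add_apply, Pi.smul_apply, smul_eq_mul]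
            have h1 := norm_cen_le I j
            have h2 := hu.1 j
            nlinarith
          · simp only [Pi.add_apply, Pi.smul_apply, smul_eq_mul, Finset.sum_add_distrib,
              ← Finset.mul_sum]
            rw [sum_posU, sum_cen, mul_zero, add_zero]
        obtain ⟨i₁, i₂, i₃, h12, h23, h13, hpl⟩ := exists_triple (d := n + 1) (by omega) hF hc₁
          (hε' ▸ min_le_right _ _ : ε' ≤ c₁ / 4) hlam (pos_posU hu0) hs'
          (fun I hI hI' => hu.2 k hk3 I hI hI') hue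
        rw [Set.mem_iUnion₂]
        refine ⟨(i₁, i₂, i₃), ?_, ?_⟩
        · rw [hS, Finset.mem_filter]
          exact ⟨Finset.mem_univ _, h12, h23, h13⟩
        · rw [hW]
          exact ⟨hu.1, Place.mono hpl (hε' ▸ min_le_left _ _) hlam.le⟩
      · left
        rw [hPdef] at hu
        have h1 : η / 2 ≤ chi (η / 2) u := by
          have := chi_ge (η := η / 2) hu.1
          linarith
        have h2 : ε' ≤ err F ((1 / 2 : ℝ) ^ k) (posU u) := (not_le.1 hue).le
        rw [Set.mem_ofPred_eq, hf]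
        exact mul_le_mul h1 h2 hε'0.le (chi_nonneg _ _)
    have hlt : volume P < volume P := by
      calc volume P ≤ volume ({u | η / 2 * ε' ≤ f u} ∪ ⋃ t ∈ S, W t ε k) := measure_mono hsub
        _ ≤ volume {u | η / 2 * ε' ≤ f u} + volume (⋃ t ∈ S, W t ε k) := measure_union_le _ _
        _ ≤ ENNReal.ofReal (v / 2) + ∑ t ∈ S, volume (W t ε k) :=
          add_le_add hB (measure_biUnion_finset_le _ _)
        _ ≤ ENNReal.ofReal (v / 2) + ENNReal.ofReal (v / 4) := by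
          gcongr
          calc ∑ t ∈ S, volume (W t ε k)
              ≤ ∑ _t ∈ S, ENNReal.ofReal (v / (4 * ((n : ℝ) + 1) ^ 3)) :=
                Finset.sum_le_sum fun t ht => (hcon t ht).le
            _ = ENNReal.ofReal (S.card * (v / (4 * ((n : ℝ) + 1) ^ 3))) := by
                rw [Finset.sum_const, nsmul_eq_mul, ENNReal.ofReal_mul (Nat.cast_nonneg _),
                  ENNReal.ofReal_natCast]
            _ ≤ ENNReal.ofReal (v / 4) := by
                refine ENNReal.ofReal_le_ofReal ?_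
                have h3 : (0 : ℝ) < ((n : ℝ) + 1) ^ 3 := by positivity
                calc (S.card : ℝ) * (v / (4 * ((n : ℝ) + 1) ^ 3))
                    ≤ ((n : ℝ) + 1) ^ 3 * (v / (4 * ((n : ℝ) + 1) ^ 3)) :=
                      mul_le_mul_of_nonneg_right hScard (by positivity)
                  _ = v / 4 := by field_simp
        _ = ENNReal.ofReal (v / 2 + v / 4) := by
          rw [ENNReal.ofReal_add (by positivity) (by positivity)]
        _ < volume P := by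
          rw [hvP]
          exact (ENNReal.ofReal_lt_ofReal_iff hv0).2 (by linarith)
    exact lt_irrefl _ hlt
  -- pigeonhole
  obtain ⟨t, ht, hgood⟩ : ∃ t ∈ S, ∀ ε : ℝ, 0 < ε → ∀ k₁ : ℕ, ∃ k : ℕ, k₁ ≤ k ∧
      ENNReal.ofReal (v / (4 * ((n : ℝ) + 1) ^ 3)) ≤ volume (W t ε k) := by
    by_contra hcon
    push Not at hcon
    choose! e he K hK using hcon
    obtain ⟨_, _, t₀, ht₀, _⟩ := main 1 one_pos 0
    obtain ⟨k, hk, t, ht, hge⟩ := main (S.inf' ⟨t₀, ht₀⟩ e)
      ((Finset.lt_inf'_iff _).2 fun t ht => he t ht) (S.sup K)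
    refine absurd hge (not_le.2 ?_)
    refine lt_of_le_of_lt (measure_mono ?_) (hK t ht k ((Finset.le_sup ht).trans hk))
    rw [hW]
    exact fun u hu => ⟨hu.1, Place.mono hu.2 (Finset.inf'_le _ ht) (by positivity)⟩
  rw [hS, Finset.mem_filter] at ht
  refine ⟨t.1, t.2.1, t.2.2, ht.2.1, ht.2.2.1, ht.2.2.2, c₁ / (2 * ((n + 1 : ℕ) : ℝ) ^ 2),
    v / (4 * ((n : ℝ) + 1) ^ 3), η, by positivity, by positivity, hη, ?_⟩
  intro ε hε k₁
  obtain ⟨k, hk, h⟩ := hgood ε hε k₁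
  rw [hW] at h
  exact ⟨k, hk, h⟩

end Pool.Agent.Lib.P51n
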