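import Pool.Agent.Lib.P51n.BMetric

/-!
# P51n.BPush  (about 1.5 h)

The push inequality.  Let `μ = lam/K`.  By `mono` and `lip`,
`F(cs s + lam(c + E)) - F(cs s + lam c) ≤ F(cs s + lam(c+E) + μc') - F(cs s + lam c + μc') + d² μ M`
(`E = ind R`).  Put `c_k = cs s + lam c + μ c' + kμE`, `k = 0..K`: the difference is
`∑_k (F(c_{k+1}) - F(c_k))`.  With `s_k = s + kμw`, `c_k = cs s_k + μ S_k`,
`S_k = K c + c' + k(E - cs w)`: on `R`, `S_k = c' = 0` (`cs w = 1 = E`, `c = 0`); off `R`,
`K c - k cs w ≥ 0` because `c ≥ 0` and `c ≥ cs w`, so `S_k ≥ c'`.  By `submod` with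
`c := cs s_k + μ(c' + E)`, `c' := cs s_k + μ S_k`, `c'' := cs s_k + μ c'`, the maximum being
`cs s_k + μ(S_k + E) = c_{k+1}`:
`F(c_{k+1}) - F(c_k) ≤ F(cs s_k + μ(c'+E)) - F(cs s_k + μc') = μ qq F μ s_k R c'`.
(All shapes are admissible: `c_k = cs s + lam (c + (k/K) E) + μ c'` with `Tri` by `Src.tri`, and
`cs s_k + μ c'` because `Pos 1 s_k`.)

`qq_anti`: `submod` with `c := cs s + lam(c+E)`, `c' := cs s + lam c'`, `c'' := cs s + lam c`.
-/

set_option autoImplicit false

noncomputable section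

namespace Pool.Agent.Lib.P51n

variable {d : ℕ} {F : (Fin d → Fin d → ℝ) → ℝ}

theorem Src.tgt {R : Finset (Fin d × Fin d)} {w : Fin d → ℝ} {c : Fin d → Fin d → ℝ}
    (h : Src R w c) : Tgt R c where
  on := fun i j hij => (h.on i j hij).1
  nonneg := h.nonneg
  tri := by simpa using h.tri 0 le_rfl zero_le_one
  tri' := by simpa using h.tri 1 zero_le_one le_rfl

theorem bp_ind_nonneg (R : Finset (Fin d × Fin d)) (i j : Fin d) : 0 ≤ ind R i j := by
  unfold ind; split_ifs <;> norm_num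

theorem bp_ind_le_one (R : Finset (Fin d × Fin d)) (i j : Fin d) : ind R i j ≤ 1 := by
  unfold ind; split_ifs <;> norm_num

theorem bp_ind_mem {R : Finset (Fin d × Fin d)} {i j : Fin d} (h : (i, j) ∈ R) : ind R i j = 1 := by
  simp [ind, h]

theorem bp_ind_not_mem {R : Finset (Fin d × Fin d)} {i j : Fin d} (h : (i, j) ∉ R) :
    ind R i j = 0 := by
  simp [ind, h]

theorem Tgt.bpAdm {R : Finset (Fin d × Fin d)} {c : Fin d → Fin d → ℝ} (hT : Tgt R c) {lam : ℝ}
    (hl : 0 ≤ lam) {s : Fin d → ℝ} (hs : Pos 1 s) : Adm 1 (cs s + lam • c) :=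
  adm_add hs (hT.tri.smul hl) fun i j => by
    simpa using mul_nonneg hl (hT.nonneg i j)

theorem Tgt.bpAdm' {R : Finset (Fin d × Fin d)} {c : Fin d → Fin d → ℝ} (hT : Tgt R c) {lam : ℝ}
    (hl : 0 ≤ lam) {s : Fin d → ℝ} (hs : Pos 1 s) : Adm 1 (cs s + lam • (c + ind R)) :=
  adm_add hs (hT.tri'.smul hl) fun i j => by
    simpa using mul_nonneg hl (add_nonneg (hT.nonneg i j) (bp_ind_nonneg R i j))

theorem push (hF : EFun d F) {R : Finset (Fin d × Fin d)} {w : Fin d → ℝ}
    {c c' : Fin d → Fin d → ℝ} (hS : Src R w c) (hT : Tgt R c') {M : ℝ}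
    (hM : ∀ i j, c' i j ≤ M) {lam : ℝ} (hl : 0 < lam) {K : ℕ} (hK : 1 ≤ K) {s : Fin d → ℝ}
    (hs : ∀ k : ℕ, k ≤ K → Pos 1 (s + (k * (lam / K)) • w)) :
    qq F lam s R c ≤
      (1 / K) * ∑ k ∈ Finset.range K, qq F (lam / K) (s + (k * (lam / K)) • w) R c' +
        d ^ 2 * M / K := by
  have hK0 : (0 : ℝ) < K := by exact_mod_cast hK
  obtain ⟨μ, hμ⟩ : ∃ μ : ℝ, μ = lam / K := ⟨_, rfl⟩
  have hμ0 : 0 < μ := by rw [hμ]; positivity
  have hlam : lam = K * μ := by rw [hμ]; field_simp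
  rw [← hμ] at hs ⊢
  have hs0 : Pos 1 s := by simpa using hs 0 (Nat.zero_le _)
  -- `M ≥ 0`
  have hd : 0 < d := by
    rcases Nat.eq_zero_or_pos d with h0 | h0
    · subst h0
      have := hs0.2
      simp at this
    · exact h0
  have hM0 : 0 ≤ M := (hT.nonneg ⟨0, hd⟩ ⟨0, hd⟩).trans (hM _ _)
  -- the chain
  obtain ⟨C, hC⟩ : ∃ C : ℕ → Fin d → Fin d → ℝ, ∀ k, C k =
      cs s + (lam • (c + ((k : ℝ) / K) • ind R) + μ • c') := ⟨_, fun _ => rfl⟩
  have hCij : ∀ k i j, C k i j = cs s i j + lam * c i j + k * μ * ind R i j + μ * c' i j := by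
    intro k i j
    rw [hC]
    simp only [Pi.add_apply, Pi.smul_apply, smul_eq_mul]
    rw [hlam]
    field_simp
    ring
  have hCadm : ∀ k, k ≤ K → Adm 1 (C k) := by
    intro k hk
    rw [hC]
    have hk1 : (k : ℝ) / K ≤ 1 := by
      rw [div_le_one hK0]; exact_mod_cast hk
    have hk0 : 0 ≤ (k : ℝ) / K := by positivity
    refine adm_add hs0 (((hS.tri _ hk0 hk1).smul hl.le).add (hT.tri.smul hμ0.le)) ?_
    intro i j
    simp only [Pi.add_apply, Pi.smul_apply, smul_eq_mul]
    have h1 := hS.nonneg i j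
    have h2 := hT.nonneg i j
    have h3 := bp_ind_nonneg R i j
    positivity
  have hstep : ∀ k, k < K → F (C (k + 1)) - F (C k) ≤
      μ * qq F μ (s + (k * μ) • w) R c' := by
    intro k hk
    have hsk := hs k hk.le
    have hkK : (k : ℝ) * μ ≤ lam := by
      rw [hlam]
      exact mul_le_mul_of_nonneg_right (by exact_mod_cast hk.le) hμ0.le
    have hk0 : 0 ≤ (k : ℝ) * μ := by positivity
    have hcs : ∀ i j, cs (s + (k * μ) • w) i j = cs s i j + k * μ * (w j - w i) := by
      intro i j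
      simp only [cs, Pi.add_apply, Pi.smul_apply, smul_eq_mul]
      ring
    have hle : ∀ i j, k * μ * (w j - w i) ≤ lam * c i j + k * μ * ind R i j := by
      intro i j
      by_cases hij : (i, j) ∈ R
      · rw [(hS.on i j hij).1, (hS.on i j hij).2, bp_ind_mem hij]
        simp
      · rw [bp_ind_not_mem hij, mul_zero, add_zero]
        calc k * μ * (w j - w i) ≤ k * μ * c i j :=
              mul_le_mul_of_nonneg_left (hS.off i j hij) hk0
          _ ≤ lam * c i j := mul_le_mul_of_nonneg_right hkK (hS.nonneg i j)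
    have key := hF.submod (cs (s + (k * μ) • w) + μ • (c' + ind R)) (C k)
      (cs (s + (k * μ) • w) + μ • c') (hT.bpAdm' hμ0.le hsk) (hCadm k hk.le) (hT.bpAdm hμ0.le hsk)
      (by
        intro i j
        simp only [Pi.add_apply, Pi.smul_apply, smul_eq_mul]
        have := mul_nonneg hμ0.le (bp_ind_nonneg R i j)
        nlinarith)
      (by
        intro i j
        rw [hCij]
        simp only [Pi.add_apply, Pi.smul_apply, smul_eq_mul]
        rw [hcs]
        have := hle i j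
        linarith)
    have hsup : (cs (s + (k * μ) • w) + μ • (c' + ind R)) ⊔ C k = C (k + 1) := by
      funext i j
      simp only [Pi.sup_apply]
      rw [hCij, hCij]
      simp only [Pi.add_apply, Pi.smul_apply, smul_eq_mul]
      rw [hcs]
      by_cases hij : (i, j) ∈ R
      · rw [(hS.on i j hij).1, (hS.on i j hij).2, hT.on i j hij, bp_ind_mem hij]
        rw [sup_eq_left.2]
        · push_cast; ring
        · linarith
      · have := hle i j
        rw [bp_ind_not_mem hij] at this ⊢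
        rw [sup_eq_right.2]
        · ring
        · linarith
    rw [hsup] at key
    have hq : μ * qq F μ (s + (k * μ) • w) R c' =
        F (cs (s + (k * μ) • w) + μ • (c' + ind R)) - F (cs (s + (k * μ) • w) + μ • c') := by
      unfold qq
      field_simp
    rw [hq]
    linarith
  have htel : F (C K) - F (C 0) ≤ μ * ∑ k ∈ Finset.range K, qq F μ (s + (k * μ) • w) R c' := by
    rw [← Finset.sum_range_sub (fun k => F (C k)) K, Finset.mul_sum]
    exact Finset.sum_le_sum fun k hk => hstep k (Finset.mem_range.1 hk)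
  have h1 : F (cs s + lam • (c + ind R)) ≤ F (C K) := by
    refine hF.mono _ _ (hS.tgt.bpAdm' hl.le hs0) (hCadm K le_rfl) ?_
    intro i j
    rw [hCij]
    simp only [Pi.add_apply, Pi.smul_apply, smul_eq_mul]
    have := mul_nonneg hμ0.le (hT.nonneg i j)
    rw [hlam]
    linarith
  have h2 : F (C 0) ≤ F (cs s + lam • c) + d ^ 2 * (μ * M) := by
    refine hF.lip _ _ _ (hS.tgt.bpAdm hl.le hs0) (hCadm 0 (Nat.zero_le _)) (by positivity) ?_
    intro i j
    rw [hCij]
    simp only [Pi.add_apply, Pi.smul_apply, smul_eq_mul]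
    have := mul_le_mul_of_nonneg_left (hM i j) hμ0.le
    push_cast
    linarith
  have h3 : F (cs s + lam • (c + ind R)) - F (cs s + lam • c) ≤
      μ * ∑ k ∈ Finset.range K, qq F μ (s + (k * μ) • w) R c' + d ^ 2 * (μ * M) := by linarith
  unfold qq at h3 ⊢
  rw [div_le_iff₀ hl]
  refine h3.trans (le_of_eq ?_)
  rw [hlam]
  field_simp

theorem qq_nonneg (hF : EFun d F) {R : Finset (Fin d × Fin d)} {c : Fin d → Fin d → ℝ}
    (hT : Tgt R c) {lam : ℝ} (hl : 0 < lam) {s : Fin d → ℝ} (hs : Pos 1 s) :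
    0 ≤ qq F lam s R c := by
  unfold qq
  refine div_nonneg (sub_nonneg.2 ?_) hl.le
  refine hF.mono _ _ (hT.bpAdm hl.le hs) (hT.bpAdm' hl.le hs) ?_
  intro i j
  simp only [Pi.add_apply, Pi.smul_apply, smul_eq_mul]
  have := mul_nonneg hl.le (bp_ind_nonneg R i j)
  linarith

theorem qq_le (hF : EFun d F) {R : Finset (Fin d × Fin d)} {c : Fin d → Fin d → ℝ}
    (hT : Tgt R c) {lam : ℝ} (hl : 0 < lam) {s : Fin d → ℝ} (hs : Pos 1 s) :
    qq F lam s R c ≤ d ^ 2 := by
  unfold qq
  rw [div_le_iff₀ hl, sub_le_iff_le_add']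
  refine hF.lip _ _ _ (hT.bpAdm hl.le hs) (hT.bpAdm' hl.le hs) hl.le ?_
  intro i j
  simp only [Pi.add_apply, Pi.smul_apply, smul_eq_mul]
  have := mul_le_mul_of_nonneg_left (bp_ind_le_one R i j) hl.le
  linarith

theorem qq_anti (hF : EFun d F) {R : Finset (Fin d × Fin d)} {c c' : Fin d → Fin d → ℝ}
    (hT : Tgt R c) (hT' : Tgt R c') (hcc : c ≤ c') {lam : ℝ} (hl : 0 < lam) {s : Fin d → ℝ}
    (hs : Pos 1 s) : qq F lam s R c' ≤ qq F lam s R c := by
  unfold qq
  refine div_le_div_of_nonneg_right ?_ hl.le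
  have key := hF.submod (cs s + lam • (c + ind R)) (cs s + lam • c') (cs s + lam • c)
    (hT.bpAdm' hl.le hs) (hT'.bpAdm hl.le hs) (hT.bpAdm hl.le hs)
    (by
      intro i j
      simp only [Pi.add_apply, Pi.smul_apply, smul_eq_mul]
      have := mul_nonneg hl.le (bp_ind_nonneg R i j)
      linarith)
    (by
      intro i j
      simp only [Pi.add_apply, Pi.smul_apply, smul_eq_mul]
      have := mul_le_mul_of_nonneg_left (hcc i j) hl.le
      linarith)
  have hsup : (cs s + lam • (c + ind R)) ⊔ (cs s + lam • c') = cs s + lam • (c' + ind R) := by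
    funext i j
    simp only [Pi.sup_apply, Pi.add_apply, Pi.smul_apply, smul_eq_mul]
    by_cases hij : (i, j) ∈ R
    · rw [hT.on i j hij, hT'.on i j hij, bp_ind_mem hij]
      rw [sup_eq_left.2]
      linarith
    · rw [bp_ind_not_mem hij]
      have := mul_le_mul_of_nonneg_left (hcc i j) hl.le
      rw [sup_eq_right.2]
      · ring
      · linarith
  rw [hsup] at key
  linarith

end Pool.Agent.Lib.P51n
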