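import Pool.Agent.Lib.Brouwer.Brouwer

/-!
# P51n.BSimplex

A continuous self-map of the simplex preserving the facets is surjective.

Brouwer for the simplex: `r : ℝ^d → Δ`,
`r(x)_i = (max x_i 0 + (1/d) max 0 (1 - S)) / max 1 S`, `S = ∑ max x_j 0`, is a continuous map which
is the identity on `Δ`; apply `Pool.Agent.Lib.Brouwer.brouwer_closedBall` (Euclidean space, radius
`1`) to `f ∘ r`; the fixed point is in `Δ`.

Surjectivity: for `p ∈ Δ` let `f(s)_i = (s_i + max 0 (p_i - φ_i(s))) / (1 + θ(s))`,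
`θ(s) = ∑_j max 0 (p_j - φ_j(s))`.  At a fixed point `s_i θ = max 0 (p_i - φ_i(s))`.  If `θ = 0` then
`φ_j(s) ≥ p_j` for all `j`, and the sums agree, so `φ(s) = p`.  If `θ > 0`, then `φ_i(s) > p_i` for
some `i` (equal sums), so `s_i = 0`, so `φ_i(s) = 0 ≤ p_i`, a contradiction.
(`d = 0` is trivial: the simplex is empty.)
-/

set_option autoImplicit false

namespace Pool.Agent.Lib.P51n

open Set

namespace BSimplexAux

/-- the retraction -/
noncomputable def r {d : ℕ} (x : Fin d → ℝ) : Fin d → ℝ := fun i =>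
  (max (x i) 0 + (1 / d) * max 0 (1 - ∑ j, max (x j) 0)) / max 1 (∑ j, max (x j) 0)

lemma r_mem {d : ℕ} (hd : 0 < d) (x : Fin d → ℝ) : r x ∈ stdSimplex ℝ (Fin d) := by
  have hS : 0 ≤ ∑ j, max (x j) 0 := Finset.sum_nonneg fun j _ => le_max_right _ _
  have hM : 0 < max 1 (∑ j, max (x j) 0) := lt_of_lt_of_le one_pos (le_max_left _ _)
  have hd' : (0 : ℝ) < d := by exact_mod_cast hd
  constructor
  · intro i
    unfold r
    have h1 : 0 ≤ max (x i) 0 := le_max_right _ _
    have h2 : 0 ≤ max 0 (1 - ∑ j, max (x j) 0) := le_max_left _ _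
    positivity
  · unfold r
    rw [← Finset.sum_div, Finset.sum_add_distrib, Finset.sum_const, Finset.card_univ, Fintype.card_fin,
      nsmul_eq_mul, div_eq_one_iff_eq hM.ne', ← mul_assoc, mul_one_div_cancel hd'.ne', one_mul]
    rcases le_total 1 (∑ j, max (x j) 0) with h | h
    · rw [max_eq_right h, max_eq_left (by linarith)]; ring
    · rw [max_eq_left h, max_eq_right (by linarith)]; ring

lemma r_of_mem {d : ℕ} {x : Fin d → ℝ} (hx : x ∈ stdSimplex ℝ (Fin d)) : r x = x := by
  have h1 : ∀ j, max (x j) 0 = x j := fun j => max_eq_left (hx.1 j)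
  have h2 : ∑ j, x j = 1 := hx.2
  funext i
  unfold r
  simp only [h1, h2]
  norm_num

lemma r_continuous {d : ℕ} : Continuous (r : (Fin d → ℝ) → (Fin d → ℝ)) := by
  unfold r
  refine continuous_pi fun i => Continuous.div ?_ ?_ ?_
  · fun_prop
  · fun_prop
  · intro x
    exact (lt_of_lt_of_le one_pos (le_max_left _ _)).ne'

lemma brouwer_simplex {d : ℕ} (hd : 0 < d) (f : (Fin d → ℝ) → (Fin d → ℝ))
    (hf : ContinuousOn f (stdSimplex ℝ (Fin d)))
    (hm : MapsTo f (stdSimplex ℝ (Fin d)) (stdSimplex ℝ (Fin d))) :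
    ∃ x ∈ stdSimplex ℝ (Fin d), f x = x := by
  set g : EuclideanSpace ℝ (Fin d) → EuclideanSpace ℝ (Fin d) :=
    fun x => WithLp.toLp 2 (f (r x.ofLp)) with hg
  have hc : Continuous fun y : Fin d → ℝ => f (r y) :=
    hf.comp_continuous r_continuous fun x => r_mem hd x
  have hgc : Continuous g := by
    refine (PiLp.continuous_toLp 2 _).comp (hc.comp (PiLp.continuous_ofLp 2 _))
  have hgm : MapsTo g (Metric.closedBall 0 1) (Metric.closedBall 0 1) := by
    intro x _
    rw [mem_closedBall_zero_iff, EuclideanSpace.norm_eq, Real.sqrt_le_one]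
    have hmem := hm (r_mem hd x.ofLp)
    calc ∑ i, ‖g x i‖ ^ 2 ≤ ∑ i, f (r x.ofLp) i := by
          refine Finset.sum_le_sum fun i _ => ?_
          have h0 : 0 ≤ f (r x.ofLp) i := hmem.1 i
          have h1 : f (r x.ofLp) i ≤ 1 := by
            rw [← hmem.2]
            exact Finset.single_le_sum (f := f (r x.ofLp)) (fun j _ => hmem.1 j) (Finset.mem_univ i)
          have h2 : g x i = f (r x.ofLp) i := rfl
          rw [h2, Real.norm_eq_abs, abs_of_nonneg h0]
          nlinarith
      _ = 1 := hmem.2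
      _ ≤ 1 := le_rfl
  obtain ⟨x, _, hx⟩ := Pool.Agent.Lib.Brouwer.brouwer_closedBall zero_le_one g hgc.continuousOn hgm
  have h1 : f (r x.ofLp) = x.ofLp := congrArg WithLp.ofLp hx
  have h2 : x.ofLp ∈ stdSimplex ℝ (Fin d) := by
    rw [← h1]
    exact hm (r_mem hd _)
  exact ⟨x.ofLp, h2, by rwa [r_of_mem h2] at h1⟩

end BSimplexAux

open BSimplexAux in
theorem simplex_surj {d : ℕ} (φ : (Fin d → ℝ) → (Fin d → ℝ))
    (hφ : ContinuousOn φ (stdSimplex ℝ (Fin d)))
    (hm : MapsTo φ (stdSimplex ℝ (Fin d)) (stdSimplex ℝ (Fin d)))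
    (hf : ∀ s ∈ stdSimplex ℝ (Fin d), ∀ i, s i = 0 → φ s i = 0) :
    SurjOn φ (stdSimplex ℝ (Fin d)) (stdSimplex ℝ (Fin d)) := by
  intro p hp
  have hd : 0 < d := by
    rcases Nat.eq_zero_or_pos d with rfl | h
    · have := hp.2
      simp at this
    · exact h
  set θ : (Fin d → ℝ) → ℝ := fun s => ∑ j, max 0 (p j - φ s j) with hθ
  have hθ0 : ∀ s, 0 ≤ θ s := fun s => Finset.sum_nonneg fun j _ => le_max_left _ _
  set F : (Fin d → ℝ) → (Fin d → ℝ) := fun s i => (s i + max 0 (p i - φ s i)) / (1 + θ s) with hF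
  have hφi : ∀ i, ContinuousOn (fun s => φ s i) (stdSimplex ℝ (Fin d)) := fun i =>
    (continuous_apply i).comp_continuousOn hφ
  have hmaxc : ∀ i, ContinuousOn (fun s => max 0 (p i - φ s i)) (stdSimplex ℝ (Fin d)) := fun i =>
    ContinuousOn.sup continuousOn_const (continuousOn_const.sub (hφi i))
  have hFc : ContinuousOn F (stdSimplex ℝ (Fin d)) := by
    refine continuousOn_pi.2 fun i => ContinuousOn.div ?_ ?_ ?_
    · exact (continuous_apply i).continuousOn.add (hmaxc i)
    · exact continuousOn_const.add (continuousOn_finsetSum _ fun j _ => hmaxc j)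
    · intro s _
      have := hθ0 s
      positivity
  have hFm : MapsTo F (stdSimplex ℝ (Fin d)) (stdSimplex ℝ (Fin d)) := by
    intro s hs
    have h1 : 0 < 1 + θ s := by have := hθ0 s; positivity
    constructor
    · intro i
      have h2 : 0 ≤ s i := hs.1 i
      have h3 : 0 ≤ max 0 (p i - φ s i) := le_max_left _ _
      simp only [hF]
      positivity
    · simp only [hF]
      rw [← Finset.sum_div, Finset.sum_add_distrib, hs.2, div_eq_one_iff_eq h1.ne']
  obtain ⟨s, hs, hfix⟩ := brouwer_simplex hd F hFc hFm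
  refine ⟨s, hs, ?_⟩
  have h1 : 0 < 1 + θ s := by have := hθ0 s; positivity
  have key : ∀ i, s i * θ s = max 0 (p i - φ s i) := by
    intro i
    have h2 := congrFun hfix i
    simp only [hF] at h2
    rw [div_eq_iff h1.ne'] at h2
    linarith
  have hsum : ∑ j, (φ s j - p j) = 0 := by
    rw [Finset.sum_sub_distrib, (hm hs).2, hp.2, sub_self]
  rcases (hθ0 s).eq_or_lt with h0 | h0
  · have h2 : ∀ j, 0 ≤ φ s j - p j := by
      intro j
      have h3 := key j
      rw [← h0, mul_zero] at h3
      have h4 := le_max_right 0 (p j - φ s j)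
      rw [← h3] at h4
      linarith
    have h3 := (Finset.sum_eq_zero_iff_of_nonneg fun j _ => h2 j).1 hsum
    funext j
    have := h3 j (Finset.mem_univ j)
    linarith
  · exfalso
    -- some coordinate with `φ > p`
    have hex : ∃ i, p i < φ s i := by
      by_contra hcon
      push Not at hcon
      have h2 : ∀ j ∈ Finset.univ, φ s j - p j ≤ 0 := fun j _ => by linarith [hcon j]
      have h3 := (Finset.sum_eq_zero_iff_of_nonpos h2).1 hsum
      have h4 : θ s = 0 := by
        simp only [hθ]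
        refine Finset.sum_eq_zero fun j hj => ?_
        have := h3 j hj
        rw [show p j - φ s j = 0 by linarith, max_self]
      linarith
    obtain ⟨i, hi⟩ := hex
    have h2 := key i
    rw [max_eq_left (by linarith)] at h2
    have h3 : s i = 0 := by
      rcases mul_eq_zero.1 h2 with h | h
      · exact h
      · linarith
    have h4 := hf s hs i h3
    have h5 : 0 ≤ p i := hp.1 i
    linarith

end Pool.Agent.Lib.P51n
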