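import Pool.Agent.Lib.P51n.BMetric
import Pool.Agent.Lib.P51n.BSimplex

/-!
# P51n.BSard  (about 2.5 h)

A set of positive measure of positions where `dF` is nondegenerate in all cut directions.

Let `φ` be the map of `exists_phi` (`d = n+1 ≥ 2`).  By `simplex_surj` it is onto the simplex.  In
the coordinates `u ∈ ℝ^n`, `Δ̂ = {u : Pos 1 (posU u)}`, let `ψ(u)` be the first `n` coordinates of
`φ (posU u)`: `ψ` is Lipschitz on `Δ̂` (`dF_le`) and maps `Δ̂` onto `Δ̂`.
Let `V_I ∈ ℝ^n` be the first `n` coordinates of `cen (indI I)`; it is nonzero for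
`I ≠ ∅, univ`, and `posU (u + t V_I) = posU u + t • cen (indI I)`.
`E = {u ∈ interior Δ̂ : ∀ I ≠ ∅, univ, liminf_k 2^k dF(posU u, posU u + 2^{-k} cen (indI I)) > 0}`.
For `u ∈ interior Δ̂ \ E` at which `ψ` is differentiable, with `I` such that the liminf is `0`:
`|ψ(u + 2^{-k} V_I) - ψ(u)| ≤ (d+1) dF(...)`, so along a subsequence the difference quotient tends to
`0` and `Dψ(u) V_I = 0`, `det Dψ(u) = 0`.  By Rademacher
(`LipschitzOnWith.ae_differentiableWithinAt` / `LipschitzWith.ae_differentiableAt`),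
`MeasureTheory.addHaar_image_eq_zero_of_det_fderivWithin_eq_zero`, and because a Lipschitz image of
a null set of `ℝ^n` is null (`LipschitzOnWith.hausdorffMeasure_image_le`,
`MeasureTheory.hausdorffMeasure_pi_real`; the boundary of `Δ̂` is null too), if `E` were null then
`ψ(Δ̂) = Δ̂` would be null, but it contains an open set.  So `E` has positive outer measure.  `E` is
the countable union over `N` of the closed-in-`{u : ∀ j, 1/N ≤ posU u j}` sets
`{∀ j, 1/N ≤ posU u j} ∩ {∀ k ≥ N, ∀ I, dF ≥ (1/N) 2^{-k}}` (choose also `2^{-N} ≤ 1/N` so that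
everything stays in the simplex; `dF` is continuous), so one of them has positive measure.
-/

set_option autoImplicit false

noncomputable section

namespace Pool.Agent.Lib.P51n

open MeasureTheory

section aux

variable {n : ℕ}

lemma posU_castSucc (u : Fin n → ℝ) (j : Fin n) : posU u j.castSucc = u j := by
  unfold posU
  exact Fin.snoc_castSucc (α := fun _ => ℝ) _ _ _

lemma posU_last (u : Fin n → ℝ) : posU u (Fin.last n) = 1 - ∑ j, u j := by
  unfold posU
  exact Fin.snoc_last (α := fun _ => ℝ) _ _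

lemma sum_posU (u : Fin n → ℝ) : ∑ j, posU u j = 1 := by
  rw [Fin.sum_univ_castSucc]
  simp only [posU_castSucc, posU_last]
  ring

lemma norm_posU_sub (u u' : Fin n → ℝ) : ‖posU u - posU u'‖ ≤ (n + 1) * ‖u - u'‖ := by
  have hn : (0 : ℝ) ≤ n := Nat.cast_nonneg n
  have h0 : 0 ≤ ‖u - u'‖ := norm_nonneg _
  rw [pi_norm_le_iff_of_nonneg (by positivity)]
  intro i
  refine Fin.lastCases ?_ (fun j => ?_) i
  · have e : (posU u - posU u') (Fin.last n) = -∑ j, (u - u') j := by
      simp only [Pi.sub_apply, posU_last, Finset.sum_sub_distrib]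
      ring
    rw [e, norm_neg]
    refine (norm_sum_le _ _).trans ?_
    calc ∑ j, ‖(u - u') j‖ ≤ ∑ _j : Fin n, ‖u - u'‖ :=
          Finset.sum_le_sum fun j _ => norm_le_pi_norm _ j
      _ = n * ‖u - u'‖ := by simp
      _ ≤ (n + 1) * ‖u - u'‖ := by nlinarith
  · have e : (posU u - posU u') j.castSucc = (u - u') j := by
      simp only [Pi.sub_apply, posU_castSucc]
    rw [e]
    refine (norm_le_pi_norm _ j).trans ?_
    nlinarith

lemma sum_cen (w : Fin (n + 1) → ℝ) : ∑ j, cen w j = 0 := by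
  unfold cen
  rw [Finset.sum_sub_distrib, Finset.sum_const, Finset.card_univ, Fintype.card_fin, nsmul_eq_mul]
  have : ((n + 1 : ℕ) : ℝ) ≠ 0 := by positivity
  field_simp
  ring

lemma posU_add (u : Fin n → ℝ) (t : ℝ) (w : Fin (n + 1) → ℝ) (hw : ∑ j, w j = 0) :
    posU (u + t • fun j => w j.castSucc) = posU u + t • w := by
  funext i
  refine Fin.lastCases ?_ (fun j => ?_) i
  · have h : w (Fin.last n) = -∑ j : Fin n, w j.castSucc := by
      rw [Fin.sum_univ_castSucc] at hw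
      linarith
    simp only [Pi.add_apply, Pi.smul_apply, posU_last, smul_eq_mul, Finset.sum_add_distrib,
      ← Finset.mul_sum, h]
    ring
  · simp only [Pi.add_apply, Pi.smul_apply, posU_castSucc]

lemma cen_ne (I : Finset (Fin (n + 1))) (hI : I.Nonempty) (hI' : I ≠ Finset.univ) :
    (fun j : Fin n => cen (indI I) j.castSucc) ≠ 0 := by
  intro h
  have h1 : ∀ j : Fin n, cen (indI I) j.castSucc = 0 := fun j => congrFun h j
  have h2 : cen (indI I) (Fin.last n) = 0 := by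
    have := sum_cen (indI I)
    rw [Fin.sum_univ_castSucc] at this
    simpa [h1] using this
  have h3 : ∀ i, cen (indI I) i = 0 := fun i => Fin.lastCases h2 (fun j => h1 j) i
  obtain ⟨a, ha⟩ := hI
  obtain ⟨b, hb⟩ : ∃ b, b ∉ I := by
    by_contra hcon
    push Not at hcon
    exact hI' (Finset.eq_univ_iff_forall.2 hcon)
  have ha' := h3 a
  have hb' := h3 b
  unfold cen indI at ha' hb'
  simp only [ha, hb, if_true, if_false] at ha' hb'
  linarith

lemma norm_cen_le (I : Finset (Fin (n + 1))) (i : Fin (n + 1)) : -1 ≤ cen (indI I) i := by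
  unfold cen
  have h0 : 0 ≤ indI I i := by unfold indI; split_ifs <;> norm_num
  have h1 : (∑ j, indI I j) / ((n + 1 : ℕ) : ℝ) ≤ 1 := by
    rw [div_le_one (by positivity)]
    calc ∑ j, indI I j ≤ ∑ _j : Fin (n + 1), (1 : ℝ) := by
          refine Finset.sum_le_sum fun j _ => ?_
          unfold indI; split_ifs <;> norm_num
      _ = ((n + 1 : ℕ) : ℝ) := by simp
  linarith

lemma lip_null {g : (Fin n → ℝ) → (Fin n → ℝ)} {K : NNReal} (hg : LipschitzWith K g)
    {s : Set (Fin n → ℝ)} (hs : volume s = 0) : volume (g '' s) = 0 := by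
  rw [← hausdorffMeasure_pi_real] at hs ⊢
  have h := hg.hausdorffMeasure_image_le (d := (Fintype.card (Fin n) : ℝ)) (Nat.cast_nonneg _) s
  rw [hs, mul_zero] at h
  exact nonpos_iff_eq_zero.1 h

lemma pos_posU {u : Fin n → ℝ} (h : ∀ j, 0 ≤ posU u j) : Pos 1 (posU u) := ⟨h, sum_posU u⟩

lemma continuous_posU (j : Fin (n + 1)) : Continuous fun u : Fin n → ℝ => posU u j := by
  refine Fin.lastCases ?_ (fun j => ?_) j
  · simp only [posU_last]
    fun_prop
  · simp only [posU_castSucc]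
    fun_prop

/-- the boundary hyperplanes are null -/
lemma null_hyp (hn : 1 ≤ n) (j : Fin (n + 1)) : volume {u : Fin n → ℝ | posU u j = 0} = 0 := by
  refine Fin.lastCases ?_ (fun j => ?_) j
  · obtain ⟨ℓ, hℓ⟩ : ∃ ℓ : (Fin n → ℝ) →ₗ[ℝ] ℝ, ∀ u, ℓ u = ∑ j, u j :=
      ⟨∑ j, LinearMap.proj j, fun u => by simp⟩
    obtain ⟨u₀, hu₀⟩ : ∃ u₀ : Fin n → ℝ, ℓ u₀ = 1 :=
      ⟨Pi.single ⟨0, by omega⟩ 1, by rw [hℓ]; simp⟩
    have h := Measure.addHaar_affineSubspace (volume : Measure (Fin n → ℝ))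
      (AffineSubspace.mk' u₀ (LinearMap.ker ℓ)) (by
        intro htop
        have : (0 : Fin n → ℝ) ∈ AffineSubspace.mk' u₀ (LinearMap.ker ℓ) := by
          rw [htop]; trivial
        rw [AffineSubspace.mem_mk', LinearMap.mem_ker, vsub_eq_sub, map_sub, hu₀, map_zero] at this
        norm_num at this)
    refine measure_mono_null ?_ h
    intro u hu
    have hu' : 1 - ∑ j, u j = 0 := by rw [← posU_last]; exact hu
    show u ∈ AffineSubspace.mk' u₀ (LinearMap.ker ℓ)
    rw [AffineSubspace.mem_mk', LinearMap.mem_ker, vsub_eq_sub, map_sub, hu₀, hℓ]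
    linarith
  · simp only [posU_castSucc]
    exact Measure.pi_hyperplane (fun _ => volume) j 0

end aux

theorem exists_regular (n : ℕ) (hn : 1 ≤ n) (F : (Fin (n + 1) → Fin (n + 1) → ℝ) → ℝ)
    (hF : EFun (n + 1) F) : ∃ (c₁ η : ℝ) (k₀ : ℕ), 0 < c₁ ∧ 0 < η ∧
      0 < volume {u : Fin n → ℝ | (∀ j, η ≤ posU u j) ∧ ∀ k : ℕ, k₀ ≤ k →
        ∀ I : Finset (Fin (n + 1)), I.Nonempty → I ≠ Finset.univ →
          c₁ * (1 / 2 : ℝ) ^ k ≤ dF F (posU u) (posU u + (1 / 2 : ℝ) ^ k • cen (indI I))} := by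
  classical
  obtain ⟨φ, hφm, hφ0, hφl⟩ := exists_phi (d := n + 1) (by omega) hF
  by_contra hcon
  push Not at hcon
  -- the sets `E_N` are null
  obtain ⟨EN, hEN⟩ : ∃ EN : ℕ → Set (Fin n → ℝ), EN = fun N : ℕ =>
      {u : Fin n → ℝ | (∀ j, 1 / ((N : ℝ) + 1) ≤ posU u j) ∧ ∀ k : ℕ, N ≤ k →
        ∀ I : Finset (Fin (n + 1)), I.Nonempty → I ≠ Finset.univ →
          1 / ((N : ℝ) + 1) * (1 / 2 : ℝ) ^ k ≤
            dF F (posU u) (posU u + (1 / 2 : ℝ) ^ k • cen (indI I))} := ⟨_, rfl⟩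
  have hEN0 : ∀ N, volume (EN N) = 0 := by
    intro N
    rw [hEN]
    have := hcon (1 / ((N : ℝ) + 1)) (1 / ((N : ℝ) + 1)) N (by positivity) (by positivity)
    exact nonpos_iff_eq_zero.1 this
  -- the map `ψ`
  obtain ⟨ψ, hψ⟩ : ∃ ψ : (Fin n → ℝ) → (Fin n → ℝ), ψ = fun u j => φ (posU u) j.castSucc :=
    ⟨_, rfl⟩
  obtain ⟨Dl, hDl⟩ : ∃ Dl : Set (Fin n → ℝ), Dl = {u | ∀ j, 0 ≤ posU u j} := ⟨_, rfl⟩
  obtain ⟨U, hU⟩ : ∃ U : Set (Fin n → ℝ), U = {u | ∀ j, 0 < posU u j} := ⟨_, rfl⟩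
  have hUD : U ⊆ Dl := by
    rw [hU, hDl]
    exact fun u hu j => (hu j).le
  have hpos : ∀ u ∈ Dl, Pos 1 (posU u) := by
    intro u hu
    rw [hDl] at hu
    exact pos_posU hu
  obtain ⟨C, hC⟩ : ∃ C : ℝ, C = (((n + 1 : ℕ) : ℝ) + 1) * (2 * ((n + 1 : ℕ) : ℝ) ^ 2) * (n + 1) :=
    ⟨_, rfl⟩
  have hC0 : 0 ≤ C := by rw [hC]; positivity
  have hψl : ∀ u ∈ Dl, ∀ u' ∈ Dl, ‖ψ u - ψ u'‖ ≤
      (((n + 1 : ℕ) : ℝ) + 1) * dF F (posU u) (posU u') := by
    intro u hu u' hu'
    have h0 := dF_nonneg hF (hpos u hu) (hpos u' hu')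
    rw [pi_norm_le_iff_of_nonneg (by positivity)]
    intro j
    rw [hψ]
    exact hφl _ _ (hpos u hu) (hpos u' hu') _
  have hψL : LipschitzOnWith (Real.toNNReal C) ψ Dl := by
    apply LipschitzOnWith.of_dist_le_mul
    intro u hu u' hu'
    rw [dist_eq_norm, dist_eq_norm, Real.coe_toNNReal _ hC0]
    refine (hψl u hu u' hu').trans ?_
    have h1 := dF_le hF (hpos u hu) (hpos u' hu')
    have h2 := norm_posU_sub u u'
    rw [hC]
    calc (((n + 1 : ℕ) : ℝ) + 1) * dF F (posU u) (posU u')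
        ≤ (((n + 1 : ℕ) : ℝ) + 1) * (2 * ((n + 1 : ℕ) : ℝ) ^ 2 * ((n + 1) * ‖u - u'‖)) := by
          refine mul_le_mul_of_nonneg_left (h1.trans ?_) (by positivity)
          exact mul_le_mul_of_nonneg_left h2 (by positivity)
      _ = _ := by ring
  obtain ⟨g, hgL, hgE⟩ := hψL.extend_pi
  -- surjectivity
  have hsurj : Dl ⊆ g '' Dl := by
    intro p hp
    have hcont : ContinuousOn φ (stdSimplex ℝ (Fin (n + 1))) := by
      have hL : LipschitzOnWith (Real.toNNReal ((((n + 1 : ℕ) : ℝ) + 1) *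
          (2 * ((n + 1 : ℕ) : ℝ) ^ 2))) φ (stdSimplex ℝ (Fin (n + 1))) := by
        apply LipschitzOnWith.of_dist_le_mul
        intro s hs s' hs'
        rw [dist_eq_norm, dist_eq_norm, Real.coe_toNNReal _ (by positivity)]
        have h0 := norm_nonneg (s - s')
        rw [pi_norm_le_iff_of_nonneg (by positivity)]
        intro i
        refine (hφl s s' hs hs' i).trans ?_
        rw [mul_assoc]
        exact mul_le_mul_of_nonneg_left (dF_le hF hs hs') (by positivity)
      exact hL.continuousOn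
    have h := simplex_surj φ hcont (fun s hs => hφm s hs) (fun s hs i hi => hφ0 s hs i hi)
    obtain ⟨s, hs, hsp⟩ := h (show posU p ∈ stdSimplex ℝ (Fin (n + 1)) from hpos p hp)
    have hs1 : ∑ j, s j = 1 := hs.2
    have hsu : posU (fun j => s j.castSucc) = s := by
      funext i
      refine Fin.lastCases ?_ (fun j => ?_) i
      · rw [posU_last]
        rw [Fin.sum_univ_castSucc] at hs1
        linarith
      · rw [posU_castSucc]
    have hsD : (fun j => s j.castSucc) ∈ Dl := by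
      rw [hDl]
      show ∀ j, 0 ≤ posU (fun j => s j.castSucc) j
      rw [hsu]
      exact hs.1
    refine ⟨fun j => s j.castSucc, hsD, ?_⟩
    rw [← hgE hsD, hψ]
    funext j
    show φ (posU fun j => s j.castSucc) j.castSucc = p j
    rw [hsu, hsp, posU_castSucc]
  -- the decomposition
  have hUo : IsOpen U := by
    rw [hU]
    have : {u : Fin n → ℝ | ∀ j, 0 < posU u j} = ⋂ j, {u | 0 < posU u j} := by
      ext u; simp
    rw [this]
    exact isOpen_iInter_of_finite fun j => isOpen_lt continuous_const (continuous_posU j)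
  have hUne : U.Nonempty := by
    refine ⟨fun _ => 1 / ((n : ℝ) + 1), ?_⟩
    rw [hU]
    intro i
    refine Fin.lastCases ?_ (fun j => ?_) i
    · rw [posU_last, Finset.sum_const, Finset.card_univ, Fintype.card_fin, nsmul_eq_mul]
      have : (n : ℝ) * (1 / ((n : ℝ) + 1)) < 1 := by
        rw [mul_one_div, div_lt_one (by positivity)]
        linarith
      linarith
    · rw [posU_castSucc]
      positivity
  obtain ⟨Z, hZ⟩ : ∃ Z : Set (Fin n → ℝ), Z = {u | u ∈ U ∧ DifferentiableAt ℝ g u ∧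
    (fderiv ℝ g u).det = 0} := ⟨_, rfl⟩
  obtain ⟨Nd, hNd⟩ : ∃ Nd : Set (Fin n → ℝ), Nd = {u | ¬ DifferentiableAt ℝ g u} := ⟨_, rfl⟩
  have hNd0 : volume Nd = 0 := by
    have := hgL.ae_differentiableAt (μ := (volume : Measure (Fin n → ℝ)))
    rw [hNd]
    exact this
  have hZ0 : volume (g '' Z) = 0 := by
    refine addHaar_image_eq_zero_of_det_fderivWithin_eq_zero volume
      (f' := fun u => fderiv ℝ g u) (fun u hu => ?_) (fun u hu => ?_)
    · rw [hZ] at hu
      exact hu.2.1.hasFDerivAt.hasFDerivWithinAt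
    · rw [hZ] at hu
      exact hu.2.2
  have hbd : volume (Dl \ U) = 0 := by
    refine measure_mono_null (t := ⋃ j, {u : Fin n → ℝ | posU u j = 0}) ?_
      (measure_iUnion_null fun j => null_hyp hn j)
    intro u hu
    rw [hDl, hU] at hu
    obtain ⟨h1, h2⟩ := hu
    simp only [Set.mem_ofPred_eq, not_forall, not_lt] at h1 h2
    obtain ⟨j, hj⟩ := h2
    exact Set.mem_iUnion.2 ⟨j, le_antisymm hj (h1 j)⟩
  have hkey : U ⊆ (⋃ N, EN N) ∪ Nd ∪ Z := by
    intro u hu
    by_cases h1 : u ∈ ⋃ N, EN N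
    · exact Or.inl (Or.inl h1)
    by_cases h2 : DifferentiableAt ℝ g u
    swap
    · exact Or.inl (Or.inr (by rw [hNd]; exact h2))
    refine Or.inr ?_
    rw [hZ]
    refine ⟨hu, h2, ?_⟩
    -- a degenerate direction
    obtain ⟨I, hI1, hI2, hI⟩ : ∃ I : Finset (Fin (n + 1)), I.Nonempty ∧ I ≠ Finset.univ ∧
        ∀ ε : ℝ, 0 < ε → ∀ K : ℕ, ∃ k : ℕ, K ≤ k ∧
          dF F (posU u) (posU u + (1 / 2 : ℝ) ^ k • cen (indI I)) < ε * (1 / 2 : ℝ) ^ k := by
      by_contra hno
      push Not at hno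
      apply h1
      have hlim := tendsto_one_div_add_atTop_nhds_zero_nat (𝕜 := ℝ)
      have e1 : ∀ᶠ N : ℕ in Filter.atTop, ∀ j, 1 / ((N : ℝ) + 1) ≤ posU u j := by
        rw [Filter.eventually_all]
        intro j
        have hj : 0 < posU u j := by
          rw [hU] at hu
          exact hu j
        filter_upwards [hlim.eventually (gt_mem_nhds hj)] with N hN
        exact hN.le
      have e2 : ∀ᶠ N : ℕ in Filter.atTop, ∀ I : Finset (Fin (n + 1)), I.Nonempty →
          I ≠ Finset.univ → ∀ k : ℕ, N ≤ k → 1 / ((N : ℝ) + 1) * (1 / 2 : ℝ) ^ k ≤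
            dF F (posU u) (posU u + (1 / 2 : ℝ) ^ k • cen (indI I)) := by
        rw [Filter.eventually_all]
        intro I
        by_cases hI1 : I.Nonempty
        swap
        · exact Filter.Eventually.of_forall fun N h => absurd h hI1
        by_cases hI2 : I = Finset.univ
        · exact Filter.Eventually.of_forall fun N _ h => absurd hI2 h
        obtain ⟨ε, hε, K, hK⟩ := hno I hI1 hI2
        filter_upwards [hlim.eventually (gt_mem_nhds hε), Filter.eventually_ge_atTop K]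
          with N hN hNK _ _ k hk
        refine le_trans ?_ (hK k (hNK.trans hk))
        exact mul_le_mul_of_nonneg_right hN.le (by positivity)
      obtain ⟨N, hN1, hN2⟩ := (e1.and e2).exists
      refine Set.mem_iUnion.2 ⟨N, ?_⟩
      rw [hEN]
      exact ⟨hN1, fun k hk I a b => hN2 I a b k hk⟩
    obtain ⟨V, hV⟩ : ∃ V : Fin n → ℝ, V = fun j => cen (indI I) j.castSucc := ⟨_, rfl⟩
    have hV0 : V ≠ 0 := by rw [hV]; exact cen_ne I hI1 hI2
    have hDV : fderiv ℝ g u V = 0 := by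
      by_contra hne
      have hpos' : 0 < ‖fderiv ℝ g u V‖ := norm_pos_iff.2 hne
      obtain ⟨ε, hε⟩ : ∃ ε : ℝ, ε = ‖fderiv ℝ g u V‖ / 4 := ⟨_, rfl⟩
      have hε0 : 0 < ε := by rw [hε]; positivity
      have hVn : 0 ≤ ‖V‖ := norm_nonneg _
      have hlim : Filter.Tendsto (fun k : ℕ => (1 / 2 : ℝ) ^ k • V) Filter.atTop (nhds 0) := by
        have := (tendsto_pow_atTop_nhds_zero_of_lt_one (r := (1 / 2 : ℝ)) (by norm_num)
          (by norm_num)).smul_const V
        simpa using this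
      have hder := (hasFDerivAt_iff_isLittleO_nhds_zero.1 h2.hasFDerivAt).def
        (c := ε / (‖V‖ + 1)) (by positivity)
      have e1 := hlim.eventually hder
      have hlim2 : Filter.Tendsto (fun k : ℕ => u + (1 / 2 : ℝ) ^ k • V) Filter.atTop (nhds u) := by
        simpa using hlim.const_add u
      have e2 := hlim2.eventually (hUo.mem_nhds hu)
      obtain ⟨K, hK⟩ := Filter.eventually_atTop.1 (e1.and e2)
      obtain ⟨k, hk, hdF⟩ := hI (ε / (((n + 1 : ℕ) : ℝ) + 1)) (by positivity) K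
      obtain ⟨f1, f2⟩ := hK k hk
      have hp : 0 < (1 / 2 : ℝ) ^ k := by positivity
      have f3 := hψl _ (hUD f2) _ (hUD hu)
      rw [hgE (hUD f2), hgE (hUD hu), dF_comm, hV, posU_add _ _ _ (sum_cen _)] at f3
      have f4 : (((n + 1 : ℕ) : ℝ) + 1) *
          dF F (posU u) (posU u + (1 / 2 : ℝ) ^ k • cen (indI I)) ≤ ε * (1 / 2 : ℝ) ^ k := by
        calc _ ≤ (((n + 1 : ℕ) : ℝ) + 1) *
              (ε / (((n + 1 : ℕ) : ℝ) + 1) * (1 / 2 : ℝ) ^ k) :=
              mul_le_mul_of_nonneg_left hdF.le (by positivity)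
          _ = _ := by field_simp
      rw [← hV] at f3
      rw [map_smul, norm_smul, Real.norm_of_nonneg hp.le] at f1
      have f5 : ε / (‖V‖ + 1) * ((1 / 2 : ℝ) ^ k * ‖V‖) ≤ ε * (1 / 2 : ℝ) ^ k := by
        have : ‖V‖ / (‖V‖ + 1) ≤ 1 := by
          rw [div_le_one (by positivity)]
          linarith
        calc ε / (‖V‖ + 1) * ((1 / 2 : ℝ) ^ k * ‖V‖) =
            ε * (1 / 2 : ℝ) ^ k * (‖V‖ / (‖V‖ + 1)) := by ring
          _ ≤ ε * (1 / 2 : ℝ) ^ k * 1 := mul_le_mul_of_nonneg_left this (by positivity)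
          _ = _ := mul_one _
      have f6 : (1 / 2 : ℝ) ^ k * ‖fderiv ℝ g u V‖ ≤
          ‖g (u + (1 / 2 : ℝ) ^ k • V) - g u - (1 / 2 : ℝ) ^ k • fderiv ℝ g u V‖ +
            ‖g (u + (1 / 2 : ℝ) ^ k • V) - g u‖ := by
        rw [← Real.norm_of_nonneg hp.le, ← norm_smul, Real.norm_of_nonneg hp.le]
        have := norm_sub_le (g (u + (1 / 2 : ℝ) ^ k • V) - g u)
          (g (u + (1 / 2 : ℝ) ^ k • V) - g u - (1 / 2 : ℝ) ^ k • fderiv ℝ g u V)
        rw [sub_sub_cancel] at this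
        linarith
      have f7 : (1 / 2 : ℝ) ^ k * ‖fderiv ℝ g u V‖ ≤ 2 * ε * (1 / 2 : ℝ) ^ k := by
        linarith
      have f8 : ‖fderiv ℝ g u V‖ = 4 * ε := by rw [hε]; ring
      rw [f8] at f7
      nlinarith
    by_contra hdet
    apply hV0
    have hinj : Function.Injective (fderiv ℝ g u) := by
      have := (LinearMap.equivOfDetNeZero (fderiv ℝ g u : (Fin n → ℝ) →ₗ[ℝ] (Fin n → ℝ))
        hdet).injective
      exact this
    exact hinj (by rw [hDV, map_zero])
  have hcov : g '' Dl ⊆ g '' ((Dl \ U) ∪ (⋃ N, EN N) ∪ Nd) ∪ g '' Z := by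
    rw [← Set.image_union]
    apply Set.image_mono
    intro u hu
    by_cases h : u ∈ U
    · rcases hkey h with (h1 | h1) | h1
      · exact Or.inl (Or.inl (Or.inr h1))
      · exact Or.inl (Or.inr h1)
      · exact Or.inr h1
    · exact Or.inl (Or.inl (Or.inl ⟨hu, h⟩))
  have hnull : volume (g '' ((Dl \ U) ∪ (⋃ N, EN N) ∪ Nd)) = 0 := by
    apply lip_null hgL
    exact measure_union_null (measure_union_null hbd (measure_iUnion_null hEN0)) hNd0
  have hfin : volume U = 0 :=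
    measure_mono_null ((hUD.trans hsurj).trans hcov) (measure_union_null hnull hZ0)
  exact (hUo.measure_pos volume hUne).ne' hfin

end Pool.Agent.Lib.P51n
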