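import Pool.Agent.Lib.P51n.Sys

/-!
# P51n.BadPos  (about 1.2 h)

A good lattice is bounded away from the cusp at most positions.

Let `σ ∈ P` be bad, `s' = σ + v ≥ 0`, `∑ s'_j = T`.  There is `k ∈ Γ`, `k ≠ 0`,
`|k_j| < ρ 2^{s'_j}`.  With `s = lev k`: `s_j ≤ s'_j + 1` (`lev_le_pos`) and
`∑ s_j < T + 1 + log₂ ρ` (`sum_lev_lt`), so `s ∈ lowBlocks T Γ` and `T - ∑ s > K := -1 - log₂ ρ`.
For a given `s` the number of `σ ∈ ℤ^d` with `∑ σ_j = T` and `σ_j ≥ s_j - 1 - v_j` is at most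
`(T - ∑ s + d + 1)^(d-1)`: put `a_j = ⌈s_j - 1 - v_j⌉`, `∑ a_j ≥ ∑ s - d`, the numbers
`σ_j - a_j ≥ 0` have sum `e ≤ T - ∑ s + d`, and the first `d-1` of them, each `≤ e`, determine `σ`.
Hence the number of bad `σ` is at most
`∑_{s ∈ lowBlocks, T - ∑ s ≥ K} (T-∑s+d+1)^(d-1) ≤ sup_{k ≥ K} (k+d+1)^(d-1) 2^{-k} · cost T Γ`
`≤ (δ₀/C) · C T^(d-1)` if `ρ` is small.
-/

set_option autoImplicit false

noncomputable section

namespace Pool.Agent.Lib.P51n

/-- counting positions above a given block -/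
private lemma count_above {n : ℕ} (T : ℕ) (s : Fin (n + 1) → ℕ) (hsT : ∑ j, s j ≤ T)
    (v : Fin (n + 1) → ℝ) (hv : ∑ j, v j = 0) (Q : Finset (Fin (n + 1) → ℤ))
    (hQ : ∀ σ ∈ Q, ∑ j, σ j = (T : ℤ) ∧ ∀ j, (s j : ℝ) ≤ (σ j : ℝ) + v j + 1) :
    Q.card ≤ ((T - ∑ j, s j) + (n + 1) + 1) ^ n := by
  classical
  set a : Fin (n + 1) → ℤ := fun j => ⌈(s j : ℝ) - 1 - v j⌉ with ha
  have hale : ∀ σ ∈ Q, ∀ j, a j ≤ σ j := by
    intro σ hσ j
    have := (hQ σ hσ).2 j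
    exact Int.ceil_le.2 (by linarith)
  have hsum : (∑ j, (s j : ℤ)) - (n + 1) ≤ ∑ j, a j := by
    have h1 : ∑ j, ((s j : ℝ) - 1 - v j) ≤ ∑ j, (a j : ℝ) :=
      Finset.sum_le_sum fun j _ => Int.le_ceil _
    have h2 : ∑ j, ((s j : ℝ) - 1 - v j) = (∑ j, (s j : ℝ)) - (n + 1) := by
      rw [Finset.sum_sub_distrib, Finset.sum_sub_distrib, hv]
      simp
    rw [h2] at h1
    exact_mod_cast h1
  set E : ℕ := (T - ∑ j, s j) + (n + 1) with hE
  have hEz : (E : ℤ) = (T : ℤ) - ∑ j, (s j : ℤ) + (n + 1) := by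
    rw [hE]
    push_cast [Nat.cast_sub hsT]
    ring
  have hle : ∀ σ ∈ Q, ∀ j, σ j - a j ≤ E := by
    intro σ hσ j
    have h1 : σ j - a j ≤ ∑ i, (σ i - a i) :=
      Finset.single_le_sum (f := fun i => σ i - a i)
        (fun i _ => sub_nonneg.2 (hale σ hσ i)) (Finset.mem_univ j)
    rw [Finset.sum_sub_distrib, (hQ σ hσ).1] at h1
    rw [hEz]
    linarith
  have hcard : Q.card ≤ (Fintype.piFinset fun _ : Fin n => Finset.range (E + 1)).card := by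
    refine Finset.card_le_card_of_injOn (fun σ j => (σ j.castSucc - a j.castSucc).toNat) ?_ ?_
    · intro σ hσ
      rw [Finset.mem_coe, Fintype.mem_piFinset]
      intro j
      rw [Finset.mem_range]
      show (σ j.castSucc - a j.castSucc).toNat < E + 1
      have h1 := hale σ hσ j.castSucc
      have h2 := hle σ hσ j.castSucc
      omega
    · intro σ hσ τ hτ hst
      have hc : ∀ j : Fin n, σ j.castSucc = τ j.castSucc := by
        intro j
        have h1 := congrFun hst j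
        simp only at h1
        have h2 := hale σ hσ j.castSucc
        have h3 := hale τ hτ j.castSucc
        omega
      have hl : σ (Fin.last n) = τ (Fin.last n) := by
        have h1 := (hQ σ hσ).1
        have h2 := (hQ τ hτ).1
        rw [Fin.sum_univ_castSucc] at h1 h2
        have h3 : ∑ j : Fin n, σ j.castSucc = ∑ j : Fin n, τ j.castSucc :=
          Finset.sum_congr rfl fun j _ => hc j
        linarith
      funext j
      refine Fin.lastCases hl (fun i => hc i) j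
  refine hcard.trans ?_
  rw [Fintype.card_piFinset]
  simp

/-- polynomial against exponential -/
private lemma poly_exp (d : ℕ) {ε : ℝ} (hε : 0 < ε) :
    ∃ N : ℕ, ∀ u : ℕ, N ≤ u → ((u + d + 1 : ℕ) : ℝ) ^ (d - 1) ≤ ε * (2 : ℝ) ^ u := by
  have h := tendsto_pow_const_div_const_pow_of_one_lt (d - 1) (r := (2 : ℝ)) (by norm_num)
  have hε' : 0 < ε / (2 : ℝ) ^ (d + 1) := by positivity
  obtain ⟨N, hN⟩ := Filter.eventually_atTop.1 (h.eventually_lt_const hε')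
  refine ⟨N, fun u hu => ?_⟩
  have h1 := hN (u + d + 1) (by omega)
  have h2 : (0 : ℝ) < 2 ^ (u + d + 1) := by positivity
  rw [div_lt_iff₀ h2] at h1
  refine h1.le.trans (le_of_eq ?_)
  have h3 : (2 : ℝ) ^ (u + d + 1) = 2 ^ u * 2 ^ (d + 1) := by
    rw [← pow_add]
    rfl
  rw [h3]
  field_simp

open Classical in
theorem bad_positions (d : ℕ) (hd : 1 ≤ d) (C : ℝ) (hC : 1 ≤ C) {δ₀ : ℝ} (hδ : 0 < δ₀) :
    ∃ ρ : ℝ, 0 < ρ ∧ ρ ≤ 1 ∧ ∀ T : ℕ, 1 ≤ T → ∀ Γ : AddSubgroup (Fin d → ℤ), Good T C Γ →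
      ∀ v : Fin d → ℝ, ∑ j, v j = 0 → ∀ P : Finset (Fin d → ℤ),
      (∀ σ ∈ P, ∑ j, σ j = (T : ℤ) ∧ ∀ j, 0 ≤ (σ j : ℝ) + v j) →
      ((P.filter fun σ => ¬ Sys ρ (fun j => (σ j : ℝ) + v j) Γ).card : ℝ) ≤
        δ₀ * (T : ℝ) ^ (d - 1) := by
  have hC0 : 0 < C := by linarith
  obtain ⟨K, hK⟩ := poly_exp d (ε := δ₀ / C) (by positivity)
  have hρ0 : (0 : ℝ) < (1 / 2) ^ (K + 1) := by positivity
  have hρ2 : ((1 : ℝ) / 2) ^ (K + 1) ≤ 1 / 2 := by
    calc ((1 : ℝ) / 2) ^ (K + 1) ≤ (1 / 2) ^ 1 :=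
          pow_le_pow_of_le_one (by norm_num) (by norm_num) (by omega)
      _ = 1 / 2 := by norm_num
  refine ⟨(1 / 2) ^ (K + 1), hρ0, hρ2.trans (by norm_num), ?_⟩
  intro T _ Γ hΓ v hv P hP
  set ρ : ℝ := (1 / 2) ^ (K + 1) with hρ
  have hlog : Real.logb 2 ρ = -((K : ℝ) + 1) := by
    rw [hρ, Real.logb_pow, one_div, Real.logb_inv, Real.logb_self_eq_one (by norm_num)]
    push_cast
    ring
  set B := P.filter fun σ => ¬ Sys ρ (fun j => (σ j : ℝ) + v j) Γ with hB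
  -- the bad vector
  have hbad : ∀ σ : Fin d → ℤ, ∃ k : Fin d → ℤ, σ ∈ B → k ∈ Γ ∧ k ≠ 0 ∧
      ∀ j, |(k j : ℝ)| < ρ * (2 : ℝ) ^ ((σ j : ℝ) + v j) := by
    intro σ
    by_cases hσ : σ ∈ B
    · have h1 := (Finset.mem_filter.1 hσ).2
      unfold Sys at h1
      push Not at h1
      obtain ⟨k, hk, hk0, hk1⟩ := h1
      exact ⟨k, fun _ => ⟨hk, hk0, hk1⟩⟩
    · exact ⟨0, fun h => absurd h hσ⟩
  choose k hk using hbad
  have hkey : ∀ σ ∈ B, (∀ j, (lev (k σ) j : ℝ) ≤ (σ j : ℝ) + v j + 1) ∧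
      lev (k σ) ∈ lowBlocks T Γ ∧ K ≤ T - ∑ j, lev (k σ) j := by
    intro σ hσ
    obtain ⟨hkΓ, hk0, hkb⟩ := hk σ hσ
    obtain ⟨hsumσ, hpos⟩ := hP σ (Finset.mem_filter.1 hσ).1
    have h1 := lev_le_pos (k := k σ) (s := fun j => (σ j : ℝ) + v j) hpos hρ0
      (hρ2.trans (by norm_num)) hkb
    have h2 := sum_lev_lt hk0 (s := fun j => (σ j : ℝ) + v j) hpos hρ0 hρ2 hkb
    have h3 : ∑ j, ((σ j : ℝ) + v j) = T := by
      rw [Finset.sum_add_distrib, hv, add_zero]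
      exact_mod_cast hsumσ
    rw [h3, hlog] at h2
    have h4 : ((∑ j, lev (k σ) j : ℕ) : ℝ) + K < T := by
      push_cast
      linarith
    have h5 : ∑ j, lev (k σ) j + K < T := by exact_mod_cast h4
    refine ⟨h1, ?_, by omega⟩
    unfold lowBlocks
    rw [Finset.mem_filter]
    refine ⟨?_, by omega, ⟨k σ, hkΓ, hk0, rfl⟩⟩
    rw [Fintype.mem_piFinset]
    intro j
    rw [Finset.mem_range]
    have h6 : lev (k σ) j ≤ ∑ i, lev (k σ) i :=
      Finset.single_le_sum (f := fun i => lev (k σ) i) (fun i _ => Nat.zero_le _)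
        (Finset.mem_univ j)
    omega
  set S := (lowBlocks T Γ).filter fun s => K ≤ T - ∑ j, s j with hS
  have hmaps : ∀ σ ∈ B, lev (k σ) ∈ S := fun σ hσ =>
    Finset.mem_filter.2 ⟨(hkey σ hσ).2.1, (hkey σ hσ).2.2⟩
  have hfib : ∀ s ∈ S, (((B.filter fun σ => lev (k σ) = s).card : ℕ) : ℝ) ≤
      δ₀ / C * (2 : ℝ) ^ (T - ∑ j, s j) := by
    intro s hs
    obtain ⟨hs1, hs2⟩ := Finset.mem_filter.1 hs
    have hsT : ∑ j, s j ≤ T := by
      unfold lowBlocks at hs1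
      exact (Finset.mem_filter.1 hs1).2.1
    obtain ⟨n, rfl⟩ : ∃ n, d = n + 1 := ⟨d - 1, by omega⟩
    have h1 := count_above T s hsT v hv (B.filter fun σ => lev (k σ) = s) (by
      intro σ hσ
      obtain ⟨hσB, hσs⟩ := Finset.mem_filter.1 hσ
      refine ⟨(hP σ (Finset.mem_filter.1 hσB).1).1, fun j => ?_⟩
      have := (hkey σ hσB).1 j
      rwa [hσs] at this)
    have h2 := hK _ hs2
    refine le_trans ?_ h2
    have h3 : (((B.filter fun σ => lev (k σ) = s).card : ℕ) : ℝ) ≤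
        ((((T - ∑ j, s j) + (n + 1) + 1) ^ n : ℕ) : ℝ) := by exact_mod_cast h1
    refine h3.trans (le_of_eq ?_)
    push_cast
    simp
  calc (B.card : ℝ) = ∑ s ∈ S, (((B.filter fun σ => lev (k σ) = s).card : ℕ) : ℝ) := by
        rw [Finset.card_eq_sum_card_fiberwise hmaps]
        push_cast
        rfl
    _ ≤ ∑ s ∈ S, δ₀ / C * (2 : ℝ) ^ (T - ∑ j, s j) := Finset.sum_le_sum hfib
    _ ≤ ∑ s ∈ lowBlocks T Γ, δ₀ / C * (2 : ℝ) ^ (T - ∑ j, s j) :=
        Finset.sum_le_sum_of_subset_of_nonneg (Finset.filter_subset _ _)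
          fun s _ _ => by positivity
    _ = δ₀ / C * cost T Γ := by
        rw [← Finset.mul_sum]
        rfl
    _ ≤ δ₀ / C * (C * (T : ℝ) ^ (d - 1)) :=
        mul_le_mul_of_nonneg_left hΓ.cost_le (by positivity)
    _ = δ₀ * (T : ℝ) ^ (d - 1) := by
        field_simp

end Pool.Agent.Lib.P51n
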