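import Pool.Agent.Lib.P51n.CDefs

/-!
# P51n.CActive

Positive entropy gives many non-concentrated digit blocks, for most points.

Choose `k₀ ≥ 21/γ`, `θ = γ/32`, `p = τθ/(2k₀)`, `N₀` large.  Fix an offset `o < k₀`, `n_r = o + r k₀`,
`R = ⌊(N-o)/k₀⌋`, so `n_R ≤ N < n_R + k₀`.  For `x ∈ Ω` let `cell(n,x)` be the fibre of
`(Y, dig n a)`.  If `cell(n_r,x)` is concentrated (not `NC k₀ p` for `2^{n_r} a`) fix `y` with
`#{|2^{n_r} a - y| < 2^{-k₀}} > (1-p) #cell`; all these points have `dig n_{r+1} a` in the set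
`Win` of three integers.  `x` deviates at `r` if
`cell(n_r,x)` is concentrated and `dig n_{r+1} a x ∉ Win`.
Deviations are rare (`p|Ω|` for each `r`), and a Kraft sum with the weights `2^{-k₀}` (active),
`1/6` (concentrated, no deviation), `2^{-k₀-1}` (deviation) bounds the number of points with few
active and few deviating `r`.
-/

set_option autoImplicit false

noncomputable section

namespace Pool.Agent.Lib.P51n

namespace CActiveAux

open Classical

variable {α β δ κ : Type}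

theorem mem_fib {Ω : Finset α} {f : α → β} {x y : α} : y ∈ fib Ω f x ↔ y ∈ Ω ∧ f y = f x := by
  simp [fib]

theorem fib_subset (Ω : Finset α) (f : α → β) (x : α) : fib Ω f x ⊆ Ω :=
  fun _ hy => (mem_fib.1 hy).1

theorem wt_congr {Ω : Finset α} {f : α → β} {x y : α} (h : f x = f y) : wt Ω f x = wt Ω f y := by
  simp only [wt, fib, h]

theorem fib_congr {Ω : Finset α} {f : α → β} {x y : α} (h : f x = f y) :
    fib Ω f x = fib Ω f y := by
  simp only [fib, h]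

theorem wt_pos {Ω : Finset α} {f : α → β} {x : α} (hx : x ∈ Ω) : 0 < wt Ω f x := by
  rw [wt, Nat.cast_pos, Finset.card_pos]
  exact ⟨x, mem_fib.2 ⟨hx, rfl⟩⟩

/-- double counting over the fibres of `f` -/
theorem sum_fib (Ω : Finset α) (f : α → β) (F : α → ℝ) :
    ∑ x ∈ Ω, (∑ y ∈ fib Ω f x, F y) / wt Ω f x = ∑ y ∈ Ω, F y := by
  have h1 : ∀ x ∈ Ω, (∑ y ∈ fib Ω f x, F y) / wt Ω f x =
      ∑ y ∈ Ω, if f y = f x then F y / wt Ω f y else 0 := by
    intro x _
    rw [Finset.sum_div, fib, Finset.sum_filter]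
    refine Finset.sum_congr rfl fun y _ => ?_
    split_ifs with h
    · rw [wt_congr (x := x) (y := y) h.symm]
    · rfl
  rw [Finset.sum_congr rfl h1, Finset.sum_comm]
  refine Finset.sum_congr rfl fun y hy => ?_
  have h2 : ∀ x ∈ Ω, (if f y = f x then F y / wt Ω f y else 0) =
      if f x = f y then F y / wt Ω f y else 0 := by
    intro x _
    simp only [eq_comm]
  rw [Finset.sum_congr rfl h2, ← Finset.sum_filter, Finset.sum_const, nsmul_eq_mul]
  have h3 : ((Finset.filter (fun x => f x = f y) Ω).card : ℝ) = wt Ω f y := rfl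
  rw [h3, mul_div_cancel₀]
  exact (wt_pos hy).ne'

/-- one step of the Kraft sum -/
theorem refine_step (Ω : Finset α) (f : α → β) (g : α → δ) (W w : α → ℝ)
    (hW0 : ∀ x ∈ Ω, 0 ≤ W x) (hW : ∀ x ∈ Ω, ∀ y ∈ Ω, f y = f x → W y = W x)
    (hw : ∀ x ∈ Ω, ∑ y ∈ fib Ω f x, w y / wt Ω g y ≤ 1) :
    ∑ y ∈ Ω, W y * w y / wt Ω g y ≤ ∑ y ∈ Ω, W y / wt Ω f y := by
  rw [← sum_fib Ω f (fun y => W y * w y / wt Ω g y)]
  refine Finset.sum_le_sum fun x hx => ?_
  have h1 : ∑ y ∈ fib Ω f x, W y * w y / wt Ω g y = W x * ∑ y ∈ fib Ω f x, w y / wt Ω g y := by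
    rw [Finset.mul_sum]
    refine Finset.sum_congr rfl fun y hy => ?_
    obtain ⟨h2, h3⟩ := mem_fib.1 hy
    rw [hW x hx y h2 h3, mul_div_assoc]
  rw [h1]
  refine div_le_div_of_nonneg_right ?_ (wt_pos hx).le
  calc W x * ∑ y ∈ fib Ω f x, w y / wt Ω g y ≤ W x * 1 :=
        mul_le_mul_of_nonneg_left (hw x hx) (hW0 x hx)
    _ = W x := mul_one _

/-- the number of children -/
theorem count (Ω C : Finset α) (hC : C ⊆ Ω) (Y : α → κ) (h : α → ℤ) (x : α)
    (hY : ∀ y ∈ C, Y y = Y x) (M : Finset ℤ) (hM : ∀ y ∈ C, h y ∈ M) :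
    ∑ y ∈ C, 1 / wt Ω (fun y => (Y y, h y)) y ≤ (M.card : ℝ) := by
  rw [← Finset.sum_fiberwise_of_maps_to hM, Finset.card_eq_sum_ones, Nat.cast_sum, Nat.cast_one]
  refine Finset.sum_le_sum fun m _ => ?_
  rcases (C.filter fun y => h y = m).eq_empty_or_nonempty with he | ⟨z, hz⟩
  · rw [he, Finset.sum_empty]; exact zero_le_one
  · obtain ⟨hzC, hzm⟩ := Finset.mem_filter.1 hz
    have h1 : ∀ y ∈ C.filter (fun y => h y = m), 1 / wt Ω (fun y => (Y y, h y)) y =
        1 / wt Ω (fun y => (Y y, h y)) z := by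
      intro y hy
      obtain ⟨hyC, hym⟩ := Finset.mem_filter.1 hy
      rw [wt_congr (x := y) (y := z)]
      simp only [Prod.mk.injEq]
      exact ⟨(hY y hyC).trans (hY z hzC).symm, hym.trans hzm.symm⟩
    rw [Finset.sum_congr rfl h1, Finset.sum_const, nsmul_eq_mul, mul_one_div,
      div_le_one (wt_pos (hC hzC)), wt, Nat.cast_le]
    refine Finset.card_le_card fun y hy => ?_
    obtain ⟨hyC, hym⟩ := Finset.mem_filter.1 hy
    refine mem_fib.2 ⟨hC hyC, ?_⟩
    simp only [Prod.mk.injEq]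
    exact ⟨(hY y hyC).trans (hY z hzC).symm, hym.trans hzm.symm⟩

/-- digits of a longer expansion -/
theorem dig_add (n k : ℕ) (a : α → ℝ) (y : α) :
    dig (n + k) a y = ⌊(2 : ℝ) ^ k * ((2 : ℝ) ^ n * a y)⌋ := by
  rw [dig, pow_add]
  congr 1
  ring

theorem dig_mem (n k : ℕ) (a : α → ℝ) (y : α) :
    dig (n + k) a y ∈ Finset.Ico ((2 : ℤ) ^ k * dig n a y) ((2 : ℤ) ^ k * dig n a y + 2 ^ k) := by
  rw [Finset.mem_Ico, dig_add, Int.le_floor, Int.floor_lt]
  have h1 := Int.floor_le ((2 : ℝ) ^ n * a y)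
  have h2 := Int.lt_floor_add_one ((2 : ℝ) ^ n * a y)
  have h3 : (0 : ℝ) < 2 ^ k := by positivity
  have h4 : (dig n a y : ℤ) = ⌊(2 : ℝ) ^ n * a y⌋ := rfl
  rw [h4]
  push_cast
  constructor
  · exact mul_le_mul_of_nonneg_left h1 h3.le
  · have := mul_lt_mul_of_pos_left h2 h3
    linarith

theorem dig_refines {n m : ℕ} (hnm : n ≤ m) (a : α → ℝ) {y z : α} (h : dig m a y = dig m a z) :
    dig n a y = dig n a z := by
  obtain ⟨k, rfl⟩ := Nat.exists_eq_add_of_le hnm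
  have h1 := Finset.mem_Ico.1 (dig_mem n k a y)
  have h2 := Finset.mem_Ico.1 (dig_mem n k a z)
  rw [h] at h1
  have h3 : (0 : ℤ) < 2 ^ k := by positivity
  have h4 : (2 : ℤ) ^ k * dig n a y < 2 ^ k * (dig n a z + 1) := by linarith [h1.1, h2.2]
  have h5 : (2 : ℤ) ^ k * dig n a z < 2 ^ k * (dig n a y + 1) := by linarith [h2.1, h1.2]
  have h6 := lt_of_mul_lt_mul_left h4 h3.le
  have h7 := lt_of_mul_lt_mul_left h5 h3.le
  omega

/-- the concentration point of a concentrated cell -/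
def pt (k₀ : ℕ) (p : ℝ) (B : Finset α) (f : α → ℝ) : ℝ :=
  if h : ∃ y : ℝ, (1 - p) * B.card < ((B.filter fun x => |f x - y| < (1 / 2 : ℝ) ^ k₀).card : ℝ)
  then h.choose else 0

theorem pt_spec {k₀ : ℕ} {p : ℝ} {B : Finset α} {f : α → ℝ} (h : ¬ NC k₀ p B f) :
    (1 - p) * B.card <
      ((B.filter fun x => |f x - pt k₀ p B f| < (1 / 2 : ℝ) ^ k₀).card : ℝ) := by
  have h' : ∃ y : ℝ, (1 - p) * B.card <
      ((B.filter fun x => |f x - y| < (1 / 2 : ℝ) ^ k₀).card : ℝ) := by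
    by_contra hc
    apply h
    intro y
    by_contra hy
    exact hc ⟨y, not_le.1 hy⟩
  rw [pt, dif_pos h']
  exact h'.choose_spec

/-- the window of three integers -/
def win (k₀ : ℕ) (y : ℝ) : Finset ℤ := Finset.Icc (⌊(2 : ℝ) ^ k₀ * y⌋ - 1) (⌊(2 : ℝ) ^ k₀ * y⌋ + 1)

theorem card_win (k₀ : ℕ) (y : ℝ) : (win k₀ y).card = 3 := by
  rw [win, Int.card_Icc]
  ring_nf
  rfl

theorem mem_win {k₀ : ℕ} {y v : ℝ} (h : |v - y| < (1 / 2 : ℝ) ^ k₀) :
    ⌊(2 : ℝ) ^ k₀ * v⌋ ∈ win k₀ y := by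
  have h3 : (0 : ℝ) < 2 ^ k₀ := by positivity
  have h4 : (2 : ℝ) ^ k₀ * (1 / 2 : ℝ) ^ k₀ = 1 := by
    rw [← mul_pow]; norm_num
  obtain ⟨h1, h2⟩ := abs_lt.1 h
  have h5 : (2 : ℝ) ^ k₀ * v - 2 ^ k₀ * y < 1 := by
    have := mul_lt_mul_of_pos_left h2 h3
    rw [h4] at this
    linarith
  have h6 : -1 < (2 : ℝ) ^ k₀ * v - 2 ^ k₀ * y := by
    have := mul_lt_mul_of_pos_left h1 h3
    rw [mul_neg, h4] at this
    linarith
  rw [win, Finset.mem_Icc]
  have h7 := Int.floor_le ((2 : ℝ) ^ k₀ * y)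
  have h8 := Int.lt_floor_add_one ((2 : ℝ) ^ k₀ * y)
  constructor
  · rw [Int.le_floor]
    push_cast
    linarith
  · have : ⌊(2 : ℝ) ^ k₀ * v⌋ < ⌊(2 : ℝ) ^ k₀ * y⌋ + 2 := by
      rw [Int.floor_lt]
      push_cast
      linarith
    omega

section chain

variable (k₀ : ℕ) (p : ℝ) (Ω : Finset α) (Y : α → κ) (a : α → ℝ)

/-- the cell of `x` at level `n` -/
def cell (n : ℕ) (x : α) : Finset α := fib Ω (fun y => (Y y, dig n a y)) x

/-- activity of `x` at level `n` -/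
def Act (n : ℕ) (x : α) : Prop := NC k₀ p (cell Ω Y a n x) (fun y => (2 : ℝ) ^ n * a y)

/-- the window of the cell of `x` at level `n` -/
def wn (n : ℕ) (x : α) : Finset ℤ :=
  win k₀ (pt k₀ p (cell Ω Y a n x) (fun y => (2 : ℝ) ^ n * a y))

/-- deviation of `x` at level `n` -/
def Dev (n : ℕ) (x : α) : Prop :=
  ¬ Act k₀ p Ω Y a n x ∧ dig (n + k₀) a x ∉ wn k₀ p Ω Y a n x

/-- weights -/
def we (n : ℕ) (x : α) : ℝ :=
  if Act k₀ p Ω Y a n x then (1 / 2 : ℝ) ^ k₀ else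
    if dig (n + k₀) a x ∈ wn k₀ p Ω Y a n x then 1 / 6 else (1 / 2 : ℝ) ^ (k₀ + 1)

theorem cell_congr {n : ℕ} {x y : α} (h1 : Y x = Y y) (h2 : dig n a x = dig n a y) :
    cell Ω Y a n x = cell Ω Y a n y := by
  rw [cell, cell, fib_congr]
  simp only [h1, h2]

/-- rarity of deviations -/
theorem dev_card (hp : 0 ≤ p) (n : ℕ) :
    ((Ω.filter fun x => Dev k₀ p Ω Y a n x).card : ℝ) ≤ p * Ω.card := by
  have h1 : ((Ω.filter fun x => Dev k₀ p Ω Y a n x).card : ℝ) =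
      ∑ y ∈ Ω, if Dev k₀ p Ω Y a n y then (1 : ℝ) else 0 := by
    rw [Finset.sum_ite, Finset.sum_const_zero, add_zero, Finset.sum_const, nsmul_eq_mul, mul_one]
  rw [h1, ← sum_fib Ω (fun y => (Y y, dig n a y))]
  have h2 : p * (Ω.card : ℝ) = ∑ _x ∈ Ω, p := by
    rw [Finset.sum_const, nsmul_eq_mul, mul_comm]
  rw [h2]
  refine Finset.sum_le_sum fun x hx => ?_
  have hpos : 0 < wt Ω (fun y => (Y y, dig n a y)) x := wt_pos hx
  rw [div_le_iff₀ hpos, Finset.sum_ite, Finset.sum_const_zero, add_zero, Finset.sum_const,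
    nsmul_eq_mul, mul_one]
  change _ ≤ p * ((cell Ω Y a n x).card : ℝ)
  change (((cell Ω Y a n x).filter fun y => Dev k₀ p Ω Y a n y).card : ℝ) ≤ _
  have hcell : ∀ y ∈ cell Ω Y a n x, cell Ω Y a n y = cell Ω Y a n x := by
    intro y hy
    obtain ⟨_, h4⟩ := mem_fib.1 hy
    exact fib_congr h4
  have hself : x ∈ cell Ω Y a n x := mem_fib.2 ⟨hx, rfl⟩
  by_cases hact : Act k₀ p Ω Y a n x
  · have h5 : (cell Ω Y a n x).filter (fun y => Dev k₀ p Ω Y a n y) = ∅ := by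
      refine Finset.filter_eq_empty_iff.2 fun y hy hd => ?_
      apply hd.1
      rw [Act, hcell y hy]
      exact hact
    rw [h5, Finset.card_empty, Nat.cast_zero]
    positivity
  · have h5 := pt_spec hact
    set y₀ := pt k₀ p (cell Ω Y a n x) (fun y => (2 : ℝ) ^ n * a y) with hy₀
    have h6 : (cell Ω Y a n x).filter (fun y => Dev k₀ p Ω Y a n y) ⊆
        (cell Ω Y a n x).filter (fun y => ¬ |(2 : ℝ) ^ n * a y - y₀| < (1 / 2 : ℝ) ^ k₀) := by
      intro y hy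
      obtain ⟨hy1, hy2⟩ := Finset.mem_filter.1 hy
      refine Finset.mem_filter.2 ⟨hy1, fun hc => hy2.2 ?_⟩
      rw [wn, hcell y hy1, dig_add]
      exact mem_win hc
    have h7 := Finset.card_filter_add_card_filter_not (s := cell Ω Y a n x)
      (fun y => |(2 : ℝ) ^ n * a y - y₀| < (1 / 2 : ℝ) ^ k₀)
    have h8 : (((cell Ω Y a n x).filter (fun y => Dev k₀ p Ω Y a n y)).card : ℝ) ≤
        (((cell Ω Y a n x).filter
          (fun y => ¬ |(2 : ℝ) ^ n * a y - y₀| < (1 / 2 : ℝ) ^ k₀)).card : ℝ) := by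
      exact_mod_cast Finset.card_le_card h6
    have h9 : (((cell Ω Y a n x).filter
          (fun y => |(2 : ℝ) ^ n * a y - y₀| < (1 / 2 : ℝ) ^ k₀)).card : ℝ) +
        (((cell Ω Y a n x).filter
          (fun y => ¬ |(2 : ℝ) ^ n * a y - y₀| < (1 / 2 : ℝ) ^ k₀)).card : ℝ) =
        ((cell Ω Y a n x).card : ℝ) := by exact_mod_cast h7
    linarith

theorem we_nonneg (n : ℕ) (x : α) : 0 ≤ we k₀ p Ω Y a n x := by
  rw [we]
  split_ifs <;> positivity

/-- the Kraft inequality for the children of a cell -/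
theorem we_kraft (n : ℕ) (x : α) :
    ∑ y ∈ fib Ω (fun y => (Y y, dig n a y)) x,
      we k₀ p Ω Y a n y / wt Ω (fun y => (Y y, dig (n + k₀) a y)) y ≤ 1 := by
  have hcell : ∀ y ∈ cell Ω Y a n x, cell Ω Y a n y = cell Ω Y a n x := by
    intro y hy
    obtain ⟨_, h4⟩ := mem_fib.1 hy
    exact fib_congr h4
  have hY : ∀ y ∈ cell Ω Y a n x, Y y = Y x := by
    intro y hy
    obtain ⟨_, h4⟩ := mem_fib.1 hy
    simp only [Prod.mk.injEq] at h4
    exact h4.1
  have hd : ∀ y ∈ cell Ω Y a n x, dig n a y = dig n a x := by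
    intro y hy
    obtain ⟨_, h4⟩ := mem_fib.1 hy
    simp only [Prod.mk.injEq] at h4
    exact h4.2
  have hsub : cell Ω Y a n x ⊆ Ω := fib_subset _ _ _
  set M : Finset ℤ := Finset.Ico ((2 : ℤ) ^ k₀ * dig n a x) ((2 : ℤ) ^ k₀ * dig n a x + 2 ^ k₀)
    with hM
  have hMc : (M.card : ℝ) = 2 ^ k₀ := by
    rw [hM, Int.card_Ico, add_sub_cancel_left]
    have : ((2 : ℤ) ^ k₀).toNat = 2 ^ k₀ := by
      have h := Int.toNat_natCast (2 ^ k₀)
      push_cast at h
      exact h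
    rw [this]
    push_cast
    rfl
  have hMm : ∀ y ∈ cell Ω Y a n x, dig (n + k₀) a y ∈ M := by
    intro y hy
    have := dig_mem n k₀ a y
    rwa [hd y hy] at this
  have h2 : (1 / 2 : ℝ) ^ k₀ * 2 ^ k₀ = 1 := by
    rw [← mul_pow]; norm_num
  change ∑ y ∈ cell Ω Y a n x, _ ≤ _
  by_cases hact : Act k₀ p Ω Y a n x
  · have h1 : ∀ y ∈ cell Ω Y a n x,
        we k₀ p Ω Y a n y / wt Ω (fun y => (Y y, dig (n + k₀) a y)) y =
        (1 / 2 : ℝ) ^ k₀ * (1 / wt Ω (fun y => (Y y, dig (n + k₀) a y)) y) := by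
      intro y hy
      have : Act k₀ p Ω Y a n y := by rw [Act, hcell y hy]; exact hact
      rw [we, if_pos this, mul_one_div]
    rw [Finset.sum_congr rfl h1, ← Finset.mul_sum]
    have h3 := count Ω (cell Ω Y a n x) hsub Y (fun y => dig (n + k₀) a y) x hY M hMm
    rw [hMc] at h3
    calc _ ≤ (1 / 2 : ℝ) ^ k₀ * 2 ^ k₀ := mul_le_mul_of_nonneg_left h3 (by positivity)
      _ = 1 := h2
  · have hnact : ∀ y ∈ cell Ω Y a n x, ¬ Act k₀ p Ω Y a n y := by
      intro y hy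
      rw [Act, hcell y hy]; exact hact
    have hwn : ∀ y ∈ cell Ω Y a n x, wn k₀ p Ω Y a n y = wn k₀ p Ω Y a n x := by
      intro y hy
      rw [wn, hcell y hy]; rfl
    rw [← Finset.sum_filter_add_sum_filter_not (cell Ω Y a n x)
      (fun y => dig (n + k₀) a y ∈ wn k₀ p Ω Y a n x)]
    have hA : ∑ y ∈ (cell Ω Y a n x).filter (fun y => dig (n + k₀) a y ∈ wn k₀ p Ω Y a n x),
        we k₀ p Ω Y a n y / wt Ω (fun y => (Y y, dig (n + k₀) a y)) y ≤ 1 / 2 := by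
      have h1 : ∀ y ∈ (cell Ω Y a n x).filter (fun y => dig (n + k₀) a y ∈ wn k₀ p Ω Y a n x),
          we k₀ p Ω Y a n y / wt Ω (fun y => (Y y, dig (n + k₀) a y)) y =
          (1 / 6 : ℝ) * (1 / wt Ω (fun y => (Y y, dig (n + k₀) a y)) y) := by
        intro y hy
        obtain ⟨hy1, hy2⟩ := Finset.mem_filter.1 hy
        rw [we, if_neg (hnact y hy1), if_pos (by rw [hwn y hy1]; exact hy2), mul_one_div]
      rw [Finset.sum_congr rfl h1, ← Finset.mul_sum]
      have h3 := count Ω ((cell Ω Y a n x).filter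
        (fun y => dig (n + k₀) a y ∈ wn k₀ p Ω Y a n x))
        ((Finset.filter_subset _ _).trans hsub) Y (fun y => dig (n + k₀) a y) x
        (fun y hy => hY y (Finset.mem_filter.1 hy).1) (wn k₀ p Ω Y a n x)
        (fun y hy => (Finset.mem_filter.1 hy).2)
      rw [wn, card_win] at h3
      calc _ ≤ (1 / 6 : ℝ) * ((3 : ℕ) : ℝ) := mul_le_mul_of_nonneg_left h3 (by positivity)
        _ = 1 / 2 := by norm_num
    have hB : ∑ y ∈ (cell Ω Y a n x).filter (fun y => ¬ dig (n + k₀) a y ∈ wn k₀ p Ω Y a n x),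
        we k₀ p Ω Y a n y / wt Ω (fun y => (Y y, dig (n + k₀) a y)) y ≤ 1 / 2 := by
      have h1 : ∀ y ∈ (cell Ω Y a n x).filter
          (fun y => ¬ dig (n + k₀) a y ∈ wn k₀ p Ω Y a n x),
          we k₀ p Ω Y a n y / wt Ω (fun y => (Y y, dig (n + k₀) a y)) y =
          (1 / 2 : ℝ) ^ (k₀ + 1) * (1 / wt Ω (fun y => (Y y, dig (n + k₀) a y)) y) := by
        intro y hy
        obtain ⟨hy1, hy2⟩ := Finset.mem_filter.1 hy
        rw [we, if_neg (hnact y hy1), if_neg (by rw [hwn y hy1]; exact hy2), mul_one_div]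
      rw [Finset.sum_congr rfl h1, ← Finset.mul_sum]
      have h3 := count Ω ((cell Ω Y a n x).filter
        (fun y => ¬ dig (n + k₀) a y ∈ wn k₀ p Ω Y a n x))
        ((Finset.filter_subset _ _).trans hsub) Y (fun y => dig (n + k₀) a y) x
        (fun y hy => hY y (Finset.mem_filter.1 hy).1) M
        (fun y hy => hMm y (Finset.mem_filter.1 hy).1)
      rw [hMc] at h3
      calc _ ≤ (1 / 2 : ℝ) ^ (k₀ + 1) * 2 ^ k₀ := mul_le_mul_of_nonneg_left h3 (by positivity)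
        _ = (1 / 2 : ℝ) ^ k₀ * 2 ^ k₀ * (1 / 2) := by ring
        _ = 1 / 2 := by rw [h2, one_mul]
    linarith

theorem we_congr {n m : ℕ} (hnm : n + k₀ ≤ m) {x y : α} (h1 : Y x = Y y)
    (h2 : dig m a x = dig m a y) : we k₀ p Ω Y a n x = we k₀ p Ω Y a n y := by
  have h3 : dig n a x = dig n a y := dig_refines (by omega) a h2
  have h4 : dig (n + k₀) a x = dig (n + k₀) a y := dig_refines hnm a h2
  have h5 : cell Ω Y a n x = cell Ω Y a n y := cell_congr Ω Y a h1 h3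
  rw [we, we, Act, Act, wn, wn, h5, h4]

/-- the Kraft sum -/
theorem kraft (o : ℕ) (ha : ∀ x ∈ Ω, |a x| ≤ 1) (R : ℕ) :
    ∑ y ∈ Ω, (wt Ω Y y * (1 / 2 : ℝ) ^ (o + 2) *
      ∏ r ∈ Finset.range R, we k₀ p Ω Y a (o + r * k₀) y) /
        wt Ω (fun y => (Y y, dig (o + R * k₀) a y)) y ≤ Ω.card := by
  induction R with
  | zero =>
    have h1 := refine_step Ω Y (fun y => (Y y, dig (o + 0 * k₀) a y)) (fun y => wt Ω Y y)
      (fun _ => (1 / 2 : ℝ) ^ (o + 2)) (fun x hx => (wt_pos hx).le)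
      (fun x _ y _ h => wt_congr h) ?_
    · have h2 : ∑ y ∈ Ω, wt Ω Y y / wt Ω Y y = Ω.card := by
        have : ∀ y ∈ Ω, wt Ω Y y / wt Ω Y y = 1 := fun y hy => div_self (wt_pos hy).ne'
        rw [Finset.sum_congr rfl this, Finset.sum_const, nsmul_eq_mul, mul_one]
      rw [h2] at h1
      simpa using h1
    · intro x hx
      have h3 := count Ω (fib Ω Y x) (fib_subset _ _ _) Y
        (fun y => dig (o + 0 * k₀) a y) x
        (fun y hy => (mem_fib.1 hy).2) (Finset.Icc (-2 ^ o) (2 ^ o)) ?_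
      · have h4 : ((Finset.Icc (-2 ^ o : ℤ) (2 ^ o)).card : ℝ) ≤ 2 ^ (o + 2) := by
          rw [Int.card_Icc]
          have h5 : ((2 : ℤ) ^ o + 1 - -2 ^ o).toNat = 2 ^ (o + 1) + 1 := by
            have h : (2 : ℤ) ^ o + 1 - -2 ^ o = ((2 ^ (o + 1) + 1 : ℕ) : ℤ) := by
              push_cast
              ring
            rw [h, Int.toNat_natCast]
          rw [h5]
          push_cast
          have : (1 : ℝ) ≤ 2 ^ o := one_le_pow₀ (by norm_num)
          ring_nf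
          linarith
        have h6 : ∀ y ∈ fib Ω Y x, (1 / 2 : ℝ) ^ (o + 2) /
            wt Ω (fun y => (Y y, dig (o + 0 * k₀) a y)) y =
            (1 / 2 : ℝ) ^ (o + 2) * (1 / wt Ω (fun y => (Y y, dig (o + 0 * k₀) a y)) y) := by
          intro y _
          rw [mul_one_div]
        rw [Finset.sum_congr rfl h6, ← Finset.mul_sum]
        calc _ ≤ (1 / 2 : ℝ) ^ (o + 2) * 2 ^ (o + 2) :=
              mul_le_mul_of_nonneg_left (h3.trans h4) (by positivity)
          _ = 1 := by rw [← mul_pow]; norm_num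
      · intro y hy
        have h7 := abs_le.1 (ha y (mem_fib.1 hy).1)
        have h8 : (0 : ℝ) < 2 ^ o := by positivity
        simp only [zero_mul, add_zero]
        rw [Finset.mem_Icc, dig]
        constructor
        · rw [Int.le_floor]
          push_cast
          nlinarith [h7.1]
        · have : ⌊(2 : ℝ) ^ o * a y⌋ < 2 ^ o + 1 := by
            rw [Int.floor_lt]
            push_cast
            nlinarith [h7.2]
          omega
  | succ R ih =>
    refine le_trans ?_ ih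
    have h1 := refine_step Ω (fun y => (Y y, dig (o + R * k₀) a y))
      (fun y => (Y y, dig (o + R * k₀ + k₀) a y))
      (fun y => wt Ω Y y * (1 / 2 : ℝ) ^ (o + 2) *
        ∏ r ∈ Finset.range R, we k₀ p Ω Y a (o + r * k₀) y)
      (fun y => we k₀ p Ω Y a (o + R * k₀) y)
      (fun x hx => mul_nonneg (mul_nonneg (wt_pos hx).le (by positivity))
        (Finset.prod_nonneg fun r _ => we_nonneg k₀ p Ω Y a _ _)) ?_
      (fun x _ => we_kraft k₀ p Ω Y a (o + R * k₀) x)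
    · refine le_trans (le_of_eq ?_) h1
      refine Finset.sum_congr rfl fun y _ => ?_
      rw [Finset.prod_range_succ, ← mul_assoc, Nat.succ_mul, ← add_assoc]
    · intro x _ y _ h
      simp only [Prod.mk.injEq] at h
      obtain ⟨h2, h3⟩ := h
      have h4 : ∏ r ∈ Finset.range R, we k₀ p Ω Y a (o + r * k₀) y =
          ∏ r ∈ Finset.range R, we k₀ p Ω Y a (o + r * k₀) x := by
        refine Finset.prod_congr rfl fun r hr => ?_
        have hr' : r + 1 ≤ R := Finset.mem_range.1 hr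
        refine we_congr k₀ p Ω Y a ?_ h2 h3
        have := Nat.mul_le_mul_right k₀ hr'
        rw [Nat.succ_mul] at this
        omega
      rw [h4, wt_congr h2]

theorem kraftN (o : ℕ) (ha : ∀ x ∈ Ω, |a x| ≤ 1) (R N : ℕ) (h1 : o + R * k₀ ≤ N)
    (h2 : N ≤ o + R * k₀ + k₀) :
    ∑ y ∈ Ω, (wt Ω Y y * (1 / 2 : ℝ) ^ (o + 2) *
      (∏ r ∈ Finset.range R, we k₀ p Ω Y a (o + r * k₀) y) * (1 / 2 : ℝ) ^ k₀) /
        wt Ω (fun y => (Y y, dig N a y)) y ≤ Ω.card := by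
  refine le_trans ?_ (kraft k₀ p Ω Y a o ha R)
  obtain ⟨j, rfl⟩ := Nat.exists_eq_add_of_le h1
  have hj : j ≤ k₀ := by omega
  refine refine_step Ω (fun y => (Y y, dig (o + R * k₀) a y))
      (fun y => (Y y, dig (o + R * k₀ + j) a y))
      (fun y => wt Ω Y y * (1 / 2 : ℝ) ^ (o + 2) *
        ∏ r ∈ Finset.range R, we k₀ p Ω Y a (o + r * k₀) y)
      (fun y => (1 / 2 : ℝ) ^ k₀)
      (fun x hx => mul_nonneg (mul_nonneg (wt_pos hx).le (by positivity))
        (Finset.prod_nonneg fun r _ => we_nonneg k₀ p Ω Y a _ _)) ?_ ?_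
  · intro x _ y _ h
    simp only [Prod.mk.injEq] at h
    obtain ⟨h2, h3⟩ := h
    have h4 : ∏ r ∈ Finset.range R, we k₀ p Ω Y a (o + r * k₀) y =
        ∏ r ∈ Finset.range R, we k₀ p Ω Y a (o + r * k₀) x := by
      refine Finset.prod_congr rfl fun r hr => ?_
      have hr' : r + 1 ≤ R := Finset.mem_range.1 hr
      refine we_congr k₀ p Ω Y a ?_ h2 h3
      have := Nat.mul_le_mul_right k₀ hr'
      rw [Nat.succ_mul] at this
      omega
    rw [h4, wt_congr h2]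
  · intro x _
    set M : Finset ℤ := Finset.Ico ((2 : ℤ) ^ j * dig (o + R * k₀) a x)
      ((2 : ℤ) ^ j * dig (o + R * k₀) a x + 2 ^ j) with hM
    have hMc : (M.card : ℝ) = 2 ^ j := by
      rw [hM, Int.card_Ico, add_sub_cancel_left]
      have : ((2 : ℤ) ^ j).toNat = 2 ^ j := by
        have h := Int.toNat_natCast (2 ^ j)
        push_cast at h
        exact h
      rw [this]
      push_cast
      rfl
    have h3 := count Ω (fib Ω (fun y => (Y y, dig (o + R * k₀) a y)) x)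
      (fib_subset _ _ _) Y (fun y => dig (o + R * k₀ + j) a y) x
      (fun y hy => by
        have h4 := (mem_fib.1 hy).2
        simp only [Prod.mk.injEq] at h4
        exact h4.1) M
      (fun y hy => by
        have h4 := (mem_fib.1 hy).2
        simp only [Prod.mk.injEq] at h4
        have := dig_mem (o + R * k₀) j a y
        rwa [h4.2] at this)
    rw [hMc] at h3
    have h6 : ∀ y ∈ fib Ω (fun y => (Y y, dig (o + R * k₀) a y)) x, (1 / 2 : ℝ) ^ k₀ /
        wt Ω (fun y => (Y y, dig (o + R * k₀ + j) a y)) y =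
        (1 / 2 : ℝ) ^ k₀ * (1 / wt Ω (fun y => (Y y, dig (o + R * k₀ + j) a y)) y) := by
      intro y _
      rw [mul_one_div]
    rw [Finset.sum_congr rfl h6, ← Finset.mul_sum]
    have h7 : (2 : ℝ) ^ j ≤ 2 ^ k₀ := pow_le_pow_right₀ (by norm_num) hj
    calc _ ≤ (1 / 2 : ℝ) ^ k₀ * 2 ^ k₀ :=
          mul_le_mul_of_nonneg_left (h3.trans h7) (by positivity)
      _ = 1 := by rw [← mul_pow]; norm_num

theorem we_lower (n : ℕ) (x : α) :
    (1 / 8 : ℝ) * (if Act k₀ p Ω Y a n x ∨ Dev k₀ p Ω Y a n x then (1 / 2 : ℝ) ^ (k₀ + 1) else 1) ≤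
      we k₀ p Ω Y a n x := by
  have h0 : (0 : ℝ) < (1 / 2 : ℝ) ^ k₀ := by positivity
  have h1 : (1 / 2 : ℝ) ^ (k₀ + 1) = (1 / 2 : ℝ) ^ k₀ * (1 / 2) := pow_succ _ _
  by_cases hact : Act k₀ p Ω Y a n x
  · rw [if_pos (Or.inl hact), we, if_pos hact, h1]
    nlinarith
  · by_cases hw : dig (n + k₀) a x ∈ wn k₀ p Ω Y a n x
    · have hnd : ¬ Dev k₀ p Ω Y a n x := fun h => h.2 hw
      rw [if_neg (by tauto), we, if_neg hact, if_pos hw]
      norm_num
    · have hd : Dev k₀ p Ω Y a n x := ⟨hact, hw⟩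
      rw [if_pos (Or.inr hd), we, if_neg hact, if_neg hw]
      have : (0 : ℝ) < (1 / 2 : ℝ) ^ (k₀ + 1) := by positivity
      linarith

theorem prod_lower (o R : ℕ) (x : α) :
    (1 / 8 : ℝ) ^ R * ((1 / 2 : ℝ) ^ (k₀ + 1)) ^ (((Finset.range R).filter fun r =>
      Act k₀ p Ω Y a (o + r * k₀) x).card + ((Finset.range R).filter fun r =>
      Dev k₀ p Ω Y a (o + r * k₀) x).card) ≤
      ∏ r ∈ Finset.range R, we k₀ p Ω Y a (o + r * k₀) x := by
  have h1 : ∏ r ∈ Finset.range R, ((1 / 8 : ℝ) * (if Act k₀ p Ω Y a (o + r * k₀) x ∨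
      Dev k₀ p Ω Y a (o + r * k₀) x then (1 / 2 : ℝ) ^ (k₀ + 1) else 1)) ≤
      ∏ r ∈ Finset.range R, we k₀ p Ω Y a (o + r * k₀) x := by
    refine Finset.prod_le_prod (fun r _ => ?_) (fun r _ => we_lower k₀ p Ω Y a _ _)
    split_ifs <;> positivity
  refine le_trans ?_ h1
  rw [Finset.prod_mul_distrib, Finset.prod_const, Finset.card_range, Finset.prod_ite,
    Finset.prod_const_one, mul_one, Finset.prod_const]
  refine mul_le_mul_of_nonneg_left ?_ (by positivity)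
  refine pow_le_pow_of_le_one (by positivity) (pow_le_one₀ (by norm_num) (by norm_num)) ?_
  rw [Finset.filter_or]
  exact Finset.card_union_le _ _

/-- few points with few active and few deviating levels -/
theorem few (γ : ℝ) (hγ : 0 < γ) (hk : 21 ≤ γ * k₀) (hk1 : 21 ≤ k₀) (o R N : ℕ) (ho : o ≤ k₀)
    (ha : ∀ x ∈ Ω, |a x| ≤ 1) (h1 : o + R * k₀ ≤ N) (h2 : N ≤ o + R * k₀ + k₀)
    (Bad : Finset α)
    (hB : ∀ x ∈ Ω, x ∉ Bad →
      wt Ω (fun y => (Y y, dig N a y)) x ≤ (2 : ℝ) ^ (-(γ * N)) * wt Ω Y x) :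
    ((Ω.filter fun x => x ∉ Bad ∧
      ((((Finset.range R).filter fun r => Act k₀ p Ω Y a (o + r * k₀) x).card : ℝ) <
        γ / 32 * N / k₀) ∧
      ((((Finset.range R).filter fun r => Dev k₀ p Ω Y a (o + r * k₀) x).card : ℝ) <
        γ / 32 * N / k₀)).card : ℝ) ≤
      (2 : ℝ) ^ ((2 * k₀ + 2 : ℝ) - 3 / 4 * γ * N) * Ω.card := by
  set E := Ω.filter fun x => x ∉ Bad ∧
      ((((Finset.range R).filter fun r => Act k₀ p Ω Y a (o + r * k₀) x).card : ℝ) <
        γ / 32 * N / k₀) ∧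
      ((((Finset.range R).filter fun r => Dev k₀ p Ω Y a (o + r * k₀) x).card : ℝ) <
        γ / 32 * N / k₀) with hE
  have hkpos : (0 : ℝ) < k₀ := by
    have : 0 < k₀ := by omega
    exact_mod_cast this
  have hk21 : (21 : ℝ) ≤ k₀ := by exact_mod_cast hk1
  set δ : ℝ := (2 : ℝ) ^ (-((2 * k₀ + 2 : ℝ) + γ * N / 4)) with hδ
  have hδ0 : 0 < δ := Real.rpow_pos_of_pos (by norm_num) _
  have key : ∀ x ∈ E, δ * (2 : ℝ) ^ (γ * N) ≤ (wt Ω Y x * (1 / 2 : ℝ) ^ (o + 2) *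
      (∏ r ∈ Finset.range R, we k₀ p Ω Y a (o + r * k₀) x) * (1 / 2 : ℝ) ^ k₀) /
        wt Ω (fun y => (Y y, dig N a y)) x := by
    intro x hx
    obtain ⟨hxΩ, hxB, hx1, hx2⟩ := Finset.mem_filter.1 hx
    have hb := hB x hxΩ hxB
    have hw0 : 0 < wt Ω (fun y => (Y y, dig N a y)) x := wt_pos hxΩ
    have hwY : 0 < wt Ω Y x := wt_pos hxΩ
    set e1 := ((Finset.range R).filter fun r => Act k₀ p Ω Y a (o + r * k₀) x).card with he1
    set e2 := ((Finset.range R).filter fun r => Dev k₀ p Ω Y a (o + r * k₀) x).card with he2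
    have hprod := prod_lower k₀ p Ω Y a o R x
    rw [← he1, ← he2] at hprod
    have hW : δ ≤ (1 / 2 : ℝ) ^ (o + 2) *
        (∏ r ∈ Finset.range R, we k₀ p Ω Y a (o + r * k₀) x) * (1 / 2 : ℝ) ^ k₀ := by
      have h3 : (1 / 2 : ℝ) ^ (o + 2) * ((1 / 8 : ℝ) ^ R * ((1 / 2 : ℝ) ^ (k₀ + 1)) ^ (e1 + e2)) *
          (1 / 2 : ℝ) ^ k₀ ≤ (1 / 2 : ℝ) ^ (o + 2) *
        (∏ r ∈ Finset.range R, we k₀ p Ω Y a (o + r * k₀) x) * (1 / 2 : ℝ) ^ k₀ := by
        refine mul_le_mul_of_nonneg_right ?_ (by positivity)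
        exact mul_le_mul_of_nonneg_left hprod (by positivity)
      refine le_trans ?_ h3
      have h4 : (1 / 2 : ℝ) ^ (o + 2) * ((1 / 8 : ℝ) ^ R * ((1 / 2 : ℝ) ^ (k₀ + 1)) ^ (e1 + e2)) *
          (1 / 2 : ℝ) ^ k₀ = (1 / 2 : ℝ) ^ (o + 2 + 3 * R + (k₀ + 1) * (e1 + e2) + k₀) := by
        have : (1 / 8 : ℝ) = (1 / 2 : ℝ) ^ 3 := by norm_num
        rw [this, ← pow_mul, ← pow_mul, ← pow_add, ← pow_add, ← pow_add]
        congr 1
        ring
      rw [h4, one_div, inv_pow, ← Real.rpow_natCast, ← Real.rpow_neg (by norm_num), hδ]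
      refine Real.rpow_le_rpow_of_exponent_le (by norm_num) ?_
      rw [neg_le_neg_iff]
      push_cast
      have ho' : (o : ℝ) ≤ k₀ := by exact_mod_cast ho
      have hR : (R : ℝ) * k₀ ≤ N := by
        have : R * k₀ ≤ N := by omega
        exact_mod_cast this
      have hR' : (R : ℝ) * 21 ≤ γ * N := by
        have h5 : (R : ℝ) * 21 ≤ R * (γ * k₀) := mul_le_mul_of_nonneg_left hk (Nat.cast_nonneg R)
        have h6 : γ * (R * k₀) ≤ γ * N := mul_le_mul_of_nonneg_left hR hγ.le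
        linarith
      have hx1' : (e1 : ℝ) * k₀ ≤ γ / 32 * N := by
        rw [← le_div_iff₀ hkpos]; exact hx1.le
      have hx2' : (e2 : ℝ) * k₀ ≤ γ / 32 * N := by
        rw [← le_div_iff₀ hkpos]; exact hx2.le
      have hx1'' : (e1 : ℝ) * 21 ≤ γ / 32 * N :=
        le_trans (mul_le_mul_of_nonneg_left hk21 (Nat.cast_nonneg _)) hx1'
      have hx2'' : (e2 : ℝ) * 21 ≤ γ / 32 * N :=
        le_trans (mul_le_mul_of_nonneg_left hk21 (Nat.cast_nonneg _)) hx2'
      have h7 : (k₀ + 1 : ℝ) * (e1 + e2) = e1 * k₀ + e2 * k₀ + e1 + e2 := by ring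
      rw [h7]
      linarith
    rw [le_div_iff₀ hw0]
    calc δ * (2 : ℝ) ^ (γ * N) * wt Ω (fun y => (Y y, dig N a y)) x
        ≤ δ * (2 : ℝ) ^ (γ * N) * ((2 : ℝ) ^ (-(γ * N)) * wt Ω Y x) :=
          mul_le_mul_of_nonneg_left hb (by positivity)
      _ = δ * wt Ω Y x * ((2 : ℝ) ^ (γ * N) * (2 : ℝ) ^ (-(γ * N))) := by ring
      _ = δ * wt Ω Y x := by
          rw [← Real.rpow_add (by norm_num), add_neg_cancel, Real.rpow_zero, mul_one]
      _ ≤ ((1 / 2 : ℝ) ^ (o + 2) *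
        (∏ r ∈ Finset.range R, we k₀ p Ω Y a (o + r * k₀) x) * (1 / 2 : ℝ) ^ k₀) * wt Ω Y x :=
          mul_le_mul_of_nonneg_right hW hwY.le
      _ = _ := by ring
  have hsum : ∑ _x ∈ E, δ * (2 : ℝ) ^ (γ * N) ≤ Ω.card := by
    refine le_trans (Finset.sum_le_sum key) ?_
    refine le_trans ?_ (kraftN k₀ p Ω Y a o ha R N h1 h2)
    refine Finset.sum_le_sum_of_subset_of_nonneg (Finset.filter_subset _ _) ?_
    intro y hy _
    refine div_nonneg (mul_nonneg (mul_nonneg (mul_nonneg (wt_pos hy).le (by positivity)) ?_)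
      (by positivity)) (wt_pos hy).le
    exact Finset.prod_nonneg fun r _ => we_nonneg k₀ p Ω Y a _ _
  rw [Finset.sum_const, nsmul_eq_mul] at hsum
  have h8 : δ * (2 : ℝ) ^ (γ * N) = ((2 : ℝ) ^ ((2 * k₀ + 2 : ℝ) - 3 / 4 * γ * N))⁻¹ := by
    rw [hδ, ← Real.rpow_add (by norm_num), ← Real.rpow_neg (by norm_num)]
    congr 1
    ring
  rw [h8, ← div_eq_mul_inv, div_le_iff₀ (Real.rpow_pos_of_pos (by norm_num) _)] at hsum
  linarith

/-- many deviations are rare -/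
theorem devcount (θ τ : ℝ) (hθ : 0 < θ) (hp0 : 0 ≤ p) (hk : 0 < k₀)
    (hp : p ≤ τ * θ / (2 * k₀)) (o R N : ℕ) (hN : 0 < N) (h1 : o + R * k₀ ≤ N) :
    ((Ω.filter fun x => θ * N / k₀ ≤
      (((Finset.range R).filter fun r => Dev k₀ p Ω Y a (o + r * k₀) x).card : ℝ)).card : ℝ) ≤
      τ / (2 * k₀) * Ω.card := by
  set D := Ω.filter fun x => θ * N / k₀ ≤
      (((Finset.range R).filter fun r => Dev k₀ p Ω Y a (o + r * k₀) x).card : ℝ) with hD
  have hkpos : (0 : ℝ) < k₀ := by exact_mod_cast hk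
  have hNpos : (0 : ℝ) < N := by exact_mod_cast hN
  have h2 : (D.card : ℝ) * (θ * N / k₀) ≤ R * (p * Ω.card) := by
    calc (D.card : ℝ) * (θ * N / k₀) = ∑ _x ∈ D, θ * N / k₀ := by
          rw [Finset.sum_const, nsmul_eq_mul]
      _ ≤ ∑ x ∈ D, (((Finset.range R).filter fun r => Dev k₀ p Ω Y a (o + r * k₀) x).card : ℝ) :=
          Finset.sum_le_sum fun x hx => (Finset.mem_filter.1 hx).2
      _ ≤ ∑ x ∈ Ω, (((Finset.range R).filter fun r => Dev k₀ p Ω Y a (o + r * k₀) x).card : ℝ) :=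
          Finset.sum_le_sum_of_subset_of_nonneg (Finset.filter_subset _ _)
            fun _ _ _ => Nat.cast_nonneg _
      _ = ∑ x ∈ Ω, ∑ r ∈ Finset.range R, (if Dev k₀ p Ω Y a (o + r * k₀) x then (1 : ℝ) else 0) := by
          refine Finset.sum_congr rfl fun x _ => ?_
          rw [Finset.sum_ite, Finset.sum_const_zero, add_zero, Finset.sum_const, nsmul_eq_mul,
            mul_one]
      _ = ∑ r ∈ Finset.range R, ∑ x ∈ Ω, (if Dev k₀ p Ω Y a (o + r * k₀) x then (1 : ℝ) else 0) :=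
          Finset.sum_comm
      _ ≤ ∑ _r ∈ Finset.range R, p * (Ω.card : ℝ) := by
          refine Finset.sum_le_sum fun r _ => ?_
          rw [Finset.sum_ite, Finset.sum_const_zero, add_zero, Finset.sum_const, nsmul_eq_mul,
            mul_one]
          exact dev_card k₀ p Ω Y a hp0 _
      _ = R * (p * Ω.card) := by rw [Finset.sum_const, nsmul_eq_mul, Finset.card_range]
  have hR : (R : ℝ) * k₀ ≤ N := by
    have : R * k₀ ≤ N := by omega
    exact_mod_cast this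
  have h3 : (D.card : ℝ) * (θ * N) ≤ (R * k₀) * (p * Ω.card) := by
    have := mul_le_mul_of_nonneg_right h2 hkpos.le
    have h4 : (D.card : ℝ) * (θ * N / k₀) * k₀ = D.card * (θ * N) := by
      field_simp
    rw [h4] at this
    linarith
  have h5 : (R * k₀ : ℝ) * (p * Ω.card) ≤ N * (p * Ω.card) :=
    mul_le_mul_of_nonneg_right hR (by positivity)
  have h6 : (D.card : ℝ) * θ ≤ p * Ω.card := by
    have h7 : ((D.card : ℝ) * θ) * N ≤ (p * Ω.card) * N := by linarith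
    exact le_of_mul_le_mul_right h7 hNpos
  have h8 : p * (Ω.card : ℝ) ≤ τ * θ / (2 * k₀) * Ω.card :=
    mul_le_mul_of_nonneg_right hp (Nat.cast_nonneg _)
  have h9 : τ * θ / (2 * k₀) * (Ω.card : ℝ) = (τ / (2 * k₀) * Ω.card) * θ := by ring
  rw [h9] at h8
  exact le_of_mul_le_mul_right (h6.trans h8) hθ

/-- pigeonhole over the offsets -/
theorem offset (θ : ℝ) (hk : 0 < k₀) (N : ℕ) (x : α)
    (h : (((Finset.range N).filter fun n => Act k₀ p Ω Y a n x).card : ℝ) < θ * N) :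
    ∃ o < k₀, (((Finset.range ((N - o) / k₀)).filter fun r =>
      Act k₀ p Ω Y a (o + r * k₀) x).card : ℝ) < θ * N / k₀ := by
  by_contra hc
  push Not at hc
  have hkpos : (0 : ℝ) < k₀ := by exact_mod_cast hk
  have h1 : ∑ o ∈ Finset.range k₀, (((Finset.range ((N - o) / k₀)).filter fun r =>
      Act k₀ p Ω Y a (o + r * k₀) x).card : ℝ) ≥ θ * N := by
    calc ∑ o ∈ Finset.range k₀, (((Finset.range ((N - o) / k₀)).filter fun r =>
      Act k₀ p Ω Y a (o + r * k₀) x).card : ℝ) ≥ ∑ _o ∈ Finset.range k₀, θ * N / k₀ :=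
          Finset.sum_le_sum fun o ho => hc o (Finset.mem_range.1 ho)
      _ = θ * N := by
          rw [Finset.sum_const, nsmul_eq_mul, Finset.card_range]
          field_simp
  have h2 : ∑ o ∈ Finset.range k₀, ((Finset.range ((N - o) / k₀)).filter fun r =>
      Act k₀ p Ω Y a (o + r * k₀) x).card ≤
      ((Finset.range N).filter fun n => Act k₀ p Ω Y a n x).card := by
    rw [← Finset.card_sigma]
    refine Finset.card_le_card_of_injOn (fun z => z.1 + z.2 * k₀) ?_ ?_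
    · rintro ⟨o, r⟩ hz
      simp only [Finset.coe_sigma, Set.mem_sigma_iff, Finset.mem_coe, Finset.mem_range,
        Finset.mem_filter] at hz ⊢
      obtain ⟨h3, h4, h5⟩ := hz
      refine ⟨?_, h5⟩
      have h6 : (r + 1) * k₀ ≤ N - o := (Nat.le_div_iff_mul_le hk).1 h4
      rw [Nat.succ_mul] at h6
      omega
    · rintro ⟨o, r⟩ hz ⟨o', r'⟩ hz' he
      simp only [Finset.coe_sigma, Set.mem_sigma_iff, Finset.mem_coe, Finset.mem_range,
        Finset.mem_filter] at hz hz' he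
      have h7 : o = o' := by
        have h8 := congrArg (fun m => m % k₀) he
        simp only [Nat.add_mul_mod_self_right] at h8
        rwa [Nat.mod_eq_of_lt hz.1, Nat.mod_eq_of_lt hz'.1] at h8
      subst h7
      have h9 : r * k₀ = r' * k₀ := by omega
      rw [Nat.eq_of_mul_eq_mul_right hk h9]
  have h3 : (∑ o ∈ Finset.range k₀, (((Finset.range ((N - o) / k₀)).filter fun r =>
      Act k₀ p Ω Y a (o + r * k₀) x).card : ℝ)) ≤
      ((((Finset.range N).filter fun n => Act k₀ p Ω Y a n x).card : ℕ) : ℝ) := by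
    exact_mod_cast h2
  linarith

end chain

end CActiveAux

open Classical in
theorem activity (γ : ℝ) (hγ : 0 < γ) (hγ1 : γ ≤ 1) :
    ∃ (k₀ : ℕ) (θ : ℝ), 0 < θ ∧ θ ≤ 1 / 2 ∧ ∀ τ : ℝ, 0 < τ → ∃ (p : ℝ) (N₀ : ℕ), 0 < p ∧ p ≤ 1 ∧
      ∀ N : ℕ, N₀ ≤ N → ∀ {α κ : Type} (Ω : Finset α) (Y : α → κ) (a : α → ℝ),
      (∀ x ∈ Ω, |a x| ≤ 1) → ∀ Bad : Finset α,
      (∀ x ∈ Ω, x ∉ Bad → wt Ω (fun y => (Y y, dig N a y)) x ≤ (2 : ℝ) ^ (-(γ * N)) * wt Ω Y x) →
      ((Ω.filter fun x => (((Finset.range N).filter fun n =>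
        NC k₀ p (fib Ω (fun y => (Y y, dig n a y)) x) (fun y => (2 : ℝ) ^ n * a y)).card : ℝ) <
          θ * N).card : ℝ) ≤ (Bad.card : ℝ) + τ * Ω.card := by
  obtain ⟨k₀, hk₀⟩ := exists_nat_ge (21 / γ)
  have hk : 21 ≤ γ * k₀ := by
    rw [div_le_iff₀ hγ] at hk₀
    linarith
  have hk21 : (21 : ℝ) ≤ k₀ := by
    have h0 : (0 : ℝ) ≤ k₀ := Nat.cast_nonneg _
    nlinarith
  have hk1 : 21 ≤ k₀ := by exact_mod_cast hk21
  have hkpos : (0 : ℝ) < k₀ := by linarith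
  refine ⟨k₀, γ / 32, by positivity, by linarith, fun τ hτ => ?_⟩
  set p : ℝ := min 1 (τ * (γ / 32) / (2 * k₀)) with hp
  have hp0 : 0 < p := lt_min one_pos (by positivity)
  have hp1 : p ≤ 1 := min_le_left _ _
  have hp2 : p ≤ τ * (γ / 32) / (2 * k₀) := min_le_right _ _
  have hc : (2 : ℝ) ^ (-(3 / 4 * γ)) < 1 :=
    Real.rpow_lt_one_of_one_lt_of_neg (by norm_num) (by linarith [hγ])
  obtain ⟨n₀, hn₀⟩ := exists_pow_lt_of_lt_one
    (show (0 : ℝ) < τ / (2 * k₀) / (2 : ℝ) ^ (2 * k₀ + 2 : ℝ) by positivity) hc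
  refine ⟨p, max (k₀ + 1) n₀, hp0, hp1, ?_⟩
  intro N hN α κ Ω Y a ha Bad hB
  have hNk : k₀ + 1 ≤ N := le_trans (le_max_left _ _) hN
  have hNn : n₀ ≤ N := le_trans (le_max_right _ _) hN
  have hsmall : (2 : ℝ) ^ ((2 * k₀ + 2 : ℝ) - 3 / 4 * γ * N) ≤ τ / (2 * k₀) := by
    have h1 : (2 : ℝ) ^ ((2 * k₀ + 2 : ℝ) - 3 / 4 * γ * N) =
        (2 : ℝ) ^ (2 * k₀ + 2 : ℝ) * ((2 : ℝ) ^ (-(3 / 4 * γ))) ^ N := by
      rw [← Real.rpow_natCast, ← Real.rpow_mul (by norm_num), ← Real.rpow_add (by norm_num)]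
      congr 1
      ring
    rw [h1]
    have h2 : ((2 : ℝ) ^ (-(3 / 4 * γ))) ^ N ≤ ((2 : ℝ) ^ (-(3 / 4 * γ))) ^ n₀ :=
      pow_le_pow_of_le_one (by positivity) hc.le hNn
    have h3 := h2.trans hn₀.le
    rw [le_div_iff₀ (by positivity)] at h3
    linarith
  set E : ℕ → Finset α := fun o => Ω.filter fun x => x ∉ Bad ∧
      ((((Finset.range ((N - o) / k₀)).filter fun r =>
        CActiveAux.Act k₀ p Ω Y a (o + r * k₀) x).card : ℝ) < γ / 32 * N / k₀) ∧
      ((((Finset.range ((N - o) / k₀)).filter fun r =>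
        CActiveAux.Dev k₀ p Ω Y a (o + r * k₀) x).card : ℝ) < γ / 32 * N / k₀) with hE
  set D : ℕ → Finset α := fun o => Ω.filter fun x => γ / 32 * N / k₀ ≤
      (((Finset.range ((N - o) / k₀)).filter fun r =>
        CActiveAux.Dev k₀ p Ω Y a (o + r * k₀) x).card : ℝ) with hD
  have hlev : ∀ o < k₀, o + (N - o) / k₀ * k₀ ≤ N ∧ N ≤ o + (N - o) / k₀ * k₀ + k₀ := by
    intro o ho
    have h1 := Nat.div_add_mod (N - o) k₀
    have h2 := Nat.mod_lt (N - o) (show 0 < k₀ by omega)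
    rw [mul_comm] at h1
    constructor <;> omega
  have hsub : (Ω.filter fun x => (((Finset.range N).filter fun n =>
        NC k₀ p (fib Ω (fun y => (Y y, dig n a y)) x) (fun y => (2 : ℝ) ^ n * a y)).card : ℝ) <
          γ / 32 * N) ⊆ Bad ∪ (Finset.range k₀).biUnion fun o => E o ∪ D o := by
    intro x hx
    obtain ⟨hxΩ, hx1⟩ := Finset.mem_filter.1 hx
    by_cases hxB : x ∈ Bad
    · exact Finset.mem_union_left _ hxB
    · refine Finset.mem_union_right _ (Finset.mem_biUnion.2 ?_)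
      obtain ⟨o, ho, h1⟩ := CActiveAux.offset k₀ p Ω Y a (γ / 32) (by omega) N x hx1
      refine ⟨o, Finset.mem_range.2 ho, ?_⟩
      by_cases hd : γ / 32 * N / k₀ ≤ (((Finset.range ((N - o) / k₀)).filter fun r =>
        CActiveAux.Dev k₀ p Ω Y a (o + r * k₀) x).card : ℝ)
      · exact Finset.mem_union_right _ (Finset.mem_filter.2 ⟨hxΩ, hd⟩)
      · exact Finset.mem_union_left _ (Finset.mem_filter.2 ⟨hxΩ, hxB, h1, not_le.1 hd⟩)
  have hcard := Finset.card_le_card hsub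
  have h2 : ((Ω.filter fun x => (((Finset.range N).filter fun n =>
        NC k₀ p (fib Ω (fun y => (Y y, dig n a y)) x) (fun y => (2 : ℝ) ^ n * a y)).card : ℝ) <
          γ / 32 * N).card : ℝ) ≤ (Bad.card : ℝ) +
            ∑ o ∈ Finset.range k₀, ((E o).card + (D o).card : ℝ) := by
    have h3 : (Bad ∪ (Finset.range k₀).biUnion fun o => E o ∪ D o).card ≤
        Bad.card + ∑ o ∈ Finset.range k₀, ((E o).card + (D o).card) := by
      refine (Finset.card_union_le _ _).trans (Nat.add_le_add_left ?_ _)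
      refine Finset.card_biUnion_le.trans (Finset.sum_le_sum fun o _ => Finset.card_union_le _ _)
    have h4 := hcard.trans h3
    exact_mod_cast h4
  refine h2.trans (add_le_add_right ?_ _)
  have h5 : ∀ o ∈ Finset.range k₀, ((E o).card + (D o).card : ℝ) ≤ τ / k₀ * Ω.card := by
    intro o ho
    have ho' := Finset.mem_range.1 ho
    obtain ⟨h6, h7⟩ := hlev o ho'
    have h8 : ((E o).card : ℝ) ≤ τ / (2 * k₀) * Ω.card :=
      (CActiveAux.few k₀ p Ω Y a γ hγ hk hk1 o ((N - o) / k₀) N ho'.le ha h6 h7 Bad hB).trans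
        (mul_le_mul_of_nonneg_right hsmall (Nat.cast_nonneg _))
    have h9 : ((D o).card : ℝ) ≤ τ / (2 * k₀) * Ω.card :=
      CActiveAux.devcount k₀ p Ω Y a (γ / 32) τ (by positivity) hp0.le (by omega) hp2 o
        ((N - o) / k₀) N (by omega) h6
    have h10 : τ / (2 * k₀) * (Ω.card : ℝ) + τ / (2 * k₀) * Ω.card = τ / k₀ * Ω.card := by
      field_simp
      ring
    linarith
  refine (Finset.sum_le_sum h5).trans (le_of_eq ?_)
  rw [Finset.sum_const, nsmul_eq_mul, Finset.card_range]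
  field_simp

end Pool.Agent.Lib.P51n
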