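import Mathlib

/-!
Finite probability: fibres, conditional mutual information, `L¹` defect (Part C, abstract side).
All probabilities are uniform on a finite set `Ω`.
-/

set_option autoImplicit false

noncomputable section

namespace Pool.Agent.Lib.P51n

variable {α β γ κ : Type*}

open Classical in
/-- the fibre of `f` through `x` in `Ω` -/
def fib (Ω : Finset α) (f : α → β) (x : α) : Finset α := Ω.filter fun y => f y = f x

/-- its cardinality, as a real number -/
def wt (Ω : Finset α) (f : α → β) (x : α) : ℝ := ((fib Ω f x).card : ℝ)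

/-- conditional mutual information of `f` and `g` given `k` (natural logarithm) -/
def cmi (Ω : Finset α) (k : α → κ) (f : α → β) (g : α → γ) : ℝ :=
  (∑ x ∈ Ω, Real.log ((wt Ω (fun y => (k y, f y, g y)) x * wt Ω k x) /
    (wt Ω (fun y => (k y, f y)) x * wt Ω (fun y => (k y, g y)) x))) / Ω.card

open Classical in
/-- `L¹` distance between the joint law of `(f, g)` on `B` and the product of the marginals -/
def l1 (B : Finset α) (f : α → β) (g : α → γ) : ℝ :=
  (∑ u ∈ B.image f, ∑ v ∈ B.image g,
    |((B.filter fun x => f x = u ∧ g x = v).card : ℝ) -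
      ((B.filter fun x => f x = u).card : ℝ) * ((B.filter fun x => g x = v).card : ℝ) / B.card|) /
    B.card

/-- average over the fibres of `k` of the `L¹` distance -/
def dfc (Ω : Finset α) (k : α → κ) (f : α → β) (g : α → γ) : ℝ :=
  (∑ x ∈ Ω, l1 (fib Ω k x) f g) / Ω.card

open Classical in
/-- `L¹` distance of the laws of `f` on `B` and on `B'` -/
def law1 (B B' : Finset α) (f : α → β) : ℝ :=
  ∑ u ∈ (B ∪ B').image f,
    |((B.filter fun x => f x = u).card : ℝ) / B.card -
      ((B'.filter fun x => f x = u).card : ℝ) / B'.card|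

open Classical in
/-- non-concentration of the real function `f` on `B`: at most the proportion `1 - p` of the
points of `B` is within `2^{-k}` of any given value -/
def NC (k : ℕ) (p : ℝ) (B : Finset α) (f : α → ℝ) : Prop :=
  ∀ y : ℝ, ((B.filter fun x => |f x - y| < (1 / 2 : ℝ) ^ k).card : ℝ) ≤ (1 - p) * B.card

/-- the law of `U` on `B` is `τ`-nearly invariant under some translation `t`,
`4^{-k} ≤ t ≤ 1`, tested by `1`-Lipschitz functions with values in `[0,1]` -/
def Inv (k : ℕ) (τ : ℝ) (B : Finset α) (U : α → ℝ) : Prop :=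
  ∃ t : ℝ, (1 / 4 : ℝ) ^ k ≤ t ∧ t ≤ 1 ∧ ∀ ψ : ℝ → ℝ, (∀ u, 0 ≤ ψ u ∧ ψ u ≤ 1) →
    LipschitzWith 1 ψ → |∑ x ∈ B, (ψ (U x + t) - ψ (U x))| ≤ τ * B.card

/-- binary digits: `⌊2^n a⌋` -/
def dig (n : ℕ) (a : α → ℝ) : α → ℤ := fun x => ⌊(2 : ℝ) ^ n * a x⌋

end Pool.Agent.Lib.P51n
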