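import Pool.Agent.Lib.P51n.CPinsker

/-!
# P51n.CDigits  (about 0.7 h)

Sum over the digit positions of the defects.

Let `J n = cmi Ω Y (dig n a) g`.  `dig n a` is a function of `dig n' a` for `n ≤ n'`
(`⌊⌊2^{n'} a⌋ / 2^{n'-n}⌋ = ⌊2^n a⌋`), so by `cmi_chain` and `cmi_nonneg` `J` is monotone, and
`cmi Ω (Y, dig n a) (dig (n+L) a) g = J (n+L) - J n`.  Telescoping,
`∑_{n<M} (J(n+L) - J(n)) = ∑_{M ≤ n < M+L} J(n) - ∑_{n<L} J(n) ≤ L J(M+L) ≤ L J(N)` if `M + L ≤ N`.
With `pinsker` and Cauchy-Schwarz, `∑_{n<M} dfc ≤ √(M · 4 L J(N))`.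
-/

set_option autoImplicit false

noncomputable section

namespace Pool.Agent.Lib.P51n

variable {α β γ κ : Type*}

theorem dig_factor {a : α → ℝ} {n n' : ℕ} (h : n ≤ n') {x y : α} (hxy : dig n' a x = dig n' a y) :
    dig n a x = dig n a y := by
  obtain ⟨m, rfl⟩ := Nat.exists_eq_add_of_le h
  have key : ∀ z : α, dig n a z = dig (n + m) a z / ((2 ^ m : ℕ) : ℤ) := by
    intro z
    unfold dig
    rw [← Int.floor_div_natCast]
    congr 1
    rw [pow_add]
    push_cast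
    field_simp
  rw [key x, key y, hxy]

theorem cdig_mono (Ω : Finset α) (Y : α → κ) (a : α → ℝ) (g : α → γ) {n n' : ℕ} (h : n ≤ n') :
    cmi Ω Y (dig n a) g ≤ cmi Ω Y (dig n' a) g := by
  have h1 := cmi_chain Ω Y (dig n a) (dig n' a) g (fun x _ y _ hxy => dig_factor h hxy)
  have h2 := cmi_nonneg Ω (fun x => (Y x, dig n a x)) (dig n' a) g
  linarith

theorem cdig_tele (Ω : Finset α) (Y : α → κ) (a : α → ℝ) (g : α → γ) {M N : ℕ} (L : ℕ)
    (h : M + L ≤ N) :
    ∑ n ∈ Finset.range M, (cmi Ω Y (dig (n + L) a) g - cmi Ω Y (dig n a) g) ≤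
      L * cmi Ω Y (dig N a) g := by
  induction L with
  | zero => simp
  | succ L ih =>
    have h1 := ih (by omega)
    have h2 : ∑ n ∈ Finset.range M, (cmi Ω Y (dig (n + (L + 1)) a) g - cmi Ω Y (dig n a) g) =
        ∑ n ∈ Finset.range M, (cmi Ω Y (dig (n + L) a) g - cmi Ω Y (dig n a) g) +
        ∑ n ∈ Finset.range M, (cmi Ω Y (dig (n + 1 + L) a) g - cmi Ω Y (dig (n + L) a) g) := by
      rw [← Finset.sum_add_distrib]
      refine Finset.sum_congr rfl fun n _ => ?_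
      rw [show n + (L + 1) = n + 1 + L by ring]
      ring
    have h3 : ∑ n ∈ Finset.range M, (cmi Ω Y (dig (n + 1 + L) a) g -
        cmi Ω Y (dig (n + L) a) g) = cmi Ω Y (dig (M + L) a) g - cmi Ω Y (dig (0 + L) a) g :=
      Finset.sum_range_sub (fun n => cmi Ω Y (dig (n + L) a) g) M
    have h4 := cdig_mono Ω Y a g (show M + L ≤ N by omega)
    have h5 := cmi_nonneg Ω Y (dig (0 + L) a) g
    rw [h2, h3]
    push_cast
    linarith

theorem sum_dfc_le (Ω : Finset α) (Y : α → κ) (a : α → ℝ) (g : α → γ) {L M N : ℕ}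
    (h : M + L ≤ N) :
    ∑ n ∈ Finset.range M, dfc Ω (fun x => (Y x, dig n a x)) (dig (n + L) a) g ≤
      Real.sqrt (M * (4 * L * cmi Ω Y (dig N a) g)) := by
  apply Real.le_sqrt_of_sq_le
  have h1 := sq_sum_le_card_mul_sum_sq (s := Finset.range M)
    (f := fun n => dfc Ω (fun x => (Y x, dig n a x)) (dig (n + L) a) g)
  rw [Finset.card_range] at h1
  refine h1.trans (mul_le_mul_of_nonneg_left ?_ (Nat.cast_nonneg M))
  calc ∑ n ∈ Finset.range M, dfc Ω (fun x => (Y x, dig n a x)) (dig (n + L) a) g ^ 2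
      ≤ ∑ n ∈ Finset.range M, 4 * (cmi Ω Y (dig (n + L) a) g - cmi Ω Y (dig n a) g) := by
        apply Finset.sum_le_sum
        intro n _
        have h2 := pinsker Ω (fun x => (Y x, dig n a x)) (dig (n + L) a) g
        have h3 := cmi_chain Ω Y (dig n a) (dig (n + L) a) g
          (fun x _ y _ hxy => dig_factor (Nat.le_add_right n L) hxy)
        linarith
    _ = 4 * ∑ n ∈ Finset.range M, (cmi Ω Y (dig (n + L) a) g - cmi Ω Y (dig n a) g) := by
        rw [Finset.mul_sum]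
    _ ≤ 4 * (L * cmi Ω Y (dig N a) g) :=
        mul_le_mul_of_nonneg_left (cdig_tele Ω Y a g L h) (by norm_num)
    _ = _ := by ring

end Pool.Agent.Lib.P51n
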