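import Pool.Agent.Lib.P51n.CLt

/-!
# P51n.CInvCell  (about 2 h)

The commutator step in one cell, for real coordinates.

`c = z - a b`.  On the cell `B` (common value of `Y`, `dig n a`, `dig m b`) put
`ā = dig n a / 2^n`, `b̄ = dig m b / 2^m`, `X = dig (n+L) a - 2^L dig n a`,
`Z = dig (m+L) b - 2^L dig m b` (both in `[0, 2^L)`), and
`Ut = 2^(n+m) (c^ + ā b^)`, `Ut' = 2^(n+m) (z^ - b̄ a^ + ā b̄)` with the `2N`-digit truncations
`c^ = dig (2N) c / 2^(2N)` etc.  Since `z - b̄ a + ā b̄ - c - ā b = (a - ā)(b - b̄)`, and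
`2^n (a-ā) = X/2^L + [0, 2^-L)`, `2^m (b-b̄) = Z/2^L + [0,2^-L)`, and the truncations change `Ut`,
`Ut'` by at most `2^(n+m) · 2 · 2^(-2N) ≤ 2^(-L)` each (`|a|,|b| ≤ 1`, so `|ā|,|b̄| ≤ 1`, and
`n+m+L+1 ≤ 2N`), `|Ut' - Ut - (X/2^L)(Z/2^L)| ≤ 4/2^L`.  Apply `lt_cell` with `k+1`, `p/2`:
* `l1` is unchanged when `dig (n+L) a` is replaced by `X`, `dig (m+L) b` by `Z` (they differ by
  constants on `B`);
* `ncX`: for `y₀ ∈ B`, `|X x - X y₀| < 2^L/2^(k+1)` implies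
  `|2^n a x - 2^n a y₀| < 2^-(k+1) + 2^-L ≤ 2^-k`, so by `NC` the proportion of such `x` in `A` is at
  most `1-p`, and in `B` at most `1 - p + η ≤ 1 - p/2` (`law1`).
Finally `Uf` (with the true values) and `Ut` differ by at most `2^-L`, so `Inv` for `Ut` with `τ₁`
gives `Inv` for `Uf` with `τ₁ + 2/2^L` (test functions are `1`-Lipschitz).
-/

set_option autoImplicit false

noncomputable section

namespace Pool.Agent.Lib.P51n

theorem civ_dig_add {α : Type} (n L : ℕ) (a : α → ℝ) (x : α) :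
    2 ^ L * dig n a x ≤ dig (n + L) a x ∧ dig (n + L) a x < 2 ^ L * dig n a x + 2 ^ L := by
  have h1 : (dig n a x : ℝ) ≤ 2 ^ n * a x := Int.floor_le _
  have h2 : (2 : ℝ) ^ n * a x < dig n a x + 1 := Int.lt_floor_add_one _
  have hL : (0 : ℝ) < 2 ^ L := by positivity
  constructor
  · have : ((2 ^ L * dig n a x : ℤ) : ℝ) ≤ 2 ^ (n + L) * a x := by
      push_cast
      calc (2 : ℝ) ^ L * dig n a x ≤ 2 ^ L * (2 ^ n * a x) := mul_le_mul_of_nonneg_left h1 hL.le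
        _ = 2 ^ (n + L) * a x := by rw [pow_add]; ring
    exact Int.le_floor.2 this
  · have : (2 : ℝ) ^ (n + L) * a x < ((2 ^ L * dig n a x + 2 ^ L : ℤ) : ℝ) := by
      push_cast
      calc (2 : ℝ) ^ (n + L) * a x = 2 ^ L * (2 ^ n * a x) := by rw [pow_add]; ring
        _ < 2 ^ L * (dig n a x + 1) := mul_lt_mul_of_pos_left h2 hL
        _ = _ := by ring
    exact Int.floor_lt.2 this

theorem civ_dig_eq {α : Type} {n L : ℕ} {a : α → ℝ} {x y : α}
    (h : dig (n + L) a x = dig (n + L) a y) : dig n a x = dig n a y := by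
  have hx := civ_dig_add n L a x
  have hy := civ_dig_add n L a y
  have hL : (0 : ℤ) < 2 ^ L := by positivity
  rw [h] at hx
  rcases lt_trichotomy (dig n a x) (dig n a y) with h1 | h1 | h1
  · have : (2 : ℤ) ^ L * (dig n a x + 1) ≤ 2 ^ L * dig n a y :=
      mul_le_mul_of_nonneg_left h1 hL.le
    nlinarith [hx.2, hy.1]
  · exact h1
  · have : (2 : ℤ) ^ L * (dig n a y + 1) ≤ 2 ^ L * dig n a x :=
      mul_le_mul_of_nonneg_left h1 hL.le
    nlinarith [hx.1, hy.2]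

open Classical in
theorem civ_l1_comp {α β γ β' γ' : Type*} (B : Finset α) (f : α → β) (g : α → γ) (τ : β → β')
    (σ : γ → γ') (hτ : Function.Injective τ) (hσ : Function.Injective σ) :
    l1 B (fun x => τ (f x)) (fun x => σ (g x)) = l1 B f g := by
  unfold l1
  congr 1
  have h1 : B.image (fun x => τ (f x)) = (B.image f).image τ := by
    rw [Finset.image_image]; rfl
  have h2 : B.image (fun x => σ (g x)) = (B.image g).image σ := by
    rw [Finset.image_image]; rfl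
  rw [h1, h2, Finset.sum_image (fun x _ y _ h => hτ h)]
  refine Finset.sum_congr rfl fun u _ => ?_
  rw [Finset.sum_image (fun x _ y _ h => hσ h)]
  refine Finset.sum_congr rfl fun v _ => ?_
  simp only [hτ.eq_iff, hσ.eq_iff]

open Classical in
theorem civ_law1_event {α β : Type*} (B B' : Finset α) (f : α → β) (W : β → Prop) :
    ((B.filter fun x => W (f x)).card : ℝ) / B.card ≤
      ((B'.filter fun x => W (f x)).card : ℝ) / B'.card + law1 B B' f := by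
  have key : ∀ D : Finset α, D ⊆ B ∪ B' → ((D.filter fun x => W (f x)).card : ℝ) =
      ∑ u ∈ ((B ∪ B').image f).filter W, ((D.filter fun x => f x = u).card : ℝ) := by
    intro D hD
    rw [Finset.card_eq_sum_card_fiberwise (f := f) (t := ((B ∪ B').image f).filter W)]
    · push_cast
      refine Finset.sum_congr rfl fun u hu => ?_
      congr 1
      congr 1
      ext x
      simp only [Finset.mem_filter]
      constructor
      · rintro ⟨⟨h1, _⟩, h3⟩; exact ⟨h1, h3⟩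
      · rintro ⟨h1, h3⟩
        refine ⟨⟨h1, ?_⟩, h3⟩
        rw [h3]; exact (Finset.mem_filter.1 hu).2
    · intro x hx
      simp only [Finset.coe_filter, Set.mem_ofPred_eq] at hx
      simp only [Finset.coe_filter, Set.mem_ofPred_eq, Finset.mem_image]
      exact ⟨⟨x, hD hx.1, rfl⟩, hx.2⟩
  rw [key B Finset.subset_union_left, key B' Finset.subset_union_right, Finset.sum_div,
    Finset.sum_div, ← sub_le_iff_le_add', ← Finset.sum_sub_distrib]
  unfold law1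
  refine (Finset.sum_le_sum fun u _ => le_abs_self _).trans ?_
  exact Finset.sum_le_sum_of_subset_of_nonneg (Finset.filter_subset _ _)
    fun u _ _ => abs_nonneg _

open Classical in
/-- non-concentration passes to the sub-cell and to the digits -/
theorem civ_nc {α : Type} (A B : Finset α) (a : α → ℝ) {n L k : ℕ} (hL : k + 1 ≤ L)
    (hB : B.Nonempty) (hBA : B ⊆ A) (D : ℤ) {η p : ℝ}
    (hηp : η ≤ p / 2) (nc : NC k p A (fun y => (2 : ℝ) ^ n * a y))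
    (hlaw : law1 B A (dig (n + L) a) ≤ η) (y₀ : α) :
    ((B.filter fun x => |((dig (n + L) a x - 2 ^ L * D : ℤ) : ℝ) -
      ((dig (n + L) a y₀ - 2 ^ L * D : ℤ) : ℝ)| < 2 ^ L / 2 ^ (k + 1)).card : ℝ) ≤
      (1 - p / 2) * B.card := by
  have hBc : (0 : ℝ) < B.card := by exact_mod_cast hB.card_pos
  have hAc : (0 : ℝ) < A.card := by exact_mod_cast (hB.mono hBA).card_pos
  have hL0 : (0 : ℝ) < 2 ^ L := by positivity
  have h2L : (1 : ℝ) / 2 ^ L ≤ 1 / 2 ^ (k + 1) := by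
    apply one_div_le_one_div_of_le (by positivity)
    exact pow_le_pow_right₀ (by norm_num) hL
  have hev := civ_law1_event B A (dig (n + L) a)
    (fun u => |((u - 2 ^ L * D : ℤ) : ℝ) - ((dig (n + L) a y₀ - 2 ^ L * D : ℤ) : ℝ)| <
      2 ^ L / 2 ^ (k + 1))
  have hsub : ((A.filter fun x => |((dig (n + L) a x - 2 ^ L * D : ℤ) : ℝ) -
      ((dig (n + L) a y₀ - 2 ^ L * D : ℤ) : ℝ)| < 2 ^ L / 2 ^ (k + 1)).card : ℝ) ≤
      (1 - p) * A.card := by
    refine le_trans ?_ (nc (2 ^ n * a y₀))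
    have hmono : (A.filter fun x => |((dig (n + L) a x - 2 ^ L * D : ℤ) : ℝ) -
      ((dig (n + L) a y₀ - 2 ^ L * D : ℤ) : ℝ)| < 2 ^ L / 2 ^ (k + 1)) ⊆
      (A.filter fun x => |(2 : ℝ) ^ n * a x - 2 ^ n * a y₀| < (1 / 2 : ℝ) ^ k) := by
      intro x hx
      rw [Finset.mem_filter] at hx ⊢
      refine ⟨hx.1, ?_⟩
      have h3 := hx.2
      push_cast at h3
      have e1 : (dig (n + L) a x : ℝ) ≤ 2 ^ (n + L) * a x := Int.floor_le _
      have e2 : (2 : ℝ) ^ (n + L) * a x < dig (n + L) a x + 1 := Int.lt_floor_add_one _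
      have e3 : (dig (n + L) a y₀ : ℝ) ≤ 2 ^ (n + L) * a y₀ := Int.floor_le _
      have e4 : (2 : ℝ) ^ (n + L) * a y₀ < dig (n + L) a y₀ + 1 := Int.lt_floor_add_one _
      have h4 : |(2 : ℝ) ^ (n + L) * a x - 2 ^ (n + L) * a y₀| <
          2 ^ L / 2 ^ (k + 1) + 1 := by
        rw [abs_lt] at h3 ⊢
        constructor <;> linarith [h3.1, h3.2]
      have h5 : |(2 : ℝ) ^ n * a x - 2 ^ n * a y₀| * 2 ^ L =
          |(2 : ℝ) ^ (n + L) * a x - 2 ^ (n + L) * a y₀| := by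
        rw [show (2 : ℝ) ^ (n + L) * a x - 2 ^ (n + L) * a y₀ = (2 ^ n * a x - 2 ^ n * a y₀) * 2 ^ L
          by rw [pow_add]; ring, abs_mul, abs_of_pos hL0]
      rw [← mul_lt_mul_iff_left₀ hL0, h5]
      refine h4.trans_le ?_
      have h6 : (1 : ℝ) ≤ 2 ^ L / 2 ^ (k + 1) := by
        rw [one_le_div (by positivity)]
        exact pow_le_pow_right₀ (by norm_num) hL
      have h7 : (1 / 2 : ℝ) ^ k * 2 ^ L = 2 ^ L / 2 ^ (k + 1) + 2 ^ L / 2 ^ (k + 1) := by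
        rw [one_div_pow, pow_succ]; field_simp; ring
      rw [h7]; linarith
    exact_mod_cast Finset.card_le_card hmono
  have h8 : ((B.filter fun x => |((dig (n + L) a x - 2 ^ L * D : ℤ) : ℝ) -
      ((dig (n + L) a y₀ - 2 ^ L * D : ℤ) : ℝ)| < 2 ^ L / 2 ^ (k + 1)).card : ℝ) / B.card ≤
      1 - p / 2 := by
    refine hev.trans ?_
    have : ((A.filter fun x => |((dig (n + L) a x - 2 ^ L * D : ℤ) : ℝ) -
      ((dig (n + L) a y₀ - 2 ^ L * D : ℤ) : ℝ)| < 2 ^ L / 2 ^ (k + 1)).card : ℝ) / A.card ≤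
      1 - p := by
      rw [div_le_iff₀ hAc]; exact hsub
    linarith
  rwa [div_le_iff₀ hBc] at h8

variable {α κ : Type}

/-- `U = 2^(n+m) (c + ā b)`, `c = z - ab`, `ā = dig n a x₀ / 2^n` -/
def Uf (n m : ℕ) (a b z : α → ℝ) (x₀ : α) : α → ℝ := fun y =>
  (2 : ℝ) ^ (n + m) * ((z y - a y * b y) + ((dig n a x₀ : ℝ) / 2 ^ n) * b y)

/-- truncated version of `Uf`, a function of `dig (2N) b`, `dig (2N) (z - ab)` -/
def Ut (N n m : ℕ) (a b z : α → ℝ) (x₀ : α) : α → ℝ := fun y =>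
  (2 : ℝ) ^ (n + m) * ((dig (2 * N) (fun y => z y - a y * b y) y : ℝ) / 2 ^ (2 * N) +
    ((dig n a x₀ : ℝ) / 2 ^ n) * ((dig (2 * N) b y : ℝ) / 2 ^ (2 * N)))

/-- truncated version of `U' = 2^(n+m) (z - b̄ a + ā b̄)`, a function of `dig (2N) a`, `dig (2N) z` -/
def Ut' (N n m : ℕ) (a b z : α → ℝ) (x₀ : α) : α → ℝ := fun y =>
  (2 : ℝ) ^ (n + m) * ((dig (2 * N) z y : ℝ) / 2 ^ (2 * N) -
    ((dig m b x₀ : ℝ) / 2 ^ m) * ((dig (2 * N) a y : ℝ) / 2 ^ (2 * N)) +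
    ((dig n a x₀ : ℝ) / 2 ^ n) * ((dig m b x₀ : ℝ) / 2 ^ m))

/-- truncation error of `Uf` -/
theorem civ_trunc (N n m L : ℕ) (hL1 : 1 ≤ L) (hnm : n + m + 2 * L ≤ 2 * N) (u v s : ℝ)
    (hs : |s| ≤ 1) {u' v' : ℝ} (hu : u' ≤ 2 ^ (2 * N) * u) (hu2 : 2 ^ (2 * N) * u < u' + 1)
    (hv : v' ≤ 2 ^ (2 * N) * v) (hv2 : 2 ^ (2 * N) * v < v' + 1) (e : ℝ) :
    |(2 : ℝ) ^ (n + m) * (u + s * v + e) -
      2 ^ (n + m) * (u' / 2 ^ (2 * N) + s * (v' / 2 ^ (2 * N)) + e)| ≤ 1 / 2 ^ L := by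
  have hN : (0 : ℝ) < 2 ^ (2 * N) := by positivity
  have hP : (0 : ℝ) < 2 ^ (n + m) := by positivity
  have e1 : |u - u' / 2 ^ (2 * N)| ≤ 1 / 2 ^ (2 * N) := by
    rw [abs_le]
    constructor
    · have : u' / 2 ^ (2 * N) ≤ u := by rw [div_le_iff₀ hN]; linarith
      have h0 : (0 : ℝ) < 1 / 2 ^ (2 * N) := by positivity
      linarith
    · rw [sub_le_iff_le_add, ← add_div, le_div_iff₀ hN]; linarith
  have e2 : |v - v' / 2 ^ (2 * N)| ≤ 1 / 2 ^ (2 * N) := by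
    rw [abs_le]
    constructor
    · have : v' / 2 ^ (2 * N) ≤ v := by rw [div_le_iff₀ hN]; linarith
      have h0 : (0 : ℝ) < 1 / 2 ^ (2 * N) := by positivity
      linarith
    · rw [sub_le_iff_le_add, ← add_div, le_div_iff₀ hN]; linarith
  have e3 : |(u - u' / 2 ^ (2 * N)) + s * (v - v' / 2 ^ (2 * N))| ≤ 2 / 2 ^ (2 * N) := by
    refine (abs_add_le _ _).trans ?_
    rw [abs_mul]
    have : |s| * |v - v' / 2 ^ (2 * N)| ≤ 1 * (1 / 2 ^ (2 * N)) :=
      mul_le_mul hs e2 (abs_nonneg _) zero_le_one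
    calc _ ≤ (1 : ℝ) / 2 ^ (2 * N) + 1 * (1 / 2 ^ (2 * N)) := add_le_add e1 this
      _ = _ := by ring
  have e4 : (2 : ℝ) ^ (n + m) * (u + s * v + e) -
      2 ^ (n + m) * (u' / 2 ^ (2 * N) + s * (v' / 2 ^ (2 * N)) + e) =
      2 ^ (n + m) * ((u - u' / 2 ^ (2 * N)) + s * (v - v' / 2 ^ (2 * N))) := by ring
  rw [e4, abs_mul, abs_of_pos hP]
  calc (2 : ℝ) ^ (n + m) * |(u - u' / 2 ^ (2 * N)) + s * (v - v' / 2 ^ (2 * N))|
      ≤ 2 ^ (n + m) * (2 / 2 ^ (2 * N)) := mul_le_mul_of_nonneg_left e3 hP.le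
    _ ≤ 1 / 2 ^ L := by
      rw [← mul_div_assoc, div_le_div_iff₀ hN (by positivity), one_mul, ← pow_succ, ← pow_add]
      exact pow_le_pow_right₀ (by norm_num) (by omega)

theorem civ_abs_dig_le {α : Type} (n : ℕ) (a : α → ℝ) (x : α) (h : |a x| ≤ 1) :
    |(dig n a x : ℝ) / 2 ^ n| ≤ 1 := by
  have hP : (0 : ℝ) < 2 ^ n := by positivity
  rw [abs_le] at h
  rw [abs_div, abs_of_pos hP, div_le_one hP, abs_le]
  constructor
  · have : (-(2 ^ n : ℤ)) ≤ dig n a x := by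
      refine Int.le_floor.2 ?_
      push_cast
      nlinarith [h.1]
    exact_mod_cast this
  · have h1 : (dig n a x : ℝ) ≤ 2 ^ n * a x := Int.floor_le _
    nlinarith [h.2]

open Classical in
theorem inv_cell (Ω : Finset α) (Y : α → κ) (a b z : α → ℝ) (hab : ∀ x ∈ Ω, |a x| ≤ 1 ∧ |b x| ≤ 1)
    {N n m L k : ℕ} (hn : n + L ≤ N) (hm : m + L ≤ N) (hL : k + 1 ≤ L) {x₀ : α} (hx₀ : x₀ ∈ Ω)
    {η p : ℝ} (hη : 0 ≤ η) (hp : 0 < p) (hηp : η ≤ p / 2)
    (nca : NC k p (fib Ω (fun y => (Y y, dig n a y)) x₀) (fun y => (2 : ℝ) ^ n * a y))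
    (ncb : NC k p (fib Ω (fun y => (Y y, dig m b y)) x₀) (fun y => (2 : ℝ) ^ m * b y))
    (la : law1 (fib Ω (fun y => (Y y, dig n a y, dig m b y)) x₀)
      (fib Ω (fun y => (Y y, dig n a y)) x₀) (dig (n + L) a) ≤ η)
    (lb : law1 (fib Ω (fun y => (Y y, dig n a y, dig m b y)) x₀)
      (fib Ω (fun y => (Y y, dig m b y)) x₀) (dig (m + L) b) ≤ η)
    (h₁ : l1 (fib Ω (fun y => (Y y, dig n a y, dig m b y)) x₀) (dig (n + L) a)
      (fun y => (dig (m + L) b y, Ut N n m a b z x₀ y)) ≤ η)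
    (h₂ : l1 (fib Ω (fun y => (Y y, dig n a y, dig m b y)) x₀) (dig (m + L) b)
      (fun y => (dig (n + L) a y, Ut' N n m a b z x₀ y)) ≤ η) :
    (((fib Ω (fun y => (Y y, dig n a y, dig m b y)) x₀).filter fun x =>
      ¬ Inv (k + 1) (Real.sqrt (5 * η + 4 / 2 ^ L) / (p / 2) ^ 2 + 2 / 2 ^ L)
        (fib Ω (fun y => (Y y, dig n a y, dig (m + L) b y)) x) (Uf n m a b z x)).card : ℝ) ≤
      4 * Real.sqrt (5 * η + 4 / 2 ^ L) *
        (fib Ω (fun y => (Y y, dig n a y, dig m b y)) x₀).card := by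
  obtain ⟨B, hBdef⟩ : ∃ B, B = fib Ω (fun y => (Y y, dig n a y, dig m b y)) x₀ := ⟨_, rfl⟩
  rw [← hBdef] at la lb h₁ h₂ ⊢
  have hL1 : 1 ≤ L := by omega
  have hmemB : ∀ x, x ∈ B ↔ x ∈ Ω ∧ Y x = Y x₀ ∧ dig n a x = dig n a x₀ ∧
      dig m b x = dig m b x₀ := by
    intro x
    rw [hBdef]
    simp [fib]
  have hx₀B : x₀ ∈ B := (hmemB _).2 ⟨hx₀, rfl, rfl, rfl⟩
  have hBne : B.Nonempty := ⟨x₀, hx₀B⟩
  have hL0 : (0 : ℝ) < 2 ^ L := by positivity
  have hPn : (0 : ℝ) < 2 ^ n := by positivity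
  have hPm : (0 : ℝ) < 2 ^ m := by positivity
  have hnm : n + m + 2 * L ≤ 2 * N := by omega
  have hAb : |(dig n a x₀ : ℝ) / 2 ^ n| ≤ 1 := civ_abs_dig_le n a x₀ (hab x₀ hx₀).1
  have hBb : |(dig m b x₀ : ℝ) / 2 ^ m| ≤ 1 := civ_abs_dig_le m b x₀ (hab x₀ hx₀).2
  obtain ⟨X, hX⟩ : ∃ X : α → ℤ, X = fun y => dig (n + L) a y - 2 ^ L * dig n a x₀ := ⟨_, rfl⟩
  obtain ⟨Z, hZ⟩ : ∃ Z : α → ℤ, Z = fun y => dig (m + L) b y - 2 ^ L * dig m b x₀ := ⟨_, rfl⟩
  -- truncation of `Uf`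
  have htr : ∀ y, |(2 : ℝ) ^ (n + m) * ((z y - a y * b y) + ((dig n a x₀ : ℝ) / 2 ^ n) * b y) -
      Ut N n m a b z x₀ y| ≤ 1 / 2 ^ L := by
    intro y
    have := civ_trunc N n m L hL1 hnm (z y - a y * b y) (b y) ((dig n a x₀ : ℝ) / 2 ^ n) hAb
      (u' := dig (2 * N) (fun y => z y - a y * b y) y) (v' := dig (2 * N) b y)
      (Int.floor_le _) (Int.lt_floor_add_one _) (Int.floor_le _) (Int.lt_floor_add_one _) 0
    simpa [Ut] using this
  have htr' : ∀ y, |(2 : ℝ) ^ (n + m) * (z y - ((dig m b x₀ : ℝ) / 2 ^ m) * a y +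
      ((dig n a x₀ : ℝ) / 2 ^ n) * ((dig m b x₀ : ℝ) / 2 ^ m)) -
      Ut' N n m a b z x₀ y| ≤ 1 / 2 ^ L := by
    intro y
    have := civ_trunc N n m L hL1 hnm (z y) (a y) (-((dig m b x₀ : ℝ) / 2 ^ m))
      (by rwa [abs_neg])
      (u' := dig (2 * N) z y) (v' := dig (2 * N) a y)
      (Int.floor_le _) (Int.lt_floor_add_one _) (Int.floor_le _) (Int.lt_floor_add_one _)
      (((dig n a x₀ : ℝ) / 2 ^ n) * ((dig m b x₀ : ℝ) / 2 ^ m))
    have e : ∀ u v w s : ℝ, u + -s * v + w = u - s * v + w := fun u v w s => by ring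
    rw [e, e] at this
    exact this
  have hXr : ∀ x ∈ B, 0 ≤ X x ∧ X x < 2 ^ L := by
    intro x hx
    have h := civ_dig_add n L a x
    rw [((hmemB x).1 hx).2.2.1] at h
    rw [hX]
    constructor <;> simp only <;> linarith [h.1, h.2]
  have hZr : ∀ x ∈ B, 0 ≤ Z x ∧ Z x < 2 ^ L := by
    intro x hx
    have h := civ_dig_add m L b x
    rw [((hmemB x).1 hx).2.2.2] at h
    rw [hZ]
    constructor <;> simp only <;> linarith [h.1, h.2]
  have hU : ∀ x ∈ B, |Ut' N n m a b z x₀ x - Ut N n m a b z x₀ x -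
      ((X x : ℝ) / 2 ^ L) * ((Z x : ℝ) / 2 ^ L)| ≤ 4 / 2 ^ L := by
    intro x hx
    have ha1 : (dig (n + L) a x : ℝ) ≤ 2 ^ (n + L) * a x := Int.floor_le _
    have ha2 : (2 : ℝ) ^ (n + L) * a x < dig (n + L) a x + 1 := Int.lt_floor_add_one _
    have hb1 : (dig (m + L) b x : ℝ) ≤ 2 ^ (m + L) * b x := Int.floor_le _
    have hb2 : (2 : ℝ) ^ (m + L) * b x < dig (m + L) b x + 1 := Int.lt_floor_add_one _
    obtain ⟨α', hα'⟩ : ∃ α' : ℝ, α' = 2 ^ n * a x - dig n a x₀ := ⟨_, rfl⟩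
    obtain ⟨β', hβ'⟩ : ∃ β' : ℝ, β' = 2 ^ m * b x - dig m b x₀ := ⟨_, rfl⟩
    obtain ⟨xx, hxx⟩ : ∃ xx : ℝ, xx = (X x : ℝ) / 2 ^ L := ⟨_, rfl⟩
    obtain ⟨zz, hzz⟩ : ∃ zz : ℝ, zz = (Z x : ℝ) / 2 ^ L := ⟨_, rfl⟩
    have hX1 : (X x : ℝ) = dig (n + L) a x - 2 ^ L * dig n a x₀ := by rw [hX]; push_cast; rfl
    have hZ1 : (Z x : ℝ) = dig (m + L) b x - 2 ^ L * dig m b x₀ := by rw [hZ]; push_cast; rfl
    have hαx : 0 ≤ α' - xx ∧ α' - xx ≤ 1 / 2 ^ L := by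
      have : α' - xx = (2 ^ (n + L) * a x - dig (n + L) a x) / 2 ^ L := by
        rw [hα', hxx, hX1, pow_add]; field_simp; ring
      rw [this]
      exact ⟨div_nonneg (by linarith) hL0.le, div_le_div_of_nonneg_right (by linarith) hL0.le⟩
    have hβz : 0 ≤ β' - zz ∧ β' - zz ≤ 1 / 2 ^ L := by
      have : β' - zz = (2 ^ (m + L) * b x - dig (m + L) b x) / 2 ^ L := by
        rw [hβ', hzz, hZ1, pow_add]; field_simp; ring
      rw [this]
      exact ⟨div_nonneg (by linarith) hL0.le, div_le_div_of_nonneg_right (by linarith) hL0.le⟩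
    have hxr : 0 ≤ xx ∧ xx ≤ 1 := by
      have h := hXr x hx
      rw [hxx]
      refine ⟨div_nonneg (by exact_mod_cast h.1) hL0.le, ?_⟩
      rw [div_le_one hL0]
      exact_mod_cast h.2.le
    have hβr : 0 ≤ β' ∧ β' ≤ 1 := by
      have e1 : (dig m b x : ℝ) ≤ 2 ^ m * b x := Int.floor_le _
      have e2 : (2 : ℝ) ^ m * b x < dig m b x + 1 := Int.lt_floor_add_one _
      rw [((hmemB x).1 hx).2.2.2] at e1 e2
      rw [hβ']
      constructor <;> linarith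
    have hprod : |α' * β' - xx * zz| ≤ 2 / 2 ^ L := by
      have e : α' * β' - xx * zz = (α' - xx) * β' + xx * (β' - zz) := by ring
      have e1 : 0 ≤ (α' - xx) * β' := mul_nonneg hαx.1 hβr.1
      have e2 : 0 ≤ xx * (β' - zz) := mul_nonneg hxr.1 hβz.1
      have e3 : (α' - xx) * β' ≤ (1 / 2 ^ L) * 1 :=
        mul_le_mul hαx.2 hβr.2 hβr.1 (by positivity)
      have e4 : xx * (β' - zz) ≤ 1 * (1 / 2 ^ L) :=
        mul_le_mul hxr.2 hβz.2 hβz.1 zero_le_one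
      rw [e, abs_of_nonneg (add_nonneg e1 e2)]
      calc _ ≤ (1 / 2 ^ L : ℝ) * 1 + 1 * (1 / 2 ^ L) := add_le_add e3 e4
        _ = _ := by ring
    have hid : (2 : ℝ) ^ (n + m) * (z x - ((dig m b x₀ : ℝ) / 2 ^ m) * a x +
        ((dig n a x₀ : ℝ) / 2 ^ n) * ((dig m b x₀ : ℝ) / 2 ^ m)) -
        (2 : ℝ) ^ (n + m) * ((z x - a x * b x) + ((dig n a x₀ : ℝ) / 2 ^ n) * b x) =
        α' * β' := by
      rw [hα', hβ', pow_add]
      field_simp
      ring
    have t1 := htr x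
    have t2 := htr' x
    rw [← hxx, ← hzz]
    rw [abs_le] at t1 t2 hprod ⊢
    have h4 : (4 : ℝ) / 2 ^ L = 2 / 2 ^ L + 1 / 2 ^ L + 1 / 2 ^ L := by ring
    rw [h4]
    constructor <;> linarith [t1.1, t1.2, t2.1, t2.2, hprod.1, hprod.2]
  have hinj : ∀ c : ℤ, Function.Injective (fun u : ℤ => u - c) := fun c u v h => by
    simpa using h
  have l₁ : l1 B X (fun x => (Z x, Ut N n m a b z x₀ x)) ≤ η := by
    have e := civ_l1_comp B (dig (n + L) a) (fun y => (dig (m + L) b y, Ut N n m a b z x₀ y))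
      (fun u => u - 2 ^ L * dig n a x₀) (fun v => (v.1 - 2 ^ L * dig m b x₀, v.2)) (hinj _)
      (by
        rintro ⟨u, u'⟩ ⟨v, v'⟩ h
        simp only [Prod.mk.injEq, sub_left_inj] at h
        exact Prod.ext h.1 h.2)
    rw [hX, hZ]
    rw [← e] at h₁
    exact h₁
  have l₂ : l1 B Z (fun x => (X x, Ut' N n m a b z x₀ x)) ≤ η := by
    have e := civ_l1_comp B (dig (m + L) b) (fun y => (dig (n + L) a y, Ut' N n m a b z x₀ y))
      (fun u => u - 2 ^ L * dig m b x₀) (fun v => (v.1 - 2 ^ L * dig n a x₀, v.2)) (hinj _)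
      (by
        rintro ⟨u, u'⟩ ⟨v, v'⟩ h
        simp only [Prod.mk.injEq, sub_left_inj] at h
        exact Prod.ext h.1 h.2)
    rw [hX, hZ]
    rw [← e] at h₂
    exact h₂
  have ncX : ∀ y ∈ B, ((B.filter fun x => |(X x : ℝ) - X y| < 2 ^ L / 2 ^ (k + 1)).card : ℝ) ≤
      (1 - p / 2) * B.card := by
    intro y _
    have := civ_nc (fib Ω (fun y => (Y y, dig n a y)) x₀) B a hL hBne
      (fun x hx => by
        have := (hmemB x).1 hx
        simp [fib, this.1, this.2.1, this.2.2.1]) (dig n a x₀) hηp nca la y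
    rw [hX]
    exact this
  have ncZ : ∀ y ∈ B, ((B.filter fun x => |(Z x : ℝ) - Z y| < 2 ^ L / 2 ^ (k + 1)).card : ℝ) ≤
      (1 - p / 2) * B.card := by
    intro y _
    have := civ_nc (fib Ω (fun y => (Y y, dig m b y)) x₀) B b hL hBne
      (fun x hx => by
        have := (hmemB x).1 hx
        simp [fib, this.1, this.2.1, this.2.2.2]) (dig m b x₀) hηp ncb lb y
    rw [hZ]
    exact this
  have main := lt_cell B hBne L (k + 1) X Z hXr hZr (Ut N n m a b z x₀) (Ut' N n m a b z x₀) hU hη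
    (half_pos hp) l₁ l₂ ncX ncZ
  refine le_trans ?_ main
  have hmono : (B.filter fun x => ¬ Inv (k + 1)
      (Real.sqrt (5 * η + 4 / 2 ^ L) / (p / 2) ^ 2 + 2 / 2 ^ L)
      (fib Ω (fun y => (Y y, dig n a y, dig (m + L) b y)) x) (Uf n m a b z x)) ⊆
      (B.filter fun x => ¬ Inv (k + 1) (Real.sqrt (5 * η + 4 / 2 ^ L) / (p / 2) ^ 2)
        (fib B Z x) (Ut N n m a b z x₀)) := by
    intro x hx
    rw [Finset.mem_filter] at hx ⊢
    refine ⟨hx.1, fun hinv => hx.2 ?_⟩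
    have hxB := (hmemB x).1 hx.1
    have hfib : fib Ω (fun y => (Y y, dig n a y, dig (m + L) b y)) x = fib B Z x := by
      ext y
      simp only [fib, Finset.mem_filter, Prod.mk.injEq]
      rw [hmemB, hZ]
      simp only [sub_left_inj]
      constructor
      · rintro ⟨h1, h2, h3, h4⟩
        exact ⟨⟨h1, h2.trans hxB.2.1, h3.trans hxB.2.2.1, (civ_dig_eq h4).trans hxB.2.2.2⟩, h4⟩
      · rintro ⟨⟨h1, h2, h3, _⟩, h4⟩
        exact ⟨h1, h2.trans hxB.2.1.symm, h3.trans hxB.2.2.1.symm, h4⟩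
    rw [hfib]
    obtain ⟨t, ht1, ht2, ht⟩ := hinv
    refine ⟨t, ht1, ht2, fun ψ hψ hlip => ?_⟩
    have h := ht ψ hψ hlip
    have hUf : ∀ y, |Uf n m a b z x y - Ut N n m a b z x₀ y| ≤ 1 / 2 ^ L := by
      intro y
      have := htr y
      unfold Uf
      rw [hxB.2.2.1]
      exact this
    have hd : ∀ y, |(ψ (Uf n m a b z x y + t) - ψ (Uf n m a b z x y)) -
        (ψ (Ut N n m a b z x₀ y + t) - ψ (Ut N n m a b z x₀ y))| ≤ 2 / 2 ^ L := by
      intro y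
      have e1 : |ψ (Uf n m a b z x y + t) - ψ (Ut N n m a b z x₀ y + t)| ≤ 1 / 2 ^ L := by
        have := hlip.dist_le_mul (Uf n m a b z x y + t) (Ut N n m a b z x₀ y + t)
        rw [Real.dist_eq, Real.dist_eq] at this
        simp only [NNReal.coe_one, one_mul, add_sub_add_right_eq_sub] at this
        exact this.trans (hUf y)
      have e2 : |ψ (Uf n m a b z x y) - ψ (Ut N n m a b z x₀ y)| ≤ 1 / 2 ^ L := by
        have := hlip.dist_le_mul (Uf n m a b z x y) (Ut N n m a b z x₀ y)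
        rw [Real.dist_eq, Real.dist_eq] at this
        simp only [NNReal.coe_one, one_mul] at this
        exact this.trans (hUf y)
      rw [abs_le] at e1 e2 ⊢
      have h4 : (2 : ℝ) / 2 ^ L = 1 / 2 ^ L + 1 / 2 ^ L := by ring
      rw [h4]
      constructor <;> linarith [e1.1, e1.2, e2.1, e2.2]
    have hsum : |∑ y ∈ fib B Z x, (ψ (Uf n m a b z x y + t) - ψ (Uf n m a b z x y)) -
        ∑ y ∈ fib B Z x, (ψ (Ut N n m a b z x₀ y + t) - ψ (Ut N n m a b z x₀ y))| ≤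
        2 / 2 ^ L * (fib B Z x).card := by
      rw [← Finset.sum_sub_distrib]
      refine (Finset.abs_sum_le_sum_abs _ _).trans ?_
      refine (Finset.sum_le_card_nsmul _ _ (2 / 2 ^ L) fun y _ => hd y).trans ?_
      rw [nsmul_eq_mul, mul_comm]
    rw [abs_le] at hsum h ⊢
    constructor <;> nlinarith [hsum.1, hsum.2, h.1, h.2]
  exact_mod_cast Finset.card_le_card hmono

end Pool.Agent.Lib.P51n
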