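import Pool.Agent.Lib.P51n.CDefs

/-!
# P51n.CLt

The commutator step.  `X`, `Z` are `L`-digit integers, `x = X/2^L`, `z = Z/2^L`; `X` is nearly
independent of `(Z, U)`, `Z` is nearly independent of `(X, U')`, and `U' = U + x z + O(2^{-L})`.
Then for most values of `Z` the law of `U` given `Z` is nearly invariant under a translation.

Notation: `P` uniform on `B`; `P(u), P(w), P(u,w)` for the laws of `X`, `Z`, `(X,Z)`; conditional
laws as usual.  Let `η₁ = 5η + 4/2^L`.  For values `u, w` with `P(u,w) > 0` let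
`e(u,w) = min 1 (‖law(U|u,w) - law(U|w)‖₁ + ‖law(U'|u,w) - law(U'|u)‖₁ + 4/2^L)`, and `e(u,w) = 1` if
`P(u,w) = 0`.
1. For `ψ : ℝ → [0,1]` `1`-Lipschitz, `|E[ψ(U + uw)|w] - E[ψ(U')|u]| ≤ e(u,w)` (`uw` stands for
   `(u/2^L)(w/2^L)`).
2. `∑ P(u,w) ‖law(U|u,w) - law(U|w)‖₁ = ∑ |P(u,w,v) - P(u,w)P(w,v)/P(w)| ≤`
   `∑ |P(u,w,v) - P(u)P(w,v)| + ∑ |P(u)P(w) - P(u,w)| ≤ 2η`, similarly for `U'` (`h₂`); hence
   `∑ P(u)P(w) e(u,w) ≤ ∑ P(u,w) e(u,w) + ∑ |P(u)P(w) - P(u,w)| ≤ 5η + 4/2^L = η₁`.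
3. `G(w₂) = ∑_{u₁,u₂,w₁} P(u₁)P(u₂)P(w₁) (e(u₁,w₁)+e(u₁,w₂)+e(u₂,w₁)+e(u₂,w₂))` satisfies
   `∑ P(w₂) G(w₂) ≤ 4η₁`, so `G(w₂) ≤ √η₁` for `w₂` outside a set of probability `≤ 4√η₁`.
4. For such a `w₂`: the triples with `|u₁-u₂| ≥ 2^L/2^k`, `|w₁-w₂| ≥ 2^L/2^k` have probability at
   least `p²` (`ncX`, `ncZ`), so some triple has `e+e+e+e ≤ √η₁/p²`.  By 1, for all `ψ`
   `E[ψ(U+u₁w₁)|w₁] ≈ E[ψ(U+u₁w₂)|w₂]`, `E[ψ(U+u₂w₁)|w₁] ≈ E[ψ(U+u₂w₂)|w₂]`; replacing `ψ` by
   translates, `E[ψ(U+t)|w₂] ≈ E[ψ(U)|w₂]` with `t = (u₁-u₂)(w₂-w₁)`, total error `≤ √η₁/p²`.  If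
   `t < 0` replace `ψ` by `ψ(· - t)`.  `4^{-k} ≤ |t| ≤ 1`.
-/

set_option autoImplicit false

noncomputable section

namespace Pool.Agent.Lib.P51n

namespace CLtAux

open Finset

variable {α β γ δ : Type*}

section

attribute [local instance 10000] Classical.propDecidable

/-- counts -/
def c1 (B : Finset α) (f : α → β) (u : β) : ℝ := ((B.filter fun x => f x = u).card : ℝ)

/-- counts -/
def c2 (B : Finset α) (f : α → β) (g : α → γ) (u : β) (w : γ) : ℝ :=
  ((B.filter fun x => f x = u ∧ g x = w).card : ℝ)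

/-- counts -/
def c3 (B : Finset α) (f : α → β) (g : α → γ) (h : α → δ) (u : β) (w : γ) (v : δ) : ℝ :=
  ((B.filter fun x => f x = u ∧ g x = w ∧ h x = v).card : ℝ)

/-- sum over a fibre -/
def sF (B : Finset α) (g : α → γ) (w : γ) (φ : α → ℝ) : ℝ := ∑ x ∈ B.filter (fun x => g x = w), φ x

/-- sum over a double fibre -/
def sF2 (B : Finset α) (f : α → β) (g : α → γ) (u : β) (w : γ) (φ : α → ℝ) : ℝ :=
  ∑ x ∈ B.filter (fun x => f x = u ∧ g x = w), φ x

lemma c1_nonneg (B : Finset α) (f : α → β) (u : β) : 0 ≤ c1 B f u := Nat.cast_nonneg _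
lemma c1_pos {B : Finset α} (f : α → β) {x : α} (hx : x ∈ B) : 0 < c1 B f (f x) := by
  unfold c1
  rw [Nat.cast_pos, Finset.card_pos]
  exact ⟨x, Finset.mem_filter.2 ⟨hx, rfl⟩⟩
lemma c2_nonneg (B : Finset α) (f : α → β) (g : α → γ) (u : β) (w : γ) : 0 ≤ c2 B f g u w :=
  Nat.cast_nonneg _

lemma sum_c3 (B : Finset α) (f : α → β) (g : α → γ) (h : α → δ) (u : β) (w : γ) :
    ∑ v ∈ B.image h, c3 B f g h u w v = c2 B f g u w := by
  unfold c3 c2
  rw [← Nat.cast_sum]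
  congr 1
  rw [Finset.card_eq_sum_card_fiberwise (f := h) (t := B.image h)]
  · refine Finset.sum_congr rfl fun v _ => ?_
    rw [Finset.filter_filter]
    congr 1
    ext x
    simp only [Finset.mem_filter, and_assoc]
  · intro x hx
    simp only [coe_filter, Set.mem_ofPred_eq] at hx
    simpa using ⟨x, hx.1, rfl⟩

lemma sum_c2 (B : Finset α) (f : α → β) (g : α → γ) (u : β) :
    ∑ w ∈ B.image g, c2 B f g u w = c1 B f u := by
  unfold c2 c1
  rw [← Nat.cast_sum]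
  congr 1
  rw [Finset.card_eq_sum_card_fiberwise (f := g) (t := B.image g)]
  · refine Finset.sum_congr rfl fun v _ => ?_
    rw [Finset.filter_filter]
    congr 1
    ext x
    simp only [Finset.mem_filter]
  · intro x hx
    simp only [coe_filter, Set.mem_ofPred_eq] at hx
    simpa using ⟨x, hx.1, rfl⟩

lemma c2_symm (B : Finset α) (f : α → β) (g : α → γ) (u : β) (w : γ) :
    c2 B f g u w = c2 B g f w u := by
  unfold c2
  congr 2
  ext x
  simp only [Finset.mem_filter]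
  tauto

lemma c3_symm (B : Finset α) (f : α → β) (g : α → γ) (h : α → δ) (u : β) (w : γ) (v : δ) :
    c3 B f g h u w v = c3 B g f h w u v := by
  unfold c3
  congr 2
  ext x
  simp only [Finset.mem_filter]
  tauto

lemma sum_c1 (B : Finset α) (f : α → β) : ∑ u ∈ B.image f, c1 B f u = B.card := by
  unfold c1
  rw [← Nat.cast_sum]
  congr 1
  exact (Finset.card_eq_sum_card_image f B).symm

lemma sum_comp_c1 (B : Finset α) (f : α → β) (F : β → ℝ) :
    ∑ x ∈ B, F (f x) = ∑ u ∈ B.image f, c1 B f u * F u := by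
  rw [Finset.sum_comp]
  refine Finset.sum_congr rfl fun u _ => ?_
  rw [nsmul_eq_mul]
  rfl

lemma sum_c3_phi (B : Finset α) (f : α → β) (g : α → γ) (h : α → δ) (u : β) (w : γ) (φ : δ → ℝ) :
    sF2 B f g u w (fun x => φ (h x)) = ∑ v ∈ B.image h, c3 B f g h u w v * φ v := by
  unfold sF2
  rw [← Finset.sum_fiberwise_of_maps_to (g := h) (t := B.image h)]
  · refine Finset.sum_congr rfl fun v _ => ?_
    rw [Finset.sum_congr rfl (g := fun _ => φ v) (by
      intro x hx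
      rw [Finset.mem_filter] at hx
      rw [hx.2]), Finset.sum_const, nsmul_eq_mul]
    unfold c3
    rw [Finset.filter_filter]
    congr 3
    ext x
    simp only [Finset.mem_filter, and_assoc]
  · intro x hx
    rw [Finset.mem_filter] at hx
    exact Finset.mem_image_of_mem _ hx.1

lemma sum_c2_phi (B : Finset α) (g : α → γ) (h : α → δ) (w : γ) (φ : δ → ℝ) :
    sF B g w (fun x => φ (h x)) = ∑ v ∈ B.image h, c2 B g h w v * φ v := by
  unfold sF
  rw [← Finset.sum_fiberwise_of_maps_to (g := h) (t := B.image h)]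
  · refine Finset.sum_congr rfl fun v _ => ?_
    rw [Finset.sum_congr rfl (g := fun _ => φ v) (by
      intro x hx
      rw [Finset.mem_filter] at hx
      rw [hx.2]), Finset.sum_const, nsmul_eq_mul]
    unfold c2
    rw [Finset.filter_filter]
    congr 3
    ext x
    simp only [Finset.mem_filter]
  · intro x hx
    rw [Finset.mem_filter] at hx
    exact Finset.mem_image_of_mem _ hx.1

lemma sum_image_prod [inst : DecidableEq (γ × δ)] (B : Finset α) (g : α → γ) (h : α → δ)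
    (F : γ × δ → ℝ) (hF : ∀ p, p ∉ B.image (fun x => (g x, h x)) → F p = 0) :
    ∑ p ∈ B.image (fun x => (g x, h x)), F p = ∑ w ∈ B.image g, ∑ v ∈ B.image h, F (w, v) := by
  rw [← Finset.sum_product']
  apply Finset.sum_subset
  · intro p hp
    rw [Finset.mem_image] at hp
    obtain ⟨x, hx, rfl⟩ := hp
    rw [Finset.mem_product]
    exact ⟨Finset.mem_image_of_mem _ hx, Finset.mem_image_of_mem _ hx⟩
  · intro p _ hp
    exact hF p hp

lemma l1_eq (B : Finset α) (f : α → β) (g : α → γ) (h : α → δ) :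
    l1 B f (fun x => (g x, h x)) = (∑ u ∈ B.image f, ∑ w ∈ B.image g, ∑ v ∈ B.image h,
      |c3 B f g h u w v - c1 B f u * c2 B g h w v / B.card|) / B.card := by
  unfold l1
  congr 1
  refine Finset.sum_congr rfl fun u _ => ?_
  rw [sum_image_prod]
  · refine Finset.sum_congr rfl fun w _ => Finset.sum_congr rfl fun v _ => ?_
    unfold c3 c2 c1
    congr 2
    · congr 2
      ext x
      simp only [Finset.mem_filter, Prod.mk.injEq]
    · congr 2
      congr 2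
      ext x
      simp only [Finset.mem_filter, Prod.mk.injEq]
  · rintro ⟨w, v⟩ hp
    have h2 : ∀ x ∈ B, (g x, h x) ≠ (w, v) := by
      intro x hx hxe
      exact hp (Finset.mem_image.2 ⟨x, hx, hxe⟩)
    have hA : ∀ (inst : DecidablePred fun x => f x = u ∧ (g x, h x) = (w, v)),
        (@Finset.filter _ (fun x => f x = u ∧ (g x, h x) = (w, v)) inst B) = ∅ := fun inst =>
      Finset.filter_eq_empty_iff.2 fun x hx hxe => h2 x hx hxe.2
    have hC : ∀ (inst : DecidablePred fun x => (g x, h x) = (w, v)),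
        (@Finset.filter _ (fun x => (g x, h x) = (w, v)) inst B) = ∅ := fun inst =>
      Finset.filter_eq_empty_iff.2 fun x hx hxe => h2 x hx hxe
    rw [hA, hC, Finset.card_empty, Nat.cast_zero, mul_zero, zero_div, sub_zero, abs_zero]

/-- the defect of conditional independence -/
def AA (B : Finset α) (f : α → β) (g : α → γ) (h : α → δ) (u : β) (w : γ) : ℝ :=
  ∑ v ∈ B.image h, |c3 B f g h u w v - c2 B f g u w * c2 B g h w v / c1 B g w|

lemma AA_nonneg (B : Finset α) (f : α → β) (g : α → γ) (h : α → δ) (u : β) (w : γ) :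
    0 ≤ AA B f g h u w := Finset.sum_nonneg fun _ _ => abs_nonneg _

lemma marg (B : Finset α) (hB : B.Nonempty) (f : α → β) (g : α → γ) (h : α → δ) {η : ℝ}
    (H : l1 B f (fun x => (g x, h x)) ≤ η) :
    (∑ u ∈ B.image f, ∑ w ∈ B.image g, |c2 B f g u w - c1 B f u * c1 B g w / B.card| ≤ η * B.card) ∧
    (∑ u ∈ B.image f, ∑ w ∈ B.image g, AA B f g h u w ≤ 2 * η * B.card) := by
  have hn : (0 : ℝ) < B.card := by exact_mod_cast hB.card_pos
  rw [l1_eq, div_le_iff₀ hn] at H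
  have h1 : ∑ u ∈ B.image f, ∑ w ∈ B.image g, |c2 B f g u w - c1 B f u * c1 B g w / B.card| ≤
      η * B.card := by
    refine le_trans (Finset.sum_le_sum fun u _ => Finset.sum_le_sum fun w _ => ?_) H
    rw [← sum_c3 B f g h u w, ← sum_c2 B g h w, Finset.mul_sum, Finset.sum_div, ← Finset.sum_sub_distrib]
    exact Finset.abs_sum_le_sum_abs _ _
  refine ⟨h1, ?_⟩
  have h2 : ∀ u ∈ B.image f, ∀ w ∈ B.image g, AA B f g h u w ≤
      ∑ v ∈ B.image h, |c3 B f g h u w v - c1 B f u * c2 B g h w v / B.card| +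
        |c2 B f g u w - c1 B f u * c1 B g w / B.card| := by
    intro u _ w hw
    have hw0 : 0 < c1 B g w := by
      unfold c1
      rw [Finset.mem_image] at hw
      obtain ⟨x, hx, rfl⟩ := hw
      have : 0 < (B.filter fun y => g y = g x).card :=
        Finset.card_pos.2 ⟨x, Finset.mem_filter.2 ⟨hx, rfl⟩⟩
      exact_mod_cast this
    have h3 : |c2 B f g u w - c1 B f u * c1 B g w / B.card| =
        ∑ v ∈ B.image h, |c1 B f u * c2 B g h w v / B.card - c2 B f g u w * c2 B g h w v / c1 B g w| := by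
      have : ∀ v, |c1 B f u * c2 B g h w v / B.card - c2 B f g u w * c2 B g h w v / c1 B g w| =
          |c2 B f g u w - c1 B f u * c1 B g w / B.card| / c1 B g w * c2 B g h w v := by
        intro v
        rw [show c1 B f u * c2 B g h w v / B.card - c2 B f g u w * c2 B g h w v / c1 B g w =
          -((c2 B f g u w - c1 B f u * c1 B g w / B.card) / c1 B g w * c2 B g h w v) by
            field_simp; ring]
        rw [abs_neg, abs_mul, abs_div, abs_of_pos hw0, abs_of_nonneg (c2_nonneg B g h w v)]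
      simp only [this]
      rw [← Finset.mul_sum, sum_c2, div_mul_cancel₀ _ hw0.ne']
    rw [h3, ← Finset.sum_add_distrib]
    unfold AA
    refine Finset.sum_le_sum fun v _ => ?_
    exact abs_sub_le _ _ _
  calc _ ≤ ∑ u ∈ B.image f, ∑ w ∈ B.image g, (∑ v ∈ B.image h,
        |c3 B f g h u w v - c1 B f u * c2 B g h w v / B.card| +
        |c2 B f g u w - c1 B f u * c1 B g w / B.card|) :=
        Finset.sum_le_sum fun u hu => Finset.sum_le_sum fun w hw => h2 u hu w hw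
    _ ≤ 2 * η * B.card := by
        simp only [Finset.sum_add_distrib]
        linarith

/-- comparison of conditional expectations -/
lemma test (B : Finset α) (f : α → β) (g : α → γ) (h : α → δ) (u : β) (w : γ)
    (φ : δ → ℝ) (h0 : ∀ v, 0 ≤ φ v ∧ φ v ≤ 1) :
    |sF2 B f g u w (fun x => φ (h x)) -
      c2 B f g u w * (sF B g w (fun x => φ (h x)) / c1 B g w)| ≤ AA B f g h u w := by
  unfold AA
  rw [sum_c3_phi, sum_c2_phi, Finset.sum_div, Finset.mul_sum, ← Finset.sum_sub_distrib]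
  refine (Finset.abs_sum_le_sum_abs _ _).trans (Finset.sum_le_sum fun v _ => ?_)
  rw [show c3 B f g h u w v * φ v - c2 B f g u w * (c2 B g h w v * φ v / c1 B g w) =
    (c3 B f g h u w v - c2 B f g u w * c2 B g h w v / c1 B g w) * φ v by ring]
  rw [abs_mul, abs_of_nonneg (h0 v).1]
  exact mul_le_of_le_one_right (abs_nonneg _) (h0 v).2

/-- the error function -/
def ee (B : Finset α) (X : α → β) (Z : α → γ) (U U' : α → ℝ) (ρ : ℝ) (u : β) (w : γ) : ℝ :=
  if c2 B X Z u w = 0 then 1 else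
    min 1 ((AA B X Z U u w + AA B Z X U' w u) / c2 B X Z u w + ρ)

lemma ee_le_one (B : Finset α) (X : α → β) (Z : α → γ) (U U' : α → ℝ) (ρ : ℝ) (u : β) (w : γ) :
    ee B X Z U U' ρ u w ≤ 1 := by
  unfold ee
  split_ifs
  · exact le_rfl
  · exact min_le_left _ _

lemma ee_nonneg (B : Finset α) (X : α → β) (Z : α → γ) (U U' : α → ℝ) {ρ : ℝ} (hρ : 0 ≤ ρ)
    (u : β) (w : γ) : 0 ≤ ee B X Z U U' ρ u w := by
  unfold ee
  split_ifs
  · exact zero_le_one
  · have h1 := c2_nonneg B X Z u w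
    have h2 := AA_nonneg B X Z U u w
    have h3 := AA_nonneg B Z X U' w u
    exact le_min zero_le_one (add_nonneg (div_nonneg (add_nonneg h2 h3) h1) hρ)

lemma avg_mem {B : Finset α} {g : α → γ} {w : γ} {φ : α → ℝ} (h0 : ∀ v, 0 ≤ φ v ∧ φ v ≤ 1)
    (hw : 0 < c1 B g w) : 0 ≤ sF B g w φ / c1 B g w ∧ sF B g w φ / c1 B g w ≤ 1 := by
  constructor
  · exact div_nonneg (Finset.sum_nonneg fun x _ => (h0 x).1) hw.le
  · rw [div_le_one hw]
    unfold sF c1
    refine (Finset.sum_le_sum fun x _ => (h0 x).2).trans ?_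
    rw [Finset.sum_const, nsmul_eq_mul, mul_one]

lemma sF2_symm (B : Finset α) (f : α → β) (g : α → γ) (u : β) (w : γ) (φ : α → ℝ) :
    sF2 B g f w u φ = sF2 B f g u w φ := by
  unfold sF2
  refine Finset.sum_congr ?_ fun _ _ => rfl
  ext x
  simp only [Finset.mem_filter]
  tauto

lemma ee_test (B : Finset α) (X : α → β) (Z : α → γ) (U U' : α → ℝ) {ρ s : ℝ} (u : β) (w : γ)
    (hU : ∀ x ∈ B, X x = u → Z x = w → |U' x - U x - s| ≤ ρ) (hu : 0 < c1 B X u) (hw : 0 < c1 B Z w)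
    (ψ : ℝ → ℝ) (h0 : ∀ v, 0 ≤ ψ v ∧ ψ v ≤ 1) (hψ : LipschitzWith 1 ψ) :
    |sF B Z w (fun x => ψ (U x + s)) / c1 B Z w - sF B X u (fun x => ψ (U' x)) / c1 B X u| ≤
      ee B X Z U U' ρ u w := by
  have m1 := avg_mem (B := B) (g := Z) (w := w) (φ := fun x => ψ (U x + s)) (fun x => h0 _) hw
  have m2 := avg_mem (B := B) (g := X) (w := u) (φ := fun x => ψ (U' x)) (fun x => h0 _) hu
  have t1 := test B X Z U u w (fun v => ψ (v + s)) (fun v => h0 _)
  have t2 := test B Z X U' w u ψ h0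
  set E1 := sF B Z w (fun x => ψ (U x + s)) / c1 B Z w with hE1
  set E2 := sF B X u (fun x => ψ (U' x)) / c1 B X u with hE2
  have htriv : |E1 - E2| ≤ 1 := by
    rw [abs_le]; constructor <;> linarith [m1.1, m1.2, m2.1, m2.2]
  unfold ee
  split_ifs with hc
  · exact htriv
  · refine le_min htriv ?_
    have hc0 : 0 < c2 B X Z u w := lt_of_le_of_ne (c2_nonneg _ _ _ _ _) (Ne.symm hc)
    rw [sF2_symm, c2_symm B Z X w u] at t2
    have t3 : |sF2 B X Z u w (fun x => ψ (U x + s)) - sF2 B X Z u w (fun x => ψ (U' x))| ≤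
        c2 B X Z u w * ρ := by
      unfold sF2 c2
      rw [← Finset.sum_sub_distrib]
      refine (Finset.abs_sum_le_sum_abs _ _).trans ?_
      rw [← nsmul_eq_mul, ← Finset.sum_const]
      refine Finset.sum_le_sum fun x hx => ?_
      rw [Finset.mem_filter] at hx
      have h1 := hψ.dist_le_mul (U x + s) (U' x)
      rw [Real.dist_eq, Real.dist_eq, NNReal.coe_one, one_mul] at h1
      refine h1.trans ?_
      rw [abs_sub_comm, ← sub_sub]
      exact hU x hx.1 hx.2.1 hx.2.2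
    have key : c2 B X Z u w * |E1 - E2| ≤
        AA B X Z U u w + AA B Z X U' w u + c2 B X Z u w * ρ := by
      rw [← abs_of_pos hc0, ← abs_mul, abs_of_pos hc0]
      have : c2 B X Z u w * (E1 - E2) =
          -(sF2 B X Z u w (fun x => ψ (U x + s)) - c2 B X Z u w * E1) +
          ((sF2 B X Z u w (fun x => ψ (U x + s)) - sF2 B X Z u w (fun x => ψ (U' x))) +
          (sF2 B X Z u w (fun x => ψ (U' x)) - c2 B X Z u w * E2)) := by ring
      rw [this]
      refine (abs_add_le _ _).trans ?_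
      rw [abs_neg]
      have := abs_add_le (sF2 B X Z u w (fun x => ψ (U x + s)) - sF2 B X Z u w (fun x => ψ (U' x)))
          (sF2 B X Z u w (fun x => ψ (U' x)) - c2 B X Z u w * E2)
      linarith
    rw [← sub_le_iff_le_add, le_div_iff₀ hc0]
    linarith

end

open Classical in
lemma sum_ee_le (B : Finset α) (hB : B.Nonempty) (X : α → β) (Z : α → γ) (U U' : α → ℝ) {η ρ : ℝ}
    (hρ : 0 ≤ ρ)
    (h₁ : l1 B X (fun x => (Z x, U x)) ≤ η) (h₂ : l1 B Z (fun x => (X x, U' x)) ≤ η) :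
    ∑ x ∈ B, ∑ y ∈ B, ee B X Z U U' ρ (X x) (Z y) ≤ (5 * η + ρ) * (B.card : ℝ) ^ 2 := by
  have hn : (0 : ℝ) < B.card := by exact_mod_cast hB.card_pos
  obtain ⟨a1, a2⟩ := marg B hB X Z U h₁
  obtain ⟨_, b2⟩ := marg B hB Z X U' h₂
  rw [Finset.sum_comm] at b2
  have e1 : ∑ x ∈ B, ∑ y ∈ B, ee B X Z U U' ρ (X x) (Z y) =
      ∑ u ∈ B.image X, ∑ w ∈ B.image Z, c1 B X u * (c1 B Z w * ee B X Z U U' ρ u w) := by
    rw [sum_comp_c1 B X (fun u => ∑ y ∈ B, ee B X Z U U' ρ u (Z y))]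
    refine Finset.sum_congr rfl fun u _ => ?_
    rw [sum_comp_c1 B Z (fun w => ee B X Z U U' ρ u w), Finset.mul_sum]
  have e2 : ∀ u w, c1 B X u * (c1 B Z w * ee B X Z U U' ρ u w) ≤
      B.card * (|c2 B X Z u w - c1 B X u * c1 B Z w / B.card| +
        ((AA B X Z U u w + AA B Z X U' w u) + c2 B X Z u w * ρ)) := by
    intro u w
    have i1 : c1 B X u * (c1 B Z w * ee B X Z U U' ρ u w) =
        B.card * ((c1 B X u * c1 B Z w / B.card) * ee B X Z U U' ρ u w) := by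
      field_simp
    rw [i1]
    refine mul_le_mul_of_nonneg_left ?_ hn.le
    have i2 : c2 B X Z u w * ee B X Z U U' ρ u w ≤
        (AA B X Z U u w + AA B Z X U' w u) + c2 B X Z u w * ρ := by
      unfold ee
      split_ifs with hc
      · rw [hc]
        have h2 := AA_nonneg B X Z U u w
        have h3 := AA_nonneg B Z X U' w u
        linarith
      · have hc0 : 0 < c2 B X Z u w := lt_of_le_of_ne (c2_nonneg _ _ _ _ _) (Ne.symm hc)
        refine (mul_le_mul_of_nonneg_left (min_le_right _ _) hc0.le).trans (le_of_eq ?_)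
        rw [mul_add, mul_div_cancel₀ _ hc0.ne']
    have i3 := ee_le_one B X Z U U' ρ u w
    have i4 := ee_nonneg B X Z U U' hρ u w
    have i5 : (c1 B X u * c1 B Z w / B.card) * ee B X Z U U' ρ u w ≤
        |c2 B X Z u w - c1 B X u * c1 B Z w / B.card| + c2 B X Z u w * ee B X Z U U' ρ u w := by
      have i6 := neg_abs_le (c2 B X Z u w - c1 B X u * c1 B Z w / B.card)
      have i7 := abs_nonneg (c2 B X Z u w - c1 B X u * c1 B Z w / B.card)
      nlinarith
    linarith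
  rw [e1]
  calc _ ≤ ∑ u ∈ B.image X, ∑ w ∈ B.image Z,
        B.card * (|c2 B X Z u w - c1 B X u * c1 B Z w / B.card| +
        ((AA B X Z U u w + AA B Z X U' w u) + c2 B X Z u w * ρ)) :=
        Finset.sum_le_sum fun u _ => Finset.sum_le_sum fun w _ => e2 u w
    _ = B.card * (∑ u ∈ B.image X, ∑ w ∈ B.image Z, |c2 B X Z u w - c1 B X u * c1 B Z w / B.card| +
        ((∑ u ∈ B.image X, ∑ w ∈ B.image Z, AA B X Z U u w +
        ∑ u ∈ B.image X, ∑ w ∈ B.image Z, AA B Z X U' w u) +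
        (∑ u ∈ B.image X, ∑ w ∈ B.image Z, c2 B X Z u w) * ρ)) := by
        simp only [Finset.sum_mul, Finset.mul_sum, Finset.sum_add_distrib, mul_add]
    _ ≤ B.card * (η * B.card + ((2 * η * B.card + 2 * η * B.card) + B.card * ρ)) := by
        have e3 : ∑ u ∈ B.image X, ∑ w ∈ B.image Z, c2 B X Z u w = B.card := by
          rw [Finset.sum_congr rfl (fun u _ => sum_c2 B X Z u), sum_c1]
        rw [e3]
        refine mul_le_mul_of_nonneg_left ?_ hn.le
        linarith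
    _ = _ := by ring

end CLtAux

open Finset CLtAux in
open Classical in
theorem lt_cell {α : Type} (B : Finset α) (hB : B.Nonempty) (L k : ℕ) (X Z : α → ℤ)
    (hX : ∀ x ∈ B, 0 ≤ X x ∧ X x < 2 ^ L) (hZ : ∀ x ∈ B, 0 ≤ Z x ∧ Z x < 2 ^ L) (U U' : α → ℝ)
    (hU : ∀ x ∈ B, |U' x - U x - ((X x : ℝ) / 2 ^ L) * ((Z x : ℝ) / 2 ^ L)| ≤ 4 / 2 ^ L)
    {η p : ℝ} (hη : 0 ≤ η) (hp : 0 < p)
    (h₁ : l1 B X (fun x => (Z x, U x)) ≤ η) (h₂ : l1 B Z (fun x => (X x, U' x)) ≤ η)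
    (ncX : ∀ y ∈ B, ((B.filter fun x => |(X x : ℝ) - X y| < 2 ^ L / 2 ^ k).card : ℝ) ≤
      (1 - p) * B.card)
    (ncZ : ∀ y ∈ B, ((B.filter fun x => |(Z x : ℝ) - Z y| < 2 ^ L / 2 ^ k).card : ℝ) ≤
      (1 - p) * B.card) :
    ((B.filter fun x => ¬ Inv k (Real.sqrt (5 * η + 4 / 2 ^ L) / p ^ 2) (fib B Z x) U).card : ℝ) ≤
      4 * Real.sqrt (5 * η + 4 / 2 ^ L) * B.card := by
  have hn : (0 : ℝ) < B.card := by exact_mod_cast hB.card_pos
  set ρ : ℝ := 4 / 2 ^ L with hρ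
  have hρ0 : 0 < ρ := by positivity
  set η₁ : ℝ := 5 * η + ρ with hη₁
  have hη₁0 : 0 < η₁ := by positivity
  have hs0 : 0 < Real.sqrt η₁ := Real.sqrt_pos.2 hη₁0
  set E : α → α → ℝ := fun x y => ee B X Z U U' ρ (X x) (Z y) with hE
  have hE0 : ∀ x y, 0 ≤ E x y := fun x y => ee_nonneg B X Z U U' hρ0.le _ _
  have hsum : ∑ x ∈ B, ∑ y ∈ B, E x y ≤ η₁ * (B.card : ℝ) ^ 2 := sum_ee_le B hB X Z U U' hρ0.le h₁ h₂
  set g : α → ℝ := fun y₂ => ∑ x₁ ∈ B, ∑ x₂ ∈ B, ∑ y₁ ∈ B, (E x₁ y₁ + E x₁ y₂ + E x₂ y₁ + E x₂ y₂) with hg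
  have hE4 : ∀ x₁ x₂ y₁ y₂, 0 ≤ E x₁ y₁ + E x₁ y₂ + E x₂ y₁ + E x₂ y₂ := fun x₁ x₂ y₁ y₂ => by
    have a1 := hE0 x₁ y₁
    have a2 := hE0 x₁ y₂
    have a3 := hE0 x₂ y₁
    have a4 := hE0 x₂ y₂
    linarith
  have hg0 : ∀ y, 0 ≤ g y := fun y => Finset.sum_nonneg fun _ _ => Finset.sum_nonneg fun _ _ =>
    Finset.sum_nonneg fun _ _ => hE4 _ _ _ _
  have hgsum : ∑ y₂ ∈ B, g y₂ = 4 * (B.card : ℝ) ^ 2 * ∑ x ∈ B, ∑ y ∈ B, E x y := by
    set T := ∑ x ∈ B, ∑ y ∈ B, E x y with hT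
    have hT' : ∑ y ∈ B, ∑ x ∈ B, E x y = T := Finset.sum_comm
    simp only [hg, Finset.sum_add_distrib, Finset.sum_const, nsmul_eq_mul, ← Finset.mul_sum, hT', ← hT]
    ring
  -- the good values
  have hgood : ∀ y₂ ∈ B, g y₂ ≤ Real.sqrt η₁ * (B.card : ℝ) ^ 3 →
      Inv k (Real.sqrt η₁ / p ^ 2) (fib B Z y₂) U := by
    intro y₂ hy₂ hgy
    -- the set of triples
    set D : ℝ := 2 ^ L / 2 ^ k with hD
    have cX : ∀ y ∈ B, p * B.card ≤ ((B.filter fun x => ¬ |(X x : ℝ) - X y| < D).card : ℝ) := by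
      intro y hy
      have h1 := Finset.card_filter_add_card_filter_not (s := B) (fun x => |(X x : ℝ) - X y| < D)
      have h2 : ((B.filter fun x => |(X x : ℝ) - X y| < D).card : ℝ) +
        ((B.filter fun x => ¬ |(X x : ℝ) - X y| < D).card : ℝ) = B.card := by exact_mod_cast h1
      have := ncX y hy
      linarith
    have cZ : p * B.card ≤ ((B.filter fun x => ¬ |(Z x : ℝ) - Z y₂| < D).card : ℝ) := by
      have h1 := Finset.card_filter_add_card_filter_not (s := B) (fun x => |(Z x : ℝ) - Z y₂| < D)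
      have h2 : ((B.filter fun x => |(Z x : ℝ) - Z y₂| < D).card : ℝ) +
        ((B.filter fun x => ¬ |(Z x : ℝ) - Z y₂| < D).card : ℝ) = B.card := by exact_mod_cast h1
      have := ncZ y₂ hy₂
      linarith
    have hex : ∃ x₁ ∈ B, ∃ x₂ ∈ B, ∃ y₁ ∈ B, ¬ |(X x₂ : ℝ) - X x₁| < D ∧ ¬ |(Z y₁ : ℝ) - Z y₂| < D ∧
        E x₁ y₁ + E x₁ y₂ + E x₂ y₁ + E x₂ y₂ ≤ Real.sqrt η₁ / p ^ 2 := by
      by_contra hcon
      have hτ : 0 < Real.sqrt η₁ / p ^ 2 := by positivity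
      have lower : Real.sqrt η₁ / p ^ 2 * ((B.card : ℝ) * (p * B.card) * (p * B.card)) < g y₂ := by
        have s1 : ∀ x₁ ∈ B, Real.sqrt η₁ / p ^ 2 * ((p * B.card) * (p * B.card)) <
            ∑ x₂ ∈ B, ∑ y₁ ∈ B, (E x₁ y₁ + E x₁ y₂ + E x₂ y₁ + E x₂ y₂) := by
          intro x₁ hx₁
          have hcx := cX x₁ hx₁
          have hpos1 : 0 < p * (B.card : ℝ) := by positivity
          have hne1 : (B.filter fun x => ¬ |(X x : ℝ) - X x₁| < D).Nonempty := by
            rw [← Finset.card_pos]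
            have : (0 : ℝ) < ((B.filter fun x => ¬ |(X x : ℝ) - X x₁| < D).card : ℝ) := by linarith
            exact_mod_cast this
          have hne2 : (B.filter fun x => ¬ |(Z x : ℝ) - Z y₂| < D).Nonempty := by
            rw [← Finset.card_pos]
            have : (0 : ℝ) < ((B.filter fun x => ¬ |(Z x : ℝ) - Z y₂| < D).card : ℝ) := by linarith
            exact_mod_cast this
          calc Real.sqrt η₁ / p ^ 2 * ((p * B.card) * (p * B.card)) ≤
                Real.sqrt η₁ / p ^ 2 * (((B.filter fun x => ¬ |(X x : ℝ) - X x₁| < D).card : ℝ) *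
                  ((B.filter fun x => ¬ |(Z x : ℝ) - Z y₂| < D).card : ℝ)) := by gcongr
            _ = ∑ x₂ ∈ B.filter (fun x => ¬ |(X x : ℝ) - X x₁| < D),
                ∑ y₁ ∈ B.filter (fun x => ¬ |(Z x : ℝ) - Z y₂| < D), Real.sqrt η₁ / p ^ 2 := by
                simp only [Finset.sum_const, nsmul_eq_mul]; ring
            _ < ∑ x₂ ∈ B.filter (fun x => ¬ |(X x : ℝ) - X x₁| < D),
                ∑ y₁ ∈ B.filter (fun x => ¬ |(Z x : ℝ) - Z y₂| < D),
                  (E x₁ y₁ + E x₁ y₂ + E x₂ y₁ + E x₂ y₂) := by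
                refine Finset.sum_lt_sum_of_nonempty hne1 fun x₂ hx₂ => ?_
                refine Finset.sum_lt_sum_of_nonempty hne2 fun y₁ hy₁ => ?_
                rw [Finset.mem_filter] at hx₂ hy₁
                by_contra hle
                exact hcon ⟨x₁, hx₁, x₂, hx₂.1, y₁, hy₁.1, hx₂.2, hy₁.2, not_lt.1 hle⟩
            _ ≤ ∑ x₂ ∈ B, ∑ y₁ ∈ B, (E x₁ y₁ + E x₁ y₂ + E x₂ y₁ + E x₂ y₂) := by
                refine (Finset.sum_le_sum fun x₂ _ => Finset.sum_le_sum_of_subset_of_nonneg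
                  (Finset.filter_subset _ B) fun y₁ _ _ => ?_).trans
                  (Finset.sum_le_sum_of_subset_of_nonneg (Finset.filter_subset _ B) fun x₂ _ _ =>
                    Finset.sum_nonneg fun y₁ _ => ?_)
                · exact hE4 _ _ _ _
                · exact hE4 _ _ _ _
        calc Real.sqrt η₁ / p ^ 2 * ((B.card : ℝ) * (p * B.card) * (p * B.card)) =
              ∑ x₁ ∈ B, Real.sqrt η₁ / p ^ 2 * ((p * B.card) * (p * B.card)) := by
              rw [Finset.sum_const, nsmul_eq_mul]; ring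
          _ < g y₂ := Finset.sum_lt_sum_of_nonempty hB s1
      have : Real.sqrt η₁ / p ^ 2 * ((B.card : ℝ) * (p * B.card) * (p * B.card)) =
          Real.sqrt η₁ * (B.card : ℝ) ^ 3 := by field_simp
      linarith
    obtain ⟨x₁, hx₁, x₂, hx₂, y₁, hy₁, hd1, hd2, hsmall⟩ := hex
    set a : ℝ := (2 : ℝ) ^ L with ha
    have ha0 : 0 < a := by positivity
    -- positivity of counts
    have cpos : ∀ (f : α → ℤ) (x : α), x ∈ B → 0 < c1 B f (f x) := fun f x hx => c1_pos f hx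
    set sh : ℤ → ℤ → ℝ := fun u w => ((u : ℝ) / a) * ((w : ℝ) / a) with hsh
    have base : ∀ x ∈ B, ∀ y ∈ B, ∀ ψ : ℝ → ℝ, (∀ v, 0 ≤ ψ v ∧ ψ v ≤ 1) → LipschitzWith 1 ψ →
        |sF B Z (Z y) (fun z => ψ (U z + sh (X x) (Z y))) / c1 B Z (Z y) -
          sF B X (X x) (fun z => ψ (U' z)) / c1 B X (X x)| ≤ E x y := by
      intro x hx y hy ψ h0 hψ
      refine ee_test B X Z U U' (X x) (Z y) ?_ (cpos X x hx) (cpos Z y hy) ψ h0 hψ
      intro z hz h1 h2
      have := hU z hz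
      rw [h1, h2] at this
      exact this
    set Ex : α → ℝ → (ℝ → ℝ) → ℝ := fun y s ψ =>
      sF B Z (Z y) (fun z => ψ (U z + s)) / c1 B Z (Z y) with hEx
    have two : ∀ x ∈ B, ∀ ψ : ℝ → ℝ, (∀ v, 0 ≤ ψ v ∧ ψ v ≤ 1) → LipschitzWith 1 ψ →
        |Ex y₁ (sh (X x) (Z y₁)) ψ - Ex y₂ (sh (X x) (Z y₂)) ψ| ≤ E x y₁ + E x y₂ := by
      intro x hx ψ h0 hψ
      have b1 := base x hx y₁ hy₁ ψ h0 hψ
      have b2 := base x hx y₂ hy₂ ψ h0 hψ
      refine (abs_sub_le _ (sF B X (X x) (fun z => ψ (U' z)) / c1 B X (X x)) _).trans ?_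
      rw [abs_sub_comm (sF B X (X x) (fun z => ψ (U' z)) / c1 B X (X x))]
      exact add_le_add b1 b2
    have lipt : ∀ (ψ : ℝ → ℝ) (r : ℝ), LipschitzWith 1 ψ → LipschitzWith 1 (fun v => ψ (v + r)) := by
      intro ψ r hψ
      have : LipschitzWith 1 (fun v : ℝ => v + r) := by
        refine LipschitzWith.of_dist_le_mul fun x y => ?_
        simp
      have h2 := hψ.comp this
      rw [mul_one] at h2
      exact h2
    have Exshift : ∀ y s r ψ, Ex y s (fun v => ψ (v + r)) = Ex y (s + r) ψ := by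
      intro y s r ψ
      simp only [hEx, add_assoc]
    -- invariance under t
    set t : ℝ := ((X x₁ : ℝ) - X x₂) / a * (((Z y₂ : ℝ) - Z y₁) / a) with ht
    have invt : ∀ ψ : ℝ → ℝ, (∀ v, 0 ≤ ψ v ∧ ψ v ≤ 1) → LipschitzWith 1 ψ →
        |Ex y₂ t ψ - Ex y₂ 0 ψ| ≤ Real.sqrt η₁ / p ^ 2 := by
      intro ψ h0 hψ
      -- base translate r so that both start at the same point of `y₁`
      set r : ℝ := -(sh (X x₂) (Z y₂)) + (sh (X x₂) (Z y₁)) with hr
      have u1 := two x₁ hx₁ (fun v => ψ (v + (r - sh (X x₁) (Z y₁)))) (fun v => h0 _) (lipt ψ _ hψ)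
      have u2 := two x₂ hx₂ (fun v => ψ (v + (r - sh (X x₂) (Z y₁)))) (fun v => h0 _) (lipt ψ _ hψ)
      rw [Exshift, Exshift] at u1 u2
      have q1 : sh (X x₁) (Z y₁) + (r - sh (X x₁) (Z y₁)) = r := by ring
      have q2 : sh (X x₂) (Z y₁) + (r - sh (X x₂) (Z y₁)) = r := by ring
      have q3 : sh (X x₁) (Z y₂) + (r - sh (X x₁) (Z y₁)) = t := by
        simp only [hr, hsh, ht]; ring
      have q4 : sh (X x₂) (Z y₂) + (r - sh (X x₂) (Z y₁)) = 0 := by
        simp only [hr, hsh]; ring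
      rw [q1, q3] at u1
      rw [q2, q4] at u2
      refine (abs_sub_le _ (Ex y₁ r ψ) _).trans ?_
      rw [abs_sub_comm (Ex y₂ t ψ)]
      linarith
    have hXa : ∀ x ∈ B, (0 : ℝ) ≤ X x ∧ (X x : ℝ) < a := fun x hx =>
      ⟨by exact_mod_cast (hX x hx).1, by rw [ha]; exact_mod_cast (hX x hx).2⟩
    have hZa : ∀ x ∈ B, (0 : ℝ) ≤ Z x ∧ (Z x : ℝ) < a := fun x hx =>
      ⟨by exact_mod_cast (hZ x hx).1, by rw [ha]; exact_mod_cast (hZ x hx).2⟩
    have f1 : |((X x₁ : ℝ) - X x₂) / a| ≤ 1 := by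
      rw [abs_div, abs_of_pos ha0, div_le_one ha0, abs_le]
      constructor <;> linarith [(hXa x₁ hx₁).1, (hXa x₁ hx₁).2, (hXa x₂ hx₂).1, (hXa x₂ hx₂).2]
    have f2 : |((Z y₂ : ℝ) - Z y₁) / a| ≤ 1 := by
      rw [abs_div, abs_of_pos ha0, div_le_one ha0, abs_le]
      constructor <;> linarith [(hZa y₁ hy₁).1, (hZa y₁ hy₁).2, (hZa y₂ hy₂).1, (hZa y₂ hy₂).2]
    have f3 : 1 / 2 ^ k ≤ |((X x₁ : ℝ) - X x₂) / a| := by
      rw [abs_div, abs_of_pos ha0, le_div_iff₀ ha0, abs_sub_comm]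
      push Not at hd1
      refine le_trans (le_of_eq ?_) hd1
      rw [hD]; ring
    have f4 : 1 / 2 ^ k ≤ |((Z y₂ : ℝ) - Z y₁) / a| := by
      rw [abs_div, abs_of_pos ha0, le_div_iff₀ ha0, abs_sub_comm]
      push Not at hd2
      refine le_trans (le_of_eq ?_) hd2
      rw [hD]; ring
    have tabs : |t| ≤ 1 := by
      rw [ht, abs_mul]
      exact mul_le_one₀ f1 (abs_nonneg _) f2
    have tabs' : (1 / 4 : ℝ) ^ k ≤ |t| := by
      rw [ht, abs_mul]
      calc (1 / 4 : ℝ) ^ k = 1 / 2 ^ k * (1 / 2 ^ k) := by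
            rw [show (1 / 4 : ℝ) = 1 / 2 * (1 / 2) by norm_num, mul_pow, one_div_pow]
        _ ≤ _ := mul_le_mul f3 f4 (by positivity) (abs_nonneg _)
    have hcard : (c1 B Z (Z y₂)) = ((fib B Z y₂).card : ℝ) := rfl
    have hcpos : 0 < ((fib B Z y₂).card : ℝ) := cpos Z y₂ hy₂
    have conv : ∀ (s s' : ℝ) (ψ : ℝ → ℝ), |Ex y₂ s ψ - Ex y₂ s' ψ| ≤ Real.sqrt η₁ / p ^ 2 →
        |∑ x ∈ fib B Z y₂, (ψ (U x + s) - ψ (U x + s'))| ≤ Real.sqrt η₁ / p ^ 2 * (fib B Z y₂).card := by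
      intro s s' ψ h
      rw [Finset.sum_sub_distrib]
      have e : Ex y₂ s ψ - Ex y₂ s' ψ =
          (∑ x ∈ fib B Z y₂, ψ (U x + s) - ∑ x ∈ fib B Z y₂, ψ (U x + s')) / (fib B Z y₂).card := by
        rw [sub_div]
        simp only [hEx]
        rfl
      rw [e, abs_div, abs_of_pos hcpos, div_le_iff₀ hcpos] at h
      exact h
    rcases le_total 0 t with h0t | h0t
    · refine ⟨t, by rwa [abs_of_nonneg h0t] at tabs', by rwa [abs_of_nonneg h0t] at tabs, ?_⟩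
      intro ψ h0 hψ
      have := conv t 0 ψ (invt ψ h0 hψ)
      simpa only [add_zero] using this
    · refine ⟨-t, by rwa [abs_of_nonpos h0t] at tabs', by rwa [abs_of_nonpos h0t] at tabs, ?_⟩
      intro ψ h0 hψ
      have h1 := invt (fun v => ψ (v + (-t))) (fun v => h0 _) (lipt ψ _ hψ)
      rw [Exshift, Exshift, add_neg_cancel, zero_add, abs_sub_comm] at h1
      have := conv (-t) 0 ψ h1
      simpa only [add_zero] using this
  -- Markov
  have hsub : (B.filter fun x => ¬ Inv k (Real.sqrt η₁ / p ^ 2) (fib B Z x) U) ⊆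
      B.filter fun x => Real.sqrt η₁ * (B.card : ℝ) ^ 3 < g x := by
    intro x hx
    rw [Finset.mem_filter] at hx ⊢
    refine ⟨hx.1, ?_⟩
    by_contra hcon
    exact hx.2 (hgood x hx.1 (not_lt.1 hcon))
  have hle := Finset.card_le_card hsub
  have hle' : ((B.filter fun x => ¬ Inv k (Real.sqrt η₁ / p ^ 2) (fib B Z x) U).card : ℝ) ≤
      ((B.filter fun x => Real.sqrt η₁ * (B.card : ℝ) ^ 3 < g x).card : ℝ) := by exact_mod_cast hle
  refine hle'.trans ?_
  have hmark : ((B.filter fun x => Real.sqrt η₁ * (B.card : ℝ) ^ 3 < g x).card : ℝ) *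
      (Real.sqrt η₁ * (B.card : ℝ) ^ 3) ≤ 4 * (B.card : ℝ) ^ 2 * (η₁ * (B.card : ℝ) ^ 2) := by
    calc _ = ∑ x ∈ B.filter (fun x => Real.sqrt η₁ * (B.card : ℝ) ^ 3 < g x),
          Real.sqrt η₁ * (B.card : ℝ) ^ 3 := by rw [Finset.sum_const, nsmul_eq_mul]
      _ ≤ ∑ x ∈ B.filter (fun x => Real.sqrt η₁ * (B.card : ℝ) ^ 3 < g x), g x :=
          Finset.sum_le_sum fun x hx => (Finset.mem_filter.1 hx).2.le
      _ ≤ ∑ x ∈ B, g x :=
          Finset.sum_le_sum_of_subset_of_nonneg (Finset.filter_subset _ _) fun x _ _ => hg0 x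
      _ = 4 * (B.card : ℝ) ^ 2 * ∑ x ∈ B, ∑ y ∈ B, E x y := hgsum
      _ ≤ _ := mul_le_mul_of_nonneg_left hsum (by positivity)
  have hsq : η₁ = Real.sqrt η₁ * Real.sqrt η₁ := (Real.mul_self_sqrt hη₁0.le).symm
  have hfin : ((B.filter fun x => Real.sqrt η₁ * (B.card : ℝ) ^ 3 < g x).card : ℝ) *
      (Real.sqrt η₁ * (B.card : ℝ) ^ 3) ≤ (4 * Real.sqrt η₁ * B.card) *
      (Real.sqrt η₁ * (B.card : ℝ) ^ 3) := by
    refine hmark.trans (le_of_eq ?_)
    have e1 : 4 * Real.sqrt η₁ * (B.card : ℝ) * (Real.sqrt η₁ * (B.card : ℝ) ^ 3) =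
        4 * (B.card : ℝ) ^ 2 * ((Real.sqrt η₁ * Real.sqrt η₁) * (B.card : ℝ) ^ 2) := by ring
    rw [e1, ← hsq]
  exact le_of_mul_le_mul_right hfin (mul_pos hs0 (pow_pos hn 3))

end Pool.Agent.Lib.P51n
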