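import Pool.Agent.Lib.P51n.CDefs

/-!
# P51n.CRefine  (about 1.2 h)

Defects after further conditioning and for functions of `g`.

On a fibre `B` of `k` let `δ = l1 B f g` and let `m`, `g'` be functions of `g` on `B`.
With `P` the uniform probability on `B`,
`∑_c P(m=c) l1(B ∩ {m=c}, f, g') = ∑ |P(f=u,m=c,g'=v) - P(f=u,m=c)P(m=c,g'=v)/P(m=c)|`
`≤ ∑ |P(f=u,m=c,g'=v) - P(f=u)P(m=c,g'=v)| + ∑ |P(f=u) - P(f=u|m=c)| P(m=c,g'=v) ≤ 2δ`,
`∑_c P(m=c) law1(B ∩ {m=c}, B, f) = ∑ |P(f=u,m=c) - P(f=u)P(m=c)| ≤ δ`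
(pushing forward does not increase `L¹` distances).  Average over the fibres of `k`.
-/

set_option autoImplicit false

noncomputable section

namespace Pool.Agent.Lib.P51n

variable {α β γ γ' κ μ : Type*}

namespace CRefineAux

open Finset

open Classical in
/-- sum over the values of `g` of the absolute values of the sums of `a` -/
def Q (B : Finset α) (g : α → γ) (a : α → ℝ) : ℝ :=
  ∑ v ∈ B.image g, |∑ x ∈ B.filter (fun x => g x = v), a x|

open Classical in
/-- centred indicator of `f = u` -/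
def cen (B : Finset α) (f : α → β) (u : β) : α → ℝ := fun x =>
  (if f x = u then 1 else 0) - ((B.filter fun x => f x = u).card : ℝ) / B.card

open Classical in
/-- `|B|` times the defect -/
def LL (B : Finset α) (f : α → β) (g : α → γ) : ℝ := ∑ u ∈ B.image f, Q B g (cen B f u)

open Classical in
lemma sum_cen (B S : Finset α) (f : α → β) (u : β) :
    ∑ x ∈ S, cen B f u x =
      ((S.filter fun x => f x = u).card : ℝ) -
        (S.card : ℝ) * (((B.filter fun x => f x = u).card : ℝ) / B.card) := by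
  unfold cen
  rw [sum_sub_distrib, sum_const, nsmul_eq_mul, sum_boole]

open Classical in
lemma l1_eq (B : Finset α) (f : α → β) (g : α → γ) : l1 B f g = LL B f g / B.card := by
  unfold l1 LL Q
  congr 1
  apply sum_congr rfl
  intro u _
  apply sum_congr rfl
  intro v _
  rw [sum_cen]
  congr 1
  have h1 : (B.filter (fun x => g x = v)).filter (fun x => f x = u) =
      B.filter (fun x => f x = u ∧ g x = v) := by
    rw [filter_filter]
    apply filter_congr
    intro x _
    exact and_comm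
  rw [h1]
  ring

lemma LL_nonneg (B : Finset α) (f : α → β) (g : α → γ) : 0 ≤ LL B f g := by
  classical
  unfold LL Q
  positivity

open Classical in
/-- `m` is a function of `g` on `B`: the sum over the values of `g` splits -/
lemma split (B : Finset α) (g : α → γ) (m : α → μ) (a : α → ℝ)
    (hm : ∀ x ∈ B, ∀ y ∈ B, g x = g y → m x = m y) :
    ∑ c ∈ B.image m, Q (B.filter (fun x => m x = c)) g a = Q B g a := by
  unfold Q
  have h1 : B.image g = (B.image m).biUnion (fun c => (B.filter (fun x => m x = c)).image g) := by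
    ext v
    simp only [mem_image, mem_biUnion, mem_filter]
    constructor
    · rintro ⟨x, hx, rfl⟩
      exact ⟨m x, ⟨x, hx, rfl⟩, x, ⟨hx, rfl⟩, rfl⟩
    · rintro ⟨c, _, x, ⟨hx, _⟩, rfl⟩
      exact ⟨x, hx, rfl⟩
  rw [h1, sum_biUnion]
  · apply sum_congr rfl
    intro c _
    apply sum_congr rfl
    intro v hv
    congr 1
    apply sum_congr _ (fun _ _ => rfl)
    obtain ⟨y, hy, rfl⟩ := mem_image.1 hv
    rw [mem_filter] at hy
    ext x
    simp only [mem_filter]
    constructor
    · rintro ⟨⟨h2, _⟩, h3⟩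
      exact ⟨h2, h3⟩
    · rintro ⟨h2, h3⟩
      refine ⟨⟨h2, ?_⟩, h3⟩
      rw [hm x h2 y hy.1 h3]
      exact hy.2
  · intro c _ c' _ hcc
    rw [Function.onFun, disjoint_left]
    intro v hv hv'
    obtain ⟨y, hy, rfl⟩ := mem_image.1 hv
    obtain ⟨z, hz, hzy⟩ := mem_image.1 hv'
    rw [mem_filter] at hy hz
    apply hcc
    rw [← hy.2, ← hz.2]
    exact hm y hy.1 z hz.1 hzy.symm

open Classical in
lemma abs_sum_le (B : Finset α) (g : α → γ) (a : α → ℝ) : |∑ x ∈ B, a x| ≤ Q B g a := by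
  unfold Q
  rw [← sum_fiberwise_of_maps_to (g := g) (t := B.image g) (fun x hx => mem_image_of_mem g hx) a]
  exact abs_sum_le_sum_abs _ _

open Classical in
/-- pushing forward does not increase the sum -/
lemma push (B : Finset α) (g : α → γ) (m : α → μ) (a : α → ℝ)
    (hm : ∀ x ∈ B, ∀ y ∈ B, g x = g y → m x = m y) : Q B m a ≤ Q B g a := by
  rw [← split B g m a hm]
  unfold Q
  apply sum_le_sum
  intro c _
  exact abs_sum_le _ g a

open Classical in
/-- one fibre, second statement -/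
lemma law_one (B : Finset α) (f : α → β) (g : α → γ) (m : α → μ)
    (hm : ∀ x ∈ B, ∀ y ∈ B, g x = g y → m x = m y) :
    ∑ x ∈ B, law1 (fib B m x) B f ≤ LL B f g := by
  rw [← sum_fiberwise_of_maps_to (g := m) (t := B.image m) (fun x hx => mem_image_of_mem m hx)]
  have h1 : ∀ c ∈ B.image m, ∑ x ∈ B.filter (fun x => m x = c), law1 (fib B m x) B f =
      ∑ u ∈ B.image f, |∑ x ∈ B.filter (fun x => m x = c), cen B f u x| := by
    intro c hc
    obtain ⟨y, hy, rfl⟩ := mem_image.1 hc
    have h2 : ∀ x ∈ B.filter (fun x => m x = m y), law1 (fib B m x) B f =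
        law1 (B.filter (fun x => m x = m y)) B f := by
      intro x hx
      rw [mem_filter] at hx
      unfold fib
      rw [hx.2]
    rw [sum_congr rfl h2, sum_const, nsmul_eq_mul]
    unfold law1
    have h3 : B.filter (fun x => m x = m y) ∪ B = B := union_eq_right.2 (filter_subset _ _)
    rw [h3, mul_sum]
    apply sum_congr rfl
    intro u _
    rw [sum_cen]
    have hpos : (0 : ℝ) < ((B.filter (fun x => m x = m y)).card : ℝ) := by
      have : (B.filter (fun x => m x = m y)).Nonempty := ⟨y, mem_filter.2 ⟨hy, rfl⟩⟩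
      exact_mod_cast card_pos.2 this
    rw [← abs_of_pos hpos, ← abs_mul, abs_of_pos hpos]
    congr 1
    field_simp
  rw [sum_congr rfl h1, sum_comm]
  unfold LL
  apply sum_le_sum
  intro u _
  exact push B g m (cen B f u) hm

open Classical in
/-- one fibre of `m` -/
lemma LL_fib (B C : Finset α) (hC : C ⊆ B) (hC0 : C.Nonempty) (f : α → β) (g' : α → γ') :
    LL C f g' ≤ ∑ u ∈ B.image f, (Q C g' (cen B f u) + |∑ x ∈ C, cen B f u x|) := by
  have hpos : (0 : ℝ) < (C.card : ℝ) := by exact_mod_cast card_pos.2 hC0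
  have h1 : ∀ u, Q C g' (cen C f u) ≤ Q C g' (cen B f u) + |∑ x ∈ C, cen B f u x| := by
    intro u
    have h2 : ∀ v ∈ C.image g', |∑ x ∈ C.filter (fun x => g' x = v), cen C f u x| ≤
        |∑ x ∈ C.filter (fun x => g' x = v), cen B f u x| +
          ((C.filter (fun x => g' x = v)).card : ℝ) *
            (|∑ x ∈ C, cen B f u x| / C.card) := by
      intro v _
      have h3 : ∑ x ∈ C.filter (fun x => g' x = v), cen C f u x =
          ∑ x ∈ C.filter (fun x => g' x = v), cen B f u x -
            ((C.filter (fun x => g' x = v)).card : ℝ) * ((∑ x ∈ C, cen B f u x) / C.card) := by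
        rw [sum_cen, sum_cen, sum_cen]
        field_simp
        ring
      rw [h3]
      refine (abs_sub _ _).trans (le_of_eq ?_)
      rw [abs_mul, abs_div, Nat.abs_cast, abs_of_pos hpos]
    unfold Q
    refine (sum_le_sum h2).trans ?_
    rw [sum_add_distrib, ← sum_mul]
    have h4 : ∑ v ∈ C.image g', ((C.filter (fun x => g' x = v)).card : ℝ) = C.card := by
      have h5 := card_eq_sum_card_image g' C
      rw [h5]
      push_cast
      rfl
    rw [h4]
    apply le_of_eq
    congr 1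
    field_simp
  unfold LL
  refine (sum_le_sum (fun u _ => h1 u)).trans ?_
  apply sum_le_sum_of_subset_of_nonneg (image_subset_image hC)
  intro u _ _
  unfold Q
  positivity

open Classical in
/-- one fibre, first statement -/
lemma l1_one (B : Finset α) (f : α → β) (g : α → γ) (m : α → μ) (g' : α → γ')
    (hm : ∀ x ∈ B, ∀ y ∈ B, g x = g y → m x = m y)
    (hg : ∀ x ∈ B, ∀ y ∈ B, g x = g y → g' x = g' y) :
    ∑ x ∈ B, l1 (fib B m x) f g' ≤ 2 * LL B f g := by
  rw [← sum_fiberwise_of_maps_to (g := m) (t := B.image m) (fun x hx => mem_image_of_mem m hx)]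
  have h1 : ∀ c ∈ B.image m, ∑ x ∈ B.filter (fun x => m x = c), l1 (fib B m x) f g' ≤
      ∑ u ∈ B.image f, (Q (B.filter (fun x => m x = c)) g (cen B f u) +
        |∑ x ∈ B.filter (fun x => m x = c), cen B f u x|) := by
    intro c hc
    obtain ⟨y, hy, rfl⟩ := mem_image.1 hc
    have hne : (B.filter (fun x => m x = m y)).Nonempty := ⟨y, mem_filter.2 ⟨hy, rfl⟩⟩
    have h2 : ∀ x ∈ B.filter (fun x => m x = m y), l1 (fib B m x) f g' =
        LL (B.filter (fun x => m x = m y)) f g' / (B.filter (fun x => m x = m y)).card := by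
      intro x hx
      rw [mem_filter] at hx
      rw [← l1_eq]
      unfold fib
      rw [hx.2]
    have hpos : (0 : ℝ) < ((B.filter (fun x => m x = m y)).card : ℝ) := by
      exact_mod_cast card_pos.2 hne
    rw [sum_congr rfl h2, sum_const, nsmul_eq_mul, mul_div_cancel₀ _ hpos.ne']
    refine (LL_fib B _ (filter_subset _ _) hne f g').trans ?_
    apply sum_le_sum
    intro u _
    apply add_le_add_left
    apply push
    intro x hx z hz h
    rw [mem_filter] at hx hz
    exact hg x hx.1 z hz.1 h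
  refine (sum_le_sum h1).trans ?_
  rw [sum_comm]
  unfold LL
  rw [mul_sum]
  apply sum_le_sum
  intro u _
  rw [sum_add_distrib, split B g m (cen B f u) hm]
  have h3 := push B g m (cen B f u) hm
  have h4 : ∑ c ∈ B.image m, |∑ x ∈ B.filter (fun x => m x = c), cen B f u x| =
      Q B m (cen B f u) := rfl
  rw [h4]
  linarith

open Classical in
lemma fib_pair (Ω : Finset α) (k : α → κ) (m : α → μ) (x : α) :
    fib Ω (fun y => (k y, m y)) x = fib (Ω.filter (fun y => k y = k x)) m x := by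
  unfold fib
  ext y
  simp only [mem_filter, Prod.mk.injEq, and_assoc]

end CRefineAux

open CRefineAux Finset

theorem refine_l1 (Ω : Finset α) (k : α → κ) (f : α → β) (g : α → γ) (m : α → μ) (g' : α → γ')
    (hm : ∀ x ∈ Ω, ∀ y ∈ Ω, k x = k y → g x = g y → m x = m y)
    (hg : ∀ x ∈ Ω, ∀ y ∈ Ω, k x = k y → g x = g y → g' x = g' y) :
    ∑ x ∈ Ω, l1 (fib Ω (fun y => (k y, m y)) x) f g' ≤ 2 * (∑ x ∈ Ω, l1 (fib Ω k x) f g) := by
  classical
  rw [← sum_fiberwise_of_maps_to (g := k) (t := Ω.image k) (fun x hx => mem_image_of_mem k hx),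
    ← sum_fiberwise_of_maps_to (g := k) (t := Ω.image k) (fun x hx => mem_image_of_mem k hx), mul_sum]
  apply sum_le_sum
  intro c hc
  obtain ⟨y, hy, rfl⟩ := mem_image.1 hc
  obtain ⟨B, hB⟩ : ∃ B, B = Ω.filter (fun x => k x = k y) := ⟨_, rfl⟩
  have hBm : ∀ x ∈ B, x ∈ Ω ∧ k x = k y := by
    intro x hx
    rw [hB, mem_filter] at hx
    exact hx
  have hpos : (0 : ℝ) < (B.card : ℝ) := by
    have : B.Nonempty := ⟨y, by rw [hB]; exact mem_filter.2 ⟨hy, rfl⟩⟩
    exact_mod_cast card_pos.2 this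
  rw [← hB]
  have h1 : ∑ x ∈ B, l1 (fib Ω (fun y => (k y, m y)) x) f g' = ∑ x ∈ B, l1 (fib B m x) f g' := by
    apply sum_congr rfl
    intro x hx
    rw [fib_pair, (hBm x hx).2, ← hB]
  have h2 : ∑ x ∈ B, l1 (fib Ω k x) f g = LL B f g := by
    have h3 : ∀ x ∈ B, l1 (fib Ω k x) f g = LL B f g / B.card := by
      intro x hx
      rw [← l1_eq]
      unfold fib
      rw [(hBm x hx).2, ← hB]
    rw [sum_congr rfl h3, sum_const, nsmul_eq_mul, mul_div_cancel₀ _ hpos.ne']
  rw [h1, h2]
  apply l1_one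
  · intro x hx z hz h
    exact hm x (hBm x hx).1 z (hBm z hz).1 ((hBm x hx).2.trans (hBm z hz).2.symm) h
  · intro x hx z hz h
    exact hg x (hBm x hx).1 z (hBm z hz).1 ((hBm x hx).2.trans (hBm z hz).2.symm) h

theorem refine_law (Ω : Finset α) (k : α → κ) (f : α → β) (g : α → γ) (m : α → μ)
    (hm : ∀ x ∈ Ω, ∀ y ∈ Ω, k x = k y → g x = g y → m x = m y) :
    ∑ x ∈ Ω, law1 (fib Ω (fun y => (k y, m y)) x) (fib Ω k x) f ≤
      ∑ x ∈ Ω, l1 (fib Ω k x) f g := by
  classical
  rw [← sum_fiberwise_of_maps_to (g := k) (t := Ω.image k) (fun x hx => mem_image_of_mem k hx),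
    ← sum_fiberwise_of_maps_to (g := k) (t := Ω.image k) (fun x hx => mem_image_of_mem k hx)]
  apply sum_le_sum
  intro c hc
  obtain ⟨y, hy, rfl⟩ := mem_image.1 hc
  obtain ⟨B, hB⟩ : ∃ B, B = Ω.filter (fun x => k x = k y) := ⟨_, rfl⟩
  have hBm : ∀ x ∈ B, x ∈ Ω ∧ k x = k y := by
    intro x hx
    rw [hB, mem_filter] at hx
    exact hx
  have hpos : (0 : ℝ) < (B.card : ℝ) := by
    have : B.Nonempty := ⟨y, by rw [hB]; exact mem_filter.2 ⟨hy, rfl⟩⟩
    exact_mod_cast card_pos.2 this
  rw [← hB]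
  have h1 : ∑ x ∈ B, law1 (fib Ω (fun y => (k y, m y)) x) (fib Ω k x) f =
      ∑ x ∈ B, law1 (fib B m x) B f := by
    apply sum_congr rfl
    intro x hx
    have h3 : fib Ω k x = B := by
      unfold fib
      rw [(hBm x hx).2, ← hB]
    rw [h3, fib_pair, (hBm x hx).2, ← hB]
  have h2 : ∑ x ∈ B, l1 (fib Ω k x) f g = LL B f g := by
    have h3 : ∀ x ∈ B, l1 (fib Ω k x) f g = LL B f g / B.card := by
      intro x hx
      rw [← l1_eq]
      unfold fib
      rw [(hBm x hx).2, ← hB]
    rw [sum_congr rfl h3, sum_const, nsmul_eq_mul, mul_div_cancel₀ _ hpos.ne']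
  rw [h1, h2]
  apply law_one
  intro x hx z hz h
  exact hm x (hBm x hx).1 z (hBm z hz).1 ((hBm x hx).2.trans (hBm z hz).2.symm) h

end Pool.Agent.Lib.P51n
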