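import Pool.Agent.Lib.P51n.CInvCell
import Pool.Agent.Lib.P51n.CActive
import Pool.Agent.Lib.P51n.CDigits
import Pool.Agent.Lib.P51n.CRefine

/-!
# P51n.CLtx  (about 3 h)

The abstract theorem of Part C: positive information in `a` and `b` and near independence give near
invariance of the law of `U` in a positive proportion of the cells.

Constants: `k₀', θ` from `activity γ`, `k₀ = k₀' + 1`, `c₄ = θ²/8`.  Given `τ, L₁` let `p, N₀'` be
from `activity` with `τ' = θ²/32`; choose `η ≤ p/2` and `L ≥ L₁, k₀'+1` with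
`√(5η+4/2^L)/(p/2)² + 2/2^L ≤ τ` and `4√(5η+4/2^L) ≤ θ²/16`; then `ε` with
`6 √(4Lε) ≤ η θ²/32`, and `N₀` large.
1. Let `ga = (dig (2N) b, dig (2N) c)`, `gb = (dig (2N) a, dig (2N) z)`,
   `D_n = dfc Ω (Y, dig n a) (dig (n+L) a) ga`, `E_m = dfc Ω (Y, dig m b) (dig (m+L) b) gb`.  By
   `sum_dfc_le` (`M = N - L`), `∑_{n ≤ N-L} D_n ≤ N √(4Lε)` (up to the term `n = N - L`; use
   `n < N - L` only), the same for `E`.
2. `refine_l1`, `refine_law` with `k = (Y, dig n a)`, `g = ga`, `m = dig m b`,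
   `g' = (dig (m+L) b, Ut N n m a b z x₀)` — `Ut` depends on `x₀` only through `dig n a x₀`, so on
   each fibre of `k` it is a function of `ga`; to apply the lemma use
   `g' y = (dig (m+L) b y, Ut N n m a b z y y)`.  So for all `n, m`:
   `∑_x l1(cell(x)) ≤ 2|Ω| D_n`, `∑_x law1 ≤ |Ω| D_n`, and similarly `2|Ω|E_m`, `|Ω|E_m`.  The number of
   `(x,n,m)` for which one of the four quantities exceeds `η` is at most
   `∑_{n,m} (3D_n + 3E_m)|Ω|/η ≤ 6N² √(4Lε) |Ω|/η ≤ (θ²/32) N²|Ω|`.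
3. By `activity` for `a` and for `b`, all `x` but `2(c₄ + τ')|Ω|` have at least `θN` values `n` with
   `NC` for `a` and at least `θN` values `m` with `NC` for `b`; dropping `n, m ≥ N - L` leaves
   `≥ (θN - L - 1)² ≥ (θ²/2)N²` pairs.  So there are at least `(1 - 2c₄ - 2τ')(θ²/2)N²|Ω| ≥ (θ²/3)N²|Ω|`
   triples (`θ ≤ 1/2`), and at least `(θ²/4)N²|Ω|` after removing those of 2.
4. For fixed `n, m` the set of the remaining `x` is a union of cells
   `fib Ω (Y, dig n a, dig m b)`; by `inv_cell` in each of them at most the proportion `θ²/16` fails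
   `Inv`.  So at least `(θ²/4 - θ²/16) N²|Ω| ≥ c₄ N²|Ω|` triples satisfy `Inv k₀ τ`.
-/

set_option autoImplicit false

noncomputable section

namespace Pool.Agent.Lib.P51n

namespace Ltx

open Finset

open Classical in
theorem l1_congr {α β γ : Type} (B : Finset α) (f : α → β) {g g' : α → γ}
    (hg : ∀ x ∈ B, g x = g' x) : l1 B f g = l1 B f g' := by
  unfold l1
  have h1 : B.image g = B.image g' := Finset.image_congr (fun x hx => hg x hx)
  rw [h1]
  congr 1
  refine Finset.sum_congr rfl fun u _ => Finset.sum_congr rfl fun v _ => ?_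
  have h2 : (B.filter fun x => f x = u ∧ g x = v) = B.filter fun x => f x = u ∧ g' x = v :=
    Finset.filter_congr fun x hx => by rw [hg x hx]
  have h3 : (B.filter fun x => g x = v) = B.filter fun x => g' x = v :=
    Finset.filter_congr fun x hx => by rw [hg x hx]
  rw [h2, h3]

theorem l1_nonneg' {α β γ : Type} (B : Finset α) (f : α → β) (g : α → γ) : 0 ≤ l1 B f g := by
  classical
  unfold l1
  exact div_nonneg (Finset.sum_nonneg fun _ _ => Finset.sum_nonneg fun _ _ => abs_nonneg _)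
    (Nat.cast_nonneg _)

theorem law1_nonneg' {α β : Type} (B B' : Finset α) (f : α → β) : 0 ≤ law1 B B' f := by
  classical
  unfold law1
  exact Finset.sum_nonneg fun _ _ => abs_nonneg _

theorem fib_assoc {α κ β γ : Type} (Ω : Finset α) (Y : α → κ) (A : α → β) (B : α → γ) (x : α) :
    fib Ω (fun y => ((Y y, A y), B y)) x = fib Ω (fun y => (Y y, A y, B y)) x := by
  ext y
  simp only [fib, Finset.mem_filter, Prod.mk.injEq]
  tauto

theorem fib_comm {α κ β γ : Type} (Ω : Finset α) (Y : α → κ) (A : α → β) (B : α → γ) (x : α) :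
    fib Ω (fun y => ((Y y, B y), A y)) x = fib Ω (fun y => (Y y, A y, B y)) x := by
  ext y
  simp only [fib, Finset.mem_filter, Prod.mk.injEq]
  tauto

theorem mem_fib {α β : Type} {Ω : Finset α} {f : α → β} {x y : α} :
    y ∈ fib Ω f x ↔ y ∈ Ω ∧ f y = f x := by
  classical
  unfold fib
  rw [Finset.mem_filter]

variable {α κ : Type}

/-- the `a` side -/
theorem side_a (Ω : Finset α) (Y : α → κ) (a b z : α → ℝ) {N n m L : ℕ}
    (hm : m + L ≤ N) :
    ∑ x ∈ Ω, (law1 (fib Ω (fun y => (Y y, dig n a y, dig m b y)) x)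
        (fib Ω (fun y => (Y y, dig n a y)) x) (dig (n + L) a) +
      l1 (fib Ω (fun y => (Y y, dig n a y, dig m b y)) x) (dig (n + L) a)
        (fun y => (dig (m + L) b y, Ut N n m a b z x y))) ≤
    3 * ∑ x ∈ Ω, l1 (fib Ω (fun y => (Y y, dig n a y)) x) (dig (n + L) a)
      (fun x => (dig (2 * N) b x, dig (2 * N) (fun y => z y - a y * b y) x)) := by
  rw [Finset.sum_add_distrib]
  have h1 := refine_law Ω (fun y => (Y y, dig n a y)) (dig (n + L) a)
    (fun x => (dig (2 * N) b x, dig (2 * N) (fun y => z y - a y * b y) x)) (dig m b)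
    (fun x _ y _ _ h => dig_factor (by omega) (congrArg Prod.fst h))
  have h2 := refine_l1 Ω (fun y => (Y y, dig n a y)) (dig (n + L) a)
    (fun x => (dig (2 * N) b x, dig (2 * N) (fun y => z y - a y * b y) x)) (dig m b)
    (fun y => (dig (m + L) b y, Ut N n m a b z y y))
    (fun x _ y _ _ h => dig_factor (by omega) (congrArg Prod.fst h))
    (fun x _ y _ hk h => by
      have e1 : dig (2 * N) b x = dig (2 * N) b y := congrArg Prod.fst h
      have e2 : dig (2 * N) (fun y => z y - a y * b y) x =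
        dig (2 * N) (fun y => z y - a y * b y) y := congrArg Prod.snd h
      have e3 : dig n a x = dig n a y := congrArg Prod.snd hk
      have e4 : dig (m + L) b x = dig (m + L) b y := dig_factor (by omega) e1
      simp only [Ut]
      rw [e1, e2, e3, e4])
  have h3 : ∀ x ∈ Ω, l1 (fib Ω (fun y => (Y y, dig n a y, dig m b y)) x) (dig (n + L) a)
      (fun y => (dig (m + L) b y, Ut N n m a b z x y)) =
      l1 (fib Ω (fun y => ((Y y, dig n a y), dig m b y)) x) (dig (n + L) a)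
        (fun y => (dig (m + L) b y, Ut N n m a b z y y)) := by
    intro x _
    rw [fib_assoc]
    refine l1_congr _ _ fun y hy => ?_
    have h4 := (mem_fib.1 hy).2
    simp only [Prod.mk.injEq] at h4
    simp only [Ut]
    rw [h4.2.1]
  rw [Finset.sum_congr rfl h3]
  have h5 : ∀ x ∈ Ω, law1 (fib Ω (fun y => (Y y, dig n a y, dig m b y)) x)
      (fib Ω (fun y => (Y y, dig n a y)) x) (dig (n + L) a) =
      law1 (fib Ω (fun y => ((Y y, dig n a y), dig m b y)) x)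
      (fib Ω (fun y => (Y y, dig n a y)) x) (dig (n + L) a) := by
    intro x _
    rw [fib_assoc]
  rw [Finset.sum_congr rfl h5]
  linarith

/-- the `b` side -/
theorem side_b (Ω : Finset α) (Y : α → κ) (a b z : α → ℝ) {N n m L : ℕ} (hn : n + L ≤ N) :
    ∑ x ∈ Ω, (law1 (fib Ω (fun y => (Y y, dig n a y, dig m b y)) x)
        (fib Ω (fun y => (Y y, dig m b y)) x) (dig (m + L) b) +
      l1 (fib Ω (fun y => (Y y, dig n a y, dig m b y)) x) (dig (m + L) b)
        (fun y => (dig (n + L) a y, Ut' N n m a b z x y))) ≤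
    3 * ∑ x ∈ Ω, l1 (fib Ω (fun y => (Y y, dig m b y)) x) (dig (m + L) b)
      (fun x => (dig (2 * N) a x, dig (2 * N) z x)) := by
  rw [Finset.sum_add_distrib]
  have h1 := refine_law Ω (fun y => (Y y, dig m b y)) (dig (m + L) b)
    (fun x => (dig (2 * N) a x, dig (2 * N) z x)) (dig n a)
    (fun x _ y _ _ h => dig_factor (by omega) (congrArg Prod.fst h))
  have h2 := refine_l1 Ω (fun y => (Y y, dig m b y)) (dig (m + L) b)
    (fun x => (dig (2 * N) a x, dig (2 * N) z x)) (dig n a)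
    (fun y => (dig (n + L) a y, Ut' N n m a b z y y))
    (fun x _ y _ _ h => dig_factor (by omega) (congrArg Prod.fst h))
    (fun x _ y _ hk h => by
      have e1 : dig (2 * N) a x = dig (2 * N) a y := congrArg Prod.fst h
      have e2 : dig (2 * N) z x = dig (2 * N) z y := congrArg Prod.snd h
      have e3 : dig m b x = dig m b y := congrArg Prod.snd hk
      have e4 : dig (n + L) a x = dig (n + L) a y := dig_factor (by omega) e1
      have e5 : dig n a x = dig n a y := dig_factor (by omega) e1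
      simp only [Ut']
      rw [e1, e2, e3, e4, e5])
  have h3 : ∀ x ∈ Ω, l1 (fib Ω (fun y => (Y y, dig n a y, dig m b y)) x) (dig (m + L) b)
      (fun y => (dig (n + L) a y, Ut' N n m a b z x y)) =
      l1 (fib Ω (fun y => ((Y y, dig m b y), dig n a y)) x) (dig (m + L) b)
        (fun y => (dig (n + L) a y, Ut' N n m a b z y y)) := by
    intro x _
    rw [fib_comm]
    refine l1_congr _ _ fun y hy => ?_
    have h4 := (mem_fib.1 hy).2
    simp only [Prod.mk.injEq] at h4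
    simp only [Ut']
    rw [h4.2.1, h4.2.2]
  rw [Finset.sum_congr rfl h3]
  have h5 : ∀ x ∈ Ω, law1 (fib Ω (fun y => (Y y, dig n a y, dig m b y)) x)
      (fib Ω (fun y => (Y y, dig m b y)) x) (dig (m + L) b) =
      law1 (fib Ω (fun y => ((Y y, dig m b y), dig n a y)) x)
      (fib Ω (fun y => (Y y, dig m b y)) x) (dig (m + L) b) := by
    intro x _
    rw [fib_comm]
  rw [Finset.sum_congr rfl h5]
  linarith

theorem card_dfc {β γ : Type} (Ω : Finset α) (k : α → κ) (f : α → β) (g : α → γ) :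
    ∑ x ∈ Ω, l1 (fib Ω k x) f g = Ω.card * dfc Ω k f g := by
  unfold dfc
  rcases Finset.eq_empty_or_nonempty Ω with h | h
  · subst h
    simp
  · have : (Ω.card : ℝ) ≠ 0 := by
      have := h.card_pos
      positivity
    field_simp

theorem sum_side {γ : Type} (Ω : Finset α) (Y : α → κ) (a : α → ℝ) (g : α → γ) {L M N : ℕ}
    (h : M + L ≤ N) {ε δ : ℝ} (hδ : 0 ≤ δ) (hε : 4 * L * ε = δ ^ 2)
    (hc : cmi Ω Y (dig N a) g ≤ ε * N) :
    ∑ n ∈ Finset.range M, ∑ x ∈ Ω, l1 (fib Ω (fun y => (Y y, dig n a y)) x) (dig (n + L) a) g ≤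
      Ω.card * (N * δ) := by
  have h1 : ∀ n ∈ Finset.range M,
      ∑ x ∈ Ω, l1 (fib Ω (fun y => (Y y, dig n a y)) x) (dig (n + L) a) g =
        Ω.card * dfc Ω (fun y => (Y y, dig n a y)) (dig (n + L) a) g :=
    fun n _ => card_dfc Ω _ _ _
  rw [Finset.sum_congr rfl h1, ← Finset.mul_sum]
  refine mul_le_mul_of_nonneg_left ?_ (Nat.cast_nonneg _)
  refine (sum_dfc_le Ω Y a g h).trans ?_
  apply Real.sqrt_le_iff.2
  have hN : (0 : ℝ) ≤ N := Nat.cast_nonneg N
  refine ⟨by positivity, ?_⟩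
  have hMN : (M : ℝ) ≤ N := by exact_mod_cast (by omega : M ≤ N)
  have hc0 := cmi_nonneg Ω Y (dig N a) g
  have h2 : 4 * L * cmi Ω Y (dig N a) g ≤ 4 * L * (ε * N) :=
    mul_le_mul_of_nonneg_left hc (by positivity)
  have h3 : 0 ≤ 4 * L * cmi Ω Y (dig N a) g := by positivity
  calc (M : ℝ) * (4 * L * cmi Ω Y (dig N a) g) ≤ N * (4 * L * (ε * N)) :=
        mul_le_mul hMN h2 h3 hN
    _ = (4 * L * ε) * (N ^ 2) := by ring
    _ = (N * δ) ^ 2 := by rw [hε]; ring

theorem inv_mono {k : ℕ} {τ τ' : ℝ} (h : τ ≤ τ') {B : Finset α} {U : α → ℝ} (hi : Inv k τ B U) :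
    Inv k τ' B U := by
  obtain ⟨t, h1, h2, h3⟩ := hi
  exact ⟨t, h1, h2, fun ψ hψ hl => (h3 ψ hψ hl).trans
    (mul_le_mul_of_nonneg_right h (Nat.cast_nonneg _))⟩

open Classical in
/-- for fixed `n`, `m` -/
theorem one_pair (Ω : Finset α) (Y : α → κ) (a b z : α → ℝ) (hab : ∀ x ∈ Ω, |a x| ≤ 1 ∧ |b x| ≤ 1)
    {N n m L k : ℕ} (hn : n + L ≤ N) (hm : m + L ≤ N) (hL : k + 1 ≤ L)
    {η p τ ξ : ℝ} (hη : 0 < η) (hp : 0 < p) (hηp : η ≤ p / 2)
    (hτ : Real.sqrt (5 * η + 4 / 2 ^ L) / (p / 2) ^ 2 + 2 / 2 ^ L ≤ τ)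
    (hξ : 4 * Real.sqrt (5 * η + 4 / 2 ^ L) ≤ ξ) :
    ((Ω.filter fun x =>
        NC k p (fib Ω (fun y => (Y y, dig n a y)) x) (fun y => (2 : ℝ) ^ n * a y) ∧
        NC k p (fib Ω (fun y => (Y y, dig m b y)) x) (fun y => (2 : ℝ) ^ m * b y)).card : ℝ) ≤
      ((Ω.filter fun x => Inv (k + 1) τ
        (fib Ω (fun y => (Y y, dig n a y, dig (m + L) b y)) x) (Uf n m a b z x)).card : ℝ) +
      ξ * Ω.card +
      (3 * ∑ x ∈ Ω, l1 (fib Ω (fun y => (Y y, dig n a y)) x) (dig (n + L) a)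
        (fun x => (dig (2 * N) b x, dig (2 * N) (fun y => z y - a y * b y) x)) +
      3 * ∑ x ∈ Ω, l1 (fib Ω (fun y => (Y y, dig m b y)) x) (dig (m + L) b)
        (fun x => (dig (2 * N) a x, dig (2 * N) z x))) / η := by
  obtain ⟨K, hK⟩ : ∃ K : α → κ × ℤ × ℤ, K = fun y => (Y y, dig n a y, dig m b y) := ⟨_, rfl⟩
  obtain ⟨q1, hq1⟩ : ∃ q : α → ℝ, q = fun x => law1 (fib Ω (fun y => (Y y, dig n a y, dig m b y)) x)
    (fib Ω (fun y => (Y y, dig n a y)) x) (dig (n + L) a) := ⟨_, rfl⟩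
  obtain ⟨q2, hq2⟩ : ∃ q : α → ℝ, q = fun x => law1 (fib Ω (fun y => (Y y, dig n a y, dig m b y)) x)
    (fib Ω (fun y => (Y y, dig m b y)) x) (dig (m + L) b) := ⟨_, rfl⟩
  obtain ⟨q3, hq3⟩ : ∃ q : α → ℝ, q = fun x => l1 (fib Ω (fun y => (Y y, dig n a y, dig m b y)) x)
    (dig (n + L) a) (fun y => (dig (m + L) b y, Ut N n m a b z x y)) := ⟨_, rfl⟩
  obtain ⟨q4, hq4⟩ : ∃ q : α → ℝ, q = fun x => l1 (fib Ω (fun y => (Y y, dig n a y, dig m b y)) x)
    (dig (m + L) b) (fun y => (dig (n + L) a y, Ut' N n m a b z x y)) := ⟨_, rfl⟩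
  have n1 : ∀ x, 0 ≤ q1 x := fun x => by rw [hq1]; exact law1_nonneg' _ _ _
  have n2 : ∀ x, 0 ≤ q2 x := fun x => by rw [hq2]; exact law1_nonneg' _ _ _
  have n3 : ∀ x, 0 ≤ q3 x := fun x => by rw [hq3]; exact l1_nonneg' _ _ _
  have n4 : ∀ x, 0 ≤ q4 x := fun x => by rw [hq4]; exact l1_nonneg' _ _ _
  have sa := side_a Ω Y a b z (n := n) hm
  have sb := side_b Ω Y a b z (m := m) hn
  obtain ⟨A, hA⟩ : ∃ A : ℝ, A = ∑ x ∈ Ω, l1 (fib Ω (fun y => (Y y, dig n a y)) x) (dig (n + L) a)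
        (fun x => (dig (2 * N) b x, dig (2 * N) (fun y => z y - a y * b y) x)) := ⟨_, rfl⟩
  obtain ⟨B, hB⟩ : ∃ B : ℝ, B = ∑ x ∈ Ω, l1 (fib Ω (fun y => (Y y, dig m b y)) x) (dig (m + L) b)
        (fun x => (dig (2 * N) a x, dig (2 * N) z x)) := ⟨_, rfl⟩
  rw [← hA] at sa ⊢
  rw [← hB] at sb ⊢
  have sa' : ∑ x ∈ Ω, (q1 x + q3 x) ≤ 3 * A := by rw [hq1, hq3]; exact sa
  have sb' : ∑ x ∈ Ω, (q2 x + q4 x) ≤ 3 * B := by rw [hq2, hq4]; exact sb
  -- the three sets
  obtain ⟨S, hS⟩ : ∃ S : Finset α, S = Ω.filter fun x =>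
        NC k p (fib Ω (fun y => (Y y, dig n a y)) x) (fun y => (2 : ℝ) ^ n * a y) ∧
        NC k p (fib Ω (fun y => (Y y, dig m b y)) x) (fun y => (2 : ℝ) ^ m * b y) := ⟨_, rfl⟩
  obtain ⟨I, hI⟩ : ∃ I : α → Prop, I = fun x => Inv (k + 1) τ
        (fib Ω (fun y => (Y y, dig n a y, dig (m + L) b y)) x) (Uf n m a b z x) := ⟨_, rfl⟩
  obtain ⟨X, hX⟩ : ∃ X : Finset α, X = S.filter fun x => q1 x ≤ η ∧ q2 x ≤ η ∧ q3 x ≤ η ∧
    q4 x ≤ η := ⟨_, rfl⟩
  have hSΩ : ∀ x ∈ S, x ∈ Ω := by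
    intro x hx
    rw [hS] at hx
    exact (Finset.mem_filter.1 hx).1
  have hXΩ : ∀ x ∈ X, x ∈ Ω := by
    intro x hx
    rw [hX] at hx
    exact hSΩ x (Finset.mem_filter.1 hx).1
  -- Markov
  have hmarkov : (S.card : ℝ) ≤ X.card + (3 * A + 3 * B) / η := by
    have e1 : S.card = X.card + (S.filter fun x => ¬ (q1 x ≤ η ∧ q2 x ≤ η ∧ q3 x ≤ η ∧
        q4 x ≤ η)).card := by
      rw [hX]
      exact (Finset.card_filter_add_card_filter_not _).symm
    have e2 : ((S.filter fun x => ¬ (q1 x ≤ η ∧ q2 x ≤ η ∧ q3 x ≤ η ∧ q4 x ≤ η)).card : ℝ) ≤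
        (3 * A + 3 * B) / η := by
      rw [le_div_iff₀ hη]
      calc ((S.filter fun x => ¬ (q1 x ≤ η ∧ q2 x ≤ η ∧ q3 x ≤ η ∧ q4 x ≤ η)).card : ℝ) * η
          = ∑ x ∈ S.filter fun x => ¬ (q1 x ≤ η ∧ q2 x ≤ η ∧ q3 x ≤ η ∧ q4 x ≤ η), η := by
            rw [Finset.sum_const, nsmul_eq_mul]
        _ ≤ ∑ x ∈ S.filter fun x => ¬ (q1 x ≤ η ∧ q2 x ≤ η ∧ q3 x ≤ η ∧ q4 x ≤ η),
            ((q1 x + q3 x) + (q2 x + q4 x)) := by
            refine Finset.sum_le_sum fun x hx => ?_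
            have h1 := (Finset.mem_filter.1 hx).2
            have m1 := n1 x
            have m2 := n2 x
            have m3 := n3 x
            have m4 := n4 x
            by_contra hlt
            push Not at hlt
            exact h1 ⟨by linarith, by linarith, by linarith, by linarith⟩
        _ ≤ ∑ x ∈ Ω, ((q1 x + q3 x) + (q2 x + q4 x)) := by
            refine Finset.sum_le_sum_of_subset_of_nonneg ?_ fun x _ _ => by
              have m1 := n1 x
              have m2 := n2 x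
              have m3 := n3 x
              have m4 := n4 x
              linarith
            intro x hx
            exact hSΩ x (Finset.mem_filter.1 hx).1
        _ = ∑ x ∈ Ω, (q1 x + q3 x) + ∑ x ∈ Ω, (q2 x + q4 x) := Finset.sum_add_distrib
        _ ≤ 3 * A + 3 * B := add_le_add sa' sb'
    rw [e1]
    push_cast
    linarith
  -- the cells
  have hcell : ((X.filter fun x => ¬ I x).card : ℝ) ≤ ξ * Ω.card := by
    have hξ0 : 0 ≤ ξ := le_trans (by positivity) hξ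
    have e1 : (X.filter fun x => ¬ I x).card =
        ∑ c ∈ Ω.image K, ((X.filter fun x => ¬ I x).filter fun x => K x = c).card := by
      refine Finset.card_eq_sum_card_fiberwise fun x hx => ?_
      exact Finset.mem_image_of_mem K (hXΩ x (Finset.mem_filter.1 hx).1)
    have e2 : Ω.card = ∑ c ∈ Ω.image K, (Ω.filter fun x => K x = c).card :=
      Finset.card_eq_sum_card_fiberwise fun x hx => Finset.mem_image_of_mem K hx
    rw [e1, e2]
    push_cast
    rw [Finset.mul_sum]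
    refine Finset.sum_le_sum fun c hc => ?_
    rcases Finset.eq_empty_or_nonempty ((X.filter fun x => ¬ I x).filter fun x => K x = c) with
      h | ⟨x₀, hx₀⟩
    · rw [h]
      simp only [Finset.card_empty, Nat.cast_zero]
      positivity
    · obtain ⟨hx1, hx2⟩ := Finset.mem_filter.1 hx₀
      have hx3 := (Finset.mem_filter.1 hx1).1
      have hx4 := hXΩ x₀ hx3
      rw [hX] at hx3
      obtain ⟨hx5, p1, p2, p3, p4⟩ := Finset.mem_filter.1 hx3
      rw [hS] at hx5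
      obtain ⟨_, nca, ncb⟩ := Finset.mem_filter.1 hx5
      rw [hq1] at p1
      rw [hq2] at p2
      rw [hq3] at p3
      rw [hq4] at p4
      have hcl := inv_cell Ω Y a b z hab hn hm hL hx4 hη.le hp hηp nca ncb p1 p2 p3 p4
      have hfe : (Ω.filter fun x => K x = c) = fib Ω (fun y => (Y y, dig n a y, dig m b y)) x₀ := by
        ext y
        rw [mem_fib, Finset.mem_filter, ← hx2, hK]
      rw [hfe]
      have hsub : ((X.filter fun x => ¬ I x).filter fun x => K x = c) ⊆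
          (fib Ω (fun y => (Y y, dig n a y, dig m b y)) x₀).filter fun x =>
            ¬ Inv (k + 1) (Real.sqrt (5 * η + 4 / 2 ^ L) / (p / 2) ^ 2 + 2 / 2 ^ L)
              (fib Ω (fun y => (Y y, dig n a y, dig (m + L) b y)) x) (Uf n m a b z x) := by
        intro x hx
        obtain ⟨hx6, hx7⟩ := Finset.mem_filter.1 hx
        obtain ⟨hx8, hx9⟩ := Finset.mem_filter.1 hx6
        rw [← hfe]
        refine Finset.mem_filter.2 ⟨Finset.mem_filter.2 ⟨hXΩ x hx8, hx7⟩, fun hinv => hx9 ?_⟩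
        rw [hI]
        exact inv_mono hτ hinv
      refine (Nat.cast_le.2 (Finset.card_le_card hsub)).trans (hcl.trans ?_)
      exact mul_le_mul_of_nonneg_right hξ (Nat.cast_nonneg _)
  have hXI : (X.card : ℝ) ≤ (Ω.filter I).card + ξ * Ω.card := by
    have e1 : X.card = (X.filter I).card + (X.filter fun x => ¬ I x).card :=
      (Finset.card_filter_add_card_filter_not _).symm
    have e2 : ((X.filter I).card : ℝ) ≤ (Ω.filter I).card := by
      refine Nat.cast_le.2 (Finset.card_le_card ?_)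
      intro x hx
      obtain ⟨h1, h2⟩ := Finset.mem_filter.1 hx
      exact Finset.mem_filter.2 ⟨hXΩ x h1, h2⟩
    rw [e1]
    push_cast
    linarith
  have hfin : (S.card : ℝ) ≤ (Ω.filter I).card + ξ * Ω.card + (3 * A + 3 * B) / η := by
    linarith
  rw [hS, hI] at hfin
  exact hfin

open Classical in
theorem drop_tail (P : ℕ → Prop) {N L : ℕ} (hLN : L ≤ N) :
    (((Finset.range N).filter P).card : ℝ) ≤ ((Finset.range (N - L)).filter P).card + L := by
  have h : (Finset.range N).filter P ⊆ (Finset.range (N - L)).filter P ∪ Finset.Ico (N - L) N := by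
    intro n hn
    obtain ⟨h1, h2⟩ := Finset.mem_filter.1 hn
    rw [Finset.mem_range] at h1
    rw [Finset.mem_union]
    rcases Nat.lt_or_ge n (N - L) with h3 | h3
    · exact Or.inl (Finset.mem_filter.2 ⟨Finset.mem_range.2 h3, h2⟩)
    · exact Or.inr (Finset.mem_Ico.2 ⟨h3, h1⟩)
  have h1 := (Finset.card_le_card h).trans (Finset.card_union_le _ _)
  rw [Nat.card_Ico] at h1
  have h2 : N - (N - L) = L := by omega
  rw [h2] at h1
  exact_mod_cast h1

open Classical in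
/-- many active pairs -/
theorem many_pairs (Ω : Finset α) (P Q : ℕ → α → Prop) {N L : ℕ} {θ : ℝ} (hθ : 0 < θ)
    (hθ2 : θ ≤ 1 / 2) (hN : 4 * ((L : ℝ) + 1) ≤ θ * N)
    (hP : ((Ω.filter fun x => (((Finset.range N).filter fun n => P n x).card : ℝ) < θ * N).card : ℝ)
      ≤ θ ^ 2 / 8 * Ω.card + θ ^ 2 / 32 * Ω.card)
    (hQ : ((Ω.filter fun x => (((Finset.range N).filter fun n => Q n x).card : ℝ) < θ * N).card : ℝ)
      ≤ θ ^ 2 / 8 * Ω.card + θ ^ 2 / 32 * Ω.card) :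
    θ ^ 2 / 2 * (N : ℝ) ^ 2 * Ω.card ≤ ∑ nm ∈ Finset.range (N - L) ×ˢ Finset.range (N - L),
      ((Ω.filter fun x => P nm.1 x ∧ Q nm.2 x).card : ℝ) := by
  have hL0 : (0 : ℝ) ≤ L := Nat.cast_nonneg L
  have hN0 : (0 : ℝ) ≤ N := Nat.cast_nonneg N
  have hLN : L ≤ N := by
    have : (L : ℝ) ≤ N := by nlinarith
    exact_mod_cast this
  -- exchange
  have e1 : ∑ nm ∈ Finset.range (N - L) ×ˢ Finset.range (N - L),
      ((Ω.filter fun x => P nm.1 x ∧ Q nm.2 x).card : ℝ) =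
      ∑ x ∈ Ω, (((Finset.range (N - L)).filter fun n => P n x).card : ℝ) *
        ((Finset.range (N - L)).filter fun n => Q n x).card := by
    have e2 : ∀ nm ∈ Finset.range (N - L) ×ˢ Finset.range (N - L),
        ((Ω.filter fun x => P nm.1 x ∧ Q nm.2 x).card : ℝ) =
        ∑ x ∈ Ω, if P nm.1 x ∧ Q nm.2 x then (1 : ℝ) else 0 := by
      intro nm _
      rw [Finset.sum_boole]
    rw [Finset.sum_congr rfl e2, Finset.sum_comm]
    refine Finset.sum_congr rfl fun x _ => ?_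
    rw [Finset.sum_boole, Finset.filter_product (fun n => P n x) (fun n => Q n x),
      Finset.card_product]
    push_cast
    rfl
  rw [e1]
  obtain ⟨G, hG⟩ : ∃ G : Finset α, G = Ω.filter fun x =>
    ¬ ((((Finset.range N).filter fun n => P n x).card : ℝ) < θ * N) ∧
    ¬ ((((Finset.range N).filter fun n => Q n x).card : ℝ) < θ * N) := ⟨_, rfl⟩
  have hGΩ : G ⊆ Ω := by
    rw [hG]
    exact Finset.filter_subset _ _
  have hGcard : (Ω.card : ℝ) ≤ G.card + 2 * (θ ^ 2 / 8 * Ω.card + θ ^ 2 / 32 * Ω.card) := by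
    have h : Ω ⊆ G ∪ ((Ω.filter fun x => (((Finset.range N).filter fun n => P n x).card : ℝ) <
        θ * N) ∪ (Ω.filter fun x => (((Finset.range N).filter fun n => Q n x).card : ℝ) <
        θ * N)) := by
      intro x hx
      rw [Finset.mem_union, Finset.mem_union]
      by_cases h1 : (((Finset.range N).filter fun n => P n x).card : ℝ) < θ * N
      · exact Or.inr (Or.inl (Finset.mem_filter.2 ⟨hx, h1⟩))
      · by_cases h2 : (((Finset.range N).filter fun n => Q n x).card : ℝ) < θ * N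
        · exact Or.inr (Or.inr (Finset.mem_filter.2 ⟨hx, h2⟩))
        · refine Or.inl ?_
          rw [hG]
          exact Finset.mem_filter.2 ⟨hx, h1, h2⟩
    have h1 := (Finset.card_le_card h).trans ((Finset.card_union_le _ _).trans
      (Nat.add_le_add_left (Finset.card_union_le _ _) _))
    have h2 : (Ω.card : ℝ) ≤ G.card +
        ((Ω.filter fun x => (((Finset.range N).filter fun n => P n x).card : ℝ) < θ * N).card +
        (Ω.filter fun x => (((Finset.range N).filter fun n => Q n x).card : ℝ) < θ * N).card) := by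
      exact_mod_cast h1
    linarith
  have h3 : (G.card : ℝ) * ((3 / 4 * (θ * N)) * (3 / 4 * (θ * N))) ≤
      ∑ x ∈ Ω, (((Finset.range (N - L)).filter fun n => P n x).card : ℝ) *
        ((Finset.range (N - L)).filter fun n => Q n x).card := by
    calc (G.card : ℝ) * ((3 / 4 * (θ * N)) * (3 / 4 * (θ * N)))
        = ∑ x ∈ G, (3 / 4 * (θ * N)) * (3 / 4 * (θ * N)) := by
          rw [Finset.sum_const, nsmul_eq_mul]
      _ ≤ ∑ x ∈ G, (((Finset.range (N - L)).filter fun n => P n x).card : ℝ) *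
        ((Finset.range (N - L)).filter fun n => Q n x).card := by
          refine Finset.sum_le_sum fun x hx => ?_
          rw [hG] at hx
          obtain ⟨_, h1, h2⟩ := Finset.mem_filter.1 hx
          have d1 := drop_tail (fun n => P n x) hLN
          have d2 := drop_tail (fun n => Q n x) hLN
          have hθN : 0 ≤ θ * N := by positivity
          refine mul_le_mul ?_ ?_ (by positivity) (Nat.cast_nonneg _)
          · linarith
          · linarith
      _ ≤ _ := Finset.sum_le_sum_of_subset_of_nonneg hGΩ fun x _ _ => by positivity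
  refine le_trans ?_ h3
  have hθsq : θ ^ 2 ≤ 1 / 4 := by nlinarith
  have hW : (0 : ℝ) ≤ Ω.card := Nat.cast_nonneg _
  have h4 : (59 / 64 : ℝ) * Ω.card ≤ G.card := by
    have : θ ^ 2 * Ω.card ≤ 1 / 4 * Ω.card := mul_le_mul_of_nonneg_right hθsq hW
    linarith
  have h5 : 0 ≤ θ ^ 2 * (N : ℝ) ^ 2 := by positivity
  calc θ ^ 2 / 2 * (N : ℝ) ^ 2 * Ω.card = (1 / 2 * Ω.card) * (θ ^ 2 * (N : ℝ) ^ 2) := by ring
    _ ≤ (9 / 16 * G.card) * (θ ^ 2 * (N : ℝ) ^ 2) := by
        refine mul_le_mul_of_nonneg_right ?_ h5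
        linarith
    _ = _ := by ring

end Ltx

open Classical in
theorem ltx (γ : ℝ) (hγ : 0 < γ) (hγ1 : γ ≤ 1) :
    ∃ (k₀ : ℕ) (c₄ : ℝ), 0 < c₄ ∧ c₄ ≤ 1 ∧ ∀ τ : ℝ, 0 < τ → ∀ L₁ : ℕ,
      ∃ (L : ℕ) (ε : ℝ) (N₀ : ℕ), L₁ ≤ L ∧ 0 < ε ∧ ∀ N : ℕ, N₀ ≤ N →
      ∀ {α κ : Type} (Ω : Finset α) (Y : α → κ) (a b z : α → ℝ) (Bad : Finset α),
      (∀ x ∈ Ω, |a x| ≤ 1 ∧ |b x| ≤ 1) → (Bad.card : ℝ) ≤ c₄ * Ω.card →
      (∀ x ∈ Ω, x ∉ Bad →
        wt Ω (fun y => (Y y, dig N a y)) x ≤ (2 : ℝ) ^ (-(γ * N)) * wt Ω Y x ∧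
        wt Ω (fun y => (Y y, dig N b y)) x ≤ (2 : ℝ) ^ (-(γ * N)) * wt Ω Y x) →
      cmi Ω Y (dig N a) (fun x => (dig (2 * N) b x, dig (2 * N) (fun y => z y - a y * b y) x)) ≤
        ε * N →
      cmi Ω Y (dig N b) (fun x => (dig (2 * N) a x, dig (2 * N) z x)) ≤ ε * N →
      c₄ * (N : ℝ) ^ 2 * Ω.card ≤ ∑ x ∈ Ω,
        (((Finset.range N ×ˢ Finset.range N).filter fun nm : ℕ × ℕ =>
          nm.1 + L ≤ N ∧ nm.2 + L ≤ N ∧
          Inv k₀ τ (fib Ω (fun y => (Y y, dig nm.1 a y, dig (nm.2 + L) b y)) x)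
            (Uf nm.1 nm.2 a b z x)).card : ℝ) := by
  obtain ⟨k, θ, hθ, hθ2, hact⟩ := activity γ hγ hγ1
  have hθsq : θ ^ 2 ≤ 1 / 4 := by nlinarith
  refine ⟨k + 1, θ ^ 2 / 8, by positivity, by linarith, fun τ hτ L₁ => ?_⟩
  obtain ⟨p, N₁, hp, hp1, hact⟩ := hact (θ ^ 2 / 32) (by positivity)
  -- the constants
  obtain ⟨s, hs, hs1, hs2⟩ : ∃ s : ℝ, 0 < s ∧ s / (p / 2) ^ 2 ≤ τ / 2 ∧ 4 * s ≤ θ ^ 2 / 16 := by
    refine ⟨min (τ / 2 * (p / 2) ^ 2) (θ ^ 2 / 64), by positivity, ?_, ?_⟩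
    · rw [div_le_iff₀ (by positivity)]
      exact min_le_left _ _
    · have := min_le_right (τ / 2 * (p / 2) ^ 2) (θ ^ 2 / 64)
      linarith
  obtain ⟨η, hη, hηp, hηs⟩ : ∃ η : ℝ, 0 < η ∧ η ≤ p / 2 ∧ 5 * η ≤ s ^ 2 / 2 := by
    refine ⟨min (p / 2) (s ^ 2 / 10), by positivity, min_le_left _ _, ?_⟩
    have := min_le_right (p / 2) (s ^ 2 / 10)
    linarith
  obtain ⟨L, hL1, hLk, hL0, hLs, hLτ⟩ : ∃ L : ℕ, L₁ ≤ L ∧ k + 1 ≤ L ∧ 1 ≤ L ∧
      (4 : ℝ) / 2 ^ L ≤ s ^ 2 / 2 ∧ (2 : ℝ) / 2 ^ L ≤ τ / 2 := by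
    obtain ⟨l, hl⟩ := exists_pow_lt_of_lt_one (show (0 : ℝ) < min (s ^ 2 / 8) (τ / 4) by positivity)
      (show (1 / 2 : ℝ) < 1 by norm_num)
    refine ⟨l + L₁ + k + 1, by omega, by omega, by omega, ?_, ?_⟩
    · have h1 : (1 : ℝ) / 2 ^ (l + L₁ + k + 1) ≤ (1 / 2 : ℝ) ^ l := by
        rw [one_div_pow]
        apply one_div_le_one_div_of_le (by positivity)
        exact pow_le_pow_right₀ (by norm_num) (by omega)
      have h2 := min_le_left (s ^ 2 / 8) (τ / 4)
      have h3 : (4 : ℝ) / 2 ^ (l + L₁ + k + 1) = 4 * (1 / 2 ^ (l + L₁ + k + 1)) := by ring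
      rw [h3]
      linarith
    · have h1 : (1 : ℝ) / 2 ^ (l + L₁ + k + 1) ≤ (1 / 2 : ℝ) ^ l := by
        rw [one_div_pow]
        apply one_div_le_one_div_of_le (by positivity)
        exact pow_le_pow_right₀ (by norm_num) (by omega)
      have h2 := min_le_right (s ^ 2 / 8) (τ / 4)
      have h3 : (2 : ℝ) / 2 ^ (l + L₁ + k + 1) = 2 * (1 / 2 ^ (l + L₁ + k + 1)) := by ring
      rw [h3]
      linarith
  have hsq : Real.sqrt (5 * η + 4 / 2 ^ L) ≤ s := by
    rw [Real.sqrt_le_iff]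
    exact ⟨hs.le, by linarith⟩
  have hτ' : Real.sqrt (5 * η + 4 / 2 ^ L) / (p / 2) ^ 2 + 2 / 2 ^ L ≤ τ := by
    have h1 : Real.sqrt (5 * η + 4 / 2 ^ L) / (p / 2) ^ 2 ≤ s / (p / 2) ^ 2 :=
      div_le_div_of_nonneg_right hsq (by positivity)
    linarith
  have hξ : 4 * Real.sqrt (5 * η + 4 / 2 ^ L) ≤ θ ^ 2 / 16 := by linarith
  have hLr : (0 : ℝ) < L := by exact_mod_cast hL0
  obtain ⟨δ, hδd⟩ : ∃ δ : ℝ, δ = η * θ ^ 2 / 200 := ⟨_, rfl⟩
  have hδ : 0 < δ := by rw [hδd]; positivity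
  refine ⟨L, δ ^ 2 / (4 * L), max N₁ ⌈4 * ((L : ℝ) + 1) / θ⌉₊, hL1, by positivity, ?_⟩
  intro N hN α κ Ω Y a b z Bad hab hBad hwt hca hcb
  have hε : 4 * L * (δ ^ 2 / (4 * L)) = δ ^ 2 := by
    field_simp
  have hN1 : N₁ ≤ N := (le_max_left _ _).trans hN
  have hN2 : 4 * ((L : ℝ) + 1) ≤ θ * N := by
    have h1 : (⌈4 * ((L : ℝ) + 1) / θ⌉₊ : ℝ) ≤ N := by
      exact_mod_cast (le_max_right _ _).trans hN
    have h2 := (Nat.le_ceil (4 * ((L : ℝ) + 1) / θ)).trans h1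
    rw [div_le_iff₀ hθ] at h2
    linarith
  have hN0 : (0 : ℝ) ≤ N := Nat.cast_nonneg N
  have hLN : L ≤ N := by
    have : (L : ℝ) ≤ N := by nlinarith
    exact_mod_cast this
  have acta := hact N hN1 Ω Y a (fun x hx => (hab x hx).1) Bad (fun x hx hb => (hwt x hx hb).1)
  have actb := hact N hN1 Ω Y b (fun x hx => (hab x hx).2) Bad (fun x hx hb => (hwt x hx hb).2)
  have hpairs := Ltx.many_pairs Ω
    (fun n x => NC k p (fib Ω (fun y => (Y y, dig n a y)) x) (fun y => (2 : ℝ) ^ n * a y))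
    (fun n x => NC k p (fib Ω (fun y => (Y y, dig n b y)) x) (fun y => (2 : ℝ) ^ n * b y))
    hθ hθ2 hN2 (by linarith) (by linarith)
  have hsa := Ltx.sum_side Ω Y a
    (fun x => (dig (2 * N) b x, dig (2 * N) (fun y => z y - a y * b y) x))
    (show (N - L) + L ≤ N by omega) hδ.le hε hca
  have hsb := Ltx.sum_side Ω Y b (fun x => (dig (2 * N) a x, dig (2 * N) z x))
    (show (N - L) + L ≤ N by omega) hδ.le hε hcb
  obtain ⟨A, hA⟩ : ∃ A : ℕ → ℝ, A = fun n => ∑ x ∈ Ω, l1 (fib Ω (fun y => (Y y, dig n a y)) x)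
    (dig (n + L) a) (fun x => (dig (2 * N) b x, dig (2 * N) (fun y => z y - a y * b y) x)) :=
    ⟨_, rfl⟩
  obtain ⟨B, hB⟩ : ∃ B : ℕ → ℝ, B = fun m => ∑ x ∈ Ω, l1 (fib Ω (fun y => (Y y, dig m b y)) x)
    (dig (m + L) b) (fun x => (dig (2 * N) a x, dig (2 * N) z x)) := ⟨_, rfl⟩
  have hsa' : ∑ n ∈ Finset.range (N - L), A n ≤ Ω.card * (N * δ) := by rw [hA]; exact hsa
  have hsb' : ∑ n ∈ Finset.range (N - L), B n ≤ Ω.card * (N * δ) := by rw [hB]; exact hsb
  obtain ⟨J, hJ⟩ : ∃ J : ℕ × ℕ → α → Prop, J = fun nm x =>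
    Inv (k + 1) τ (fib Ω (fun y => (Y y, dig nm.1 a y, dig (nm.2 + L) b y)) x)
      (Uf nm.1 nm.2 a b z x) := ⟨_, rfl⟩
  have hW : (0 : ℝ) ≤ Ω.card := Nat.cast_nonneg _
  have hM : ((N - L : ℕ) : ℝ) ≤ N := by exact_mod_cast Nat.sub_le N L
  have hM0 : (0 : ℝ) ≤ ((N - L : ℕ) : ℝ) := Nat.cast_nonneg _
  -- sum over all pairs
  have hall : ∑ nm ∈ Finset.range (N - L) ×ˢ Finset.range (N - L),
      ((Ω.filter fun x => NC k p (fib Ω (fun y => (Y y, dig nm.1 a y)) x)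
          (fun y => (2 : ℝ) ^ nm.1 * a y) ∧
        NC k p (fib Ω (fun y => (Y y, dig nm.2 b y)) x) (fun y => (2 : ℝ) ^ nm.2 * b y)).card : ℝ) ≤
      ∑ nm ∈ Finset.range (N - L) ×ˢ Finset.range (N - L), ((Ω.filter (J nm)).card : ℝ) +
        θ ^ 2 / 16 * Ω.card * (N : ℝ) ^ 2 + 6 * (N : ℝ) ^ 2 * Ω.card * δ / η := by
    have h1 : ∀ nm ∈ Finset.range (N - L) ×ˢ Finset.range (N - L),
      ((Ω.filter fun x => NC k p (fib Ω (fun y => (Y y, dig nm.1 a y)) x)
          (fun y => (2 : ℝ) ^ nm.1 * a y) ∧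
        NC k p (fib Ω (fun y => (Y y, dig nm.2 b y)) x) (fun y => (2 : ℝ) ^ nm.2 * b y)).card : ℝ) ≤
        ((Ω.filter (J nm)).card : ℝ) + θ ^ 2 / 16 * Ω.card + (3 * A nm.1 + 3 * B nm.2) / η := by
      intro nm hnm
      rw [Finset.mem_product, Finset.mem_range, Finset.mem_range] at hnm
      have h2 := Ltx.one_pair Ω Y a b z hab (show nm.1 + L ≤ N by omega)
        (show nm.2 + L ≤ N by omega) hLk hη hp hηp hτ' hξ
      rw [hJ, hA, hB]
      exact h2
    refine (Finset.sum_le_sum h1).trans ?_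
    have hA2 : ∑ nm ∈ Finset.range (N - L) ×ˢ Finset.range (N - L), A nm.1 =
        ((N - L : ℕ) : ℝ) * ∑ n ∈ Finset.range (N - L), A n := by
      rw [Finset.sum_product_right]
      simp only [Finset.sum_const, Finset.card_range, nsmul_eq_mul]
    have hB2 : ∑ nm ∈ Finset.range (N - L) ×ˢ Finset.range (N - L), B nm.2 =
        ((N - L : ℕ) : ℝ) * ∑ n ∈ Finset.range (N - L), B n := by
      rw [Finset.sum_product]
      simp only [Finset.sum_const, Finset.card_range, nsmul_eq_mul]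
    rw [Finset.sum_add_distrib, Finset.sum_add_distrib, Finset.sum_const, Finset.card_product,
      Finset.card_range, nsmul_eq_mul, ← Finset.sum_div, Finset.sum_add_distrib,
      ← Finset.mul_sum, ← Finset.mul_sum, hA2, hB2]
    have hAB : 3 * (((N - L : ℕ) : ℝ) * ∑ n ∈ Finset.range (N - L), A n) +
        3 * (((N - L : ℕ) : ℝ) * ∑ n ∈ Finset.range (N - L), B n) ≤
        6 * (N : ℝ) ^ 2 * Ω.card * δ := by
      have g1 : ((N - L : ℕ) : ℝ) * ∑ n ∈ Finset.range (N - L), A n ≤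
          N * (Ω.card * (N * δ)) := by
        refine (mul_le_mul_of_nonneg_left hsa' hM0).trans ?_
        exact mul_le_mul_of_nonneg_right hM (by positivity)
      have g2 : ((N - L : ℕ) : ℝ) * ∑ n ∈ Finset.range (N - L), B n ≤
          N * (Ω.card * (N * δ)) := by
        refine (mul_le_mul_of_nonneg_left hsb' hM0).trans ?_
        exact mul_le_mul_of_nonneg_right hM (by positivity)
      nlinarith [g1, g2]
    have hc : (((N - L) * (N - L) : ℕ) : ℝ) * (θ ^ 2 / 16 * Ω.card) ≤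
        θ ^ 2 / 16 * Ω.card * (N : ℝ) ^ 2 := by
      push_cast
      have g3 : ((N - L : ℕ) : ℝ) * ((N - L : ℕ) : ℝ) ≤ N * N := mul_le_mul hM hM hM0 hN0
      have g4 : 0 ≤ θ ^ 2 / 16 * (Ω.card : ℝ) := by positivity
      calc ((N - L : ℕ) : ℝ) * ((N - L : ℕ) : ℝ) * (θ ^ 2 / 16 * Ω.card) ≤
            N * N * (θ ^ 2 / 16 * Ω.card) := mul_le_mul_of_nonneg_right g3 g4
        _ = _ := by ring
    have hd := div_le_div_of_nonneg_right hAB hη.le
    linarith
  -- exchange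
  have hex : ∑ nm ∈ Finset.range (N - L) ×ˢ Finset.range (N - L), ((Ω.filter (J nm)).card : ℝ) ≤
      ∑ x ∈ Ω, (((Finset.range N ×ˢ Finset.range N).filter fun nm : ℕ × ℕ =>
          nm.1 + L ≤ N ∧ nm.2 + L ≤ N ∧ J nm x).card : ℝ) := by
    have e2 : ∀ nm ∈ Finset.range (N - L) ×ˢ Finset.range (N - L),
        ((Ω.filter (J nm)).card : ℝ) = ∑ x ∈ Ω, if J nm x then (1 : ℝ) else 0 := by
      intro nm _
      rw [Finset.sum_boole]
    rw [Finset.sum_congr rfl e2, Finset.sum_comm]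
    refine Finset.sum_le_sum fun x _ => ?_
    rw [Finset.sum_boole]
    refine Nat.cast_le.2 (Finset.card_le_card ?_)
    intro nm hnm
    obtain ⟨h1, h2⟩ := Finset.mem_filter.1 hnm
    rw [Finset.mem_product, Finset.mem_range, Finset.mem_range] at h1
    refine Finset.mem_filter.2 ⟨?_, by omega, by omega, h2⟩
    rw [Finset.mem_product, Finset.mem_range, Finset.mem_range]
    omega
  have hfin : θ ^ 2 / 8 * (N : ℝ) ^ 2 * Ω.card ≤
      ∑ x ∈ Ω, (((Finset.range N ×ˢ Finset.range N).filter fun nm : ℕ × ℕ =>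
          nm.1 + L ≤ N ∧ nm.2 + L ≤ N ∧ J nm x).card : ℝ) := by
    refine le_trans ?_ hex
    have h1 := hpairs.trans hall
    have h2 : 6 * (N : ℝ) ^ 2 * Ω.card * δ / η = 6 / 200 * (θ ^ 2 * (N : ℝ) ^ 2 * Ω.card) := by
      rw [hδd]
      field_simp
    have h3 : 0 ≤ θ ^ 2 * (N : ℝ) ^ 2 * Ω.card := by positivity
    rw [h2] at h1
    nlinarith [h1, h3]
  rw [hJ] at hfin
  exact hfin

end Pool.Agent.Lib.P51n
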