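import Pool.Agent.Lib.P51n.CDefs

/-!
# P51n.CPinsker  (about 1.5 h)

Pinsker-type inequality and the chain rule.

`pinsker_cell`: on a cell `B` let `P(u,v) = #{f=u,g=v}/|B|`, `Q(u,v) = #{f=u}#{g=v}/|B|²`,
`KL = (1/|B|) ∑_{x∈B} log(P/Q)(x)`.  `log(P/Q) = -2 log √(Q/P) ≥ 2(1 - √(Q/P))`, so
`KL ≥ 2 - 2∑_{P>0} √(PQ) ≥ ∑ (√P - √Q)²`, and by Cauchy-Schwarz
`l1 = ∑ |√P-√Q|(√P+√Q) ≤ √KL · √(2∑(P+Q)) ≤ 2√KL`.

`pinsker`: `cmi Ω k f g = (1/|Ω|) ∑_{x ∈ Ω} KL(fibre of k through x)`, then Cauchy-Schwarz for the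
average.

`cmi_chain`: if `f` is a function of `f'` on `Ω` then
`cmi Ω k f' g = cmi Ω k f g + cmi Ω (k,f) f' g` (the fibres of `(k, f, f')` are those of
`(k, f')`; product of the quotients inside the logarithm).
-/

set_option autoImplicit false

noncomputable section

namespace Pool.Agent.Lib.P51n

variable {α β β' γ κ : Type*}

open Finset

section cell

open Classical

/-- regrouping a sum over `B` by the values of `f` and `g` -/
theorem sum_regroup (B : Finset α) (f : α → β) (g : α → γ) (H : β → γ → ℝ) :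
    ∑ x ∈ B, H (f x) (g x) = ∑ p ∈ (B.image f) ×ˢ (B.image g),
      ((B.filter fun x => f x = p.1 ∧ g x = p.2).card : ℝ) * H p.1 p.2 := by
  rw [Finset.sum_product, ← Finset.sum_fiberwise_of_maps_to (t := B.image f) (g := f)
    (fun x hx => Finset.mem_image_of_mem f hx)]
  refine Finset.sum_congr rfl fun u _ => ?_
  rw [← Finset.sum_fiberwise_of_maps_to (s := B.filter fun x => f x = u) (t := B.image g) (g := g)
    (fun x hx => Finset.mem_image_of_mem g (Finset.mem_filter.1 hx).1)]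
  refine Finset.sum_congr rfl fun v _ => ?_
  rw [Finset.filter_filter]
  have h : ∀ x ∈ B.filter (fun x => f x = u ∧ g x = v), H (f x) (g x) = H u v := by
    intro x hx
    obtain ⟨-, h1, h2⟩ := Finset.mem_filter.1 hx
    rw [h1, h2]
  rw [Finset.sum_congr rfl h, Finset.sum_const, nsmul_eq_mul]

theorem sum_marg (B : Finset α) (f : α → β) :
    ∑ u ∈ B.image f, ((B.filter fun x => f x = u).card : ℝ) = B.card := by
  rw [Finset.card_eq_sum_card_image f B]
  push_cast
  rfl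

/-- the un-normalised mutual information of `f` and `g` on `B` -/
def cellS (B : Finset α) (f : α → β) (g : α → γ) : ℝ :=
  ∑ x ∈ B, Real.log (((B.filter fun y => f y = f x ∧ g y = g x).card : ℝ) * B.card /
    (((B.filter fun y => f y = f x).card : ℝ) * ((B.filter fun y => g y = g x).card : ℝ)))

theorem log_lower {t : ℝ} (ht : 0 < t) : 2 * (1 - √(1 / t)) ≤ Real.log t := by
  have h1 : 0 < √(1 / t) := Real.sqrt_pos.2 (by positivity)
  have h2 := Real.log_le_sub_one_of_pos h1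
  have h3 : Real.log (√(1 / t)) = -(Real.log t) / 2 := by
    rw [Real.log_sqrt (by positivity), one_div, Real.log_inv]
  rw [h3] at h2
  linarith

theorem pinsker_cell (B : Finset α) (f : α → β) (g : α → γ) :
    0 ≤ cellS B f g ∧ l1 B f g ^ 2 * B.card ≤ 4 * cellS B f g := by
  rcases B.eq_empty_or_nonempty with rfl | hB
  · simp [cellS, l1]
  have hb : (0 : ℝ) < B.card := by exact_mod_cast hB.card_pos
  set b : ℝ := (B.card : ℝ) with hbdef
  set P := (B.image f) ×ˢ (B.image g) with hP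
  set c : β × γ → ℝ := fun p => ((B.filter fun x => f x = p.1 ∧ g x = p.2).card : ℝ) with hc
  set n : β → ℝ := fun u => ((B.filter fun x => f x = u).card : ℝ) with hn
  set m : γ → ℝ := fun v => ((B.filter fun x => g x = v).card : ℝ) with hm
  set q : β × γ → ℝ := fun p => n p.1 * m p.2 / b with hq
  have hc0 : ∀ p, 0 ≤ c p := fun p => Nat.cast_nonneg _
  have hq0 : ∀ p, 0 ≤ q p := fun p =>
    div_nonneg (mul_nonneg (Nat.cast_nonneg _) (Nat.cast_nonneg _)) hb.le
  -- total masses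
  have hsc : ∑ p ∈ P, c p = b := by
    have h := sum_regroup B f g (fun _ _ => 1)
    simp only [Finset.sum_const, nsmul_eq_mul, mul_one] at h
    exact h.symm
  have hsq : ∑ p ∈ P, q p = b := by
    rw [hP, Finset.sum_product]
    have h1 : ∀ u ∈ B.image f, ∑ v ∈ B.image g, q (u, v) = n u := by
      intro u _
      have h2 : ∑ v ∈ B.image g, q (u, v) = n u / b * ∑ v ∈ B.image g, m v := by
        rw [Finset.mul_sum]
        refine Finset.sum_congr rfl fun v _ => ?_
        simp only [hq]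
        ring
      rw [h2]
      have h3 : ∑ v ∈ B.image g, m v = b := sum_marg B g
      rw [h3]
      field_simp
    rw [Finset.sum_congr rfl h1]
    exact sum_marg B f
  -- lower bound for S
  set Z : ℝ := ∑ p ∈ P, (√(c p) - √(q p)) ^ 2 with hZ
  have hZ0 : 0 ≤ Z := Finset.sum_nonneg fun p _ => sq_nonneg _
  have hZe : Z = 2 * b - 2 * ∑ p ∈ P, √(c p) * √(q p) := by
    have h1 : ∀ p ∈ P, (√(c p) - √(q p)) ^ 2 = c p + q p - 2 * (√(c p) * √(q p)) := by
      intro p _
      have e1 := Real.sq_sqrt (hc0 p)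
      have e2 := Real.sq_sqrt (hq0 p)
      linear_combination e1 + e2
    rw [hZ, Finset.sum_congr rfl h1, Finset.sum_sub_distrib, Finset.sum_add_distrib, hsc, hsq,
      ← Finset.mul_sum]
    ring
  have hS : Z ≤ cellS B f g := by
    have h1 : ∀ x ∈ B, 2 * (1 - √(q (f x, g x) / c (f x, g x))) ≤
        Real.log (c (f x, g x) * b / (n (f x) * m (g x))) := by
      intro x hx
      have p1 : 0 < c (f x, g x) := by
        have : 0 < (B.filter fun y => f y = f x ∧ g y = g x).card :=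
          Finset.card_pos.2 ⟨x, Finset.mem_filter.2 ⟨hx, rfl, rfl⟩⟩
        exact Nat.cast_pos.2 this
      have p2 : 0 < n (f x) := by
        have : 0 < (B.filter fun y => f y = f x).card :=
          Finset.card_pos.2 ⟨x, Finset.mem_filter.2 ⟨hx, rfl⟩⟩
        exact Nat.cast_pos.2 this
      have p3 : 0 < m (g x) := by
        have : 0 < (B.filter fun y => g y = g x).card :=
          Finset.card_pos.2 ⟨x, Finset.mem_filter.2 ⟨hx, rfl⟩⟩
        exact Nat.cast_pos.2 this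
      have h2 := log_lower (t := c (f x, g x) * b / (n (f x) * m (g x))) (by positivity)
      have h3 : 1 / (c (f x, g x) * b / (n (f x) * m (g x))) = q (f x, g x) / c (f x, g x) := by
        simp only [hq]
        field_simp
      rwa [h3] at h2
    have h2 : ∑ x ∈ B, 2 * (1 - √(q (f x, g x) / c (f x, g x))) ≤ cellS B f g :=
      Finset.sum_le_sum h1
    refine le_trans (le_of_eq ?_) h2
    rw [hZe, ← Finset.mul_sum, Finset.sum_sub_distrib, Finset.sum_const, nsmul_eq_mul, mul_one]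
    have h3 : ∑ x ∈ B, √(q (f x, g x) / c (f x, g x)) = ∑ p ∈ P, √(c p) * √(q p) := by
      rw [sum_regroup B f g (fun u v => √(q (u, v) / c (u, v)))]
      refine Finset.sum_congr rfl fun p _ => ?_
      show c p * √(q p / c p) = √(c p) * √(q p)
      rcases (hc0 p).eq_or_lt with h | h
      · rw [← h]; simp
      · rw [Real.sqrt_div (hq0 p)]
        have h4 : 0 < √(c p) := Real.sqrt_pos.2 h
        field_simp
        rw [Real.sq_sqrt h.le, mul_comm]
    rw [h3]
    ring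
  refine ⟨hZ0.trans hS, ?_⟩
  -- Cauchy-Schwarz
  have hl1 : l1 B f g = (∑ p ∈ P, |c p - q p|) / b := by
    unfold l1
    rw [hP, Finset.sum_product]
  have hCS : (∑ p ∈ P, |c p - q p|) ^ 2 ≤ Z * (4 * b) := by
    have h1 : ∀ p ∈ P, |c p - q p| = |√(c p) - √(q p)| * (√(c p) + √(q p)) := by
      intro p _
      have e1 := Real.sq_sqrt (hc0 p)
      have e2 := Real.sq_sqrt (hq0 p)
      have e3 : c p - q p = (√(c p) - √(q p)) * (√(c p) + √(q p)) := by
        linear_combination -e1 + e2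
      rw [e3, abs_mul, abs_of_nonneg (a := √(c p) + √(q p)) (by positivity)]
    rw [Finset.sum_congr rfl h1]
    refine (Finset.sum_mul_sq_le_sq_mul_sq P _ _).trans ?_
    have h2 : ∑ p ∈ P, |√(c p) - √(q p)| ^ 2 = Z := by
      rw [hZ]
      exact Finset.sum_congr rfl fun p _ => sq_abs _
    rw [h2]
    refine mul_le_mul_of_nonneg_left ?_ hZ0
    have h3 : ∀ p ∈ P, (√(c p) + √(q p)) ^ 2 ≤ 2 * c p + 2 * q p := by
      intro p _
      have e1 := Real.sq_sqrt (hc0 p)
      have e2 := Real.sq_sqrt (hq0 p)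
      nlinarith [sq_nonneg (√(c p) - √(q p))]
    refine (Finset.sum_le_sum h3).trans (le_of_eq ?_)
    rw [Finset.sum_add_distrib, ← Finset.mul_sum, ← Finset.mul_sum, hsc, hsq]
    ring
  rw [hl1, div_pow]
  have h4 : (∑ p ∈ P, |c p - q p|) ^ 2 / b ^ 2 * b = (∑ p ∈ P, |c p - q p|) ^ 2 / b := by
    field_simp
  rw [h4, div_le_iff₀ hb]
  have h5 : Z * (4 * b) ≤ cellS B f g * (4 * b) := mul_le_mul_of_nonneg_right hS (by positivity)
  linarith

theorem fib_eq {Ω : Finset α} {k : α → κ} {x y : α} (h : k y = k x) : fib Ω k y = fib Ω k x := by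
  unfold fib
  rw [h]

theorem mem_fib {Ω : Finset α} {k : α → κ} {x y : α} : y ∈ fib Ω k x ↔ y ∈ Ω ∧ k y = k x :=
  Finset.mem_filter

theorem fib_card_pos {Ω : Finset α} {k : α → κ} {x : α} (hx : x ∈ Ω) :
    (0 : ℝ) < (fib Ω k x).card := by
  have : 0 < (fib Ω k x).card := Finset.card_pos.2 ⟨x, mem_fib.2 ⟨hx, rfl⟩⟩
  exact_mod_cast this

/-- averaging over the fibres -/
theorem sum_fib (Ω : Finset α) (k : α → κ) (φ : α → ℝ) :
    ∑ x ∈ Ω, (∑ y ∈ fib Ω k x, φ y) / ((fib Ω k x).card : ℝ) = ∑ x ∈ Ω, φ x := by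
  simp only [Finset.sum_div]
  rw [Finset.sum_comm' (s' := fun y => fib Ω k y) (t' := Ω) (by
    intro x y
    rw [mem_fib, mem_fib]
    constructor
    · rintro ⟨h1, h2, h3⟩
      exact ⟨⟨h1, h3.symm⟩, h2⟩
    · rintro ⟨⟨h1, h2⟩, h3⟩
      exact ⟨h1, h3, h2.symm⟩)]
  refine Finset.sum_congr rfl fun y hy => ?_
  have h : ∀ x ∈ fib Ω k y, φ y / ((fib Ω k x).card : ℝ) = φ y / ((fib Ω k y).card : ℝ) := by
    intro x hx
    rw [fib_eq (mem_fib.1 hx).2]
  rw [Finset.sum_congr rfl h, Finset.sum_const, nsmul_eq_mul]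
  have := fib_card_pos (k := k) hy
  field_simp

theorem wt_pos {Ω : Finset α} {k : α → κ} {x : α} (hx : x ∈ Ω) : 0 < wt Ω k x := fib_card_pos hx

theorem wt_congr' {Ω : Finset α} {F : α → β} {G : α → γ} {x : α}
    (h : ∀ y ∈ Ω, F y = F x ↔ G y = G x) : wt Ω F x = wt Ω G x := by
  unfold wt fib
  rw [Finset.filter_congr h]

/-- the numerator of `cmi`, by fibres -/
theorem cmi_num (Ω : Finset α) (k : α → κ) (f : α → β) (g : α → γ) :
    ∑ x ∈ Ω, Real.log ((wt Ω (fun y => (k y, f y, g y)) x * wt Ω k x) /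
      (wt Ω (fun y => (k y, f y)) x * wt Ω (fun y => (k y, g y)) x)) =
    ∑ x ∈ Ω, cellS (fib Ω k x) f g / ((fib Ω k x).card : ℝ) := by
  rw [← sum_fib Ω k]
  refine Finset.sum_congr rfl fun x _ => ?_
  congr 1
  unfold cellS
  refine Finset.sum_congr rfl fun y hy => ?_
  obtain ⟨-, hk⟩ := mem_fib.1 hy
  have e1 : fib Ω (fun y => (k y, f y, g y)) y =
      (fib Ω k x).filter fun z => f z = f y ∧ g z = g y := by
    ext z
    simp only [fib, Finset.mem_filter, Prod.mk.injEq, hk]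
    tauto
  have e2 : fib Ω (fun y => (k y, f y)) y = (fib Ω k x).filter fun z => f z = f y := by
    ext z
    simp only [fib, Finset.mem_filter, Prod.mk.injEq, hk]
    tauto
  have e3 : fib Ω (fun y => (k y, g y)) y = (fib Ω k x).filter fun z => g z = g y := by
    ext z
    simp only [fib, Finset.mem_filter, Prod.mk.injEq, hk]
    tauto
  unfold wt
  rw [e1, e2, e3, fib_eq hk]

end cell

theorem cmi_nonneg (Ω : Finset α) (k : α → κ) (f : α → β) (g : α → γ) : 0 ≤ cmi Ω k f g := by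
  unfold cmi
  rw [cmi_num]
  exact div_nonneg (Finset.sum_nonneg fun x _ =>
    div_nonneg (pinsker_cell _ f g).1 (Nat.cast_nonneg _)) (Nat.cast_nonneg _)

theorem dfc_nonneg (Ω : Finset α) (k : α → κ) (f : α → β) (g : α → γ) : 0 ≤ dfc Ω k f g := by
  unfold dfc
  refine div_nonneg (Finset.sum_nonneg fun x _ => ?_) (Nat.cast_nonneg _)
  unfold l1
  exact div_nonneg (Finset.sum_nonneg fun u _ => Finset.sum_nonneg fun v _ => abs_nonneg _)
    (Nat.cast_nonneg _)

theorem pinsker (Ω : Finset α) (k : α → κ) (f : α → β) (g : α → γ) :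
    dfc Ω k f g ^ 2 ≤ 4 * cmi Ω k f g := by
  rcases Ω.eq_empty_or_nonempty with rfl | hΩ
  · simp [dfc, cmi]
  have hN : (0 : ℝ) < Ω.card := by exact_mod_cast hΩ.card_pos
  unfold dfc cmi
  rw [cmi_num]
  have h1 : ∀ x ∈ Ω, l1 (fib Ω k x) f g ^ 2 ≤
      4 * (cellS (fib Ω k x) f g / ((fib Ω k x).card : ℝ)) := by
    intro x hx
    have h2 := (pinsker_cell (fib Ω k x) f g).2
    have h3 := fib_card_pos (k := k) hx
    rw [← mul_div_assoc, le_div_iff₀ h3]
    exact h2
  have h2 : (∑ x ∈ Ω, l1 (fib Ω k x) f g) ^ 2 ≤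
      Ω.card * ∑ x ∈ Ω, l1 (fib Ω k x) f g ^ 2 := sq_sum_le_card_mul_sum_sq
  have h3 : ∑ x ∈ Ω, l1 (fib Ω k x) f g ^ 2 ≤
      4 * ∑ x ∈ Ω, cellS (fib Ω k x) f g / ((fib Ω k x).card : ℝ) := by
    rw [Finset.mul_sum]
    exact Finset.sum_le_sum h1
  rw [div_pow, ← mul_div_assoc, div_le_div_iff₀ (by positivity) hN]
  have h4 : (∑ x ∈ Ω, l1 (fib Ω k x) f g) ^ 2 ≤
      Ω.card * (4 * ∑ x ∈ Ω, cellS (fib Ω k x) f g / ((fib Ω k x).card : ℝ)) :=
    h2.trans (mul_le_mul_of_nonneg_left h3 hN.le)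
  calc (∑ x ∈ Ω, l1 (fib Ω k x) f g) ^ 2 * (Ω.card : ℝ) ≤
      Ω.card * (4 * ∑ x ∈ Ω, cellS (fib Ω k x) f g / ((fib Ω k x).card : ℝ)) * Ω.card :=
        mul_le_mul_of_nonneg_right h4 hN.le
    _ = 4 * (∑ x ∈ Ω, cellS (fib Ω k x) f g / ((fib Ω k x).card : ℝ)) * (Ω.card : ℝ) ^ 2 := by
        ring

theorem cmi_chain (Ω : Finset α) (k : α → κ) (f : α → β) (f' : α → β') (g : α → γ)
    (hff : ∀ x ∈ Ω, ∀ y ∈ Ω, f' x = f' y → f x = f y) :
    cmi Ω k f' g = cmi Ω k f g + cmi Ω (fun x => (k x, f x)) f' g := by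
  unfold cmi
  rw [← add_div, ← Finset.sum_add_distrib]
  congr 1
  refine Finset.sum_congr rfl fun x hx => ?_
  have e1 : wt Ω (fun y => ((k y, f y), f' y, g y)) x = wt Ω (fun y => (k y, f' y, g y)) x := by
    refine wt_congr' fun y hy => ?_
    simp only [Prod.mk.injEq]
    constructor
    · rintro ⟨⟨h1, h2⟩, h3, h4⟩
      exact ⟨h1, h3, h4⟩
    · rintro ⟨h1, h3, h4⟩
      exact ⟨⟨h1, hff y hy x hx h3⟩, h3, h4⟩
  have e2 : wt Ω (fun y => ((k y, f y), f' y)) x = wt Ω (fun y => (k y, f' y)) x := by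
    refine wt_congr' fun y hy => ?_
    simp only [Prod.mk.injEq]
    constructor
    · rintro ⟨⟨h1, h2⟩, h3⟩
      exact ⟨h1, h3⟩
    · rintro ⟨h1, h3⟩
      exact ⟨⟨h1, hff y hy x hx h3⟩, h3⟩
  have e3 : wt Ω (fun y => ((k y, f y), g y)) x = wt Ω (fun y => (k y, f y, g y)) x := by
    refine wt_congr' fun y hy => ?_
    simp only [Prod.mk.injEq]
    tauto
  rw [e1, e2, e3]
  have p1 : 0 < wt Ω (fun y => (k y, f' y, g y)) x := wt_pos hx
  have p2 : 0 < wt Ω (fun y => (k y, f' y)) x := wt_pos hx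
  have p3 : 0 < wt Ω (fun y => (k y, f y, g y)) x := wt_pos hx
  have p4 : 0 < wt Ω k x := wt_pos hx
  have p5 : 0 < wt Ω (fun y => (k y, f y)) x := wt_pos hx
  have p6 : 0 < wt Ω (fun y => (k y, g y)) x := wt_pos hx
  rw [← Real.log_mul (by positivity) (by positivity)]
  congr 1
  field_simp

end Pool.Agent.Lib.P51n
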