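import Pool.Agent.Lib.P51a855.Defs

/-!
Definitions for the negative half of MP_51a855_an (smoothness `r ≥ 1`): dyadic levels of integer
vectors, the dual group of a Korobov formula, lattices at a position, shapes, closeness.
-/

set_option autoImplicit false

open scoped BigOperators

noncomputable section

namespace Pool.Agent.Lib.P51n

open Pool.Agent.Lib.P51a855

variable {d : ℕ}

/-- The dyadic level of an integer vector: `lev k j = 0` iff `k_j = 0`, and otherwise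
`2^(lev k j - 1) ≤ |k_j| < 2^(lev k j)`. -/
def lev (k : Fin d → ℤ) : Fin d → ℕ := fun j => Nat.size (k j).natAbs

/-- The dual group `{k : m ∣ k · a}` of the Korobov formula. -/
def dual (m : ℕ) (a : Fin d → ℤ) : AddSubgroup (Fin d → ℤ) where
  carrier := {k | (m : ℤ) ∣ ∑ j, k j * a j}
  zero_mem' := by simp
  add_mem' := by
    intro x y hx hy
    simp only [Set.mem_ofPred_eq, Pi.add_apply, add_mul, Finset.sum_add_distrib] at *
    exact dvd_add hx hy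
  neg_mem' := by
    intro x hx
    simp only [Set.mem_ofPred_eq, Pi.neg_apply, neg_mul, Finset.sum_neg_distrib] at *
    exact (dvd_neg).2 hx

/-- The dyadic blocks met by a subgroup of `ℤ^d` outside the origin. -/
def blocks (Γ : AddSubgroup (Fin d → ℤ)) : Set (Fin d → ℕ) :=
  {s | ∃ k ∈ Γ, k ≠ 0 ∧ lev k = s}

open Classical in
/-- The finite set of the blocks `s` met by `Γ` with `|s| ≤ T`. -/
def lowBlocks (T : ℕ) (Γ : AddSubgroup (Fin d → ℤ)) : Finset (Fin d → ℕ) :=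
  (Fintype.piFinset fun _ : Fin d => Finset.range (T + 1)).filter
    fun s => ∑ j, s j ≤ T ∧ s ∈ blocks Γ

/-- `∑_{s ∈ blocks, |s| ≤ T} 2^(T-|s|)`. -/
def cost (T : ℕ) (Γ : AddSubgroup (Fin d → ℤ)) : ℝ :=
  ∑ s ∈ lowBlocks T Γ, (2 : ℝ) ^ (T - ∑ j, s j)

/-- The properties of the lattices of an optimal Korobov formula that are used. -/
structure Good (T : ℕ) (C : ℝ) (Γ : AddSubgroup (Fin d → ℤ)) : Prop where
  index_ne : Γ.index ≠ 0
  index_le : Γ.index ≤ 2 ^ (T + 1)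
  le_index : (2 : ℝ) ^ T ≤ C * Γ.index
  cost_le : cost T Γ ≤ C * (T : ℝ) ^ (d - 1)

/-- An optimal family at level `T`. -/
structure Fam (T : ℕ) (C : ℝ) (G : Finset (AddSubgroup (Fin d → ℤ))) : Prop where
  card_le : G.card ≤ 2 ^ T
  le_card : (2 : ℝ) ^ T ≤ C * G.card
  good : ∀ Γ ∈ G, Good T C Γ

/-! ### Lattices at a position `s`: the coordinate `j` is measured in the unit `2^(s j)` -/

/-- no nonzero vector in the box of size `ρ` -/
def Sys (ρ : ℝ) (s : Fin d → ℝ) (Γ : AddSubgroup (Fin d → ℤ)) : Prop :=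
  ∀ k ∈ Γ, k ≠ 0 → ∃ j, ρ * (2 : ℝ) ^ (s j) ≤ |(k j : ℝ)|

/-- the vectors in the box of size `R` span `ℝ^d` -/
def Spn (R : ℝ) (s : Fin d → ℝ) (Γ : AddSubgroup (Fin d → ℤ)) : Prop :=
  ∃ v : Fin d → Fin d → ℤ, (∀ i, v i ∈ Γ) ∧
    LinearIndependent ℝ (fun i j => (v i j : ℝ)) ∧ ∀ i j, |(v i j : ℝ)| ≤ R * (2 : ℝ) ^ (s j)

/-- admissible positions of level `T` -/
def Pos (T : ℝ) (s : Fin d → ℝ) : Prop := (∀ j, 0 ≤ s j) ∧ ∑ j, s j = T

/-! ### Shapes -/

/-- `c_s(i,j) = s_j - s_i` -/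
def cs (s : Fin d → ℝ) : Fin d → Fin d → ℝ := fun i j => s j - s i

/-- The triangle inequality. -/
def Tri (c : Fin d → Fin d → ℝ) : Prop := (∀ i, c i i = 0) ∧ ∀ i j k, c i k ≤ c i j + c j k

/-- Admissible shapes of level `T`. -/
def Adm (T : ℝ) (c : Fin d → Fin d → ℝ) : Prop :=
  Tri c ∧ ∃ s, Pos T s ∧ ∀ i j, cs s i j ≤ c i j

/-! ### Closeness -/

/-- the real vector of an integer vector -/
def rv (k : Fin d → ℤ) : Fin d → ℝ := fun j => (k j : ℝ)

/-- `h` maps `Γ` onto `Γ'`. -/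
def Disp (h : Matrix (Fin d) (Fin d) ℝ) (Γ Γ' : AddSubgroup (Fin d → ℤ)) : Prop :=
  (∀ k ∈ Γ, ∃ k' ∈ Γ', h.mulVec (rv k) = rv k') ∧ ∀ k' ∈ Γ', ∃ k ∈ Γ, h.mulVec (rv k) = rv k'

/-- `|h - 1| ≤ κ 2^{-c}` entrywise. -/
def NearOne (κ : ℝ) (c : Fin d → Fin d → ℝ) (h : Matrix (Fin d) (Fin d) ℝ) : Prop :=
  ∀ i j, |h i j - (1 : Matrix (Fin d) (Fin d) ℝ) i j| ≤ κ * (2 : ℝ) ^ (-c i j)

/-- closeness of two lattices in shape `c` -/
def Near (κ : ℝ) (c : Fin d → Fin d → ℝ) (Γ Γ' : AddSubgroup (Fin d → ℤ)) : Prop :=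
  ∃ h, Disp h Γ Γ' ∧ NearOne κ c h

open Classical in
/-- the number of members of the family close to `Γ` -/
def ncard (G : Finset (AddSubgroup (Fin d → ℤ))) (κ : ℝ) (c : Fin d → Fin d → ℝ)
    (Γ : AddSubgroup (Fin d → ℤ)) : ℕ := (G.filter fun Γ' => Near κ c Γ Γ').card

/-- the information of the closeness class of `Γ` -/
def info (G : Finset (AddSubgroup (Fin d → ℤ))) (κ : ℝ) (c : Fin d → Fin d → ℝ)
    (Γ : AddSubgroup (Fin d → ℤ)) : ℝ := Real.logb 2 (G.card / ncard G κ c Γ)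

end Pool.Agent.Lib.P51n
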