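import Pool.Agent.Lib.P51n.Defs

/-!
# P51n.DualIndex  (about 0.4 h)

`dual m a` is the kernel of `k ↦ ∑ k_j a_j`, `ℤ^d → ZMod m`, so its index is the cardinality of a
subgroup of `ZMod m`, a divisor of `m`.
-/

set_option autoImplicit false

noncomputable section

namespace Pool.Agent.Lib.P51n

/-- the homomorphism `k ↦ ∑ k_j a_j` to `ZMod m` -/
private def DualIndex_hom {d : ℕ} (m : ℕ) (a : Fin d → ℤ) : (Fin d → ℤ) →+ ZMod m where
  toFun k := ((∑ j, k j * a j : ℤ) : ZMod m)
  map_zero' := by simp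
  map_add' x y := by
    simp only [Pi.add_apply, add_mul, Finset.sum_add_distrib, Int.cast_add]

theorem dual_index_dvd {d : ℕ} {m : ℕ} (hm : 1 ≤ m) (a : Fin d → ℤ) : (dual m a).index ∣ m := by
  have h1 : dual m a = (DualIndex_hom m a).ker := by
    ext k
    rw [AddMonoidHom.mem_ker]
    change (m : ℤ) ∣ ∑ j, k j * a j ↔ ((∑ j, k j * a j : ℤ) : ZMod m) = 0
    rw [ZMod.intCast_zmod_eq_zero_iff_dvd]
  have : NeZero m := ⟨by omega⟩
  rw [h1, AddSubgroup.index_ker]
  have h2 := AddSubgroup.card_addSubgroup_dvd_card (DualIndex_hom m a).range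
  rwa [Nat.card_zmod] at h2

end Pool.Agent.Lib.P51n
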