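import Pool.Agent.Lib.P51n.Defs

/-!
# P51n.EvCount  (about 1.2 h)

Excursions produce low blocks.

`Ev i₁ R j s Γ`: at the position `s`, `Γ` has a vector whose `i₁`-th rescaled coordinate is about
`2^{-j}` and whose other rescaled coordinates are between `R` and `5R`.

Proof of `event_count`.  Let `σ ∈ P` with `Ev i₁ R j (σ+v) Γ`, with the vector `k`, and `s = lev k`
(`2^{s_l - 1} ≤ |k_l| < 2^{s_l}`, all `k_l ≠ 0`).  Then
`s_l ≤ 1 + log₂|k_l| ≤ 1 + σ_l + v_l + log₂(5R)` (`l ≠ i₁`), `s_{i₁} ≤ 1 + σ_{i₁} + v_{i₁} + 1 - j`,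
so `∑ s ≤ T - j + K` with `K = ⌈(d-1)(1 + log₂(5R)) + 2⌉`; for `j ≥ J₀ := K`, `s ∈ lowBlocks T Γ`.
Conversely, given `s` and `j`, `σ_l + v_l` lies in the interval `(s_l - 1 - log₂(5R), s_l - log₂ R)`
of length `< 4` for `l ≠ i₁`, and `σ_{i₁} + v_{i₁}` lies in `(s_{i₁} - 2 + j, s_{i₁} + j + 2)`, of
length `4`; so at most `5^d` points `σ` belong to `(s, j)`.  Hence
`∑_j 2^j #{σ} ≤ 5^d ∑_{s ∈ lowBlocks} ∑_{j ≤ T - ∑s + K} 2^j ≤ 5^d 2^(K+1) cost T Γ`.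
-/

set_option autoImplicit false

noncomputable section

namespace Pool.Agent.Lib.P51n

/-- Excursion event. -/
def Ev {d : ℕ} (i₁ : Fin d) (R : ℝ) (j : ℕ) (s : Fin d → ℝ) (Γ : AddSubgroup (Fin d → ℤ)) :
    Prop :=
  ∃ k ∈ Γ, (1 / 4) * (1 / 2 : ℝ) ^ j ≤ |(k i₁ : ℝ)| * (2 : ℝ) ^ (-s i₁) ∧
    |(k i₁ : ℝ)| * (2 : ℝ) ^ (-s i₁) ≤ 2 * (1 / 2 : ℝ) ^ j ∧
    ∀ l, l ≠ i₁ → R ≤ |(k l : ℝ)| * (2 : ℝ) ^ (-s l) ∧ |(k l : ℝ)| * (2 : ℝ) ^ (-s l) ≤ 5 * R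

namespace EvCountAux

theorem size_bounds {k : ℤ} (hk : k ≠ 0) :
    (2 : ℝ) ^ ((Nat.size k.natAbs : ℝ) - 1) ≤ |(k : ℝ)| ∧
      |(k : ℝ)| < (2 : ℝ) ^ (Nat.size k.natAbs : ℝ) := by
  have hn : 0 < k.natAbs := Int.natAbs_pos.2 hk
  have habs : |(k : ℝ)| = ((k.natAbs : ℕ) : ℝ) := by
    rw [Nat.cast_natAbs, Int.cast_abs]
  have hs : 0 < Nat.size k.natAbs := Nat.size_pos.2 hn
  rw [habs]
  constructor
  · have h1 : 2 ^ (Nat.size k.natAbs - 1) ≤ k.natAbs := Nat.lt_size.1 (by omega)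
    have h2 : ((Nat.size k.natAbs : ℝ) - 1) = ((Nat.size k.natAbs - 1 : ℕ) : ℝ) := by
      rw [Nat.cast_sub (by omega)]
      simp
    rw [h2, Real.rpow_natCast]
    exact_mod_cast h1
  · rw [Real.rpow_natCast]
    exact_mod_cast Nat.lt_size_self _

theorem half_pow (j : ℕ) : (1 / 2 : ℝ) ^ j = (2 : ℝ) ^ (-(j : ℝ)) := by
  rw [Real.rpow_neg (by norm_num), Real.rpow_natCast, one_div, inv_pow]

theorem lt_of_pow {a b : ℝ} (h : (2 : ℝ) ^ a < (2 : ℝ) ^ b) : a < b :=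
  (Real.rpow_lt_rpow_left_iff (by norm_num)).1 h

theorem le_of_pow {a b : ℝ} (h : (2 : ℝ) ^ a ≤ (2 : ℝ) ^ b) : a ≤ b :=
  (Real.rpow_le_rpow_left_iff (by norm_num)).1 h

theorem undo {x b c : ℝ} (h : c ≤ x * (2 : ℝ) ^ (-b)) : c * (2 : ℝ) ^ b ≤ x := by
  have h0 : (0 : ℝ) < (2 : ℝ) ^ b := Real.rpow_pos_of_pos (by norm_num) _
  calc c * (2 : ℝ) ^ b ≤ x * (2 : ℝ) ^ (-b) * (2 : ℝ) ^ b := by gcongr
    _ = x := by rw [mul_assoc, ← Real.rpow_add (by norm_num), neg_add_cancel, Real.rpow_zero,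
        mul_one]

theorem undo' {x b c : ℝ} (h : x * (2 : ℝ) ^ (-b) ≤ c) : x ≤ c * (2 : ℝ) ^ b := by
  have h0 : (0 : ℝ) < (2 : ℝ) ^ b := Real.rpow_pos_of_pos (by norm_num) _
  calc x = x * (2 : ℝ) ^ (-b) * (2 : ℝ) ^ b := by
        rw [mul_assoc, ← Real.rpow_add (by norm_num), neg_add_cancel, Real.rpow_zero, mul_one]
    _ ≤ c * (2 : ℝ) ^ b := by gcongr

/-- The block of an excursion. -/
theorem ev_lev {d : ℕ} {R : ℝ} (hR : 1 ≤ R) {L : ℕ} (hL : 5 * R ≤ (2 : ℝ) ^ (L : ℝ))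
    {i₁ : Fin d} {j : ℕ} {b : Fin d → ℝ} {Γ : AddSubgroup (Fin d → ℤ)} (h : Ev i₁ R j b Γ) :
    ∃ s ∈ blocks Γ, (∀ l, l ≠ i₁ → (s l : ℝ) - 1 - L ≤ b l ∧ b l < s l) ∧
      (s i₁ : ℝ) + j - 2 ≤ b i₁ ∧ b i₁ < s i₁ + j + 2 := by
  obtain ⟨k, hk, h1, h2, h3⟩ := h
  have hpos : ∀ x : ℝ, (0 : ℝ) < (2 : ℝ) ^ x := fun x => Real.rpow_pos_of_pos (by norm_num) _
  have hi : k i₁ ≠ 0 := by
    intro h0
    rw [h0] at h1
    simp only [Int.cast_zero, abs_zero, zero_mul] at h1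
    have : (0 : ℝ) < (1 / 4) * (1 / 2 : ℝ) ^ j := by positivity
    linarith
  have hl : ∀ l, l ≠ i₁ → k l ≠ 0 := by
    intro l hl h0
    have h4 := (h3 l hl).1
    rw [h0] at h4
    simp only [Int.cast_zero, abs_zero, zero_mul] at h4
    linarith
  refine ⟨lev k, ⟨k, hk, fun h0 => hi (by rw [h0]; rfl), rfl⟩, fun l hl' => ?_, ?_, ?_⟩
  · obtain ⟨h4, h5⟩ := h3 l hl'
    obtain ⟨h6, h7⟩ := size_bounds (hl l hl')
    constructor
    · have h8 : (2 : ℝ) ^ (((lev k l : ℕ) : ℝ) - 1) ≤ (2 : ℝ) ^ ((L : ℝ) + b l) := by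
        refine h6.trans ((undo' h5).trans ?_)
        rw [Real.rpow_add (by norm_num)]
        exact mul_le_mul_of_nonneg_right hL (hpos _).le
      linarith [le_of_pow h8]
    · refine lt_of_pow (lt_of_le_of_lt ?_ h7)
      refine le_trans ?_ (undo h4)
      exact le_mul_of_one_le_left (hpos _).le hR
  · obtain ⟨h6, h7⟩ := size_bounds hi
    have h8 : (2 : ℝ) ^ (((lev k i₁ : ℕ) : ℝ) - 1) ≤ (2 : ℝ) ^ (1 + -(j : ℝ) + b i₁) := by
      refine h6.trans ((undo' h2).trans (le_of_eq ?_))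
      rw [half_pow, Real.rpow_add (by norm_num), Real.rpow_add (by norm_num), Real.rpow_one]
    linarith [le_of_pow h8]
  · obtain ⟨h6, h7⟩ := size_bounds hi
    have h8 : (2 : ℝ) ^ (-2 + -(j : ℝ) + b i₁) < (2 : ℝ) ^ ((lev k i₁ : ℕ) : ℝ) := by
      refine lt_of_le_of_lt (le_of_eq_of_le ?_ (undo h1)) h7
      rw [half_pow, Real.rpow_add (by norm_num), Real.rpow_add (by norm_num)]
      congr 2
      rw [Real.rpow_neg (by norm_num)]
      norm_num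
    linarith [lt_of_pow h8]

/-- The number of the points with a given block. -/
theorem fiber_card {d : ℕ} {L : ℕ} (i₁ : Fin d) (j : ℕ) (v : Fin d → ℝ) (s : Fin d → ℕ)
    (F : Finset (Fin d → ℤ))
    (h : ∀ σ ∈ F, (∀ l, l ≠ i₁ → (s l : ℝ) - 1 - L ≤ (σ l : ℝ) + v l ∧ (σ l : ℝ) + v l < s l) ∧
      (s i₁ : ℝ) + j - 2 ≤ (σ i₁ : ℝ) + v i₁ ∧ (σ i₁ : ℝ) + v i₁ < s i₁ + j + 2) :
    F.card ≤ (L + 5) ^ d := by
  classical
  set a : Fin d → ℤ := fun l => if l = i₁ then ⌈(s i₁ : ℝ) + j - 2 - v i₁⌉ else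
    ⌈(s l : ℝ) - 1 - L - v l⌉ with ha
  have hsub : F ⊆ Fintype.piFinset fun l => Finset.Icc (a l) (a l + (L + 4 : ℕ)) := by
    intro σ hσ
    rw [Fintype.mem_piFinset]
    intro l
    obtain ⟨h1, h2, h3⟩ := h σ hσ
    rw [Finset.mem_Icc]
    by_cases hl : l = i₁
    · subst hl
      simp only [ha, if_true]
      constructor
      · rw [Int.ceil_le]
        linarith
      · have h4 := Int.le_ceil ((s l : ℝ) + j - 2 - v l)
        have h5 : (σ l : ℝ) < (⌈(s l : ℝ) + j - 2 - v l⌉ : ℝ) + 4 := by linarith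
        have h6 : σ l < ⌈(s l : ℝ) + j - 2 - v l⌉ + 4 := by exact_mod_cast h5
        push_cast
        have : (0 : ℤ) ≤ (L : ℤ) := by positivity
        omega
    · obtain ⟨h4, h5⟩ := h1 l hl
      simp only [ha, if_neg hl]
      constructor
      · rw [Int.ceil_le]
        linarith
      · have h6 := Int.le_ceil ((s l : ℝ) - 1 - L - v l)
        have h7 : (σ l : ℝ) < (⌈(s l : ℝ) - 1 - L - v l⌉ : ℝ) + (1 + L) := by linarith
        have h8 : σ l < ⌈(s l : ℝ) - 1 - L - v l⌉ + (1 + L) := by exact_mod_cast h7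
        push_cast
        omega
  refine (Finset.card_le_card hsub).trans ?_
  rw [Fintype.card_piFinset]
  refine le_of_eq ?_
  rw [Finset.prod_congr rfl (g := fun _ => L + 5) fun l _ => ?_]
  · rw [Finset.prod_const, Finset.card_univ, Fintype.card_fin]
  · rw [Int.card_Icc]
    push_cast
    omega

theorem block_sum {d : ℕ} {L : ℕ} {i₁ : Fin d} {j : ℕ} {v : Fin d → ℝ} (hv : ∑ l, v l = 0)
    {s : Fin d → ℕ} {σ : Fin d → ℤ} {T : ℕ} (hσ : ∑ l, σ l = (T : ℤ))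
    (h1 : ∀ l, l ≠ i₁ → (s l : ℝ) - 1 - L ≤ (σ l : ℝ) + v l)
    (h2 : (s i₁ : ℝ) + j - 2 ≤ (σ i₁ : ℝ) + v i₁) :
    j + ∑ l, s l ≤ T + (d * (1 + L) + 2) := by
  have h3 : ∀ l, (s l : ℝ) ≤ (σ l : ℝ) + v l + (1 + L) + (if l = i₁ then (2 - j : ℝ) else 0) := by
    intro l
    by_cases hl : l = i₁
    · subst hl
      rw [if_pos rfl]
      have : (0 : ℝ) ≤ (L : ℝ) := by positivity
      linarith
    · rw [if_neg hl]
      linarith [h1 l hl]
  have h4 := Finset.sum_le_sum fun l (_ : l ∈ Finset.univ) => h3 l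
  simp only [Finset.sum_add_distrib, Finset.sum_const, Finset.card_univ, Fintype.card_fin,
    nsmul_eq_mul, Finset.sum_ite_eq', Finset.mem_univ, if_true, hv] at h4
  have h5 : (∑ l, (σ l : ℝ)) = T := by exact_mod_cast hσ
  rw [h5] at h4
  have h6 : (j : ℝ) + ∑ l, (s l : ℝ) ≤ T + (d * (1 + L) + 2) := by linarith
  exact_mod_cast h6

theorem geom_le (J₀ J M : ℕ) :
    ∑ j ∈ (Finset.Icc J₀ J).filter (fun j => j ≤ M), (2 : ℝ) ^ j ≤ 2 ^ (M + 1) := by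
  have h1 : (Finset.Icc J₀ J).filter (fun j => j ≤ M) ⊆ Finset.range (M + 1) := by
    intro j hj
    rw [Finset.mem_filter] at hj
    rw [Finset.mem_range]
    omega
  refine (Finset.sum_le_sum_of_subset_of_nonneg h1 fun _ _ _ => by positivity).trans ?_
  rw [geom_sum_eq (by norm_num)]
  norm_num

end EvCountAux

open EvCountAux

open Classical in
theorem event_count (d : ℕ) (R : ℝ) (hR : 1 ≤ R) :
    ∃ (C₁ : ℝ) (J₀ : ℕ), 0 < C₁ ∧ ∀ (T : ℕ) (Γ : AddSubgroup (Fin d → ℤ)) (i₁ : Fin d)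
      (v : Fin d → ℝ), ∑ j, v j = 0 → ∀ P : Finset (Fin d → ℤ),
      (∀ σ ∈ P, ∑ j, σ j = (T : ℤ)) → ∀ J : ℕ,
      ∑ j ∈ Finset.Icc J₀ J, (2 : ℝ) ^ j *
        ((P.filter fun σ => Ev i₁ R j (fun l => (σ l : ℝ) + v l) Γ).card : ℝ) ≤
      C₁ * cost T Γ := by
  obtain ⟨L, hL⟩ : ∃ L : ℕ, 5 * R ≤ (2 : ℝ) ^ (L : ℝ) := by
    obtain ⟨L, hL⟩ := pow_unbounded_of_one_lt (5 * R) (by norm_num : (1 : ℝ) < 2)
    exact ⟨L, by rw [Real.rpow_natCast]; exact hL.le⟩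
  set K : ℕ := d * (1 + L) + 2 with hK
  refine ⟨((L : ℝ) + 5) ^ d * 2 ^ (K + 1), K, by positivity, fun T Γ i₁ v hv P hP J => ?_⟩
  -- the bound for one `j`
  have key : ∀ j ∈ Finset.Icc K J,
      ((P.filter fun σ => Ev i₁ R j (fun l => (σ l : ℝ) + v l) Γ).card : ℝ) ≤
        ((L : ℝ) + 5) ^ d * (((lowBlocks T Γ).filter fun s => j ≤ T + K - ∑ l, s l).card : ℝ) := by
    intro j hj
    have hj' := (Finset.mem_Icc.1 hj).1
    have hch : ∀ σ : Fin d → ℤ, ∃ s : Fin d → ℕ,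
        Ev i₁ R j (fun l => (σ l : ℝ) + v l) Γ → s ∈ blocks Γ ∧
        (∀ l, l ≠ i₁ → (s l : ℝ) - 1 - L ≤ (σ l : ℝ) + v l ∧ (σ l : ℝ) + v l < s l) ∧
        (s i₁ : ℝ) + j - 2 ≤ (σ i₁ : ℝ) + v i₁ ∧ (σ i₁ : ℝ) + v i₁ < s i₁ + j + 2 := by
      intro σ
      by_cases h : Ev i₁ R j (fun l => (σ l : ℝ) + v l) Γ
      · obtain ⟨s, hs, h1, h2⟩ := ev_lev hR hL h
        exact ⟨s, fun _ => ⟨hs, h1, h2⟩⟩
      · exact ⟨0, fun h' => absurd h' h⟩
    choose g hg using hch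
    have hmaps : ∀ σ ∈ P.filter fun σ => Ev i₁ R j (fun l => (σ l : ℝ) + v l) Γ,
        g σ ∈ (lowBlocks T Γ).filter fun s => j ≤ T + K - ∑ l, s l := by
      intro σ hσ
      obtain ⟨hσP, hσE⟩ := Finset.mem_filter.1 hσ
      obtain ⟨h1, h2, h3, h4⟩ := hg σ hσE
      have h5 := block_sum hv (hP σ hσP) (fun l hl => (h2 l hl).1) h3
      rw [← hK] at h5
      have h6 : ∑ l, g σ l ≤ T := by omega
      rw [Finset.mem_filter]
      refine ⟨?_, by omega⟩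
      unfold lowBlocks
      rw [Finset.mem_filter, Fintype.mem_piFinset]
      refine ⟨fun l => ?_, h6, h1⟩
      rw [Finset.mem_range]
      have h7 : g σ l ≤ ∑ l, g σ l :=
        Finset.single_le_sum (f := fun l => g σ l) (fun _ _ => Nat.zero_le _) (Finset.mem_univ l)
      omega
    have h1 := Finset.card_eq_sum_card_fiberwise hmaps
    rw [h1]
    push_cast
    have h2 : ∀ s ∈ (lowBlocks T Γ).filter fun s => j ≤ T + K - ∑ l, s l,
        ((((P.filter fun σ => Ev i₁ R j (fun l => (σ l : ℝ) + v l) Γ).filter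
          fun σ => g σ = s).card : ℕ) : ℝ) ≤ ((L : ℝ) + 5) ^ d := by
      intro s _
      have h3 := fiber_card (L := L) i₁ j v s
        ((P.filter fun σ => Ev i₁ R j (fun l => (σ l : ℝ) + v l) Γ).filter fun σ => g σ = s)
        (fun σ hσ => by
          obtain ⟨h4, h5⟩ := Finset.mem_filter.1 hσ
          have h6 := (hg σ (Finset.mem_filter.1 h4).2).2
          rw [h5] at h6
          exact h6)
      exact_mod_cast h3
    refine (Finset.sum_le_sum h2).trans ?_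
    rw [Finset.sum_const, nsmul_eq_mul, mul_comm]
  calc ∑ j ∈ Finset.Icc K J, (2 : ℝ) ^ j *
        ((P.filter fun σ => Ev i₁ R j (fun l => (σ l : ℝ) + v l) Γ).card : ℝ)
      ≤ ∑ j ∈ Finset.Icc K J, (2 : ℝ) ^ j * (((L : ℝ) + 5) ^ d *
        (((lowBlocks T Γ).filter fun s => j ≤ T + K - ∑ l, s l).card : ℝ)) :=
        Finset.sum_le_sum fun j hj => mul_le_mul_of_nonneg_left (key j hj) (by positivity)
    _ = ((L : ℝ) + 5) ^ d * ∑ s ∈ lowBlocks T Γ,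
        ∑ j ∈ (Finset.Icc K J).filter (fun j => j ≤ T + K - ∑ l, s l), (2 : ℝ) ^ j := by
        rw [Finset.mul_sum]
        simp_rw [Finset.sum_filter]
        have h1 : ∀ j ∈ Finset.Icc K J, (2 : ℝ) ^ j * (((L : ℝ) + 5) ^ d *
            (((lowBlocks T Γ).filter fun s => j ≤ T + K - ∑ l, s l).card : ℝ)) =
            ∑ s ∈ lowBlocks T Γ, ((L : ℝ) + 5) ^ d *
              (if j ≤ T + K - ∑ l, s l then (2 : ℝ) ^ j else 0) := by
          intro j _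
          rw [← Finset.mul_sum, ← Finset.sum_filter, Finset.sum_const, nsmul_eq_mul]
          ring
        rw [Finset.sum_congr rfl h1, Finset.sum_comm]
        refine Finset.sum_congr rfl fun s _ => ?_
        rw [Finset.mul_sum]
    _ ≤ ((L : ℝ) + 5) ^ d * ∑ s ∈ lowBlocks T Γ, 2 ^ (K + 1) * (2 : ℝ) ^ (T - ∑ l, s l) := by
        refine mul_le_mul_of_nonneg_left (Finset.sum_le_sum fun s hs => ?_) (by positivity)
        refine (geom_le K J _).trans (le_of_eq ?_)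
        have hs' : ∑ l, s l ≤ T := by
          unfold lowBlocks at hs
          exact (Finset.mem_filter.1 hs).2.1
        rw [← pow_add]
        congr 1
        omega
    _ = ((L : ℝ) + 5) ^ d * 2 ^ (K + 1) * cost T Γ := by
        unfold cost
        rw [← Finset.mul_sum, mul_assoc]

end Pool.Agent.Lib.P51n
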