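import Pool.Agent.Lib.P51n.Defs
import Pool.Agent.Lib.P51n0.Upper

/-!
# P51n.KappaUp  (Part 0b; Frolov cubature)

The optimal order upper bound for general cubature formulas, for `r ≥ 1`.
-/

set_option autoImplicit false

noncomputable section

namespace Pool.Agent.Lib.P51n

open Pool.Agent.Lib.P51a855
open scoped ENNReal

theorem kappa_upper (d l : ℕ) (hd : 1 ≤ d) (r : ℝ) (hr : 1 ≤ r) (hl : r < l) (p : ℝ≥0∞)
    (hp : 1 ≤ p) (hpr : 1 / p < ENNReal.ofReal r) : ∃ C : ℝ, 0 < C ∧ ∀ m : ℕ, 2 ≤ m →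
      kappa m (HClass d l r p) ≤ ENNReal.ofReal (C * (m : ℝ) ^ (-r) * Real.log m ^ (d - 1)) :=
  Pool.Agent.Lib.P51n0.kappa_upper d l hd r (by linarith) hl p hp hpr

end Pool.Agent.Lib.P51n
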