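import Pool.Agent.Lib.P51n.Defs
import Pool.Agent.Lib.P51n0.Defs
import Pool.Agent.Lib.P51a855.Hat

/-!
# P51n.TestLower  (Part 0a)

Lower bound for the error of a Korobov formula by a test function.

For every `s ∈ S` choose `k_s ∈ dual m a`, `k_s ≠ 0`, `lev k_s = s`, and let
`f = c₀ ∑_{s∈S} 2^{-r|s|} cos(k_s · x)`.
-/

set_option autoImplicit false

noncomputable section

namespace Pool.Agent.Lib.P51n

open MeasureTheory
open Pool.Agent.Lib.P51a855 Pool.Agent.Lib.P51n0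
open scoped ENNReal BigOperators

namespace TestLowerAux

variable {d : ℕ}

lemma abs_act_cosT_le (k : Fin d → ℤ) (a : TA d) (x : Torus d) :
    |act a (cosT k) x| ≤ ‖chi k a‖ := by
  have h := act_char k a x
  have h1 : act a (cosT k) x = (chi k a * eC k x).re := by
    rw [← h]; simp
  rw [h1]
  calc |(chi k a * eC k x).re| ≤ ‖chi k a * eC k x‖ := Complex.abs_re_le_norm _
    _ = ‖chi k a‖ := by rw [norm_mul, norm_eC, mul_one]

lemma norm_chi_diff_le (k : Fin d → ℤ) (l : ℕ) (e : Finset (Fin d)) (t : Fin d → ℝ) :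
    ‖chi k (∏ j ∈ e, (trj j (t j) - 1) ^ l)‖ ≤
      ∏ j ∈ e, (2 * min 1 ((2 : ℝ) ^ (lev k j) * |t j|)) ^ l := by
  rw [map_prod, norm_prod]
  refine Finset.prod_le_prod (fun _ _ => norm_nonneg _) fun j _ => ?_
  rw [map_pow, norm_pow]
  refine pow_le_pow_left₀ (norm_nonneg _) ?_ l
  rw [map_sub, chi_trj, map_one]
  have e1 : Complex.exp ((k j : ℂ) * (t j : ℂ) * Complex.I) =
      Complex.exp (Complex.I * (((k j : ℝ) * t j : ℝ) : ℂ)) := by
    congr 1
    push_cast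
    ring
  rw [e1]
  have h1 : ‖Complex.exp (Complex.I * (((k j : ℝ) * t j : ℝ) : ℂ)) - 1‖ ≤ 2 := by
    calc _ ≤ ‖Complex.exp (Complex.I * (((k j : ℝ) * t j : ℝ) : ℂ))‖ + ‖(1 : ℂ)‖ := norm_sub_le _ _
      _ = 2 := by
        rw [mul_comm, Complex.norm_exp_ofReal_mul_I, norm_one]; norm_num
  have h2 : ‖Complex.exp (Complex.I * (((k j : ℝ) * t j : ℝ) : ℂ)) - 1‖ ≤
      (2 : ℝ) ^ (lev k j) * |t j| := by
    rw [Complex.norm_exp_I_mul_ofReal_sub_one, Real.norm_eq_abs, abs_mul, abs_two]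
    have h3 : |Real.sin ((k j : ℝ) * t j / 2)| ≤ |(k j : ℝ) * t j / 2| := Real.abs_sin_le_abs
    have h4 : |((k j : ℤ) : ℝ)| ≤ (2 : ℝ) ^ (lev k j) := by
      have h5 : (k j).natAbs < 2 ^ (lev k j) := Nat.lt_size_self _
      have h6 : (((k j).natAbs : ℕ) : ℝ) < (2 : ℝ) ^ (lev k j) := by exact_mod_cast h5
      rw [Nat.cast_natAbs, Int.cast_abs] at h6
      exact h6.le
    calc 2 * |Real.sin ((k j : ℝ) * t j / 2)| ≤ 2 * |(k j : ℝ) * t j / 2| := by linarith
      _ = |(k j : ℝ)| * |t j| := by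
        rw [abs_div, abs_mul, abs_two]; ring
      _ ≤ (2 : ℝ) ^ (lev k j) * |t j| := mul_le_mul_of_nonneg_right h4 (abs_nonneg _)
  rcases le_total 1 ((2 : ℝ) ^ (lev k j) * |t j|) with h | h
  · rw [min_eq_left h]
    linarith
  · rw [min_eq_right h]
    have : 0 ≤ (2 : ℝ) ^ (lev k j) * |t j| := by positivity
    linarith

/-- sums over the scales of differences of order `l` -/
lemma scale_sum_pow {r : ℝ} {l : ℕ} (hr : 0 < r) (hl : r < l) : ∃ C : ℝ, 0 < C ∧
    ∀ (n : ℕ) (t : ℝ), ∑ s ∈ Finset.range (n + 1), (2 : ℝ) ^ (-(r * s)) *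
      (2 * min 1 ((2 : ℝ) ^ s * |t|)) ^ l ≤ C * |t| ^ r := by
  have hl0 : (0 : ℝ) < l := by linarith
  set ρ : ℝ := r / l with hρ
  have hρ0 : 0 < ρ := by positivity
  have hρ1 : ρ < 1 := by rw [hρ, div_lt_one hl0]; exact hl
  have hρl : ρ * l = r := by rw [hρ]; field_simp
  have hq1 : (1 : ℝ) < 2 ^ (1 - ρ) := Real.one_lt_rpow (by norm_num) (by linarith)
  have hq2 : (2 : ℝ) ^ (-ρ) < 1 := Real.rpow_lt_one_of_one_lt_of_neg (by norm_num) (by linarith)
  set A : ℝ := 2 / (2 ^ (1 - ρ) - 1) + 1 / (1 - (2 : ℝ) ^ (-ρ)) with hA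
  have hA0 : 0 < A := by
    have h1 : 0 < 2 / ((2 : ℝ) ^ (1 - ρ) - 1) := div_pos two_pos (by linarith)
    have h2 : 0 < 1 / (1 - (2 : ℝ) ^ (-ρ)) := div_pos one_pos (by linarith)
    linarith
  refine ⟨2 ^ l * A ^ l, by positivity, fun n t => ?_⟩
  set b : ℕ → ℝ := fun s => (2 : ℝ) ^ (-(ρ * s)) * min 1 ((2 : ℝ) ^ s * |t|) with hb
  have hb0 : ∀ s, 0 ≤ b s := fun s => by
    rw [hb]
    exact mul_nonneg (by positivity) (le_min zero_le_one (by positivity))
  have h1 : ∑ s ∈ Finset.range (n + 1), b s ≤ A * |t| ^ ρ := scale_sum_diff hρ0 hρ1 n t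
  have h2 : ∀ s : ℕ, (2 : ℝ) ^ (-(r * s)) * (2 * min 1 ((2 : ℝ) ^ s * |t|)) ^ l =
      2 ^ l * b s ^ l := by
    intro s
    rw [hb]
    dsimp only
    rw [mul_pow, mul_pow, ← Real.rpow_natCast ((2 : ℝ) ^ (-(ρ * s))) l, ← Real.rpow_mul (by norm_num)]
    have : -(ρ * s) * l = -(r * s) := by rw [← hρl]; ring
    rw [this]
    ring
  obtain ⟨l', rfl⟩ : ∃ l', l = l' + 1 := ⟨l - 1, by
    have : l ≠ 0 := by rintro rfl; simp at hl0
    omega⟩
  have h3 : ∑ s ∈ Finset.range (n + 1), b s ^ (l' + 1) ≤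
      (∑ s ∈ Finset.range (n + 1), b s) ^ (l' + 1) := by
    rw [pow_succ, Finset.mul_sum]
    refine Finset.sum_le_sum fun s hs => ?_
    rw [pow_succ]
    refine mul_le_mul_of_nonneg_right ?_ (hb0 s)
    exact pow_le_pow_left₀ (hb0 s) (Finset.single_le_sum (fun i _ => hb0 i) hs) _
  calc ∑ s ∈ Finset.range (n + 1), (2 : ℝ) ^ (-(r * s)) *
      (2 * min 1 ((2 : ℝ) ^ s * |t|)) ^ (l' + 1) =
      2 ^ (l' + 1) * ∑ s ∈ Finset.range (n + 1), b s ^ (l' + 1) := by
        rw [Finset.mul_sum]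
        exact Finset.sum_congr rfl fun s _ => h2 s
    _ ≤ 2 ^ (l' + 1) * (A * |t| ^ ρ) ^ (l' + 1) := by
        refine mul_le_mul_of_nonneg_left (h3.trans ?_) (by positivity)
        exact pow_le_pow_left₀ (Finset.sum_nonneg fun s _ => hb0 s) h1 _
    _ = 2 ^ (l' + 1) * A ^ (l' + 1) * |t| ^ r := by
        rw [mul_pow, ← Real.rpow_natCast (|t| ^ ρ) (l' + 1), ← Real.rpow_mul (abs_nonneg t), hρl]
        ring

lemma integral_fourier (k : ℤ) (hk : k ≠ 0) :
    ∫ x, (fourier k x : ℂ) ∂(AddCircle.haarAddCircle : Measure Circ) = 0 := by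
  have h := congrFun (fourierCoeff_fourier (T := 2 * Real.pi) k) 0
  unfold fourierCoeff at h
  simp only [neg_zero, fourier_zero, one_smul] at h
  rw [h]
  simp [Pi.single_eq_of_ne (Ne.symm hk)]

lemma mean_cosT (k : Fin d → ℤ) (hk : k ≠ 0) : mean (cosT k : Torus d → ℝ) = 0 := by
  obtain ⟨j, hj⟩ : ∃ j, k j ≠ 0 := by
    by_contra hcon
    push Not at hcon
    exact hk (funext hcon)
  have h1 : ∫ x : Torus d, eC k x ∂(haarT d) = 0 := by
    unfold haarT eC
    have h2 := integral_fintype_prod_eq_prod (𝕜 := ℂ) (ι := Fin d) (E := fun _ => Circ)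
      (μ := fun _ => AddCircle.haarAddCircle) (fun j y => (fourier (k j) y : ℂ))
    rw [h2]
    exact Finset.prod_eq_zero (Finset.mem_univ j) (integral_fourier (k j) hj)
  have h3 : Integrable (fun x : Torus d => eC k x) (haarT d) :=
    (continuous_eC k).integrable_of_hasCompactSupport (HasCompactSupport.of_compactSpace _)
  unfold mean
  have h4 : ∀ x : Torus d, cosT k x = RCLike.re (eC k x) := fun x => rfl
  simp_rw [h4]
  rw [integral_re h3, h1]
  simp

lemma korobov_cosT {m : ℕ} (hm : 1 ≤ m) (a : Fin d → ℤ) (k : Fin d → ℤ) (hk : k ∈ dual m a) :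
    korobov m a (cosT k : Torus d → ℝ) = 1 := by
  have hm0 : (m : ℝ) ≠ 0 := by positivity
  have hmC : (m : ℂ) ≠ 0 := by exact_mod_cast hm0
  have h1 : ∀ μ : ℕ, cosT k (korobovNode m a μ) = 1 := by
    intro μ
    rw [cosT_apply]
    have h2 : eC k (korobovNode m a μ) = 1 := by
      unfold eC
      rw [prod_fourier_node]
      obtain ⟨n, hn⟩ : (m : ℤ) ∣ ∑ j, k j * a j := hk
      rw [hn, Complex.exp_eq_one_iff]
      refine ⟨n * μ, ?_⟩
      push_cast
      field_simp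
    rw [h2, Complex.one_re]
  unfold korobov
  rw [Finset.sum_congr rfl fun μ _ => h1 μ]
  simp [hm0]

end TestLowerAux

open TestLowerAux in
theorem test_lower (d l : ℕ) (r : ℝ) (hr : 0 < r) (hl : r < l) (p : ℝ≥0∞) (hp : 1 ≤ p) :
    ∃ c : ℝ, 0 < c ∧ ∀ m : ℕ, 1 ≤ m → ∀ a : Fin d → ℤ, ∀ S : Finset (Fin d → ℕ),
      (∀ s ∈ S, s ∈ blocks (dual m a)) →
      ENNReal.ofReal (c * ∑ s ∈ S, (2 : ℝ) ^ (-(r * ∑ j, (s j : ℝ)))) ≤
        korobovErr m a (HClass d l r p) := by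
  obtain ⟨C1, hC1, hdiff⟩ := scale_sum_pow hr hl
  have hq2 : (2 : ℝ) ^ (-r) < 1 := Real.rpow_lt_one_of_one_lt_of_neg (by norm_num) (by linarith)
  have hC0 : 0 < 1 / (1 - (2 : ℝ) ^ (-r)) := one_div_pos.2 (by linarith)
  set C0 : ℝ := 1 / (1 - (2 : ℝ) ^ (-r)) with hC0d
  set A : ℝ := 1 + C1 + C0 with hA
  have hA1 : 1 ≤ A := by rw [hA]; linarith
  have hA0 : 0 < A ^ d := by positivity
  refine ⟨(A ^ d)⁻¹, inv_pos.2 hA0, fun m hm a S hS => ?_⟩
  have hex : ∀ s : Fin d → ℕ, ∃ k : Fin d → ℤ, s ∈ S → (k ∈ dual m a ∧ k ≠ 0 ∧ lev k = s) := by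
    intro s
    by_cases hs : s ∈ S
    · obtain ⟨k, h1, h2, h3⟩ := hS s hs
      exact ⟨k, fun _ => ⟨h1, h2, h3⟩⟩
    · exact ⟨0, fun h => absurd h hs⟩
  choose k hk using hex
  set f : C(Torus d, ℝ) := ∑ s ∈ S, ((2 : ℝ) ^ (-(r * ∑ j, (s j : ℝ)))) • cosT (k s) with hf
  -- a bound for the scales
  obtain ⟨N, hN⟩ : ∃ N : ℕ, S ⊆ Fintype.piFinset (fun _ : Fin d => Finset.range (N + 1)) := by
    refine ⟨∑ s ∈ S, ∑ j, s j, fun s hs => ?_⟩
    rw [Fintype.mem_piFinset]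
    intro j
    rw [Finset.mem_range]
    have h1 : s j ≤ ∑ j, s j := Finset.single_le_sum (fun _ _ => Nat.zero_le _) (Finset.mem_univ j)
    have h2 : ∑ j, s j ≤ ∑ s ∈ S, ∑ j, s j :=
      Finset.single_le_sum (f := fun s : Fin d → ℕ => ∑ j, s j) (fun _ _ => Nat.zero_le _) hs
    omega
  -- differences
  have hmain : ∀ (e : Finset (Fin d)) (t : Fin d → ℝ) (x : Torus d),
      |act (∏ j ∈ e, (trj j (t j) - 1) ^ l) f x| ≤ A ^ d * ∏ j ∈ e, |t j| ^ r := by
    intro e t x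
    have h1 : act (∏ j ∈ e, (trj j (t j) - 1) ^ l) f x =
        ∑ s ∈ S, (2 : ℝ) ^ (-(r * ∑ j, (s j : ℝ))) *
          act (∏ j ∈ e, (trj j (t j) - 1) ^ l) (cosT (k s)) x := by
      rw [hf, map_sum, ContinuousMap.coe_sum, Finset.sum_apply]
      refine Finset.sum_congr rfl fun s _ => ?_
      rw [map_smul, ContinuousMap.smul_apply, smul_eq_mul]
    rw [h1]
    calc |∑ s ∈ S, (2 : ℝ) ^ (-(r * ∑ j, (s j : ℝ))) *
          act (∏ j ∈ e, (trj j (t j) - 1) ^ l) (cosT (k s)) x| ≤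
        ∑ s ∈ S, (2 : ℝ) ^ (-(r * ∑ j, (s j : ℝ))) *
          ∏ j ∈ e, (2 * min 1 ((2 : ℝ) ^ (s j) * |t j|)) ^ l := by
          refine (Finset.abs_sum_le_sum_abs _ _).trans (Finset.sum_le_sum fun s hs => ?_)
          rw [abs_mul, abs_of_nonneg (by positivity : (0 : ℝ) ≤ (2 : ℝ) ^ (-(r * ∑ j, (s j : ℝ))))]
          refine mul_le_mul_of_nonneg_left ?_ (by positivity)
          have h2 := (abs_act_cosT_le (k s) (∏ j ∈ e, (trj j (t j) - 1) ^ l) x).trans
            (norm_chi_diff_le (k s) l e t)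
          rwa [(hk s hs).2.2] at h2
      _ ≤ ∑ s ∈ Fintype.piFinset (fun _ : Fin d => Finset.range (N + 1)),
          (2 : ℝ) ^ (-(r * ∑ j, (s j : ℝ))) *
          ∏ j ∈ e, (2 * min 1 ((2 : ℝ) ^ (s j) * |t j|)) ^ l := by
          refine Finset.sum_le_sum_of_subset_of_nonneg hN fun s _ _ => ?_
          refine mul_nonneg (by positivity) (Finset.prod_nonneg fun j _ => ?_)
          exact pow_nonneg (mul_nonneg zero_le_two (le_min zero_le_one (by positivity))) _
      _ = ∑ s ∈ Fintype.piFinset (fun _ : Fin d => Finset.range (N + 1)),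
          ∏ j, (fun (j : Fin d) (i : ℕ) => (2 : ℝ) ^ (-(r * i)) *
            (if j ∈ e then (2 * min 1 ((2 : ℝ) ^ i * |t j|)) ^ l else 1)) j (s j) := by
          refine Finset.sum_congr rfl fun s _ => ?_
          rw [Finset.prod_mul_distrib, ← Real.rpow_sum_of_pos (by norm_num : (0 : ℝ) < 2),
            Finset.sum_neg_distrib, ← Finset.mul_sum, Finset.prod_ite_mem, Finset.univ_inter]
      _ = ∏ j, ∑ i ∈ Finset.range (N + 1), (fun (j : Fin d) (i : ℕ) => (2 : ℝ) ^ (-(r * i)) *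
            (if j ∈ e then (2 * min 1 ((2 : ℝ) ^ i * |t j|)) ^ l else 1)) j i := by
          rw [Finset.prod_univ_sum]
      _ ≤ ∏ j, (A * (if j ∈ e then |t j| ^ r else 1)) := by
          refine Finset.prod_le_prod (fun j _ => Finset.sum_nonneg fun i _ => ?_) fun j _ => ?_
          · refine mul_nonneg (by positivity) ?_
            split_ifs
            · exact pow_nonneg (mul_nonneg zero_le_two (le_min zero_le_one (by positivity))) _
            · exact zero_le_one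
          · by_cases hj : j ∈ e
            · simp only [hj, if_true]
              refine (hdiff N (t j)).trans (mul_le_mul_of_nonneg_right ?_ (by positivity))
              rw [hA]; linarith
            · simp only [hj, if_false, mul_one]
              refine (scale_sum hr N).trans ?_
              rw [hA]; linarith
      _ = A ^ d * ∏ j ∈ e, |t j| ^ r := by
          rw [Finset.prod_mul_distrib, Finset.prod_const, Finset.card_univ, Fintype.card_fin,
            Finset.prod_ite_mem, Finset.univ_inter]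
  have hnorm : ∀ (g : Torus d → ℝ) (B : ℝ), (∀ x, |g x| ≤ B) →
      eLpNorm g p (haarT d) ≤ ENNReal.ofReal B := by
    intro g B hB
    have h := eLpNorm_le_of_ae_bound (p := p) (μ := haarT d) (f := g) (C := B)
      (Filter.Eventually.of_forall hB)
    simpa using h
  have hclass : (A ^ d)⁻¹ • f ∈ HClass d l r p := by
    refine ⟨?_, fun e he t => ?_⟩
    · have h1 : ∀ x, |((A ^ d)⁻¹ • f) x| ≤ 1 := by
        intro x
        have h2 := hmain ∅ 0 x
        simp only [Finset.prod_empty, map_one, mul_one] at h2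
        have h3 : |f x| ≤ A ^ d := h2
        rw [ContinuousMap.smul_apply, smul_eq_mul, abs_mul, abs_of_pos (inv_pos.2 hA0),
          inv_mul_le_iff₀ hA0, mul_one]
        exact h3
      simpa using hnorm _ 1 h1
    · refine hnorm _ _ fun x => ?_
      rw [mixedDiff_eq, map_smul, ContinuousMap.smul_apply, smul_eq_mul, abs_mul,
        abs_of_pos (inv_pos.2 hA0), inv_mul_le_iff₀ hA0]
      exact hmain e t x
  have hval : |korobov m a ((A ^ d)⁻¹ • f : C(Torus d, ℝ)) -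
      mean ((A ^ d)⁻¹ • f : C(Torus d, ℝ))| =
      (A ^ d)⁻¹ * ∑ s ∈ S, (2 : ℝ) ^ (-(r * ∑ j, (s j : ℝ))) := by
    have hint : ∀ g : C(Torus d, ℝ), Integrable g (haarT d) := fun g =>
      g.continuous.integrable_of_hasCompactSupport (HasCompactSupport.of_compactSpace g)
    have h0 : ∀ x, ((A ^ d)⁻¹ • f : C(Torus d, ℝ)) x =
        (A ^ d)⁻¹ * ∑ s ∈ S, (2 : ℝ) ^ (-(r * ∑ j, (s j : ℝ))) * cosT (k s) x := by
      intro x
      rw [ContinuousMap.smul_apply, smul_eq_mul, hf, ContinuousMap.coe_sum, Finset.sum_apply]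
      rfl
    have h1 : mean ((A ^ d)⁻¹ • f : C(Torus d, ℝ)) = 0 := by
      unfold mean
      simp_rw [h0]
      rw [integral_const_mul, integral_finsetSum _ fun s _ => (hint (cosT (k s))).const_mul _]
      rw [Finset.sum_eq_zero, mul_zero]
      intro s hs
      rw [integral_const_mul]
      have := mean_cosT (k s) (hk s hs).2.1
      unfold mean at this
      rw [this, mul_zero]
    have h2 : korobov m a ((A ^ d)⁻¹ • f : C(Torus d, ℝ)) =
        (A ^ d)⁻¹ * ∑ s ∈ S, (2 : ℝ) ^ (-(r * ∑ j, (s j : ℝ))) := by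
      have h3 : ∀ s ∈ S, (1 / (m : ℝ)) * ∑ μ ∈ Finset.Icc 1 m, cosT (k s) (korobovNode m a μ) = 1 :=
        fun s hs => korobov_cosT hm a (k s) (hk s hs).1
      unfold korobov
      simp_rw [h0]
      rw [← Finset.mul_sum, Finset.sum_comm, mul_left_comm, Finset.mul_sum]
      congr 1
      refine Finset.sum_congr rfl fun s hs => ?_
      rw [← Finset.mul_sum, mul_left_comm, h3 s hs, mul_one]
    rw [h1, h2, sub_zero, abs_of_nonneg]
    exact mul_nonneg (inv_pos.2 hA0).le (Finset.sum_nonneg fun s _ => by positivity)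
  unfold korobovErr
  refine le_iSup₂_of_le ((A ^ d)⁻¹ • f) hclass ?_
  rw [hval]

end Pool.Agent.Lib.P51n
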