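import Pool.Agent.Lib.P51n.IndexLow
import Pool.Agent.Lib.P51n.DualIndex
import Pool.Agent.Lib.P51n.TestLower
import Pool.Agent.Lib.P51n.KappaUp

/-!
# P51n.FromOpt  (about 1.5 h)

If the Korobov formulas are optimal and `r ≥ 1` then there are families at all levels.

Let `KorobovOptimal` with constant `C₀`, `test_lower` with `c`, `kappa_upper` with `C₁`.  For
`m ∈ [2^T, 2^(T+1))` choose `a_m` with `korobovErr m a_m ≤ C₀ kappa m`, `Γ_m = dual m a_m`.  With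
`S = lowBlocks T Γ_m`: `c ∑_{s∈S} 2^{-r|s|} ≤ C₀ C₁ m^{-r} (log m)^(d-1) ≤ C₀C₁ 2^{-rT} (2T)^(d-1)`, and
`cost T Γ_m = ∑ 2^{T-|s|} ≤ ∑ 2^{r(T-|s|)} = 2^{rT} ∑ 2^{-r|s|} ≤ C₂ T^(d-1)` (`r ≥ 1`, `|s| ≤ T`).
`index Γ_m` divides `m` (`dual_index_dvd`), so it is `≠ 0`, `≤ 2^(T+1)`; `index_low`: `≥ 2^T/C'` for
`T ≥ T₀`.  `G = {Γ_m}` (image of `Finset.Ico (2^T) (2^(T+1))`): `|G| ≤ 2^T`; each `Γ ∈ G` comes from `m`
with `m = index Γ · g`, `1 ≤ g ≤ 2C'`, so from at most `2C'` values of `m`, and `|G| ≥ 2^T/(2C')`.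
-/

set_option autoImplicit false

noncomputable section

namespace Pool.Agent.Lib.P51n

open Pool.Agent.Lib.P51a855
open scoped ENNReal

/-- the sum over the low blocks of the weights of the test function bounds the cost -/
private theorem cost_le_sum {d : ℕ} (T : ℕ) (r : ℝ) (hr : 1 ≤ r) (Γ : AddSubgroup (Fin d → ℤ)) :
    cost T Γ ≤ (2 : ℝ) ^ (r * T) *
      ∑ s ∈ lowBlocks T Γ, (2 : ℝ) ^ (-(r * ∑ j, (s j : ℝ))) := by
  classical
  unfold cost
  rw [Finset.mul_sum]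
  refine Finset.sum_le_sum fun s hs => ?_
  have hsT : ∑ j, s j ≤ T := by
    unfold lowBlocks at hs
    exact (Finset.mem_filter.1 hs).2.1
  rw [← Real.rpow_add (by norm_num), ← Real.rpow_natCast]
  apply Real.rpow_le_rpow_of_exponent_le (by norm_num)
  rw [Nat.cast_sub hsT, Nat.cast_sum]
  have h1 : (∑ j, (s j : ℝ)) ≤ T := by exact_mod_cast hsT
  nlinarith

private theorem log_pow_le {T m : ℕ} (hT : 1 ≤ T) (h1 : 2 ^ T ≤ m) (h2 : m < 2 ^ (T + 1)) :
    0 ≤ Real.log m ∧ Real.log m ≤ 2 * T := by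
  have hm1 : 1 ≤ m := le_trans (Nat.one_le_two_pow) h1
  have hm0 : (0 : ℝ) < m := by exact_mod_cast hm1
  refine ⟨Real.log_nonneg (by exact_mod_cast hm1), ?_⟩
  have h3 : (m : ℝ) ≤ (2 : ℝ) ^ (T + 1) := by exact_mod_cast h2.le
  have h4 : Real.log m ≤ Real.log ((2 : ℝ) ^ (T + 1)) := Real.log_le_log hm0 h3
  rw [Real.log_pow] at h4
  have h5 : Real.log 2 ≤ 1 := by
    have := Real.log_two_lt_d9
    linarith
  have h6 : (1 : ℝ) ≤ T := by exact_mod_cast hT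
  have h7 : 0 ≤ Real.log 2 := Real.log_nonneg (by norm_num)
  push_cast at h4
  nlinarith

theorem family_of_optimal (d l : ℕ) (hd : 1 ≤ d) (r : ℝ) (hr : 1 ≤ r) (hl : r < l) (p : ℝ≥0∞)
    (hp : 1 ≤ p) (hpr : 1 / p < ENNReal.ofReal r) (hopt : KorobovOptimal (HClass d l r p)) :
    ∃ (C : ℝ) (T₀ : ℕ) (G : ℕ → Finset (AddSubgroup (Fin d → ℤ))), 1 ≤ C ∧
      ∀ T : ℕ, T₀ ≤ T → Fam T C (G T) := by
  classical
  obtain ⟨C₀, hC₀⟩ := hopt
  obtain ⟨c, hc, htl⟩ := test_lower d l r (by linarith) hl p hp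
  obtain ⟨C₁, hC₁, hku⟩ := kappa_upper d l hd r hr hl p hp hpr
  choose! a ha using hC₀
  set C₂ : ℝ := C₀ * C₁ / c * 2 ^ (d - 1) with hC₂
  -- the cost bound
  have hcost : ∀ T : ℕ, 1 ≤ T → ∀ m : ℕ, 2 ^ T ≤ m → m < 2 ^ (T + 1) →
      cost T (dual m (a m)) ≤ C₂ * (T : ℝ) ^ (d - 1) := by
    intro T hT m h1 h2
    have hm2 : 2 ≤ m := by
      calc 2 = 2 ^ 1 := by norm_num
        _ ≤ 2 ^ T := Nat.pow_le_pow_right (by norm_num) hT
        _ ≤ m := h1
    have hm0 : (0 : ℝ) < m := by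
      have : 0 < m := by omega
      exact_mod_cast this
    have hS : ∀ s ∈ lowBlocks T (dual m (a m)), s ∈ blocks (dual m (a m)) := by
      intro s hs
      unfold lowBlocks at hs
      exact (Finset.mem_filter.1 hs).2.2
    have e1 := htl m (by omega) (a m) (lowBlocks T (dual m (a m))) hS
    have e2 := ha m hm2
    have e3 := hku m hm2
    obtain ⟨hl0, hl1⟩ := log_pow_le hT h1 h2
    set Sg : ℝ := ∑ s ∈ lowBlocks T (dual m (a m)), (2 : ℝ) ^ (-(r * ∑ j, (s j : ℝ))) with hSg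
    have e4 : ENNReal.ofReal (c * Sg) ≤
        ENNReal.ofReal (C₀ * (C₁ * (m : ℝ) ^ (-r) * Real.log m ^ (d - 1))) := by
      rw [ENNReal.ofReal_mul (p := (C₀ : ℝ)) (by positivity), ENNReal.ofReal_coe_nnreal]
      calc ENNReal.ofReal (c * Sg) ≤ korobovErr m (a m) (HClass d l r p) := e1
        _ ≤ C₀ * kappa m (HClass d l r p) := e2
        _ ≤ C₀ * ENNReal.ofReal (C₁ * (m : ℝ) ^ (-r) * Real.log m ^ (d - 1)) := by gcongr
    have hpos : 0 ≤ (C₀ : ℝ) * (C₁ * (m : ℝ) ^ (-r) * Real.log m ^ (d - 1)) := by positivity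
    have e5 : c * Sg ≤ C₀ * (C₁ * (m : ℝ) ^ (-r) * Real.log m ^ (d - 1)) :=
      (ENNReal.ofReal_le_ofReal_iff hpos).1 e4
    have e6 : (m : ℝ) ^ (-r) ≤ (2 : ℝ) ^ (-(r * T)) := by
      have h2T : ((2 : ℝ) ^ T) ≤ m := by exact_mod_cast h1
      calc (m : ℝ) ^ (-r) ≤ ((2 : ℝ) ^ T) ^ (-r) :=
            Real.rpow_le_rpow_of_nonpos (by positivity) h2T (by linarith)
        _ = (2 : ℝ) ^ (-(r * T)) := by
            rw [← Real.rpow_natCast, ← Real.rpow_mul (by norm_num)]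
            congr 1
            ring
    have e7 : Real.log m ^ (d - 1) ≤ (2 * (T : ℝ)) ^ (d - 1) := by
      exact pow_le_pow_left₀ hl0 hl1 _
    have e8 : c * Sg ≤ C₀ * (C₁ * (2 : ℝ) ^ (-(r * T)) * (2 * (T : ℝ)) ^ (d - 1)) := by
      refine e5.trans ?_
      gcongr
    have e9 : Sg ≤ C₂ * (T : ℝ) ^ (d - 1) * (2 : ℝ) ^ (-(r * T)) := by
      rw [hC₂, mul_pow] at *
      have : Sg = (c * Sg) / c := by field_simp
      rw [this, div_le_iff₀ hc]
      refine e8.trans (le_of_eq ?_)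
      field_simp
    calc cost T (dual m (a m)) ≤ (2 : ℝ) ^ (r * T) * Sg := cost_le_sum T r hr _
      _ ≤ (2 : ℝ) ^ (r * T) * (C₂ * (T : ℝ) ^ (d - 1) * (2 : ℝ) ^ (-(r * T))) := by gcongr
      _ = C₂ * (T : ℝ) ^ (d - 1) * ((2 : ℝ) ^ (r * T) * (2 : ℝ) ^ (-(r * T))) := by ring
      _ = C₂ * (T : ℝ) ^ (d - 1) := by
          rw [← Real.rpow_add (by norm_num)]
          simp
  set C₃ : ℝ := max 1 C₂ with hC₃
  have hC₃1 : 1 ≤ C₃ := le_max_left _ _
  obtain ⟨C', T₁, hC'1, hil⟩ := index_low d hd C₃ hC₃1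
  set C : ℝ := max C₃ (max C' (⌈2 * C'⌉₊ : ℝ)) with hC
  have hCC₃ : C₃ ≤ C := le_max_left _ _
  have hCC' : C' ≤ C := le_trans (le_max_left _ _) (le_max_right _ _)
  have hCn : (⌈2 * C'⌉₊ : ℝ) ≤ C := le_trans (le_max_right _ _) (le_max_right _ _)
  refine ⟨C, max 1 T₁, fun T => (Finset.Ico (2 ^ T) (2 ^ (T + 1))).image fun m => dual m (a m),
    hC₃1.trans hCC₃, ?_⟩
  intro T hT
  have hT1 : 1 ≤ T := le_trans (le_max_left _ _) hT
  have hTT₁ : T₁ ≤ T := le_trans (le_max_right _ _) hT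
  -- data for each `m`
  have hm : ∀ m ∈ Finset.Ico (2 ^ T) (2 ^ (T + 1)),
      (dual m (a m)).index ≠ 0 ∧ (dual m (a m)).index ∣ m ∧
      (2 : ℝ) ^ T ≤ C' * (dual m (a m)).index ∧
      cost T (dual m (a m)) ≤ C₃ * (T : ℝ) ^ (d - 1) := by
    intro m hmm
    rw [Finset.mem_Ico] at hmm
    have hm1 : 1 ≤ m := le_trans (Nat.one_le_two_pow) hmm.1
    have hdvd := dual_index_dvd hm1 (a m)
    have hne : (dual m (a m)).index ≠ 0 := by
      intro h0
      rw [h0, Nat.zero_dvd] at hdvd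
      omega
    have hco : cost T (dual m (a m)) ≤ C₃ * (T : ℝ) ^ (d - 1) := by
      refine (hcost T hT1 m hmm.1 hmm.2).trans ?_
      gcongr
      exact le_max_right _ _
    exact ⟨hne, hdvd, hil T hTT₁ _ hne hco, hco⟩
  refine ⟨?_, ?_, ?_⟩
  · refine Finset.card_image_le.trans ?_
    rw [Nat.card_Ico, pow_succ]
    omega
  · have hfib : ∀ Γ ∈ (Finset.Ico (2 ^ T) (2 ^ (T + 1))).image (fun m => dual m (a m)),
        ((Finset.Ico (2 ^ T) (2 ^ (T + 1))).filter fun m => dual m (a m) = Γ).card ≤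
          ⌈2 * C'⌉₊ := by
      intro Γ hΓ
      have hinj : Set.InjOn (fun m : ℕ => m / Γ.index)
          ((Finset.Ico (2 ^ T) (2 ^ (T + 1))).filter fun m => dual m (a m) = Γ) := by
        intro m₁ h₁ m₂ h₂ h12
        rw [Finset.coe_filter, Set.mem_ofPred_eq] at h₁ h₂
        have d1 := (hm m₁ h₁.1).2.1
        have d2 := (hm m₂ h₂.1).2.1
        rw [h₁.2] at d1
        rw [h₂.2] at d2
        have h12' : m₁ / Γ.index = m₂ / Γ.index := h12
        rw [← Nat.div_mul_cancel d1, ← Nat.div_mul_cancel d2, h12']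
      have hmaps : ∀ m ∈ ((Finset.Ico (2 ^ T) (2 ^ (T + 1))).filter fun m => dual m (a m) = Γ),
          m / Γ.index ∈ Finset.range ⌈2 * C'⌉₊ := by
        intro m hmm
        rw [Finset.mem_filter] at hmm
        obtain ⟨hne, hdvd, hlow, -⟩ := hm m hmm.1
        rw [hmm.2] at hne hdvd hlow
        have hlt := (Finset.mem_Ico.1 hmm.1).2
        rw [Finset.mem_range]
        rw [Nat.lt_ceil]
        obtain ⟨g, hg⟩ := hdvd
        have hpos : 0 < Γ.index := Nat.pos_of_ne_zero hne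
        have hmg : m / Γ.index = g := by
          rw [hg, Nat.mul_div_cancel_left _ hpos]
        rw [hmg]
        have h1 : (m : ℝ) < 2 ^ (T + 1) := by exact_mod_cast hlt
        have h2 : (m : ℝ) = Γ.index * g := by exact_mod_cast hg
        have h3 : (0 : ℝ) < Γ.index := by exact_mod_cast hpos
        have h4 : (Γ.index : ℝ) * g < Γ.index * (2 * C') := by
          rw [← h2]
          rw [pow_succ] at h1
          nlinarith
        exact lt_of_mul_lt_mul_left h4 h3.le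
      calc _ ≤ (Finset.range ⌈2 * C'⌉₊).card := Finset.card_le_card_of_injOn _ hmaps hinj
        _ = ⌈2 * C'⌉₊ := Finset.card_range _
    have hcard := Finset.card_le_mul_card_image (f := fun m => dual m (a m))
      (Finset.Ico (2 ^ T) (2 ^ (T + 1))) ⌈2 * C'⌉₊ hfib
    have hIco : (Finset.Ico (2 ^ T) (2 ^ (T + 1))).card = 2 ^ T := by
      rw [Nat.card_Ico, pow_succ]
      omega
    rw [hIco] at hcard
    have hcard' : ((2 : ℝ) ^ T) ≤ (⌈2 * C'⌉₊ : ℝ) *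
        (((Finset.Ico (2 ^ T) (2 ^ (T + 1))).image fun m => dual m (a m)).card : ℝ) := by
      exact_mod_cast hcard
    refine hcard'.trans ?_
    gcongr
  · intro Γ hΓ
    rw [Finset.mem_image] at hΓ
    obtain ⟨m, hmm, rfl⟩ := hΓ
    obtain ⟨hne, hdvd, hlow, hco⟩ := hm m hmm
    have hmI := Finset.mem_Ico.1 hmm
    have hm1 : 0 < m := lt_of_lt_of_le (Nat.two_pow_pos T) hmI.1
    refine ⟨hne, (Nat.le_of_dvd hm1 hdvd).trans hmI.2.le, hlow.trans ?_, hco.trans ?_⟩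
    · gcongr
    · gcongr

end Pool.Agent.Lib.P51n
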