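import Pool.Agent.Lib.P51n.GDefs

/-!
# P51n.GRel  (about 2 h)

Relative displacements in Heisenberg coordinates.

Let `ĥ = resc σ h`, `ĥ' = resc σ h'`; `resc` is multiplicative and `(resc σ h)⁻¹ = resc σ h⁻¹`.
Write `ĥ = D u + E`: `D = diag(h_ii)`, `u = 1 + a₀ E_{12} + b₀ E_{23} + z₀ E_{13}` with
`a₀ = 2^{-p} coA`, `b₀ = 2^{-p} coB`, `z₀ = 2^{-2p} coZ` (so the entries `(1,2), (2,3), (1,3)` and the
diagonal of `ĥ` are those of `D u`), and `|E_kl| ≤ κ 2^{-8N}` (the other entries, where the shape is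
`cs σ + 8N`).  Similarly `ĥ' = D' u' + E'`.  `u⁻¹ = 1 - a₀ E₁₂ - b₀ E₂₃ + (a₀b₀ - z₀) E₁₃`.
All matrices `D, D⁻¹, u, u⁻¹, ĥ⁻¹` have entries at most `2`.  From
`ĥ⁻¹ = u⁻¹D⁻¹ - ĥ⁻¹ E u⁻¹ D⁻¹`, `ĥ'ĥ⁻¹ = D'u'u⁻¹D⁻¹ + O(2^{-8N})` with a constant `≤ 2^8 d^4`, and
`D'u'u⁻¹D⁻¹ = relM` (direct computation:
`u'u⁻¹ = 1 + (a₀'-a₀)E₁₂ + (b₀'-b₀)E₂₃ + (z₀' - z₀ - (a₀'-a₀)b₀)E₁₃`).  For `N ≥ N₀(d)` the error is at
most `2^{-7N}`.
-/

set_option autoImplicit false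

noncomputable section

namespace Pool.Agent.Lib.P51n

theorem resc_mul {d : ℕ} (s : Fin d → ℝ) (h h' : Matrix (Fin d) (Fin d) ℝ) :
    resc s (h * h') = resc s h * resc s h' := by
  ext i j
  simp only [resc, Matrix.mul_apply, Matrix.of_apply, Finset.sum_mul]
  refine Finset.sum_congr rfl fun k _ => ?_
  have e : (2 : ℝ) ^ (s j - s i) = (2 : ℝ) ^ (s k - s i) * (2 : ℝ) ^ (s j - s k) := by
    rw [← Real.rpow_add (by norm_num : (0 : ℝ) < 2)]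
    congr 1
    ring
  rw [e]
  ring

namespace GRelAux

variable {d : ℕ}

theorem resc_one (s : Fin d → ℝ) : resc s 1 = 1 := by
  ext i j
  simp only [resc, Matrix.of_apply]
  by_cases hij : i = j
  · subst hij
    simp
  · simp [Matrix.one_apply_ne hij]

theorem resc_inv {s : Fin d → ℝ} {h : Matrix (Fin d) (Fin d) ℝ} (hu : IsUnit h.det) :
    resc s h⁻¹ = (resc s h)⁻¹ := by
  symm
  apply Matrix.inv_eq_right_inv
  rw [← resc_mul, Matrix.mul_nonsing_inv _ hu, resc_one]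

/-- the unipotent matrix -/
def U (i₁ i₂ i₃ : Fin d) (a b z : ℝ) : Matrix (Fin d) (Fin d) ℝ :=
  1 + Matrix.single i₁ i₂ a + Matrix.single i₂ i₃ b + Matrix.single i₁ i₃ z

theorem U_mul {i₁ i₂ i₃ : Fin d} (h12 : i₁ ≠ i₂) (h23 : i₂ ≠ i₃) (h13 : i₁ ≠ i₃)
    (a b z a' b' z' : ℝ) : U i₁ i₂ i₃ a b z * U i₁ i₂ i₃ a' b' z' =
      U i₁ i₂ i₃ (a + a') (b + b') (z + z' + a * b') := by
  unfold U
  simp only [add_mul, mul_add, one_mul, mul_one, Matrix.single_mul_single_same,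
    Matrix.single_mul_single_of_ne _ _ _ _ h12.symm, Matrix.single_mul_single_of_ne _ _ _ _ h13.symm,
    Matrix.single_mul_single_of_ne _ _ _ _ h23.symm, Matrix.single_add]
  abel

theorem U_zero (i₁ i₂ i₃ : Fin d) : U i₁ i₂ i₃ 0 0 0 = 1 := by
  simp [U]

theorem U_apply (i₁ i₂ i₃ : Fin d) (a b z : ℝ) (i j : Fin d) :
    U i₁ i₂ i₃ a b z i j = (if i = j then 1 else 0) + (if i₁ = i ∧ i₂ = j then a else 0) +
      (if i₂ = i ∧ i₃ = j then b else 0) + (if i₁ = i ∧ i₃ = j then z else 0) := by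
  simp [U, Matrix.add_apply, Matrix.one_apply, Matrix.single_apply]

/-- the main part of the rescaled displacement -/
def MM (i₁ i₂ i₃ : Fin d) (σ : Fin d → ℝ) (h : Matrix (Fin d) (Fin d) ℝ) :
    Matrix (Fin d) (Fin d) ℝ :=
  Matrix.diagonal (fun i => h i i) * U i₁ i₂ i₃ (resc σ h i₁ i₂ / h i₁ i₁)
    (resc σ h i₂ i₃ / h i₂ i₂) (resc σ h i₁ i₃ / h i₁ i₁)

/-- its inverse -/
def KK (i₁ i₂ i₃ : Fin d) (σ : Fin d → ℝ) (h : Matrix (Fin d) (Fin d) ℝ) :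
    Matrix (Fin d) (Fin d) ℝ :=
  U i₁ i₂ i₃ (-(resc σ h i₁ i₂ / h i₁ i₁)) (-(resc σ h i₂ i₃ / h i₂ i₂))
    (resc σ h i₁ i₂ / h i₁ i₁ * (resc σ h i₂ i₃ / h i₂ i₂) - resc σ h i₁ i₃ / h i₁ i₁) *
    Matrix.diagonal (fun i => (h i i)⁻¹)

theorem MM_KK {i₁ i₂ i₃ : Fin d} (h12 : i₁ ≠ i₂) (h23 : i₂ ≠ i₃) (h13 : i₁ ≠ i₃)
    (σ : Fin d → ℝ) {h : Matrix (Fin d) (Fin d) ℝ} (hd : ∀ i, h i i ≠ 0) :
    MM i₁ i₂ i₃ σ h * KK i₁ i₂ i₃ σ h = 1 := by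
  unfold MM KK
  rw [Matrix.mul_assoc, ← Matrix.mul_assoc (U _ _ _ _ _ _), U_mul h12 h23 h13]
  have e : U i₁ i₂ i₃ (resc σ h i₁ i₂ / h i₁ i₁ + -(resc σ h i₁ i₂ / h i₁ i₁))
      (resc σ h i₂ i₃ / h i₂ i₂ + -(resc σ h i₂ i₃ / h i₂ i₂))
      (resc σ h i₁ i₃ / h i₁ i₁ + (resc σ h i₁ i₂ / h i₁ i₁ * (resc σ h i₂ i₃ / h i₂ i₂) -
        resc σ h i₁ i₃ / h i₁ i₁) + resc σ h i₁ i₂ / h i₁ i₁ * -(resc σ h i₂ i₃ / h i₂ i₂)) =
      (1 : Matrix (Fin d) (Fin d) ℝ) := by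
    rw [← U_zero i₁ i₂ i₃]
    congr 1 <;> ring
  rw [e, one_mul, Matrix.diagonal_mul_diagonal]
  rw [← Matrix.diagonal_one]
  congr 1
  funext i
  exact mul_inv_cancel₀ (hd i)

theorem MM_KK' {i₁ i₂ i₃ : Fin d} (h12 : i₁ ≠ i₂) (h23 : i₂ ≠ i₃) (h13 : i₁ ≠ i₃)
    (σ : Fin d → ℝ) (p : ℕ) (h h' : Matrix (Fin d) (Fin d) ℝ) :
    MM i₁ i₂ i₃ σ h' * KK i₁ i₂ i₃ σ h = relM i₁ i₂ i₃ σ p h h' := by
  unfold MM KK
  rw [Matrix.mul_assoc, ← Matrix.mul_assoc (U _ _ _ _ _ _), U_mul h12 h23 h13,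
    ← Matrix.mul_assoc]
  ext i j
  rw [Matrix.mul_diagonal, Matrix.diagonal_mul, U_apply]
  simp only [relM, coA, coB, coZ, Matrix.of_apply]
  have hp : (2 : ℝ) ^ p ≠ 0 := by positivity
  have e1 : ((1 / 2 : ℝ)) ^ p = ((2 : ℝ) ^ p)⁻¹ := by
    rw [one_div, inv_pow]
  have e2 : ((1 / 2 : ℝ)) ^ (2 * p) = ((2 : ℝ) ^ (2 * p))⁻¹ := by
    rw [one_div, inv_pow]
  have e3 : (2 : ℝ) ^ (2 * p) = 2 ^ p * 2 ^ p := by rw [two_mul, pow_add]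
  by_cases hij : i = j
  · subst hij
    have n1 : ¬ (i₁ = i ∧ i₂ = i) := fun hh => h12 (hh.1.trans hh.2.symm)
    have n2 : ¬ (i₂ = i ∧ i₃ = i) := fun hh => h23 (hh.1.trans hh.2.symm)
    have n3 : ¬ (i₁ = i ∧ i₃ = i) := fun hh => h13 (hh.1.trans hh.2.symm)
    simp only [if_true, if_neg n1, if_neg n2, if_neg n3, div_eq_mul_inv]
    ring
  · rw [if_neg hij, if_neg hij]
    by_cases c1 : i = i₁ ∧ j = i₂
    · obtain ⟨rfl, rfl⟩ := c1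
      have p : i = i ∧ j = j := ⟨rfl, rfl⟩
      rw [if_pos p, if_pos p, if_neg (fun hh => hij hh.1.symm),
        if_neg (fun hh => h23 hh.2.symm), e1]
      field_simp
      ring
    · rw [if_neg c1, if_neg (fun hh => c1 ⟨hh.1.symm, hh.2.symm⟩)]
      by_cases c2 : i = i₂ ∧ j = i₃
      · obtain ⟨rfl, rfl⟩ := c2
        have p : i = i ∧ j = j := ⟨rfl, rfl⟩
        rw [if_pos p, if_pos p, if_neg (fun hh => h12 hh.1), e1]
        field_simp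
        ring
      · rw [if_neg c2, if_neg (fun hh => c2 ⟨hh.1.symm, hh.2.symm⟩)]
        by_cases c3 : i = i₁ ∧ j = i₃
        · obtain ⟨rfl, rfl⟩ := c3
          have p : i = i ∧ j = j := ⟨rfl, rfl⟩
          rw [if_pos p, if_pos p, e2, e3]
          field_simp
          ring
        · rw [if_neg c3, if_neg (fun hh => c3 ⟨hh.1.symm, hh.2.symm⟩)]
          ring

theorem mul_bound {X Y : Matrix (Fin d) (Fin d) ℝ} {x y : ℝ} (hx : 0 ≤ x)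
    (hX : ∀ i j, |X i j| ≤ x) (hY : ∀ i j, |Y i j| ≤ y) (i j : Fin d) :
    |(X * Y) i j| ≤ d * x * y := by
  rw [Matrix.mul_apply]
  calc |∑ k, X i k * Y k j| ≤ ∑ k, |X i k * Y k j| := Finset.abs_sum_le_sum_abs _ _
    _ ≤ ∑ _k : Fin d, x * y := by
        refine Finset.sum_le_sum fun k _ => ?_
        rw [abs_mul]
        exact mul_le_mul (hX i k) (hY k j) (abs_nonneg _) hx
    _ = d * x * y := by simp; ring

section Bounds

variable {i₁ i₂ i₃ : Fin d} {σ : Fin d → ℝ} {N : ℕ} {κ : ℝ} {h : Matrix (Fin d) (Fin d) ℝ}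

theorem resc_entry (hn : NearOne κ (cN i₁ i₂ i₃ σ N 0 0 0) h) (i j : Fin d) :
    |resc σ h i j - (1 : Matrix (Fin d) (Fin d) ℝ) i j| ≤
      κ * (2 : ℝ) ^ (-(N * ct i₁ i₂ i₃ 0 0 0 i j)) := by
  have h2 : (0 : ℝ) < 2 := by norm_num
  have e : resc σ h i j - (1 : Matrix (Fin d) (Fin d) ℝ) i j =
      (h i j - (1 : Matrix (Fin d) (Fin d) ℝ) i j) * (2 : ℝ) ^ (σ j - σ i) := by
    simp only [resc, Matrix.of_apply]
    by_cases hij : i = j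
    · subst hij
      simp
    · simp [Matrix.one_apply_ne hij]
  rw [e, abs_mul, abs_of_pos (Real.rpow_pos_of_pos h2 (σ j - σ i))]
  have h3 := hn i j
  calc |h i j - (1 : Matrix (Fin d) (Fin d) ℝ) i j| * (2 : ℝ) ^ (σ j - σ i)
      ≤ (κ * (2 : ℝ) ^ (-cN i₁ i₂ i₃ σ N 0 0 0 i j)) * (2 : ℝ) ^ (σ j - σ i) :=
        mul_le_mul_of_nonneg_right h3 (Real.rpow_pos_of_pos h2 _).le
    _ = κ * (2 : ℝ) ^ (-(N * ct i₁ i₂ i₃ 0 0 0 i j)) := by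
        rw [mul_assoc, ← Real.rpow_add h2]
        congr 2
        simp only [cN, cs, Pi.add_apply, Pi.smul_apply, smul_eq_mul]
        ring

theorem ct_nonneg (i₁ i₂ i₃ i j : Fin d) : 0 ≤ ct i₁ i₂ i₃ 0 0 0 i j := by
  unfold ct
  split_ifs <;> norm_num

theorem resc_le (hκ : 0 ≤ κ) (hn : NearOne κ (cN i₁ i₂ i₃ σ N 0 0 0) h) (i j : Fin d) :
    |resc σ h i j - (1 : Matrix (Fin d) (Fin d) ℝ) i j| ≤ κ := by
  refine (resc_entry hn i j).trans ?_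
  have h1 : (2 : ℝ) ^ (-(N * ct i₁ i₂ i₃ 0 0 0 i j)) ≤ 1 := by
    apply Real.rpow_le_one_of_one_le_of_nonpos (by norm_num)
    have := ct_nonneg i₁ i₂ i₃ i j
    have hN : (0 : ℝ) ≤ N := by positivity
    nlinarith [mul_nonneg hN this]
  nlinarith

theorem resc_off (hn : NearOne κ (cN i₁ i₂ i₃ σ N 0 0 0) h) {i j : Fin d} (hij : i ≠ j)
    (c1 : ¬ (i = i₁ ∧ j = i₂)) (c2 : ¬ (i = i₂ ∧ j = i₃)) (c3 : ¬ (i = i₁ ∧ j = i₃)) :
    |resc σ h i j| ≤ κ * (1 / 2 : ℝ) ^ (8 * N) := by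
  have h1 := resc_entry hn i j
  rw [Matrix.one_apply_ne hij, sub_zero] at h1
  have e : ct i₁ i₂ i₃ 0 0 0 i j = 8 := by
    unfold ct
    rw [if_neg hij, if_neg c1, if_neg c2, if_neg c3]
  rw [e] at h1
  have e2 : (2 : ℝ) ^ (-((N : ℝ) * 8)) = (1 / 2 : ℝ) ^ (8 * N) := by
    rw [Real.rpow_neg (by norm_num), one_div, inv_pow]
    congr 1
    rw [← Real.rpow_natCast]
    congr 1
    push_cast
    ring
  rwa [e2] at h1

theorem resc_diag (h : Matrix (Fin d) (Fin d) ℝ) (i : Fin d) : resc σ h i i = h i i := by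
  simp [resc]

theorem MM_entry (hd : ∀ i, h i i ≠ 0) (h12 : i₁ ≠ i₂) (h23 : i₂ ≠ i₃) (h13 : i₁ ≠ i₃)
    (i j : Fin d) : MM i₁ i₂ i₃ σ h i j = if i = j ∨ (i = i₁ ∧ j = i₂) ∨ (i = i₂ ∧ j = i₃) ∨
      (i = i₁ ∧ j = i₃) then resc σ h i j else 0 := by
  unfold MM
  rw [Matrix.diagonal_mul, U_apply]
  by_cases hij : i = j
  · subst hij
    have n1 : ¬ (i₁ = i ∧ i₂ = i) := fun hh => h12 (hh.1.trans hh.2.symm)
    have n2 : ¬ (i₂ = i ∧ i₃ = i) := fun hh => h23 (hh.1.trans hh.2.symm)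
    have n3 : ¬ (i₁ = i ∧ i₃ = i) := fun hh => h13 (hh.1.trans hh.2.symm)
    rw [if_pos rfl, if_neg n1, if_neg n2, if_neg n3, if_pos (Or.inl rfl), resc_diag]
    ring
  · rw [if_neg hij]
    by_cases c1 : i = i₁ ∧ j = i₂
    · obtain ⟨rfl, rfl⟩ := c1
      rw [if_pos ⟨rfl, rfl⟩, if_neg (fun hh => hij hh.1.symm),
        if_neg (fun hh => h23 hh.2.symm), if_pos (Or.inr (Or.inl ⟨rfl, rfl⟩))]
      have := hd i
      field_simp
      ring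
    · rw [if_neg (fun hh => c1 ⟨hh.1.symm, hh.2.symm⟩)]
      by_cases c2 : i = i₂ ∧ j = i₃
      · obtain ⟨rfl, rfl⟩ := c2
        rw [if_pos ⟨rfl, rfl⟩, if_neg (fun hh => h12 hh.1),
          if_pos (Or.inr (Or.inr (Or.inl ⟨rfl, rfl⟩)))]
        have := hd i
        field_simp
        ring
      · rw [if_neg (fun hh => c2 ⟨hh.1.symm, hh.2.symm⟩)]
        by_cases c3 : i = i₁ ∧ j = i₃
        · obtain ⟨rfl, rfl⟩ := c3
          rw [if_pos ⟨rfl, rfl⟩, if_pos (Or.inr (Or.inr (Or.inr ⟨rfl, rfl⟩)))]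
          have := hd i
          field_simp
          ring
        · rw [if_neg (fun hh => c3 ⟨hh.1.symm, hh.2.symm⟩), if_neg]
          · ring
          · rintro (hh | hh | hh | hh)
            · exact hij hh
            · exact c1 hh
            · exact c2 hh
            · exact c3 hh

theorem MM_close (hκ : 0 ≤ κ) (hn : NearOne κ (cN i₁ i₂ i₃ σ N 0 0 0) h) (hd : ∀ i, h i i ≠ 0)
    (h12 : i₁ ≠ i₂) (h23 : i₂ ≠ i₃) (h13 : i₁ ≠ i₃) (i j : Fin d) :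
    |(resc σ h - MM i₁ i₂ i₃ σ h) i j| ≤ κ * (1 / 2 : ℝ) ^ (8 * N) := by
  rw [Matrix.sub_apply, MM_entry hd h12 h23 h13]
  split_ifs with hc
  · rw [sub_self, abs_zero]
    positivity
  · rw [sub_zero]
    push Not at hc
    exact resc_off hn hc.1 (fun hh => hc.2.1 hh.1 hh.2) (fun hh => hc.2.2.1 hh.1 hh.2)
      (fun hh => hc.2.2.2 hh.1 hh.2)

theorem MM_near (hκ : 0 ≤ κ) (hn : NearOne κ (cN i₁ i₂ i₃ σ N 0 0 0) h) (hd : ∀ i, h i i ≠ 0)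
    (h12 : i₁ ≠ i₂) (h23 : i₂ ≠ i₃) (h13 : i₁ ≠ i₃) (i j : Fin d) :
    |MM i₁ i₂ i₃ σ h i j - (1 : Matrix (Fin d) (Fin d) ℝ) i j| ≤ κ := by
  rw [MM_entry hd h12 h23 h13]
  split_ifs with hc
  · exact resc_le hκ hn i j
  · push Not at hc
    rw [Matrix.one_apply_ne hc.1, sub_zero, abs_zero]
    exact hκ

end Bounds

theorem near_zero {κ : ℝ} {A : Matrix (Fin d) (Fin d) ℝ}
    (hA : ∀ i j, |A i j - (1 : Matrix (Fin d) (Fin d) ℝ) i j| ≤ κ) :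
    NearOne κ (fun _ _ => 0) A := by
  intro i j
  simpa using hA i j

theorem tri_zero : Tri (fun _ _ : Fin d => (0 : ℝ)) := by
  constructor
  · intro i; rfl
  · intro i j k; simp

theorem cs_zero (i j : Fin d) : cs (fun _ : Fin d => (0 : ℝ)) i j ≤ (fun _ _ : Fin d => (0 : ℝ)) i j := by
  simp [cs]

theorem entry_le_two {κ : ℝ} (hκ2 : κ ≤ 1) {A : Matrix (Fin d) (Fin d) ℝ}
    (hA : NearOne κ (fun _ _ => 0) A) (i j : Fin d) : |A i j| ≤ 2 := by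
  have h1 := hA i j
  simp only [neg_zero, Real.rpow_zero, mul_one] at h1
  have h2 : |(1 : Matrix (Fin d) (Fin d) ℝ) i j| ≤ 1 := by
    by_cases hij : i = j
    · subst hij
      simp
    · simp [Matrix.one_apply_ne hij]
  calc |A i j| = |(A i j - (1 : Matrix (Fin d) (Fin d) ℝ) i j) +
        (1 : Matrix (Fin d) (Fin d) ℝ) i j| := by ring_nf
    _ ≤ _ := abs_add_le _ _
    _ ≤ 2 := by linarith

end GRelAux

open GRelAux

theorem rel_close (d : ℕ) : ∃ N₀ : ℕ, ∀ N : ℕ, N₀ ≤ N → ∀ (i₁ i₂ i₃ : Fin d), i₁ ≠ i₂ →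
    i₂ ≠ i₃ → i₁ ≠ i₃ → ∀ (σ : Fin d → ℝ) (p : ℕ) (κ : ℝ), 0 ≤ κ → 32 * d ^ 2 * κ ≤ 1 →
    ∀ h h' : Matrix (Fin d) (Fin d) ℝ, NearOne κ (cN i₁ i₂ i₃ σ N 0 0 0) h →
      NearOne κ (cN i₁ i₂ i₃ σ N 0 0 0) h' →
      ∀ i j, |resc σ (h' * h⁻¹) i j - relM i₁ i₂ i₃ σ p h h' i j| ≤ (1 / 2 : ℝ) ^ (7 * N) := by
  refine ⟨d, ?_⟩
  intro N hN i₁ i₂ i₃ h12 h23 h13 σ p κ hκ hκd h h' hn hn' i j
  have hd1 : (1 : ℝ) ≤ d := by
    have : 0 < d := i₁.pos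
    exact_mod_cast this
  have hdd : (d : ℝ) ≤ d ^ 2 := by nlinarith
  have hκ32 : 32 * κ ≤ 1 := by
    have : κ ≤ d ^ 2 * κ := by nlinarith [mul_nonneg (sub_nonneg.mpr (hd1.trans hdd)) hκ]
    linarith
  have hdκ : 2 * (d : ℝ) * κ < 1 := by
    have : (d : ℝ) * κ ≤ d ^ 2 * κ := mul_le_mul_of_nonneg_right hdd hκ
    linarith
  have hdiag : ∀ {g : Matrix (Fin d) (Fin d) ℝ}, NearOne κ (cN i₁ i₂ i₃ σ N 0 0 0) g →
      ∀ k, g k k ≠ 0 := by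
    intro g hg k hk
    have h1 := resc_le hκ hg k k
    rw [resc_diag, hk, Matrix.one_apply_eq, zero_sub, abs_neg, abs_one] at h1
    linarith
  have hcs : ∀ i j, cs σ i j ≤ cN i₁ i₂ i₃ σ N 0 0 0 i j := by
    intro i j
    simp only [cN, Pi.add_apply, Pi.smul_apply, smul_eq_mul]
    have h1 := ct_nonneg i₁ i₂ i₃ i j
    have h2 : (0 : ℝ) ≤ N := by positivity
    nlinarith [mul_nonneg h2 h1]
  have hu : IsUnit h.det := hn.isUnit hκ hdκ hcs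
  set A := resc σ h with hA
  set B := resc σ h' with hB
  set M := MM i₁ i₂ i₃ σ h with hM
  set M' := MM i₁ i₂ i₃ σ h' with hM'
  set K := KK i₁ i₂ i₃ σ h with hK
  have nA : NearOne κ (fun _ _ => 0) A := near_zero (resc_le hκ hn)
  have nM : NearOne κ (fun _ _ => 0) M := near_zero (MM_near hκ hn (hdiag hn) h12 h23 h13)
  have nM' : NearOne κ (fun _ _ => 0) M' := near_zero (MM_near hκ hn' (hdiag hn') h12 h23 h13)
  have nAi : NearOne (2 * κ) (fun _ _ => 0) A⁻¹ := nA.inv hκ hdκ tri_zero cs_zero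
  have nMi : NearOne (2 * κ) (fun _ _ => 0) M⁻¹ := nM.inv hκ hdκ tri_zero cs_zero
  have uA : IsUnit A.det := nA.isUnit hκ hdκ cs_zero
  have hMK : M * K = 1 := MM_KK h12 h23 h13 σ (hdiag hn)
  have hKi : M⁻¹ = K := Matrix.inv_eq_right_inv hMK
  rw [hKi] at nMi
  have bK := entry_le_two (by linarith) nMi
  have bA := entry_le_two (by linarith) nAi
  have bM' := entry_le_two (by linarith) nM'
  have hAA : A⁻¹ * A = 1 := Matrix.nonsing_inv_mul _ uA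
  have hid : B * A⁻¹ - M' * K = (B - M') * A⁻¹ - M' * A⁻¹ * (A - M) * K := by
    have e1 : M' * A⁻¹ * (A - M) * K = M' * K - M' * A⁻¹ := by
      rw [mul_sub, sub_mul, Matrix.mul_assoc M' A⁻¹ A, hAA, mul_one,
        Matrix.mul_assoc (M' * A⁻¹) M K, hMK, mul_one]
    rw [e1, sub_mul]
    abel
  have hfin : resc σ (h' * h⁻¹) i j - relM i₁ i₂ i₃ σ p h h' i j =
      ((B - M') * A⁻¹) i j - (M' * A⁻¹ * (A - M) * K) i j := by
    rw [resc_mul, resc_inv hu, ← MM_KK' h12 h23 h13 σ p h h', ← Matrix.sub_apply,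
      ← Matrix.sub_apply, ← hid]
  rw [hfin]
  set ε := κ * (1 / 2 : ℝ) ^ (8 * N) with hε
  have hε0 : 0 ≤ ε := by positivity
  have b1 : |((B - M') * A⁻¹) i j| ≤ d * ε * 2 :=
    mul_bound hε0 (MM_close hκ hn' (hdiag hn') h12 h23 h13) bA i j
  have b2 : ∀ i j, |(M' * A⁻¹) i j| ≤ d * 2 * 2 := mul_bound (by norm_num) bM' bA
  have b3 : ∀ i j, |(M' * A⁻¹ * (A - M)) i j| ≤ d * (d * 2 * 2) * ε :=
    mul_bound (by positivity) b2 (MM_close hκ hn (hdiag hn) h12 h23 h13)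
  have b4 : |(M' * A⁻¹ * (A - M) * K) i j| ≤ d * (d * (d * 2 * 2) * ε) * 2 :=
    mul_bound (by positivity) b3 bK i j
  have b5 : |((B - M') * A⁻¹) i j - (M' * A⁻¹ * (A - M) * K) i j| ≤
      d * ε * 2 + d * (d * (d * 2 * 2) * ε) * 2 := (abs_sub _ _).trans (add_le_add b1 b4)
  refine b5.trans ?_
  have hpow : (d : ℝ) ≤ 2 ^ N := by
    have h1 : d < 2 ^ d := Nat.lt_two_pow_self
    have h2 : 2 ^ d ≤ 2 ^ N := Nat.pow_le_pow_right (by norm_num) hN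
    exact_mod_cast (h1.le.trans h2)
  have e7 : (1 / 2 : ℝ) ^ (7 * N) = 2 ^ N * (1 / 2 : ℝ) ^ (8 * N) := by
    have e8 : (1 / 2 : ℝ) ^ (8 * N) = (1 / 2 : ℝ) ^ N * (1 / 2 : ℝ) ^ (7 * N) := by
      rw [← pow_add]
      congr 1
      ring
    rw [e8, ← mul_assoc, ← mul_pow]
    norm_num
  rw [e7]
  have hx0 : (0 : ℝ) ≤ (1 / 2 : ℝ) ^ (8 * N) := by positivity
  have e9 : d * ε * 2 + d * (d * (d * 2 * 2) * ε) * 2 =
      (2 * d * κ + 8 * d ^ 3 * κ) * (1 / 2 : ℝ) ^ (8 * N) := by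
    rw [hε]
    ring
  rw [e9]
  refine mul_le_mul_of_nonneg_right ?_ hx0
  refine le_trans ?_ hpow
  have f1 : 2 * (d : ℝ) * κ ≤ 2 * d ^ 3 * κ := by
    have : (d : ℝ) ≤ d ^ 3 := by nlinarith [mul_nonneg (sub_nonneg.mpr hd1) (sub_nonneg.mpr hdd)]
    nlinarith [mul_le_mul_of_nonneg_right this hκ]
  have f2 : (d : ℝ) ^ 3 * κ * 32 ≤ d := by
    have : (d : ℝ) * (32 * d ^ 2 * κ) ≤ d * 1 := mul_le_mul_of_nonneg_left hκd (by linarith)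
    nlinarith
  nlinarith

end Pool.Agent.Lib.P51n
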