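import Pool.Agent.Lib.P51n.GChart
import Pool.Agent.Lib.P51n.GRel
import Pool.Agent.Lib.P51n.CDefs
import Pool.Agent.Lib.P51n.BShapes

/-!
# P51n.GCells  (about 3 h)

Digit cells and closeness classes are comparable.  `κ₀ = 2^{-q}`, `p = q - 3`, so `2^{-p} = 8κ₀`.
`a = coA`, `b = coB`, `z = coZ` of `h x`, `|a|, |b| ≤ 1` (`|ĥ₁₂| ≤ 4κ₀`, `|ĥ₁₁ - 1| ≤ 4κ₀`).

There are seven pairs (map, shape):
`Y ↔ ct 0 0 0`, `(Y, dig N a) ↔ ct 1 0 0`, `(Y, dig N b) ↔ ct 0 1 0`,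
`(Y, (dig 2N b, dig 2N c)) ↔ ct 0 2 2`, `(Y, dig N a, (dig 2N b, dig 2N c)) ↔ ct 1 2 2`,
`(Y, (dig 2N a, dig 2N z)) ↔ ct 2 0 2`, `(Y, dig N b, (dig 2N a, dig 2N z)) ↔ ct 2 1 2`, `c = z - ab`.

`wt_le`: if `x, x' ∈ Ω` have the same value of the map, then `h_{x'} h_x⁻¹` maps `x` onto `x'` and is
`NearOne (16κ₀)` in the shape `ct 0 0 0` (`4κ₀ + 8κ₀ + …`), and by `rel_close` (error `2^{-7N}`,
`≤ κ₀ 2^{-2N}` because `q ≤ N`) the entries in the three roots are small: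
`|Q₁₂| ≤ 2·2^{-p}|a'-a| + 2^{-7N}`, `|Q₂₃| ≤ 2·2^{-p}|b'-b| + …`,
`|Q₁₃| ≤ 2·2^{-2p}|z'-z-(a'-a)b| + … = 2·2^{-2p}|c'-c+a'(b'-b)| + …`.
So `Near (64κ₀) c x x'`, and the fibre is contained in the closeness class: `wt ≤ ncard G (64κ₀)`.

`sum_ratio`: `double_count` with `r x y = Near κ₀ c x y` and the map itself: for fixed `y` and
`X = {x ∈ Ω : Near κ₀ c x y}`, two elements of `X` are `Near (4κ₀) c`; the values of `Y` on `X` are
at most `131^(d²)` (`pack`, `c ≥ ct 0 0 0`); for a fixed value of `Y`, the displacement between two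
elements `x, x'` of `X` is unique (`Disp.unique`), so `Q = h_{x'}h_x⁻¹` is `NearOne (4κ₀) c`, whence
`|a'-a| ≤ 5·2^{-αN}`, `|b'-b| ≤ 5·2^{-βN}`, `|z'-z-(a'-a)b| ≤ 2^{p+3} 2^{-γN}`, and the digits take at
most `12`, `12`, `2^{p+6}` values.  Total `≤ 131^(d²) · 2^(p+14)`.
-/

set_option autoImplicit false

noncomputable section

namespace Pool.Agent.Lib.P51n

open Classical in
/-- The comparison between the fibres of a map on `Ω` and the closeness classes of a shape. -/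
def Comp {d : ℕ} {β : Type} (q : ℕ) (G Ω : Finset (AddSubgroup (Fin d → ℤ)))
    (f : AddSubgroup (Fin d → ℤ) → β) (c : Fin d → Fin d → ℝ) : Prop :=
  (∀ x ∈ Ω, wt Ω f x ≤ ncard G (64 * (1 / 2 : ℝ) ^ q) c x) ∧
  ∑ x ∈ Ω, (ncard G ((1 / 2 : ℝ) ^ q) c x : ℝ) / wt Ω f x ≤
    131 ^ (d ^ 2) * 2 ^ (q + 14) * G.card

namespace GCellsAux

open GRelAux

/-- the weight of an exponent -/
def ww (N : ℕ) (α : ℝ) : ℝ := (2 : ℝ) ^ (-((N : ℝ) * α))

theorem ww_pos (N : ℕ) (α : ℝ) : 0 < ww N α := Real.rpow_pos_of_pos (by norm_num) _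

theorem ww_zero (N : ℕ) : ww N 0 = 1 := by simp [ww]

theorem ww_one (N : ℕ) : (2 : ℝ) ^ N * ww N 1 = 1 := by
  unfold ww
  rw [← Real.rpow_natCast, ← Real.rpow_add (by norm_num)]
  simp

theorem ww_two (N : ℕ) : (2 : ℝ) ^ (2 * N) * ww N 2 = 1 := by
  unfold ww
  rw [← Real.rpow_natCast, ← Real.rpow_add (by norm_num)]
  push_cast
  rw [show (2 : ℝ) * N + -(N * 2) = 0 by ring, Real.rpow_zero]

theorem ww_anti (N : ℕ) {α β : ℝ} (h : α ≤ β) : ww N β ≤ ww N α := by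
  unfold ww
  apply Real.rpow_le_rpow_of_exponent_le (by norm_num)
  have hN : (0 : ℝ) ≤ N := by positivity
  have := mul_le_mul_of_nonneg_left h hN
  linarith

variable {d : ℕ} {i₁ i₂ i₃ : Fin d} {σ : Fin d → ℝ} {N : ℕ}

theorem near_iff {κ α β γ : ℝ} {h : Matrix (Fin d) (Fin d) ℝ} :
    NearOne κ (cN i₁ i₂ i₃ σ N α β γ) h ↔ ∀ i j,
      |resc σ h i j - (1 : Matrix (Fin d) (Fin d) ℝ) i j| ≤
        κ * ww N (ct i₁ i₂ i₃ α β γ i j) := by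
  unfold NearOne
  refine forall_congr' fun i => forall_congr' fun j => ?_
  have h2 : (0 : ℝ) < 2 := by norm_num
  have e : resc σ h i j - (1 : Matrix (Fin d) (Fin d) ℝ) i j =
      (h i j - (1 : Matrix (Fin d) (Fin d) ℝ) i j) * (2 : ℝ) ^ (σ j - σ i) := by
    simp only [resc, Matrix.of_apply]
    by_cases hij : i = j
    · subst hij
      simp
    · simp [Matrix.one_apply_ne hij]
  have hpos : 0 < (2 : ℝ) ^ (σ j - σ i) := Real.rpow_pos_of_pos h2 _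
  have e2 : κ * ww N (ct i₁ i₂ i₃ α β γ i j) =
      (κ * (2 : ℝ) ^ (-cN i₁ i₂ i₃ σ N α β γ i j)) * (2 : ℝ) ^ (σ j - σ i) := by
    unfold ww
    rw [mul_assoc, ← Real.rpow_add h2]
    congr 2
    simp only [cN, cs, Pi.add_apply, Pi.smul_apply, smul_eq_mul]
    ring
  rw [e, abs_mul, abs_of_pos hpos, e2]
  exact (mul_le_mul_iff_left₀ hpos).symm

theorem two_sided {Q r t D E : ℝ} (hr : 7 / 8 ≤ r) (hr' : r ≤ 9 / 8) (ht : 0 ≤ t)
    (h : |Q - r * t * D| ≤ E) : |Q| ≤ 9 / 8 * t * |D| + E ∧ 7 / 8 * t * |D| ≤ |Q| + E := by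
  have e : |r * t * D| = r * t * |D| := by
    rw [abs_mul, abs_of_nonneg (mul_nonneg (by linarith) ht)]
  have h1 : |Q| ≤ |r * t * D| + E := by
    have := abs_sub_abs_le_abs_sub Q (r * t * D)
    linarith
  have h2 : |r * t * D| ≤ |Q| + E := by
    have := abs_sub_abs_le_abs_sub (r * t * D) Q
    rw [abs_sub_comm] at this
    linarith
  rw [e] at h1 h2
  have h3 : 0 ≤ t * |D| := mul_nonneg ht (abs_nonneg _)
  constructor
  · nlinarith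
  · nlinarith

theorem ratio_bounds {u v k : ℝ} (hk' : k ≤ 1 / 4096) (hu : |u - 1| ≤ 4 * k)
    (hv : |v - 1| ≤ 4 * k) : 7 / 8 ≤ u / v ∧ u / v ≤ 9 / 8 := by
  rw [abs_le] at hu hv
  have hv0 : 0 < v := by linarith
  constructor
  · rw [le_div_iff₀ hv0]
    linarith
  · rw [div_le_iff₀ hv0]
    linarith

/-- everything that is fixed -/
structure Ctx (N₀ : ℕ) (i₁ i₂ i₃ : Fin d) (σ : Fin d → ℝ) (N T : ℕ) (C : ℝ) (q : ℕ)
    (G Ω : Finset (AddSubgroup (Fin d → ℤ)))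
    (Y : AddSubgroup (Fin d → ℤ) → AddSubgroup (Fin d → ℤ))
    (h : AddSubgroup (Fin d → ℤ) → Matrix (Fin d) (Fin d) ℝ)
    (a b z : AddSubgroup (Fin d → ℤ) → ℝ) : Prop where
  rel : ∀ N : ℕ, N₀ ≤ N → ∀ (i₁ i₂ i₃ : Fin d), i₁ ≠ i₂ →
    i₂ ≠ i₃ → i₁ ≠ i₃ → ∀ (σ : Fin d → ℝ) (p : ℕ) (κ : ℝ), 0 ≤ κ → 32 * d ^ 2 * κ ≤ 1 →
    ∀ h h' : Matrix (Fin d) (Fin d) ℝ, NearOne κ (cN i₁ i₂ i₃ σ N 0 0 0) h →
      NearOne κ (cN i₁ i₂ i₃ σ N 0 0 0) h' →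
      ∀ i j, |resc σ (h' * h⁻¹) i j - relM i₁ i₂ i₃ σ p h h' i j| ≤ (1 / 2 : ℝ) ^ (7 * N)
  hd : 1 ≤ d
  hN : N₀ ≤ N
  h12 : i₁ ≠ i₂
  h23 : i₂ ≠ i₃
  h13 : i₁ ≠ i₃
  hT : 1 ≤ T
  hC : 1 ≤ C
  hs : Small d T C q
  hq : 3 ≤ q
  hqN : q ≤ N
  hG : Fam T C G
  hΩ : Ω ⊆ G
  hσ : Pos T σ
  ch : Chart q G Ω (cN i₁ i₂ i₃ σ N 0 0 0) Y h
  ha : ∀ x, a x = coA i₁ i₂ σ (q - 3) (h x)
  hb : ∀ x, b x = coB i₂ i₃ σ (q - 3) (h x)
  hz : ∀ x, z x = coZ i₁ i₃ σ (q - 3) (h x)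

namespace Ctx

variable {N₀ T : ℕ} {C : ℝ} {q : ℕ}
    {G Ω : Finset (AddSubgroup (Fin d → ℤ))}
    {Y : AddSubgroup (Fin d → ℤ) → AddSubgroup (Fin d → ℤ)}
    {h : AddSubgroup (Fin d → ℤ) → Matrix (Fin d) (Fin d) ℝ}
    {a b z : AddSubgroup (Fin d → ℤ) → ℝ}

section
variable (X : Ctx N₀ i₁ i₂ i₃ σ N T C q G Ω Y h a b z)

theorem kpos (_ : Ctx N₀ i₁ i₂ i₃ σ N T C q G Ω Y h a b z) : (0 : ℝ) < (1 / 2 : ℝ) ^ q := by
  positivity

include X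

theorem KK1 : (1 : ℝ) ≤ 8 * d * C * (T : ℝ) ^ (d - 1) := by
  have h1 : (1 : ℝ) ≤ d := by exact_mod_cast X.hd
  have h2 : (1 : ℝ) ≤ T := by exact_mod_cast X.hT
  have h3 : (1 : ℝ) ≤ (T : ℝ) ^ (d - 1) := one_le_pow₀ h2
  have h4 : (1 : ℝ) ≤ d * C := one_le_mul_of_one_le_of_one_le h1 X.hC
  have h5 : (1 : ℝ) ≤ d * C * (T : ℝ) ^ (d - 1) := one_le_mul_of_one_le_of_one_le h4 h3
  linarith

theorem small1 : (2 : ℝ) ^ 12 * d ^ 2 * (1 / 2 : ℝ) ^ q *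
    (8 * d * C * (T : ℝ) ^ (d - 1)) ^ (d + 1) ≤ 1 := by
  have h1 := X.hs
  unfold Small at h1
  have h2 : (2 : ℝ) ^ q * (1 / 2 : ℝ) ^ q = 1 := by
    rw [← mul_pow]
    norm_num
  have h3 := mul_le_mul_of_nonneg_right h1 X.kpos.le
  rw [h2] at h3
  calc _ = (2 : ℝ) ^ 12 * d ^ 2 * (8 * d * C * (T : ℝ) ^ (d - 1)) ^ (d + 1) *
        (1 / 2 : ℝ) ^ q := by ring
    _ ≤ 1 := h3

theorem small2 : (2 : ℝ) ^ 12 * d ^ 2 * (1 / 2 : ℝ) ^ q ≤ 1 := by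
  have h1 := X.small1
  have h2 : (1 : ℝ) ≤ (8 * d * C * (T : ℝ) ^ (d - 1)) ^ (d + 1) := one_le_pow₀ X.KK1
  have h3 : (0 : ℝ) ≤ (2 : ℝ) ^ 12 * d ^ 2 * (1 / 2 : ℝ) ^ q := by positivity
  nlinarith

theorem kle : (1 / 2 : ℝ) ^ q ≤ 1 / 4096 := by
  have h1 := X.small2
  have h2 : (1 : ℝ) ≤ (d : ℝ) ^ 2 := one_le_pow₀ (by exact_mod_cast X.hd)
  have h3 := X.kpos
  have h4 : (1 / 2 : ℝ) ^ q ≤ d ^ 2 * (1 / 2 : ℝ) ^ q := by nlinarith
  nlinarith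

theorem dk : (d : ℝ) * (1 / 2 : ℝ) ^ q ≤ 1 / 4096 := by
  have h1 := X.small2
  have h0 : (1 : ℝ) ≤ (d : ℝ) := by exact_mod_cast X.hd
  have h2 : (d : ℝ) ≤ (d : ℝ) ^ 2 := by nlinarith
  have h3 := X.kpos
  have h4 : (d : ℝ) * (1 / 2 : ℝ) ^ q ≤ d ^ 2 * (1 / 2 : ℝ) ^ q :=
    mul_le_mul_of_nonneg_right h2 h3.le
  nlinarith

omit X in
theorem hcs (_ : Ctx N₀ i₁ i₂ i₃ σ N T C q G Ω Y h a b z) (α β γ : ℝ) (hα : 0 ≤ α) (hβ : 0 ≤ β) (hγ : 0 ≤ γ) (i j : Fin d) :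
    cs σ i j ≤ cN i₁ i₂ i₃ σ N α β γ i j := by
  simp only [cN, Pi.add_apply, Pi.smul_apply, smul_eq_mul]
  have h1 := BSh.ct_nonneg (i₁ := i₁) (i₂ := i₂) (i₃ := i₃) hα hβ hγ i j
  have h2 : (0 : ℝ) ≤ N := by positivity
  nlinarith [mul_nonneg h2 h1]

theorem triN (α β γ : ℝ) (hα : 0 ≤ α) (hβ : 0 ≤ β) (hγ : 0 ≤ γ) (hα8 : α ≤ 8) (hβ8 : β ≤ 8)
    (hγ' : γ ≤ α + β) (hγ8 : γ ≤ 8) : Tri (cN i₁ i₂ i₃ σ N α β γ) := by
  have h1 := tri_ct X.h12 X.h23 X.h13 hα hβ hγ hα8 hβ8 hγ' hγ8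
  have h2 : (0 : ℝ) ≤ N := by positivity
  constructor
  · intro i
    simp only [cN, cs, Pi.add_apply, Pi.smul_apply, smul_eq_mul]
    rw [h1.1 i]
    ring
  · intro i j k
    simp only [cN, cs, Pi.add_apply, Pi.smul_apply, smul_eq_mul]
    have h3 := mul_le_mul_of_nonneg_left (h1.2 i j k) h2
    linarith

theorem unit {x : AddSubgroup (Fin d → ℤ)} (hx : x ∈ Ω) : IsUnit (h x).det := by
  refine (X.ch.near x hx).isUnit (s := σ) (by positivity) ?_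
    (X.hcs 0 0 0 le_rfl le_rfl le_rfl)
  have := X.dk
  nlinarith

/-- the displacement from `x` to `x'` -/
theorem disp {x x' : AddSubgroup (Fin d → ℤ)} (hx : x ∈ Ω) (hx' : x' ∈ Ω) (hY : Y x' = Y x) :
    Disp (h x' * (h x)⁻¹) x x' := by
  have h1 := (X.ch.disp x hx).inv (X.unit hx)
  have h2 := X.ch.disp x' hx'
  rw [hY] at h2
  exact h1.mul h2

theorem near16 {x x' : AddSubgroup (Fin d → ℤ)} (hx : x ∈ Ω) (hx' : x' ∈ Ω) :
    NearOne (16 * (1 / 2 : ℝ) ^ q) (cN i₁ i₂ i₃ σ N 0 0 0) (h x' * (h x)⁻¹) := by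
  have hk := X.kpos
  have hdk := X.dk
  have htri := X.triN 0 0 0 le_rfl le_rfl le_rfl (by norm_num) (by norm_num) (by norm_num)
    (by norm_num)
  have h1 := (X.ch.near x hx).inv (s := σ) (by positivity) (by nlinarith) htri
    (X.hcs 0 0 0 le_rfl le_rfl le_rfl)
  have h2 := NearOne.mul (by positivity) (by positivity) htri (X.ch.near x' hx') h1
  refine h2.mono ?_ (by positivity) (fun i j => le_rfl)
  have h3 : (d : ℝ) * (4 * (1 / 2 : ℝ) ^ q * (2 * (4 * (1 / 2 : ℝ) ^ q))) =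
      32 * (d * (1 / 2 : ℝ) ^ q) * (1 / 2 : ℝ) ^ q := by ring
  rw [h3]
  nlinarith

theorem rdiag {x : AddSubgroup (Fin d → ℤ)} (hx : x ∈ Ω) (i : Fin d) :
    |h x i i - 1| ≤ 4 * (1 / 2 : ℝ) ^ q := by
  have h1 := resc_le (by positivity) (X.ch.near x hx) i i
  rwa [resc_diag, Matrix.one_apply_eq] at h1

theorem roff {x : AddSubgroup (Fin d → ℤ)} (hx : x ∈ Ω) {i j : Fin d} (hij : i ≠ j) :
    |resc σ (h x) i j| ≤ 4 * (1 / 2 : ℝ) ^ q := by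
  have h1 := resc_le (by positivity) (X.ch.near x hx) i j
  rwa [Matrix.one_apply_ne hij, sub_zero] at h1

theorem p3 : (1 / 2 : ℝ) ^ (q - 3) = 8 * (1 / 2 : ℝ) ^ q := by
  obtain ⟨p, hp⟩ : ∃ p, q = p + 3 := ⟨q - 3, by have := X.hq; omega⟩
  rw [hp, Nat.add_sub_cancel, pow_add]
  norm_num
  ring

theorem p3' : (1 / 2 : ℝ) ^ (2 * (q - 3)) = 64 * ((1 / 2 : ℝ) ^ q) ^ 2 := by
  rw [mul_comm 2, pow_mul, X.p3]
  ring

theorem p2 : (2 : ℝ) ^ (q - 3) * (8 * (1 / 2 : ℝ) ^ q) = 1 := by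
  rw [← X.p3, ← mul_pow]
  norm_num

theorem co_bound {x : AddSubgroup (Fin d → ℤ)} (hx : x ∈ Ω) {i j : Fin d} (hij : i ≠ j) :
    |2 ^ (q - 3) * resc σ (h x) i j / h x i i| ≤ 1 := by
  have h1 := X.rdiag hx i
  have h2 := X.roff hx hij
  have h3 := X.p2
  have hk := X.kle
  rw [abs_le] at h1
  have h4 : (0 : ℝ) < h x i i := by linarith
  rw [abs_div, abs_of_pos h4, div_le_one h4, abs_mul, abs_of_pos (by positivity)]
  have h5 : (2 : ℝ) ^ (q - 3) * |resc σ (h x) i j| ≤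
      2 ^ (q - 3) * (4 * (1 / 2 : ℝ) ^ q) := mul_le_mul_of_nonneg_left h2 (by positivity)
  linarith

theorem bounds {x : AddSubgroup (Fin d → ℤ)} (hx : x ∈ Ω) :
    |a x| ≤ 1 ∧ |b x| ≤ 1 ∧ |z x| ≤ 2 ^ q := by
  refine ⟨?_, ?_, ?_⟩
  · rw [X.ha]
    exact X.co_bound hx X.h12
  · rw [X.hb]
    exact X.co_bound hx X.h23
  · rw [X.hz]
    have h1 := X.co_bound hx X.h13
    unfold coZ
    have e : (2 : ℝ) ^ (2 * (q - 3)) * resc σ (h x) i₁ i₃ / h x i₁ i₁ =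
        2 ^ (q - 3) * (2 ^ (q - 3) * resc σ (h x) i₁ i₃ / h x i₁ i₁) := by
      rw [two_mul, pow_add]
      ring
    rw [e, abs_mul, abs_of_pos (by positivity)]
    calc (2 : ℝ) ^ (q - 3) * |2 ^ (q - 3) * resc σ (h x) i₁ i₃ / h x i₁ i₁|
        ≤ 2 ^ (q - 3) * 1 := mul_le_mul_of_nonneg_left h1 (by positivity)
      _ ≤ 2 ^ q := by
        rw [mul_one]
        exact pow_le_pow_right₀ (by norm_num) (Nat.sub_le _ _)

theorem err : (1 / 2 : ℝ) ^ (7 * N) ≤ (1 / 2 : ℝ) ^ q * ww N 2 := by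
  have h1 : ww N 2 = (1 / 2 : ℝ) ^ (2 * N) := by
    have h2 := ww_two N
    have h3 : (2 : ℝ) ^ (2 * N) * (1 / 2 : ℝ) ^ (2 * N) = 1 := by
      rw [← mul_pow]
      norm_num
    have h4 : (0 : ℝ) < (2 : ℝ) ^ (2 * N) := by positivity
    exact mul_left_cancel₀ h4.ne' (h2.trans h3.symm)
  rw [h1, ← pow_add]
  apply pow_le_pow_of_le_one (by norm_num) (by norm_num)
  have := X.hqN
  omega

/-- the six inequalities -/
theorem six {x x' : AddSubgroup (Fin d → ℤ)} (hx : x ∈ Ω) (hx' : x' ∈ Ω) :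
    (|resc σ (h x' * (h x)⁻¹) i₁ i₂| ≤ 9 * (1 / 2 : ℝ) ^ q * |a x' - a x| +
      (1 / 2 : ℝ) ^ q * ww N 2 ∧
     7 * (1 / 2 : ℝ) ^ q * |a x' - a x| ≤ |resc σ (h x' * (h x)⁻¹) i₁ i₂| +
      (1 / 2 : ℝ) ^ q * ww N 2) ∧
    (|resc σ (h x' * (h x)⁻¹) i₂ i₃| ≤ 9 * (1 / 2 : ℝ) ^ q * |b x' - b x| +
      (1 / 2 : ℝ) ^ q * ww N 2 ∧
     7 * (1 / 2 : ℝ) ^ q * |b x' - b x| ≤ |resc σ (h x' * (h x)⁻¹) i₂ i₃| +
      (1 / 2 : ℝ) ^ q * ww N 2) ∧
    (|resc σ (h x' * (h x)⁻¹) i₁ i₃| ≤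
      72 * ((1 / 2 : ℝ) ^ q) ^ 2 * |z x' - z x - (a x' - a x) * b x| +
      (1 / 2 : ℝ) ^ q * ww N 2 ∧
     56 * ((1 / 2 : ℝ) ^ q) ^ 2 * |z x' - z x - (a x' - a x) * b x| ≤
      |resc σ (h x' * (h x)⁻¹) i₁ i₃| + (1 / 2 : ℝ) ^ q * ww N 2) := by
  have hr := X.rel N X.hN i₁ i₂ i₃ X.h12 X.h23 X.h13 σ (q - 3) (4 * (1 / 2 : ℝ) ^ q)
    (by positivity) (by have := X.small2; nlinarith) (h x) (h x') (X.ch.near x hx)
    (X.ch.near x' hx')
  have hk := X.kle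
  have hk0 := X.kpos
  have r12 : relM i₁ i₂ i₃ σ (q - 3) (h x) (h x') i₁ i₂ =
      h x' i₁ i₁ / h x i₂ i₂ * (8 * (1 / 2 : ℝ) ^ q) * (a x' - a x) := by
    unfold relM
    rw [Matrix.of_apply, if_neg X.h12, if_pos ⟨rfl, rfl⟩, X.p3, X.ha, X.ha]
  have r23 : relM i₁ i₂ i₃ σ (q - 3) (h x) (h x') i₂ i₃ =
      h x' i₂ i₂ / h x i₃ i₃ * (8 * (1 / 2 : ℝ) ^ q) * (b x' - b x) := by
    unfold relM
    rw [Matrix.of_apply, if_neg X.h23, if_neg (fun hh => X.h12 hh.1.symm), if_pos ⟨rfl, rfl⟩,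
      X.p3, X.hb, X.hb]
  have r13 : relM i₁ i₂ i₃ σ (q - 3) (h x) (h x') i₁ i₃ =
      h x' i₁ i₁ / h x i₃ i₃ * (64 * ((1 / 2 : ℝ) ^ q) ^ 2) *
        (z x' - z x - (a x' - a x) * b x) := by
    unfold relM
    rw [Matrix.of_apply, if_neg X.h13, if_neg (fun hh => X.h23 hh.2.symm),
      if_neg (fun hh => X.h12 hh.1), if_pos ⟨rfl, rfl⟩, X.p3', X.hz, X.hz, X.ha, X.ha, X.hb]
  have e12 := hr i₁ i₂
  have e23 := hr i₂ i₃
  have e13 := hr i₁ i₃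
  rw [r12] at e12
  rw [r23] at e23
  rw [r13] at e13
  obtain ⟨u1, u2⟩ := ratio_bounds hk (X.rdiag hx' i₁) (X.rdiag hx i₂)
  obtain ⟨u3, u4⟩ := ratio_bounds hk (X.rdiag hx' i₂) (X.rdiag hx i₃)
  obtain ⟨u5, u6⟩ := ratio_bounds hk (X.rdiag hx' i₁) (X.rdiag hx i₃)
  have s12 := two_sided u1 u2 (by positivity) (e12.trans X.err)
  have s23 := two_sided u3 u4 (by positivity) (e23.trans X.err)
  have s13 := two_sided u5 u6 (by positivity) (e13.trans X.err)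
  refine ⟨⟨?_, ?_⟩, ⟨?_, ?_⟩, ⟨?_, ?_⟩⟩
  · linarith [s12.1]
  · linarith [s12.2]
  · linarith [s23.1]
  · linarith [s23.2]
  · linarith [s13.1]
  · linarith [s13.2]

/-- closeness from small differences -/
theorem near_of {α β γ : ℝ} (hα2 : α ≤ 2) (hβ2 : β ≤ 2)
    (hγ2 : γ ≤ 2) {x x' : AddSubgroup (Fin d → ℤ)} (hx : x ∈ Ω) (hx' : x' ∈ Ω)
    (h1 : α = 0 ∨ |a x' - a x| ≤ ww N α) (h2 : β = 0 ∨ |b x' - b x| ≤ ww N β)
    (h3 : γ = 0 ∨ |z x' - z x - (a x' - a x) * b x| ≤ 2 * ww N γ) :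
    NearOne (64 * (1 / 2 : ℝ) ^ q) (cN i₁ i₂ i₃ σ N α β γ) (h x' * (h x)⁻¹) := by
  obtain ⟨⟨s1, -⟩, ⟨s2, -⟩, ⟨s3, -⟩⟩ := X.six hx hx'
  have hn := near_iff.1 (X.near16 hx hx')
  have hk := X.kpos
  have hk' := X.kle
  rw [near_iff]
  intro i j
  have hij := hn i j
  by_cases e : i = j
  · subst e
    rw [BSh.ct_diag, ww_zero] at hij ⊢
    linarith
  by_cases c1 : i = i₁ ∧ j = i₂
  · obtain ⟨rfl, rfl⟩ := c1
    rw [BSh.ct_12 X.h12] at hij ⊢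
    rcases h1 with h1 | h1
    · rw [h1]
      have := ww_pos N 0
      nlinarith
    · rw [Matrix.one_apply_ne e, sub_zero]
      have w1 := ww_anti N hα2
      have w2 := ww_pos N α
      nlinarith [mul_le_mul_of_nonneg_left h1 hk.le, mul_le_mul_of_nonneg_left w1 hk.le,
        mul_pos hk w2]
  by_cases c2 : i = i₂ ∧ j = i₃
  · obtain ⟨rfl, rfl⟩ := c2
    rw [BSh.ct_23 X.h12 X.h23] at hij ⊢
    rcases h2 with h2 | h2
    · rw [h2]
      have := ww_pos N 0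
      nlinarith
    · rw [Matrix.one_apply_ne e, sub_zero]
      have w1 := ww_anti N hβ2
      have w2 := ww_pos N β
      nlinarith [mul_le_mul_of_nonneg_left h2 hk.le, mul_le_mul_of_nonneg_left w1 hk.le,
        mul_pos hk w2]
  by_cases c3 : i = i₁ ∧ j = i₃
  · obtain ⟨rfl, rfl⟩ := c3
    rw [BSh.ct_13 X.h12 X.h23 X.h13] at hij ⊢
    rcases h3 with h3 | h3
    · rw [h3]
      have := ww_pos N 0
      nlinarith
    · rw [Matrix.one_apply_ne e, sub_zero]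
      have w1 := ww_anti N hγ2
      have w2 := ww_pos N γ
      have w3 : ((1 / 2 : ℝ) ^ q) ^ 2 ≤ (1 / 4096) * (1 / 2 : ℝ) ^ q := by nlinarith
      have w4 : ((1 / 2 : ℝ) ^ q) ^ 2 * |z x' - z x - (a x' - a x) * b x| ≤
          (1 / 4096) * (1 / 2 : ℝ) ^ q * (2 * ww N γ) :=
        mul_le_mul w3 h3 (abs_nonneg _) (by positivity)
      have w5 := mul_le_mul_of_nonneg_left w1 hk.le
      have w6 := mul_pos hk w2
      linarith
  · rw [BSh.ct_other e c1 c2 c3] at hij ⊢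
    have := mul_pos hk (ww_pos N 8)
    linarith

/-- small differences from closeness -/
theorem of_near {α β γ : ℝ} (hα2 : α ≤ 2) (hβ2 : β ≤ 2)
    (hγ2 : γ ≤ 2) {x x' : AddSubgroup (Fin d → ℤ)} (hx : x ∈ Ω) (hx' : x' ∈ Ω)
    (hn : NearOne (4 * (1 / 2 : ℝ) ^ q) (cN i₁ i₂ i₃ σ N α β γ) (h x' * (h x)⁻¹)) :
    |a x' - a x| ≤ ww N α ∧ |b x' - b x| ≤ ww N β ∧
      |z x' - z x - (a x' - a x) * b x| ≤ 2 ^ q * ww N γ := by
  obtain ⟨⟨-, s1⟩, ⟨-, s2⟩, ⟨-, s3⟩⟩ := X.six hx hx'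
  rw [near_iff] at hn
  have hk := X.kpos
  have hk' := X.kle
  have n12 := hn i₁ i₂
  have n23 := hn i₂ i₃
  have n13 := hn i₁ i₃
  rw [BSh.ct_12 X.h12, Matrix.one_apply_ne X.h12, sub_zero] at n12
  rw [BSh.ct_23 X.h12 X.h23, Matrix.one_apply_ne X.h23, sub_zero] at n23
  rw [BSh.ct_13 X.h12 X.h23 X.h13, Matrix.one_apply_ne X.h13, sub_zero] at n13
  refine ⟨?_, ?_, ?_⟩
  · have w1 := mul_le_mul_of_nonneg_left (ww_anti N hα2) hk.le
    have w2 := mul_pos hk (ww_pos N α)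
    have w3 : (1 / 2 : ℝ) ^ q * |a x' - a x| ≤ (1 / 2 : ℝ) ^ q * ww N α := by linarith
    exact le_of_mul_le_mul_left w3 hk
  · have w1 := mul_le_mul_of_nonneg_left (ww_anti N hβ2) hk.le
    have w2 := mul_pos hk (ww_pos N β)
    have w3 : (1 / 2 : ℝ) ^ q * |b x' - b x| ≤ (1 / 2 : ℝ) ^ q * ww N β := by linarith
    exact le_of_mul_le_mul_left w3 hk
  · have w1 := mul_le_mul_of_nonneg_left (ww_anti N hγ2) hk.le
    have w2 := mul_pos hk (ww_pos N γ)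
    have w3 : ((1 / 2 : ℝ) ^ q) ^ 2 * |z x' - z x - (a x' - a x) * b x| ≤
        (1 / 2 : ℝ) ^ q * ww N γ := by linarith
    have w4 : (2 : ℝ) ^ q * (1 / 2 : ℝ) ^ q = 1 := by
      rw [← mul_pow]
      norm_num
    have w5 := mul_le_mul_of_nonneg_left w3 (by positivity : (0 : ℝ) ≤ (2 ^ q) ^ 2)
    calc |z x' - z x - (a x' - a x) * b x|
        = (2 ^ q * (1 / 2 : ℝ) ^ q) ^ 2 * |z x' - z x - (a x' - a x) * b x| := by
          rw [w4, one_pow, one_mul]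
      _ = (2 ^ q) ^ 2 * (((1 / 2 : ℝ) ^ q) ^ 2 * |z x' - z x - (a x' - a x) * b x|) := by ring
      _ ≤ (2 ^ q) ^ 2 * ((1 / 2 : ℝ) ^ q * ww N γ) := w5
      _ = 2 ^ q * ww N γ * (2 ^ q * (1 / 2 : ℝ) ^ q) := by ring
      _ = 2 ^ q * ww N γ := by rw [w4, mul_one]

/-- two elements of `Ω` in the same piece which are close to `y` -/
theorem close_pair {α β γ : ℝ} (hα : 0 ≤ α) (hβ : 0 ≤ β) (hγ : 0 ≤ γ) (hα2 : α ≤ 2)
    (hβ2 : β ≤ 2) (hγ2 : γ ≤ 2) (hγ' : γ ≤ α + β) {x x' y : AddSubgroup (Fin d → ℤ)}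
    (hx : x ∈ Ω) (hx' : x' ∈ Ω) (hY : Y x' = Y x)
    (h1 : Near ((1 / 2 : ℝ) ^ q) (cN i₁ i₂ i₃ σ N α β γ) x y)
    (h2 : Near ((1 / 2 : ℝ) ^ q) (cN i₁ i₂ i₃ σ N α β γ) x' y) :
    NearOne (4 * (1 / 2 : ℝ) ^ q) (cN i₁ i₂ i₃ σ N α β γ) (h x' * (h x)⁻¹) := by
  have hk := X.kpos
  have hdk := X.dk
  have htri := X.triN α β γ hα hβ hγ (by linarith) (by linarith) hγ' (by linarith)
  have hc := X.hcs α β γ hα hβ hγ
  have h3 := Near.symm hk.le (by nlinarith) htri hc h2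
  have h4 := Near.trans hk.le (by positivity) htri h1 h3
  have h5 : Near (4 * (1 / 2 : ℝ) ^ q) (cN i₁ i₂ i₃ σ N α β γ) x x' := by
    refine h4.mono ?_ (by positivity) (fun i j => le_rfl)
    have h6 : (d : ℝ) * ((1 / 2 : ℝ) ^ q * (2 * (1 / 2 : ℝ) ^ q)) =
      2 * (d * (1 / 2 : ℝ) ^ q) * (1 / 2 : ℝ) ^ q := by ring
    rw [h6]
    nlinarith
  obtain ⟨g, g1, g2⟩ := h5
  have hgood : Good T C x := X.hG.good x (X.hΩ hx)
  have hgood' : Good T C x' := X.hG.good x' (X.hΩ hx')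
  have hK := X.KK1
  have huniq : g = h x' * (h x)⁻¹ := by
    refine Disp.unique (κ := 16 * (1 / 2 : ℝ) ^ q) (s := σ)
      (sys_good X.hT X.hC hgood' X.hσ) (spn_good X.hd X.hT X.hC hgood X.hσ) (by positivity)
      (by positivity) ?_ g1 (X.disp hx hx' hY) ?_ ?_
    · have h7 := X.small1
      have hd1 : (1 : ℝ) ≤ d := by exact_mod_cast X.hd
      have hT1 : (0 : ℝ) < (T : ℝ) ^ (d - 1) := by
        have : (0 : ℝ) < T := by exact_mod_cast X.hT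
        positivity
      have hC0 : 0 < C := by linarith [X.hC]
      rw [lt_div_iff₀ (by positivity)]
      set K := 8 * d * C * (T : ℝ) ^ (d - 1) with hKdef
      have e : 2 * (d : ℝ) * (16 * (1 / 2 : ℝ) ^ q) * K ^ d * (2 * C * (T : ℝ) ^ (d - 1)) =
          8 * ((1 / 2 : ℝ) ^ q * K ^ (d + 1)) := by
        rw [pow_succ, hKdef]
        ring
      rw [e]
      have h8 : (0 : ℝ) < (1 / 2 : ℝ) ^ q * K ^ (d + 1) := by positivity
      have h9 : (1 : ℝ) ≤ (d : ℝ) ^ 2 := one_le_pow₀ hd1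
      have h10 : (2 : ℝ) ^ 12 * d ^ 2 * (1 / 2 : ℝ) ^ q * K ^ (d + 1) =
          (4096 * d ^ 2) * ((1 / 2 : ℝ) ^ q * K ^ (d + 1)) := by
        norm_num
        ring
      rw [h10] at h7
      nlinarith
    · exact g2.mono (by linarith) (by positivity) hc
    · exact (X.near16 hx hx').mono le_rfl (by positivity) (X.hcs 0 0 0 le_rfl le_rfl le_rfl)
  rw [← huniq]
  exact g2

open Classical in
/-- the general comparison -/
theorem comp_of {β' : Type} (f : AddSubgroup (Fin d → ℤ) → β') {α β γ : ℝ} (hα : 0 ≤ α)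
    (hβ : 0 ≤ β) (hγ : 0 ≤ γ) (hα2 : α ≤ 2) (hβ2 : β ≤ 2) (hγ2 : γ ≤ 2) (hγ' : γ ≤ α + β)
    (H1 : ∀ x ∈ Ω, ∀ x' ∈ Ω, f x' = f x → Y x' = Y x ∧ (α = 0 ∨ |a x' - a x| ≤ ww N α) ∧
      (β = 0 ∨ |b x' - b x| ≤ ww N β) ∧
      (γ = 0 ∨ |z x' - z x - (a x' - a x) * b x| ≤ 2 * ww N γ))
    (H2 : ∀ x ∈ Ω, ∃ S : Finset β', (S.card : ℝ) ≤ 2 ^ (q + 14) ∧ ∀ x' ∈ Ω, Y x' = Y x →
      |a x' - a x| ≤ ww N α → |b x' - b x| ≤ ww N β →
      |z x' - z x - (a x' - a x) * b x| ≤ 2 ^ q * ww N γ → f x' ∈ S) :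
    Comp q G Ω f (cN i₁ i₂ i₃ σ N α β γ) := by
  constructor
  · intro x hx
    unfold wt ncard fib
    rw [Nat.cast_le]
    apply Finset.card_le_card
    intro x' hx'
    rw [Finset.mem_filter] at hx' ⊢
    obtain ⟨k1, k2, k3, k4⟩ := H1 x hx x' hx'.1 hx'.2
    exact ⟨X.hΩ hx'.1, h x' * (h x)⁻¹, X.disp hx hx'.1 k1,
      X.near_of hα2 hβ2 hγ2 hx hx'.1 k2 k3 k4⟩
  · have key := double_count (ι := β') Ω G
      (fun x y => Near ((1 / 2 : ℝ) ^ q) (cN i₁ i₂ i₃ σ N α β γ) x y)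
      (fun x => (fib Ω f x).card) (131 ^ (d ^ 2) * 2 ^ (q + 14)) ?_
    · exact key
    intro y hy
    refine ⟨f, ?_, ?_⟩
    · obtain ⟨Z, hZ1, hZ2⟩ := X.ch.pack y hy
        (Ω.filter fun x => Near ((1 / 2 : ℝ) ^ q) (cN i₁ i₂ i₃ σ N α β γ) x y)
        (Finset.filter_subset _ _) (fun x hx => by
          refine (Finset.mem_filter.1 hx).2.mono le_rfl X.kpos.le fun i j => ?_
          simp only [cN, Pi.add_apply, Pi.smul_apply, smul_eq_mul]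
          have h2 : (0 : ℝ) ≤ N := by positivity
          have h3 : ct i₁ i₂ i₃ 0 0 0 i j ≤ ct i₁ i₂ i₃ α β γ i j := by
            unfold ct
            split_ifs <;> first | assumption | exact le_rfl
          have := mul_le_mul_of_nonneg_left h3 h2
          linarith)
      have hS : ∀ w : AddSubgroup (Fin d → ℤ), ∃ S : Finset β', (S.card : ℝ) ≤ 2 ^ (q + 14) ∧
          ∀ x ∈ Ω.filter fun x => Near ((1 / 2 : ℝ) ^ q) (cN i₁ i₂ i₃ σ N α β γ) x y,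
            Y x = w → f x ∈ S := by
        intro w
        by_cases hex : ∃ x ∈ Ω.filter fun x => Near ((1 / 2 : ℝ) ^ q)
            (cN i₁ i₂ i₃ σ N α β γ) x y, Y x = w
        · obtain ⟨x, hx, hxw⟩ := hex
          rw [Finset.mem_filter] at hx
          obtain ⟨S, hS1, hS2⟩ := H2 x hx.1
          refine ⟨S, hS1, fun x' hx' hxw' => ?_⟩
          rw [Finset.mem_filter] at hx'
          have hY : Y x' = Y x := hxw'.trans hxw.symm
          obtain ⟨l1, l2, l3⟩ := X.of_near hα2 hβ2 hγ2 hx.1 hx'.1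
            (X.close_pair hα hβ hγ hα2 hβ2 hγ2 hγ' hx.1 hx'.1 hY hx.2 hx'.2)
          exact hS2 x' hx'.1 hY l1 l2 l3
        · refine ⟨∅, by simp, fun x hx hxw => absurd ⟨x, hx, hxw⟩ hex⟩
      choose S hS1 hS2 using hS
      have hsub : ((Ω.filter fun x => Near ((1 / 2 : ℝ) ^ q)
          (cN i₁ i₂ i₃ σ N α β γ) x y).image f) ⊆ Z.biUnion S := by
        intro v hv
        rw [Finset.mem_image] at hv
        obtain ⟨x, hx, rfl⟩ := hv
        rw [Finset.mem_biUnion]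
        exact ⟨Y x, hZ2 x hx, hS2 _ x hx rfl⟩
      have hc1 : ((((Ω.filter fun x => Near ((1 / 2 : ℝ) ^ q)
          (cN i₁ i₂ i₃ σ N α β γ) x y).image f)).card : ℝ) ≤ ∑ w ∈ Z, ((S w).card : ℝ) := by
        have h1 := (Finset.card_le_card hsub).trans Finset.card_biUnion_le
        exact_mod_cast h1
      refine hc1.trans ((Finset.sum_le_sum fun w _ => hS1 w).trans ?_)
      rw [Finset.sum_const, nsmul_eq_mul]
      exact mul_le_mul_of_nonneg_right hZ1 (by positivity)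
    · intro x hx hxy
      apply Finset.card_le_card
      intro x' hx'
      rw [Finset.mem_filter] at hx'
      unfold fib
      rw [Finset.mem_filter]
      exact ⟨hx'.1, hx'.2.2⟩

end

end Ctx

/-- the integers within `M + 1` of `t` -/
def J (M : ℕ) (t : ℤ) : Finset ℤ := Finset.Icc (t - (M + 1)) (t + (M + 1))

theorem card_J (M : ℕ) (t : ℤ) : (J M t).card = 2 * M + 3 := by
  unfold J
  rw [Int.card_Icc]
  omega

theorem floor_J {u u' : ℝ} {M : ℕ} (h : |u' - u| ≤ M) : ⌊u'⌋ ∈ J M ⌊u⌋ := by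
  unfold J
  rw [Finset.mem_Icc]
  rw [abs_le] at h
  have h1 := Int.floor_le u
  have h2 := Int.lt_floor_add_one u
  have h3 := Int.floor_le u'
  have h4 := Int.lt_floor_add_one u'
  constructor
  · have : (⌊u⌋ : ℝ) < (⌊u'⌋ : ℝ) + (M + 1) + 1 := by linarith
    have h5 : (⌊u⌋ : ℤ) < ⌊u'⌋ + (M + 1) + 1 := by exact_mod_cast this
    omega
  · have : (⌊u'⌋ : ℝ) < (⌊u⌋ : ℝ) + (M + 1) + 1 := by linarith
    have h5 : (⌊u'⌋ : ℤ) < ⌊u⌋ + (M + 1) + 1 := by exact_mod_cast this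
    omega

section Dig

variable {A : Type} {u : A → ℝ} {x x' : A}

/-- one scale -/
theorem dig_one_mem (h : |u x' - u x| ≤ ww N 1) : dig N u x' ∈ J 1 (dig N u x) := by
  unfold dig
  apply floor_J
  rw [← mul_sub, abs_mul, abs_of_pos (by positivity : (0 : ℝ) < 2 ^ N)]
  have h1 := mul_le_mul_of_nonneg_left h (by positivity : (0 : ℝ) ≤ 2 ^ N)
  rw [ww_one] at h1
  simpa using h1

theorem dig_two_mem {M : ℕ} (h : |u x' - u x| ≤ M * ww N 2) :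
    dig (2 * N) u x' ∈ J M (dig (2 * N) u x) := by
  unfold dig
  apply floor_J
  rw [← mul_sub, abs_mul, abs_of_pos (by positivity : (0 : ℝ) < 2 ^ (2 * N))]
  have h1 := mul_le_mul_of_nonneg_left h (by positivity : (0 : ℝ) ≤ 2 ^ (2 * N))
  calc _ ≤ 2 ^ (2 * N) * (M * ww N 2) := h1
    _ = M * (2 ^ (2 * N) * ww N 2) := by ring
    _ = M := by rw [ww_two, mul_one]

theorem dig_one_eq (h : dig N u x' = dig N u x) : |u x' - u x| ≤ ww N 1 := by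
  have h1 := (Int.abs_sub_lt_one_of_floor_eq_floor h).le
  rw [← mul_sub, abs_mul, abs_of_pos (by positivity : (0 : ℝ) < 2 ^ N), ← ww_one N] at h1
  exact le_of_mul_le_mul_left h1 (by positivity)

theorem dig_two_eq (h : dig (2 * N) u x' = dig (2 * N) u x) : |u x' - u x| ≤ ww N 2 := by
  have h1 := (Int.abs_sub_lt_one_of_floor_eq_floor h).le
  rw [← mul_sub, abs_mul, abs_of_pos (by positivity : (0 : ℝ) < 2 ^ (2 * N)), ← ww_two N] at h1
  exact le_of_mul_le_mul_left h1 (by positivity)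

end Dig

theorem pow_facts {q : ℕ} (hq : 3 ≤ q) : (8 : ℝ) ≤ 2 ^ q ∧ (2 : ℝ) ^ (q + 14) = 16384 * 2 ^ q := by
  constructor
  · calc (8 : ℝ) = 2 ^ 3 := by norm_num
      _ ≤ 2 ^ q := pow_le_pow_right₀ (by norm_num) hq
  · rw [pow_add]
    norm_num
    ring

end GCellsAux

open GCellsAux

theorem comp_all (d : ℕ) (hd : 3 ≤ d) : ∃ N₀ : ℕ, ∀ N : ℕ, N₀ ≤ N → ∀ (i₁ i₂ i₃ : Fin d),
    i₁ ≠ i₂ → i₂ ≠ i₃ → i₁ ≠ i₃ → ∀ (T : ℕ) (C : ℝ) (q : ℕ), 1 ≤ T → 1 ≤ C → Small d T C q →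
    3 ≤ q → q ≤ N → ∀ (G Ω : Finset (AddSubgroup (Fin d → ℤ))), Fam T C G → Ω ⊆ G →
    ∀ σ : Fin d → ℝ, Pos T σ → ∀ Y h, Chart q G Ω (cN i₁ i₂ i₃ σ N 0 0 0) Y h →
    ∀ a b z : AddSubgroup (Fin d → ℤ) → ℝ, (∀ x, a x = coA i₁ i₂ σ (q - 3) (h x)) →
    (∀ x, b x = coB i₂ i₃ σ (q - 3) (h x)) → (∀ x, z x = coZ i₁ i₃ σ (q - 3) (h x)) →
    (∀ x ∈ Ω, |a x| ≤ 1 ∧ |b x| ≤ 1 ∧ |z x| ≤ 2 ^ q) ∧
    Comp q G Ω Y (cN i₁ i₂ i₃ σ N 0 0 0) ∧
    Comp q G Ω (fun y => (Y y, dig N a y)) (cN i₁ i₂ i₃ σ N 1 0 0) ∧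
    Comp q G Ω (fun y => (Y y, dig N b y)) (cN i₁ i₂ i₃ σ N 0 1 0) ∧
    Comp q G Ω (fun y => (Y y, (dig (2 * N) b y, dig (2 * N) (fun y => z y - a y * b y) y)))
      (cN i₁ i₂ i₃ σ N 0 2 2) ∧
    Comp q G Ω (fun y => (Y y, dig N a y,
      (dig (2 * N) b y, dig (2 * N) (fun y => z y - a y * b y) y))) (cN i₁ i₂ i₃ σ N 1 2 2) ∧
    Comp q G Ω (fun y => (Y y, (dig (2 * N) a y, dig (2 * N) z y))) (cN i₁ i₂ i₃ σ N 2 0 2) ∧
    Comp q G Ω (fun y => (Y y, dig N b y, (dig (2 * N) a y, dig (2 * N) z y)))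
      (cN i₁ i₂ i₃ σ N 2 1 2) := by
  obtain ⟨N₀, hrel⟩ := rel_close d
  refine ⟨N₀, ?_⟩
  intro N hN i₁ i₂ i₃ h12 h23 h13 T C q hT hC hs hq hqN G Ω hG hΩ σ hσ Y h hch a b z ha hb hz
  have X : Ctx N₀ i₁ i₂ i₃ σ N T C q G Ω Y h a b z :=
    ⟨hrel, by omega, hN, h12, h23, h13, hT, hC, hs, hq, hqN, hG, hΩ, hσ, hch, ha, hb, hz⟩
  obtain ⟨q1, q2⟩ := pow_facts hq
  -- the difference of `c`
  have hc1 : ∀ x ∈ Ω, ∀ x' ∈ Ω, |b x' - b x| ≤ ww N 2 →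
      |(z x' - a x' * b x') - (z x - a x * b x)| ≤ ww N 2 →
      |z x' - z x - (a x' - a x) * b x| ≤ 2 * ww N 2 := by
    intro x hx x' hx' h1 h2
    have e : z x' - z x - (a x' - a x) * b x = ((z x' - a x' * b x') - (z x - a x * b x)) +
        a x' * (b x' - b x) := by ring
    rw [e]
    have h3 : |a x' * (b x' - b x)| ≤ 1 * ww N 2 := by
      rw [abs_mul]
      exact mul_le_mul (X.bounds hx').1 h1 (abs_nonneg _) (by norm_num)
    have h4 := abs_add_le ((z x' - a x' * b x') - (z x - a x * b x)) (a x' * (b x' - b x))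
    linarith
  have hc2 : ∀ x ∈ Ω, ∀ x' ∈ Ω, |b x' - b x| ≤ ww N 2 →
      |z x' - z x - (a x' - a x) * b x| ≤ 2 ^ q * ww N 2 →
      |(z x' - a x' * b x') - (z x - a x * b x)| ≤ ((2 ^ q + 1 : ℕ) : ℝ) * ww N 2 := by
    intro x hx x' hx' h1 h2
    have e : (z x' - a x' * b x') - (z x - a x * b x) = (z x' - z x - (a x' - a x) * b x) -
        a x' * (b x' - b x) := by ring
    rw [e]
    have h3 : |a x' * (b x' - b x)| ≤ 1 * ww N 2 := by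
      rw [abs_mul]
      exact mul_le_mul (X.bounds hx').1 h1 (abs_nonneg _) (by norm_num)
    have h4 := abs_sub (z x' - z x - (a x' - a x) * b x) (a x' * (b x' - b x))
    push_cast
    linarith
  have hz1 : ∀ x ∈ Ω, ∀ x' ∈ Ω, |a x' - a x| ≤ ww N 2 → |z x' - z x| ≤ ww N 2 →
      |z x' - z x - (a x' - a x) * b x| ≤ 2 * ww N 2 := by
    intro x hx x' hx' h1 h2
    have h3 : |(a x' - a x) * b x| ≤ ww N 2 * 1 := by
      rw [abs_mul]
      exact mul_le_mul h1 (X.bounds hx).2.1 (abs_nonneg _) (ww_pos N 2).le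
    have h4 := abs_sub (z x' - z x) ((a x' - a x) * b x)
    linarith
  have hz2 : ∀ x ∈ Ω, ∀ x' ∈ Ω, |a x' - a x| ≤ ww N 2 →
      |z x' - z x - (a x' - a x) * b x| ≤ 2 ^ q * ww N 2 →
      |z x' - z x| ≤ ((2 ^ q + 1 : ℕ) : ℝ) * ww N 2 := by
    intro x hx x' hx' h1 h2
    have h3 : |(a x' - a x) * b x| ≤ ww N 2 * 1 := by
      rw [abs_mul]
      exact mul_le_mul h1 (X.bounds hx).2.1 (abs_nonneg _) (ww_pos N 2).le
    have e : z x' - z x = (z x' - z x - (a x' - a x) * b x) + (a x' - a x) * b x := by ring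
    have h4 := abs_add_le (z x' - z x - (a x' - a x) * b x) ((a x' - a x) * b x)
    rw [← e] at h4
    push_cast
    linarith
  have one2 : ∀ {v : ℝ}, v ≤ ww N 2 → v ≤ ((1 : ℕ) : ℝ) * ww N 2 := by
    intro v hv
    simpa using hv
  refine ⟨fun x hx => X.bounds hx, ?_, ?_, ?_, ?_, ?_, ?_, ?_⟩
  · refine X.comp_of Y le_rfl le_rfl le_rfl (by norm_num) (by norm_num) (by norm_num)
      (by norm_num) ?_ ?_
    · intro x hx x' hx' he
      exact ⟨he, Or.inl rfl, Or.inl rfl, Or.inl rfl⟩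
    · intro x hx
      refine ⟨{Y x}, ?_, fun x' hx' hY _ _ _ => by rw [hY]; exact Finset.mem_singleton_self _⟩
      rw [Finset.card_singleton, q2]
      push_cast
      linarith
  · refine X.comp_of (fun y => (Y y, dig N a y)) (by norm_num) le_rfl le_rfl (by norm_num)
      (by norm_num) (by norm_num) (by norm_num) ?_ ?_
    · intro x hx x' hx' he
      rw [Prod.mk.injEq] at he
      exact ⟨he.1, Or.inr (dig_one_eq he.2), Or.inl rfl, Or.inl rfl⟩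
    · intro x hx
      refine ⟨{Y x} ×ˢ J 1 (dig N a x), ?_, fun x' hx' hY h1 h2 h3 => ?_⟩
      · rw [Finset.card_product, Finset.card_singleton, card_J, q2]
        push_cast
        linarith
      · rw [Finset.mem_product, hY]
        exact ⟨Finset.mem_singleton_self _, dig_one_mem h1⟩
  · refine X.comp_of (fun y => (Y y, dig N b y)) le_rfl (by norm_num) le_rfl (by norm_num)
      (by norm_num) (by norm_num) (by norm_num) ?_ ?_
    · intro x hx x' hx' he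
      rw [Prod.mk.injEq] at he
      exact ⟨he.1, Or.inl rfl, Or.inr (dig_one_eq he.2), Or.inl rfl⟩
    · intro x hx
      refine ⟨{Y x} ×ˢ J 1 (dig N b x), ?_, fun x' hx' hY h1 h2 h3 => ?_⟩
      · rw [Finset.card_product, Finset.card_singleton, card_J, q2]
        push_cast
        linarith
      · rw [Finset.mem_product, hY]
        exact ⟨Finset.mem_singleton_self _, dig_one_mem h2⟩
  · refine X.comp_of (fun y => (Y y, (dig (2 * N) b y, dig (2 * N) (fun y => z y - a y * b y) y)))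
      le_rfl (by norm_num) (by norm_num) (by norm_num) (by norm_num) (by norm_num) (by norm_num)
      ?_ ?_
    · intro x hx x' hx' he
      rw [Prod.mk.injEq, Prod.mk.injEq] at he
      obtain ⟨e1, e2, e3⟩ := he
      exact ⟨e1, Or.inl rfl, Or.inr (dig_two_eq e2),
        Or.inr (hc1 x hx x' hx' (dig_two_eq e2) (dig_two_eq e3))⟩
    · intro x hx
      refine ⟨{Y x} ×ˢ (J 1 (dig (2 * N) b x) ×ˢ
        J (2 ^ q + 1) (dig (2 * N) (fun y => z y - a y * b y) x)), ?_,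
        fun x' hx' hY h1 h2 h3 => ?_⟩
      · rw [Finset.card_product, Finset.card_product, Finset.card_singleton, card_J, card_J, q2]
        push_cast
        linarith
      · rw [Finset.mem_product, Finset.mem_product, hY]
        exact ⟨Finset.mem_singleton_self _, dig_two_mem (one2 h2),
          dig_two_mem (hc2 x hx x' hx' h2 h3)⟩
  · refine X.comp_of (fun y => (Y y, dig N a y,
      (dig (2 * N) b y, dig (2 * N) (fun y => z y - a y * b y) y)))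
      (by norm_num) (by norm_num) (by norm_num) (by norm_num) (by norm_num) (by norm_num)
      (by norm_num) ?_ ?_
    · intro x hx x' hx' he
      rw [Prod.mk.injEq, Prod.mk.injEq, Prod.mk.injEq] at he
      obtain ⟨e1, e0, e2, e3⟩ := he
      exact ⟨e1, Or.inr (dig_one_eq e0), Or.inr (dig_two_eq e2),
        Or.inr (hc1 x hx x' hx' (dig_two_eq e2) (dig_two_eq e3))⟩
    · intro x hx
      refine ⟨{Y x} ×ˢ (J 1 (dig N a x) ×ˢ (J 1 (dig (2 * N) b x) ×ˢ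
        J (2 ^ q + 1) (dig (2 * N) (fun y => z y - a y * b y) x))), ?_,
        fun x' hx' hY h1 h2 h3 => ?_⟩
      · rw [Finset.card_product, Finset.card_product, Finset.card_product,
          Finset.card_singleton, card_J, card_J, card_J, q2]
        push_cast
        linarith
      · rw [Finset.mem_product, Finset.mem_product, Finset.mem_product, hY]
        exact ⟨Finset.mem_singleton_self _, dig_one_mem h1, dig_two_mem (one2 h2),
          dig_two_mem (hc2 x hx x' hx' h2 h3)⟩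
  · refine X.comp_of (fun y => (Y y, (dig (2 * N) a y, dig (2 * N) z y)))
      (by norm_num) le_rfl (by norm_num) (by norm_num) (by norm_num) (by norm_num) (by norm_num)
      ?_ ?_
    · intro x hx x' hx' he
      rw [Prod.mk.injEq, Prod.mk.injEq] at he
      obtain ⟨e1, e2, e3⟩ := he
      exact ⟨e1, Or.inr (dig_two_eq e2), Or.inl rfl,
        Or.inr (hz1 x hx x' hx' (dig_two_eq e2) (dig_two_eq e3))⟩
    · intro x hx
      refine ⟨{Y x} ×ˢ (J 1 (dig (2 * N) a x) ×ˢ J (2 ^ q + 1) (dig (2 * N) z x)), ?_,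
        fun x' hx' hY h1 h2 h3 => ?_⟩
      · rw [Finset.card_product, Finset.card_product, Finset.card_singleton, card_J, card_J, q2]
        push_cast
        linarith
      · rw [Finset.mem_product, Finset.mem_product, hY]
        exact ⟨Finset.mem_singleton_self _, dig_two_mem (one2 h1),
          dig_two_mem (hz2 x hx x' hx' h1 h3)⟩
  · refine X.comp_of (fun y => (Y y, dig N b y, (dig (2 * N) a y, dig (2 * N) z y)))
      (by norm_num) (by norm_num) (by norm_num) (by norm_num) (by norm_num) (by norm_num)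
      (by norm_num) ?_ ?_
    · intro x hx x' hx' he
      rw [Prod.mk.injEq, Prod.mk.injEq, Prod.mk.injEq] at he
      obtain ⟨e1, e0, e2, e3⟩ := he
      exact ⟨e1, Or.inr (dig_two_eq e2), Or.inr (dig_one_eq e0),
        Or.inr (hz1 x hx x' hx' (dig_two_eq e2) (dig_two_eq e3))⟩
    · intro x hx
      refine ⟨{Y x} ×ˢ (J 1 (dig N b x) ×ˢ (J 1 (dig (2 * N) a x) ×ˢ
        J (2 ^ q + 1) (dig (2 * N) z x))), ?_, fun x' hx' hY h1 h2 h3 => ?_⟩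
      · rw [Finset.card_product, Finset.card_product, Finset.card_product,
          Finset.card_singleton, card_J, card_J, card_J, q2]
        push_cast
        linarith
      · rw [Finset.mem_product, Finset.mem_product, Finset.mem_product, hY]
        exact ⟨Finset.mem_singleton_self _, dig_one_mem h2, dig_two_mem (one2 h1),
          dig_two_mem (hz2 x hx x' hx' h1 h3)⟩

end Pool.Agent.Lib.P51n
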