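import Pool.Agent.Lib.P51n.GDefs

/-!
# P51n.GChart  (about 1.2 h)

Existence of charts.  Let `κ₀ = 2^{-q}` and let `Z ⊆ Ω` be a maximal subset such that for distinct
`z, z' ∈ Z` not `Near κ₀ c z z'` (both orders; `Finset` maximality).  Every `x ∈ Ω` has a `z ∈ Z` with
`Near κ₀ c z x` or `Near κ₀ c x z`, hence `Near (2κ₀) c z x` (`Near.symm`, `small_mul`; `c ≥ c_s` since `c`
is admissible); `x ∈ Z` has `z = x`.  Choose `Y x := z` and `h x`.
`pack`: if `Near κ₀ c x y` and `z = Y x` then `Near (4κ₀) c z y` (`2κ₀ + κ₀ + 2dκ₀² ≤ 4κ₀`).  Apply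
`exists_round` with `κ₁ = 16κ₀ ≥ 4κ₀`, `κ₂ = κ₀/2`, `t = 0` to the set of all `z ∈ Z` with
`Near (16κ₀) c z y`: two of them with the same `f` would be `Near (κ₀/2) c` (note `shiftOff c 0 ≥ c`, as
`Tri c`), so they are equal; their number is at most `(4·16·2 + 3)^(d²) = 131^(d²)`.
-/

set_option autoImplicit false

noncomputable section

namespace Pool.Agent.Lib.P51n

variable {d : ℕ}

/-- different members of `Z` are not close -/
def GChart_Sep (κ₀ : ℝ) (c : Fin d → Fin d → ℝ) (Z : Finset (AddSubgroup (Fin d → ℤ))) : Prop :=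
  ∀ z ∈ Z, ∀ z' ∈ Z, Near κ₀ c z z' → z = z'

theorem GChart_maximal {κ₀ : ℝ} (hκ₀ : 0 ≤ κ₀) (Ω : Finset (AddSubgroup (Fin d → ℤ)))
    (c : Fin d → Fin d → ℝ) : ∃ Z : Finset (AddSubgroup (Fin d → ℤ)), Z ⊆ Ω ∧
      (∀ z ∈ Z, ∀ z' ∈ Z, Near κ₀ c z z' → z = z') ∧
      ∀ x ∈ Ω, ∃ z ∈ Z, Near κ₀ c z x ∨ Near κ₀ c x z := by
  classical
  obtain ⟨Z, hZ, hmax⟩ := Finset.exists_max_image
    (Ω.powerset.filter fun Z => GChart_Sep κ₀ c Z) Finset.card
    ⟨∅, by simp [GChart_Sep]⟩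
  rw [Finset.mem_filter, Finset.mem_powerset] at hZ
  refine ⟨Z, hZ.1, hZ.2, fun x hx => ?_⟩
  by_contra hcon
  push Not at hcon
  have hxZ : x ∉ Z := fun h => (hcon x h).1 (Near.refl hκ₀ c x)
  have hins : insert x Z ∈ Ω.powerset.filter fun Z => GChart_Sep κ₀ c Z := by
    rw [Finset.mem_filter, Finset.mem_powerset]
    refine ⟨Finset.insert_subset hx hZ.1, fun z hz z' hz' hn => ?_⟩
    rw [Finset.mem_insert] at hz hz'
    rcases hz with rfl | hz
    · rcases hz' with rfl | hz'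
      · rfl
      · exact absurd hn (hcon z' hz').2
    · rcases hz' with rfl | hz'
      · exact absurd hn (hcon z hz).1
      · exact hZ.2 z hz z' hz' hn
  have h1 := hmax _ hins
  rw [Finset.card_insert_of_notMem hxZ] at h1
  omega

theorem exists_chart (hd : 1 ≤ d) {T : ℕ} (hT : 1 ≤ T) {C : ℝ} (hC : 1 ≤ C) {q : ℕ}
    (hq : Small d T C q) {G Ω : Finset (AddSubgroup (Fin d → ℤ))} (hG : Fam T C G) (hΩ : Ω ⊆ G)
    {c : Fin d → Fin d → ℝ} (hc : Adm T c) : ∃ Y h, Chart q G Ω c Y h := by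
  classical
  obtain ⟨hTri, s, -, hcs⟩ := hc
  obtain ⟨κ₀, hκ₀⟩ : ∃ κ₀ : ℝ, κ₀ = (1 / 2 : ℝ) ^ q := ⟨_, rfl⟩
  have hpos : 0 < κ₀ := by rw [hκ₀]; positivity
  have hsm : ∀ κ : ℝ, κ ≤ 64 * κ₀ → 2 * d * κ < 1 := fun κ h =>
    small_mul hd hT hC hq (by rw [← hκ₀]; exact h)
  obtain ⟨Z, hZΩ, hZsep, hZcov⟩ := GChart_maximal hpos.le Ω c
  have hch : ∀ x : AddSubgroup (Fin d → ℤ), x ∈ Ω →
      ∃ (z : AddSubgroup (Fin d → ℤ)) (h : Matrix (Fin d) (Fin d) ℝ),
        z ∈ Z ∧ Disp h z x ∧ NearOne (2 * κ₀) c h := by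
    intro x hx
    obtain ⟨z, hz, h1 | h1⟩ := hZcov x hx
    · obtain ⟨h, hd1, hn⟩ := Near.mono h1 (by linarith : κ₀ ≤ 2 * κ₀) (by linarith)
        (fun i j => le_refl (c i j))
      exact ⟨z, h, hz, hd1, hn⟩
    · obtain ⟨h, hd1, hn⟩ := Near.symm hpos.le (hsm κ₀ (by linarith)) hTri hcs h1
      exact ⟨z, h, hz, hd1, hn⟩
  choose! Y h hYZ hdisp hnear using hch
  refine ⟨Y, h, ⟨fun x hx => hZΩ (hYZ x hx), hdisp, fun x hx => ?_, ?_⟩⟩
  · rw [← hκ₀]
    exact NearOne.mono (hnear x hx) (by linarith) (by linarith) (fun i j => le_refl (c i j))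
  · intro y _ X hXΩ hX
    rw [← hκ₀] at hX
    refine ⟨Z.filter fun z => Near (16 * κ₀) c z y, ?_, ?_⟩
    · obtain ⟨f, hf1, hf2⟩ := exists_round hTri hcs (κ₁ := 16 * κ₀) (κ₂ := κ₀ / 2) (t := 0)
        (by linarith) (hsm _ (by linarith)) (by linarith) (le_refl 0) y
        (Z.filter fun z => Near (16 * κ₀) c z y) (fun z hz => (Finset.mem_filter.1 hz).2)
      have hinj : Set.InjOn f (Z.filter fun z => Near (16 * κ₀) c z y : Finset _) := by
        intro z hz z' hz' he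
        rw [Finset.mem_coe] at hz hz'
        refine hZsep z (Finset.mem_filter.1 hz).1 z' (Finset.mem_filter.1 hz').1 ?_
        refine Near.mono (hf2 z hz z' hz' he) (by linarith) hpos.le fun i j => ?_
        unfold shiftOff
        split_ifs with hij
        · rw [hij, hTri.1]
        · linarith
      rw [Finset.card_image_of_injOn hinj] at hf1
      refine hf1.trans (le_of_eq ?_)
      congr 1
      rw [Real.rpow_zero]
      field_simp
      norm_num
    · intro x hx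
      rw [Finset.mem_filter]
      refine ⟨hYZ x (hXΩ hx), ?_⟩
      have h1 : Near (2 * κ₀) c (Y x) x := ⟨h x, hdisp x (hXΩ hx), hnear x (hXΩ hx)⟩
      have h2 := Near.trans (by linarith) hpos.le hTri h1 (hX x hx)
      refine Near.mono h2 ?_ (by linarith) (fun i j => le_refl (c i j))
      have h3 := hsm κ₀ (by linarith)
      nlinarith

end Pool.Agent.Lib.P51n
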