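import Pool.Agent.Lib.P51n.EFun
import Pool.Agent.Lib.P51n.ARatio

/-!
Definitions for the geometric side of Part C: the shapes `cN`, rescaled matrices, Heisenberg
coordinates of a displacement, charts.
-/

set_option autoImplicit false

noncomputable section

namespace Pool.Agent.Lib.P51n

variable {d : ℕ}

/-- The shape `c_σ + N ct(α, β, γ)`. -/
def cN (i₁ i₂ i₃ : Fin d) (σ : Fin d → ℝ) (N : ℝ) (α β γ : ℝ) : Fin d → Fin d → ℝ :=
  cs σ + N • ct i₁ i₂ i₃ α β γ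

/-- The matrix `h` in the coordinates rescaled at the position `s`. -/
def resc (s : Fin d → ℝ) (h : Matrix (Fin d) (Fin d) ℝ) : Matrix (Fin d) (Fin d) ℝ :=
  Matrix.of fun i j => h i j * (2 : ℝ) ^ (s j - s i)

/-- Heisenberg coordinates of a displacement, in units `2^{-p}`, `2^{-p}`, `2^{-2p}`. -/
def coA (i₁ i₂ : Fin d) (σ : Fin d → ℝ) (p : ℕ) (h : Matrix (Fin d) (Fin d) ℝ) : ℝ :=
  2 ^ p * resc σ h i₁ i₂ / h i₁ i₁

def coB (i₂ i₃ : Fin d) (σ : Fin d → ℝ) (p : ℕ) (h : Matrix (Fin d) (Fin d) ℝ) : ℝ :=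
  2 ^ p * resc σ h i₂ i₃ / h i₂ i₂

def coZ (i₁ i₃ : Fin d) (σ : Fin d → ℝ) (p : ℕ) (h : Matrix (Fin d) (Fin d) ℝ) : ℝ :=
  2 ^ (2 * p) * resc σ h i₁ i₃ / h i₁ i₁

/-- A chart of the family `Ω` at the position `σ`: a partition `Y` into small pieces with centres,
and displacements `h x` from the centre `Y x` to `x`; bounded multiplicity. -/
structure Chart (q : ℕ) (G Ω : Finset (AddSubgroup (Fin d → ℤ))) (c : Fin d → Fin d → ℝ)
    (Y : AddSubgroup (Fin d → ℤ) → AddSubgroup (Fin d → ℤ))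
    (h : AddSubgroup (Fin d → ℤ) → Matrix (Fin d) (Fin d) ℝ) : Prop where
  mem : ∀ x ∈ Ω, Y x ∈ Ω
  disp : ∀ x ∈ Ω, Disp (h x) (Y x) x
  near : ∀ x ∈ Ω, NearOne (4 * (1 / 2 : ℝ) ^ q) c (h x)
  pack : ∀ y ∈ G, ∀ X : Finset (AddSubgroup (Fin d → ℤ)), X ⊆ Ω →
    (∀ x ∈ X, Near ((1 / 2 : ℝ) ^ q) c x y) →
    ∃ Z : Finset (AddSubgroup (Fin d → ℤ)), (Z.card : ℝ) ≤ 131 ^ (d ^ 2) ∧ ∀ x ∈ X, Y x ∈ Z

/-- The expected rescaled relative displacement from `x` to `x'` (displacements `h`, `h'` from the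
same centre). -/
def relM (i₁ i₂ i₃ : Fin d) (σ : Fin d → ℝ) (p : ℕ) (h h' : Matrix (Fin d) (Fin d) ℝ) :
    Matrix (Fin d) (Fin d) ℝ := Matrix.of fun i j =>
  if i = j then h' i i / h i i
  else if i = i₁ ∧ j = i₂ then
    h' i₁ i₁ / h i₂ i₂ * (1 / 2) ^ p * (coA i₁ i₂ σ p h' - coA i₁ i₂ σ p h)
  else if i = i₂ ∧ j = i₃ then
    h' i₂ i₂ / h i₃ i₃ * (1 / 2) ^ p * (coB i₂ i₃ σ p h' - coB i₂ i₃ σ p h)
  else if i = i₁ ∧ j = i₃ then
    h' i₁ i₁ / h i₃ i₃ * (1 / 2) ^ (2 * p) * (coZ i₁ i₃ σ p h' - coZ i₁ i₃ σ p h -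
      (coA i₁ i₂ σ p h' - coA i₁ i₂ σ p h) * coB i₂ i₃ σ p h)
  else 0

/-- The direction of the positions visited: `x` in the root `(i₁,i₂)`, `y` in the root `(i₂,i₃)`. -/
def vv (i₁ i₂ i₃ : Fin d) (x y : ℝ) : Fin d → ℝ := fun l =>
  if l = i₁ then -(2 * x + y) / 3 else if l = i₂ then (x - y) / 3
  else if l = i₃ then (x + 2 * y) / 3 else 0

end Pool.Agent.Lib.P51n
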