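import Pool.Agent.Lib.P51n.GCells
import Pool.Agent.Lib.P51n.AAv

/-!
# P51n.HBridge  (about 2.5 h)

From the information of the closeness classes to the entropies of the digits.

Notation: `I(c) x = info G κ₀ c x`, `c_{αβγ} = cN … α β γ`, `f_{αβγ}` the map of `comp_all` comparable
with it, `B = 131^(d²) 2^(q+14)`, `e = log₂(|G|/|Ω|) ≤ log₂ T`, `2^q ≤ T^A`.

`hφ` says that `I(c) x` is within `E` of `φ_c` for all `x ∈ Ω` but `|Ω|/T`.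

First part (pointwise).  For all `x ∈ Ω` but a proportion `10/T`: `|I(c) x - φ_c| ≤ E` for the
three shapes `000, 100, 010`; `ncard G (64κ₀) c x ≤ T² 259^(d²) ncard G κ₀ c x` for `c = c₁₀₀, c₀₁₀`
(Markov for `ratio_shift` with `κ₁ = 64κ₀`, `κ₂ = κ₀`, `t = 0`; `|G| ≤ T|Ω|`), and
`ncard G κ₀ c₀₀₀ x ≤ T² B wt Ω Y x` (Markov for `Comp`).  Then, as `ncard G κ₀ c x = |G| 2^{-I(c)x}`,
`wt f₁₀₀ ≤ T² 259^(d²) |G| 2^{-φ₁₀₀+E}`, `wt Y ≥ |G| 2^{-φ₀₀₀-E}/(T² B)`, so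
`wt f₁₀₀ ≤ 2^{-(φ₁₀₀-φ₀₀₀) + 2E + K log₂ T} wt Y`.

Second part (averages, `av = (1/|Ω|)∑_{x∈Ω}`).  `cmi Ω Y f g / log 2 = av log₂(wt(Y,f,g) wt(Y)/(wt(Y,f) wt(Y,g)))`.
`av log₂ wt f_c ≤ log₂|G| - av info G (64κ₀) c ≤ log₂|G| - av I(c) + 9d² + e` (`av_radius`), and by
Jensen with `Comp`, `av log₂ wt f_c ≥ av log₂ ncard G κ₀ c - log₂(B|G|/|Ω|) = log₂|G| - av I(c) - log₂ B - e`.
`|av I(c) - φ_c| ≤ E + 1` (`0 ≤ I ≤ T`, `0 ≤ φ ≤ T`, exceptional proportion `1/T`).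
-/

set_option autoImplicit false

noncomputable section

namespace Pool.Agent.Lib.P51n

namespace HBridgeAux

variable {d : ℕ}

open Classical in
theorem markov {α : Type*} (Ω : Finset α) (g : α → ℝ) (hg : ∀ x ∈ Ω, 0 ≤ g x) {M T : ℝ}
    (hM : 0 < M) (hT : 0 < T) (h : ∑ x ∈ Ω, g x ≤ M * T * Ω.card) :
    ((Ω.filter fun x => T ^ 2 * M < g x).card : ℝ) * T ≤ Ω.card := by
  have h1 : ((Ω.filter fun x => T ^ 2 * M < g x).card : ℝ) * (T ^ 2 * M) ≤ ∑ x ∈ Ω, g x := by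
    calc ((Ω.filter fun x => T ^ 2 * M < g x).card : ℝ) * (T ^ 2 * M)
        = ∑ x ∈ Ω.filter (fun x => T ^ 2 * M < g x), (T ^ 2 * M) := by
          rw [Finset.sum_const, nsmul_eq_mul]
      _ ≤ ∑ x ∈ Ω.filter (fun x => T ^ 2 * M < g x), g x :=
          Finset.sum_le_sum fun x hx => (Finset.mem_filter.1 hx).2.le
      _ ≤ ∑ x ∈ Ω, g x :=
          Finset.sum_le_sum_of_subset_of_nonneg (Finset.filter_subset _ _) fun x hx _ => hg x hx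
  have h2 : ((Ω.filter fun x => T ^ 2 * M < g x).card : ℝ) * T * (T * M) ≤
      Ω.card * (T * M) := by
    calc ((Ω.filter fun x => T ^ 2 * M < g x).card : ℝ) * T * (T * M)
        = ((Ω.filter fun x => T ^ 2 * M < g x).card : ℝ) * (T ^ 2 * M) := by ring
      _ ≤ M * T * Ω.card := h1.trans h
      _ = Ω.card * (T * M) := by ring
  exact le_of_mul_le_mul_right h2 (by positivity)

theorem one_le_wt {α β : Type*} (Ω : Finset α) (f : α → β) {x : α} (hx : x ∈ Ω) :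
    1 ≤ wt Ω f x := by
  classical
  have : x ∈ fib Ω f x := by
    unfold fib
    exact Finset.mem_filter.2 ⟨hx, rfl⟩
  have h2 : 1 ≤ (fib Ω f x).card := Finset.card_pos.2 ⟨x, this⟩
  unfold wt
  exact_mod_cast h2

theorem ncard_pos {G : Finset (AddSubgroup (Fin d → ℤ))} {κ : ℝ} (hκ : 0 ≤ κ)
    (c : Fin d → Fin d → ℝ) {x : AddSubgroup (Fin d → ℤ)} (hx : x ∈ G) :
    (0 : ℝ) < ncard G κ c x := by
  have := one_le_ncard hκ c hx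
  exact_mod_cast (by omega : 0 < ncard G κ c x)

theorem ncard_eq {G : Finset (AddSubgroup (Fin d → ℤ))} {κ : ℝ} (hκ : 0 ≤ κ)
    (c : Fin d → Fin d → ℝ) {x : AddSubgroup (Fin d → ℤ)} (hx : x ∈ G) :
    (ncard G κ c x : ℝ) = G.card * (2 : ℝ) ^ (-info G κ c x) := by
  have h1 := ncard_pos hκ c hx
  have hG : (0 : ℝ) < G.card := by exact_mod_cast Finset.card_pos.2 ⟨x, hx⟩
  unfold info
  rw [Real.rpow_neg (by norm_num), Real.rpow_logb (by norm_num) (by norm_num) (by positivity)]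
  field_simp

theorem info_eq {G : Finset (AddSubgroup (Fin d → ℤ))} {κ : ℝ} (hκ : 0 ≤ κ)
    (c : Fin d → Fin d → ℝ) {x : AddSubgroup (Fin d → ℤ)} (hx : x ∈ G) :
    Real.logb 2 (ncard G κ c x) = Real.logb 2 G.card - info G κ c x := by
  have h1 := ncard_pos hκ c hx
  have hG : (0 : ℝ) < G.card := by exact_mod_cast Finset.card_pos.2 ⟨x, hx⟩
  unfold info
  rw [Real.logb_div hG.ne' h1.ne']
  ring

open Classical in
theorem av_close {α : Type*} {Ω : Finset α} (hne : Ω.Nonempty) (I : α → ℝ) {φ E T : ℝ}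
    (hE : 0 ≤ E) (hI : ∀ x ∈ Ω, 0 ≤ I x ∧ I x ≤ T) (hφ : 0 ≤ φ ∧ φ ≤ T)
    (hb : ((Ω.filter fun x => E < |I x - φ|).card : ℝ) * T ≤ Ω.card) :
    |(∑ x ∈ Ω, I x) / Ω.card - φ| ≤ E + 1 := by
  have hc : (0 : ℝ) < Ω.card := by exact_mod_cast Finset.card_pos.2 hne
  have hT : 0 ≤ T := hφ.1.trans hφ.2
  have h1 : (∑ x ∈ Ω, I x) / Ω.card - φ = (∑ x ∈ Ω, (I x - φ)) / Ω.card := by
    rw [Finset.sum_sub_distrib, Finset.sum_const, nsmul_eq_mul]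
    field_simp
  rw [h1, abs_div, abs_of_pos hc, div_le_iff₀ hc]
  calc |∑ x ∈ Ω, (I x - φ)| ≤ ∑ x ∈ Ω, |I x - φ| := Finset.abs_sum_le_sum_abs _ _
    _ ≤ ∑ x ∈ Ω, (E + if E < |I x - φ| then T else 0) := by
        refine Finset.sum_le_sum fun x hx => ?_
        split_ifs with h
        · have h2 : |I x - φ| ≤ T := by
            rw [abs_le]
            have := hI x hx
            constructor <;> linarith [hφ.1, hφ.2]
          linarith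
        · push Not at h
          linarith
    _ = E * Ω.card + ((Ω.filter fun x => E < |I x - φ|).card : ℝ) * T := by
        rw [Finset.sum_add_distrib, Finset.sum_const, nsmul_eq_mul, ← Finset.sum_filter,
          Finset.sum_const, nsmul_eq_mul]
        ring
    _ ≤ (E + 1) * Ω.card := by linarith

/-- average of the logarithm of the size of the fibres -/
def lw {α β : Type*} (Ω : Finset α) (f : α → β) : ℝ := (∑ x ∈ Ω, Real.logb 2 (wt Ω f x)) / Ω.card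

theorem cmi_eq {α β γ κ : Type*} (Ω : Finset α) (k : α → κ) (f : α → β) (g : α → γ) :
    cmi Ω k f g = Real.log 2 * (lw Ω (fun y => (k y, f y, g y)) + lw Ω k -
      lw Ω (fun y => (k y, f y)) - lw Ω (fun y => (k y, g y))) := by
  have hl : Real.log 2 ≠ 0 := (Real.log_pos (by norm_num)).ne'
  have h1 : ∀ x ∈ Ω, Real.log ((wt Ω (fun y => (k y, f y, g y)) x * wt Ω k x) /
      (wt Ω (fun y => (k y, f y)) x * wt Ω (fun y => (k y, g y)) x)) =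
      Real.log 2 * (Real.logb 2 (wt Ω (fun y => (k y, f y, g y)) x) + Real.logb 2 (wt Ω k x) -
        Real.logb 2 (wt Ω (fun y => (k y, f y)) x) -
        Real.logb 2 (wt Ω (fun y => (k y, g y)) x)) := by
    intro x hx
    have p1 := one_le_wt Ω (fun y => (k y, f y, g y)) hx
    have p2 := one_le_wt Ω k hx
    have p3 := one_le_wt Ω (fun y => (k y, f y)) hx
    have p4 := one_le_wt Ω (fun y => (k y, g y)) hx
    rw [Real.log_div (by positivity) (by positivity), Real.log_mul (by positivity) (by positivity),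
      Real.log_mul (by positivity) (by positivity)]
    unfold Real.logb
    field_simp
    ring
  unfold cmi lw
  rw [Finset.sum_congr rfl h1, ← Finset.mul_sum, Finset.sum_sub_distrib, Finset.sum_sub_distrib,
    Finset.sum_add_distrib]
  ring

theorem lw_upper {G Ω : Finset (AddSubgroup (Fin d → ℤ))} (hΩ : Ω ⊆ G) (hne : Ω.Nonempty) {β : Type}
    {f : AddSubgroup (Fin d → ℤ) → β} {q : ℕ} {c : Fin d → Fin d → ℝ} (hc : Comp q G Ω f c)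
    {R : ℝ} (hR : (∑ x ∈ Ω, info G ((1 / 2 : ℝ) ^ q) c x) / Ω.card ≤
      (∑ x ∈ Ω, info G (64 * (1 / 2 : ℝ) ^ q) c x) / Ω.card + R) :
    lw Ω f ≤ Real.logb 2 G.card - (∑ x ∈ Ω, info G ((1 / 2 : ℝ) ^ q) c x) / Ω.card + R := by
  have hcd : (0 : ℝ) < Ω.card := by exact_mod_cast Finset.card_pos.2 hne
  have hκ : (0 : ℝ) ≤ 64 * (1 / 2 : ℝ) ^ q := by positivity
  have h1 : lw Ω f ≤ Real.logb 2 G.card -
      (∑ x ∈ Ω, info G (64 * (1 / 2 : ℝ) ^ q) c x) / Ω.card := by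
    have h2 : ∑ x ∈ Ω, Real.logb 2 (wt Ω f x) ≤
        ∑ x ∈ Ω, (Real.logb 2 G.card - info G (64 * (1 / 2 : ℝ) ^ q) c x) := by
      refine Finset.sum_le_sum fun x hx => ?_
      rw [← info_eq hκ c (hΩ hx)]
      exact Real.logb_le_logb_of_le (by norm_num) (by linarith [one_le_wt Ω f hx]) (hc.1 x hx)
    rw [Finset.sum_sub_distrib, Finset.sum_const, nsmul_eq_mul] at h2
    unfold lw
    rw [div_le_iff₀ hcd, sub_mul, div_mul_cancel₀ _ hcd.ne']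
    linarith
  linarith

theorem lw_lower {G Ω : Finset (AddSubgroup (Fin d → ℤ))} (hΩ : Ω ⊆ G) (hne : Ω.Nonempty) {β : Type}
    {f : AddSubgroup (Fin d → ℤ) → β} {q : ℕ} {c : Fin d → Fin d → ℝ} (hc : Comp q G Ω f c) :
    Real.logb 2 G.card - (∑ x ∈ Ω, info G ((1 / 2 : ℝ) ^ q) c x) / Ω.card -
      Real.logb 2 (131 ^ (d ^ 2) * 2 ^ (q + 14)) - Real.logb 2 (G.card / Ω.card) ≤ lw Ω f := by
  have hcd : (0 : ℝ) < Ω.card := by exact_mod_cast Finset.card_pos.2 hne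
  have hcG : (0 : ℝ) < G.card := by exact_mod_cast Finset.card_pos.2 (hne.mono hΩ)
  have hκ : (0 : ℝ) ≤ (1 / 2 : ℝ) ^ q := by positivity
  have hpos : ∀ x ∈ Ω, 0 < (ncard G ((1 / 2 : ℝ) ^ q) c x : ℝ) / wt Ω f x := fun x hx =>
    div_pos (ncard_pos hκ c (hΩ hx)) (by linarith [one_le_wt Ω f hx])
  have h1 := jensen_log Ω Ω (Finset.Subset.refl _) hne
    (fun x => (ncard G ((1 / 2 : ℝ) ^ q) c x : ℝ) / wt Ω f x) hpos
    (B := 131 ^ (d ^ 2) * 2 ^ (q + 14) * (G.card / Ω.card)) (by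
      rw [mul_assoc, div_mul_cancel₀ _ hcd.ne']
      exact hc.2)
  rw [div_self hcd.ne', mul_one] at h1
  rw [Real.logb_mul (by positivity) (by positivity)] at h1
  have h2 : ∀ x ∈ Ω, Real.logb 2 ((ncard G ((1 / 2 : ℝ) ^ q) c x : ℝ) / wt Ω f x) =
      Real.logb 2 G.card - info G ((1 / 2 : ℝ) ^ q) c x - Real.logb 2 (wt Ω f x) := by
    intro x hx
    rw [Real.logb_div (ncard_pos hκ c (hΩ hx)).ne' (by linarith [one_le_wt Ω f hx]),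
      info_eq hκ c (hΩ hx)]
  rw [Finset.sum_congr rfl h2, Finset.sum_sub_distrib, Finset.sum_sub_distrib, Finset.sum_const,
    nsmul_eq_mul, sub_div, sub_div, mul_div_cancel_left₀ _ hcd.ne'] at h1
  unfold lw
  linarith

open Classical in
/-- the pointwise estimate -/
theorem point {G Ω : Finset (AddSubgroup (Fin d → ℤ))} (hΩ : Ω ⊆ G) {T : ℝ} (hT : 1 ≤ T) {q : ℕ}
    {β β' : Type} {Y : AddSubgroup (Fin d → ℤ) → β} {f : AddSubgroup (Fin d → ℤ) → β'}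
    {c c' : Fin d → Fin d → ℝ} (hf : Comp q G Ω f c') {φ φ' E M M' : ℝ} (hM : 0 < M)
    (hM' : 0 < M') {x : AddSubgroup (Fin d → ℤ)} (hx : x ∈ Ω)
    (h0 : |info G ((1 / 2 : ℝ) ^ q) c x - φ| ≤ E) (h1 : |info G ((1 / 2 : ℝ) ^ q) c' x - φ'| ≤ E)
    (h2 : (ncard G ((1 / 2 : ℝ) ^ q) c x : ℝ) / wt Ω Y x ≤ T ^ 2 * M)
    (h3 : (ncard G (64 * (1 / 2 : ℝ) ^ q) c' x : ℝ) / ncard G ((1 / 2 : ℝ) ^ q) c' x ≤
      T ^ 2 * M') :
    wt Ω f x ≤ T ^ 4 * M * M' * (2 : ℝ) ^ (-(φ' - φ) + 2 * E) * wt Ω Y x := by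
  have hκ : (0 : ℝ) ≤ (1 / 2 : ℝ) ^ q := by positivity
  have hn := ncard_pos hκ c (hΩ hx)
  have hn' := ncard_pos hκ c' (hΩ hx)
  have hw := one_le_wt Ω Y hx
  have hT0 : 0 < T := by linarith
  rw [div_le_iff₀ (by linarith)] at h2
  rw [div_le_iff₀ hn'] at h3
  rw [abs_le] at h0 h1
  have hG : (0 : ℝ) < G.card := by exact_mod_cast Finset.card_pos.2 ⟨x, hΩ hx⟩
  have e1 : (ncard G ((1 / 2 : ℝ) ^ q) c' x : ℝ) ≤ G.card * (2 : ℝ) ^ (-φ' + E) := by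
    rw [ncard_eq hκ c' (hΩ hx)]
    exact mul_le_mul_of_nonneg_left (Real.rpow_le_rpow_of_exponent_le (by norm_num)
      (by linarith)) hG.le
  have e2 : G.card * (2 : ℝ) ^ (-φ - E) ≤ (ncard G ((1 / 2 : ℝ) ^ q) c x : ℝ) := by
    rw [ncard_eq hκ c (hΩ hx)]
    exact mul_le_mul_of_nonneg_left (Real.rpow_le_rpow_of_exponent_le (by norm_num)
      (by linarith)) hG.le
  have e3 : (2 : ℝ) ^ (-φ' + E) = (2 : ℝ) ^ (-(φ' - φ) + 2 * E) * (2 : ℝ) ^ (-φ - E) := by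
    rw [← Real.rpow_add (by norm_num)]
    congr 1
    ring
  calc wt Ω f x ≤ ncard G (64 * (1 / 2 : ℝ) ^ q) c' x := hf.1 x hx
    _ ≤ T ^ 2 * M' * ncard G ((1 / 2 : ℝ) ^ q) c' x := h3
    _ ≤ T ^ 2 * M' * (G.card * (2 : ℝ) ^ (-φ' + E)) :=
        mul_le_mul_of_nonneg_left e1 (by positivity)
    _ = T ^ 2 * M' * (2 : ℝ) ^ (-(φ' - φ) + 2 * E) * (G.card * (2 : ℝ) ^ (-φ - E)) := by
        rw [e3]; ring
    _ ≤ T ^ 2 * M' * (2 : ℝ) ^ (-(φ' - φ) + 2 * E) * (T ^ 2 * M * wt Ω Y x) :=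
        mul_le_mul_of_nonneg_left (e2.trans h2) (by positivity)
    _ = _ := by ring

/-- the shapes are admissible -/
theorem adm_cN {i₁ i₂ i₃ : Fin d} (h12 : i₁ ≠ i₂) (h23 : i₂ ≠ i₃) (h13 : i₁ ≠ i₃) {T : ℝ}
    {σ : Fin d → ℝ} (hσ : Pos T σ) (N : ℕ) {α β γ : ℝ}
    (hα : 0 ≤ α) (hβ : 0 ≤ β) (hγ : 0 ≤ γ) (hα8 : α ≤ 8) (hβ8 : β ≤ 8) (hγ' : γ ≤ α + β)
    (hγ8 : γ ≤ 8) : Adm T (cN i₁ i₂ i₃ σ N α β γ) := by
  have ht := tri_ct h12 h23 h13 hα hβ hγ hα8 hβ8 hγ' hγ8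
  have hN : (0 : ℝ) ≤ N := Nat.cast_nonneg N
  refine ⟨⟨fun i => ?_, fun i j k => ?_⟩, σ, hσ, fun i j => ?_⟩
  · change (σ i - σ i) + (N : ℝ) * ct i₁ i₂ i₃ α β γ i i = 0
    rw [ht.1 i]
    ring
  · change (σ k - σ i) + (N : ℝ) * ct i₁ i₂ i₃ α β γ i k ≤
      ((σ j - σ i) + (N : ℝ) * ct i₁ i₂ i₃ α β γ i j) +
      ((σ k - σ j) + (N : ℝ) * ct i₁ i₂ i₃ α β γ j k)
    have := mul_le_mul_of_nonneg_left (ht.2 i j k) hN
    linarith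
  · change cs σ i j ≤ cs σ i j + (N : ℝ) * ct i₁ i₂ i₃ α β γ i j
    have := mul_nonneg hN (BSh.ct_nonneg (i₁ := i₁) (i₂ := i₂) (i₃ := i₃) hα hβ hγ i j)
    linarith

theorem le_shiftOff_zero {T : ℝ} {c : Fin d → Fin d → ℝ} (hc : Adm T c) (i j : Fin d) :
    c i j ≤ shiftOff c 0 i j := by
  unfold shiftOff
  split_ifs with h
  · subst h
    rw [hc.1.1 i]
  · simp

theorem card_ratio {T : ℕ} (hT : 2 ≤ T) {G Ω : Finset (AddSubgroup (Fin d → ℤ))}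
    (hΩ : Ω ⊆ G) (hne : Ω.Nonempty) (hGΩ : (G.card : ℝ) ≤ T * Ω.card) :
    Real.logb 2 (G.card / Ω.card) ≤ Real.logb 2 T := by
  have hcd : (0 : ℝ) < Ω.card := by exact_mod_cast Finset.card_pos.2 hne
  have hcG : (0 : ℝ) < G.card := by exact_mod_cast Finset.card_pos.2 (hne.mono hΩ)
  refine Real.logb_le_logb_of_le (by norm_num) (by positivity) ?_
  rw [div_le_iff₀ hcd]
  exact hGΩ

theorem one_le_lT {T : ℕ} (hT : 2 ≤ T) : 1 ≤ Real.logb 2 T := by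
  rw [Real.le_logb_iff_rpow_le (by norm_num) (by positivity), Real.rpow_one]
  exact_mod_cast hT

theorem logB_le {T q A : ℕ} (hT : 2 ≤ T) (hA : (2 : ℝ) ^ q ≤ (T : ℝ) ^ A) (d : ℕ) :
    Real.logb 2 (131 ^ (d ^ 2) * 2 ^ (q + 14)) ≤ 8 * (d : ℝ) ^ 2 + A * Real.logb 2 T + 14 := by
  have h1 : (131 : ℝ) ^ (d ^ 2) ≤ (2 ^ 8) ^ (d ^ 2) := by gcongr; norm_num
  have h2 : (131 : ℝ) ^ (d ^ 2) * 2 ^ (q + 14) ≤ (2 ^ 8) ^ (d ^ 2) * 2 ^ 14 * (T : ℝ) ^ A := by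
    rw [pow_add]
    calc (131 : ℝ) ^ (d ^ 2) * (2 ^ q * 2 ^ 14) ≤ (2 ^ 8) ^ (d ^ 2) * ((T : ℝ) ^ A * 2 ^ 14) := by
          gcongr
      _ = _ := by ring
  have hT0 : (0 : ℝ) < T := by positivity
  refine (Real.logb_le_logb_of_le (by norm_num) (by positivity) h2).trans ?_
  rw [Real.logb_mul (by positivity) (by positivity), Real.logb_mul (by positivity) (by positivity),
    Real.logb_pow, Real.logb_pow, Real.logb_pow, Real.logb_pow,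
    Real.logb_self_eq_one (by norm_num)]
  push_cast
  linarith

theorem cmi_bound (hd : 1 ≤ d) {T : ℕ} (hT : 2 ≤ T) {C : ℝ} (hC : 1 ≤ C) {q A : ℕ}
    (hq : Small d T C q) (hA : (2 : ℝ) ^ q ≤ (T : ℝ) ^ A)
    {G Ω : Finset (AddSubgroup (Fin d → ℤ))} (hG : Fam T C G) (hΩ : Ω ⊆ G) (hne : Ω.Nonempty)
    (hGΩ : (G.card : ℝ) ≤ T * Ω.card) {κ β γ : Type} {Y : AddSubgroup (Fin d → ℤ) → κ}
    {f : AddSubgroup (Fin d → ℤ) → β} {g : AddSubgroup (Fin d → ℤ) → γ}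
    {c0 c1 c2 c3 : Fin d → Fin d → ℝ} (ha0 : Adm T c0) (ha3 : Adm T c3)
    (h0 : Comp q G Ω Y c0) (h1 : Comp q G Ω (fun y => (Y y, f y)) c1)
    (h2 : Comp q G Ω (fun y => (Y y, g y)) c2) (h3 : Comp q G Ω (fun y => (Y y, f y, g y)) c3)
    {φ0 φ1 φ2 φ3 E : ℝ} (hE : 0 ≤ E)
    (e0 : |(∑ x ∈ Ω, info G ((1 / 2 : ℝ) ^ q) c0 x) / Ω.card - φ0| ≤ E + 1)
    (e1 : |(∑ x ∈ Ω, info G ((1 / 2 : ℝ) ^ q) c1 x) / Ω.card - φ1| ≤ E + 1)
    (e2 : |(∑ x ∈ Ω, info G ((1 / 2 : ℝ) ^ q) c2 x) / Ω.card - φ2| ≤ E + 1)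
    (e3 : |(∑ x ∈ Ω, info G ((1 / 2 : ℝ) ^ q) c3 x) / Ω.card - φ3| ≤ E + 1) :
    cmi Ω Y f g ≤ |φ1 - φ0 - (φ3 - φ2)| + 4 * E +
      ((100 * (d ^ 2 + A + 1) : ℕ) : ℝ) * Real.logb 2 T := by
  have hT1 : 1 ≤ T := by omega
  have k0 := lw_upper hΩ hne h0 (R := 9 * d ^ 2 + Real.logb 2 (G.card / Ω.card)) (by
    rw [← add_assoc]
    exact av_radius hd hT1 hC hq hG hΩ hne ha0)
  have k3 := lw_upper hΩ hne h3 (R := 9 * d ^ 2 + Real.logb 2 (G.card / Ω.card)) (by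
    rw [← add_assoc]
    exact av_radius hd hT1 hC hq hG hΩ hne ha3)
  have k1 := lw_lower hΩ hne h1
  have k2 := lw_lower hΩ hne h2
  have l1 := card_ratio hT hΩ hne hGΩ
  have l2 := logB_le hT hA d
  have l3 := one_le_lT hT
  rw [abs_le] at e0 e1 e2 e3
  have hab := le_abs_self (φ1 - φ0 - (φ3 - φ2))
  have hdd : (0 : ℝ) ≤ (d : ℝ) ^ 2 := by positivity
  have hAA : (0 : ℝ) ≤ A := Nat.cast_nonneg A
  have hX : lw Ω (fun y => (Y y, f y, g y)) + lw Ω Y - lw Ω (fun y => (Y y, f y)) -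
      lw Ω (fun y => (Y y, g y)) ≤ |φ1 - φ0 - (φ3 - φ2)| + 4 * E +
      ((100 * (d ^ 2 + A + 1) : ℕ) : ℝ) * Real.logb 2 T := by
    push_cast
    nlinarith [mul_nonneg hdd (by linarith : (0 : ℝ) ≤ Real.logb 2 T - 1),
      mul_nonneg hAA (by linarith : (0 : ℝ) ≤ Real.logb 2 T - 1),
      mul_nonneg hAA (by linarith : (0 : ℝ) ≤ Real.logb 2 T)]
  have hR : 0 ≤ |φ1 - φ0 - (φ3 - φ2)| + 4 * E +
      ((100 * (d ^ 2 + A + 1) : ℕ) : ℝ) * Real.logb 2 T := by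
    have : 0 ≤ Real.logb 2 T := by linarith
    positivity
  rw [cmi_eq]
  have hl0 : 0 ≤ Real.log 2 := Real.log_nonneg (by norm_num)
  have hl1 : Real.log 2 ≤ 1 := by
    have := Real.log_two_lt_d9
    linarith
  calc Real.log 2 * (lw Ω (fun y => (Y y, f y, g y)) + lw Ω Y - lw Ω (fun y => (Y y, f y)) -
      lw Ω (fun y => (Y y, g y)))
      ≤ Real.log 2 * (|φ1 - φ0 - (φ3 - φ2)| + 4 * E +
      ((100 * (d ^ 2 + A + 1) : ℕ) : ℝ) * Real.logb 2 T) := mul_le_mul_of_nonneg_left hX hl0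
    _ ≤ 1 * (|φ1 - φ0 - (φ3 - φ2)| + 4 * E +
      ((100 * (d ^ 2 + A + 1) : ℕ) : ℝ) * Real.logb 2 T) := mul_le_mul_of_nonneg_right hl1 hR
    _ = _ := one_mul _

theorem const_le {T q A : ℕ} (hT : 2 ≤ T) (hA : (2 : ℝ) ^ q ≤ (T : ℝ) ^ A) (d : ℕ) :
    (T : ℝ) ^ 4 * (131 ^ (d ^ 2) * 2 ^ (q + 14)) * 259 ^ (d ^ 2) ≤
      (2 : ℝ) ^ (((100 * (d ^ 2 + A + 1) : ℕ) : ℝ) * Real.logb 2 T) := by
  have hT2 : (2 : ℝ) ≤ T := by exact_mod_cast hT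
  have hT0 : (0 : ℝ) < T := by positivity
  have h1 : (2 : ℝ) ^ (((100 * (d ^ 2 + A + 1) : ℕ) : ℝ) * Real.logb 2 T) =
      (T : ℝ) ^ (100 * (d ^ 2 + A + 1)) := by
    rw [mul_comm, Real.rpow_mul (by norm_num), Real.rpow_logb (by norm_num) (by norm_num) hT0,
      Real.rpow_natCast]
  rw [h1]
  have h2 : (131 : ℝ) ^ (d ^ 2) ≤ ((T : ℝ) ^ 8) ^ (d ^ 2) := by
    refine pow_le_pow_left₀ (by norm_num) ?_ _
    calc (131 : ℝ) ≤ 2 ^ 8 := by norm_num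
      _ ≤ (T : ℝ) ^ 8 := by gcongr
  have h3 : (259 : ℝ) ^ (d ^ 2) ≤ ((T : ℝ) ^ 9) ^ (d ^ 2) := by
    refine pow_le_pow_left₀ (by norm_num) ?_ _
    calc (259 : ℝ) ≤ 2 ^ 9 := by norm_num
      _ ≤ (T : ℝ) ^ 9 := by gcongr
  have h4 : (2 : ℝ) ^ (q + 14) ≤ (T : ℝ) ^ A * (T : ℝ) ^ 14 := by
    rw [pow_add]
    gcongr
  calc (T : ℝ) ^ 4 * (131 ^ (d ^ 2) * 2 ^ (q + 14)) * 259 ^ (d ^ 2)
      ≤ (T : ℝ) ^ 4 * (((T : ℝ) ^ 8) ^ (d ^ 2) * ((T : ℝ) ^ A * (T : ℝ) ^ 14)) *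
        ((T : ℝ) ^ 9) ^ (d ^ 2) := by gcongr
    _ = (T : ℝ) ^ (4 + (8 * d ^ 2 + (A + 14)) + 9 * d ^ 2) := by
        rw [pow_add, pow_add, pow_add, pow_add, pow_mul, pow_mul]
    _ ≤ (T : ℝ) ^ (100 * (d ^ 2 + A + 1)) := by
        refine pow_le_pow_right₀ (by linarith) ?_
        ring_nf
        omega

open Classical in
/-- the exceptional set of the comparison -/
theorem comp_markov {T : ℕ} (hT : 2 ≤ T) {q : ℕ} {G Ω : Finset (AddSubgroup (Fin d → ℤ))}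
    (hΩ : Ω ⊆ G) (hGΩ : (G.card : ℝ) ≤ T * Ω.card) {β : Type}
    {f : AddSubgroup (Fin d → ℤ) → β} {c : Fin d → Fin d → ℝ} (hc : Comp q G Ω f c) :
    ((Ω.filter fun x => (T : ℝ) ^ 2 * (131 ^ (d ^ 2) * 2 ^ (q + 14)) <
      (ncard G ((1 / 2 : ℝ) ^ q) c x : ℝ) / wt Ω f x).card : ℝ) * T ≤ Ω.card := by
  have hT0 : (0 : ℝ) < T := by positivity
  refine markov Ω _ (fun x hx => ?_) (by positivity) hT0 (hc.2.trans ?_)
  · have := one_le_wt Ω f hx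
    positivity
  · rw [mul_assoc _ (T : ℝ)]
    exact mul_le_mul_of_nonneg_left hGΩ (by positivity)

open Classical in
theorem radius_markov (hd : 1 ≤ d) {T : ℕ} (hT : 2 ≤ T) {C : ℝ} (hC : 1 ≤ C) {q : ℕ}
    (hq : Small d T C q) {G Ω : Finset (AddSubgroup (Fin d → ℤ))} (hG : Fam T C G)
    (hΩ : Ω ⊆ G) (hGΩ : (G.card : ℝ) ≤ T * Ω.card) {c : Fin d → Fin d → ℝ} (hc : Adm T c) :
    ((Ω.filter fun x => (T : ℝ) ^ 2 * 259 ^ (d ^ 2) <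
      (ncard G (64 * (1 / 2 : ℝ) ^ q) c x : ℝ) / ncard G ((1 / 2 : ℝ) ^ q) c x).card : ℝ) * T ≤
      Ω.card := by
  have hT0 : (0 : ℝ) < T := by positivity
  have hT1 : 1 ≤ T := by omega
  refine markov Ω _ (fun x hx => by positivity) (by positivity) hT0 ?_
  have h1 := ratio_shift hd hT1 hC hq hG (κ₁ := 64 * (1 / 2 : ℝ) ^ q) (κ₂ := (1 / 2 : ℝ) ^ q)
    (t := 0) (by positivity) le_rfl (by positivity) le_rfl hc (le_shiftOff_zero hc)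
  have h2 : (4 * (64 * (1 / 2 : ℝ) ^ q) * (2 : ℝ) ^ (0 : ℝ) / (1 / 2 : ℝ) ^ q + 3) = 259 := by
    rw [Real.rpow_zero]
    field_simp
    norm_num
  rw [h2] at h1
  calc ∑ x ∈ Ω, (ncard G (64 * (1 / 2 : ℝ) ^ q) c x : ℝ) / ncard G ((1 / 2 : ℝ) ^ q) c x
      ≤ ∑ x ∈ G, (ncard G (64 * (1 / 2 : ℝ) ^ q) c x : ℝ) / ncard G ((1 / 2 : ℝ) ^ q) c x :=
        Finset.sum_le_sum_of_subset_of_nonneg hΩ fun x _ _ => by positivity
    _ ≤ 259 ^ (d ^ 2) * G.card := h1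
    _ ≤ 259 ^ (d ^ 2) * (T * Ω.card) := mul_le_mul_of_nonneg_left hGΩ (by positivity)
    _ = _ := by ring

theorem card_union_le' {α : Type*} [DecidableEq α] {A B : Finset α} {T c a b : ℝ} (hT : 0 ≤ T)
    (h1 : (A.card : ℝ) * T ≤ a * c) (h2 : (B.card : ℝ) * T ≤ b * c) :
    ((A ∪ B).card : ℝ) * T ≤ (a + b) * c := by
  have h3 : ((A ∪ B).card : ℝ) ≤ A.card + B.card := by exact_mod_cast Finset.card_union_le A B
  nlinarith

end HBridgeAux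

open HBridgeAux

open Classical in
theorem bridge (d : ℕ) (hd : 3 ≤ d) (C : ℝ) (hC : 1 ≤ C) (A : ℕ) : ∃ (K : ℝ) (N₀ : ℕ), 0 < K ∧
    ∀ N : ℕ, N₀ ≤ N → ∀ (i₁ i₂ i₃ : Fin d), i₁ ≠ i₂ → i₂ ≠ i₃ → i₁ ≠ i₃ →
    ∀ (T q : ℕ), 2 ≤ T → Small d T C q → (2 : ℝ) ^ q ≤ (T : ℝ) ^ A → q ≤ N →
    ∀ (G Ω : Finset (AddSubgroup (Fin d → ℤ))), Fam T C G → Ω ⊆ G → Ω.Nonempty →
    (G.card : ℝ) ≤ T * Ω.card →
    ∀ σ : Fin d → ℝ, Pos T σ → ∀ Y h, Chart q G Ω (cN i₁ i₂ i₃ σ N 0 0 0) Y h →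
    ∀ a b z : AddSubgroup (Fin d → ℤ) → ℝ, (∀ x, a x = coA i₁ i₂ σ (q - 3) (h x)) →
    (∀ x, b x = coB i₂ i₃ σ (q - 3) (h x)) → (∀ x, z x = coZ i₁ i₃ σ (q - 3) (h x)) →
    ∀ (φ : ℝ → ℝ → ℝ → ℝ) (E : ℝ), 0 ≤ E →
    (∀ v ∈ ({(0, 0, 0), (1, 0, 0), (0, 1, 0), (0, 2, 2), (1, 2, 2), (2, 0, 2), (2, 1, 2)} :
        Finset (ℝ × ℝ × ℝ)), 0 ≤ φ v.1 v.2.1 v.2.2 ∧ φ v.1 v.2.1 v.2.2 ≤ T ∧
      ((Ω.filter fun x => E < |info G ((1 / 2 : ℝ) ^ q) (cN i₁ i₂ i₃ σ N v.1 v.2.1 v.2.2) x -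
        φ v.1 v.2.1 v.2.2|).card : ℝ) * T ≤ Ω.card) →
    (∀ x ∈ Ω, |a x| ≤ 1 ∧ |b x| ≤ 1) ∧
    (∃ Bad : Finset (AddSubgroup (Fin d → ℤ)), (Bad.card : ℝ) * T ≤ 10 * Ω.card ∧
      ∀ x ∈ Ω, x ∉ Bad →
        wt Ω (fun y => (Y y, dig N a y)) x ≤
          (2 : ℝ) ^ (-(φ 1 0 0 - φ 0 0 0) + 2 * E + K * Real.logb 2 T) * wt Ω Y x ∧
        wt Ω (fun y => (Y y, dig N b y)) x ≤
          (2 : ℝ) ^ (-(φ 0 1 0 - φ 0 0 0) + 2 * E + K * Real.logb 2 T) * wt Ω Y x) ∧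
    cmi Ω Y (dig N a) (fun x => (dig (2 * N) b x, dig (2 * N) (fun y => z y - a y * b y) x)) ≤
      |φ 1 0 0 - φ 0 0 0 - (φ 1 2 2 - φ 0 2 2)| + 4 * E + K * Real.logb 2 T ∧
    cmi Ω Y (dig N b) (fun x => (dig (2 * N) a x, dig (2 * N) z x)) ≤
      |φ 0 1 0 - φ 0 0 0 - (φ 2 1 2 - φ 2 0 2)| + 4 * E + K * Real.logb 2 T := by
  obtain ⟨N₀, hN₀⟩ := comp_all d hd
  refine ⟨((100 * (d ^ 2 + A + 1) : ℕ) : ℝ), N₀, by positivity, ?_⟩
  intro N hN i₁ i₂ i₃ h12 h23 h13 T q hT hq hA hqN G Ω hG hΩ hne hGΩ σ hσ Y h hch a b z ha hb hz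
    φ E hE hφ
  have hd1 : 1 ≤ d := by omega
  have hT1 : 1 ≤ T := by omega
  have hT0 : (0 : ℝ) ≤ T := Nat.cast_nonneg T
  have hq3 : 3 ≤ q := by
    by_contra hcon
    push Not at hcon
    have h1 : (2 : ℝ) ^ q ≤ 2 ^ 3 := pow_le_pow_right₀ (by norm_num) (by omega)
    have h2 : (1 : ℝ) ≤ (8 * d * C * (T : ℝ) ^ (d - 1)) ^ (d + 1) := by
      apply one_le_pow₀
      have hd' : (1 : ℝ) ≤ d := by exact_mod_cast hd1
      have hT' : (1 : ℝ) ≤ (T : ℝ) ^ (d - 1) := one_le_pow₀ (by exact_mod_cast hT1)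
      have : (1 : ℝ) ≤ d * C := by nlinarith
      nlinarith
    have h3 : (1 : ℝ) ≤ (d : ℝ) ^ 2 := one_le_pow₀ (by exact_mod_cast hd1)
    unfold Small at hq
    have h4 : (1 : ℝ) ≤ d ^ 2 * (8 * d * C * (T : ℝ) ^ (d - 1)) ^ (d + 1) := by nlinarith
    nlinarith
  obtain ⟨g0, cY, cYa, cYb, c022, c122, c202, c212⟩ :=
    hN₀ N hN i₁ i₂ i₃ h12 h23 h13 T C q hT1 hC hq hq3 hqN G Ω hG hΩ σ hσ Y h hch a b z ha hb hz
  have f000 := hφ (0, 0, 0) (by simp)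
  have f100 := hφ (1, 0, 0) (by simp)
  have f010 := hφ (0, 1, 0) (by simp)
  have f022 := hφ (0, 2, 2) (by simp)
  have f122 := hφ (1, 2, 2) (by simp)
  have f202 := hφ (2, 0, 2) (by simp)
  have f212 := hφ (2, 1, 2) (by simp)
  dsimp only at f000 f100 f010 f022 f122 f202 f212
  have a000 : Adm T (cN i₁ i₂ i₃ σ N 0 0 0) := adm_cN h12 h23 h13 hσ N (by norm_num)
    (by norm_num) (by norm_num) (by norm_num) (by norm_num) (by norm_num) (by norm_num)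
  have a100 : Adm T (cN i₁ i₂ i₃ σ N 1 0 0) := adm_cN h12 h23 h13 hσ N (by norm_num)
    (by norm_num) (by norm_num) (by norm_num) (by norm_num) (by norm_num) (by norm_num)
  have a010 : Adm T (cN i₁ i₂ i₃ σ N 0 1 0) := adm_cN h12 h23 h13 hσ N (by norm_num)
    (by norm_num) (by norm_num) (by norm_num) (by norm_num) (by norm_num) (by norm_num)
  have a122 : Adm T (cN i₁ i₂ i₃ σ N 1 2 2) := adm_cN h12 h23 h13 hσ N (by norm_num)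
    (by norm_num) (by norm_num) (by norm_num) (by norm_num) (by norm_num) (by norm_num)
  have a212 : Adm T (cN i₁ i₂ i₃ σ N 2 1 2) := adm_cN h12 h23 h13 hσ N (by norm_num)
    (by norm_num) (by norm_num) (by norm_num) (by norm_num) (by norm_num) (by norm_num)
  have hκ : (0 : ℝ) ≤ (1 / 2 : ℝ) ^ q := by positivity
  have hI : ∀ c : Fin d → Fin d → ℝ, ∀ x ∈ Ω, 0 ≤ info G ((1 / 2 : ℝ) ^ q) c x ∧
      info G ((1 / 2 : ℝ) ^ q) c x ≤ T := fun c x hx =>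
    ⟨info_nonneg hκ c (hΩ hx), info_le hG hκ c (hΩ hx)⟩
  have av : ∀ c : Fin d → Fin d → ℝ, ∀ p : ℝ, (0 ≤ p ∧ p ≤ T ∧
      ((Ω.filter fun x => E < |info G ((1 / 2 : ℝ) ^ q) c x - p|).card : ℝ) * T ≤ Ω.card) →
      |(∑ x ∈ Ω, info G ((1 / 2 : ℝ) ^ q) c x) / Ω.card - p| ≤ E + 1 := fun c p hp =>
    av_close hne _ hE (hI c) ⟨hp.1, hp.2.1⟩ hp.2.2
  refine ⟨fun x hx => ⟨(g0 x hx).1, (g0 x hx).2.1⟩, ?_, ?_, ?_⟩
  · have b1 := f000.2.2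
    have b2 := f100.2.2
    have b3 := f010.2.2
    have b4 := comp_markov hT hΩ hGΩ cY
    have b5 := radius_markov hd1 hT hC hq hG hΩ hGΩ a100
    have b6 := radius_markov hd1 hT hC hq hG hΩ hGΩ a010
    rw [← one_mul (Ω.card : ℝ)] at b1 b2 b3 b4 b5 b6
    have u1 := card_union_le' hT0 b1 b2
    have u2 := card_union_le' hT0 u1 b3
    have u3 := card_union_le' hT0 u2 b4
    have u4 := card_union_le' hT0 u3 b5
    have u5 := card_union_le' hT0 u4 b6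
    refine ⟨_, u5.trans ?_, ?_⟩
    · have : (0 : ℝ) ≤ Ω.card := Nat.cast_nonneg _
      nlinarith
    · intro x hx hxb
      simp only [Finset.mem_union, Finset.mem_filter, hx, true_and, not_or, not_lt] at hxb
      obtain ⟨⟨⟨⟨⟨n1, n2⟩, n3⟩, n4⟩, n5⟩, n6⟩ := hxb
      have hTr : (1 : ℝ) ≤ T := by exact_mod_cast hT1
      have hw := one_le_wt Ω Y hx
      have hcst := const_le hT hA d
      constructor
      · have := point hΩ hTr (M := 131 ^ (d ^ 2) * 2 ^ (q + 14)) (M' := 259 ^ (d ^ 2)) cYa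
          (by positivity) (by positivity) hx n1 n2 n4 n5
        refine this.trans (mul_le_mul_of_nonneg_right ?_ (by linarith))
        rw [Real.rpow_add (by norm_num) (-(φ 1 0 0 - φ 0 0 0) + 2 * E), mul_comm]
        exact mul_le_mul_of_nonneg_left hcst (by positivity)
      · have := point hΩ hTr (M := 131 ^ (d ^ 2) * 2 ^ (q + 14)) (M' := 259 ^ (d ^ 2)) cYb
          (by positivity) (by positivity) hx n1 n3 n4 n6
        refine this.trans (mul_le_mul_of_nonneg_right ?_ (by linarith))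
        rw [Real.rpow_add (by norm_num) (-(φ 0 1 0 - φ 0 0 0) + 2 * E), mul_comm]
        exact mul_le_mul_of_nonneg_left hcst (by positivity)
  · exact cmi_bound hd1 hT hC hq hA hG hΩ hne hGΩ a000 a122 cY cYa c022 c122 hE
      (av _ _ f000) (av _ _ f100) (av _ _ f022) (av _ _ f122)
  · exact cmi_bound hd1 hT hC hq hA hG hΩ hne hGΩ a000 a212 cY cYb c202 c212 hE
      (av _ _ f000) (av _ _ f010) (av _ _ f202) (av _ _ f212)

end Pool.Agent.Lib.P51n
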