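import Pool.Agent.Lib.P51n.Defs

/-!
# P51n.IndexLow  (about 1.5 h)

A subgroup of `ℤ^d` with small cost has index `≥ 2^T/C'`.

Let `a ∈ ℕ`, `T ≥ 2a`, and suppose `index Γ < 2^n`, `n = T - a`.  For every `t ∈ ℕ^d` with `∑ t_j = n` the
box `{0 ≤ k_j < 2^{t_j}}` has `2^n > index Γ` points, so two of them are congruent modulo `Γ`, and
`Γ` has a nonzero vector with `|k_j| < 2^{t_j}`, i.e. a block `s = lev k ≤ t` (coordinatewise), with
`∑ s ≤ n ≤ T`, so `s ∈ lowBlocks T Γ`.  The number of such `t` is at least `(n/d)^(d-1)` (choose the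
first `d-1` coordinates `≤ n/d`); the number of `t ≥ s` is at most
`(n - ∑s + 1)^(d-1) ≤ K_d 2^{n-∑s}`.  Hence
`(n/d)^(d-1) ≤ K_d ∑_{s ∈ lowBlocks} 2^{n-∑s} ≤ K_d 2^{-a} cost T Γ ≤ K_d 2^{-a} C T^(d-1)`, and
`n ≥ T/2` gives `2^a ≤ K_d C (2d)^(d-1)`.  So for `2^a > K_d C (2d)^(d-1)` and `T ≥ 2a`,
`index Γ ≥ 2^{T-a}`.
-/

set_option autoImplicit false

noncomputable section

namespace Pool.Agent.Lib.P51n

namespace ILow

theorem exists_K (e : ℕ) : ∃ K : ℝ, 1 ≤ K ∧ ∀ m : ℕ, ((m : ℝ) + 1) ^ e ≤ K * 2 ^ m := by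
  have h := (tendsto_pow_const_div_const_pow_of_one_lt e (one_lt_two : (1 : ℝ) < 2)).comp
    (Filter.tendsto_add_atTop_nat 1)
  obtain ⟨B, hB⟩ := h.bddAbove_range
  refine ⟨max 1 (2 * B), le_max_left _ _, fun m => ?_⟩
  have h1 : ((m + 1 : ℕ) : ℝ) ^ e / 2 ^ (m + 1) ≤ B := hB ⟨m, rfl⟩
  rw [div_le_iff₀ (by positivity)] at h1
  push_cast at h1
  calc ((m : ℝ) + 1) ^ e ≤ B * 2 ^ (m + 1) := h1
    _ = (2 * B) * 2 ^ m := by rw [pow_succ]; ring
    _ ≤ max 1 (2 * B) * 2 ^ m := by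
      apply mul_le_mul_of_nonneg_right (le_max_right _ _) (by positivity)

theorem exists_block {d : ℕ} (Γ : AddSubgroup (Fin d → ℤ)) (h0 : Γ.index ≠ 0) {n T : ℕ}
    (hn : Γ.index < 2 ^ n) (hT : n ≤ T) (t : Fin d → ℕ) (ht : ∑ j, t j = n) :
    ∃ s ∈ lowBlocks T Γ, s ≤ t := by
  classical
  have hfi : Γ.FiniteIndex := ⟨h0⟩
  have hfin : Finite ((Fin d → ℤ) ⧸ Γ) := AddSubgroup.finite_quotient_of_finiteIndex
  have hft : Fintype ((Fin d → ℤ) ⧸ Γ) := Fintype.ofFinite _
  set B : Finset (Fin d → ℕ) := Fintype.piFinset fun j => Finset.range (2 ^ t j) with hB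
  have hcard : (Finset.univ : Finset ((Fin d → ℤ) ⧸ Γ)).card < B.card := by
    rw [hB, Fintype.card_piFinset]
    simp only [Finset.card_range]
    rw [Finset.prod_pow_eq_pow_sum, ht, Finset.card_univ, ← Nat.card_eq_fintype_card]
    exact hn
  obtain ⟨x, hx, y, hy, hxy, he⟩ := Finset.exists_ne_map_eq_of_card_lt_of_maps_to hcard
    (f := fun x : Fin d → ℕ => (QuotientAddGroup.mk (fun j => (x j : ℤ)) : (Fin d → ℤ) ⧸ Γ))
    (fun _ _ => Finset.mem_coe.2 (Finset.mem_univ _))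
  have hmem : -(fun j => (x j : ℤ)) + (fun j => (y j : ℤ)) ∈ Γ := QuotientAddGroup.eq.1 he
  set k : Fin d → ℤ := -(fun j => (x j : ℤ)) + (fun j => (y j : ℤ)) with hk
  have hk0 : k ≠ 0 := by
    intro h
    apply hxy
    funext j
    have := congrFun h j
    simp only [hk, Pi.add_apply, Pi.neg_apply, Pi.zero_apply] at this
    omega
  have hlev : ∀ j, lev k j ≤ t j := by
    intro j
    have hxj : x j < 2 ^ t j := Finset.mem_range.1 ((Fintype.mem_piFinset.1 hx) j)
    have hyj : y j < 2 ^ t j := Finset.mem_range.1 ((Fintype.mem_piFinset.1 hy) j)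
    rw [lev, Nat.size_le]
    have hkj : k j = -(x j : ℤ) + (y j : ℤ) := rfl
    rw [hkj]
    omega
  have hsum : ∑ j, lev k j ≤ T := le_trans (Finset.sum_le_sum fun j _ => hlev j) (ht ▸ hT)
  refine ⟨lev k, ?_, hlev⟩
  rw [lowBlocks, Finset.mem_filter, Fintype.mem_piFinset]
  refine ⟨fun j => ?_, hsum, k, hmem, hk0, rfl⟩
  rw [Finset.mem_range]
  have := Finset.single_le_sum (f := fun j => lev k j) (fun _ _ => Nat.zero_le _)
    (Finset.mem_univ j)
  omega

/-- compositions of `n` -/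
def comps (e n : ℕ) : Finset (Fin (e + 1) → ℕ) :=
  (Fintype.piFinset fun _ : Fin (e + 1) => Finset.range (n + 1)).filter fun t => ∑ j, t j = n

theorem mem_comps {e n : ℕ} {t : Fin (e + 1) → ℕ} : t ∈ comps e n ↔ ∑ j, t j = n := by
  rw [comps, Finset.mem_filter, Fintype.mem_piFinset, and_iff_right_iff_imp]
  intro h j
  rw [Finset.mem_range]
  have := Finset.single_le_sum (f := fun j => t j) (fun _ _ => Nat.zero_le _)
    (Finset.mem_univ j)
  omega

theorem card_comps_ge (e n : ℕ) : (n / (e + 1) + 1) ^ e ≤ (comps e n).card := by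
  classical
  have h1 : (Fintype.piFinset fun _ : Fin e => Finset.range (n / (e + 1) + 1)).card
      = (n / (e + 1) + 1) ^ e := by
    rw [Fintype.card_piFinset]
    simp
  rw [← h1]
  have hle : ∀ u ∈ (Fintype.piFinset fun _ : Fin e => Finset.range (n / (e + 1) + 1)),
      ∑ j, u j ≤ n := by
    intro u hu
    have h2 : ∑ j, u j ≤ ∑ _j : Fin e, n / (e + 1) := by
      apply Finset.sum_le_sum
      intro j _
      have := Finset.mem_range.1 ((Fintype.mem_piFinset.1 hu) j)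
      omega
    rw [Finset.sum_const, Finset.card_univ, Fintype.card_fin, smul_eq_mul] at h2
    have h3 : (e + 1) * (n / (e + 1)) ≤ n := Nat.mul_div_le n (e + 1)
    nlinarith
  apply Finset.card_le_card_of_injOn (fun u => (Fin.cons (n - ∑ j, u j) u : Fin (e + 1) → ℕ))
  · intro u hu
    rw [Finset.mem_coe, mem_comps, Fin.sum_univ_succ]
    simp only [Fin.cons_zero, Fin.cons_succ]
    have := hle u (Finset.mem_coe.1 hu)
    omega
  · intro u _ v _ h
    simp only at h
    exact (Fin.cons_injective2 h).2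

open Classical in
theorem card_above_le {e n : ℕ} (s : Fin (e + 1) → ℕ) :
    ((comps e n).filter fun t => s ≤ t).card ≤ (n - ∑ j, s j + 1) ^ e := by
  classical
  have h1 : (Fintype.piFinset fun _ : Fin e => Finset.range (n - ∑ j, s j + 1)).card
      = (n - ∑ j, s j + 1) ^ e := by
    rw [Fintype.card_piFinset]
    simp
  rw [← h1]
  apply Finset.card_le_card_of_injOn (fun t => (fun j : Fin e => t j.succ - s j.succ))
  · intro t ht
    rw [Finset.mem_coe, Finset.mem_filter, mem_comps] at ht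
    obtain ⟨ht, hst⟩ := ht
    rw [Finset.mem_coe, Fintype.mem_piFinset]
    intro j
    rw [Finset.mem_range]
    have h2 : ∑ i, (t i - s i) = ∑ i, t i - ∑ i, s i := by
      rw [Finset.sum_tsub_distrib]
      exact fun i _ => hst i
    have h3 := Finset.single_le_sum (f := fun i => t i - s i) (fun _ _ => Nat.zero_le _)
      (Finset.mem_univ j.succ)
    rw [h2, ht] at h3
    exact Nat.lt_succ_of_le h3
  · intro t ht t' ht' h
    rw [Finset.mem_coe, Finset.mem_filter, mem_comps] at ht ht'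
    have hs : ∀ j : Fin e, t j.succ = t' j.succ := by
      intro j
      have h4 := congrFun h j
      simp only at h4
      have h5 : s j.succ ≤ t j.succ := ht.2 j.succ
      have h6 : s j.succ ≤ t' j.succ := ht'.2 j.succ
      omega
    have h0 : t 0 = t' 0 := by
      have h7 := ht.1
      have h8 := ht'.1
      rw [Fin.sum_univ_succ] at h7 h8
      rw [Finset.sum_congr rfl fun j _ => hs j] at h7
      omega
    funext j
    refine Fin.cases h0 hs j

end ILow

theorem index_low (d : ℕ) (hd : 1 ≤ d) (C : ℝ) (hC : 1 ≤ C) :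
    ∃ (C' : ℝ) (T₀ : ℕ), 1 ≤ C' ∧ ∀ T : ℕ, T₀ ≤ T → ∀ Γ : AddSubgroup (Fin d → ℤ),
      Γ.index ≠ 0 → cost T Γ ≤ C * (T : ℝ) ^ (d - 1) → (2 : ℝ) ^ T ≤ C' * Γ.index := by
  obtain ⟨e, rfl⟩ : ∃ e, d = e + 1 := ⟨d - 1, by omega⟩
  obtain ⟨K, hK1, hK⟩ := ILow.exists_K e
  obtain ⟨a, ha⟩ := pow_unbounded_of_one_lt (K * C * (2 * ((e : ℝ) + 1)) ^ e)
    (one_lt_two : (1 : ℝ) < 2)
  refine ⟨2 ^ a, 2 * a + 1, one_le_pow₀ one_le_two, fun T hT Γ h0 hcost => ?_⟩
  rw [Nat.add_sub_cancel] at hcost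
  by_contra hcon
  rw [not_le] at hcon
  set n := T - a with hn
  have hTn : T = n + a := by omega
  have hidx : Γ.index < 2 ^ n := by
    have h1 : (2 : ℝ) ^ a * (Γ.index : ℝ) < 2 ^ a * 2 ^ n := by
      rw [← pow_add, add_comm a n, ← hTn]; exact hcon
    have h2 : (Γ.index : ℝ) < 2 ^ n := lt_of_mul_lt_mul_left h1 (by positivity)
    exact_mod_cast h2
  -- double counting
  have hcount : ((ILow.comps e n).card : ℝ) ≤ K * cost T Γ / 2 ^ a := by
    classical
    have hnT : n ≤ T := by omega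
    have h1 : (ILow.comps e n).card
        ≤ ∑ s ∈ lowBlocks T Γ, ((ILow.comps e n).filter fun t => s ≤ t).card := by
      refine le_trans (Finset.card_le_card ?_) Finset.card_biUnion_le
      intro t ht
      obtain ⟨s, hs, hst⟩ := ILow.exists_block Γ h0 hidx hnT t (ILow.mem_comps.1 ht)
      rw [Finset.mem_biUnion]
      exact ⟨s, hs, Finset.mem_filter.2 ⟨ht, hst⟩⟩
    have h2 : ∀ s ∈ lowBlocks T Γ, (((ILow.comps e n).filter fun t => s ≤ t).card : ℝ)
        ≤ K * 2 ^ (T - ∑ j, s j) / 2 ^ a := by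
      intro s _
      by_cases hsn : ∑ j, s j ≤ n
      · have h3 := ILow.card_above_le (n := n) s
        have h4 : (((ILow.comps e n).filter fun t => s ≤ t).card : ℝ)
            ≤ (((n - ∑ j, s j : ℕ) : ℝ) + 1) ^ e := by exact_mod_cast h3
        refine h4.trans ((hK _).trans (le_of_eq ?_))
        have h5 : T - ∑ j, s j = (n - ∑ j, s j) + a := by omega
        rw [h5, pow_add, ← mul_assoc, mul_div_assoc, div_self (by positivity), mul_one]
      · have h3 : ((ILow.comps e n).filter fun t => s ≤ t) = ∅ := by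
          rw [Finset.filter_eq_empty_iff]
          intro t ht hst
          apply hsn
          rw [← ILow.mem_comps.1 ht]
          exact Finset.sum_le_sum fun j _ => hst j
        rw [h3, Finset.card_empty, Nat.cast_zero]
        have : (0 : ℝ) ≤ K := by linarith
        positivity
    calc ((ILow.comps e n).card : ℝ)
        ≤ ((∑ s ∈ lowBlocks T Γ, ((ILow.comps e n).filter fun t => s ≤ t).card : ℕ) : ℝ) := by
          exact_mod_cast h1
      _ = ∑ s ∈ lowBlocks T Γ, (((ILow.comps e n).filter fun t => s ≤ t).card : ℝ) := by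
          push_cast; rfl
      _ ≤ ∑ s ∈ lowBlocks T Γ, K * 2 ^ (T - ∑ j, s j) / 2 ^ a := Finset.sum_le_sum h2
      _ = K * cost T Γ / 2 ^ a := by
          rw [cost, Finset.mul_sum, Finset.sum_div]
  have hlow : ((T : ℝ) / (2 * ((e : ℝ) + 1))) ^ e ≤ ((ILow.comps e n).card : ℝ) := by
    have h1 : (((n / (e + 1) : ℕ) : ℝ) + 1) ^ e ≤ ((ILow.comps e n).card : ℝ) := by
      exact_mod_cast ILow.card_comps_ge e n
    refine le_trans (pow_le_pow_left₀ (by positivity) ?_ e) h1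
    rw [div_le_iff₀ (by positivity)]
    have h2 : n < (e + 1) * (n / (e + 1) + 1) := by
      have := Nat.div_add_mod n (e + 1)
      have h3 := Nat.mod_lt n (Nat.succ_pos e)
      nlinarith
    have h3 : T ≤ 2 * n := by omega
    have h4 : (T : ℝ) ≤ 2 * n := by exact_mod_cast h3
    have h5 : (n : ℝ) ≤ ((e : ℝ) + 1) * (((n / (e + 1) : ℕ) : ℝ) + 1) := by
      exact_mod_cast h2.le
    nlinarith
  have hT0 : (0 : ℝ) < T := by
    have : 0 < T := by omega
    exact_mod_cast this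
  have hK0 : (0 : ℝ) ≤ K := by linarith
  have hfin : ((T : ℝ) / (2 * ((e : ℝ) + 1))) ^ e ≤ K * (C * (T : ℝ) ^ e) / 2 ^ a := by
    refine hlow.trans (hcount.trans ?_)
    apply div_le_div_of_nonneg_right _ (by positivity)
    exact mul_le_mul_of_nonneg_left hcost hK0
  rw [div_pow, div_le_iff₀ (by positivity), div_mul_eq_mul_div, le_div_iff₀ (by positivity)] at hfin
  have h6 : (2 : ℝ) ^ a ≤ K * C * (2 * ((e : ℝ) + 1)) ^ e := by
    have h7 : (T : ℝ) ^ e * 2 ^ a ≤ (T : ℝ) ^ e * (K * C * (2 * ((e : ℝ) + 1)) ^ e) := by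
      calc (T : ℝ) ^ e * 2 ^ a ≤ K * (C * (T : ℝ) ^ e) * (2 * ((e : ℝ) + 1)) ^ e := hfin
        _ = (T : ℝ) ^ e * (K * C * (2 * ((e : ℝ) + 1)) ^ e) := by ring
    exact le_of_mul_le_mul_left h7 (by positivity)
  linarith

end Pool.Agent.Lib.P51n
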