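import Mathlib

/-!
# P51n.MCount

The final count, abstractly.
-/

set_option autoImplicit false

noncomputable section

namespace Pool.Agent.Lib.P51n

theorem swap3 {α β γ : Type*} (I : Finset α) (𝒩 : Finset β) (Ω : Finset γ) (w : α → ℝ)
    (g : α → β → γ → ℝ) : ∑ j ∈ I, w j * ∑ nm ∈ 𝒩, ∑ x ∈ Ω, g j nm x =
      ∑ nm ∈ 𝒩, ∑ x ∈ Ω, ∑ j ∈ I, w j * g j nm x := by
  simp only [Finset.mul_sum]
  rw [Finset.sum_comm]
  refine Finset.sum_congr rfl fun nm _ => ?_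
  rw [Finset.sum_comm]

open Classical in
theorem swap2 {α ι : Type*} (Ω : Finset α) (P : Finset ι) (E : ι → α → Prop) :
    ∑ σ ∈ P, ((Ω.filter (E σ)).card : ℝ) = ∑ x ∈ Ω, ((P.filter fun σ => E σ x).card : ℝ) := by
  simp only [Finset.card_filter]
  push_cast
  rw [Finset.sum_comm]

open Classical in
theorem final_count {α ι : Type*} (Ω : Finset α) (P : Finset ι) (N k₁ L J₀ J : ℕ)
    (B : ι → ℕ → ℕ → Finset α) (S : ι → ℕ → ℕ → α → Prop) (Ev : ℕ → ι → ℕ → ℕ → α → Prop)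
    (c₄ R M V : ℝ) (hc₄ : 0 < c₄) (hR : 1 ≤ R) (hM : 0 ≤ M) (hV : 0 ≤ V)
    (hΩ : Ω.Nonempty) (hN : 0 < N)
    (hB : ∀ σ ∈ P, ∀ n m, B σ n m ⊆ Ω)
    (hB1 : ∀ σ ∈ P, c₄ * (N : ℝ) ^ 2 * Ω.card ≤
      ∑ nm ∈ Finset.range N ×ˢ Finset.range N, ((B σ nm.1 nm.2).card : ℝ))
    (hB2 : ∀ σ ∈ P, ∀ n m, ¬ (n + L ≤ N ∧ m + L ≤ N) → B σ n m = ∅)
    (hB3 : ∀ σ ∈ P, ∀ n m, k₁ ≤ n → n + L ≤ N → m + L ≤ N → ∀ j ≤ J,
      (1 / 2 : ℝ) ^ j / (200 * R) * (((B σ n m).filter (S σ n m)).card : ℝ) ≤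
        ((Ω.filter (Ev j σ n m)).card : ℝ) + M * Ω.card)
    (hS : ∀ x ∈ Ω, ∀ n m, k₁ ≤ n → n + L ≤ N → m + L ≤ N →
      ((P.filter fun σ => ¬ S σ n m x).card : ℝ) ≤ (c₄ / 4) * P.card)
    (hE : ∀ x ∈ Ω, ∀ n m, k₁ ≤ n → n + L ≤ N → m + L ≤ N →
      ∑ j ∈ Finset.Icc J₀ J, (2 : ℝ) ^ j * ((P.filter fun σ => Ev j σ n m x).card : ℝ) ≤ V)
    (hk : (k₁ : ℝ) ≤ (c₄ / 4) * N) (hτ : (2 : ℝ) ^ J * M ≤ c₄ / (1600 * R)) (hJ : J₀ ≤ J) :
    ((J : ℝ) - J₀) * (c₄ / (800 * R)) * P.card ≤ V := by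
  set 𝒩 : Finset (ℕ × ℕ) := (Finset.range N ×ˢ Finset.range N).filter fun nm =>
    k₁ ≤ nm.1 ∧ nm.1 + L ≤ N ∧ nm.2 + L ≤ N with h𝒩
  have hN0 : (0 : ℝ) < N := by exact_mod_cast hN
  have hΩ0 : (0 : ℝ) < Ω.card := by exact_mod_cast Finset.card_pos.2 hΩ
  have h𝒩c : (𝒩.card : ℝ) ≤ (N : ℝ) ^ 2 := by
    have : 𝒩.card ≤ N * N := by
      refine (Finset.card_filter_le _ _).trans ?_
      simp
    calc (𝒩.card : ℝ) ≤ ((N * N : ℕ) : ℝ) := by exact_mod_cast this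
      _ = (N : ℝ) ^ 2 := by push_cast; ring
  -- lower bound for the sum over `𝒩`
  have h1 : ∀ σ ∈ P, (c₄ * (3 / 4)) * (N : ℝ) ^ 2 * Ω.card ≤ ∑ nm ∈ 𝒩, ((B σ nm.1 nm.2).card : ℝ) := by
    intro σ hσ
    have e := Finset.sum_filter_add_sum_filter_not (Finset.range N ×ˢ Finset.range N)
      (fun nm : ℕ × ℕ => k₁ ≤ nm.1 ∧ nm.1 + L ≤ N ∧ nm.2 + L ≤ N)
      (fun nm => ((B σ nm.1 nm.2).card : ℝ))
    have h2 : ∑ nm ∈ (Finset.range N ×ˢ Finset.range N).filter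
        (fun nm : ℕ × ℕ => ¬ (k₁ ≤ nm.1 ∧ nm.1 + L ≤ N ∧ nm.2 + L ≤ N)),
        ((B σ nm.1 nm.2).card : ℝ) ≤ k₁ * N * Ω.card := by
      have h3 : ∀ nm ∈ (Finset.range N ×ˢ Finset.range N).filter
          (fun nm : ℕ × ℕ => ¬ (k₁ ≤ nm.1 ∧ nm.1 + L ≤ N ∧ nm.2 + L ≤ N)),
          ((B σ nm.1 nm.2).card : ℝ) ≤ if nm.1 < k₁ then (Ω.card : ℝ) else 0 := by
        intro nm hnm
        split_ifs with hlt
        · exact_mod_cast Finset.card_le_card (hB σ hσ _ _)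
        · have := (Finset.mem_filter.1 hnm).2
          have h4 : ¬ (nm.1 + L ≤ N ∧ nm.2 + L ≤ N) := fun h5 => this ⟨by omega, h5.1, h5.2⟩
          rw [hB2 σ hσ _ _ h4]; simp
      refine (Finset.sum_le_sum h3).trans ?_
      rw [← Finset.sum_filter, Finset.sum_const, nsmul_eq_mul]
      refine mul_le_mul_of_nonneg_right ?_ hΩ0.le
      have h5 : ((((Finset.range N ×ˢ Finset.range N).filter
          (fun nm : ℕ × ℕ => ¬ (k₁ ≤ nm.1 ∧ nm.1 + L ≤ N ∧ nm.2 + L ≤ N))).filter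
          fun nm => nm.1 < k₁).card) ≤ k₁ * N := by
        calc _ ≤ (Finset.range k₁ ×ˢ Finset.range N).card := by
              apply Finset.card_le_card
              intro nm hnm
              simp only [Finset.mem_filter, Finset.mem_product, Finset.mem_range] at hnm ⊢
              exact ⟨hnm.2, hnm.1.1.2⟩
          _ = k₁ * N := by simp
      exact_mod_cast h5
    have h6 : (k₁ : ℝ) * N * Ω.card ≤ (c₄ / 4) * (N : ℝ) ^ 2 * Ω.card := by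
      have := mul_le_mul_of_nonneg_right hk hN0.le
      have := mul_le_mul_of_nonneg_right this hΩ0.le
      nlinarith
    have h7 := hB1 σ hσ
    rw [← e] at h7
    simp only [h𝒩]
    linarith
  -- main inequality for each `j`
  have h2 : ∀ j ∈ Finset.Icc J₀ J, (c₄ / (800 * R)) * ((N : ℝ) ^ 2 * Ω.card * P.card) ≤
      (2 : ℝ) ^ j * ∑ nm ∈ 𝒩, ∑ σ ∈ P, ((Ω.filter (Ev j σ nm.1 nm.2)).card : ℝ) := by
    intro j hj
    have hjJ : j ≤ J := (Finset.mem_Icc.1 hj).2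
    -- sum of `hB3`
    have h3 : (1 / 2 : ℝ) ^ j / (200 * R) * ∑ nm ∈ 𝒩, ∑ σ ∈ P,
        (((B σ nm.1 nm.2).filter (S σ nm.1 nm.2)).card : ℝ) ≤
        ∑ nm ∈ 𝒩, ∑ σ ∈ P, ((Ω.filter (Ev j σ nm.1 nm.2)).card : ℝ) +
          (N : ℝ) ^ 2 * P.card * (M * Ω.card) := by
      rw [Finset.mul_sum]
      calc ∑ nm ∈ 𝒩, (1 / 2 : ℝ) ^ j / (200 * R) * ∑ σ ∈ P,
            (((B σ nm.1 nm.2).filter (S σ nm.1 nm.2)).card : ℝ)
          ≤ ∑ nm ∈ 𝒩, ∑ σ ∈ P, (((Ω.filter (Ev j σ nm.1 nm.2)).card : ℝ) + M * Ω.card) := by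
            refine Finset.sum_le_sum fun nm hnm => ?_
            rw [Finset.mul_sum]
            refine Finset.sum_le_sum fun σ hσ => ?_
            have := (Finset.mem_filter.1 hnm).2
            exact hB3 σ hσ _ _ this.1 this.2.1 this.2.2 j hjJ
        _ = ∑ nm ∈ 𝒩, ∑ σ ∈ P, ((Ω.filter (Ev j σ nm.1 nm.2)).card : ℝ) +
            𝒩.card * (P.card * (M * Ω.card)) := by
            simp only [Finset.sum_add_distrib, Finset.sum_const, nsmul_eq_mul]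
        _ ≤ _ := by
            have : (𝒩.card : ℝ) * (P.card * (M * Ω.card)) ≤
                (N : ℝ) ^ 2 * (P.card * (M * Ω.card)) :=
              mul_le_mul_of_nonneg_right h𝒩c (by positivity)
            linarith
    -- lower bound for the left side
    have h4 : (c₄ / 2) * ((N : ℝ) ^ 2 * Ω.card * P.card) ≤ ∑ nm ∈ 𝒩, ∑ σ ∈ P,
        (((B σ nm.1 nm.2).filter (S σ nm.1 nm.2)).card : ℝ) := by
      have h5 : ∀ nm ∈ 𝒩, ∀ σ ∈ P, ((B σ nm.1 nm.2).card : ℝ) -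
          ((Ω.filter fun x => ¬ S σ nm.1 nm.2 x).card : ℝ) ≤
          (((B σ nm.1 nm.2).filter (S σ nm.1 nm.2)).card : ℝ) := by
        intro nm _ σ hσ
        have e := Finset.card_filter_add_card_filter_not (s := B σ nm.1 nm.2)
          (S σ nm.1 nm.2)
        have h6 : ((B σ nm.1 nm.2).filter fun x => ¬ S σ nm.1 nm.2 x).card ≤
            (Ω.filter fun x => ¬ S σ nm.1 nm.2 x).card :=
          Finset.card_le_card (Finset.filter_subset_filter _ (hB σ hσ _ _))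
        have e' : (((B σ nm.1 nm.2).filter (S σ nm.1 nm.2)).card : ℝ) +
            (((B σ nm.1 nm.2).filter fun x => ¬ S σ nm.1 nm.2 x).card : ℝ) =
            (B σ nm.1 nm.2).card := by exact_mod_cast e
        have h6' : (((B σ nm.1 nm.2).filter fun x => ¬ S σ nm.1 nm.2 x).card : ℝ) ≤
            ((Ω.filter fun x => ¬ S σ nm.1 nm.2 x).card : ℝ) := by exact_mod_cast h6
        linarith
      have h7 : ∑ nm ∈ 𝒩, ∑ σ ∈ P, ((B σ nm.1 nm.2).card : ℝ) -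
          ∑ nm ∈ 𝒩, ∑ σ ∈ P, ((Ω.filter fun x => ¬ S σ nm.1 nm.2 x).card : ℝ) ≤
          ∑ nm ∈ 𝒩, ∑ σ ∈ P, (((B σ nm.1 nm.2).filter (S σ nm.1 nm.2)).card : ℝ) := by
        rw [← Finset.sum_sub_distrib]
        refine Finset.sum_le_sum fun nm hnm => ?_
        rw [← Finset.sum_sub_distrib]
        exact Finset.sum_le_sum fun σ hσ => h5 nm hnm σ hσ
      have h8 : P.card * ((c₄ * (3 / 4)) * (N : ℝ) ^ 2 * Ω.card) ≤
          ∑ nm ∈ 𝒩, ∑ σ ∈ P, ((B σ nm.1 nm.2).card : ℝ) := by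
        rw [Finset.sum_comm, ← nsmul_eq_mul, ← Finset.sum_const]
        exact Finset.sum_le_sum fun σ hσ => h1 σ hσ
      have h9 : ∑ nm ∈ 𝒩, ∑ σ ∈ P, ((Ω.filter fun x => ¬ S σ nm.1 nm.2 x).card : ℝ) ≤
          (N : ℝ) ^ 2 * (Ω.card * ((c₄ / 4) * P.card)) := by
        have h10 : ∀ nm ∈ 𝒩, ∑ σ ∈ P, ((Ω.filter fun x => ¬ S σ nm.1 nm.2 x).card : ℝ) ≤
            Ω.card * ((c₄ / 4) * P.card) := by
          intro nm hnm
          have h11 := (Finset.mem_filter.1 hnm).2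
          have e1 : ∑ σ ∈ P, ((Ω.filter fun x => ¬ S σ nm.1 nm.2 x).card : ℝ) =
              ∑ x ∈ Ω, ((P.filter fun σ => ¬ S σ nm.1 nm.2 x).card : ℝ) := by
            convert swap2 Ω P fun σ x => ¬ S σ nm.1 nm.2 x
          rw [e1, ← nsmul_eq_mul, ← Finset.sum_const]
          exact Finset.sum_le_sum fun x hx => hS x hx _ _ h11.1 h11.2.1 h11.2.2
        refine (Finset.sum_le_sum h10).trans ?_
        rw [Finset.sum_const, nsmul_eq_mul]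
        exact mul_le_mul_of_nonneg_right h𝒩c (by positivity)
      nlinarith
    have hR0 : 0 < R := by linarith
    have h2j : (2 : ℝ) ^ j * (1 / 2 : ℝ) ^ j = 1 := by
      rw [← mul_pow]; norm_num
    have h5 := mul_le_mul_of_nonneg_left h3 (by positivity : (0 : ℝ) ≤ 2 ^ j)
    have h6 : (2 : ℝ) ^ j * M ≤ c₄ / (1600 * R) := by
      refine le_trans (mul_le_mul_of_nonneg_right ?_ hM) hτ
      exact pow_le_pow_right₀ (by norm_num) hjJ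
    have h7 : (1 / (200 * R)) * ((c₄ / 2) * ((N : ℝ) ^ 2 * Ω.card * P.card)) ≤
        (2 : ℝ) ^ j * ((1 / 2 : ℝ) ^ j / (200 * R) * ∑ nm ∈ 𝒩, ∑ σ ∈ P,
        (((B σ nm.1 nm.2).filter (S σ nm.1 nm.2)).card : ℝ)) := by
      have e : (2 : ℝ) ^ j * ((1 / 2 : ℝ) ^ j / (200 * R) * ∑ nm ∈ 𝒩, ∑ σ ∈ P,
        (((B σ nm.1 nm.2).filter (S σ nm.1 nm.2)).card : ℝ)) = (1 / (200 * R)) *
          ∑ nm ∈ 𝒩, ∑ σ ∈ P, (((B σ nm.1 nm.2).filter (S σ nm.1 nm.2)).card : ℝ) := by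
        rw [← mul_assoc, ← mul_div_assoc, h2j]
      rw [e]
      exact mul_le_mul_of_nonneg_left h4 (by positivity)
    have h8 : (2 : ℝ) ^ j * ((N : ℝ) ^ 2 * P.card * (M * Ω.card)) ≤
        c₄ / (1600 * R) * ((N : ℝ) ^ 2 * Ω.card * P.card) := by
      have := mul_le_mul_of_nonneg_right h6
        (by positivity : (0 : ℝ) ≤ (N : ℝ) ^ 2 * Ω.card * P.card)
      linarith
    have h9 : (c₄ / (800 * R)) * ((N : ℝ) ^ 2 * Ω.card * P.card) ≤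
        (1 / (200 * R)) * ((c₄ / 2) * ((N : ℝ) ^ 2 * Ω.card * P.card)) -
        c₄ / (1600 * R) * ((N : ℝ) ^ 2 * Ω.card * P.card) := by
      have h10 : (c₄ / (800 * R)) ≤ (1 / (200 * R)) * (c₄ / 2) - c₄ / (1600 * R) := by
        have e1 : (1 / (200 * R)) * (c₄ / 2) - c₄ / (1600 * R) - c₄ / (800 * R) =
            c₄ / (1600 * R) := by field_simp; ring
        have : 0 < c₄ / (1600 * R) := by positivity
        linarith
      have := mul_le_mul_of_nonneg_right h10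
        (by positivity : (0 : ℝ) ≤ (N : ℝ) ^ 2 * Ω.card * P.card)
      linarith
    rw [mul_add] at h5
    linarith
  -- sum over `j`
  have h3 : ((J : ℝ) - J₀) * ((c₄ / (800 * R)) * ((N : ℝ) ^ 2 * Ω.card * P.card)) ≤
      ∑ j ∈ Finset.Icc J₀ J, (2 : ℝ) ^ j *
        ∑ nm ∈ 𝒩, ∑ σ ∈ P, ((Ω.filter (Ev j σ nm.1 nm.2)).card : ℝ) := by
    have h4 := Finset.sum_le_sum h2
    rw [Finset.sum_const, nsmul_eq_mul, Nat.card_Icc] at h4
    refine le_trans (mul_le_mul_of_nonneg_right ?_ (by positivity)) h4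
    have : J + 1 - J₀ = (J - J₀) + 1 := by omega
    rw [this]; push_cast [Nat.cast_sub hJ]; linarith
  have h4 : ∑ j ∈ Finset.Icc J₀ J, (2 : ℝ) ^ j *
        ∑ nm ∈ 𝒩, ∑ σ ∈ P, ((Ω.filter (Ev j σ nm.1 nm.2)).card : ℝ) ≤
      (N : ℝ) ^ 2 * (Ω.card * V) := by
    have e1 : ∑ j ∈ Finset.Icc J₀ J, (2 : ℝ) ^ j *
        ∑ nm ∈ 𝒩, ∑ σ ∈ P, ((Ω.filter (Ev j σ nm.1 nm.2)).card : ℝ) =
        ∑ nm ∈ 𝒩, ∑ x ∈ Ω, ∑ j ∈ Finset.Icc J₀ J, (2 : ℝ) ^ j *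
          ((P.filter fun σ => Ev j σ nm.1 nm.2 x).card : ℝ) := by
      rw [← swap3]
      refine Finset.sum_congr rfl fun j _ => ?_
      congr 1
      exact Finset.sum_congr rfl fun nm _ => swap2 Ω P (Ev j · nm.1 nm.2)
    rw [e1]
    have h5 : ∀ nm ∈ 𝒩, ∑ x ∈ Ω, ∑ j ∈ Finset.Icc J₀ J, (2 : ℝ) ^ j *
          ((P.filter fun σ => Ev j σ nm.1 nm.2 x).card : ℝ) ≤ Ω.card * V := by
      intro nm hnm
      have h11 := (Finset.mem_filter.1 hnm).2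
      rw [← nsmul_eq_mul, ← Finset.sum_const]
      exact Finset.sum_le_sum fun x hx => hE x hx _ _ h11.1 h11.2.1 h11.2.2
    refine (Finset.sum_le_sum h5).trans ?_
    rw [Finset.sum_const, nsmul_eq_mul]
    exact mul_le_mul_of_nonneg_right h𝒩c (by positivity)
  have h5 := h3.trans h4
  have h6 : (0 : ℝ) < (N : ℝ) ^ 2 * Ω.card := by positivity
  have h7 : ((N : ℝ) ^ 2 * Ω.card) * (((J : ℝ) - J₀) * (c₄ / (800 * R)) * P.card) ≤
      ((N : ℝ) ^ 2 * Ω.card) * V := by linarith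
  exact le_of_mul_le_mul_left h7 h6

end Pool.Agent.Lib.P51n
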