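import Pool.Agent.Lib.P51n.Defs

/-!
# P51n.Target  (about 0.4 h)

Covering radius.  The rescaled vectors `v_i(j) 2^{-s_j}` form a basis of `ℝ^d`; write
`p = ∑ t_i v̂_i`, `k = ∑ round(t_i) v_i`; then `|k̂_j - p_j| ≤ ∑ |t_i - round t_i| R ≤ dR/2`.
-/

set_option autoImplicit false

noncomputable section

namespace Pool.Agent.Lib.P51n

variable {d : ℕ}

theorem exists_near_target {R : ℝ} {s : Fin d → ℝ} {Γ : AddSubgroup (Fin d → ℤ)}
    (h : Spn R s Γ) (p : Fin d → ℝ) :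
    ∃ k ∈ Γ, ∀ j, |(k j : ℝ) * (2 : ℝ) ^ (-s j) - p j| ≤ d * R := by
  obtain ⟨v, hv, hli, hb⟩ := h
  have hspan : Submodule.span ℝ (Set.range (fun i j => (v i j : ℝ))) = ⊤ :=
    hli.span_eq_top_of_card_eq_finrank' (by simp)
  have hP : (fun j => p j * (2 : ℝ) ^ (s j)) ∈
      Submodule.span ℝ (Set.range (fun i j => (v i j : ℝ))) := by
    rw [hspan]
    exact Submodule.mem_top
  obtain ⟨t, ht⟩ := (Submodule.mem_span_range_iff_exists_fun ℝ).1 hP
  refine ⟨∑ i, round (t i) • v i, Γ.sum_mem fun i _ => Γ.zsmul_mem (hv i) _, fun j => ?_⟩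
  have hpj : p j * (2 : ℝ) ^ (s j) = ∑ i, t i * (v i j : ℝ) := by
    have h1 := congrFun ht j
    rw [Finset.sum_apply] at h1
    exact h1.symm
  have hkj : (((∑ i, round (t i) • v i) j : ℤ) : ℝ) = ∑ i, (round (t i) : ℝ) * (v i j : ℝ) := by
    rw [Finset.sum_apply]
    push_cast
    exact Finset.sum_congr rfl fun i _ => by simp
  have h2 : (0 : ℝ) < (2 : ℝ) ^ (s j) := Real.rpow_pos_of_pos two_pos _
  have h3 : |(((∑ i, round (t i) • v i) j : ℤ) : ℝ) - p j * (2 : ℝ) ^ (s j)| ≤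
      d * (R * (2 : ℝ) ^ (s j)) := by
    rw [hkj, hpj, ← Finset.sum_sub_distrib]
    calc |∑ i, ((round (t i) : ℝ) * (v i j : ℝ) - t i * (v i j : ℝ))| ≤
          ∑ i, |(round (t i) : ℝ) * (v i j : ℝ) - t i * (v i j : ℝ)| :=
          Finset.abs_sum_le_sum_abs _ _
      _ ≤ ∑ _i : Fin d, R * (2 : ℝ) ^ (s j) := by
          refine Finset.sum_le_sum fun i _ => ?_
          rw [← sub_mul, abs_mul, abs_sub_comm]
          have h4 : |t i - (round (t i) : ℝ)| ≤ 1 :=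
            (abs_sub_round (t i)).trans (by norm_num)
          calc |t i - (round (t i) : ℝ)| * |(v i j : ℝ)| ≤ 1 * |(v i j : ℝ)| :=
                mul_le_mul_of_nonneg_right h4 (abs_nonneg _)
            _ = |(v i j : ℝ)| := one_mul _
            _ ≤ R * (2 : ℝ) ^ (s j) := hb i j
      _ = d * (R * (2 : ℝ) ^ (s j)) := by
          rw [Finset.sum_const, Finset.card_univ, Fintype.card_fin, nsmul_eq_mul]
  have h5 : (((∑ i, round (t i) • v i) j : ℤ) : ℝ) * (2 : ℝ) ^ (-s j) - p j =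
      ((((∑ i, round (t i) • v i) j : ℤ) : ℝ) - p j * (2 : ℝ) ^ (s j)) * (2 : ℝ) ^ (-s j) := by
    rw [sub_mul, mul_assoc (p j), ← Real.rpow_add two_pos, add_neg_cancel, Real.rpow_zero,
      mul_one]
  have h6 : (0 : ℝ) < (2 : ℝ) ^ (-s j) := Real.rpow_pos_of_pos two_pos _
  rw [h5, abs_mul, abs_of_pos h6]
  calc |(((∑ i, round (t i) • v i) j : ℤ) : ℝ) - p j * (2 : ℝ) ^ (s j)| * (2 : ℝ) ^ (-s j) ≤
        d * (R * (2 : ℝ) ^ (s j)) * (2 : ℝ) ^ (-s j) := mul_le_mul_of_nonneg_right h3 h6.le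
    _ = d * R * ((2 : ℝ) ^ (s j) * (2 : ℝ) ^ (-s j)) := by ring
    _ = d * R := by
        rw [← Real.rpow_add two_pos, add_neg_cancel, Real.rpow_zero, mul_one]

end Pool.Agent.Lib.P51n
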