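import Mathlib

/-!
# P51n.XBump  (about 0.7 h)

`bump j` is a tent supported in `[2^{-j-1}, 2^{-j}]`, Lipschitz with constant `2^(j+2)`, with values
in `[0,1]`, at least `1/2` on the interval `|y - (3/4)2^{-j}| ≤ 2^{-j-3}` of length `2^{-j-2}`.

`bump_sum`: the arithmetic progression `w₁ + iδw₃`, `i = 0, …, I-1`, starts below `0` and its last
term is `≥ -3R/2 + (2/δ - 1)δ·2R ≥ 1` and so it passes the interval; the step `δw₃ ≤ 4Rδ ≤ 2^{-j}/16`;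
the number of `i` with the term in the interval is at least `2^{-j-2}/(4Rδ) - 1 ≥ 2^{-j}/(32Rδ)`
(as `2^{-j-2}/(4Rδ) ≥ 4`); each contributes `≥ 1/2`, and `I ≤ 2/δ + 1 ≤ 3/δ`.
-/

set_option autoImplicit false

noncomputable section

namespace Pool.Agent.Lib.P51n

/-- tent function at the scale `2^{-j}` -/
def bump (j : ℕ) (y : ℝ) : ℝ := max 0 (1 - |y - (3 / 4) * (1 / 2 : ℝ) ^ j| * 2 ^ (j + 2))

theorem bump_nonneg (j : ℕ) (y : ℝ) : 0 ≤ bump j y := le_max_left _ _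

private theorem xb_eps (j : ℕ) : (2 : ℝ) ^ (j + 2) * (1 / 2 : ℝ) ^ j = 4 := by
  rw [pow_add, mul_right_comm, ← mul_pow]
  norm_num

theorem bump_le_one (j : ℕ) (y : ℝ) : bump j y ≤ 1 := by
  unfold bump
  refine max_le zero_le_one ?_
  have : 0 ≤ |y - (3 / 4) * (1 / 2 : ℝ) ^ j| * 2 ^ (j + 2) := by positivity
  linarith

theorem bump_pos {j : ℕ} {y : ℝ} (h : 0 < bump j y) :
    (1 / 2) * (1 / 2 : ℝ) ^ j ≤ y ∧ y ≤ (1 / 2 : ℝ) ^ j := by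
  unfold bump at h
  rcases lt_max_iff.1 h with h | h
  · exact absurd h (lt_irrefl _)
  · have he := xb_eps j
    have h2 : (0 : ℝ) < 2 ^ (j + 2) := by positivity
    have h3 : |y - (3 / 4) * (1 / 2 : ℝ) ^ j| * 2 ^ (j + 2) <
        (1 / 4 * (1 / 2 : ℝ) ^ j) * 2 ^ (j + 2) := by
      have : (1 / 4 * (1 / 2 : ℝ) ^ j) * 2 ^ (j + 2) = 1 := by
        calc (1 / 4 * (1 / 2 : ℝ) ^ j) * 2 ^ (j + 2) = 1 / 4 * (2 ^ (j + 2) * (1 / 2 : ℝ) ^ j) := by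
              ring
          _ = 1 := by rw [he]; norm_num
      rw [this]
      linarith
    have h4 := lt_of_mul_lt_mul_right h3 h2.le
    rw [abs_lt] at h4
    constructor
    · linarith [h4.1]
    · linarith [h4.2]

theorem bump_lip (j : ℕ) (y y' : ℝ) : |bump j y - bump j y'| ≤ 2 ^ (j + 2) * |y - y'| := by
  unfold bump
  have h1 := abs_max_sub_max_le_abs (1 - |y - (3 / 4) * (1 / 2 : ℝ) ^ j| * 2 ^ (j + 2))
    (1 - |y' - (3 / 4) * (1 / 2 : ℝ) ^ j| * 2 ^ (j + 2)) 0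
  rw [max_comm 0, max_comm 0]
  refine h1.trans ?_
  have h2 : (1 - |y - (3 / 4) * (1 / 2 : ℝ) ^ j| * 2 ^ (j + 2)) -
      (1 - |y' - (3 / 4) * (1 / 2 : ℝ) ^ j| * 2 ^ (j + 2)) =
      2 ^ (j + 2) * (|y' - (3 / 4) * (1 / 2 : ℝ) ^ j| - |y - (3 / 4) * (1 / 2 : ℝ) ^ j|) := by
    ring
  rw [h2, abs_mul, abs_of_pos (show (0 : ℝ) < 2 ^ (j + 2) by positivity)]
  refine mul_le_mul_of_nonneg_left ?_ (by positivity)
  refine (abs_abs_sub_abs_le _ _).trans ?_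
  rw [sub_sub_sub_cancel_right, abs_sub_comm]

private theorem xb_half {j : ℕ} {y : ℝ} (h1 : 5 / 8 * (1 / 2 : ℝ) ^ j ≤ y)
    (h2 : y ≤ 7 / 8 * (1 / 2 : ℝ) ^ j) : 1 / 2 ≤ bump j y := by
  unfold bump
  refine le_max_of_le_right ?_
  have he := xb_eps j
  have h3 : |y - (3 / 4) * (1 / 2 : ℝ) ^ j| ≤ 1 / 8 * (1 / 2 : ℝ) ^ j := by
    rw [abs_le]
    constructor
    · linarith
    · linarith
  have h4 : |y - (3 / 4) * (1 / 2 : ℝ) ^ j| * 2 ^ (j + 2) ≤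
      (1 / 8 * (1 / 2 : ℝ) ^ j) * 2 ^ (j + 2) := mul_le_mul_of_nonneg_right h3 (by positivity)
  have h5 : (1 / 8 * (1 / 2 : ℝ) ^ j) * 2 ^ (j + 2) = 1 / 2 := by
    calc (1 / 8 * (1 / 2 : ℝ) ^ j) * 2 ^ (j + 2) = 1 / 8 * (2 ^ (j + 2) * (1 / 2 : ℝ) ^ j) := by
          ring
      _ = 1 / 2 := by rw [he]; norm_num
  linarith

theorem bump_sum {R : ℝ} (hR : 1 ≤ R) {j : ℕ} {δ : ℝ} (hδ : 0 < δ)
    (hδ' : δ ≤ (1 / 2 : ℝ) ^ j / (64 * R)) {w₁ w₃ : ℝ} (h1 : -(3 / 2) * R ≤ w₁)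
    (h1' : w₁ ≤ -(1 / 2) * R) (h3 : 2 * R ≤ w₃) (h3' : w₃ ≤ 4 * R) {I : ℕ} (hI : 2 / δ ≤ I)
    (hI' : (I : ℝ) ≤ 2 / δ + 1) :
    (1 / 2 : ℝ) ^ j / (200 * R) * I ≤ ∑ i ∈ Finset.range I, bump j (w₁ + i * δ * w₃) := by
  obtain ⟨e, he⟩ : ∃ e : ℝ, e = (1 / 2 : ℝ) ^ j := ⟨_, rfl⟩
  have he0 : 0 < e := by rw [he]; positivity
  have he1 : e ≤ 1 := by rw [he]; exact pow_le_one₀ (by norm_num) (by norm_num)
  rw [← he] at hδ' ⊢
  have hR0 : 0 < R := by linarith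
  have hw3 : 0 < w₃ := by linarith
  have hdw : 0 < δ * w₃ := mul_pos hδ hw3
  obtain ⟨a, ha⟩ : ∃ a : ℝ, a = (5 / 8 * e - w₁) / (δ * w₃) := ⟨_, rfl⟩
  obtain ⟨b, hb⟩ : ∃ b : ℝ, b = (7 / 8 * e - w₁) / (δ * w₃) := ⟨_, rfl⟩
  have ha0 : 0 ≤ a := by
    rw [ha]
    apply div_nonneg _ hdw.le
    nlinarith
  have hab : b - a = (1 / 4 * e) / (δ * w₃) := by
    rw [ha, hb, ← sub_div]
    congr 1
    ring
  have h64 : 64 * R * δ ≤ e := by
    rw [le_div_iff₀ (by positivity)] at hδ'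
    linarith
  have hab2 : e / (16 * R * δ) ≤ b - a := by
    rw [hab, div_le_div_iff₀ (by positivity) hdw]
    have : w₃ * (e * δ) ≤ 4 * R * (e * δ) := mul_le_mul_of_nonneg_right h3' (by positivity)
    linarith
  have h4 : 4 ≤ e / (16 * R * δ) := by
    rw [le_div_iff₀ (by positivity)]
    linarith
  have hb0 : 0 ≤ b := by linarith
  have hbI : b < I := by
    refine lt_of_lt_of_le ?_ hI
    rw [hb, div_lt_div_iff₀ hdw hδ]
    have h5 : 7 / 8 * e - w₁ ≤ 19 / 8 * R := by nlinarith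
    have h6 : (7 / 8 * e - w₁) * δ ≤ 19 / 8 * R * δ := mul_le_mul_of_nonneg_right h5 hδ.le
    have h7 : 2 * R * δ ≤ w₃ * δ := mul_le_mul_of_nonneg_right h3 hδ.le
    have h8 : 0 < R * δ := mul_pos hR0 hδ
    linarith
  -- the indices
  have hsub : Finset.Icc ⌈a⌉₊ ⌊b⌋₊ ⊆ Finset.range I := by
    intro i hi
    rw [Finset.mem_Icc] at hi
    rw [Finset.mem_range]
    have h5 : (i : ℝ) ≤ b := (Nat.le_floor_iff hb0).1 hi.2
    exact_mod_cast h5.trans_lt hbI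
  have hcard : b - a - 1 ≤ ((Finset.Icc ⌈a⌉₊ ⌊b⌋₊).card : ℝ) := by
    have h5 : (⌈a⌉₊ : ℝ) < a + 1 := Nat.ceil_lt_add_one ha0
    have h6 : b < (⌊b⌋₊ : ℝ) + 1 := Nat.lt_floor_add_one b
    have h7 : (⌈a⌉₊ : ℝ) ≤ ⌊b⌋₊ + 1 := by linarith
    have h8 : ⌈a⌉₊ ≤ ⌊b⌋₊ + 1 := by exact_mod_cast h7
    rw [Nat.card_Icc, Nat.cast_sub h8]
    push_cast
    linarith
  calc e / (200 * R) * I ≤ e / (200 * R) * (3 / δ) := by
        apply mul_le_mul_of_nonneg_left _ (by positivity)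
        refine hI'.trans ?_
        have h5 : 1 ≤ 1 / δ := by
          rw [le_div_iff₀ hδ]
          nlinarith
        have h6 : 3 / δ = 2 / δ + 1 / δ := by ring
        linarith
    _ ≤ (b - a - 1) * (1 / 2) := by
        have h5 : e / (200 * R) * (3 / δ) = 6 / 25 * (e / (16 * R * δ)) := by
          field_simp
          norm_num
        rw [h5]
        linarith
    _ ≤ ((Finset.Icc ⌈a⌉₊ ⌊b⌋₊).card : ℝ) * (1 / 2) :=
        mul_le_mul_of_nonneg_right hcard (by norm_num)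
    _ = ∑ i ∈ Finset.Icc ⌈a⌉₊ ⌊b⌋₊, (1 / 2 : ℝ) := by
        rw [Finset.sum_const, nsmul_eq_mul]
    _ ≤ ∑ i ∈ Finset.Icc ⌈a⌉₊ ⌊b⌋₊, bump j (w₁ + i * δ * w₃) := by
        refine Finset.sum_le_sum fun i hi => ?_
        rw [Finset.mem_Icc] at hi
        have h5 : (i : ℝ) ≤ b := (Nat.le_floor_iff hb0).1 hi.2
        have h6 : a ≤ (i : ℝ) := Nat.ceil_le.1 hi.1
        rw [ha, div_le_iff₀ hdw] at h6
        rw [hb, le_div_iff₀ hdw] at h5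
        apply xb_half
        · rw [← he]
          linarith
        · rw [← he]
          linarith
    _ ≤ ∑ i ∈ Finset.range I, bump j (w₁ + i * δ * w₃) :=
        Finset.sum_le_sum_of_subset_of_nonneg hsub fun _ _ _ => bump_nonneg _ _

end Pool.Agent.Lib.P51n
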