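import Pool.Agent.Lib.P51n.XMat
import Pool.Agent.Lib.P51n.XBump
import Pool.Agent.Lib.P51n.Target
import Pool.Agent.Lib.P51n.EvCount

/-!
# P51n.XExc  (about 2.5 h)

Excursions.  Let `X` be a cell (common `Y`, `dig n a`, `dig (m+L) b`) with the near invariance of
`U = Uf n m a b z x₀` (`x₀ ∈ X`) under `t`.  `s' = spos …`, `θ = h₁₁/h₃₃ ∈ [1/2, 2]` for `h = h x₀`,
`V(x) = θ 2^{-k₁} (U x - U x₀)`, `δ = θ 2^{-k₁} t ∈ (0, 2·2^{-k₁}]`, `I = ⌈2/δ⌉ ≤ 2^{k₁+2k₀+3}`.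
`k₁` is chosen so that `2^{k₁} ≥ 2^{J+12} d R`.
For `V ∈ ℝ` let `Ψ_j(V) = sup {bump j (w_{i₁} + V w_{i₃})} ∪ {0}` over `k ∈ x₀` whose rescaled vector
`w_l = k_l 2^{-s'_l}` has `w_l ∈ [2R, 4R]` for all `l ≠ i₁`: `Ψ_j` has values in `[0,1]` and is
`2^{j+2}·4R`-Lipschitz, so `u ↦ Ψ_j(θ2^{-k₁}(u - U x₀) + iδ)` is `1`-Lipschitz, and `Inv` gives
`|∑_x Ψ_j(V(x) + (i+1)δ) - ∑_x Ψ_j(V(x)+iδ)| ≤ τ|X|`, hence
`∑_x Ψ_j(V x) ≥ (1/I) ∑_{i<I} ∑_x Ψ_j(V x + iδ) - Iτ|X|`.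
* If `Spn R' s' x`: by `exists_near_target` with `p = (-R at i₁, 3R elsewhere)`, `dR' ≤ R/4`, there is
  `k' ∈ x` with rescaled `w'`, `|w' - p| ≤ R/4`; `k ∈ x₀` with `Q k = k'`, `w = resc s' (Q⁻¹) w'`; by
  `bwd` (with `P = resc s' (h x₀ * (h x)⁻¹)`, `hm_cell`), `w_{i₁} + V(x)w_{i₃} ∈ [-3R/2, -R/2]`,
  `w_l ∈ [2R,4R]`, so `∑_{i<I} Ψ_j(V x + iδ) ≥ ∑ bump j (…) ≥ 2^{-j} I/(200R)` (`bump_sum`).
* If `Ψ_j(V x) > 0`: some `k ∈ x₀` has `w_l ∈ [2R,4R]`, `w_{i₁} + V w_{i₃} ∈ [2^{-j-1}, 2^{-j}]`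
  (`bump_pos`); by `fwd`, `k' = Q k ∈ x` shows `Ev i₁ R j s' x`.  As `Ψ_j ≤ 1`,
  `∑_x Ψ_j(V x) ≤ #{x : Ev}`.
-/

set_option autoImplicit false

noncomputable section

namespace Pool.Agent.Lib.P51n

namespace XExcAux

variable {d : ℕ}

theorem resc_mulVec (s : Fin d → ℝ) (Q : Matrix (Fin d) (Fin d) ℝ) (u : Fin d → ℝ) (i : Fin d) :
    (resc s Q).mulVec (fun j => u j * (2 : ℝ) ^ (-s j)) i = Q.mulVec u i * (2 : ℝ) ^ (-s i) := by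
  simp only [Matrix.mulVec, dotProduct, resc, Matrix.of_apply, Finset.sum_mul]
  refine Finset.sum_congr rfl fun j _ => ?_
  have h : (2 : ℝ) ^ (s j - s i) * (2 : ℝ) ^ (-s j) = (2 : ℝ) ^ (-s i) := by
    rw [← Real.rpow_add (by norm_num)]; congr 1; ring
  calc Q i j * (2 : ℝ) ^ (s j - s i) * (u j * (2 : ℝ) ^ (-s j))
      = Q i j * u j * ((2 : ℝ) ^ (s j - s i) * (2 : ℝ) ^ (-s j)) := by ring
    _ = _ := by rw [h]

open Classical in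
/-- the contribution of one vector -/
def gk (i₁ i₃ : Fin d) (R : ℝ) (j : ℕ) (s : Fin d → ℝ) (x₀ : AddSubgroup (Fin d → ℤ))
    (k : Fin d → ℤ) (V : ℝ) : ℝ :=
  if k ∈ x₀ ∧ ∀ l, l ≠ i₁ → 2 * R ≤ (k l : ℝ) * (2 : ℝ) ^ (-s l) ∧
    (k l : ℝ) * (2 : ℝ) ^ (-s l) ≤ 4 * R then
    bump j ((k i₁ : ℝ) * (2 : ℝ) ^ (-s i₁) + V * ((k i₃ : ℝ) * (2 : ℝ) ^ (-s i₃))) else 0

/-- the test function -/
def Psi (i₁ i₃ : Fin d) (R : ℝ) (j : ℕ) (s : Fin d → ℝ) (x₀ : AddSubgroup (Fin d → ℤ)) (V : ℝ) :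
    ℝ := ⨆ k : Fin d → ℤ, gk i₁ i₃ R j s x₀ k V

variable {i₁ i₃ : Fin d} {R : ℝ} {j : ℕ} {s : Fin d → ℝ} {x₀ : AddSubgroup (Fin d → ℤ)}

theorem gk_nonneg (k : Fin d → ℤ) (V : ℝ) : 0 ≤ gk i₁ i₃ R j s x₀ k V := by
  unfold gk; split_ifs
  · exact bump_nonneg _ _
  · exact le_rfl

theorem gk_le_one (k : Fin d → ℤ) (V : ℝ) : gk i₁ i₃ R j s x₀ k V ≤ 1 := by
  unfold gk; split_ifs
  · exact bump_le_one _ _
  · exact zero_le_one

theorem gk_bdd (V : ℝ) : BddAbove (Set.range fun k => gk i₁ i₃ R j s x₀ k V) :=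
  ⟨1, by rintro _ ⟨k, rfl⟩; exact gk_le_one k V⟩

theorem gk_lip (h13 : i₁ ≠ i₃) (hR : 0 ≤ R) (k : Fin d → ℤ) (V V' : ℝ) :
    |gk i₁ i₃ R j s x₀ k V - gk i₁ i₃ R j s x₀ k V'| ≤ 2 ^ (j + 2) * (4 * R) * |V - V'| := by
  unfold gk
  split_ifs with h
  · refine (bump_lip _ _ _).trans ?_
    have h3 := h.2 i₃ (Ne.symm h13)
    have e : (k i₁ : ℝ) * (2 : ℝ) ^ (-s i₁) + V * ((k i₃ : ℝ) * (2 : ℝ) ^ (-s i₃)) -
        ((k i₁ : ℝ) * (2 : ℝ) ^ (-s i₁) + V' * ((k i₃ : ℝ) * (2 : ℝ) ^ (-s i₃))) =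
        (V - V') * ((k i₃ : ℝ) * (2 : ℝ) ^ (-s i₃)) := by ring
    rw [e, abs_mul, abs_of_nonneg (by linarith : (0 : ℝ) ≤ (k i₃ : ℝ) * (2 : ℝ) ^ (-s i₃)),
      mul_assoc]
    refine mul_le_mul_of_nonneg_left ?_ (by positivity)
    rw [mul_comm (4 * R)]
    exact mul_le_mul_of_nonneg_left h3.2 (abs_nonneg _)
  · simp only [sub_self, abs_zero]; positivity

theorem Psi_nonneg (V : ℝ) : 0 ≤ Psi i₁ i₃ R j s x₀ V :=
  (gk_nonneg 0 V).trans (le_ciSup (gk_bdd V) 0)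

theorem Psi_le_one (V : ℝ) : Psi i₁ i₃ R j s x₀ V ≤ 1 := ciSup_le fun k => gk_le_one k V

theorem Psi_lip (h13 : i₁ ≠ i₃) (hR : 0 ≤ R) (V V' : ℝ) :
    |Psi i₁ i₃ R j s x₀ V - Psi i₁ i₃ R j s x₀ V'| ≤ 2 ^ (j + 2) * (4 * R) * |V - V'| := by
  have key : ∀ V V' : ℝ, Psi i₁ i₃ R j s x₀ V ≤ Psi i₁ i₃ R j s x₀ V' +
      2 ^ (j + 2) * (4 * R) * |V - V'| := by
    intro V V'
    refine ciSup_le fun k => ?_
    have h1 := abs_le.1 (gk_lip (s := s) (x₀ := x₀) (j := j) h13 hR k V V')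
    have h2 := le_ciSup (gk_bdd (i₁ := i₁) (i₃ := i₃) (R := R) (j := j) (s := s) (x₀ := x₀) V') k
    have h3 : gk i₁ i₃ R j s x₀ k V' ≤ Psi i₁ i₃ R j s x₀ V' := h2
    linarith [h1.2]
  have h1 := key V V'
  have h2 := key V' V
  rw [abs_sub_comm V' V] at h2
  rw [abs_le]; constructor <;> linarith

theorem le_Psi (k : Fin d → ℤ) (hk : k ∈ x₀) (V : ℝ)
    (h : ∀ l, l ≠ i₁ → 2 * R ≤ (k l : ℝ) * (2 : ℝ) ^ (-s l) ∧
    (k l : ℝ) * (2 : ℝ) ^ (-s l) ≤ 4 * R) :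
    bump j ((k i₁ : ℝ) * (2 : ℝ) ^ (-s i₁) + V * ((k i₃ : ℝ) * (2 : ℝ) ^ (-s i₃))) ≤
      Psi i₁ i₃ R j s x₀ V := by
  have h2 := le_ciSup (gk_bdd (i₁ := i₁) (i₃ := i₃) (R := R) (j := j) (s := s) (x₀ := x₀) V) k
  have h3 : gk i₁ i₃ R j s x₀ k V ≤ Psi i₁ i₃ R j s x₀ V := h2
  rwa [gk, if_pos ⟨hk, h⟩] at h3

theorem exists_of_Psi_pos {V : ℝ} (hV : 0 < Psi i₁ i₃ R j s x₀ V) : ∃ k ∈ x₀,
    (∀ l, l ≠ i₁ → 2 * R ≤ (k l : ℝ) * (2 : ℝ) ^ (-s l) ∧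
      (k l : ℝ) * (2 : ℝ) ^ (-s l) ≤ 4 * R) ∧
    (1 / 2) * (1 / 2 : ℝ) ^ j ≤
      (k i₁ : ℝ) * (2 : ℝ) ^ (-s i₁) + V * ((k i₃ : ℝ) * (2 : ℝ) ^ (-s i₃)) ∧
    (k i₁ : ℝ) * (2 : ℝ) ^ (-s i₁) + V * ((k i₃ : ℝ) * (2 : ℝ) ^ (-s i₃)) ≤ (1 / 2 : ℝ) ^ j := by
  obtain ⟨k, hk⟩ := exists_lt_of_lt_ciSup hV
  unfold gk at hk
  split_ifs at hk with h
  · exact ⟨k, h.1, h.2, bump_pos hk⟩
  · exact absurd hk (lt_irrefl _)

/-- near invariance, iterated -/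
theorem iter_inv {α : Type*} {k₀ : ℕ} {τ : ℝ} {X : Finset α} {U : α → ℝ} (hτ : 0 ≤ τ)
    (h : Inv k₀ τ X U) {Ψ : ℝ → ℝ} (h0 : ∀ v, 0 ≤ Ψ v) (h1 : ∀ v, Ψ v ≤ 1) {K : ℝ}
    (hK : ∀ v v', |Ψ v - Ψ v'| ≤ K * |v - v'|) {θ : ℝ} (hθ : 0 < θ) (hKθ : K * θ ≤ 1) (u₀ : ℝ) :
    ∃ t : ℝ, (1 / 4 : ℝ) ^ k₀ ≤ t ∧ t ≤ 1 ∧ ∀ I : ℕ,
      ∑ i ∈ Finset.range I, ∑ x ∈ X, Ψ (θ * (U x - u₀) + i * (θ * t)) ≤
        I * (∑ x ∈ X, Ψ (θ * (U x - u₀)) + I * (τ * X.card)) := by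
  obtain ⟨t, ht, ht1, hinv⟩ := h
  refine ⟨t, ht, ht1, fun I => ?_⟩
  set A : ℕ → ℝ := fun i => ∑ x ∈ X, Ψ (θ * (U x - u₀) + i * (θ * t)) with hA
  have hstep : ∀ i : ℕ, A (i + 1) ≤ A i + τ * X.card := by
    intro i
    have h2 := hinv (fun u => Ψ (θ * (u - u₀) + i * (θ * t))) (fun u => ⟨h0 _, h1 _⟩) ?_
    · have e : ∑ x ∈ X, (Ψ (θ * (U x + t - u₀) + i * (θ * t)) -
          Ψ (θ * (U x - u₀) + i * (θ * t))) = A (i + 1) - A i := by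
        rw [Finset.sum_sub_distrib, hA]
        congr 1
        refine Finset.sum_congr rfl fun x _ => ?_
        congr 1; push_cast; ring
      rw [e] at h2
      linarith [(abs_le.1 h2).2]
    · refine LipschitzWith.of_dist_le_mul fun u v => ?_
      rw [Real.dist_eq, Real.dist_eq, NNReal.coe_one, one_mul]
      refine (hK _ _).trans ?_
      have e : θ * (u - u₀) + i * (θ * t) - (θ * (v - u₀) + i * (θ * t)) = θ * (u - v) := by ring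
      rw [e, abs_mul, abs_of_pos hθ, ← mul_assoc]
      exact mul_le_of_le_one_left (abs_nonneg _) hKθ
  have hA0 : A 0 = ∑ x ∈ X, Ψ (θ * (U x - u₀)) := by
    rw [hA]; refine Finset.sum_congr rfl fun x _ => ?_
    congr 1; push_cast; ring
  have hind : ∀ i : ℕ, A i ≤ A 0 + i * (τ * X.card) := by
    intro i
    induction i with
    | zero => simp
    | succ i ih =>
      have := hstep i
      push_cast
      linarith
  have h3 : 0 ≤ τ * X.card := by positivity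
  calc ∑ i ∈ Finset.range I, A i ≤ ∑ i ∈ Finset.range I, (A 0 + I * (τ * X.card)) := by
        refine Finset.sum_le_sum fun i hi => (hind i).trans ?_
        have : (i : ℝ) ≤ I := by exact_mod_cast (Finset.mem_range.1 hi).le
        have := mul_le_mul_of_nonneg_right this h3
        linarith
    _ = I * (A 0 + I * (τ * X.card)) := by
        rw [Finset.sum_const, Finset.card_range, nsmul_eq_mul]
    _ = _ := by rw [hA0]

end XExcAux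


open XExcAux

open Classical in
theorem exc (d : ℕ) (hd : 3 ≤ d) (R R' : ℝ) (hR' : 0 ≤ R') (hR : 1 ≤ R) (hRR : 4 * d * R' ≤ R)
    (J k₀ : ℕ) : ∃ k₁ N₀ : ℕ, ∀ N : ℕ, N₀ ≤ N → ∀ (i₁ i₂ i₃ : Fin d),
    i₁ ≠ i₂ → i₂ ≠ i₃ → i₁ ≠ i₃ → ∀ (T : ℕ) (C : ℝ) (q : ℕ), 1 ≤ T → 1 ≤ C → Small d T C q →
    8 * q ≤ N → ∀ (G Ω : Finset (AddSubgroup (Fin d → ℤ))), Fam T C G → Ω ⊆ G →
    ∀ σ : Fin d → ℝ, Pos T σ → ∀ Y h, Chart q G Ω (cN i₁ i₂ i₃ σ N 0 0 0) Y h →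
    ∀ a b z : AddSubgroup (Fin d → ℤ) → ℝ, (∀ x, a x = coA i₁ i₂ σ (q - 3) (h x)) →
    (∀ x, b x = coB i₂ i₃ σ (q - 3) (h x)) → (∀ x, z x = coZ i₁ i₃ σ (q - 3) (h x)) →
    ∀ (n m L : ℕ), k₁ ≤ n → n + L ≤ N → m + L ≤ N → k₁ ≤ L → ∀ (τ : ℝ), 0 ≤ τ →
    ∀ X : Finset (AddSubgroup (Fin d → ℤ)), X ⊆ Ω → ∀ x₀ ∈ X,
    (∀ x ∈ X, Y x = Y x₀ ∧ dig n a x = dig n a x₀ ∧ dig (m + L) b x = dig (m + L) b x₀) →
    Inv k₀ τ X (Uf n m a b z x₀) → ∀ j : ℕ, j ≤ J →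
    (1 / 2 : ℝ) ^ j / (200 * R) *
        ((X.filter fun x => Spn R' (spos i₁ i₂ i₃ σ n m k₁ q) x).card : ℝ) ≤
      ((X.filter fun x => Ev i₁ R j (spos i₁ i₂ i₃ σ n m k₁ q) x).card : ℝ) +
        2 ^ (k₁ + 2 * k₀ + 3) * τ * X.card := by
  have hd1 : (1 : ℝ) ≤ d := by exact_mod_cast (by omega : 1 ≤ d)
  have hR0 : 0 < R := by linarith
  obtain ⟨k₁, hk₁⟩ : ∃ k₁ : ℕ, (2 : ℝ) ^ (J + 12) * d * R ≤ 2 ^ k₁ := by
    obtain ⟨k, hk⟩ := pow_unbounded_of_one_lt ((2 : ℝ) ^ (J + 12) * d * R) (one_lt_two)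
    exact ⟨k, hk.le⟩
  obtain ⟨N₀, hhm⟩ := hm_cell d hd k₁
  refine ⟨k₁, N₀, ?_⟩
  intro N hN i₁ i₂ i₃ h12 h23 h13 T C q hT hC hq hqN G Ω hG hΩ σ hσ Y h hch a b z ha hb hz n m L
    hn hnL hmL hL τ hτ X hX x₀ hx₀ hcell hinv j hj
  -- smallness
  have hT1 : (1 : ℝ) ≤ (T : ℝ) ^ (d - 1) := one_le_pow₀ (by exact_mod_cast hT)
  have hsmall : (2 : ℝ) ^ 12 * d ^ 2 ≤ 2 ^ q := by
    refine le_trans ?_ hq
    have h5 : (1 : ℝ) ≤ (8 * d * C * (T : ℝ) ^ (d - 1)) ^ (d + 1) := by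
      apply one_le_pow₀
      have h1 : (1 : ℝ) ≤ 8 * d := by linarith
      exact one_le_mul_of_one_le_of_one_le (one_le_mul_of_one_le_of_one_le h1 hC) hT1
    exact le_mul_of_one_le_right (by positivity) h5
  have hq3 : 3 ≤ q := by
    by_contra hcon
    have h1 : (2 : ℝ) ^ q ≤ 2 ^ 3 := pow_le_pow_right₀ (by norm_num) (by omega)
    have h3 : (1 : ℝ) ≤ d ^ 2 := one_le_pow₀ hd1
    norm_num at h1 hsmall
    linarith
  have hqs : 256 * d ^ 2 * (1 / 2 : ℝ) ^ q ≤ 1 := by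
    have h1 : (1 / 2 : ℝ) ^ q * 2 ^ q = 1 := by rw [← mul_pow]; norm_num
    have h2 := mul_le_mul_of_nonneg_left hsmall (by positivity : (0 : ℝ) ≤ (1 / 2) ^ q)
    rw [h1] at h2
    have h3 : 0 ≤ (1 / 2 : ℝ) ^ q * d ^ 2 := by positivity
    norm_num at h2
    linarith
  -- the constant `ε`
  obtain ⟨e, he⟩ : ∃ e : ℝ, e = (1 / 2 : ℝ) ^ k₁ := ⟨_, rfl⟩
  have he0 : 0 < e := by rw [he]; positivity
  have hek : e * 2 ^ k₁ = 1 := by rw [he, ← mul_pow]; norm_num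
  have heJ : e * ((2 : ℝ) ^ (J + 12) * d * R) ≤ 1 := by
    rw [← hek]; exact mul_le_mul_of_nonneg_left hk₁ he0.le
  have hJj : (2 : ℝ) ^ (j + 12) ≤ 2 ^ (J + 12) := pow_le_pow_right₀ (by norm_num) (by omega)
  have hej : e * ((2 : ℝ) ^ (j + 12) * d * R) ≤ 1 := by
    refine le_trans ?_ heJ
    gcongr
  have h2j : (2 : ℝ) ^ j * (1 / 2 : ℝ) ^ j = 1 := by rw [← mul_pow]; norm_num
  have hej' : 4096 * (e * d * R) ≤ (1 / 2 : ℝ) ^ j := by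
    have h1 := mul_le_mul_of_nonneg_right hej (by positivity : (0 : ℝ) ≤ (1 / 2) ^ j)
    rw [pow_add] at h1
    have h2 : e * ((2 : ℝ) ^ j * 2 ^ 12 * d * R) * (1 / 2) ^ j =
        4096 * (e * d * R) * (2 ^ j * (1 / 2 : ℝ) ^ j) := by norm_num; ring
    rw [h2, h2j] at h1
    linarith
  have hj1 : (1 / 2 : ℝ) ^ j ≤ 1 := pow_le_one₀ (by norm_num) (by norm_num)
  have hj0 : (0 : ℝ) < (1 / 2 : ℝ) ^ j := by positivity
  have hedR : e ≤ e * d * R := by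
    have : (1 : ℝ) ≤ d * R := one_le_mul_of_one_le_of_one_le hd1 hR
    calc e = e * 1 := (mul_one e).symm
      _ ≤ e * (d * R) := mul_le_mul_of_nonneg_left this he0.le
      _ = _ := by ring
  have hed : e * d ≤ e * d * R := le_mul_of_one_le_right (by positivity) hR
  have heR : e * R ≤ e * d * R := by
    have : e * R * 1 ≤ e * R * d := mul_le_mul_of_nonneg_left hd1 (by positivity)
    linarith
  -- notation
  set s : Fin d → ℝ := spos i₁ i₂ i₃ σ n m k₁ q with hs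
  set U : AddSubgroup (Fin d → ℤ) → ℝ := Uf n m a b z x₀ with hU
  set θ : ℝ := h x₀ i₁ i₁ / h x₀ i₃ i₃ with hθ
  have hκ4 : 4 * (1 / 2 : ℝ) ^ q ≤ 1 / 64 := by
    have : (1 : ℝ) ≤ d ^ 2 := one_le_pow₀ hd1
    have h3 : (1 / 2 : ℝ) ^ q ≤ (1 / 2 : ℝ) ^ q * d ^ 2 := le_mul_of_one_le_right (by positivity) this
    linarith
  have hdiag : ∀ x ∈ Ω, ∀ i, |h x i i - 1| ≤ 1 / 64 := by
    intro x hx i
    have h1 := hch.near x hx i i
    rw [Matrix.one_apply_eq] at h1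
    refine h1.trans (le_trans ?_ hκ4)
    have h2 : cN i₁ i₂ i₃ σ N 0 0 0 i i = 0 := by
      simp [cN, cs, ct]
    rw [h2]; simp
  have hθ1 : 1 / 2 ≤ θ ∧ θ ≤ 2 := by
    have h1 := abs_le.1 (hdiag x₀ (hX hx₀) i₁)
    have h3 := abs_le.1 (hdiag x₀ (hX hx₀) i₃)
    have h4 : 0 < h x₀ i₃ i₃ := by linarith
    rw [hθ, le_div_iff₀ h4, div_le_iff₀ h4]
    constructor <;> linarith
  have hθ0 : 0 < θ := by linarith
  -- the data of the cell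
  have hx₀Ω := hX hx₀
  have hmat : ∀ x ∈ X,
      (HM i₁ i₂ i₃ (16 * e) (θ * e * (U x - U x₀)) (resc s (h x * (h x₀)⁻¹)) ∧
        |resc s (h x * (h x₀)⁻¹) i₁ i₃ - resc s (h x * (h x₀)⁻¹) i₁ i₁ *
          (θ * e * (U x - U x₀))| ≤ 16 * e) ∧
      (HM i₁ i₂ i₃ (16 * e) (θ * e * (U x - U x₀)) (resc s (h x₀ * (h x)⁻¹)) ∧
        |resc s (h x₀ * (h x)⁻¹) i₁ i₃ + resc s (h x₀ * (h x)⁻¹) i₃ i₃ *
          (θ * e * (U x - U x₀))| ≤ 16 * e) := by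
    intro x hx
    have hxΩ := hX hx
    obtain ⟨-, hda, hdb⟩ := hcell x hx
    have hbar : ∀ y, dig n a y = dig n a x₀ → |a y - (dig n a x₀ : ℝ) / 2 ^ n| ≤ (1 / 2 : ℝ) ^ n := by
      intro y hy
      rw [← hy]
      have h1 : (dig n a y : ℝ) ≤ 2 ^ n * a y := Int.floor_le _
      have h2 : (2 : ℝ) ^ n * a y < dig n a y + 1 := Int.lt_floor_add_one _
      have h3 : (0 : ℝ) < 2 ^ n := by positivity
      have h4 : (1 / 2 : ℝ) ^ n = 1 / 2 ^ n := by rw [div_pow, one_pow]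
      rw [h4]
      have h5 : a y - (dig n a y : ℝ) / 2 ^ n = (2 ^ n * a y - dig n a y) / 2 ^ n := by
        field_simp
      rw [h5, abs_div, abs_of_pos h3]
      refine div_le_div_of_nonneg_right ?_ h3.le
      rw [abs_le]; constructor <;> linarith
    have hbb : |b x - b x₀| ≤ (1 / 2 : ℝ) ^ (m + L) := by
      have h1 : (dig (m + L) b x : ℝ) ≤ 2 ^ (m + L) * b x := Int.floor_le _
      have h2 : (2 : ℝ) ^ (m + L) * b x < dig (m + L) b x + 1 := Int.lt_floor_add_one _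
      have h1' : (dig (m + L) b x₀ : ℝ) ≤ 2 ^ (m + L) * b x₀ := Int.floor_le _
      have h2' : (2 : ℝ) ^ (m + L) * b x₀ < dig (m + L) b x₀ + 1 := Int.lt_floor_add_one _
      rw [hdb] at h1 h2
      have h3 : (0 : ℝ) < 2 ^ (m + L) := by positivity
      have h4 : (1 / 2 : ℝ) ^ (m + L) = 1 / 2 ^ (m + L) := by rw [div_pow, one_pow]
      rw [h4]
      have h5 : b x - b x₀ = (2 ^ (m + L) * b x - 2 ^ (m + L) * b x₀) / 2 ^ (m + L) := by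
        field_simp
      rw [h5, abs_div, abs_of_pos h3]
      refine div_le_div_of_nonneg_right ?_ h3.le
      rw [abs_le]; constructor <;> linarith
    have := hhm N hN i₁ i₂ i₃ h12 h23 h13 q hq3 hqN hqs σ (h x₀) (h x) (hch.near x₀ hx₀Ω)
      (hch.near x hxΩ) n m L hn hnL hmL hL (a x₀) (b x₀) (z x₀) (a x) (b x) (z x)
      ((dig n a x₀ : ℝ) / 2 ^ n) (ha _) (hb _) (hz _) (ha _) (hb _) (hz _) (hbar x₀ rfl)
      (hbar x hda) hbb (θ * e * (U x - U x₀)) (by rw [hθ, he, hU]; rfl)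
    rw [← he] at this
    exact this
  -- displacement
  have hunit : ∀ x ∈ Ω, IsUnit (h x).det := by
    intro x hx
    have hadm0 : ∀ i j, cs σ i j ≤ cN i₁ i₂ i₃ σ N 0 0 0 i j := by
      intro i j
      have h1 : 0 ≤ ct i₁ i₂ i₃ 0 0 0 i j := by
        unfold ct; split_ifs <;> norm_num
      simp only [cN, Pi.add_apply, Pi.smul_apply, smul_eq_mul]
      have := mul_nonneg (Nat.cast_nonneg (α := ℝ) N) h1
      linarith
    refine (hch.near x hx).isUnit (by positivity) ?_ hadm0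
    have h3 : (d : ℝ) ≤ d ^ 2 := by nlinarith
    have h4 : (1 / 2 : ℝ) ^ q * d ≤ (1 / 2 : ℝ) ^ q * d ^ 2 :=
      mul_le_mul_of_nonneg_left h3 (by positivity)
    linarith
  have hdisp : ∀ x ∈ X, ∀ y ∈ X, Disp (h x * (h y)⁻¹) y x := by
    intro x hx y hy
    have hYx := (hcell x hx).1
    have hYy := (hcell y hy).1
    have h1 : Disp (h x) (Y x) x := hch.disp x (hX hx)
    have h2 : Disp (h y) (Y y) y := hch.disp y (hX hy)
    rw [hYx] at h1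
    rw [hYy] at h2
    exact (h2.inv (hunit y (hX hy))).mul h1
  -- the test function
  set Ψ : ℝ → ℝ := Psi i₁ i₃ R j s x₀ with hΨ
  have hKθ : 2 ^ (j + 2) * (4 * R) * (θ * e) ≤ 1 := by
    have h1 : (2 : ℝ) ^ (j + 2) * (4 * R) * (θ * e) ≤ 2 ^ (j + 2) * (4 * R) * (2 * e) := by
      have := hθ1.2
      gcongr
    refine h1.trans (le_trans ?_ hej)
    have h2 : e * ((2 : ℝ) ^ (j + 12) * d * R) = 2 ^ (j + 2) * 1024 * R * e * d := by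
      rw [pow_add, pow_add]; norm_num; ring
    rw [h2]
    have h3 : (0 : ℝ) ≤ 2 ^ (j + 2) * R * e := by positivity
    nlinarith
  obtain ⟨t, ht, ht1, hit⟩ := iter_inv (Ψ := Ψ) (K := 2 ^ (j + 2) * (4 * R)) (θ := θ * e) hτ hinv
    (fun v => Psi_nonneg v) (fun v => Psi_le_one v) (fun v v' => Psi_lip h13 hR0.le v v')
    (by positivity) hKθ (U x₀)
  have ht0 : 0 < t := lt_of_lt_of_le (by positivity) ht
  obtain ⟨δ, hδ⟩ : ∃ δ : ℝ, δ = θ * e * t := ⟨_, rfl⟩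
  have hδ0 : 0 < δ := by rw [hδ]; positivity
  have hδle : δ ≤ 2 * e := by
    rw [hδ]
    calc θ * e * t ≤ 2 * e * 1 := by
          have := hθ1.2
          gcongr
      _ = 2 * e := mul_one _
  have hδge : (1 / 2) * e * (1 / 4 : ℝ) ^ k₀ ≤ δ := by
    rw [hδ]
    have := hθ1.1
    gcongr
  have hδ' : δ ≤ (1 / 2 : ℝ) ^ j / (64 * R) := by
    rw [le_div_iff₀ (by positivity)]
    calc δ * (64 * R) ≤ 2 * e * (64 * R) := by gcongr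
      _ = 128 * (e * R) := by ring
      _ ≤ 4096 * (e * d * R) := by nlinarith [mul_nonneg he0.le hR0.le]
      _ ≤ _ := hej'
  obtain ⟨I, hI⟩ : ∃ I : ℕ, I = ⌈2 / δ⌉₊ := ⟨_, rfl⟩
  have hI1 : 2 / δ ≤ I := by rw [hI]; exact Nat.le_ceil _
  have hI2 : (I : ℝ) ≤ 2 / δ + 1 := by
    rw [hI]; exact (Nat.ceil_lt_add_one (by positivity)).le
  have hI0 : (0 : ℝ) < I := lt_of_lt_of_le (by positivity) hI1
  have hI3 : (I : ℝ) ≤ 2 ^ (k₁ + 2 * k₀ + 3) := by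
    have h1 : 2 / δ ≤ 4 * 2 ^ (k₁ + 2 * k₀) := by
      rw [div_le_iff₀ hδ0]
      have h2 : (1 / 4 : ℝ) ^ k₀ * 2 ^ (2 * k₀) = 1 := by
        rw [pow_mul, ← mul_pow]; norm_num
      calc (2 : ℝ) = 4 * 2 ^ (k₁ + 2 * k₀) * ((1 / 2) * e * (1 / 4 : ℝ) ^ k₀) := by
            rw [pow_add]
            calc (2 : ℝ) = 2 * (e * 2 ^ k₁) * ((1 / 4 : ℝ) ^ k₀ * 2 ^ (2 * k₀)) := by
                  rw [hek, h2]; norm_num
              _ = _ := by ring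
        _ ≤ 4 * 2 ^ (k₁ + 2 * k₀) * δ := by gcongr
    have h3 : (1 : ℝ) ≤ 2 ^ (k₁ + 2 * k₀) := one_le_pow₀ (by norm_num)
    rw [pow_add]
    norm_num
    linarith
  -- lower bound
  have hlow : ∀ x ∈ X.filter fun x => Spn R' s x, (1 / 2 : ℝ) ^ j / (200 * R) * I ≤
      ∑ i ∈ Finset.range I, Ψ (θ * e * (U x - U x₀) + i * (θ * e * t)) := by
    intro x hx
    obtain ⟨hxX, hspn⟩ := Finset.mem_filter.1 hx
    obtain ⟨k', hk', hk'p⟩ := exists_near_target hspn (fun l => if l = i₁ then -R else 3 * R)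
    obtain ⟨k, hk, hkk⟩ := (hdisp x₀ hx₀ x hxX).1 k' hk'
    have hdR : (d : ℝ) * R' ≤ R / 4 := by linarith
    obtain ⟨hHM, hHM'⟩ := (hmat x hxX).2
    have hb := bwd h12 h23 h13 hHM hHM' hR (by positivity) (w' := fun l => (k' l : ℝ) * (2 : ℝ) ^ (-s l))
      (by
        have : e * d ≤ 1 / 4096 := by linarith
        linarith)
      (by
        have := hk'p i₁
        rw [if_pos rfl] at this
        have e1 : (k' i₁ : ℝ) * (2 : ℝ) ^ (-s i₁) + R = (k' i₁ : ℝ) * (2 : ℝ) ^ (-s i₁) - -R := by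
          ring
        show |(k' i₁ : ℝ) * (2 : ℝ) ^ (-s i₁) + R| ≤ R / 4
        rw [e1]; linarith)
      (fun l hl => by
        have := hk'p l
        rw [if_neg hl] at this
        exact this.trans hdR)
    have hw : ∀ l, (resc s (h x₀ * (h x)⁻¹)).mulVec (fun l => (k' l : ℝ) * (2 : ℝ) ^ (-s l)) l =
        (k l : ℝ) * (2 : ℝ) ^ (-s l) := by
      intro l
      have h1 := resc_mulVec s (h x₀ * (h x)⁻¹) (rv k') l
      rw [hkk] at h1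
      exact h1
    simp only [hw] at hb
    obtain ⟨hb1, hb2, hb3⟩ := hb
    have h3 := hb3 i₃ (Ne.symm h13)
    refine (bump_sum hR hδ0 hδ' hb1 hb2 h3.1 h3.2 hI1 hI2).trans ?_
    refine Finset.sum_le_sum fun i _ => ?_
    refine le_trans (le_of_eq ?_) (le_Psi k hk _ hb3)
    congr 1
    rw [hδ]; ring
  -- upper bound
  have hup : ∀ x ∈ X, Ψ (θ * e * (U x - U x₀)) ≤ if Ev i₁ R j s x then 1 else 0 := by
    intro x hxX
    by_cases hpos : 0 < Ψ (θ * e * (U x - U x₀))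
    · obtain ⟨k, hk, hkl, hk1, hk2⟩ := exists_of_Psi_pos hpos
      obtain ⟨k', hk', hkk⟩ := (hdisp x hxX x₀ hx₀).1 k hk
      obtain ⟨hHM, hHM'⟩ := (hmat x hxX).1
      have hf := fwd h12 h23 h13 hHM hHM' hR (by positivity) (j := j) (by linarith)
        (w := fun l => (k l : ℝ) * (2 : ℝ) ^ (-s l)) hkl hk1 hk2
      have hw : ∀ l, (resc s (h x * (h x₀)⁻¹)).mulVec (fun l => (k l : ℝ) * (2 : ℝ) ^ (-s l)) l =
          (k' l : ℝ) * (2 : ℝ) ^ (-s l) := by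
        intro l
        have h1 := resc_mulVec s (h x * (h x₀)⁻¹) (rv k) l
        rw [hkk] at h1
        exact h1
      simp only [hw] at hf
      obtain ⟨hf1, hf2, hf3⟩ := hf
      have habs : ∀ l, 0 ≤ (k' l : ℝ) * (2 : ℝ) ^ (-s l) →
          |(k' l : ℝ)| * (2 : ℝ) ^ (-s l) = (k' l : ℝ) * (2 : ℝ) ^ (-s l) := by
        intro l hl
        have h2 : (0 : ℝ) < (2 : ℝ) ^ (-s l) := Real.rpow_pos_of_pos (by norm_num) _
        have h3 : 0 ≤ (k' l : ℝ) := by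
          by_contra hcon
          push Not at hcon
          have := mul_neg_of_neg_of_pos hcon h2
          linarith
        rw [abs_of_nonneg h3]
      have hEv : Ev i₁ R j s x := by
        refine ⟨k', hk', ?_, ?_, fun l hl => ?_⟩
        · rw [habs i₁ (le_trans (by positivity) hf1)]; exact hf1
        · rw [habs i₁ (le_trans (by positivity) hf1)]; exact hf2
        · rw [habs l (le_trans hR0.le (hf3 l hl).1)]; exact hf3 l hl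
      rw [if_pos hEv]
      exact Psi_le_one _
    · push Not at hpos
      refine hpos.trans ?_
      split_ifs <;> norm_num
  -- conclusion
  have h1 := hit I
  have h2 : I * ((1 / 2 : ℝ) ^ j / (200 * R) * ((X.filter fun x => Spn R' s x).card : ℝ)) ≤
      ∑ i ∈ Finset.range I, ∑ x ∈ X, Ψ (θ * e * (U x - U x₀) + i * (θ * e * t)) := by
    rw [Finset.sum_comm]
    calc I * ((1 / 2 : ℝ) ^ j / (200 * R) * ((X.filter fun x => Spn R' s x).card : ℝ))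
        = ∑ x ∈ X.filter fun x => Spn R' s x, (1 / 2 : ℝ) ^ j / (200 * R) * I := by
          rw [Finset.sum_const, nsmul_eq_mul]; ring
      _ ≤ ∑ x ∈ X.filter fun x => Spn R' s x,
          ∑ i ∈ Finset.range I, Ψ (θ * e * (U x - U x₀) + i * (θ * e * t)) :=
          Finset.sum_le_sum hlow
      _ ≤ _ := Finset.sum_le_sum_of_subset_of_nonneg (Finset.filter_subset _ _)
          fun x _ _ => Finset.sum_nonneg fun i _ => Psi_nonneg _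
  have h3 : ∑ x ∈ X, Ψ (θ * e * (U x - U x₀)) ≤ ((X.filter fun x => Ev i₁ R j s x).card : ℝ) := by
    refine (Finset.sum_le_sum hup).trans (le_of_eq ?_)
    rw [Finset.card_filter]; push_cast; rfl
  have h4 : I * ((1 / 2 : ℝ) ^ j / (200 * R) * ((X.filter fun x => Spn R' s x).card : ℝ)) ≤
      I * (((X.filter fun x => Ev i₁ R j s x).card : ℝ) + I * (τ * X.card)) := by
    refine h2.trans (h1.trans ?_)
    refine mul_le_mul_of_nonneg_left ?_ hI0.le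
    linarith
  have h5 := le_of_mul_le_mul_left h4 hI0
  refine h5.trans ?_
  have h6 : (I : ℝ) * (τ * X.card) ≤ 2 ^ (k₁ + 2 * k₀ + 3) * (τ * X.card) :=
    mul_le_mul_of_nonneg_right hI3 (by positivity)
  linarith

end Pool.Agent.Lib.P51n
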