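import Pool.Agent.Lib.P51n.CLtx
import Pool.Agent.Lib.P51n.HBridge
import Pool.Agent.Lib.P51n.XExc
import Pool.Agent.Lib.P51n.BMetric

/-!
# P51n.MKey

For one place `σ`: the sets `B n m` of the members of `Ω` whose cell is nearly invariant.
-/

set_option autoImplicit false

noncomputable section

namespace Pool.Agent.Lib.P51n

theorem mem_fibM {α β : Type*} {Ω : Finset α} {f : α → β} {x y : α} :
    y ∈ fib Ω f x ↔ y ∈ Ω ∧ f y = f x := by
  simp [fib]

theorem fib_subsetM {α β : Type*} (Ω : Finset α) (f : α → β) (x : α) : fib Ω f x ⊆ Ω :=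
  fun _ hy => (mem_fibM.1 hy).1

open Classical in
/-- summation over cells -/
theorem cells_sum {α β : Type*} (Ω : Finset α) (f : α → β) (P Q E : α → Prop) (w e : ℝ)
    (he : 0 ≤ e) (hP : ∀ x ∈ Ω, ∀ y ∈ Ω, f x = f y → P x → P y)
    (h : ∀ x ∈ Ω, P x → w * (((fib Ω f x).filter Q).card : ℝ) ≤
      (((fib Ω f x).filter E).card : ℝ) + e * (fib Ω f x).card) :
    w * ((Ω.filter fun x => P x ∧ Q x).card : ℝ) ≤ ((Ω.filter E).card : ℝ) + e * Ω.card := by
  -- sum over the image of `f` on the set of `x ∈ Ω` with `P x`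
  set S := Ω.filter P with hS
  have key : ∀ R : α → Prop, ((S.filter R).card : ℝ) =
      ∑ v ∈ S.image f, (((S.filter R).filter fun x => f x = v).card : ℝ) := by
    intro R
    have := Finset.card_eq_sum_card_fiberwise (f := f) (s := S.filter R) (t := S.image f)
      (fun x hx => Finset.mem_coe.2 (Finset.mem_image_of_mem f (Finset.mem_of_mem_filter x (Finset.mem_coe.1 hx))))
    rw [this]; push_cast; rfl
  have hfib : ∀ x ∈ S, ∀ R : α → Prop, (S.filter R).filter (fun y => f y = f x) =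
      (fib Ω f x).filter R := by
    intro x hx R
    have hx' := Finset.mem_filter.1 hx
    ext y
    simp only [hS, fib, Finset.mem_filter]
    constructor
    · rintro ⟨⟨⟨h1, h2⟩, h3⟩, h4⟩; exact ⟨⟨h1, h4⟩, h3⟩
    · rintro ⟨⟨h1, h4⟩, h3⟩
      exact ⟨⟨⟨h1, hP x hx'.1 y h1 h4.symm hx'.2⟩, h3⟩, h4⟩
  have keyS : (S.card : ℝ) = ∑ v ∈ S.image f, ((S.filter fun x => f x = v).card : ℝ) := by
    have := Finset.card_eq_sum_card_fiberwise (f := f) (s := S) (t := S.image f)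
      (fun x hx => Finset.mem_coe.2 (Finset.mem_image_of_mem f (Finset.mem_coe.1 hx)))
    rw [this]; push_cast; rfl
  have hfibS : ∀ x ∈ S, S.filter (fun y => f y = f x) = fib Ω f x := by
    intro x hx
    have hx' := Finset.mem_filter.1 hx
    ext y
    simp only [hS, fib, Finset.mem_filter]
    constructor
    · rintro ⟨⟨h1, h2⟩, h4⟩; exact ⟨h1, h4⟩
    · rintro ⟨h1, h4⟩
      exact ⟨⟨h1, hP x hx'.1 y h1 h4.symm hx'.2⟩, h4⟩
  have h1 : w * ((S.filter Q).card : ℝ) ≤ ((S.filter E).card : ℝ) + e * S.card := by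
    rw [keyS, key Q, key E, Finset.mul_sum, Finset.mul_sum, ← Finset.sum_add_distrib]
    refine Finset.sum_le_sum fun v hv => ?_
    obtain ⟨x, hx, rfl⟩ := Finset.mem_image.1 hv
    rw [hfib x hx, hfib x hx, hfibS x hx]
    have hx' := Finset.mem_filter.1 hx
    exact h x hx'.1 hx'.2
  have h2 : (Ω.filter fun x => P x ∧ Q x) = S.filter Q := by
    ext; simp [hS, and_assoc]
  have h3 : ((S.filter E).card : ℝ) ≤ ((Ω.filter E).card : ℝ) := by
    exact_mod_cast Finset.card_le_card (Finset.filter_subset_filter _ (Finset.filter_subset _ _))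
  have h4 : (S.card : ℝ) ≤ Ω.card := by exact_mod_cast Finset.card_le_card (Finset.filter_subset _ _)
  rw [h2]
  have := mul_le_mul_of_nonneg_left h4 he
  linarith

/-- the seven parameter triples -/
def seven : Finset (ℝ × ℝ × ℝ) :=
  {(0, 0, 0), (1, 0, 0), (0, 1, 0), (0, 2, 2), (1, 2, 2), (2, 0, 2), (2, 1, 2)}

theorem seven_tri {d : ℕ} {i₁ i₂ i₃ : Fin d} (h12 : i₁ ≠ i₂) (h23 : i₂ ≠ i₃) (h13 : i₁ ≠ i₃)
    {v : ℝ × ℝ × ℝ} (hv : v ∈ seven) : Tri (ct i₁ i₂ i₃ v.1 v.2.1 v.2.2) := by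
  simp only [seven, Finset.mem_insert, Finset.mem_singleton] at hv
  rcases hv with rfl | rfl | rfl | rfl | rfl | rfl | rfl <;>
    exact tri_ct h12 h23 h13 (by norm_num) (by norm_num) (by norm_num) (by norm_num) (by norm_num)
      (by norm_num) (by norm_num)

theorem ct_nonneg {d : ℕ} (i₁ i₂ i₃ : Fin d) {α β γ : ℝ} (hα : 0 ≤ α) (hβ : 0 ≤ β) (hγ : 0 ≤ γ)
    (i j : Fin d) : 0 ≤ ct i₁ i₂ i₃ α β γ i j := by
  unfold ct
  split_ifs <;> first | assumption | norm_num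

theorem seven_nonneg {d : ℕ} (i₁ i₂ i₃ : Fin d) {v : ℝ × ℝ × ℝ} (hv : v ∈ seven) (i j : Fin d) :
    0 ≤ ct i₁ i₂ i₃ v.1 v.2.1 v.2.2 i j := by
  simp only [seven, Finset.mem_insert, Finset.mem_singleton] at hv
  rcases hv with rfl | rfl | rfl | rfl | rfl | rfl | rfl <;>
    exact ct_nonneg _ _ _ (by norm_num) (by norm_num) (by norm_num) _ _

theorem ct_sup₁ {d : ℕ} (i₁ i₂ i₃ : Fin d) :
    ct i₁ i₂ i₃ 1 0 0 ⊔ ct i₁ i₂ i₃ 0 2 2 = ct i₁ i₂ i₃ 1 2 2 := by
  funext i j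
  simp only [Pi.sup_apply, ct]
  split_ifs <;> norm_num

theorem ct_sup₂ {d : ℕ} (i₁ i₂ i₃ : Fin d) :
    ct i₁ i₂ i₃ 0 1 0 ⊔ ct i₁ i₂ i₃ 2 0 2 = ct i₁ i₂ i₃ 2 1 2 := by
  funext i j
  simp only [Pi.sup_apply, ct]
  split_ifs <;> norm_num

theorem ct_le₁' {d : ℕ} (i₁ i₂ i₃ : Fin d) : ct i₁ i₂ i₃ 0 0 0 ≤ ct i₁ i₂ i₃ 1 0 0 := by
  intro i j
  simp only [ct]
  split_ifs <;> norm_num

theorem ct_le₂' {d : ℕ} (i₁ i₂ i₃ : Fin d) : ct i₁ i₂ i₃ 0 0 0 ≤ ct i₁ i₂ i₃ 0 1 0 := by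
  intro i j
  simp only [ct]
  split_ifs <;> norm_num

/-- submodularity in an additive form -/
theorem sub4 {d : ℕ} {F : (Fin d → Fin d → ℝ) → ℝ} (hF : EFun d F) {s : Fin d → ℝ}
    (hs : Pos 1 s) {lam : ℝ} (hl : 0 ≤ lam) {c c' c'' m : Fin d → Fin d → ℝ} (hc : Tri c)
    (hc' : Tri c') (hc'' : Tri c'') (h0 : ∀ i j, 0 ≤ c i j) (h0' : ∀ i j, 0 ≤ c' i j)
    (h0'' : ∀ i j, 0 ≤ c'' i j) (h1 : c'' ≤ c) (h2 : c'' ≤ c') (hm : c ⊔ c' = m) :
    F (cs s + lam • m) - F (cs s + lam • c') ≤ F (cs s + lam • c) - F (cs s + lam • c'') := by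
  have a1 := adm_add hs (hc.smul hl) (fun i j => mul_nonneg hl (h0 i j))
  have a2 := adm_add hs (hc'.smul hl) (fun i j => mul_nonneg hl (h0' i j))
  have a3 := adm_add hs (hc''.smul hl) (fun i j => mul_nonneg hl (h0'' i j))
  have e : (cs s + lam • c) ⊔ (cs s + lam • c') = cs s + lam • m := by
    rw [← hm]
    funext i j
    simp only [Pi.sup_apply, Pi.add_apply, Pi.smul_apply, smul_eq_mul]
    rw [max_add_add_left, mul_max_of_nonneg _ _ hl]
  have := hF.submod _ _ _ a1 a2 a3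
    (fun i j => by
      simp only [Pi.add_apply, Pi.smul_apply, smul_eq_mul]
      have := mul_le_mul_of_nonneg_left (h1 i j) hl; linarith)
    (fun i j => by
      simp only [Pi.add_apply, Pi.smul_apply, smul_eq_mul]
      have := mul_le_mul_of_nonneg_left (h2 i j) hl; linarith)
  rw [e] at this
  linarith

/-- growth: logarithms are negligible -/
theorem log_small (K c : ℝ) (hc : 0 < c) : ∃ T₁ : ℕ, ∀ T : ℕ, T₁ ≤ T →
    K * Real.logb 2 T ≤ c * T := by
  have h := (Real.isLittleO_log_id_atTop : (fun x : ℝ => Real.log x) =o[Filter.atTop] fun x => id x)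
  have h2 := h.def (c := c * Real.log 2 / (|K| + 1)) (by positivity)
  have h3 := tendsto_natCast_atTop_atTop.eventually (h2 : ∀ᶠ x : ℝ in Filter.atTop, _)
  obtain ⟨T₁, hT₁⟩ := Filter.eventually_atTop.1 h3
  refine ⟨max T₁ 1, fun T hT => ?_⟩
  have h4 := hT₁ T ((le_max_left _ _).trans hT)
  have hT1 : (1 : ℝ) ≤ T := by exact_mod_cast (le_max_right T₁ 1).trans hT
  simp only [id, Real.norm_eq_abs] at h4
  rw [abs_of_nonneg (Real.log_nonneg hT1), abs_of_nonneg (by linarith : (0 : ℝ) ≤ T)] at h4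
  have hl2 : 0 < Real.log 2 := Real.log_pos (by norm_num)
  have hK : 0 < |K| + 1 := by positivity
  rw [Real.logb]
  have hlT : 0 ≤ Real.log T := Real.log_nonneg hT1
  calc K * (Real.log T / Real.log 2) ≤ (|K| + 1) * (Real.log T / Real.log 2) := by
        apply mul_le_mul_of_nonneg_right _ (by positivity)
        linarith [le_abs_self K]
    _ ≤ (|K| + 1) * ((c * Real.log 2 / (|K| + 1) * T) / Real.log 2) := by
        gcongr
    _ = c * T := by field_simp

end Pool.Agent.Lib.P51n
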