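import Pool.Agent.Lib.P51n.MKey

/-!
# P51n.MSigma

For one place `σ`: the sets `B n m` of the members of `Ω` whose cell is nearly invariant.
-/

set_option autoImplicit false

noncomputable section

namespace Pool.Agent.Lib.P51n

open Classical in
theorem key_sigma (d : ℕ) (hd : 3 ≤ d) (C : ℝ) (hC : 1 ≤ C) (A : ℕ) (c₂ : ℝ) (hc₂ : 0 < c₂)
    (hc₂1 : c₂ ≤ 1) :
    ∃ (k₀ : ℕ) (c₄ : ℝ), 0 < c₄ ∧ c₄ ≤ 1 ∧ ∀ R R' : ℝ, 0 ≤ R' → 1 ≤ R → 4 * d * R' ≤ R →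
    ∀ J : ℕ, ∃ k₁ : ℕ, ∀ τ : ℝ, 0 < τ → ∃ (L : ℕ) (ε : ℝ), 0 < ε ∧ k₁ ≤ L ∧
    ∀ lam : ℝ, 0 < lam → lam ≤ 1 → ∃ (ε'' : ℝ) (T₁ : ℕ), 0 < ε'' ∧
    ∀ T N q : ℕ, T₁ ≤ T → (N : ℝ) = lam * T → Small d T C q → (2 : ℝ) ^ q ≤ (T : ℝ) ^ A →
    ∀ G Ω : Finset (AddSubgroup (Fin d → ℤ)), Fam T C G → Ω ⊆ G → Ω.Nonempty →
    (G.card : ℝ) ≤ T * Ω.card → ∀ i₁ i₂ i₃ : Fin d, i₁ ≠ i₂ → i₂ ≠ i₃ → i₁ ≠ i₃ →
    ∀ F : (Fin d → Fin d → ℝ) → ℝ, EFun d F →
    (∀ s : Fin d → ℝ, Pos 1 s → ∀ v ∈ seven,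
      ((Ω.filter fun x => ε'' * T < |info G ((1 / 2 : ℝ) ^ q)
        ((T : ℝ) • (cs s + lam • ct i₁ i₂ i₃ v.1 v.2.1 v.2.2)) x -
          T * F (cs s + lam • ct i₁ i₂ i₃ v.1 v.2.1 v.2.2)|).card : ℝ) * T ≤ Ω.card) →
    ∀ σ : Fin d → ℝ, Pos T σ → Place F i₁ i₂ i₃ c₂ (ε / 4) lam (fun j => σ j / T) →
    3 ≤ q ∧ 8 * q ≤ N ∧ ∃ B : ℕ → ℕ → Finset (AddSubgroup (Fin d → ℤ)), (∀ n m, B n m ⊆ Ω) ∧
      c₄ * (N : ℝ) ^ 2 * Ω.card ≤
        ∑ nm ∈ Finset.range N ×ˢ Finset.range N, ((B nm.1 nm.2).card : ℝ) ∧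
      (∀ n m, ¬ (n + L ≤ N ∧ m + L ≤ N) → B n m = ∅) ∧
      ∀ n m, k₁ ≤ n → n + L ≤ N → m + L ≤ N → ∀ j ≤ J,
        (1 / 2 : ℝ) ^ j / (200 * R) *
          (((B n m).filter fun x => Spn R' (spos i₁ i₂ i₃ σ n m k₁ q) x).card : ℝ) ≤
        ((Ω.filter fun x => Ev i₁ R j (spos i₁ i₂ i₃ σ n m k₁ q) x).card : ℝ) +
          2 ^ (k₁ + 2 * k₀ + 3) * τ * Ω.card := by
  have hd1 : 1 ≤ d := by omega
  obtain ⟨k₀, c₄, hc₄, hc₄1, hltx⟩ := ltx (c₂ / 2) (by positivity) (by linarith)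
  refine ⟨k₀, c₄, hc₄, hc₄1, ?_⟩
  intro R R' hR' hR hRR J
  obtain ⟨k₁, N₁, hexc⟩ := exc d hd R R' hR' hR hRR J k₀
  refine ⟨k₁, ?_⟩
  intro τ hτ
  obtain ⟨L, ε, N₂, hL, hε, hltx'⟩ := hltx τ hτ k₁
  refine ⟨L, ε, hε, hL, ?_⟩
  intro lam hlam hlam1
  obtain ⟨K, N₃, hK, hbr⟩ := bridge d hd C hC A
  obtain ⟨T₂, hT₂⟩ := log_small K (lam * min (c₂ / 4) (ε / 4)) (by positivity)
  obtain ⟨T₃, hT₃⟩ := log_small A (lam / 8) (by positivity)
  obtain ⟨T₄, hT₄⟩ := exists_nat_ge (max ((N₁ + N₂ + N₃ : ℝ) / lam) (10 / c₄))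
  refine ⟨lam * min (c₂ / 8) (ε / 16), max (max T₂ T₃) (max T₄ 2), by positivity, ?_⟩
  intro T N q hT hN hq hqA G Ω hG hΩ hne hcard i₁ i₂ i₃ h12 h23 h13 F hF htr σ hσ hpl
  have hTT₂ : T₂ ≤ T := (le_max_left _ _).trans ((le_max_left _ _).trans hT)
  have hTT₃ : T₃ ≤ T := (le_max_right _ _).trans ((le_max_left _ _).trans hT)
  have hTT₄ : T₄ ≤ T := (le_max_left _ _).trans ((le_max_right _ _).trans hT)
  have hT2 : 2 ≤ T := (le_max_right _ _).trans ((le_max_right _ _).trans hT)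
  have hT1 : 1 ≤ T := by omega
  have hT0 : (0 : ℝ) < T := by exact_mod_cast (by omega : 0 < T)
  have hTm : max ((N₁ + N₂ + N₃ : ℝ) / lam) (10 / c₄) ≤ T :=
    hT₄.trans (by exact_mod_cast hTT₄)
  have hNN : (N₁ + N₂ + N₃ : ℝ) ≤ N := by
    have := (le_max_left _ _).trans hTm
    rw [div_le_iff₀ hlam] at this
    rw [hN]; linarith
  have hNN' : N₁ + N₂ + N₃ ≤ N := by exact_mod_cast hNN
  have hT10 : 10 ≤ c₄ * T := by
    have := (le_max_right _ _).trans hTm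
    rw [div_le_iff₀ hc₄] at this
    linarith
  -- `q` is small
  have hqN : 8 * q ≤ N := by
    have h1 : (q : ℝ) ≤ A * Real.logb 2 T := by
      have h2 := Real.logb_le_logb_of_le (b := 2) (by norm_num) (by positivity) hqA
      rw [Real.logb_pow, Real.logb_pow, Real.logb_self_eq_one (by norm_num)] at h2
      linarith
    have h3 := hT₃ T hTT₃
    have h4 : (8 : ℝ) * q ≤ N := by rw [hN]; linarith
    exact_mod_cast h4
  have hq3 : 3 ≤ q := by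
    by_contra hcon
    have h1 : (2 : ℝ) ^ q ≤ 2 ^ 3 := pow_le_pow_right₀ (by norm_num) (by omega)
    have h2 : (2 : ℝ) ^ 12 * d ^ 2 * (8 * d * C * (T : ℝ) ^ (d - 1)) ^ (d + 1) ≤ 2 ^ q := hq
    have hd' : (1 : ℝ) ≤ d := by exact_mod_cast hd1
    have hT' : (1 : ℝ) ≤ T := by exact_mod_cast hT1
    have h3 : (1 : ℝ) ≤ d ^ 2 := one_le_pow₀ hd'
    have h4 : (1 : ℝ) ≤ (T : ℝ) ^ (d - 1) := one_le_pow₀ hT'
    have h5 : (1 : ℝ) ≤ (8 * d * C * (T : ℝ) ^ (d - 1)) ^ (d + 1) := by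
      apply one_le_pow₀
      have : (1 : ℝ) ≤ 8 * d := by linarith
      have : (1 : ℝ) ≤ 8 * d * C := one_le_mul_of_one_le_of_one_le this hC
      exact one_le_mul_of_one_le_of_one_le this h4
    have h6 : (2 : ℝ) ^ 12 ≤ (2 : ℝ) ^ 12 * d ^ 2 * (8 * d * C * (T : ℝ) ^ (d - 1)) ^ (d + 1) := by
      have : (1 : ℝ) ≤ d ^ 2 * (8 * d * C * (T : ℝ) ^ (d - 1)) ^ (d + 1) :=
        one_le_mul_of_one_le_of_one_le h3 h5
      nlinarith
    norm_num at h1 h6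
    linarith
  refine ⟨hq3, hqN, ?_⟩
  -- the position of level one
  set s : Fin d → ℝ := fun j => σ j / T with hs
  have hs1 : Pos 1 s := by
    refine ⟨fun j => div_nonneg (hσ.1 j) hT0.le, ?_⟩
    simp only [hs]
    rw [← Finset.sum_div, hσ.2, div_self hT0.ne']
  have hshape : ∀ α β γ : ℝ, (T : ℝ) • (cs s + lam • ct i₁ i₂ i₃ α β γ) =
      cN i₁ i₂ i₃ σ N α β γ := by
    intro α β γ
    funext i j
    simp only [cN, cs, hs, Pi.smul_apply, Pi.add_apply, smul_eq_mul, hN]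
    field_simp
  -- chart
  have hadm : Adm (T : ℝ) (cN i₁ i₂ i₃ σ N 0 0 0) := by
    apply adm_add hσ
    · exact (tri_ct h12 h23 h13 le_rfl le_rfl le_rfl (by norm_num) (by norm_num) (by norm_num)
        (by norm_num)).smul (Nat.cast_nonneg _)
    · intro i j
      exact mul_nonneg (Nat.cast_nonneg _) (ct_nonneg _ _ _ le_rfl le_rfl le_rfl _ _)
  obtain ⟨Y, h, hch⟩ := exists_chart hd1 hT1 hC hq hG hΩ hadm
  set a : AddSubgroup (Fin d → ℤ) → ℝ := fun x => coA i₁ i₂ σ (q - 3) (h x) with ha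
  set b : AddSubgroup (Fin d → ℤ) → ℝ := fun x => coB i₂ i₃ σ (q - 3) (h x) with hb
  set z : AddSubgroup (Fin d → ℤ) → ℝ := fun x => coZ i₁ i₃ σ (q - 3) (h x) with hz
  set φ : ℝ → ℝ → ℝ → ℝ := fun α β γ => T * F (cs s + lam • ct i₁ i₂ i₃ α β γ) with hφ
  set E : ℝ := lam * min (c₂ / 8) (ε / 16) * T with hE
  have hE0 : 0 ≤ E := by positivity
  have hadm1 : ∀ v ∈ seven, Adm 1 (cs s + lam • ct i₁ i₂ i₃ v.1 v.2.1 v.2.2) := fun v hv =>
    adm_add hs1 ((seven_tri h12 h23 h13 hv).smul hlam.le)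
      (fun i j => mul_nonneg hlam.le (seven_nonneg _ _ _ hv i j))
  have hφs : ∀ v ∈ ({(0, 0, 0), (1, 0, 0), (0, 1, 0), (0, 2, 2), (1, 2, 2), (2, 0, 2),
      (2, 1, 2)} : Finset (ℝ × ℝ × ℝ)), 0 ≤ φ v.1 v.2.1 v.2.2 ∧ φ v.1 v.2.1 v.2.2 ≤ T ∧
      ((Ω.filter fun x => E < |info G ((1 / 2 : ℝ) ^ q) (cN i₁ i₂ i₃ σ N v.1 v.2.1 v.2.2) x -
        φ v.1 v.2.1 v.2.2|).card : ℝ) * T ≤ Ω.card := by
    intro v hv
    have h1 := hF.nonneg _ (hadm1 v hv)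
    have h2 := hF.le_one _ (hadm1 v hv)
    refine ⟨mul_nonneg hT0.le h1, by simp only [hφ]; nlinarith, ?_⟩
    have := htr s hs1 v hv
    rw [hshape] at this
    exact this
  obtain ⟨hab, ⟨Bad, hBad, hBad'⟩, hcm1, hcm2⟩ := hbr N (by omega) i₁ i₂ i₃ h12 h23 h13 T q hT2 hq
    hqA (by omega) G Ω hG hΩ hne hcard σ hσ Y h hch a b z (fun _ => rfl) (fun _ => rfl)
    (fun _ => rfl) φ E hE0 hφs
  -- differences of `φ`
  have hlog1 := hT₂ T hTT₂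
  have hlog2 : K * Real.logb 2 T ≤ (c₂ / 4) * N := by
    rw [hN]
    calc K * Real.logb 2 T ≤ lam * min (c₂ / 4) (ε / 4) * T := hlog1
      _ ≤ lam * (c₂ / 4) * T := by gcongr; exact min_le_left _ _
      _ = _ := by ring
  have hlog3 : K * Real.logb 2 T ≤ (ε / 4) * N := by
    rw [hN]
    calc K * Real.logb 2 T ≤ lam * min (c₂ / 4) (ε / 4) * T := hlog1
      _ ≤ lam * (ε / 4) * T := by gcongr; exact min_le_right _ _
      _ = _ := by ring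
  have hE1 : E ≤ (c₂ / 8) * N := by
    rw [hN, hE]
    calc lam * min (c₂ / 8) (ε / 16) * T ≤ lam * (c₂ / 8) * T := by
          gcongr; exact min_le_left _ _
      _ = _ := by ring
  have hE2 : E ≤ (ε / 16) * N := by
    rw [hN, hE]
    calc lam * min (c₂ / 8) (ε / 16) * T ≤ lam * (ε / 16) * T := by
          gcongr; exact min_le_right _ _
      _ = _ := by ring
  have hp1 : c₂ * N ≤ φ 1 0 0 - φ 0 0 0 := by
    have := mul_le_mul_of_nonneg_left hpl.act₁ hT0.le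
    simp only [hφ]; rw [hN]; linarith
  have hp2 : c₂ * N ≤ φ 0 1 0 - φ 0 0 0 := by
    have := mul_le_mul_of_nonneg_left hpl.act₂ hT0.le
    simp only [hφ]; rw [hN]; linarith
  have hp3 : |φ 1 0 0 - φ 0 0 0 - (φ 1 2 2 - φ 0 2 2)| ≤ (ε / 4) * N := by
    have h1 := mul_le_mul_of_nonneg_left hpl.ind₁ hT0.le
    have h2 := sub4 hF hs1 hlam.le
      (seven_tri h12 h23 h13 (v := (1, 0, 0)) (by simp [seven]))
      (seven_tri h12 h23 h13 (v := (0, 2, 2)) (by simp [seven]))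
      (seven_tri h12 h23 h13 (v := (0, 0, 0)) (by simp [seven]))
      (seven_nonneg i₁ i₂ i₃ (v := (1, 0, 0)) (by simp [seven]))
      (seven_nonneg i₁ i₂ i₃ (v := (0, 2, 2)) (by simp [seven]))
      (seven_nonneg i₁ i₂ i₃ (v := (0, 0, 0)) (by simp [seven]))
      (ct_le₁' i₁ i₂ i₃) ct_le₁ (ct_sup₁ i₁ i₂ i₃)
    have h3 := mul_le_mul_of_nonneg_left h2 hT0.le
    rw [abs_le]
    simp only [hφ]; rw [hN]
    constructor
    · have : 0 ≤ ε / 4 * (lam * T) := by positivity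
      linarith
    · linarith
  have hp4 : |φ 0 1 0 - φ 0 0 0 - (φ 2 1 2 - φ 2 0 2)| ≤ (ε / 4) * N := by
    have h1 := mul_le_mul_of_nonneg_left hpl.ind₂ hT0.le
    have h2 := sub4 hF hs1 hlam.le
      (seven_tri h12 h23 h13 (v := (0, 1, 0)) (by simp [seven]))
      (seven_tri h12 h23 h13 (v := (2, 0, 2)) (by simp [seven]))
      (seven_tri h12 h23 h13 (v := (0, 0, 0)) (by simp [seven]))
      (seven_nonneg i₁ i₂ i₃ (v := (0, 1, 0)) (by simp [seven]))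
      (seven_nonneg i₁ i₂ i₃ (v := (2, 0, 2)) (by simp [seven]))
      (seven_nonneg i₁ i₂ i₃ (v := (0, 0, 0)) (by simp [seven]))
      (ct_le₂' i₁ i₂ i₃) ct_le₂ (ct_sup₂ i₁ i₂ i₃)
    have h3 := mul_le_mul_of_nonneg_left h2 hT0.le
    rw [abs_le]
    simp only [hφ]; rw [hN]
    constructor
    · have : 0 ≤ ε / 4 * (lam * T) := by positivity
      linarith
    · linarith
  -- apply `ltx`
  have hBad1 : (Bad.card : ℝ) ≤ c₄ * Ω.card := by
    have h1 : (Bad.card : ℝ) * T ≤ c₄ * T * Ω.card :=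
      hBad.trans (mul_le_mul_of_nonneg_right hT10 (Nat.cast_nonneg _))
    have h2 : (Bad.card : ℝ) * T ≤ (c₄ * Ω.card) * T := by linarith
    exact le_of_mul_le_mul_right h2 hT0
  have hexp1 : -(φ 1 0 0 - φ 0 0 0) + 2 * E + K * Real.logb 2 T ≤ -(c₂ / 2 * N) := by linarith
  have hexp2 : -(φ 0 1 0 - φ 0 0 0) + 2 * E + K * Real.logb 2 T ≤ -(c₂ / 2 * N) := by linarith
  have hbound := hltx' N (by omega) Ω Y a b z Bad hab hBad1
    (fun x hx hxB => by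
      obtain ⟨h1, h2⟩ := hBad' x hx hxB
      have hw : 0 ≤ wt Ω Y x := by unfold wt; positivity
      exact ⟨h1.trans (mul_le_mul_of_nonneg_right
        (Real.rpow_le_rpow_of_exponent_le (by norm_num) hexp1) hw),
        h2.trans (mul_le_mul_of_nonneg_right
        (Real.rpow_le_rpow_of_exponent_le (by norm_num) hexp2) hw)⟩)
    (hcm1.trans (by linarith)) (hcm2.trans (by linarith))
  -- the sets
  set P : ℕ → ℕ → AddSubgroup (Fin d → ℤ) → Prop := fun n m x => n + L ≤ N ∧ m + L ≤ N ∧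
    Inv k₀ τ (fib Ω (fun y => (Y y, dig n a y, dig (m + L) b y)) x) (Uf n m a b z x) with hP
  refine ⟨fun n m => Ω.filter (P n m), fun n m => Finset.filter_subset _ _, ?_, ?_, ?_⟩
  · refine hbound.trans (le_of_eq ?_)
    have e1 : ∀ x, (((Finset.range N ×ˢ Finset.range N).filter fun nm : ℕ × ℕ =>
        P nm.1 nm.2 x).card : ℝ) = ∑ nm ∈ Finset.range N ×ˢ Finset.range N,
          if P nm.1 nm.2 x then (1 : ℝ) else 0 := by
      intro x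
      rw [Finset.card_filter]; push_cast; rfl
    have e2 : ∀ nm : ℕ × ℕ, ((Ω.filter (P nm.1 nm.2)).card : ℝ) =
        ∑ x ∈ Ω, if P nm.1 nm.2 x then (1 : ℝ) else 0 := by
      intro nm
      rw [Finset.card_filter]; push_cast; rfl
    simp only [e2]
    rw [Finset.sum_comm]
    exact Finset.sum_congr rfl fun x _ => e1 x
  · intro n m hnm
    rw [Finset.filter_eq_empty_iff]
    intro x _ hx
    exact hnm ⟨hx.1, hx.2.1⟩
  · intro n m hkn hn hm j hj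
    have hcs := cells_sum Ω (fun y => (Y y, dig n a y, dig (m + L) b y)) (P n m)
      (fun x => Spn R' (spos i₁ i₂ i₃ σ n m k₁ q) x)
      (fun x => Ev i₁ R j (spos i₁ i₂ i₃ σ n m k₁ q) x)
      ((1 / 2 : ℝ) ^ j / (200 * R)) (2 ^ (k₁ + 2 * k₀ + 3) * τ) (by positivity) ?_ ?_
    · rw [Finset.filter_filter]
      convert hcs
    · intro x hx y hy hxy hPx
      simp only [Prod.mk.injEq] at hxy
      refine ⟨hPx.1, hPx.2.1, ?_⟩
      have e1 : fib Ω (fun y => (Y y, dig n a y, dig (m + L) b y)) y =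
          fib Ω (fun y => (Y y, dig n a y, dig (m + L) b y)) x := by
        unfold fib
        ext w
        simp only [Finset.mem_filter, Prod.mk.injEq, hxy.1, hxy.2.1, hxy.2.2]
      have e2 : Uf n m a b z y = Uf n m a b z x := by
        unfold Uf
        rw [hxy.2.1]
      rw [e1, e2]
      exact hPx.2.2
    · intro x₀ hx₀ hPx
      refine hexc N (by omega) i₁ i₂ i₃ h12 h23 h13 T C q hT1 hC hq hqN G Ω hG hΩ σ hσ Y h hch
        a b z (fun _ => rfl) (fun _ => rfl) (fun _ => rfl) n m L hkn hn hm hL τ hτ.le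
        (fib Ω (fun y => (Y y, dig n a y, dig (m + L) b y)) x₀) (fib_subsetM _ _ _) x₀
        (mem_fibM.2 ⟨hx₀, rfl⟩) ?_ hPx.2.2 j hj
      intro x hx
      have := (mem_fibM.1 hx).2
      simp only [Prod.mk.injEq] at this
      exact this

end Pool.Agent.Lib.P51n
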