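import Pool.Agent.Lib.P51n.Defs

/-!
# P51n.SpnOf  (about 1.5 h)

A subgroup `Γ` of `ℤ^d` of index `≤ 2^(T+1)` without vectors in the box of size `ρ` at the
position `s` (`∑ s_j = T`) has `d` linearly independent vectors in the box of size
`R = (4d/ρ)^d`.  Pure pigeonhole:

1. The set `Q = {k : 0 ≤ k_j ≤ ⌊R 2^{s_j}⌋}` has `∏ (⌊R 2^{s_j}⌋ + 1) ≥ R^d 2^T` elements, and
   there are at most `2^(T+1)` classes modulo `Γ`, so some class contains at least `R^d / 2`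
   elements of `Q`; subtracting one of them, the set `V = Γ ∩ {|k_j| ≤ R 2^{s_j}}` has at least
   `R^d / 2` elements.
2. If `V` does not span `ℝ^d`, there is `ξ ≠ 0` with `∑ ξ_j k_j = 0` on `V`.  With
   `y_j = k_j 2^{-s_j}` and `ξ'_j = ξ_j 2^{s_j}` choose `i` maximising `|ξ'_i|`; then for
   differences `y` of two elements of `V`, `|y_i| ≤ ∑_{j ≠ i} |y_j| ≤ (d-1) max_{j ≠ i} |y_j|`.  By
   `Sys` two distinct elements of `V` differ by at least `ρ` in some rescaled coordinate, hence by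
   at least `ρ/d` in some rescaled coordinate `j ≠ i`.  So the map
   `k ↦ (⌊y_j d/ρ⌋)_{j ≠ i}` is injective on `V`, and `|V| ≤ (2 R d/ρ + 2)^(d-1) ≤ (4Rd/ρ)^(d-1)`.
3. Hence `R^d / 2 ≤ (4Rd/ρ)^(d-1)`, i.e. `R ≤ 2 (4d/ρ)^(d-1)`, which is false for
   `R = (4d/ρ)^d` because `4d/ρ ≥ 4`.
4. A spanning set contains a basis (`exists_linearIndependent`, `Module.finrank_pi`).
-/

set_option autoImplicit false

noncomputable section

namespace Pool.Agent.Lib.P51n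

variable {d : ℕ}

/-- the box -/
private def sboxQ (R : ℝ) (s : Fin d → ℝ) : Finset (Fin d → ℤ) :=
  Fintype.piFinset fun j => Finset.Icc (0 : ℤ) ⌊R * (2 : ℝ) ^ (s j)⌋

private theorem mem_sboxQ {R : ℝ} {s : Fin d → ℝ} {k : Fin d → ℤ} :
    k ∈ sboxQ R s ↔ ∀ j, 0 ≤ k j ∧ (k j : ℝ) ≤ R * (2 : ℝ) ^ (s j) := by
  unfold sboxQ
  rw [Fintype.mem_piFinset]
  refine forall_congr' fun j => ?_
  rw [Finset.mem_Icc, Int.le_floor]

private theorem spn_toNat_cast {z : ℤ} (hz : 0 ≤ z) :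
    (((z + 1 - 0).toNat : ℕ) : ℝ) = ((z + 1 : ℤ) : ℝ) := by
  have h4 : (((z + 1 - 0).toNat : ℕ) : ℤ) = z + 1 := by omega
  calc (((z + 1 - 0).toNat : ℕ) : ℝ) = ((((z + 1 - 0).toNat : ℕ) : ℤ) : ℝ) :=
        (Int.cast_natCast _).symm
    _ = ((z + 1 : ℤ) : ℝ) := by rw [h4]

private theorem card_sboxQ {R : ℝ} (hR : 0 ≤ R) {T : ℝ} {s : Fin d → ℝ} (hs : Pos T s) :
    R ^ d * (2 : ℝ) ^ T ≤ ((sboxQ R s).card : ℝ) := by
  unfold sboxQ
  rw [Fintype.card_piFinset]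
  have h1 : R ^ d * (2 : ℝ) ^ T = ∏ j, (R * (2 : ℝ) ^ (s j)) := by
    rw [Finset.prod_mul_distrib, Finset.prod_const, Finset.card_univ, Fintype.card_fin,
      ← Real.rpow_sum_of_pos (by norm_num), hs.2]
  rw [h1]
  push_cast
  refine Finset.prod_le_prod (fun j _ => by positivity) fun j _ => ?_
  rw [Int.card_Icc]
  have h2 : (0 : ℤ) ≤ ⌊R * (2 : ℝ) ^ (s j)⌋ := Int.floor_nonneg.2 (by positivity)
  rw [spn_toNat_cast h2]
  push_cast
  exact (Int.lt_floor_add_one _).le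

/-- pigeonhole -/
private theorem spn_fiber {T : ℕ} {Γ : AddSubgroup (Fin d → ℤ)} (hi0 : Γ.index ≠ 0)
    (hi : Γ.index ≤ 2 ^ (T + 1)) {R : ℝ} (hR : 0 ≤ R) {s : Fin d → ℝ} (hs : Pos T s) :
    ∃ F : Finset (Fin d → ℤ), F ⊆ sboxQ R s ∧ (∀ k ∈ F, ∀ k' ∈ F, k - k' ∈ Γ) ∧
      R ^ d / 2 ≤ (F.card : ℝ) := by
  classical
  have hfi : Γ.FiniteIndex := ⟨hi0⟩
  have hfin : Finite ((Fin d → ℤ) ⧸ Γ) := AddSubgroup.finite_quotient_of_finiteIndex
  let _ : Fintype ((Fin d → ℤ) ⧸ Γ) := Fintype.ofFinite _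
  have hcard : Fintype.card ((Fin d → ℤ) ⧸ Γ) = Γ.index := by
    rw [← Nat.card_eq_fintype_card]
    rfl
  obtain ⟨q, -, hq⟩ := Finset.exists_le_card_fiber_of_nsmul_le_card_of_maps_to
    (s := sboxQ R s) (t := (Finset.univ : Finset ((Fin d → ℤ) ⧸ Γ)))
    (f := fun k => (QuotientAddGroup.mk k : (Fin d → ℤ) ⧸ Γ)) (b := R ^ d / 2)
    (fun _ _ => Finset.mem_univ _) ⟨QuotientAddGroup.mk 0, Finset.mem_univ _⟩ (by
      rw [Finset.card_univ, hcard, nsmul_eq_mul]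
      refine le_trans ?_ (card_sboxQ hR hs)
      have h1 : ((Γ.index : ℕ) : ℝ) ≤ 2 ^ (T + 1) := by exact_mod_cast hi
      have h2 : (2 : ℝ) ^ (T : ℝ) = 2 ^ T := Real.rpow_natCast 2 T
      rw [h2]
      calc ((Γ.index : ℕ) : ℝ) * (R ^ d / 2) ≤ 2 ^ (T + 1) * (R ^ d / 2) := by gcongr
        _ = R ^ d * 2 ^ T := by ring)
  refine ⟨_, Finset.filter_subset _ _, fun k hk k' hk' => ?_, hq⟩
  have h1 := (Finset.mem_filter.1 hk).2
  have h2 := (Finset.mem_filter.1 hk').2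
  have h3 : (QuotientAddGroup.mk k' : (Fin d → ℤ) ⧸ Γ) = QuotientAddGroup.mk k := h2.trans h1.symm
  rw [QuotientAddGroup.eq] at h3
  rwa [neg_add_eq_sub] at h3

/-- counting on a hyperplane -/
private theorem spn_count (hd : 1 ≤ d) {Γ : AddSubgroup (Fin d → ℤ)} {ρ : ℝ} (hρ : 0 < ρ)
    (hρ1 : ρ ≤ 1) {R : ℝ} (hR : 1 ≤ R) {s : Fin d → ℝ} (h : Sys ρ s Γ)
    (F : Finset (Fin d → ℤ)) (hF : F ⊆ sboxQ R s) (hΓ : ∀ k ∈ F, ∀ k' ∈ F, k - k' ∈ Γ)
    (ξ : Fin d → ℝ) (hξ : ξ ≠ 0)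
    (hker : ∀ k ∈ F, ∀ k' ∈ F, ∑ j, ξ j * (((k - k') j : ℤ) : ℝ) = 0) :
    (F.card : ℝ) ≤ (2 * R * d / ρ) ^ (d - 1) := by
  classical
  have hne : (Finset.univ : Finset (Fin d)).Nonempty := ⟨⟨0, hd⟩, Finset.mem_univ _⟩
  obtain ⟨i, -, hi⟩ := Finset.exists_max_image Finset.univ
    (fun j => |ξ j * (2 : ℝ) ^ (s j)|) hne
  have hipos : 0 < |ξ i * (2 : ℝ) ^ (s i)| := by
    obtain ⟨j, hj⟩ : ∃ j, ξ j ≠ 0 := by
      by_contra hc
      apply hξ
      funext j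
      by_contra hj
      exact hc ⟨j, hj⟩
    refine lt_of_lt_of_le ?_ (hi j (Finset.mem_univ _))
    exact abs_pos.2 (mul_ne_zero hj (by positivity))
  have hd0 : (0 : ℝ) < d := by exact_mod_cast hd
  have hM : 0 ≤ R * d / ρ := by positivity
  let G : (Fin d → ℤ) → (Fin d → ℤ) := fun k j =>
    if j = i then 0 else ⌊(k j : ℝ) * (2 : ℝ) ^ (-s j) * (d / ρ)⌋
  have hmaps : ∀ k ∈ F, G k ∈ Fintype.piFinset
      (fun j => if j = i then ({0} : Finset ℤ) else Finset.Icc 0 ⌊R * d / ρ⌋) := by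
    intro k hk
    rw [Fintype.mem_piFinset]
    intro j
    by_cases hj : j = i
    · simp [G, hj]
    · simp only [G, hj, if_false]
      have hkj := mem_sboxQ.1 (hF hk) j
      have hk0 : (0 : ℝ) ≤ (k j : ℝ) := by exact_mod_cast hkj.1
      rw [Finset.mem_Icc]
      refine ⟨Int.floor_nonneg.2 (by positivity), Int.floor_le_floor ?_⟩
      have h1 : (k j : ℝ) * (2 : ℝ) ^ (-s j) ≤ R := by
        rw [Real.rpow_neg (by norm_num), ← div_eq_mul_inv, div_le_iff₀ (by positivity)]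
        exact hkj.2
      calc (k j : ℝ) * (2 : ℝ) ^ (-s j) * (d / ρ) ≤ R * (d / ρ) :=
            mul_le_mul_of_nonneg_right h1 (by positivity)
        _ = R * d / ρ := by ring
  have hinj : Set.InjOn G F := by
    intro k hk k' hk' hG
    by_contra hne'
    have hD0 : k - k' ≠ 0 := sub_ne_zero.2 hne'
    obtain ⟨j0, hj0⟩ := h _ (hΓ k hk k' hk') hD0
    -- the rescaled difference
    have hy : ∀ j, j ≠ i → |(((k - k') j : ℤ) : ℝ)| < ρ / d * (2 : ℝ) ^ (s j) := by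
      intro j hj
      have h1 := congrFun hG j
      simp only [G, hj, if_false] at h1
      have h2 := Int.abs_sub_lt_one_of_floor_eq_floor h1
      have h3 : (k j : ℝ) * (2 : ℝ) ^ (-s j) * (d / ρ) - (k' j : ℝ) * (2 : ℝ) ^ (-s j) * (d / ρ) =
          (((k - k') j : ℤ) : ℝ) * ((2 : ℝ) ^ (-s j) * (d / ρ)) := by
        rw [Pi.sub_apply]
        push_cast
        ring
      rw [h3, abs_mul, abs_of_pos (show (0 : ℝ) < (2 : ℝ) ^ (-s j) * (d / ρ) by positivity),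
        Real.rpow_neg (by norm_num)] at h2
      have h4 : (0 : ℝ) < (2 : ℝ) ^ (s j) := by positivity
      rw [← lt_div_iff₀ (by positivity)] at h2
      refine h2.trans_eq ?_
      field_simp
    have hyi : |(((k - k') i : ℤ) : ℝ)| * (2 : ℝ) ^ (-s i) ≤
        ∑ j ∈ Finset.univ.erase i, |(((k - k') j : ℤ) : ℝ)| * (2 : ℝ) ^ (-s j) := by
      have h1 := hker k hk k' hk'
      rw [← Finset.add_sum_erase _ _ (Finset.mem_univ i)] at h1
      have h2 : |ξ i * (2 : ℝ) ^ (s i)| * (|(((k - k') i : ℤ) : ℝ)| * (2 : ℝ) ^ (-s i)) ≤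
          |ξ i * (2 : ℝ) ^ (s i)| *
          ∑ j ∈ Finset.univ.erase i, |(((k - k') j : ℤ) : ℝ)| * (2 : ℝ) ^ (-s j) := by
        have e1 : |ξ i * (2 : ℝ) ^ (s i)| * (|(((k - k') i : ℤ) : ℝ)| * (2 : ℝ) ^ (-s i)) =
            |ξ i * (((k - k') i : ℤ) : ℝ)| := by
          rw [abs_mul, abs_mul, abs_of_pos (show (0 : ℝ) < (2 : ℝ) ^ (s i) by positivity),
            Real.rpow_neg (by norm_num)]
          have : (2 : ℝ) ^ (s i) ≠ 0 := by positivity
          field_simp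
        have e2 : ξ i * (((k - k') i : ℤ) : ℝ) =
            -∑ j ∈ Finset.univ.erase i, ξ j * (((k - k') j : ℤ) : ℝ) := by linarith
        rw [e1, e2, abs_neg, Finset.mul_sum]
        refine (Finset.abs_sum_le_sum_abs _ _).trans (Finset.sum_le_sum fun j _ => ?_)
        have e3 : |ξ j * (((k - k') j : ℤ) : ℝ)| =
            |ξ j * (2 : ℝ) ^ (s j)| * (|(((k - k') j : ℤ) : ℝ)| * (2 : ℝ) ^ (-s j)) := by
          rw [abs_mul, abs_mul, abs_of_pos (show (0 : ℝ) < (2 : ℝ) ^ (s j) by positivity),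
            Real.rpow_neg (by norm_num)]
          have : (2 : ℝ) ^ (s j) ≠ 0 := by positivity
          field_simp
        rw [e3]
        exact mul_le_mul_of_nonneg_right (hi j (Finset.mem_univ _)) (by positivity)
      exact le_of_mul_le_mul_left h2 hipos
    have hyi2 : |(((k - k') i : ℤ) : ℝ)| * (2 : ℝ) ^ (-s i) < ρ := by
      refine lt_of_le_of_lt (hyi.trans (Finset.sum_le_sum (g := fun _ => ρ / d) fun j hj => ?_)) ?_
      · have h1 := hy j (Finset.ne_of_mem_erase hj)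
        rw [Real.rpow_neg (by norm_num), ← div_eq_mul_inv, div_le_iff₀ (by positivity)]
        exact h1.le
      · rw [Finset.sum_const, Finset.card_erase_of_mem (Finset.mem_univ _), Finset.card_univ,
          Fintype.card_fin, nsmul_eq_mul, Nat.cast_sub hd, Nat.cast_one]
        rw [mul_div_assoc', div_lt_iff₀ hd0]
        nlinarith
    by_cases hji : j0 = i
    · subst hji
      rw [Real.rpow_neg (by norm_num), ← div_eq_mul_inv, div_lt_iff₀ (by positivity)] at hyi2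
      exact absurd hj0 (not_le.2 hyi2)
    · have h1 := hy j0 hji
      have h2 : ρ / d * (2 : ℝ) ^ (s j0) ≤ ρ * (2 : ℝ) ^ (s j0) := by
        apply mul_le_mul_of_nonneg_right _ (by positivity)
        rw [div_le_iff₀ hd0]
        have : (1 : ℝ) ≤ d := by exact_mod_cast hd
        nlinarith
      exact absurd hj0 (not_le.2 (h1.trans_le h2))
  have hcard := Finset.card_le_card_of_injOn G hmaps hinj
  have hprod : (Fintype.piFinset
      (fun j => if j = i then ({0} : Finset ℤ) else Finset.Icc 0 ⌊R * d / ρ⌋)).card =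
      (Finset.Icc 0 ⌊R * d / ρ⌋).card ^ (d - 1) := by
    rw [Fintype.card_piFinset, ← Finset.mul_prod_erase _ _ (Finset.mem_univ i)]
    simp only [if_true, Finset.card_singleton, one_mul]
    rw [Finset.prod_congr rfl (g := fun _ => (Finset.Icc 0 ⌊R * d / ρ⌋).card) fun j hj => by
      rw [if_neg (Finset.ne_of_mem_erase hj)]]
    rw [Finset.prod_const, Finset.card_erase_of_mem (Finset.mem_univ _), Finset.card_univ,
      Fintype.card_fin]
  rw [hprod] at hcard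
  have h5 : (F.card : ℝ) ≤ ((Finset.Icc 0 ⌊R * d / ρ⌋).card : ℝ) ^ (d - 1) := by
    exact_mod_cast hcard
  refine h5.trans (pow_le_pow_left₀ (by positivity) ?_ _)
  rw [Int.card_Icc]
  have h2 : (0 : ℤ) ≤ ⌊R * d / ρ⌋ := Int.floor_nonneg.2 hM
  rw [spn_toNat_cast h2]
  push_cast
  have h6 : (⌊R * d / ρ⌋ : ℝ) ≤ R * d / ρ := Int.floor_le _
  have h7 : 1 ≤ R * d / ρ := by
    rw [le_div_iff₀ hρ, one_mul]
    have : (1 : ℝ) ≤ d := by exact_mod_cast hd
    nlinarith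
  have h8 : 2 * R * d / ρ = R * d / ρ + R * d / ρ := by ring
  rw [h8]
  linarith

theorem spn_of_sys (hd : 1 ≤ d) {T : ℕ} {Γ : AddSubgroup (Fin d → ℤ)} (hi0 : Γ.index ≠ 0)
    (hi : Γ.index ≤ 2 ^ (T + 1)) {ρ : ℝ} (hρ : 0 < ρ) (hρ1 : ρ ≤ 1) {s : Fin d → ℝ}
    (hs : Pos T s) (h : Sys ρ s Γ) : Spn ((4 * d / ρ) ^ d) s Γ := by
  classical
  have hd1 : (1 : ℝ) ≤ d := by exact_mod_cast hd
  have hb : 1 ≤ 4 * (d : ℝ) / ρ := by
    rw [le_div_iff₀ hρ, one_mul]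
    linarith
  obtain ⟨R, hRdef⟩ : ∃ R : ℝ, R = (4 * d / ρ) ^ d := ⟨_, rfl⟩
  have hR1 : 1 ≤ R := by rw [hRdef]; exact one_le_pow₀ hb
  rw [← hRdef]
  obtain ⟨F, hF, hΓ, hcard⟩ := spn_fiber hi0 hi (zero_le_one.trans hR1) hs
  have hFne : F.Nonempty := by
    rw [← Finset.card_pos]
    have : (0 : ℝ) < F.card := lt_of_lt_of_le (by positivity) hcard
    exact_mod_cast this
  obtain ⟨k0, hk0⟩ := hFne
  -- the set of the real vectors
  obtain ⟨S, hS⟩ : ∃ S : Set (Fin d → ℝ), S = (fun k => rv (k - k0)) '' (F : Set (Fin d → ℤ)) :=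
    ⟨_, rfl⟩
  have hspan : Submodule.span ℝ S = ⊤ := by
    by_contra hne
    obtain ⟨f, hf0, hf⟩ := Submodule.exists_le_ker_of_lt_top _ (lt_top_iff_ne_top.2 hne)
    obtain ⟨ξ, hξ⟩ : ∃ ξ : Fin d → ℝ, ξ = fun j => f (Pi.single j 1) := ⟨_, rfl⟩
    have hfx : ∀ x, f x = ∑ j, ξ j * x j := by
      intro x
      rw [LinearMap.pi_apply_eq_sum_univ f x, hξ]
      refine Finset.sum_congr rfl fun j _ => ?_
      rw [smul_eq_mul, mul_comm]
      congr 2
      funext l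
      simp [Pi.single_apply, eq_comm]
    have hξ0 : ξ ≠ 0 := by
      intro h0
      apply hf0
      ext x
      rw [LinearMap.comp_apply, hfx, h0]
      simp
    have hker0 : ∀ k ∈ F, f (rv (k - k0)) = 0 := fun k hk => by
      have : rv (k - k0) ∈ Submodule.span ℝ S := by
        apply Submodule.subset_span
        rw [hS]
        exact ⟨k, hk, rfl⟩
      exact LinearMap.mem_ker.1 (hf this)
    have hker : ∀ k ∈ F, ∀ k' ∈ F, ∑ j, ξ j * (((k - k') j : ℤ) : ℝ) = 0 := by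
      intro k hk k' hk'
      have e1 : rv (k - k') = rv (k - k0) - rv (k' - k0) := by
        funext j
        simp [rv]
      have e2 : f (rv (k - k')) = 0 := by
        rw [e1, map_sub, hker0 k hk, hker0 k' hk', sub_zero]
      rw [hfx] at e2
      exact e2
    have h1 := spn_count hd hρ hρ1 hR1 h F hF hΓ ξ hξ0 hker
    have h2 : R ^ d / 2 ≤ (2 * R * d / ρ) ^ (d - 1) := hcard.trans h1
    obtain ⟨e, rfl⟩ : ∃ e, d = e + 1 := ⟨d - 1, by omega⟩
    rw [Nat.add_sub_cancel] at h2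
    have h3 : (2 * R * ((e + 1 : ℕ) : ℝ) / ρ) ^ e = R ^ e * (2 * ((e + 1 : ℕ) : ℝ) / ρ) ^ e := by
      rw [← mul_pow]
      congr 1
      ring
    rw [h3, pow_succ] at h2
    have h4 : R / 2 ≤ (2 * ((e + 1 : ℕ) : ℝ) / ρ) ^ e := by
      have : R ^ e * (R / 2) ≤ R ^ e * (2 * ((e + 1 : ℕ) : ℝ) / ρ) ^ e := by
        calc R ^ e * (R / 2) = R ^ e * R / 2 := by ring
          _ ≤ _ := h2
      exact le_of_mul_le_mul_left this (by positivity)
    have h5 : (2 * ((e + 1 : ℕ) : ℝ) / ρ) ^ e ≤ (4 * ((e + 1 : ℕ) : ℝ) / ρ) ^ e := by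
      apply pow_le_pow_left₀ (by positivity)
      gcongr
      norm_num
    have h6 : R = (4 * ((e + 1 : ℕ) : ℝ) / ρ) ^ e * (4 * ((e + 1 : ℕ) : ℝ) / ρ) := by
      rw [hRdef, pow_succ]
    have h7 : (4 : ℝ) ≤ 4 * ((e + 1 : ℕ) : ℝ) / ρ := by
      rw [le_div_iff₀ hρ]
      nlinarith
    have h8 : (0 : ℝ) < (4 * ((e + 1 : ℕ) : ℝ) / ρ) ^ e := by positivity
    nlinarith
  obtain ⟨b, hbS, hbspan, hbli⟩ := exists_linearIndependent ℝ S
  rw [hspan] at hbspan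
  let bas : Module.Basis b ℝ (Fin d → ℝ) := Module.Basis.mk hbli (by
    rw [Subtype.range_coe_subtype, Set.ofPred_mem_eq, hbspan])
  let e := bas.indexEquiv (Pi.basisFun ℝ (Fin d))
  have hpre : ∀ i : Fin d, ∃ k ∈ F, rv (k - k0) = ((e.symm i : b) : Fin d → ℝ) := by
    intro i
    have h1 := hbS (e.symm i).2
    rw [hS] at h1
    obtain ⟨k, hk, hk2⟩ := h1
    exact ⟨k, hk, hk2⟩
  choose v hv hv2 using hpre
  refine ⟨fun i => v i - k0, fun i => hΓ _ (hv i) _ hk0, ?_, fun i j => ?_⟩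
  · have h1 : (fun i j => (((v i - k0) j : ℤ) : ℝ)) = fun i => ((e.symm i : b) : Fin d → ℝ) := by
      funext i
      exact hv2 i
    rw [h1]
    exact hbli.comp _ e.symm.injective
  · have h1 := mem_sboxQ.1 (hF (hv i)) j
    have h2 := mem_sboxQ.1 (hF hk0) j
    have h3 : (0 : ℝ) ≤ (v i j : ℝ) := by exact_mod_cast h1.1
    have h4 : (0 : ℝ) ≤ (k0 j : ℝ) := by exact_mod_cast h2.1
    change |(((v i - k0) j : ℤ) : ℝ)| ≤ _
    rw [Pi.sub_apply, Int.cast_sub, abs_le]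
    constructor
    · linarith [h2.2]
    · linarith [h1.2]

end Pool.Agent.Lib.P51n
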