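import Pool.Agent.Lib.P51n.ATransfer
import Pool.Agent.Lib.P51n.BInt
import Pool.Agent.Lib.P51n.MSigma
import Pool.Agent.Lib.P51n.MCount
import Pool.Agent.Lib.P51n.BadPos
import Pool.Agent.Lib.P51n.SpnOf

/-!
# P51n.Main

There are no optimal families for `d ≥ 3`.
-/

set_option autoImplicit false

noncomputable section

namespace Pool.Agent.Lib.P51n

theorem vv_sum {d : ℕ} {i₁ i₂ i₃ : Fin d} (h12 : i₁ ≠ i₂) (h23 : i₂ ≠ i₃) (h13 : i₁ ≠ i₃)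
    (x y : ℝ) : ∑ l, vv i₁ i₂ i₃ x y l = 0 := by
  have e : ∀ l, vv i₁ i₂ i₃ x y l = (if l = i₁ then -(2 * x + y) / 3 else 0) +
      ((if l = i₂ then (x - y) / 3 else 0) + (if l = i₃ then (x + 2 * y) / 3 else 0)) := by
    intro l
    unfold vv
    by_cases h1 : l = i₁
    · subst h1; simp [h12, h13]
    · by_cases h2 : l = i₂
      · subst h2; simp [h1, h23]
      · simp [h1, h2]
  simp only [e, Finset.sum_add_distrib, Finset.sum_ite_eq', Finset.mem_univ, if_true]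
  ring

theorem vv_lower {d : ℕ} (i₁ i₂ i₃ : Fin d) {x y B : ℝ} (hx : 0 ≤ x) (hxB : x ≤ B)
    (hy : 0 ≤ y) (hyB : y ≤ B) (l : Fin d) : -B ≤ vv i₁ i₂ i₃ x y l := by
  unfold vv
  split_ifs <;> linarith

open Classical in
/-- There are no optimal families. -/
theorem no_family (d : ℕ) (hd : 3 ≤ d) (C : ℝ) (hC : 1 ≤ C) (T₀ : ℕ)
    (G : ℕ → Finset (AddSubgroup (Fin d → ℤ))) (hG : ∀ T, T₀ ≤ T → Fam T C (G T)) : False := by
  have hd1 : 1 ≤ d := by omega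
  obtain ⟨A, F, hF, htr⟩ := transfer d hd1 C hC T₀ G hG
  obtain ⟨i₁, i₂, i₃, h12, h23, h13, c₂, δ, η, hc₂, hδ, hη, hpl⟩ := exists_int_place d hd F hF
  obtain ⟨k₀, c₄, hc₄, hc₄1, hkey⟩ := key_sigma d hd C hC A (min c₂ 1) (by positivity)
    (min_le_right _ _)
  obtain ⟨ρ, hρ, hρ1, hbad⟩ := bad_positions d hd1 C hC (δ₀ := c₄ * δ / 4) (by positivity)
  obtain ⟨R', hR'⟩ : ∃ R' : ℝ, R' = (4 * d / ρ) ^ d := ⟨_, rfl⟩
  have hR'0 : 0 ≤ R' := by rw [hR']; positivity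
  obtain ⟨R, hRdef⟩ : ∃ R : ℝ, R = 4 * d * R' + 1 := ⟨_, rfl⟩
  have hR1 : 1 ≤ R := by
    rw [hRdef]
    have : 0 ≤ 4 * (d : ℝ) * R' := by positivity
    linarith
  have hR0 : 0 < R := by linarith
  obtain ⟨C₁, J₀, hC₁, hev⟩ := event_count d R hR1
  obtain ⟨J, hJ, hJJ⟩ : ∃ J : ℕ, J₀ ≤ J ∧ C₁ * C < ((J : ℝ) - J₀) * (c₄ / (800 * R)) * δ := by
    obtain ⟨n, hn⟩ := exists_nat_gt (C₁ * C / (c₄ / (800 * R) * δ))
    refine ⟨J₀ + n, by omega, ?_⟩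
    rw [div_lt_iff₀ (by positivity)] at hn
    push_cast
    calc C₁ * C < n * (c₄ / (800 * R) * δ) := hn
      _ = _ := by ring
  obtain ⟨k₁, hkey⟩ := hkey R R' hR'0 hR1 (by rw [hRdef]; linarith) J
  obtain ⟨L, ε, hε, hL, hkey⟩ := hkey (c₄ / (1600 * R) / 2 ^ (J + (k₁ + 2 * k₀ + 3)))
    (by positivity)
  obtain ⟨k₂, hk₂⟩ : ∃ k₂ : ℕ, (1 / 2 : ℝ) ^ k₂ < η / 8 :=
    exists_pow_lt_of_lt_one (by positivity) (by norm_num)
  obtain ⟨k, hk, T₂, hpl⟩ := hpl (ε / 4) (by positivity) k₂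
  have hlam0 : (0 : ℝ) < (1 / 2 : ℝ) ^ k := by positivity
  have hlam1 : (1 / 2 : ℝ) ^ k ≤ 1 := pow_le_one₀ (by norm_num) (by norm_num)
  have hlamη : (1 / 2 : ℝ) ^ k ≤ η / 8 :=
    (pow_le_pow_of_le_one (by norm_num) (by norm_num) hk).trans hk₂.le
  obtain ⟨ε'', T₁, hε'', hkey⟩ := hkey ((1 / 2 : ℝ) ^ k) hlam0 hlam1
  obtain ⟨T₃, hT₃⟩ := exists_nat_ge ((k₁ : ℝ) / (c₄ / 4 * (1 / 2 : ℝ) ^ k))
  obtain ⟨T, hT0, hTT, hdvd, q, hq, hqA, Ω, hΩ, hne, hcard, htr⟩ := htr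
    (seven.image fun v => ((1 / 2 : ℝ) ^ k) • ct i₁ i₂ i₃ v.1 v.2.1 v.2.2)
    (by
      intro c hc
      obtain ⟨v, hv, rfl⟩ := Finset.mem_image.1 hc
      refine ⟨(seven_tri h12 h23 h13 hv).smul hlam0.le, fun i j => ?_⟩
      exact mul_nonneg hlam0.le (seven_nonneg _ _ _ hv i j))
    ε'' hε'' (max (max T₁ T₂) (max T₃ (2 ^ k))) (2 ^ k) (Nat.one_le_two_pow)
  have hTT₁ : T₁ ≤ T := (le_max_left _ _).trans ((le_max_left _ _).trans hTT)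
  have hTT₂ : T₂ ≤ T := (le_max_right _ _).trans ((le_max_left _ _).trans hTT)
  have hTT₃ : T₃ ≤ T := (le_max_left _ _).trans ((le_max_right _ _).trans hTT)
  have hTT₄ : 2 ^ k ≤ T := (le_max_right _ _).trans ((le_max_right _ _).trans hTT)
  have hT1 : 1 ≤ T := Nat.one_le_two_pow.trans hTT₄
  have hTpos : (0 : ℝ) < T := by exact_mod_cast (by omega : 0 < T)
  have hFam := hG T hT0
  obtain ⟨N, hN⟩ := hdvd
  have hNr : (N : ℝ) = (1 / 2 : ℝ) ^ k * T := by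
    rw [hN]; push_cast
    rw [← mul_assoc, ← mul_pow]; norm_num
  have hNpos : 0 < N := by
    rcases Nat.eq_zero_or_pos N with h | h
    · rw [h, mul_zero] at hN; omega
    · exact h
  obtain ⟨P, hPc, hP⟩ := hpl T hTT₂
  have hPne : P.Nonempty := by
    rw [← Finset.card_pos]
    have : (0 : ℝ) < P.card := lt_of_lt_of_le (by positivity) hPc
    exact_mod_cast this
  have hPos : ∀ σ ∈ P, Pos (T : ℝ) (fun j => (σ j : ℝ)) := by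
    intro σ hσ
    obtain ⟨h1, h2, _⟩ := hP σ hσ
    refine ⟨fun j => (by positivity : (0 : ℝ) ≤ η * T).trans (h2 j), ?_⟩
    show ∑ j, (σ j : ℝ) = T
    exact_mod_cast h1
  have hkey' : ∀ σ ∈ P, 3 ≤ q ∧ 8 * q ≤ N ∧ ∃ B : ℕ → ℕ → Finset (AddSubgroup (Fin d → ℤ)),
      (∀ n m, B n m ⊆ Ω) ∧
      c₄ * (N : ℝ) ^ 2 * Ω.card ≤
        ∑ nm ∈ Finset.range N ×ˢ Finset.range N, ((B nm.1 nm.2).card : ℝ) ∧
      (∀ n m, ¬ (n + L ≤ N ∧ m + L ≤ N) → B n m = ∅) ∧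
      ∀ n m, k₁ ≤ n → n + L ≤ N → m + L ≤ N → ∀ j ≤ J,
        (1 / 2 : ℝ) ^ j / (200 * R) *
          (((B n m).filter fun x =>
            Spn R' (spos i₁ i₂ i₃ (fun j => (σ j : ℝ)) n m k₁ q) x).card : ℝ) ≤
        ((Ω.filter fun x => Ev i₁ R j (spos i₁ i₂ i₃ (fun j => (σ j : ℝ)) n m k₁ q) x).card : ℝ) +
          2 ^ (k₁ + 2 * k₀ + 3) * (c₄ / (1600 * R) / 2 ^ (J + (k₁ + 2 * k₀ + 3))) * Ω.card := by
    intro σ hσ
    obtain ⟨h1, h2, h3⟩ := hP σ hσ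
    refine hkey T N q hTT₁ hNr hq hqA (G T) Ω hFam hΩ hne hcard i₁ i₂ i₃ h12 h23 h13 F hF ?_
      (fun j => (σ j : ℝ)) (hPos σ hσ) ?_
    · intro s hs v hv
      exact htr s hs _ (Finset.mem_image_of_mem _ hv)
    · refine ⟨?_, ?_, h3.ind₁, h3.ind₂⟩
      · exact (mul_le_mul_of_nonneg_right (min_le_left _ _) hlam0.le).trans h3.act₁
      · exact (mul_le_mul_of_nonneg_right (min_le_left _ _) hlam0.le).trans h3.act₂
  obtain ⟨σ₀, hσ₀⟩ := hPne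
  have hq3 : 3 ≤ q := (hkey' σ₀ hσ₀).1
  have hqN : 8 * q ≤ N := (hkey' σ₀ hσ₀).2.1
  -- choose the sets
  have hkey'' : ∀ σ : Fin d → ℤ, ∃ B : ℕ → ℕ → Finset (AddSubgroup (Fin d → ℤ)), σ ∈ P →
      (∀ n m, B n m ⊆ Ω) ∧
      c₄ * (N : ℝ) ^ 2 * Ω.card ≤
        ∑ nm ∈ Finset.range N ×ˢ Finset.range N, ((B nm.1 nm.2).card : ℝ) ∧
      (∀ n m, ¬ (n + L ≤ N ∧ m + L ≤ N) → B n m = ∅) ∧
      ∀ n m, k₁ ≤ n → n + L ≤ N → m + L ≤ N → ∀ j ≤ J,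
        (1 / 2 : ℝ) ^ j / (200 * R) *
          (((B n m).filter fun x =>
            Spn R' (spos i₁ i₂ i₃ (fun j => (σ j : ℝ)) n m k₁ q) x).card : ℝ) ≤
        ((Ω.filter fun x => Ev i₁ R j (spos i₁ i₂ i₃ (fun j => (σ j : ℝ)) n m k₁ q) x).card : ℝ) +
          2 ^ (k₁ + 2 * k₀ + 3) * (c₄ / (1600 * R) / 2 ^ (J + (k₁ + 2 * k₀ + 3))) * Ω.card := by
    intro σ
    by_cases hσ : σ ∈ P
    · obtain ⟨-, -, B, hB⟩ := hkey' σ hσ
      exact ⟨B, fun _ => hB⟩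
    · exact ⟨fun _ _ => ∅, fun h => absurd h hσ⟩
  choose B hB using hkey''
  have hv : ∀ n m : ℕ, ∑ l, vv i₁ i₂ i₃ ((n : ℝ) - k₁ + (q - 3)) ((m : ℝ) + (q - 3)) l = 0 :=
    fun n m => vv_sum h12 h23 h13 _ _
  have hnn : ∀ σ ∈ P, ∀ n m : ℕ, k₁ ≤ n → n + L ≤ N → m + L ≤ N → ∀ j,
      0 ≤ (σ j : ℝ) + vv i₁ i₂ i₃ ((n : ℝ) - k₁ + (q - 3)) ((m : ℝ) + (q - 3)) j := by
    intro σ hσ n m hn hnL hmL j
    have hq3' : (3 : ℝ) ≤ q := by exact_mod_cast hq3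
    have hqN' : 8 * (q : ℝ) ≤ N := by exact_mod_cast hqN
    have hn' : (k₁ : ℝ) ≤ n := by exact_mod_cast hn
    have hnN : (n : ℝ) ≤ N := by exact_mod_cast (by omega : n ≤ N)
    have hmN : (m : ℝ) ≤ N := by exact_mod_cast (by omega : m ≤ N)
    have hk₁0 : (0 : ℝ) ≤ k₁ := Nat.cast_nonneg _
    have hm0 : (0 : ℝ) ≤ m := Nat.cast_nonneg _
    have h1 := vv_lower i₁ i₂ i₃ (x := (n : ℝ) - k₁ + (q - 3)) (y := (m : ℝ) + (q - 3))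
      (B := N + q) (by linarith) (by linarith) (by linarith) (by linarith) j
    have h2 := (hP σ hσ).2.1 j
    have h3 : (N : ℝ) ≤ η / 8 * T := by
      rw [hNr]; exact mul_le_mul_of_nonneg_right hlamη hTpos.le
    have h4 : 0 ≤ η * T := by positivity
    linarith
  have hfin := final_count Ω P N k₁ L J₀ J B
    (fun σ n m x => Spn R' (spos i₁ i₂ i₃ (fun j => (σ j : ℝ)) n m k₁ q) x)
    (fun j σ n m x => Ev i₁ R j (spos i₁ i₂ i₃ (fun j => (σ j : ℝ)) n m k₁ q) x)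
    c₄ R (2 ^ (k₁ + 2 * k₀ + 3) * (c₄ / (1600 * R) / 2 ^ (J + (k₁ + 2 * k₀ + 3))))
    (C₁ * (C * (T : ℝ) ^ (d - 1))) hc₄ hR1 (by positivity) (by positivity) hne hNpos
    (fun σ hσ => (hB σ hσ).1) (fun σ hσ => (hB σ hσ).2.1) (fun σ hσ => (hB σ hσ).2.2.1)
    (fun σ hσ => (hB σ hσ).2.2.2) ?_ ?_ ?_ ?_ hJ
  · have h1 : ((J : ℝ) - J₀) * (c₄ / (800 * R)) * (δ * (T : ℝ) ^ (d - 1)) ≤
        C₁ * (C * (T : ℝ) ^ (d - 1)) := by
      refine le_trans (mul_le_mul_of_nonneg_left hPc ?_) hfin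
      have : (J₀ : ℝ) ≤ J := by exact_mod_cast hJ
      exact mul_nonneg (by linarith) (by positivity)
    have h2 : (0 : ℝ) < (T : ℝ) ^ (d - 1) := by positivity
    have h3 := mul_lt_mul_of_pos_right hJJ h2
    linarith
  · intro x hx n m hn hnL hmL
    have hgood := hFam.good x (hΩ hx)
    have h1 := hbad T hT1 x hgood (vv i₁ i₂ i₃ ((n : ℝ) - k₁ + (q - 3)) ((m : ℝ) + (q - 3)))
      (hv n m) P (fun σ hσ => ⟨(hP σ hσ).1, hnn σ hσ n m hn hnL hmL⟩)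
    have h2 : (P.filter fun σ => ¬ Spn R' (spos i₁ i₂ i₃ (fun j => (σ j : ℝ)) n m k₁ q) x).card ≤
        (P.filter fun σ => ¬ Sys ρ (fun j => (σ j : ℝ) +
          vv i₁ i₂ i₃ ((n : ℝ) - k₁ + (q - 3)) ((m : ℝ) + (q - 3)) j) x).card := by
      apply Finset.card_le_card
      intro σ hσ
      rw [Finset.mem_filter] at hσ ⊢
      refine ⟨hσ.1, fun hsys => hσ.2 ?_⟩
      have hpos : Pos (T : ℝ) (fun j => (σ j : ℝ) +
          vv i₁ i₂ i₃ ((n : ℝ) - k₁ + (q - 3)) ((m : ℝ) + (q - 3)) j) := by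
        refine ⟨hnn σ hσ.1 n m hn hnL hmL, ?_⟩
        rw [Finset.sum_add_distrib, hv n m, add_zero]
        exact (hPos σ hσ.1).2
      have := spn_of_sys hd1 hgood.index_ne hgood.index_le hρ hρ1 hpos hsys
      rw [hR']
      exact this
    have h3 : ((P.filter fun σ =>
        ¬ Spn R' (spos i₁ i₂ i₃ (fun j => (σ j : ℝ)) n m k₁ q) x).card : ℝ) ≤
        c₄ * δ / 4 * (T : ℝ) ^ (d - 1) := le_trans (by exact_mod_cast h2) h1
    refine h3.trans ?_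
    calc c₄ * δ / 4 * (T : ℝ) ^ (d - 1) = c₄ / 4 * (δ * (T : ℝ) ^ (d - 1)) := by ring
      _ ≤ c₄ / 4 * P.card := mul_le_mul_of_nonneg_left hPc (by positivity)
  · intro x hx n m hn hnL hmL
    have hgood := hFam.good x (hΩ hx)
    have h1 := hev T x i₁ (vv i₁ i₂ i₃ ((n : ℝ) - k₁ + (q - 3)) ((m : ℝ) + (q - 3)))
      (hv n m) P (fun σ hσ => (hP σ hσ).1) J
    refine le_trans h1 ?_
    exact mul_le_mul_of_nonneg_left hgood.cost_le hC₁.le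
  · have h1 : (k₁ : ℝ) / (c₄ / 4 * (1 / 2 : ℝ) ^ k) ≤ T := hT₃.trans (by exact_mod_cast hTT₃)
    rw [div_le_iff₀ (by positivity)] at h1
    rw [hNr]
    linarith
  · apply le_of_eq
    field_simp
    ring

end Pool.Agent.Lib.P51n
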