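import Pool.Agent.Lib.P51n.Defs

/-!
# P51n.NearBasic  (about 1.2 h)

Composition and inversion of displacements.

For a matrix `E` and a shape `c` put `‖E‖_c = max |E_ij| 2^{c_ij}`; the triangle inequality
`c_ik ≤ c_ij + c_jk` gives `‖E E'‖_c ≤ d ‖E‖_c ‖E'‖_c` (each of the `d` terms
`|E_ij E'_jk| ≤ κ κ' 2^{-c_ij-c_jk} ≤ κ κ' 2^{-c_ik}`).  `(1+E)(1+E') = 1 + E + E' + E E'`.

`NearOne.isUnit`: conjugating by `diag(2^{s_i})` gives a matrix with entries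
`|ĥ_ij| = |h_ij| 2^{s_j - s_i} ≤ κ` off the diagonal (as `c ≥ c_s`) and `|ĥ_ii - 1| ≤ κ`, so it is
strictly diagonally dominant (`det_ne_zero_of_sum_row_lt_diag`), and the determinants agree.

`NearOne.inv`: `E' = h⁻¹ - 1 = -E - E E'` (from `h h⁻¹ = 1`), hence
`‖E'‖_c ≤ κ + d κ ‖E'‖_c`, and `‖E'‖_c ≤ κ / (1 - dκ) ≤ 2κ`.
-/

set_option autoImplicit false

noncomputable section

namespace Pool.Agent.Lib.P51n

variable {d : ℕ}

theorem Disp.one (Γ : AddSubgroup (Fin d → ℤ)) : Disp (1 : Matrix (Fin d) (Fin d) ℝ) Γ Γ :=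
  ⟨fun k hk => ⟨k, hk, Matrix.one_mulVec _⟩, fun k hk => ⟨k, hk, Matrix.one_mulVec _⟩⟩

theorem Disp.mul {h h' : Matrix (Fin d) (Fin d) ℝ} {Γ Γ' Γ'' : AddSubgroup (Fin d → ℤ)}
    (h1 : Disp h Γ Γ') (h2 : Disp h' Γ' Γ'') : Disp (h' * h) Γ Γ'' := by
  constructor
  · intro k hk
    obtain ⟨k', hk', e1⟩ := h1.1 k hk
    obtain ⟨k'', hk'', e2⟩ := h2.1 k' hk'
    exact ⟨k'', hk'', by rw [← Matrix.mulVec_mulVec, e1, e2]⟩
  · intro k'' hk''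
    obtain ⟨k', hk', e2⟩ := h2.2 k'' hk''
    obtain ⟨k, hk, e1⟩ := h1.2 k' hk'
    exact ⟨k, hk, by rw [← Matrix.mulVec_mulVec, e1, e2]⟩

theorem Disp.inv {h : Matrix (Fin d) (Fin d) ℝ} {Γ Γ' : AddSubgroup (Fin d → ℤ)}
    (h1 : Disp h Γ Γ') (hu : IsUnit h.det) : Disp h⁻¹ Γ' Γ := by
  have key : ∀ k k' : Fin d → ℤ, h.mulVec (rv k) = rv k' → h⁻¹.mulVec (rv k') = rv k := by
    intro k k' e
    rw [← e, Matrix.mulVec_mulVec, Matrix.nonsing_inv_mul h hu, Matrix.one_mulVec]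
  constructor
  · intro k' hk'
    obtain ⟨k, hk, e⟩ := h1.2 k' hk'
    exact ⟨k, hk, key k k' e⟩
  · intro k hk
    obtain ⟨k', hk', e⟩ := h1.1 k hk
    exact ⟨k', hk', key k k' e⟩

theorem nb_pow_pos (x : ℝ) : 0 < (2 : ℝ) ^ x := Real.rpow_pos_of_pos (by norm_num) _

theorem nb_pow_mono {x y : ℝ} (h : x ≤ y) : (2 : ℝ) ^ x ≤ (2 : ℝ) ^ y :=
  Real.rpow_le_rpow_of_exponent_le (by norm_num) h

theorem NearOne.mono {κ κ' : ℝ} {c c' : Fin d → Fin d → ℝ} {h : Matrix (Fin d) (Fin d) ℝ}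
    (h1 : NearOne κ c h) (hκ : κ ≤ κ') (hκ' : 0 ≤ κ') (hc : ∀ i j, c' i j ≤ c i j) :
    NearOne κ' c' h := by
  intro i j
  calc |h i j - (1 : Matrix (Fin d) (Fin d) ℝ) i j| ≤ κ * (2 : ℝ) ^ (-c i j) := h1 i j
    _ ≤ κ' * (2 : ℝ) ^ (-c i j) := mul_le_mul_of_nonneg_right hκ (nb_pow_pos _).le
    _ ≤ κ' * (2 : ℝ) ^ (-c' i j) :=
        mul_le_mul_of_nonneg_left (nb_pow_mono (neg_le_neg (hc i j))) hκ' 

theorem NearOne.one {κ : ℝ} (hκ : 0 ≤ κ) (c : Fin d → Fin d → ℝ) :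
    NearOne κ c (1 : Matrix (Fin d) (Fin d) ℝ) := by
  intro i j
  rw [sub_self, abs_zero]
  exact mul_nonneg hκ (nb_pow_pos _).le

/-- the sum over the middle index -/
theorem nb_sum_mid {κ κ' : ℝ} (hκ : 0 ≤ κ) (hκ' : 0 ≤ κ') {c : Fin d → Fin d → ℝ} (hc : Tri c)
    {E E' : Matrix (Fin d) (Fin d) ℝ} (h1 : ∀ i j, |E i j| ≤ κ * (2 : ℝ) ^ (-c i j))
    (h2 : ∀ i j, |E' i j| ≤ κ' * (2 : ℝ) ^ (-c i j)) (i k : Fin d) :
    |(E * E') i k| ≤ d * (κ * κ') * (2 : ℝ) ^ (-c i k) := by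
  rw [Matrix.mul_apply]
  calc |∑ j, E i j * E' j k| ≤ ∑ j, |E i j * E' j k| := Finset.abs_sum_le_sum_abs _ _
    _ ≤ ∑ _j : Fin d, (κ * κ') * (2 : ℝ) ^ (-c i k) := by
        apply Finset.sum_le_sum
        intro j _
        rw [abs_mul]
        calc |E i j| * |E' j k| ≤ (κ * (2 : ℝ) ^ (-c i j)) * (κ' * (2 : ℝ) ^ (-c j k)) :=
              mul_le_mul (h1 i j) (h2 j k) (abs_nonneg _) (mul_nonneg hκ (nb_pow_pos _).le)
          _ = (κ * κ') * (2 : ℝ) ^ (-c i j + -c j k) := by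
              rw [Real.rpow_add (by norm_num)]
              ring
          _ ≤ (κ * κ') * (2 : ℝ) ^ (-c i k) := by
              apply mul_le_mul_of_nonneg_left _ (mul_nonneg hκ hκ')
              apply nb_pow_mono
              have := hc.2 i j k
              linarith
    _ = _ := by
        rw [Finset.sum_const, Finset.card_univ, Fintype.card_fin, nsmul_eq_mul]
        ring

theorem NearOne.mul {κ κ' : ℝ} (hκ : 0 ≤ κ) (hκ' : 0 ≤ κ') {c : Fin d → Fin d → ℝ} (hc : Tri c)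
    {h h' : Matrix (Fin d) (Fin d) ℝ} (h1 : NearOne κ c h) (h2 : NearOne κ' c h') :
    NearOne (κ + κ' + d * (κ * κ')) c (h * h') := by
  intro i k
  have e : h * h' - 1 = (h - 1) + (h' - 1) + (h - 1) * (h' - 1) := by
    rw [sub_mul, mul_sub, one_mul, mul_one]
    abel
  have e' : (h * h') i k - (1 : Matrix (Fin d) (Fin d) ℝ) i k =
      (h i k - (1 : Matrix (Fin d) (Fin d) ℝ) i k) +
      (h' i k - (1 : Matrix (Fin d) (Fin d) ℝ) i k) + ((h - 1) * (h' - 1)) i k := by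
    rw [← Matrix.sub_apply, e]
    rfl
  have h3 := nb_sum_mid hκ hκ' hc (E := h - 1) (E' := h' - 1) h1 h2 i k
  rw [e']
  calc _ ≤ |h i k - (1 : Matrix (Fin d) (Fin d) ℝ) i k| +
        |h' i k - (1 : Matrix (Fin d) (Fin d) ℝ) i k| + |((h - 1) * (h' - 1)) i k| :=
        (abs_add_le _ _).trans (add_le_add (abs_add_le _ _) le_rfl)
    _ ≤ κ * (2 : ℝ) ^ (-c i k) + κ' * (2 : ℝ) ^ (-c i k) +
        d * (κ * κ') * (2 : ℝ) ^ (-c i k) := add_le_add (add_le_add (h1 i k) (h2 i k)) h3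
    _ = _ := by ring

theorem NearOne.isUnit {κ : ℝ} (hκ : 0 ≤ κ) (hκd : 2 * d * κ < 1) {c : Fin d → Fin d → ℝ}
    {s : Fin d → ℝ} (hcs : ∀ i j, cs s i j ≤ c i j) {h : Matrix (Fin d) (Fin d) ℝ}
    (h1 : NearOne κ c h) : IsUnit h.det := by
  set D1 : Matrix (Fin d) (Fin d) ℝ := Matrix.diagonal fun i => (2 : ℝ) ^ (-s i) with hD1
  set D2 : Matrix (Fin d) (Fin d) ℝ := Matrix.diagonal fun i => (2 : ℝ) ^ (s i) with hD2
  set g : Matrix (Fin d) (Fin d) ℝ := D1 * h * D2 with hg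
  have hgij : ∀ i j, g i j = h i j * (2 : ℝ) ^ (s j - s i) := by
    intro i j
    rw [hg, hD2, Matrix.mul_diagonal, hD1, Matrix.diagonal_mul,
      show s j - s i = -s i + s j by ring, Real.rpow_add (by norm_num)]
    ring
  have hgb : ∀ i j, |g i j - (1 : Matrix (Fin d) (Fin d) ℝ) i j| ≤ κ := by
    intro i j
    have e : g i j - (1 : Matrix (Fin d) (Fin d) ℝ) i j =
        (h i j - (1 : Matrix (Fin d) (Fin d) ℝ) i j) * (2 : ℝ) ^ (s j - s i) := by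
      rw [hgij, sub_mul]
      congr 1
      by_cases hij : i = j
      · subst hij
        rw [sub_self, Real.rpow_zero, mul_one]
      · rw [Matrix.one_apply_ne hij, zero_mul]
    rw [e, abs_mul, abs_of_pos (nb_pow_pos _)]
    calc |h i j - (1 : Matrix (Fin d) (Fin d) ℝ) i j| * (2 : ℝ) ^ (s j - s i)
        ≤ (κ * (2 : ℝ) ^ (-c i j)) * (2 : ℝ) ^ (s j - s i) :=
          mul_le_mul_of_nonneg_right (h1 i j) (nb_pow_pos _).le
      _ = κ * (2 : ℝ) ^ (-c i j + (s j - s i)) := by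
          rw [Real.rpow_add (by norm_num)]
          ring
      _ ≤ κ * (2 : ℝ) ^ (0 : ℝ) := by
          apply mul_le_mul_of_nonneg_left _ hκ
          apply nb_pow_mono
          have := hcs i j
          unfold cs at this
          linarith
      _ = κ := by rw [Real.rpow_zero, mul_one]
  have hdet : g.det ≠ 0 := by
    apply det_ne_zero_of_sum_row_lt_diag
    intro i
    have h2 : ∑ j ∈ Finset.univ.erase i, ‖g i j‖ ≤ ∑ _j ∈ Finset.univ.erase i, κ := by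
      apply Finset.sum_le_sum
      intro j hj
      have hij : i ≠ j := fun hh => (Finset.mem_erase.1 hj).1 hh.symm
      have h3 := hgb i j
      rw [Matrix.one_apply_ne hij, sub_zero] at h3
      rwa [Real.norm_eq_abs]
    have hd1 : 1 ≤ d := i.pos
    have h4 : ∑ _j ∈ Finset.univ.erase i, κ = ((d : ℝ) - 1) * κ := by
      rw [Finset.sum_const, Finset.card_erase_of_mem (Finset.mem_univ i), Finset.card_univ,
        Fintype.card_fin, nsmul_eq_mul, Nat.cast_sub hd1, Nat.cast_one]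
    have h5 := hgb i i
    rw [Matrix.one_apply_eq] at h5
    have h6 : 1 - κ ≤ ‖g i i‖ := by
      rw [Real.norm_eq_abs]
      have := (abs_le.1 h5).1
      have := le_abs_self (g i i)
      linarith
    have h7 : (0 : ℝ) ≤ d * κ := by positivity
    calc ∑ j ∈ Finset.univ.erase i, ‖g i j‖ ≤ ((d : ℝ) - 1) * κ := h2.trans h4.le
      _ < 1 - κ := by linarith
      _ ≤ ‖g i i‖ := h6
  rw [isUnit_iff_ne_zero]
  intro h0
  apply hdet
  rw [hg, Matrix.det_mul, Matrix.det_mul, h0]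
  ring

theorem NearOne.inv {κ : ℝ} (hκ : 0 ≤ κ) (hκd : 2 * d * κ < 1) {c : Fin d → Fin d → ℝ}
    (hc : Tri c) {s : Fin d → ℝ} (hcs : ∀ i j, cs s i j ≤ c i j)
    {h : Matrix (Fin d) (Fin d) ℝ} (h1 : NearOne κ c h) : NearOne (2 * κ) c h⁻¹ := by
  have hu := NearOne.isUnit hκ hκd hcs h1
  have e : h⁻¹ - 1 = -(h - 1) - (h - 1) * (h⁻¹ - 1) := by
    have := Matrix.mul_nonsing_inv h hu
    rw [sub_mul, mul_sub, this, one_mul, mul_one]
    abel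
  intro i0 k0
  set f : Fin d × Fin d → ℝ := fun p => |(h⁻¹ - 1) p.1 p.2| * (2 : ℝ) ^ (c p.1 p.2) with hf
  obtain ⟨⟨i, k⟩, _, hmax⟩ := Finset.exists_max_image (Finset.univ : Finset (Fin d × Fin d)) f
    ⟨(i0, k0), Finset.mem_univ _⟩
  set M : ℝ := f (i, k) with hM
  have hM0 : 0 ≤ M := mul_nonneg (abs_nonneg _) (nb_pow_pos _).le
  have hE' : ∀ a b, |(h⁻¹ - 1) a b| ≤ M * (2 : ℝ) ^ (-c a b) := by
    intro a b
    have h2 := hmax (a, b) (Finset.mem_univ _)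
    simp only [hf] at h2
    rw [Real.rpow_neg (by norm_num), ← div_eq_mul_inv, le_div_iff₀ (nb_pow_pos _)]
    exact h2
  have h3 := nb_sum_mid hκ hM0 hc (E := h - 1) (E' := h⁻¹ - 1) h1 hE' i k
  have h4 : |(h⁻¹ - 1) i k| ≤ (κ + d * (κ * M)) * (2 : ℝ) ^ (-c i k) := by
    have e2 : (h⁻¹ - 1) i k = -((h - 1) i k) - ((h - 1) * (h⁻¹ - 1)) i k := by
      conv_lhs => rw [e]
      rfl
    rw [e2]
    calc _ ≤ |-((h - 1) i k)| + |((h - 1) * (h⁻¹ - 1)) i k| := abs_sub _ _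
      _ ≤ κ * (2 : ℝ) ^ (-c i k) + d * (κ * M) * (2 : ℝ) ^ (-c i k) := by
          rw [abs_neg]
          exact add_le_add (h1 i k) h3
      _ = _ := by ring
  have h5 : M ≤ κ + d * (κ * M) := by
    rw [hM]
    simp only [hf]
    rw [Real.rpow_neg (by norm_num), ← div_eq_mul_inv, le_div_iff₀ (nb_pow_pos _)] at h4
    exact h4
  have h6 : M ≤ 2 * κ := by
    have h7 : (2 * d * κ) * M ≤ 1 * M := mul_le_mul_of_nonneg_right hκd.le hM0
    nlinarith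
  calc |h⁻¹ i0 k0 - (1 : Matrix (Fin d) (Fin d) ℝ) i0 k0| ≤ M * (2 : ℝ) ^ (-c i0 k0) := hE' i0 k0
    _ ≤ 2 * κ * (2 : ℝ) ^ (-c i0 k0) := mul_le_mul_of_nonneg_right h6 (nb_pow_pos _).le

theorem Near.refl {κ : ℝ} (hκ : 0 ≤ κ) (c : Fin d → Fin d → ℝ) (Γ : AddSubgroup (Fin d → ℤ)) :
    Near κ c Γ Γ :=
  ⟨1, Disp.one Γ, NearOne.one hκ c⟩

theorem Near.mono {κ κ' : ℝ} {c c' : Fin d → Fin d → ℝ} {Γ Γ' : AddSubgroup (Fin d → ℤ)}
    (h1 : Near κ c Γ Γ') (hκ : κ ≤ κ') (hκ' : 0 ≤ κ') (hc : ∀ i j, c' i j ≤ c i j) :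
    Near κ' c' Γ Γ' := by
  obtain ⟨h, h2, h3⟩ := h1
  exact ⟨h, h2, h3.mono hκ hκ' hc⟩

theorem Near.symm {κ : ℝ} (hκ : 0 ≤ κ) (hκd : 2 * d * κ < 1) {c : Fin d → Fin d → ℝ}
    (hc : Tri c) {s : Fin d → ℝ} (hcs : ∀ i j, cs s i j ≤ c i j)
    {Γ Γ' : AddSubgroup (Fin d → ℤ)} (h1 : Near κ c Γ Γ') : Near (2 * κ) c Γ' Γ := by
  obtain ⟨h, h2, h3⟩ := h1
  exact ⟨h⁻¹, h2.inv (NearOne.isUnit hκ hκd hcs h3), NearOne.inv hκ hκd hc hcs h3⟩

theorem Near.trans {κ κ' : ℝ} (hκ : 0 ≤ κ) (hκ' : 0 ≤ κ') {c : Fin d → Fin d → ℝ} (hc : Tri c)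
    {Γ Γ' Γ'' : AddSubgroup (Fin d → ℤ)} (h1 : Near κ c Γ Γ') (h2 : Near κ' c Γ' Γ'') :
    Near (κ + κ' + d * (κ * κ')) c Γ Γ'' := by
  obtain ⟨h, h3, h4⟩ := h1
  obtain ⟨h', h5, h6⟩ := h2
  refine ⟨h' * h, h3.mul h5, ?_⟩
  have h7 := NearOne.mul hκ' hκ hc h6 h4
  have e : κ + κ' + d * (κ * κ') = κ' + κ + d * (κ' * κ) := by ring
  rw [e]
  exact h7

end Pool.Agent.Lib.P51n
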