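import Pool.Agent.Lib.P51n.Sys
import Pool.Agent.Lib.P51n.SpnOf

/-!
# P51n.NetDesc 

A short description of a good lattice: `Γ` is determined by `d` short linearly independent vectors
`v_i ∈ Γ`, the index `q` of their span `Γ₀` in `Γ`, and a subgroup of `(ℤ/q)^d`.

Proof of `exists_desc`.  `sys_of_good` with `ρ = 1/(2 C T^(d-1))` and `spn_of_sys` give `v` with
`|v_i(j)| ≤ R 2^{s_j}`, `R = (4d/ρ)^d`.  Let `Γ₀ = ∑ ℤ v_i ⊆ Γ`.  `D = |det v|` is the index of
`Γ₀` in `ℤ^d`, so `D = q · index Γ` with `q = [Γ : Γ₀]`; `D ≤ d! R^d 2^T` and `index Γ ≥ 2^T/C`,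
hence `q ≤ C d! R^d` and `|det (v_i(j) 2^{-s_j})| = D 2^{-T} ≥ 1/C` (as `∑ s_j = T`).
For `k ∈ Γ`, `q k ∈ Γ₀`, so `q k = ∑ t_i v_i` with `t ∈ ℤ^d` (unique).
`L = {t : ∑ t_i v_i ∈ q Γ}` is a subgroup of `ℤ^d` containing `q ℤ^d`; it is free of
rank `≤ d`, hence generated by `d` elements (`Submodule.basisOfPid` and friends), which may be
reduced modulo `q`: `L = q ℤ^d + ∑ ℤ g_i`, `0 ≤ g_i(j) < q`.
(`index = |det|`: e.g. `AddSubgroup.index`, `Submodule.natAbs_det_equiv`, `Int.natAbs_det...`, or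
`ZLattice.covolume` / `ZSpan` volume facts; any route is fine.)
-/

set_option autoImplicit false

noncomputable section

namespace Pool.Agent.Lib.P51n

variable {d : ℕ}

/-- A short description of the lattice `Γ` at the position `s`. -/
structure Desc (R D₀ : ℝ) (s : Fin d → ℝ) (Γ : AddSubgroup (Fin d → ℤ))
    (v : Fin d → Fin d → ℤ) (q : ℕ) (g : Fin d → Fin d → ℤ) : Prop where
  bound : ∀ i j, |(v i j : ℝ)| ≤ R * (2 : ℝ) ^ (s j)
  det_le : D₀ ≤ |Matrix.det (Matrix.of fun i j => (v i j : ℝ) * (2 : ℝ) ^ (-s j))|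
  q_pos : 1 ≤ q
  g_nonneg : ∀ i j, 0 ≤ g i j
  g_lt : ∀ i j, g i j < q
  /-- the fractional generators are integer vectors -/
  gen : ∀ l, ∃ k : Fin d → ℤ, (q : ℤ) • k = ∑ i, g l i • v i
  mem_iff : ∀ k : Fin d → ℤ, k ∈ Γ ↔
    ∃ a b : Fin d → ℤ, (q : ℤ) • k = ∑ i, ((q : ℤ) * a i + ∑ l, b l * g l i) • v i

namespace NetDescAux

/-- a subgroup of `ℤ^d` is generated by `d` elements -/
theorem exists_gens (Γ : AddSubgroup (Fin d → ℤ)) : ∃ w : Fin d → Fin d → ℤ, (∀ l, w l ∈ Γ) ∧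
    ∀ k ∈ Γ, ∃ c : Fin d → ℤ, k = ∑ l, c l • w l := by
  obtain ⟨n, bN⟩ := Submodule.basisOfPid (Pi.basisFun ℤ (Fin d)) (AddSubgroup.toIntSubmodule Γ)
  have hn : n ≤ d := by
    have h1 := (bN.linearIndependent.map' (AddSubgroup.toIntSubmodule Γ).subtype
      (Submodule.ker_subtype _)).fintype_card_le_finrank
    simpa using h1
  set e : Fin n → Fin d := Fin.castLE hn with he
  have hinj : Function.Injective e := Fin.castLE_injective hn
  refine ⟨Function.extend e (fun i => ((bN i : (AddSubgroup.toIntSubmodule Γ)) : Fin d → ℤ)) 0,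
    ?_, ?_⟩
  · intro l
    by_cases hl : ∃ i, e i = l
    · obtain ⟨i, rfl⟩ := hl
      rw [hinj.extend_apply]
      exact (bN i).2
    · rw [Function.extend_apply' _ _ _ hl]
      exact Γ.zero_mem
  · intro k hk
    refine ⟨Function.extend e (fun i => bN.repr ⟨k, hk⟩ i) 0, ?_⟩
    have h1 := congrArg (fun x : (AddSubgroup.toIntSubmodule Γ) => (x : Fin d → ℤ))
      (bN.sum_repr ⟨k, hk⟩)
    simp only [Submodule.coe_sum, Submodule.coe_smul] at h1
    refine h1.symm.trans ?_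
    refine Fintype.sum_of_injective e hinj _ _ ?_ ?_
    · intro l hl
      have hl' : ¬ ∃ i, e i = l := fun ⟨i, hi⟩ => hl ⟨i, hi⟩
      rw [Function.extend_apply' _ _ _ hl']
      simp
    · intro i
      rw [hinj.extend_apply, hinj.extend_apply]

/-- the index is the determinant -/
theorem index_span (v : Fin d → Fin d → ℤ) (hv : LinearIndependent ℤ v) :
    (Submodule.span ℤ (Set.range v)).toAddSubgroup.index = (Matrix.det (Matrix.of v)).natAbs := by
  have h := Submodule.natAbs_det_basis_change (Pi.basisFun ℤ (Fin d))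
    (Submodule.span ℤ (Set.range v)) (Module.Basis.span hv)
  have e : ((↑) ∘ (Module.Basis.span hv) : Fin d → Fin d → ℤ) = v := by
    funext i
    simp [Module.Basis.span_apply]
  rw [e, Pi.basisFun_det_apply] at h
  exact h.symm

theorem linInd_int {v : Fin d → Fin d → ℤ} (hv : LinearIndependent ℝ (fun i j => (v i j : ℝ))) :
    LinearIndependent ℤ v := by
  have h1 : LinearIndependent ℤ (fun i j => (v i j : ℝ)) := by
    refine hv.restrict_scalars ?_
    intro a b h
    simpa using h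
  let f : (Fin d → ℤ) →ₗ[ℤ] (Fin d → ℝ) :=
    { toFun := fun k j => (k j : ℝ)
      map_add' := fun a b => by funext j; simp
      map_smul' := fun c a => by funext j; simp }
  exact LinearIndependent.of_comp f h1

theorem det_ne {v : Fin d → Fin d → ℤ} (hv : LinearIndependent ℝ (fun i j => (v i j : ℝ))) :
    Matrix.det (Matrix.of fun i j => (v i j : ℝ)) ≠ 0 := by
  have h : LinearIndependent ℝ (Matrix.of fun i j => (v i j : ℝ)).row := hv
  rw [Matrix.linearIndependent_rows_iff_isUnit, Matrix.isUnit_iff_isUnit_det] at h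
  exact h.ne_zero

theorem det_cast (v : Fin d → Fin d → ℤ) : Matrix.det (Matrix.of fun i j => (v i j : ℝ)) =
    ((Matrix.det (Matrix.of v) : ℤ) : ℝ) := by
  have h := RingHom.map_det (Int.castRingHom ℝ) (Matrix.of v)
  exact h.symm

end NetDescAux

open NetDescAux in
theorem exists_desc (hd : 1 ≤ d) {T : ℕ} (hT : 1 ≤ T) {C : ℝ} (hC : 1 ≤ C)
    {Γ : AddSubgroup (Fin d → ℤ)} (h : Good T C Γ) {s : Fin d → ℝ} (hs : Pos T s) :
    ∃ v q g, Desc ((8 * d * C * (T : ℝ) ^ (d - 1)) ^ d) (1 / C) s Γ v q g ∧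
      (q : ℝ) ≤ C * (d.factorial * ((8 * d * C * (T : ℝ) ^ (d - 1)) ^ d) ^ d) := by
  have hT' : (1 : ℝ) ≤ T := by exact_mod_cast hT
  have hTp : (1 : ℝ) ≤ (T : ℝ) ^ (d - 1) := one_le_pow₀ hT'
  have hCT : 1 ≤ C * (T : ℝ) ^ (d - 1) := by nlinarith
  have hρ : (0 : ℝ) < 1 / (2 * C * (T : ℝ) ^ (d - 1)) := by positivity
  have hρ1 : 1 / (2 * C * (T : ℝ) ^ (d - 1)) ≤ 1 := by
    rw [div_le_one (by positivity)]
    nlinarith
  have hR : (4 * (d : ℝ) / (1 / (2 * C * (T : ℝ) ^ (d - 1)))) = 8 * d * C * (T : ℝ) ^ (d - 1) := by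
    field_simp
    ring
  obtain ⟨v, hvΓ, hlin, hbd⟩ := spn_of_sys hd h.index_ne h.index_le hρ hρ1 hs (sys_of_good hT hC h hs)
  rw [hR] at hbd
  set R : ℝ := (8 * d * C * (T : ℝ) ^ (d - 1)) ^ d with hRdef
  set Γ₀ := (Submodule.span ℤ (Set.range v)).toAddSubgroup with hΓ₀
  have hle : Γ₀ ≤ Γ := by
    have h1 : Submodule.span ℤ (Set.range v) ≤ AddSubgroup.toIntSubmodule Γ := by
      rw [Submodule.span_le]
      rintro _ ⟨i, rfl⟩
      exact hvΓ i
    exact fun x hx => h1 hx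
  have hindex : Γ₀.index = (Matrix.det (Matrix.of v)).natAbs := index_span v (linInd_int hlin)
  have hdet0 : Matrix.det (Matrix.of v) ≠ 0 := by
    intro h0
    have := det_ne hlin
    rw [det_cast, h0] at this
    simp at this
  set q := Γ₀.relIndex Γ with hq
  have hqi : q * Γ.index = Γ₀.index := AddSubgroup.relIndex_mul_index hle
  have hi0 : Γ₀.index ≠ 0 := by
    rw [hindex]
    exact Int.natAbs_ne_zero.2 hdet0
  have hq0 : q ≠ 0 := by
    intro h0
    rw [h0, zero_mul] at hqi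
    exact hi0 hqi.symm
  have hqZ : (q : ℤ) ≠ 0 := by exact_mod_cast hq0
  -- the scaled determinant
  have hdetS : |Matrix.det (Matrix.of fun i j => (v i j : ℝ) * (2 : ℝ) ^ (-s j))| =
      (Γ₀.index : ℝ) * ((2 : ℝ) ^ T)⁻¹ := by
    have h1 := Matrix.det_mul_row (fun j => (2 : ℝ) ^ (-s j)) (Matrix.of fun i j => (v i j : ℝ))
    have h2 : (Matrix.of fun i j => (v i j : ℝ) * (2 : ℝ) ^ (-s j)) =
        Matrix.of fun i j => (2 : ℝ) ^ (-s j) * (Matrix.of fun i j => (v i j : ℝ)) i j := by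
      ext i j
      simp only [Matrix.of_apply]
      ring
    have h3 : ∏ j, (2 : ℝ) ^ (-s j) = ((2 : ℝ) ^ T)⁻¹ := by
      rw [← Real.rpow_sum_of_pos (by norm_num : (0 : ℝ) < 2), Finset.sum_neg_distrib, hs.2,
        Real.rpow_neg (by norm_num), Real.rpow_natCast]
    rw [h2, h1, h3, det_cast, abs_mul, hindex, abs_of_pos (by positivity), Nat.cast_natAbs,
      Int.cast_abs]
    ring
  have hbdS : |Matrix.det (Matrix.of fun i j => (v i j : ℝ) * (2 : ℝ) ^ (-s j))| ≤
      d.factorial * R ^ d := by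
    have h1 := Matrix.det_le (abv := AbsoluteValue.abs (S := ℝ))
      (A := Matrix.of fun i j => (v i j : ℝ) * (2 : ℝ) ^ (-s j)) (x := R) (fun i j => by
        simp only [Matrix.of_apply, AbsoluteValue.abs_apply]
        rw [abs_mul, abs_of_pos (Real.rpow_pos_of_pos (by norm_num : (0 : ℝ) < 2) _)]
        calc |(v i j : ℝ)| * (2 : ℝ) ^ (-s j) ≤ (R * (2 : ℝ) ^ (s j)) * (2 : ℝ) ^ (-s j) :=
              mul_le_mul_of_nonneg_right (hbd i j) (by positivity)
          _ = R := by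
              rw [mul_assoc, ← Real.rpow_add (by norm_num)]
              simp)
    simpa using h1
  have hq1 : (1 : ℝ) ≤ q := by exact_mod_cast Nat.one_le_iff_ne_zero.2 hq0
  have hqi' : (q : ℝ) * Γ.index = Γ₀.index := by exact_mod_cast hqi
  have h2T : (0 : ℝ) < (2 : ℝ) ^ T := by positivity
  have hCpos : 0 < C := by linarith
  -- generators
  obtain ⟨w, hwΓ, hw⟩ := exists_gens Γ
  have ht : ∀ l, ∃ t : Fin d → ℤ, (q : ℤ) • w l = ∑ i, t i • v i := by
    intro l
    have h1 : q • w l ∈ Γ₀ := by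
      have h0 := AddSubgroup.nsmul_index_mem (Γ₀.addSubgroupOf Γ) (⟨w l, hwΓ l⟩ : Γ)
      exact h0
    have h2 : (q : ℤ) • w l ∈ Submodule.span ℤ (Set.range v) := by
      rw [natCast_zsmul]
      exact h1
    rw [Submodule.mem_span_range_iff_exists_fun] at h2
    obtain ⟨t, ht⟩ := h2
    exact ⟨t, ht.symm⟩
  choose t ht using ht
  have hcancel : ∀ k k' : Fin d → ℤ, (q : ℤ) • k = (q : ℤ) • k' → k = k' := fun k k' hk =>
    smul_right_injective _ hqZ hk
  have hmod : ∀ l i, t l i = (q : ℤ) * (t l i / q) + t l i % q := fun l i =>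
    (Int.mul_ediv_add_emod _ _).symm
  have hgen : ∀ l, (q : ℤ) • (w l - ∑ i, (t l i / q) • v i) = ∑ i, (t l i % q) • v i := by
    intro l
    rw [smul_sub, ht, Finset.smul_sum, ← Finset.sum_sub_distrib]
    refine Finset.sum_congr rfl fun i _ => ?_
    rw [smul_smul, ← sub_smul]
    congr 1
    have := hmod l i
    linarith
  refine ⟨v, q, fun l i => t l i % q, ⟨hbd, ?_, Nat.one_le_iff_ne_zero.2 hq0,
    fun l i => Int.emod_nonneg _ hqZ, fun l i => Int.emod_lt_of_pos _ (by exact_mod_cast Nat.pos_of_ne_zero hq0),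
    fun l => ⟨_, hgen l⟩, ?_⟩, ?_⟩
  · rw [hdetS, ← hqi', div_le_iff₀ hCpos]
    have h1 := h.le_index
    have h3 : (1 : ℝ) ≤ C * Γ.index * ((2 : ℝ) ^ T)⁻¹ := by
      rw [← div_eq_mul_inv, one_le_div h2T]
      exact h1
    have h4 : (0 : ℝ) ≤ C * Γ.index * ((2 : ℝ) ^ T)⁻¹ := by linarith
    nlinarith
  · intro k
    constructor
    · intro hk
      obtain ⟨c, hc⟩ := hw k hk
      refine ⟨fun i => ∑ l, c l * (t l i / q), c, ?_⟩
      have h1 : (q : ℤ) • k = ∑ l, c l • ∑ i, t l i • v i := by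
        rw [hc, Finset.smul_sum]
        refine Finset.sum_congr rfl fun l _ => ?_
        rw [smul_comm, ht]
      rw [h1]
      simp only [Finset.smul_sum, smul_smul]
      rw [Finset.sum_comm]
      refine Finset.sum_congr rfl fun i _ => ?_
      rw [← Finset.sum_smul]
      congr 1
      rw [Finset.mul_sum, ← Finset.sum_add_distrib]
      refine Finset.sum_congr rfl fun l _ => ?_
      have := hmod l i
      calc c l * t l i = c l * ((q : ℤ) * (t l i / q) + t l i % q) := by rw [← this]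
        _ = _ := by ring
    · rintro ⟨a, b, hab⟩
      have h1 : k = ∑ i, a i • v i + ∑ l, b l • (w l - ∑ i, (t l i / q) • v i) := by
        apply hcancel
        rw [hab, smul_add, Finset.smul_sum, Finset.smul_sum]
        have h2 : ∀ l, (q : ℤ) • b l • (w l - ∑ i, (t l i / q) • v i) =
            b l • ∑ i, (t l i % q) • v i := fun l => by rw [smul_comm, hgen]
        rw [Finset.sum_congr rfl fun l _ => h2 l]
        simp only [add_smul, Finset.sum_add_distrib, Finset.smul_sum, smul_smul, Finset.sum_smul]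
        congr 1
        exact Finset.sum_comm
      rw [h1]
      refine Γ.add_mem (Γ.sum_mem fun i _ => Γ.zsmul_mem (hvΓ i) _) (Γ.sum_mem fun l _ =>
        Γ.zsmul_mem (Γ.sub_mem (hwΓ l) (Γ.sum_mem fun i _ => Γ.zsmul_mem (hvΓ i) _)) _)
  · have h1 := hbdS
    rw [hdetS, ← hqi', ← div_eq_mul_inv, div_le_iff₀ h2T] at h1
    have h2 := h.le_index
    have h3 : (q : ℝ) * (2 : ℝ) ^ T ≤ C * (d.factorial * R ^ d) * (2 : ℝ) ^ T := by
      calc (q : ℝ) * (2 : ℝ) ^ T ≤ q * (C * Γ.index) := mul_le_mul_of_nonneg_left h2 (by linarith)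
        _ = C * (q * Γ.index) := by ring
        _ ≤ C * (d.factorial * R ^ d * (2 : ℝ) ^ T) := mul_le_mul_of_nonneg_left h1 hCpos.le
        _ = _ := by ring
    exact le_of_mul_le_mul_right h3 h2T

end Pool.Agent.Lib.P51n
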