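import Pool.Agent.Lib.P51n.NetDesc

/-!
# P51n.NetNear  (about 1.2 h)

Two lattices with the same `q`, `g` and nearly equal rescaled vectors are close in shape `c_s`.

Let `V i j = v_i(j) 2^{-s_j}`, `V'` similarly (`|V|, |V'| ≤ R`, `|det V| ≥ D₀ > 0`).  Let `h` be
the real matrix with `h v_i = v'_i` for all `i` (i.e. `h = (v'ᵀ)(vᵀ)⁻¹`).  By `mem_iff` for both,
`h` maps `Γ` onto `Γ'` (if `q k = ∑ t_i v_i` then `h k = (1/q) ∑ t_i v'_i`, and the right hand side
is the element `k'` of `Γ'` given by the same `a, b`: it is an integer vector because of the field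
`gen`).  In the rescaled coordinates `ĥ = V'ᵀ (Vᵀ)⁻¹`, and
`ĥ - 1 = (V' - V)ᵀ (Vᵀ)⁻¹` has entries at most `d ε (d-1)! R^(d-1) / D₀` if `|V' - V| ≤ ε`
(adjugate formula for the inverse; entries of the adjugate are `(d-1)`-minors, `≤ (d-1)! R^(d-1)`,
`Matrix.det_le`).
-/

set_option autoImplicit false

noncomputable section

namespace Pool.Agent.Lib.P51n

variable {d : ℕ}

theorem NetNear_adj {n : ℕ} {A : Matrix (Fin (n + 1)) (Fin (n + 1)) ℝ} {R : ℝ}
    (hA : ∀ i j, |A i j| ≤ R) (i j : Fin (n + 1)) :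
    |A.adjugate i j| ≤ n.factorial * R ^ n := by
  rw [Matrix.adjugate_fin_succ_eq_det_submatrix, abs_mul, abs_pow, abs_neg, abs_one, one_pow,
    one_mul]
  have h1 := Matrix.det_le (A := A.submatrix j.succAbove i.succAbove)
    (abv := AbsoluteValue.abs) (x := R) (fun a b => hA _ _)
  rw [Fintype.card_fin, nsmul_eq_mul] at h1
  exact h1

theorem NetNear_inv {n : ℕ} {A : Matrix (Fin (n + 1)) (Fin (n + 1)) ℝ} {R D₀ : ℝ}
    (hA : ∀ i j, |A i j| ≤ R) (hR : 0 ≤ R) (hD : 0 < D₀) (hdet : D₀ ≤ |A.det|)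
    (i j : Fin (n + 1)) : |A⁻¹ i j| ≤ n.factorial * R ^ n / D₀ := by
  have h1 : A⁻¹ i j = A.det⁻¹ * A.adjugate i j := by
    rw [Matrix.inv_def, Ring.inverse_eq_inv', Matrix.smul_apply, smul_eq_mul]
  rw [h1, abs_mul, abs_inv, inv_mul_eq_div]
  have h2 := NetNear_adj hA i j
  exact div_le_div₀ (by positivity) h2 hD hdet

/-- the integer vector with prescribed coefficients -/
theorem NetNear_mk {d q : ℕ} {v : Fin d → Fin d → ℤ} {g : Fin d → Fin d → ℤ}
    (hgen : ∀ l, ∃ k : Fin d → ℤ, (q : ℤ) • k = ∑ i, g l i • v i) (a b : Fin d → ℤ) :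
    ∃ k : Fin d → ℤ, (q : ℤ) • k = ∑ i, ((q : ℤ) * a i + ∑ l, b l * g l i) • v i := by
  choose w hw using hgen
  refine ⟨∑ i, a i • v i + ∑ l, b l • w l, ?_⟩
  have h1 : (q : ℤ) • ∑ l, b l • w l = ∑ i, (∑ l, b l * g l i) • v i := by
    rw [Finset.smul_sum]
    have h2 : ∀ l ∈ Finset.univ, (q : ℤ) • b l • w l = ∑ i, (b l * g l i) • v i := by
      intro l _
      rw [smul_comm, hw l, Finset.smul_sum]
      exact Finset.sum_congr rfl fun i _ => by rw [smul_smul]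
    rw [Finset.sum_congr rfl h2, Finset.sum_comm]
    exact Finset.sum_congr rfl fun i _ => by rw [Finset.sum_smul]
  have h3 : (q : ℤ) • ∑ i, a i • v i = ∑ i, ((q : ℤ) * a i) • v i := by
    rw [Finset.smul_sum]
    exact Finset.sum_congr rfl fun i _ => by rw [smul_smul]
  rw [smul_add, h1, h3, ← Finset.sum_add_distrib]
  exact Finset.sum_congr rfl fun i _ => by rw [add_smul]

/-- the displacement on vectors with the same coefficients -/
theorem NetNear_map {d q : ℕ} (hq : 1 ≤ q) {v v' : Fin d → Fin d → ℤ}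
    {h : Matrix (Fin d) (Fin d) ℝ} (hv : ∀ i, h.mulVec (rv (v i)) = rv (v' i)) {t k k' : Fin d → ℤ}
    (hk : (q : ℤ) • k = ∑ i, t i • v i) (hk' : (q : ℤ) • k' = ∑ i, t i • v' i) :
    h.mulVec (rv k) = rv k' := by
  have hq0 : (q : ℝ) ≠ 0 := by positivity
  have e1 : ∀ (u : Fin d → Fin d → ℤ) (x : Fin d → ℤ), (q : ℤ) • x = ∑ i, t i • u i →
      (q : ℝ) • rv x = ∑ i, (t i : ℝ) • rv (u i) := by
    intro u x hx
    funext j
    have h1 := congrFun hx j
    rw [Pi.smul_apply, Finset.sum_apply, smul_eq_mul] at h1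
    rw [Pi.smul_apply, Finset.sum_apply, smul_eq_mul]
    have h2 : (((q : ℤ) * x j : ℤ) : ℝ) = ((∑ i, (t i • u i) j : ℤ) : ℝ) := by rw [h1]
    push_cast at h2
    unfold rv
    rw [h2]
    refine Finset.sum_congr rfl fun i _ => ?_
    rw [Pi.smul_apply, Pi.smul_apply, smul_eq_mul, smul_eq_mul]
    push_cast
    ring
  have e2 := e1 v k hk
  have e3 := e1 v' k' hk'
  have e4 : (q : ℝ) • h.mulVec (rv k) = (q : ℝ) • rv k' := by
    rw [← Matrix.mulVec_smul, e2, e3, Matrix.mulVec_sum]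
    refine Finset.sum_congr rfl fun i _ => ?_
    rw [Matrix.mulVec_smul, hv]
  exact smul_right_injective _ hq0 e4

theorem near_of_desc (hd : 1 ≤ d) {R D₀ ε : ℝ} (hR : 1 ≤ R) (hD : 0 < D₀) (hε : 0 < ε)
    {s : Fin d → ℝ} {Γ Γ' : AddSubgroup (Fin d → ℤ)} {v v' : Fin d → Fin d → ℤ} {q : ℕ}
    {g : Fin d → Fin d → ℤ} (h : Desc R D₀ s Γ v q g) (h' : Desc R D₀ s Γ' v' q g)
    (hv : ∀ i j, |(v i j : ℝ) * (2 : ℝ) ^ (-s j) - (v' i j : ℝ) * (2 : ℝ) ^ (-s j)| ≤ ε) :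
    Near (d * (d - 1).factorial * R ^ (d - 1) / D₀ * ε) (cs s) Γ Γ' := by
  obtain ⟨n, rfl⟩ : ∃ n, d = n + 1 := ⟨d - 1, by omega⟩
  obtain ⟨V, hV⟩ : ∃ V : Matrix (Fin (n + 1)) (Fin (n + 1)) ℝ,
      V = Matrix.of fun i j => (v i j : ℝ) * (2 : ℝ) ^ (-s j) := ⟨_, rfl⟩
  obtain ⟨V', hV'⟩ : ∃ V' : Matrix (Fin (n + 1)) (Fin (n + 1)) ℝ,
      V' = Matrix.of fun i j => (v' i j : ℝ) * (2 : ℝ) ^ (-s j) := ⟨_, rfl⟩
  have hdet : D₀ ≤ |V.det| := by rw [hV]; exact h.det_le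
  have hdet0 : IsUnit V.transpose.det := by
    rw [Matrix.det_transpose, isUnit_iff_ne_zero]
    intro h0
    rw [h0, abs_zero] at hdet
    linarith
  have hp : ∀ x : ℝ, 0 < (2 : ℝ) ^ x := fun x => Real.rpow_pos_of_pos (by norm_num) _
  have hpp : ∀ x : ℝ, (2 : ℝ) ^ x * (2 : ℝ) ^ (-x) = 1 := by
    intro x
    rw [← Real.rpow_add (by norm_num), add_neg_cancel, Real.rpow_zero]
  have hVb : ∀ i j, |V.transpose i j| ≤ R := by
    intro i j
    rw [hV, Matrix.transpose_apply, Matrix.of_apply, abs_mul, abs_of_pos (hp _)]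
    calc |(v j i : ℝ)| * (2 : ℝ) ^ (-s i) ≤ R * (2 : ℝ) ^ (s i) * (2 : ℝ) ^ (-s i) :=
          mul_le_mul_of_nonneg_right (h.bound j i) (hp _).le
      _ = R := by rw [mul_assoc, hpp, mul_one]
  obtain ⟨H, hH⟩ : ∃ H : Matrix (Fin (n + 1)) (Fin (n + 1)) ℝ,
      H = V'.transpose * V.transpose⁻¹ := ⟨_, rfl⟩
  have hHV : H * V.transpose = V'.transpose := by
    rw [hH, Matrix.mul_assoc, Matrix.nonsing_inv_mul _ hdet0, Matrix.mul_one]
  obtain ⟨M, hM⟩ : ∃ M : Matrix (Fin (n + 1)) (Fin (n + 1)) ℝ,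
      M = Matrix.of fun i j => (2 : ℝ) ^ (s i) * H i j * (2 : ℝ) ^ (-s j) := ⟨_, rfl⟩
  have hMv : ∀ m, M.mulVec (rv (v m)) = rv (v' m) := by
    intro m
    funext i
    have e1 : ∑ j, H i j * V.transpose j m = V'.transpose i m := by
      rw [← hHV, Matrix.mul_apply]
    have e2 : V'.transpose i m = (v' m i : ℝ) * (2 : ℝ) ^ (-s i) := by
      rw [hV', Matrix.transpose_apply, Matrix.of_apply]
    have e3 : M.mulVec (rv (v m)) i = (2 : ℝ) ^ (s i) * ∑ j, H i j * V.transpose j m := by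
      rw [Matrix.mulVec, dotProduct, Finset.mul_sum]
      refine Finset.sum_congr rfl fun j _ => ?_
      rw [hM, Matrix.of_apply, hV, Matrix.transpose_apply, Matrix.of_apply]
      unfold rv
      ring
    rw [e3, e1, e2]
    unfold rv
    calc (2 : ℝ) ^ (s i) * ((v' m i : ℝ) * (2 : ℝ) ^ (-s i)) =
          (v' m i : ℝ) * ((2 : ℝ) ^ (s i) * (2 : ℝ) ^ (-s i)) := by ring
      _ = (v' m i : ℝ) := by rw [hpp, mul_one]
  refine ⟨M, ⟨?_, ?_⟩, ?_⟩
  · intro k hk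
    obtain ⟨a, b, hab⟩ := (h.mem_iff k).1 hk
    obtain ⟨k', hk'⟩ := NetNear_mk h'.gen a b
    exact ⟨k', (h'.mem_iff k').2 ⟨a, b, hk'⟩, NetNear_map h.q_pos hMv hab hk'⟩
  · intro k' hk'
    obtain ⟨a, b, hab⟩ := (h'.mem_iff k').1 hk'
    obtain ⟨k, hk⟩ := NetNear_mk h.gen a b
    exact ⟨k, (h.mem_iff k).2 ⟨a, b, hk⟩, NetNear_map h.q_pos hMv hk hab⟩
  · intro i j
    have e1 : M i j - (1 : Matrix (Fin (n + 1)) (Fin (n + 1)) ℝ) i j =
        (H i j - (1 : Matrix (Fin (n + 1)) (Fin (n + 1)) ℝ) i j) * (2 : ℝ) ^ (-cs s i j) := by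
      have e2 : (2 : ℝ) ^ (-cs s i j) = (2 : ℝ) ^ (s i) * (2 : ℝ) ^ (-s j) := by
        rw [← Real.rpow_add (by norm_num)]
        unfold cs
        congr 1
        ring
      rw [hM, Matrix.of_apply, e2]
      by_cases hij : i = j
      · subst hij
        rw [mul_right_comm, hpp]
        ring
      · rw [Matrix.one_apply_ne hij]
        ring
    have e3 : H i j - (1 : Matrix (Fin (n + 1)) (Fin (n + 1)) ℝ) i j =
        ∑ k, (V' k i - V k i) * V.transpose⁻¹ k j := by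
      have e4 : H - 1 = (V'.transpose - V.transpose) * V.transpose⁻¹ := by
        rw [Matrix.sub_mul, ← hH, Matrix.mul_nonsing_inv _ hdet0]
      have e5 := congrFun (congrFun e4 i) j
      rw [Matrix.sub_apply, Matrix.mul_apply] at e5
      exact e5
    rw [e1, abs_mul, abs_of_pos (hp _)]
    refine mul_le_mul_of_nonneg_right ?_ (hp _).le
    rw [e3]
    have hsub : n + 1 - 1 = n := by omega
    rw [hsub]
    calc |∑ k, (V' k i - V k i) * V.transpose⁻¹ k j| ≤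
          ∑ k, |(V' k i - V k i) * V.transpose⁻¹ k j| := Finset.abs_sum_le_sum_abs _ _
      _ ≤ ∑ _k : Fin (n + 1), ε * (n.factorial * R ^ n / D₀) := by
          refine Finset.sum_le_sum fun k _ => ?_
          rw [abs_mul]
          have b1 : |V' k i - V k i| ≤ ε := by
            rw [abs_sub_comm, hV, hV']
            exact hv k i
          have b2 := NetNear_inv hVb (by linarith) hD
            (by rw [Matrix.det_transpose]; exact hdet) k j
          exact mul_le_mul b1 b2 (abs_nonneg _) hε.le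
      _ = _ := by
          rw [Finset.sum_const, Finset.card_univ, Fintype.card_fin, nsmul_eq_mul]
          ring

end Pool.Agent.Lib.P51n
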