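import Pool.Agent.Lib.P51n.Defs

/-!
# P51n.Sys  (about 0.7 h)

Good lattices have no short vectors at admissible positions.

`lev_le_pos`: if `|k_j| < ρ 2^{s_j}`, `ρ ≤ 1`, `s_j ≥ 0` then `lev k j ≤ s_j + 1`
(`Nat.size 0 = 0`; for `n ≥ 1`, `2^(size n - 1) ≤ n < 2^(size n)`: `Nat.lt_size`, `Nat.size_le`,
`Nat.lt_size_self`).

`sum_lev_lt`: if `k ≠ 0`, `ρ ≤ 1/2`: for `k_j ≠ 0` one has `2^(lev-1) ≤ |k_j| < ρ 2^{s_j}`, so
`lev k j < s_j + 1 + log₂ ρ ≤ s_j`; for `k_j = 0`, `lev k j = 0 ≤ s_j`.  At least one `k_j ≠ 0`.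

`sys_of_good`: otherwise there is `k ∈ Γ`, `k ≠ 0`, with `|k_j| < ρ 2^{s_j}` for all `j`,
`ρ = 1/(2 C T^(d-1)) ≤ 1/2`; by `sum_lev_lt`, `∑ lev < T + 1 + log₂ ρ ≤ T`, hence
`lev k ∈ lowBlocks T Γ` and `cost ≥ 2^(T - ∑ lev) > 2^(-1 - log₂ ρ) = 1/(2ρ) = C T^(d-1)`.
-/

set_option autoImplicit false

noncomputable section

namespace Pool.Agent.Lib.P51n

variable {d : ℕ}

theorem lev_lt_aux {k : Fin d → ℤ} {s : Fin d → ℝ} {ρ : ℝ} (hρ : 0 < ρ) {j : Fin d}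
    (hkj : k j ≠ 0) (h : |(k j : ℝ)| < ρ * (2 : ℝ) ^ (s j)) :
    (lev k j : ℝ) < s j + 1 + Real.logb 2 ρ := by
  have hn : (k j).natAbs ≠ 0 := Int.natAbs_ne_zero.2 hkj
  have hpos : 0 < lev k j := Nat.size_pos.2 (Nat.pos_of_ne_zero hn)
  have h1 : 2 ^ (lev k j - 1) ≤ (k j).natAbs := by
    have : lev k j - 1 < Nat.size (k j).natAbs := by
      have : lev k j = Nat.size (k j).natAbs := rfl
      omega
    exact Nat.lt_size.1 this
  have h2 : (2 : ℝ) ^ ((lev k j : ℝ) - 1) ≤ |(k j : ℝ)| := by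
    have e : (2 : ℝ) ^ ((lev k j : ℝ) - 1) = ((2 ^ (lev k j - 1) : ℕ) : ℝ) := by
      push_cast
      rw [← Real.rpow_natCast]
      congr 1
      rw [Nat.cast_sub hpos]
      simp
    rw [e]
    have : |(k j : ℝ)| = ((k j).natAbs : ℝ) := by
      rw [Nat.cast_natAbs]
      push_cast
      rfl
    rw [this]
    exact_mod_cast h1
  have h3 : (2 : ℝ) ^ ((lev k j : ℝ) - 1) < (2 : ℝ) ^ (Real.logb 2 ρ + s j) := by
    rw [Real.rpow_add two_pos, Real.rpow_logb two_pos (by norm_num) hρ]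
    exact lt_of_le_of_lt h2 h
  have h4 := (Real.rpow_lt_rpow_left_iff (by norm_num : (1 : ℝ) < 2)).1 h3
  linarith

theorem lev_zero_aux {k : Fin d → ℤ} {j : Fin d} (h : k j = 0) : lev k j = 0 := by
  simp [lev, h]

theorem lev_le_pos {k : Fin d → ℤ} {s : Fin d → ℝ} (hs : ∀ j, 0 ≤ s j) {ρ : ℝ} (hρ : 0 < ρ)
    (hρ1 : ρ ≤ 1) (h : ∀ j, |(k j : ℝ)| < ρ * (2 : ℝ) ^ (s j)) (j : Fin d) :
    (lev k j : ℝ) ≤ s j + 1 := by
  by_cases hk : k j = 0
  · rw [lev_zero_aux hk]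
    have := hs j
    push_cast
    linarith
  · have h1 := lev_lt_aux hρ hk (h j)
    have h2 : Real.logb 2 ρ ≤ 0 := Real.logb_nonpos (by norm_num) hρ.le hρ1
    linarith

theorem sum_lev_lt {k : Fin d → ℤ} (hk : k ≠ 0) {s : Fin d → ℝ} (hs : ∀ j, 0 ≤ s j) {ρ : ℝ}
    (hρ : 0 < ρ) (hρ1 : ρ ≤ 1 / 2) (h : ∀ j, |(k j : ℝ)| < ρ * (2 : ℝ) ^ (s j)) :
    ∑ j, (lev k j : ℝ) < ∑ j, s j + 1 + Real.logb 2 ρ := by
  obtain ⟨i, hi⟩ : ∃ i, k i ≠ 0 := by
    by_contra hc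
    push Not at hc
    exact hk (funext hc)
  have hlog : Real.logb 2 ρ ≤ -1 := by
    have h2 : Real.logb 2 ρ ≤ Real.logb 2 (1 / 2) :=
      Real.logb_le_logb_of_le (by norm_num) hρ hρ1
    have h3 : Real.logb 2 (1 / 2) = -1 := by
      rw [one_div, Real.logb_inv, Real.logb_self_eq_one (by norm_num)]
    linarith
  have hle : ∀ j, (lev k j : ℝ) ≤ s j := by
    intro j
    by_cases hkj : k j = 0
    · rw [lev_zero_aux hkj]
      have := hs j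
      push_cast
      linarith
    · have := lev_lt_aux hρ hkj (h j)
      linarith
  have h1 := lev_lt_aux hρ hi (h i)
  rw [← Finset.add_sum_erase _ _ (Finset.mem_univ i), ← Finset.add_sum_erase _ s (Finset.mem_univ i)]
  have h2 : ∑ j ∈ Finset.univ.erase i, (lev k j : ℝ) ≤ ∑ j ∈ Finset.univ.erase i, s j :=
    Finset.sum_le_sum fun j _ => hle j
  linarith

theorem sys_of_good {T : ℕ} (hT : 1 ≤ T) {C : ℝ} (hC : 1 ≤ C)
    {Γ : AddSubgroup (Fin d → ℤ)} (h : Good T C Γ) {s : Fin d → ℝ} (hs : Pos T s) :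
    Sys (1 / (2 * C * (T : ℝ) ^ (d - 1))) s Γ := by
  intro k hk hk0
  by_contra hcon
  push Not at hcon
  have hT1 : (1 : ℝ) ≤ (T : ℝ) ^ (d - 1) := one_le_pow₀ (by exact_mod_cast hT)
  have hCT : 1 ≤ C * (T : ℝ) ^ (d - 1) := by nlinarith
  obtain ⟨ρ, hρ⟩ : ∃ ρ, ρ = 1 / (2 * C * (T : ℝ) ^ (d - 1)) := ⟨_, rfl⟩
  rw [← hρ] at hcon
  have hρ0 : 0 < ρ := by
    rw [hρ]
    apply div_pos one_pos
    nlinarith
  have hρ1 : ρ ≤ 1 / 2 := by
    rw [hρ]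
    apply one_div_le_one_div_of_le two_pos
    nlinarith
  have hlt := sum_lev_lt hk0 hs.1 hρ0 hρ1 hcon
  rw [hs.2] at hlt
  have hlog : Real.logb 2 ρ ≤ -1 := by
    have h2 : Real.logb 2 ρ ≤ Real.logb 2 (1 / 2) :=
      Real.logb_le_logb_of_le (by norm_num) hρ0 hρ1
    have h3 : Real.logb 2 (1 / 2) = -1 := by
      rw [one_div, Real.logb_inv, Real.logb_self_eq_one (by norm_num)]
    linarith
  have hsum : ∑ j, lev k j ≤ T := by
    have : (∑ j, lev k j : ℝ) ≤ T := by linarith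
    exact_mod_cast this
  have hmem : lev k ∈ lowBlocks T Γ := by
    classical
    unfold lowBlocks
    simp only [Finset.mem_filter, Fintype.mem_piFinset]
    refine ⟨fun j => ?_, hsum, k, hk, hk0, rfl⟩
    rw [Finset.mem_range]
    have := Finset.single_le_sum (f := fun j => lev k j) (fun i _ => Nat.zero_le _)
      (Finset.mem_univ j)
    omega
  have hcost : (2 : ℝ) ^ (T - ∑ j, lev k j) ≤ cost T Γ := by
    unfold cost
    exact Finset.single_le_sum (f := fun s : Fin d → ℕ => (2 : ℝ) ^ (T - ∑ j, s j))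
      (fun i _ => by positivity) hmem
  have h1 : C * (T : ℝ) ^ (d - 1) < (2 : ℝ) ^ (T - ∑ j, lev k j) := by
    have e1 : C * (T : ℝ) ^ (d - 1) = (2 : ℝ) ^ (-1 - Real.logb 2 ρ) := by
      rw [Real.rpow_sub two_pos, Real.rpow_logb two_pos (by norm_num) hρ0, hρ,
        Real.rpow_neg_one]
      field_simp
    have e2 : (2 : ℝ) ^ (T - ∑ j, lev k j) = (2 : ℝ) ^ ((T : ℝ) - ∑ j, (lev k j : ℝ)) := by
      rw [← Real.rpow_natCast]
      congr 1
      rw [Nat.cast_sub hsum]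
      push_cast
      rfl
    rw [e1, e2]
    apply Real.rpow_lt_rpow_of_exponent_lt (by norm_num)
    linarith
  have h2 := h.cost_le
  linarith

end Pool.Agent.Lib.P51n
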