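import Pool.Agent.Lib.P51n.Defs

/-!
# P51n.Uniq  (about 1 h)

Uniqueness of small displacements, and rigidity of full shapes.

`Disp.unique`: for `v ∈ Γ` with `|v_i| ≤ R 2^{s_i}`, `h v` and `h' v` are in `Γ'` and their
difference has `j`-th coordinate at most `∑_i 2κ 2^{-(s_i - s_j)} R 2^{s_i} = 2dκR 2^{s_j} < ρ 2^{s_j}`,
so it is `0` by `Sys`; the `v`'s span, so `h = h'`.

`Near.sup`: the two displacements agree.

`near_full`: for a row `i` let `r = (h - 1)_{i·}`, and `s` with `s_i = 0`, `s_j ≤ c_ij`.  For the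
spanning vectors `v ∈ Γ`, `∑_j r_j v_j = (h v)_i - v_i` is an integer of absolute value at most
`∑_j κ 2^{-c_ij} R 2^{s_j} ≤ dκR < 1`, hence `0`, so `r = 0`.  Therefore `h = 1` and `Γ' = Γ`.
(`s i = 0` is not even needed here.)
-/

set_option autoImplicit false

noncomputable section

namespace Pool.Agent.Lib.P51n

variable {d : ℕ}

theorem Uniq_row {v : Fin d → Fin d → ℝ} (hv : LinearIndependent ℝ v) {r : Fin d → ℝ}
    (h : ∀ i, ∑ j, r j * v i j = 0) : r = 0 := by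
  have h1 : IsUnit (Matrix.of v) := Matrix.linearIndependent_rows_iff_isUnit.1 hv
  have h2 : (Matrix.of v).mulVec r = 0 := by
    funext i
    rw [Matrix.mulVec, dotProduct]
    show ∑ j, v i j * r j = 0
    rw [← h i]
    exact Finset.sum_congr rfl fun j _ => mul_comm _ _
  exact (Matrix.mulVec_injective_iff_isUnit.2 h1) (by rw [h2, Matrix.mulVec_zero])

theorem Uniq_rv_inj {k k' : Fin d → ℤ} (h : rv k = rv k') : k = k' := by
  funext j
  have h1 : (k j : ℝ) = (k' j : ℝ) := congrFun h j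
  exact_mod_cast h1

theorem Uniq_two {s t : ℝ} : (2 : ℝ) ^ (-(t - s)) * (2 : ℝ) ^ t = (2 : ℝ) ^ s := by
  rw [← Real.rpow_add (by norm_num)]
  congr 1
  ring

theorem Disp.unique {Γ Γ' : AddSubgroup (Fin d → ℤ)} {ρ R κ : ℝ} {s : Fin d → ℝ}
    (hsys : Sys ρ s Γ') (hspn : Spn R s Γ) (hκ : 0 ≤ κ) (hR : 0 ≤ R)
    (hsm : 2 * d * κ * R < ρ) {h h' : Matrix (Fin d) (Fin d) ℝ} (h1 : Disp h Γ Γ')
    (h2 : Disp h' Γ Γ') (n1 : NearOne κ (cs s) h) (n2 : NearOne κ (cs s) h') : h = h' := by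
  obtain ⟨v, hvΓ, hvl, hvb⟩ := hspn
  have key : ∀ m j, ∑ i, (h j i - h' j i) * (v m i : ℝ) = 0 := by
    intro m
    obtain ⟨k1, hk1, e1⟩ := h1.1 (v m) (hvΓ m)
    obtain ⟨k2, hk2, e2⟩ := h2.1 (v m) (hvΓ m)
    have hcoord : ∀ j, ((k1 - k2 : Fin d → ℤ) j : ℝ) = ∑ i, (h j i - h' j i) * (v m i : ℝ) := by
      intro j
      have a1 : ∑ i, h j i * (v m i : ℝ) = (k1 j : ℝ) := congrFun e1 j
      have a2 : ∑ i, h' j i * (v m i : ℝ) = (k2 j : ℝ) := congrFun e2 j
      rw [Pi.sub_apply]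
      push_cast
      rw [← a1, ← a2, ← Finset.sum_sub_distrib]
      exact Finset.sum_congr rfl fun i _ => by ring
    have hb : ∀ j, |((k1 - k2 : Fin d → ℤ) j : ℝ)| < ρ * (2 : ℝ) ^ (s j) := by
      intro j
      rw [hcoord]
      have hpos : (0 : ℝ) < (2 : ℝ) ^ (s j) := Real.rpow_pos_of_pos (by norm_num) _
      calc |∑ i, (h j i - h' j i) * (v m i : ℝ)| ≤ ∑ i, |(h j i - h' j i) * (v m i : ℝ)| :=
            Finset.abs_sum_le_sum_abs _ _
        _ ≤ ∑ _i : Fin d, 2 * κ * R * (2 : ℝ) ^ (s j) := by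
            refine Finset.sum_le_sum fun i _ => ?_
            rw [abs_mul]
            have b1 : |h j i - h' j i| ≤ 2 * (κ * (2 : ℝ) ^ (-cs s j i)) := by
              have c1 := n1 j i
              have c2 := n2 j i
              have c3 : h j i - h' j i = (h j i - (1 : Matrix (Fin d) (Fin d) ℝ) j i) -
                  (h' j i - (1 : Matrix (Fin d) (Fin d) ℝ) j i) := by ring
              rw [c3]
              refine (abs_sub _ _).trans ?_
              linarith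
            have b2 := hvb m i
            calc |h j i - h' j i| * |(v m i : ℝ)| ≤
                  (2 * (κ * (2 : ℝ) ^ (-cs s j i))) * (R * (2 : ℝ) ^ (s i)) :=
                  mul_le_mul b1 b2 (abs_nonneg _) (by positivity)
              _ = 2 * κ * R * ((2 : ℝ) ^ (-(s i - s j)) * (2 : ℝ) ^ (s i)) := by
                  unfold cs
                  ring
              _ = 2 * κ * R * (2 : ℝ) ^ (s j) := by rw [Uniq_two]
        _ = 2 * d * κ * R * (2 : ℝ) ^ (s j) := by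
            rw [Finset.sum_const, Finset.card_univ, Fintype.card_fin, nsmul_eq_mul]
            ring
        _ < ρ * (2 : ℝ) ^ (s j) := mul_lt_mul_of_pos_right hsm hpos
    have h0 : k1 - k2 = 0 := by
      by_contra hne
      obtain ⟨j, hj⟩ := hsys (k1 - k2) (Γ'.sub_mem hk1 hk2) hne
      exact absurd (hb j) (not_lt.2 hj)
    intro j
    rw [← hcoord, h0]
    simp
  have h3 : ∀ j, (fun i => h j i - h' j i) = 0 := fun j => Uniq_row hvl fun m => key m j
  ext j i
  have h4 := congrFun (h3 j) i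
  exact sub_eq_zero.1 h4

theorem Uniq_mono {κ : ℝ} (hκ : 0 ≤ κ) {c c' : Fin d → Fin d → ℝ} (hc : ∀ i j, c i j ≤ c' i j)
    {h : Matrix (Fin d) (Fin d) ℝ} (hn : NearOne κ c' h) : NearOne κ c h := by
  intro i j
  refine (hn i j).trans (mul_le_mul_of_nonneg_left ?_ hκ)
  exact Real.rpow_le_rpow_of_exponent_le (by norm_num) (neg_le_neg (hc i j))

theorem Near.sup {Γ Γ' : AddSubgroup (Fin d → ℤ)} {ρ R κ : ℝ} {s : Fin d → ℝ}
    (hsys : Sys ρ s Γ') (hspn : Spn R s Γ) (hκ : 0 ≤ κ) (hR : 0 ≤ R)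
    (hsm : 2 * d * κ * R < ρ) {c c' : Fin d → Fin d → ℝ} (hc : ∀ i j, cs s i j ≤ c i j)
    (hc' : ∀ i j, cs s i j ≤ c' i j) (h1 : Near κ c Γ Γ') (h2 : Near κ c' Γ Γ') :
    Near κ (c ⊔ c') Γ Γ' := by
  obtain ⟨h, hd, hn⟩ := h1
  obtain ⟨h', hd', hn'⟩ := h2
  have heq : h = h' := Disp.unique hsys hspn hκ hR hsm hd hd' (Uniq_mono hκ hc hn)
    (Uniq_mono hκ hc' hn')
  subst heq
  refine ⟨h, hd, fun i j => ?_⟩
  show |h i j - (1 : Matrix (Fin d) (Fin d) ℝ) i j| ≤ κ * (2 : ℝ) ^ (-(c i j ⊔ c' i j))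
  rcases le_total (c i j) (c' i j) with hle | hle
  · rw [sup_eq_right.2 hle]
    exact hn' i j
  · rw [sup_eq_left.2 hle]
    exact hn i j

theorem near_full {Γ Γ' : AddSubgroup (Fin d → ℤ)} {R κ : ℝ} (hκ : 0 ≤ κ) (hR : 0 ≤ R)
    (hsm : d * κ * R < 1) {c : Fin d → Fin d → ℝ}
    (hc : ∀ i, ∃ s : Fin d → ℝ, Spn R s Γ ∧ ∀ j, s j ≤ c i j) (h : Near κ c Γ Γ') :
    Γ' = Γ := by
  obtain ⟨h, hd, hn⟩ := h
  have hrow : ∀ i, (fun j => h i j - (1 : Matrix (Fin d) (Fin d) ℝ) i j) = 0 := by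
    intro i
    obtain ⟨s, ⟨v, hvΓ, hvl, hvb⟩, hs⟩ := hc i
    refine Uniq_row hvl fun m => ?_
    obtain ⟨k1, hk1, e1⟩ := hd.1 (v m) (hvΓ m)
    have a1 : ∑ j, h i j * (v m j : ℝ) = (k1 i : ℝ) := congrFun e1 i
    have a2 : ∑ j, (1 : Matrix (Fin d) (Fin d) ℝ) i j * (v m j : ℝ) = (v m i : ℝ) := by
      have := congrFun (Matrix.one_mulVec (rv (v m))) i
      exact this
    have a3 : ∑ j, (h i j - (1 : Matrix (Fin d) (Fin d) ℝ) i j) * (v m j : ℝ) =
        ((k1 i - v m i : ℤ) : ℝ) := by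
      push_cast
      rw [← a1, ← a2, ← Finset.sum_sub_distrib]
      exact Finset.sum_congr rfl fun j _ => by ring
    have a4 : |((k1 i - v m i : ℤ) : ℝ)| < 1 := by
      rw [← a3]
      calc |∑ j, (h i j - (1 : Matrix (Fin d) (Fin d) ℝ) i j) * (v m j : ℝ)| ≤
            ∑ j, |(h i j - (1 : Matrix (Fin d) (Fin d) ℝ) i j) * (v m j : ℝ)| :=
            Finset.abs_sum_le_sum_abs _ _
        _ ≤ ∑ _j : Fin d, κ * R := by
            refine Finset.sum_le_sum fun j _ => ?_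
            rw [abs_mul]
            calc |h i j - (1 : Matrix (Fin d) (Fin d) ℝ) i j| * |(v m j : ℝ)| ≤
                  (κ * (2 : ℝ) ^ (-c i j)) * (R * (2 : ℝ) ^ (s j)) :=
                  mul_le_mul (hn i j) (hvb m j) (abs_nonneg _) (by positivity)
              _ = κ * R * ((2 : ℝ) ^ (-c i j) * (2 : ℝ) ^ (s j)) := by ring
              _ ≤ κ * R * 1 := by
                  refine mul_le_mul_of_nonneg_left ?_ (mul_nonneg hκ hR)
                  rw [← Real.rpow_add (by norm_num)]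
                  refine Real.rpow_le_one_of_one_le_of_nonpos (by norm_num) ?_
                  linarith [hs j]
              _ = κ * R := mul_one _
        _ = d * κ * R := by
            rw [Finset.sum_const, Finset.card_univ, Fintype.card_fin, nsmul_eq_mul]
            ring
        _ < 1 := hsm
    rw [a3]
    have a5 : |k1 i - v m i| < 1 := by exact_mod_cast a4
    rw [Int.abs_lt_one_iff.1 a5]
    simp
  have h1 : h = 1 := by
    ext i j
    exact sub_eq_zero.1 (congrFun (hrow i) j)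
  subst h1
  ext k
  constructor
  · intro hk
    obtain ⟨k1, hk1, e1⟩ := hd.2 k hk
    rw [Matrix.one_mulVec] at e1
    rw [← Uniq_rv_inj e1]
    exact hk1
  · intro hk
    obtain ⟨k1, hk1, e1⟩ := hd.1 k hk
    rw [Matrix.one_mulVec] at e1
    rw [Uniq_rv_inj e1]
    exact hk1

end Pool.Agent.Lib.P51n
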