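import Mathlib

/-!
# P51n.XLin  (about 1.2 h)

Linear algebra estimates: matrices of the form `(small) · u₁₃(V)` with `V` possibly huge.

`fwd`: with `w' = Q w`, `w'₁ = Q₁₁(w₁ + V w₃) + (Q₁₃ - Q₁₁V) w₃ + Q₁₂w₂ + ∑_{l ≠ 1,2,3} Q₁ₗwₗ`, so
`|w'₁ - Q₁₁(w₁+Vw₃)| ≤ 4dRε ≤ 2^{-j}/16`; for `l ≠ i₁`, `|w'_l - Q_ll w_l| ≤ |Q_l1||w₁| + 4dRε` and
`|w₁| ≤ 1 + 4R|V|`, `|Q_l1||w₁| ≤ ε(1+4R)` by `rest`.

`bwd`: with `w = P w'`, `w₁ + V w₃ = P₁₁w'₁ + P₁₂w'₂ + (P₁₃ + P₃₃V) w'₃ + ∑_{l≠1,2,3} P₁ₗw'ₗ +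
∑_{l ≠ 3} V P₃ₗ w'ₗ`, `P₁₁w'₁ ∈ [-(9/8)(5/4)R, -(7/8)(3/4)R]`, the rest is at most `16dRε ≤ R/16`;
`w_l` is within `8dRε` of `P_ll w'_l ∈ [(7/8)(11/4)R, (9/8)(13/4)R]`.
-/

set_option autoImplicit false

noncomputable section

namespace Pool.Agent.Lib.P51n

variable {d : ℕ}

/-- `Q` is almost diagonal apart from the entry `(i₁,i₃)`, relative to the large number `V`. -/
structure HM (i₁ i₂ i₃ : Fin d) (ε V : ℝ) (Q : Matrix (Fin d) (Fin d) ℝ) : Prop where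
  diag : ∀ i, |Q i i - 1| ≤ 1 / 8
  r12 : |Q i₁ i₂| ≤ ε
  r23 : |Q i₂ i₃| ≤ ε
  rest : ∀ i j, i ≠ j → ¬ (i = i₁ ∧ j = i₂) → ¬ (i = i₂ ∧ j = i₃) → ¬ (i = i₁ ∧ j = i₃) →
    |Q i j| ≤ ε ∧ |Q i j| * |V| ≤ ε

theorem row_bound (q w : Fin d → ℝ) (l : Fin d) {B : ℝ} (hB : 0 ≤ B)
    (h : ∀ m, m ≠ l → |q m * w m| ≤ B) : |(∑ m, q m * w m) - q l * w l| ≤ d * B := by
  classical
  rw [← Finset.add_sum_erase _ (fun m => q m * w m) (Finset.mem_univ l), add_sub_cancel_left]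
  calc |∑ m ∈ Finset.univ.erase l, q m * w m|
      ≤ ∑ m ∈ Finset.univ.erase l, |q m * w m| := Finset.abs_sum_le_sum_abs _ _
    _ ≤ ∑ m ∈ Finset.univ.erase l, B :=
        Finset.sum_le_sum fun m hm => h m (Finset.mem_erase.1 hm).1
    _ ≤ ∑ m : Fin d, B := Finset.sum_le_sum_of_subset_of_nonneg (Finset.erase_subset _ _)
        fun _ _ _ => hB
    _ = d * B := by rw [Finset.sum_const, Finset.card_univ, Fintype.card_fin, nsmul_eq_mul]

theorem abs_mul_le' {x y B C : ℝ} (hx : |x| ≤ B) (hy : |y| ≤ C) : |x * y| ≤ B * C := by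
  rw [abs_mul]
  exact mul_le_mul hx hy (abs_nonneg _) ((abs_nonneg _).trans hx)

theorem fwd {i₁ i₂ i₃ : Fin d} (h12 : i₁ ≠ i₂) (h23 : i₂ ≠ i₃) (h13 : i₁ ≠ i₃) {ε V R : ℝ}
    {j : ℕ} {Q : Matrix (Fin d) (Fin d) ℝ} (hQ : HM i₁ i₂ i₃ ε V Q)
    (hV : |Q i₁ i₃ - Q i₁ i₁ * V| ≤ ε) (hR : 1 ≤ R) (hε : 0 ≤ ε)
    (hε' : 64 * d * R * ε ≤ (1 / 2 : ℝ) ^ j) {w : Fin d → ℝ}
    (hw : ∀ l, l ≠ i₁ → 2 * R ≤ w l ∧ w l ≤ 4 * R)
    (hw1 : (1 / 2) * (1 / 2 : ℝ) ^ j ≤ w i₁ + V * w i₃) (hw1' : w i₁ + V * w i₃ ≤ (1 / 2 : ℝ) ^ j) :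
    (1 / 4) * (1 / 2 : ℝ) ^ j ≤ Q.mulVec w i₁ ∧ Q.mulVec w i₁ ≤ 2 * (1 / 2 : ℝ) ^ j ∧
      ∀ l, l ≠ i₁ → R ≤ Q.mulVec w l ∧ Q.mulVec w l ≤ 5 * R := by
  have hd : (1 : ℝ) ≤ d := by
    have : 0 < d := Nat.pos_of_ne_zero (by rintro rfl; exact i₁.elim0)
    exact_mod_cast this
  have hj0 : (0 : ℝ) < (1 / 2 : ℝ) ^ j := by positivity
  have hj1 : (1 / 2 : ℝ) ^ j ≤ 1 := pow_le_one₀ (by norm_num) (by norm_num)
  have hR0 : 0 ≤ R := by linarith
  have hwa : ∀ l, l ≠ i₁ → |w l| ≤ 4 * R := by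
    intro l hl
    have := hw l hl
    rw [abs_le]
    constructor <;> linarith
  have hdRε : ∀ c : ℝ, d * (ε * (c * R)) = c * (d * R * ε) := fun c => by ring
  have hmv : ∀ l, Q.mulVec w l = ∑ m, Q l m * w m := fun l => rfl
  have hde : d * R * ε ≤ (1 / 2 : ℝ) ^ j / 64 := by linarith
  have hrow1 : |Q.mulVec w i₁ - Q i₁ i₁ * (w i₁ + V * w i₃)| ≤ d * (ε * (4 * R)) := by
    have h1 := row_bound (fun m => Q i₁ m - if m = i₃ then Q i₁ i₁ * V else 0) w i₁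
      (B := ε * (4 * R)) (by positivity) (by
        intro m hm
        refine abs_mul_le' ?_ (hwa m hm)
        by_cases h3 : m = i₃
        · subst h3
          simpa using hV
        · simp only [h3, if_false, sub_zero]
          by_cases h2 : m = i₂
          · rw [h2]; exact hQ.r12
          · exact (hQ.rest i₁ m (Ne.symm hm) (fun h => h2 h.2) (fun h => h12 h.1)
              (fun h => h3 h.2)).1)
    have h2 : ∑ m, (Q i₁ m - if m = i₃ then Q i₁ i₁ * V else 0) * w m =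
        Q.mulVec w i₁ - Q i₁ i₁ * V * w i₃ := by
      simp only [sub_mul, Finset.sum_sub_distrib, ite_mul, zero_mul, Finset.sum_ite_eq',
        Finset.mem_univ, if_true]
      rfl
    simp only [h13, if_false, sub_zero] at h1
    rw [h2] at h1
    have h3 : Q.mulVec w i₁ - Q i₁ i₁ * (w i₁ + V * w i₃) =
        Q.mulVec w i₁ - Q i₁ i₁ * V * w i₃ - Q i₁ i₁ * w i₁ := by ring
    rw [h3]
    exact h1
  rw [hdRε] at hrow1
  have hd1 := abs_le.1 (hQ.diag i₁)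
  have hr1 := abs_le.1 hrow1
  have hlow : (7 / 8) * (w i₁ + V * w i₃) ≤ Q i₁ i₁ * (w i₁ + V * w i₃) :=
    mul_le_mul_of_nonneg_right (by linarith) (by linarith)
  have hup : Q i₁ i₁ * (w i₁ + V * w i₃) ≤ (9 / 8) * (w i₁ + V * w i₃) :=
    mul_le_mul_of_nonneg_right (by linarith) (by linarith)
  refine ⟨by linarith, by linarith, fun l hl => ?_⟩
  have hw1a : |w i₁| ≤ 1 + |V| * (4 * R) := by
    have h1 : w i₁ = (w i₁ + V * w i₃) - V * w i₃ := by ring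
    have h2 : |w i₁ + V * w i₃| ≤ 1 := by
      rw [abs_le]; constructor <;> linarith
    have h3 : |V * w i₃| ≤ |V| * (4 * R) := abs_mul_le' le_rfl (hwa i₃ (Ne.symm h13))
    calc |w i₁| = |(w i₁ + V * w i₃) - V * w i₃| := by rw [← h1]
      _ ≤ |w i₁ + V * w i₃| + |V * w i₃| := abs_sub _ _
      _ ≤ _ := by linarith
  have hrow : |Q.mulVec w l - Q l l * w l| ≤ d * (ε * (5 * R)) := by
    refine row_bound (fun m => Q l m) w l (by positivity) ?_
    intro m hm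
    by_cases h1 : m = i₁
    · subst h1
      have h2 := hQ.rest l m hl (fun h => hl h.1) (fun h => h13 h.2) (fun h => hl h.1)
      calc |Q l m * w m| = |Q l m| * |w m| := abs_mul _ _
        _ ≤ |Q l m| * (1 + |V| * (4 * R)) := mul_le_mul_of_nonneg_left hw1a (abs_nonneg _)
        _ = |Q l m| + (|Q l m| * |V|) * (4 * R) := by ring
        _ ≤ ε + ε * (4 * R) :=
            add_le_add h2.1 (mul_le_mul_of_nonneg_right h2.2 (by positivity))
        _ ≤ ε * (5 * R) := by nlinarith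
    · have h2 : |Q l m| ≤ ε := by
        by_cases h3 : l = i₂ ∧ m = i₃
        · rw [h3.1, h3.2]; exact hQ.r23
        · exact (hQ.rest l m (Ne.symm hm) (fun h => hl h.1) h3 (fun h => hl h.1)).1
      refine (abs_mul_le' h2 (hwa m h1)).trans ?_
      exact mul_le_mul_of_nonneg_left (by linarith) hε
  rw [hdRε] at hrow
  have hd2 := abs_le.1 (hQ.diag l)
  have hr2 := abs_le.1 hrow
  have hwl := hw l hl
  have hlow2 : (7 / 8) * w l ≤ Q l l * w l :=
    mul_le_mul_of_nonneg_right (by linarith) (by linarith)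
  have hup2 : Q l l * w l ≤ (9 / 8) * w l :=
    mul_le_mul_of_nonneg_right (by linarith) (by linarith)
  constructor <;> linarith

theorem bwd {i₁ i₂ i₃ : Fin d} (h12 : i₁ ≠ i₂) (h23 : i₂ ≠ i₃) (h13 : i₁ ≠ i₃) {ε V R : ℝ}
    {P : Matrix (Fin d) (Fin d) ℝ} (hP : HM i₁ i₂ i₃ ε V P)
    (hV : |P i₁ i₃ + P i₃ i₃ * V| ≤ ε) (hR : 1 ≤ R) (hε : 0 ≤ ε) (hε' : 256 * d * ε ≤ 1)
    {w' : Fin d → ℝ} (hw1 : |w' i₁ + R| ≤ R / 4) (hw : ∀ l, l ≠ i₁ → |w' l - 3 * R| ≤ R / 4) :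
    -(3 / 2) * R ≤ P.mulVec w' i₁ + V * P.mulVec w' i₃ ∧
      P.mulVec w' i₁ + V * P.mulVec w' i₃ ≤ -(1 / 2) * R ∧
      ∀ l, l ≠ i₁ → 2 * R ≤ P.mulVec w' l ∧ P.mulVec w' l ≤ 4 * R := by
  have hd : (1 : ℝ) ≤ d := by
    have : 0 < d := Nat.pos_of_ne_zero (by rintro rfl; exact i₁.elim0)
    exact_mod_cast this
  have hR0 : 0 ≤ R := by linarith
  have hwa : ∀ l, |w' l| ≤ 13 / 4 * R := by
    intro l
    rw [abs_le]
    by_cases hl : l = i₁
    · rw [hl]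
      have := abs_le.1 hw1
      constructor <;> linarith
    · have := abs_le.1 (hw l hl)
      constructor <;> linarith
  have hdRε : ∀ c : ℝ, d * (ε * (c * R)) = c * (d * ε) * R := fun c => by ring
  have hde : d * ε ≤ 1 / 256 := by linarith
  have hde' : ∀ c : ℝ, 0 ≤ c → d * (ε * (c * R)) ≤ c / 256 * R := by
    intro c hc
    rw [hdRε]
    apply mul_le_mul_of_nonneg_right _ hR0
    calc c * (d * ε) ≤ c * (1 / 256) := mul_le_mul_of_nonneg_left hde hc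
      _ = c / 256 := by ring
  have hεR : ε * R ≤ R / 256 := by
    have h1 : ε ≤ d * ε := by nlinarith
    calc ε * R ≤ (1 / 256) * R := mul_le_mul_of_nonneg_right (h1.trans hde) hR0
      _ = R / 256 := by ring
  have hrow1 : |P.mulVec w' i₁ + V * P.mulVec w' i₃ - P i₁ i₁ * w' i₁| ≤
      d * (ε * (13 / 2 * R)) + ε * (13 / 4 * R) := by
    have h1 := row_bound (fun m => P i₁ m + V * P i₃ m) w' i₁
      (B := ε * (13 / 2 * R)) (by positivity) (by
        intro m hm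
        have h4 : |P i₁ m + V * P i₃ m| ≤ 2 * ε := by
          by_cases h3 : m = i₃
          · subst h3
            rw [mul_comm V]
            linarith
          · have h5 : |P i₁ m| ≤ ε := by
              by_cases h2 : m = i₂
              · rw [h2]; exact hP.r12
              · exact (hP.rest i₁ m (Ne.symm hm) (fun h => h2 h.2) (fun h => h12 h.1)
                  (fun h => h3 h.2)).1
            have h6 : |V * P i₃ m| ≤ ε := by
              rw [abs_mul, mul_comm]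
              exact (hP.rest i₃ m (Ne.symm h3) (fun h => h13 h.1.symm) (fun h => h23 h.1.symm)
                (fun h => h13 h.1.symm)).2
            exact (abs_add_le _ _).trans (by linarith)
        refine (abs_mul_le' h4 (hwa m)).trans (le_of_eq ?_)
        ring)
    have h2 : ∑ m, (P i₁ m + V * P i₃ m) * w' m = P.mulVec w' i₁ + V * P.mulVec w' i₃ := by
      simp only [add_mul, Finset.sum_add_distrib]
      congr 1
      change _ = V * ∑ m, P i₃ m * w' m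
      rw [Finset.mul_sum]
      exact Finset.sum_congr rfl fun m _ => by ring
    simp only [h2] at h1
    have h3 : |V * P i₃ i₁ * w' i₁| ≤ ε * (13 / 4 * R) := by
      refine abs_mul_le' ?_ (hwa i₁)
      rw [abs_mul, mul_comm]
      exact (hP.rest i₃ i₁ (Ne.symm h13) (fun h => h13 h.1.symm) (fun h => h23 h.1.symm)
        (fun h => h13 h.1.symm)).2
    have h4 : P.mulVec w' i₁ + V * P.mulVec w' i₃ - P i₁ i₁ * w' i₁ =
        (P.mulVec w' i₁ + V * P.mulVec w' i₃ - (P i₁ i₁ + V * P i₃ i₁) * w' i₁) +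
          V * P i₃ i₁ * w' i₁ := by ring
    rw [h4]
    exact (abs_add_le _ _).trans (add_le_add h1 h3)
  have hb := hde' (13 / 2) (by norm_num)
  have hr1 := abs_le.1 hrow1
  have hd1 := abs_le.1 (hP.diag i₁)
  have hw1' := abs_le.1 hw1
  have hup : P i₁ i₁ * w' i₁ ≤ (7 / 8) * w' i₁ :=
    mul_le_mul_of_nonpos_right (by linarith) (by linarith)
  have hlow : (9 / 8) * w' i₁ ≤ P i₁ i₁ * w' i₁ :=
    mul_le_mul_of_nonpos_right (by linarith) (by linarith)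
  have hb2 : ε * (13 / 4 * R) ≤ 13 / 4 * (R / 256) := by linarith
  refine ⟨by linarith, by linarith, fun l hl => ?_⟩
  have hrow : |P.mulVec w' l - P l l * w' l| ≤ d * (ε * (13 / 4 * R)) := by
    refine row_bound (fun m => P l m) w' l (by positivity) ?_
    intro m hm
    refine abs_mul_le' ?_ (hwa m)
    by_cases h3 : l = i₂ ∧ m = i₃
    · rw [h3.1, h3.2]; exact hP.r23
    · exact (hP.rest l m (Ne.symm hm) (fun h => hl h.1) h3 (fun h => hl h.1)).1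
  have hb3 := hde' (13 / 4) (by norm_num)
  have hr2 := abs_le.1 hrow
  have hd2 := abs_le.1 (hP.diag l)
  have hwl := abs_le.1 (hw l hl)
  have hlow2 : (7 / 8) * w' l ≤ P l l * w' l :=
    mul_le_mul_of_nonneg_right (by linarith) (by linarith)
  have hup2 : P l l * w' l ≤ (9 / 8) * w' l :=
    mul_le_mul_of_nonneg_right (by linarith) (by linarith)
  constructor <;> linarith

end Pool.Agent.Lib.P51n
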