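import Pool.Agent.Lib.P51n.GRel
import Pool.Agent.Lib.P51n.XLin
import Pool.Agent.Lib.P51n.CInvCell

/-!
# P51n.XMat  (about 2.5 h)

The relative displacement of two lattices of the same cell, at the position `s' = σ + v`,
`v = vv i₁ i₂ i₃ (n - k₁ + p) (m + p)`, `p = q - 3`: `v_{i₂} - v_{i₁} = n' := n-k₁+p`,
`v_{i₃} - v_{i₂} = m' := m + p`, `v_{i₃} - v_{i₁} = n'+m'`, all differences `≤ n' + m' ≤ (9/4) N`
in absolute value (`8q ≤ N`, `n, m ≤ N`; `n ≥ k₁`).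

Let `h = h x₀`, `h' = h x`, `Q = h' h⁻¹`, `Q̃ = resc s' Q = (resc σ Q)_ij 2^{v_j - v_i}`.  By `rel_close`
(with `κ = 4κ₀`; `32 d² κ ≤ 1` by `Small`), `|resc σ Q - relM| ≤ 2^{-7N}`.  So with
`|a' - a| ≤ 2^{-n}`, `|b' - b| ≤ 2^{-m-L}` (equal digits) and ratios of diagonal entries in
`[7/8, 9/8]`, even `[1/2, 2]`:
* `|Q̃₁₂| ≤ 2·2^{-p}2^{-n}2^{n'} + 2^{-4N} ≤ 3·2^{-k₁}`, `|Q̃₂₃| ≤ 2·2^{-L} + 2^{-4N} ≤ 3·2^{-L}`;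
* the other entries off `(1,3)` are `≤ 2^{-7N + 9N/4}`, and `|V| ≤ 2^{2N+q+4} ≤ 2^{(5/2) N}`;
* `Q̃₁₃ = (h'₁₁/h₃₃) 2^{-2p} 2^{n'+m'} (z'-z-(a'-a)b) + O(2^{-4N})`, and with `c = z - ab`,
  `z'-z-(a'-a)b = c'-c+a'(b'-b)`, `2^{n+m}(c'-c+ā(b'-b)) = U' - U` (`U = Uf n m a b z x₀`),
  `2^{n+m}|a'-ā||b'-b| ≤ 2^{-L}`; so `Q̃₁₃ = (h'₁₁/h₃₃) 2^{-k₁}(U'-U + O(2^{-L})) + O(2^{-4N})`, while
  `Q̃₁₁ V = (h'₁₁/h₁₁ + O(2^{-7N})) (h₁₁/h₃₃) 2^{-k₁}(U'-U)`.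
Backward: `P = h h'⁻¹`, `P̃₃₃ V = (h₃₃/h'₃₃ + O(2^{-7N}))(h₁₁/h₃₃)2^{-k₁}(U'-U)`,
`P̃₁₃ = (h₁₁/h'₃₃) 2^{-2p}2^{n'+m'}(z - z' - (a-a')b') + … = (h₁₁/h'₃₃)2^{-k₁}(U - U' + O(2^{-L})) + …`
(`z - z' - (a-a')b' = c - c' + a(b-b')`).
-/

set_option autoImplicit false

noncomputable section

namespace Pool.Agent.Lib.P51n

/-- the position visited -/
def spos {d : ℕ} (i₁ i₂ i₃ : Fin d) (σ : Fin d → ℝ) (n m k₁ q : ℕ) : Fin d → ℝ :=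
  σ + vv i₁ i₂ i₃ ((n : ℝ) - k₁ + (q - 3)) ((m : ℝ) + (q - 3))

namespace XMatAux

variable {d : ℕ} {i₁ i₂ i₃ : Fin d}

theorem vv_one (x y : ℝ) : vv i₁ i₂ i₃ x y i₁ = -(2 * x + y) / 3 := by
  unfold vv
  rw [if_pos rfl]

theorem vv_two (h12 : i₁ ≠ i₂) (x y : ℝ) : vv i₁ i₂ i₃ x y i₂ = (x - y) / 3 := by
  unfold vv
  rw [if_neg h12.symm, if_pos rfl]

theorem vv_three (h23 : i₂ ≠ i₃) (h13 : i₁ ≠ i₃) (x y : ℝ) :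
    vv i₁ i₂ i₃ x y i₃ = (x + 2 * y) / 3 := by
  unfold vv
  rw [if_neg h13.symm, if_neg h23.symm, if_pos rfl]

theorem vv_sub_le {x y : ℝ} (hx : 0 ≤ x) (hy : 0 ≤ y) (i j : Fin d) :
    vv i₁ i₂ i₃ x y j - vv i₁ i₂ i₃ x y i ≤ x + y := by
  have h1 : ∀ l, -(2 * x + y) / 3 ≤ vv i₁ i₂ i₃ x y l ∧
      vv i₁ i₂ i₃ x y l ≤ (x + 2 * y) / 3 := by
    intro l
    unfold vv
    split_ifs <;> constructor <;> linarith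
  have h2 := (h1 j).2
  have h3 := (h1 i).1
  linarith

theorem resc_add (σ v : Fin d → ℝ) (Q : Matrix (Fin d) (Fin d) ℝ) (i j : Fin d) :
    resc (σ + v) Q i j = resc σ Q i j * (2 : ℝ) ^ (v j - v i) := by
  simp only [resc, Matrix.of_apply, Pi.add_apply]
  rw [mul_assoc, ← Real.rpow_add (by norm_num : (0 : ℝ) < 2)]
  congr 2
  ring

theorem small {K k N : ℕ} (h : K + k ≤ 7 * N) :
    (1 / 2 : ℝ) ^ (7 * N) * 2 ^ K ≤ (1 / 2 : ℝ) ^ k := by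
  obtain ⟨r, hr⟩ := Nat.exists_eq_add_of_le h
  rw [hr, pow_add, pow_add]
  have e : (1 / 2 : ℝ) ^ K * 2 ^ K = 1 := by
    rw [← mul_pow]
    norm_num
  have h1 : (1 / 2 : ℝ) ^ r ≤ 1 := pow_le_one₀ (by norm_num) (by norm_num)
  have h2 : (0 : ℝ) < (1 / 2 : ℝ) ^ k := by positivity
  calc (1 / 2 : ℝ) ^ K * (1 / 2) ^ k * (1 / 2) ^ r * 2 ^ K
      = ((1 / 2 : ℝ) ^ K * 2 ^ K) * ((1 / 2) ^ k * (1 / 2) ^ r) := by ring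
    _ = (1 / 2) ^ k * (1 / 2) ^ r := by rw [e, one_mul]
    _ ≤ (1 / 2) ^ k * 1 := mul_le_mul_of_nonneg_left h1 h2.le
    _ = _ := mul_one _

/-- the factor in the entry `(1,2)` -/
theorem fac12 {n k₁ p : ℕ} : (2 : ℝ) ^ ((n : ℝ) - k₁ + p) = 2 ^ (n + p) * (1 / 2) ^ k₁ := by
  have e : (n : ℝ) - k₁ + p = ((n + p : ℕ) : ℝ) - (k₁ : ℕ) := by
    push_cast
    ring
  rw [e, Real.rpow_sub (by norm_num), Real.rpow_natCast, Real.rpow_natCast, one_div, inv_pow,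
    div_eq_mul_inv]

theorem fac23 {m p : ℕ} : (2 : ℝ) ^ ((m : ℝ) + p) = 2 ^ (m + p) := by
  rw [← Real.rpow_natCast]
  congr 1
  push_cast
  ring

theorem fac13 {n m k₁ p : ℕ} : (2 : ℝ) ^ (((n : ℝ) - k₁ + p) + ((m : ℝ) + p)) =
    2 ^ (n + m) * 2 ^ (2 * p) * (1 / 2) ^ k₁ := by
  rw [Real.rpow_add (by norm_num), fac12, fac23]
  have e : (2 : ℝ) ^ (n + m) * 2 ^ (2 * p) = 2 ^ (n + p) * 2 ^ (m + p) := by
    rw [← pow_add, ← pow_add]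
    congr 1
    ring
  rw [e]
  ring

theorem half_two (k : ℕ) : (1 / 2 : ℝ) ^ k * 2 ^ k = 1 := by
  rw [← mul_pow]
  norm_num

theorem close {N p n m k₁ : ℕ} (hkn : k₁ ≤ n) (hn : n ≤ N)
    (hm : m ≤ N) {σ : Fin d → ℝ} {Q R : Matrix (Fin d) (Fin d) ℝ}
    (hQ : ∀ i j, |resc σ Q i j - R i j| ≤ (1 / 2 : ℝ) ^ (7 * N)) (i j : Fin d) :
    |resc (σ + vv i₁ i₂ i₃ ((n : ℝ) - k₁ + p) ((m : ℝ) + p)) Q i j - R i j *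
      (2 : ℝ) ^ (vv i₁ i₂ i₃ ((n : ℝ) - k₁ + p) ((m : ℝ) + p) j -
        vv i₁ i₂ i₃ ((n : ℝ) - k₁ + p) ((m : ℝ) + p) i)| ≤
      (1 / 2 : ℝ) ^ (7 * N) * 2 ^ (2 * N + 2 * p) := by
  rw [resc_add, ← sub_mul, abs_mul, abs_of_pos (Real.rpow_pos_of_pos (by norm_num) _)]
  refine mul_le_mul (hQ i j) ?_ (Real.rpow_pos_of_pos (by norm_num) _).le (by positivity)
  have hkn' : (k₁ : ℝ) ≤ n := by exact_mod_cast hkn
  have hn' : (n : ℝ) ≤ N := by exact_mod_cast hn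
  have hm' : (m : ℝ) ≤ N := by exact_mod_cast hm
  have hk0 : (0 : ℝ) ≤ k₁ := by positivity
  have hp0 : (0 : ℝ) ≤ p := by positivity
  have hm0 : (0 : ℝ) ≤ m := by positivity
  have h1 := vv_sub_le (i₁ := i₁) (i₂ := i₂) (i₃ := i₃) (x := (n : ℝ) - k₁ + p)
    (y := (m : ℝ) + p) (by linarith) (by linarith) i j
  rw [← Real.rpow_natCast]
  refine Real.rpow_le_rpow_of_exponent_le (by norm_num) (h1.trans ?_)
  push_cast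
  linarith

/-- ratios of numbers close to `1` -/
theorem ratio {x y : ℝ} (hx : |x - 1| ≤ 1 / 64) (hy : |y - 1| ≤ 1 / 64) :
    |x / y - 1| ≤ 1 / 16 ∧ |x / y| ≤ 9 / 8 ∧ 0 < y := by
  rw [abs_le] at hx hy
  have hy0 : 0 < y := by linarith
  have h1 : |x / y - 1| ≤ 1 / 16 := by
    rw [div_sub_one hy0.ne', abs_div, abs_of_pos hy0, div_le_iff₀ hy0, abs_le]
    constructor <;> linarith
  refine ⟨h1, ?_, hy0⟩
  rw [abs_le] at h1 ⊢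
  constructor <;> linarith

theorem hm_of (h12 : i₁ ≠ i₂) (h23 : i₂ ≠ i₃) (h13 : i₁ ≠ i₃) {N p n m k₁ L : ℕ}
    (hN : k₁ + 9 ≤ N) (hqN : 8 * (p + 3) ≤ N) (hkn : k₁ ≤ n) (hn : n ≤ N) (hm : m ≤ N)
    (hL : k₁ ≤ L) {σ : Fin d → ℝ} {Q g g' : Matrix (Fin d) (Fin d) ℝ}
    (hg : ∀ i, |g i i - 1| ≤ 1 / 64) (hg' : ∀ i, |g' i i - 1| ≤ 1 / 64)
    (hQ : ∀ i j, |resc σ Q i j - relM i₁ i₂ i₃ σ p g g' i j| ≤ (1 / 2 : ℝ) ^ (7 * N))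
    (ha : |coA i₁ i₂ σ p g' - coA i₁ i₂ σ p g| ≤ 2 * (1 / 2 : ℝ) ^ n)
    (hb : |coB i₂ i₃ σ p g' - coB i₂ i₃ σ p g| ≤ (1 / 2 : ℝ) ^ (m + L))
    {V : ℝ} (hV : |V| ≤ 2 ^ (2 * N + p + 6)) :
    HM i₁ i₂ i₃ (16 * (1 / 2 : ℝ) ^ k₁) V
      (resc (σ + vv i₁ i₂ i₃ ((n : ℝ) - k₁ + p) ((m : ℝ) + p)) Q) ∧
    (∀ i, |resc (σ + vv i₁ i₂ i₃ ((n : ℝ) - k₁ + p) ((m : ℝ) + p)) Q i i - g' i i / g i i| ≤
      (1 / 2 : ℝ) ^ (7 * N)) ∧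
    |resc (σ + vv i₁ i₂ i₃ ((n : ℝ) - k₁ + p) ((m : ℝ) + p)) Q i₁ i₃ -
      g' i₁ i₁ / g i₃ i₃ * (1 / 2) ^ k₁ * (2 ^ (n + m) * (coZ i₁ i₃ σ p g' - coZ i₁ i₃ σ p g -
      (coA i₁ i₂ σ p g' - coA i₁ i₂ σ p g) * coB i₂ i₃ σ p g))| ≤ (1 / 2) ^ k₁ := by
  have hc := close (i₁ := i₁) (i₂ := i₂) (i₃ := i₃) (p := p) hkn hn hm hQ
  have hk0 : (0 : ℝ) < (1 / 2 : ℝ) ^ k₁ := by positivity
  have hs : (1 / 2 : ℝ) ^ (7 * N) * 2 ^ (2 * N + 2 * p) ≤ (1 / 2 : ℝ) ^ k₁ :=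
    small (by omega)
  have hs2 : (1 / 2 : ℝ) ^ (7 * N) * 2 ^ (2 * N + 2 * p) * 2 ^ (2 * N + p + 6) ≤
      (1 / 2 : ℝ) ^ k₁ := by
    rw [mul_assoc, ← pow_add]
    exact small (by omega)
  set s' := σ + vv i₁ i₂ i₃ ((n : ℝ) - k₁ + p) ((m : ℝ) + p) with hs'
  have hdiag : ∀ i, |resc s' Q i i - g' i i / g i i| ≤ (1 / 2 : ℝ) ^ (7 * N) := by
    intro i
    have e : resc s' Q i i = resc σ Q i i := by
      rw [hs', resc_add, sub_self, Real.rpow_zero, mul_one]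
    rw [e]
    have h1 := hQ i i
    simpa [relM] using h1
  have h7 : (1 / 2 : ℝ) ^ (7 * N) ≤ 1 / 16 := by
    calc (1 / 2 : ℝ) ^ (7 * N) ≤ (1 / 2 : ℝ) ^ 4 :=
          pow_le_pow_of_le_one (by norm_num) (by norm_num) (by omega)
      _ = 1 / 16 := by norm_num
  refine ⟨⟨?_, ?_, ?_, ?_⟩, hdiag, ?_⟩
  · intro i
    have h1 := hdiag i
    have h2 := (ratio (hg' i) (hg i)).1
    have e : resc s' Q i i - 1 = (resc s' Q i i - g' i i / g i i) + (g' i i / g i i - 1) := by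
      ring
    rw [e]
    exact (abs_add_le _ _).trans (by linarith)
  · have h1 := hc i₁ i₂
    rw [vv_one, vv_two h12] at h1
    have e1 : ((n : ℝ) - k₁ + p - ((m : ℝ) + p)) / 3 -
        -(2 * ((n : ℝ) - k₁ + p) + ((m : ℝ) + p)) / 3 = (n : ℝ) - k₁ + p := by ring
    rw [e1, fac12] at h1
    have e2 : relM i₁ i₂ i₃ σ p g g' i₁ i₂ = g' i₁ i₁ / g i₂ i₂ * (1 / 2) ^ p *
        (coA i₁ i₂ σ p g' - coA i₁ i₂ σ p g) := by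
      simp [relM, h12]
    rw [e2] at h1
    have e3 : g' i₁ i₁ / g i₂ i₂ * (1 / 2) ^ p * (coA i₁ i₂ σ p g' - coA i₁ i₂ σ p g) *
        (2 ^ (n + p) * (1 / 2) ^ k₁) = (g' i₁ i₁ / g i₂ i₂ *
          (coA i₁ i₂ σ p g' - coA i₁ i₂ σ p g) * 2 ^ n) * (1 / 2) ^ k₁ := by
      have := half_two p
      calc _ = g' i₁ i₁ / g i₂ i₂ * (coA i₁ i₂ σ p g' - coA i₁ i₂ σ p g) * 2 ^ n *
            (1 / 2) ^ k₁ * ((1 / 2) ^ p * 2 ^ p) := by rw [pow_add]; ring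
        _ = _ := by rw [this, mul_one]
    rw [e3] at h1
    have h2 := (ratio (hg' i₁) (hg i₂)).2.1
    have h3 : |g' i₁ i₁ / g i₂ i₂ * (coA i₁ i₂ σ p g' - coA i₁ i₂ σ p g) * 2 ^ n| ≤ 9 / 4 := by
      rw [abs_mul, abs_mul, abs_of_pos (by positivity : (0 : ℝ) < 2 ^ n)]
      calc |g' i₁ i₁ / g i₂ i₂| * |coA i₁ i₂ σ p g' - coA i₁ i₂ σ p g| * 2 ^ n
          ≤ 9 / 8 * (2 * (1 / 2 : ℝ) ^ n) * 2 ^ n := by
            refine mul_le_mul_of_nonneg_right ?_ (by positivity)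
            exact mul_le_mul h2 ha (abs_nonneg _) (by norm_num)
        _ = 9 / 4 * ((1 / 2 : ℝ) ^ n * 2 ^ n) := by ring
        _ = 9 / 4 := by rw [half_two, mul_one]
    have h4 : |(g' i₁ i₁ / g i₂ i₂ * (coA i₁ i₂ σ p g' - coA i₁ i₂ σ p g) * 2 ^ n) *
        (1 / 2) ^ k₁| ≤ 9 / 4 * (1 / 2) ^ k₁ := by
      rw [abs_mul, abs_of_pos hk0]
      exact mul_le_mul_of_nonneg_right h3 hk0.le
    have e4 : resc s' Q i₁ i₂ = (resc s' Q i₁ i₂ - (g' i₁ i₁ / g i₂ i₂ *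
        (coA i₁ i₂ σ p g' - coA i₁ i₂ σ p g) * 2 ^ n) * (1 / 2) ^ k₁) +
        (g' i₁ i₁ / g i₂ i₂ * (coA i₁ i₂ σ p g' - coA i₁ i₂ σ p g) * 2 ^ n) *
          (1 / 2) ^ k₁ := by ring
    rw [e4]
    exact (abs_add_le _ _).trans (by linarith)
  · have h1 := hc i₂ i₃
    rw [vv_two h12, vv_three h23 h13] at h1
    have e1 : ((n : ℝ) - k₁ + p + 2 * ((m : ℝ) + p)) / 3 -
        ((n : ℝ) - k₁ + p - ((m : ℝ) + p)) / 3 = (m : ℝ) + p := by ring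
    rw [e1, fac23] at h1
    have e2 : relM i₁ i₂ i₃ σ p g g' i₂ i₃ = g' i₂ i₂ / g i₃ i₃ * (1 / 2) ^ p *
        (coB i₂ i₃ σ p g' - coB i₂ i₃ σ p g) := by
      simp [relM, h23, h12.symm]
    rw [e2] at h1
    have e3 : g' i₂ i₂ / g i₃ i₃ * (1 / 2) ^ p * (coB i₂ i₃ σ p g' - coB i₂ i₃ σ p g) *
        2 ^ (m + p) = g' i₂ i₂ / g i₃ i₃ * (coB i₂ i₃ σ p g' - coB i₂ i₃ σ p g) * 2 ^ m := by
      have := half_two p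
      calc _ = g' i₂ i₂ / g i₃ i₃ * (coB i₂ i₃ σ p g' - coB i₂ i₃ σ p g) * 2 ^ m *
            ((1 / 2) ^ p * 2 ^ p) := by rw [pow_add]; ring
        _ = _ := by rw [this, mul_one]
    rw [e3] at h1
    have h2 := (ratio (hg' i₂) (hg i₃)).2.1
    have hLk : (1 / 2 : ℝ) ^ L ≤ (1 / 2 : ℝ) ^ k₁ :=
      pow_le_pow_of_le_one (by norm_num) (by norm_num) hL
    have h3 : |g' i₂ i₂ / g i₃ i₃ * (coB i₂ i₃ σ p g' - coB i₂ i₃ σ p g) * 2 ^ m| ≤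
        9 / 8 * (1 / 2) ^ k₁ := by
      rw [abs_mul, abs_mul, abs_of_pos (by positivity : (0 : ℝ) < 2 ^ m)]
      calc |g' i₂ i₂ / g i₃ i₃| * |coB i₂ i₃ σ p g' - coB i₂ i₃ σ p g| * 2 ^ m
          ≤ 9 / 8 * ((1 / 2 : ℝ) ^ (m + L)) * 2 ^ m := by
            refine mul_le_mul_of_nonneg_right ?_ (by positivity)
            exact mul_le_mul h2 hb (abs_nonneg _) (by norm_num)
        _ = 9 / 8 * (1 / 2) ^ L * ((1 / 2 : ℝ) ^ m * 2 ^ m) := by rw [pow_add]; ring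
        _ = 9 / 8 * (1 / 2) ^ L := by rw [half_two, mul_one]
        _ ≤ _ := mul_le_mul_of_nonneg_left hLk (by norm_num)
    have e4 : resc s' Q i₂ i₃ = (resc s' Q i₂ i₃ - g' i₂ i₂ / g i₃ i₃ *
        (coB i₂ i₃ σ p g' - coB i₂ i₃ σ p g) * 2 ^ m) +
        g' i₂ i₂ / g i₃ i₃ * (coB i₂ i₃ σ p g' - coB i₂ i₃ σ p g) * 2 ^ m := by ring
    rw [e4]
    exact (abs_add_le _ _).trans (by linarith)
  · intro i j hij c1 c2 c3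
    have h1 := hc i j
    have e : relM i₁ i₂ i₃ σ p g g' i j = 0 := by
      simp only [relM, Matrix.of_apply]
      rw [if_neg hij, if_neg c1, if_neg c2, if_neg c3]
    rw [e, zero_mul, sub_zero] at h1
    constructor
    · linarith
    · have h2 : |resc s' Q i j| * |V| ≤
          (1 / 2 : ℝ) ^ (7 * N) * 2 ^ (2 * N + 2 * p) * 2 ^ (2 * N + p + 6) :=
        mul_le_mul h1 hV (abs_nonneg _) (by positivity)
      linarith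
  · have h1 := hc i₁ i₃
    rw [vv_one, vv_three h23 h13] at h1
    have e1 : ((n : ℝ) - k₁ + p + 2 * ((m : ℝ) + p)) / 3 -
        -(2 * ((n : ℝ) - k₁ + p) + ((m : ℝ) + p)) / 3 =
        ((n : ℝ) - k₁ + p) + ((m : ℝ) + p) := by ring
    rw [e1, fac13] at h1
    have e2 : relM i₁ i₂ i₃ σ p g g' i₁ i₃ = g' i₁ i₁ / g i₃ i₃ * (1 / 2) ^ (2 * p) *
        (coZ i₁ i₃ σ p g' - coZ i₁ i₃ σ p g -
          (coA i₁ i₂ σ p g' - coA i₁ i₂ σ p g) * coB i₂ i₃ σ p g) := by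
      simp [relM, h13, h23.symm, h12]
    rw [e2] at h1
    have e3 : ∀ D : ℝ, g' i₁ i₁ / g i₃ i₃ * (1 / 2) ^ (2 * p) * D *
        (2 ^ (n + m) * 2 ^ (2 * p) * (1 / 2) ^ k₁) =
        g' i₁ i₁ / g i₃ i₃ * (1 / 2) ^ k₁ * (2 ^ (n + m) * D) := by
      intro D
      have := half_two (2 * p)
      calc _ = g' i₁ i₁ / g i₃ i₃ * (1 / 2) ^ k₁ * (2 ^ (n + m) * D) *
            ((1 / 2) ^ (2 * p) * 2 ^ (2 * p)) := by ring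
        _ = _ := by rw [this, mul_one]
    rw [e3] at h1
    exact h1.trans hs

theorem co_bound {κ : ℝ} {N p : ℕ} {σ : Fin d → ℝ} {h : Matrix (Fin d) (Fin d) ℝ}
    (hκ : κ = (1 / 2 : ℝ) ^ (p + 1)) (hκ64 : κ ≤ 1 / 64)
    (hn : NearOne κ (cN i₁ i₂ i₃ σ N 0 0 0) h) (h12 : i₁ ≠ i₂) (h23 : i₂ ≠ i₃) (h13 : i₁ ≠ i₃) :
    (∀ i, |h i i - 1| ≤ 1 / 64) ∧ |coA i₁ i₂ σ p h| ≤ 1 ∧ |coB i₂ i₃ σ p h| ≤ 1 ∧
      |coZ i₁ i₃ σ p h| ≤ 2 ^ p := by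
  have hκ0 : 0 ≤ κ := by rw [hκ]; positivity
  have hr := GRelAux.resc_le hκ0 hn
  have hd : ∀ i, |h i i - 1| ≤ 1 / 64 := by
    intro i
    have h1 := hr i i
    rw [GRelAux.resc_diag, Matrix.one_apply_eq] at h1
    exact h1.trans hκ64
  have ho : ∀ i j, i ≠ j → |resc σ h i j| ≤ κ := by
    intro i j hij
    have h1 := hr i j
    rwa [Matrix.one_apply_ne hij, sub_zero] at h1
  have hlow : ∀ i, 63 / 64 ≤ h i i := by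
    intro i
    have := abs_le.1 (hd i)
    linarith
  have hp : (0 : ℝ) < 2 ^ p := by positivity
  have e1 : (2 : ℝ) ^ p * (1 / 2) ^ (p + 1) = 1 / 2 := by
    rw [pow_succ, ← mul_assoc, mul_comm ((2 : ℝ) ^ p), half_two, one_mul]
  refine ⟨hd, ?_, ?_, ?_⟩
  · have h0 : 0 < h i₁ i₁ := by linarith [hlow i₁]
    rw [coA, abs_div, abs_mul, abs_of_pos hp, abs_of_pos h0, div_le_one h0]
    calc 2 ^ p * |resc σ h i₁ i₂| ≤ 2 ^ p * κ := mul_le_mul_of_nonneg_left (ho _ _ h12) hp.le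
      _ = 1 / 2 := by rw [hκ, e1]
      _ ≤ _ := by linarith [hlow i₁]
  · have h0 : 0 < h i₂ i₂ := by linarith [hlow i₂]
    rw [coB, abs_div, abs_mul, abs_of_pos hp, abs_of_pos h0, div_le_one h0]
    calc 2 ^ p * |resc σ h i₂ i₃| ≤ 2 ^ p * κ := mul_le_mul_of_nonneg_left (ho _ _ h23) hp.le
      _ = 1 / 2 := by rw [hκ, e1]
      _ ≤ _ := by linarith [hlow i₂]
  · have h0 : 0 < h i₁ i₁ := by linarith [hlow i₁]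
    rw [coZ, abs_div, abs_mul, abs_of_pos (by positivity : (0 : ℝ) < 2 ^ (2 * p)),
      abs_of_pos h0, div_le_iff₀ h0]
    have e2 : (2 : ℝ) ^ (2 * p) = 2 ^ p * 2 ^ p := by rw [two_mul, pow_add]
    calc 2 ^ (2 * p) * |resc σ h i₁ i₃| ≤ 2 ^ (2 * p) * κ :=
          mul_le_mul_of_nonneg_left (ho _ _ h13) (by positivity)
      _ = 2 ^ p * (1 / 2) := by rw [hκ, e2, mul_assoc, e1]
      _ ≤ _ := mul_le_mul_of_nonneg_left (by linarith [hlow i₁]) hp.le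

theorem V_bound {N n m p k₁ : ℕ} (hn : n ≤ N) (hm : m ≤ N) {r a b z a' b' z' ā V : ℝ}
    (hr : |r| ≤ 9 / 8) (ha : |a| ≤ 1) (hb : |b| ≤ 1) (hz : |z| ≤ 2 ^ p) (ha' : |a'| ≤ 1)
    (hb' : |b'| ≤ 1) (hz' : |z'| ≤ 2 ^ p) (hā : |ā| ≤ 2)
    (hV : V = r * (1 / 2) ^ k₁ *
      (2 ^ (n + m) * ((z' - a' * b') + ā * b') - 2 ^ (n + m) * ((z - a * b) + ā * b))) :
    |V| ≤ 2 ^ (2 * N + p + 6) := by
  have hp1 : (1 : ℝ) ≤ 2 ^ p := one_le_pow₀ (by norm_num)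
  have hk1 : (1 / 2 : ℝ) ^ k₁ ≤ 1 := pow_le_one₀ (by norm_num) (by norm_num)
  have h1 : |a' * b'| ≤ 1 * 1 := abs_mul_le' ha' hb'
  have h2 : |ā * b'| ≤ 2 * 1 := abs_mul_le' hā hb'
  have h3 : |a * b| ≤ 1 * 1 := abs_mul_le' ha hb
  have h4 : |ā * b| ≤ 2 * 1 := abs_mul_le' hā hb
  have h5 : |((z' - a' * b') + ā * b') - ((z - a * b) + ā * b)| ≤ 8 * 2 ^ p := by
    rw [abs_le] at *
    constructor <;> linarith [h1.1, h1.2, h2.1, h2.2, h3.1, h3.2, h4.1, h4.2, hz.1, hz.2,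
      hz'.1, hz'.2]
  have e : V = r * (1 / 2) ^ k₁ * (2 ^ (n + m) *
      (((z' - a' * b') + ā * b') - ((z - a * b) + ā * b))) := by rw [hV]; ring
  rw [e, abs_mul, abs_mul, abs_mul, abs_of_pos (by positivity : (0 : ℝ) < (1 / 2) ^ k₁),
    abs_of_pos (by positivity : (0 : ℝ) < 2 ^ (n + m))]
  have h6 : (2 : ℝ) ^ (n + m) ≤ 2 ^ (2 * N) := pow_le_pow_right₀ (by norm_num) (by omega)
  calc |r| * (1 / 2) ^ k₁ * (2 ^ (n + m) *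
        |((z' - a' * b') + ā * b') - ((z - a * b) + ā * b)|)
      ≤ 9 / 8 * 1 * (2 ^ (2 * N) * (8 * 2 ^ p)) := by
        refine mul_le_mul (mul_le_mul hr hk1 (by positivity) (by norm_num)) ?_ (by positivity)
          (by norm_num)
        exact mul_le_mul h6 h5 (abs_nonneg _) (by positivity)
    _ = 9 * (2 ^ (2 * N) * 2 ^ p) := by ring
    _ ≤ 64 * (2 ^ (2 * N) * 2 ^ p) := by
        refine mul_le_mul_of_nonneg_right (by norm_num) (by positivity)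
    _ = 2 ^ (2 * N + p + 6) := by rw [pow_add, pow_add]; ring

theorem prod_bound {n m k₁ L : ℕ} {r u v : ℝ} (hr : |r| ≤ 9 / 8) (hu : |u| ≤ (1 / 2 : ℝ) ^ n)
    (hv : |v| ≤ (1 / 2 : ℝ) ^ (m + L)) :
    |r * (1 / 2) ^ k₁ * (2 ^ (n + m) * (u * v))| ≤ 9 / 8 * (1 / 2) ^ k₁ := by
  have hL : (1 / 2 : ℝ) ^ L ≤ 1 := pow_le_one₀ (by norm_num) (by norm_num)
  have h1 : (2 : ℝ) ^ (n + m) * |u * v| ≤ 1 := by
    calc (2 : ℝ) ^ (n + m) * |u * v| ≤ 2 ^ (n + m) * ((1 / 2) ^ n * (1 / 2) ^ (m + L)) :=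
          mul_le_mul_of_nonneg_left (abs_mul_le' hu hv) (by positivity)
      _ = ((1 / 2) ^ n * 2 ^ n) * ((1 / 2) ^ m * 2 ^ m) * (1 / 2) ^ L := by
          rw [pow_add, pow_add]; ring
      _ = (1 / 2) ^ L := by rw [half_two, half_two, one_mul, one_mul]
      _ ≤ 1 := hL
  rw [abs_mul, abs_mul, abs_mul, abs_of_pos (by positivity : (0 : ℝ) < (1 / 2) ^ k₁),
    abs_of_pos (by positivity : (0 : ℝ) < 2 ^ (n + m))]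
  calc |r| * (1 / 2) ^ k₁ * (2 ^ (n + m) * |u * v|) ≤ 9 / 8 * (1 / 2) ^ k₁ * 1 := by
        refine mul_le_mul ?_ h1 (by positivity) (by positivity)
        exact mul_le_mul_of_nonneg_right hr (by positivity)
    _ = _ := mul_one _

end XMatAux

open XMatAux

theorem hm_cell (d : ℕ) (hd : 3 ≤ d) (k₁ : ℕ) : ∃ N₀ : ℕ, ∀ N : ℕ, N₀ ≤ N →
    ∀ (i₁ i₂ i₃ : Fin d), i₁ ≠ i₂ → i₂ ≠ i₃ → i₁ ≠ i₃ → ∀ (q : ℕ), 3 ≤ q → 8 * q ≤ N →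
    256 * d ^ 2 * (1 / 2 : ℝ) ^ q ≤ 1 → ∀ (σ : Fin d → ℝ)
      (h h' : Matrix (Fin d) (Fin d) ℝ),
    NearOne (4 * (1 / 2 : ℝ) ^ q) (cN i₁ i₂ i₃ σ N 0 0 0) h →
    NearOne (4 * (1 / 2 : ℝ) ^ q) (cN i₁ i₂ i₃ σ N 0 0 0) h' →
    ∀ (n m L : ℕ), k₁ ≤ n → n + L ≤ N → m + L ≤ N → k₁ ≤ L →
    ∀ a b z a' b' z' ā : ℝ, a = coA i₁ i₂ σ (q - 3) h → b = coB i₂ i₃ σ (q - 3) h →
    z = coZ i₁ i₃ σ (q - 3) h → a' = coA i₁ i₂ σ (q - 3) h' → b' = coB i₂ i₃ σ (q - 3) h' →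
    z' = coZ i₁ i₃ σ (q - 3) h' → |a - ā| ≤ (1 / 2 : ℝ) ^ n → |a' - ā| ≤ (1 / 2 : ℝ) ^ n →
    |b' - b| ≤ (1 / 2 : ℝ) ^ (m + L) →
    ∀ V : ℝ, V = h i₁ i₁ / h i₃ i₃ * (1 / 2) ^ k₁ *
      (2 ^ (n + m) * ((z' - a' * b') + ā * b') - 2 ^ (n + m) * ((z - a * b) + ā * b)) →
    (HM i₁ i₂ i₃ (16 * (1 / 2 : ℝ) ^ k₁) V (resc (spos i₁ i₂ i₃ σ n m k₁ q) (h' * h⁻¹)) ∧
      |resc (spos i₁ i₂ i₃ σ n m k₁ q) (h' * h⁻¹) i₁ i₃ -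
        resc (spos i₁ i₂ i₃ σ n m k₁ q) (h' * h⁻¹) i₁ i₁ * V| ≤ 16 * (1 / 2 : ℝ) ^ k₁) ∧
    (HM i₁ i₂ i₃ (16 * (1 / 2 : ℝ) ^ k₁) V (resc (spos i₁ i₂ i₃ σ n m k₁ q) (h * h'⁻¹)) ∧
      |resc (spos i₁ i₂ i₃ σ n m k₁ q) (h * h'⁻¹) i₁ i₃ +
        resc (spos i₁ i₂ i₃ σ n m k₁ q) (h * h'⁻¹) i₃ i₃ * V| ≤ 16 * (1 / 2 : ℝ) ^ k₁) := by
  obtain ⟨N₁, hN₁⟩ := rel_close d
  refine ⟨N₁ + k₁ + 9, ?_⟩
  intro N hN i₁ i₂ i₃ h12 h23 h13 q hq hqN hdq σ h h' hh hh' n m L hkn hnL hmL hkL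
    a b z a' b' z' ā ea eb ez ea' eb' ez' haa haa' hbb V hV
  obtain ⟨p, rfl⟩ := Nat.exists_eq_add_of_le hq
  rw [Nat.add_comm 3 p] at *
  rw [Nat.add_sub_cancel] at ea eb ez ea' eb' ez'
  obtain ⟨κ, hκdef⟩ : ∃ κ : ℝ, κ = 4 * (1 / 2 : ℝ) ^ (p + 3) := ⟨_, rfl⟩
  rw [← hκdef] at hh hh'
  have hκ : κ = (1 / 2 : ℝ) ^ (p + 1) := by
    rw [hκdef, pow_add, pow_add]
    ring
  have hκ0 : 0 ≤ κ := by rw [hκ]; positivity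
  have hd3 : (3 : ℝ) ≤ d := by exact_mod_cast hd
  have hdκ : 64 * (d : ℝ) ^ 2 * κ ≤ 1 := by
    rw [hκdef]
    linarith
  have hd9 : (1 : ℝ) ≤ (d : ℝ) ^ 2 := by nlinarith
  have hκ64 : κ ≤ 1 / 64 := by
    have : κ ≤ (d : ℝ) ^ 2 * κ := by nlinarith
    linarith
  have hdκ' : 32 * (d : ℝ) ^ 2 * κ ≤ 1 := by
    have : 0 ≤ (d : ℝ) ^ 2 * κ := by positivity
    linarith
  obtain ⟨hg, hA, hB, hZ⟩ := co_bound hκ hκ64 hh h12 h23 h13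
  obtain ⟨hg', hA', hB', hZ'⟩ := co_bound hκ hκ64 hh' h12 h23 h13
  have hs : spos i₁ i₂ i₃ σ n m k₁ (p + 3) =
      σ + vv i₁ i₂ i₃ ((n : ℝ) - k₁ + p) ((m : ℝ) + p) := by
    unfold spos
    have e : (((p + 3 : ℕ) : ℝ) - 3) = p := by push_cast; ring
    rw [e]
  rw [hs]
  have hn : n ≤ N := by omega
  have hm : m ≤ N := by omega
  have hāb : |ā| ≤ 2 := by
    have h1 : (1 / 2 : ℝ) ^ n ≤ 1 := pow_le_one₀ (by norm_num) (by norm_num)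
    rw [← ea] at hA
    rw [abs_le] at hA haa ⊢
    constructor <;> linarith [hA.1, hA.2, haa.1, haa.2]
  have hVb : |V| ≤ 2 ^ (2 * N + p + 6) :=
    V_bound hn hm (ratio (hg i₁) (hg i₃)).2.1 (by rw [ea]; exact hA) (by rw [eb]; exact hB)
      (by rw [ez]; exact hZ) (by rw [ea']; exact hA') (by rw [eb']; exact hB')
      (by rw [ez']; exact hZ') hāb hV
  have hda : |a' - a| ≤ 2 * (1 / 2 : ℝ) ^ n := by
    rw [abs_le] at haa haa' ⊢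
    constructor <;> linarith [haa.1, haa.2, haa'.1, haa'.2]
  have hda' : |a - a'| ≤ 2 * (1 / 2 : ℝ) ^ n := by rw [abs_sub_comm]; exact hda
  have hdb' : |b - b'| ≤ (1 / 2 : ℝ) ^ (m + L) := by rw [abs_sub_comm]; exact hbb
  have hk0 : (0 : ℝ) < (1 / 2 : ℝ) ^ k₁ := by positivity
  have hEV : ∀ x y : ℝ, |x - y| ≤ (1 / 2 : ℝ) ^ (7 * N) → |(x - y) * V| ≤ (1 / 2 : ℝ) ^ k₁ := by
    intro x y hxy
    exact (abs_mul_le' hxy hVb).trans (small (by omega))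
  have hQ := hN₁ N (by omega) i₁ i₂ i₃ h12 h23 h13 σ p κ hκ0 hdκ' h h' hh hh'
  have hP := hN₁ N (by omega) i₁ i₂ i₃ h12 h23 h13 σ p κ hκ0 hdκ' h' h hh' hh
  have hF := hm_of h12 h23 h13 (by omega : k₁ + 9 ≤ N) hqN hkn hn hm hkL hg hg' hQ
    (by rw [← ea, ← ea']; exact hda) (by rw [← eb, ← eb']; exact hbb) hVb
  have hG := hm_of h12 h23 h13 (by omega : k₁ + 9 ≤ N) hqN hkn hn hm hkL hg' hg hP
    (by rw [← ea, ← ea']; exact hda') (by rw [← eb, ← eb']; exact hdb') hVb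
  rw [← ea, ← eb, ← ez, ← ea', ← ez'] at hF
  rw [← ea, ← eb', ← ez, ← ea', ← ez'] at hG
  refine ⟨⟨hF.1, ?_⟩, hG.1, ?_⟩
  · have h1 := hF.2.2
    have h2 := hEV _ _ (hF.2.1 i₁)
    have r1 := ratio (hg' i₁) (hg i₃)
    have r2 := ratio (hg' i₁) (hg i₁)
    have h3 := prod_bound (k₁ := k₁) r1.2.1 haa' hbb
    have e : h' i₁ i₁ / h i₃ i₃ * (1 / 2) ^ k₁ * (2 ^ (n + m) * (z' - z - (a' - a) * b)) -
        h' i₁ i₁ / h i₁ i₁ * V =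
        h' i₁ i₁ / h i₃ i₃ * (1 / 2) ^ k₁ * (2 ^ (n + m) * ((a' - ā) * (b' - b))) := by
      rw [hV]
      have := r1.2.2.ne'
      have := r2.2.2.ne'
      field_simp
      ring
    rw [← e] at h3
    rw [abs_le] at h1 h2 h3 ⊢
    constructor <;> linarith [h1.1, h1.2, h2.1, h2.2, h3.1, h3.2]
  · have h1 := hG.2.2
    have h2 := hEV _ _ (hG.2.1 i₃)
    have r1 := ratio (hg i₁) (hg' i₃)
    have r2 := ratio (hg i₃) (hg' i₃)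
    have h3 := prod_bound (k₁ := k₁) r1.2.1 haa hdb'
    have e : h i₁ i₁ / h' i₃ i₃ * (1 / 2) ^ k₁ * (2 ^ (n + m) * (z - z' - (a - a') * b')) +
        h i₃ i₃ / h' i₃ i₃ * V =
        h i₁ i₁ / h' i₃ i₃ * (1 / 2) ^ k₁ * (2 ^ (n + m) * ((a - ā) * (b - b'))) := by
      rw [hV]
      have := r1.2.2.ne'
      have := (ratio (hg' i₁) (hg i₃)).2.2.ne'
      field_simp
      ring
    rw [← e] at h3
    rw [abs_le] at h1 h2 h3 ⊢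
    constructor <;> linarith [h1.1, h1.2, h2.1, h2.2, h3.1, h3.2]

end Pool.Agent.Lib.P51n
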